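import Pool.Agent.H621.ZM.Spec

set_option autoImplicit false

namespace Pool.Agent.H621.ZM.Barrier

open Finset Pool.Agent.H621.ZM

section

variable {V : Type} [Fintype V] [DecidableEq V]

open Classical in
theorem two_miss (G : SimpleGraph V) (Q : Finset (V × V))
    (hQ : ∀ p ∈ Q, p.1 ≠ p.2 ∧ ¬ G.Adj p.1 p.2) : Q.card ≤ 2 * miss G := by
  have h1 := Gᶜ.sum_degrees_eq_twice_card_edges
  have h2 : miss G = Gᶜ.edgeFinset.card := by
    unfold miss
    rw [← SimpleGraph.coe_edgeFinset, Set.ncard_coe_finset]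
  rw [h2, ← h1]
  have h3 : ∀ v, Gᶜ.degree v = (univ.filter (fun w => v ≠ w ∧ ¬ G.Adj v w)).card := by
    intro v
    rw [← SimpleGraph.card_neighborFinset_eq_degree]
    refine congrArg Finset.card ?_
    ext w
    simp [SimpleGraph.compl_adj]
  have h4 : ∑ v, Gᶜ.degree v =
      ((univ : Finset (V × V)).filter (fun p => p.1 ≠ p.2 ∧ ¬ G.Adj p.1 p.2)).card := by
    rw [Finset.card_filter, Fintype.sum_prod_type]
    refine Finset.sum_congr rfl fun v _ => ?_
    rw [h3 v, Finset.card_filter]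
  rw [h4]
  refine Finset.card_le_card fun p hp => ?_
  rw [Finset.mem_filter]
  exact ⟨mem_univ _, hQ p hp⟩

/-- the main count -/
theorem mc (G : SimpleGraph V) (S : Finset V) (K : Finset (Finset V)) (hK : Pieces G S K) :
    ∃ M : ℤ, 0 ≤ M ∧ (∑ C ∈ K, (C.card : ℤ)) + M + S.card = Fintype.card V ∧
      (∑ C ∈ K, (C.card : ℤ) * ((Fintype.card V : ℤ) - S.card - C.card)) +
        M * ∑ C ∈ K, (C.card : ℤ) ≤ 2 * (miss G : ℤ) ∧
      ∀ D : Finset V, Disjoint D S → (∀ C ∈ K, Disjoint C D) → (D.card : ℤ) ≤ M := by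
  obtain ⟨hK1, hK2⟩ := hK
  obtain ⟨Un, hUn⟩ : ∃ Un : Finset V, Un = K.biUnion id := ⟨_, rfl⟩
  have hmU : ∀ v, v ∈ Un ↔ ∃ C ∈ K, v ∈ C := by
    intro v
    rw [hUn, Finset.mem_biUnion]
    simp
  have hUc : Un.card = ∑ C ∈ K, C.card := by
    rw [hUn, Finset.card_biUnion]
    · rfl
    · intro C hC D hD hCD
      exact hK2 hC hD hCD
  have hUS : Disjoint Un S := by
    rw [Finset.disjoint_left]
    intro v hv hvS
    obtain ⟨C, hC, hvC⟩ := (hmU v).1 hv
    exact Finset.disjoint_left.1 (hK1 C hC).2.1 hvC hvS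
  obtain ⟨W, hW⟩ : ∃ W : Finset V, W = univ \ (Un ∪ S) := ⟨_, rfl⟩
  have hmW : ∀ v, v ∈ W ↔ v ∉ Un ∧ v ∉ S := by
    intro v
    rw [hW, Finset.mem_sdiff, Finset.mem_union, not_or]
    simp
  have hWc : W.card + (Un.card + S.card) = Fintype.card V := by
    rw [hW, ← Finset.card_union_of_disjoint hUS, ← Finset.card_univ]
    exact Finset.card_sdiff_add_card_eq_card (Finset.subset_univ _)
  have hUcz : (∑ C ∈ K, (C.card : ℤ)) = Un.card := by
    rw [hUc, Nat.cast_sum]
  refine ⟨W.card, Int.natCast_nonneg _, ?_, ?_, ?_⟩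
  · rw [hUcz]
    have : (W.card : ℤ) + (Un.card + S.card) = Fintype.card V := by exact_mod_cast hWc
    linarith
  · obtain ⟨Q1, hQ1⟩ : ∃ Q1 : Finset (V × V), Q1 = K.biUnion (fun C => C ×ˢ (univ \ (C ∪ S))) :=
      ⟨_, rfl⟩
    have hmQ1 : ∀ p, p ∈ Q1 ↔ ∃ C ∈ K, p.1 ∈ C ∧ p.2 ∉ C ∧ p.2 ∉ S := by
      intro p
      rw [hQ1, Finset.mem_biUnion]
      simp [Finset.mem_product, not_or]
    have hc1 : (Q1.card : ℤ) =
        ∑ C ∈ K, (C.card : ℤ) * ((Fintype.card V : ℤ) - S.card - C.card) := by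
      rw [hQ1, Finset.card_biUnion, Nat.cast_sum]
      · refine Finset.sum_congr rfl fun C hC => ?_
        rw [Finset.card_product, Nat.cast_mul]
        have h1 : (univ \ (C ∪ S)).card + (C.card + S.card) = Fintype.card V := by
          rw [← Finset.card_union_of_disjoint (hK1 C hC).2.1, ← Finset.card_univ]
          exact Finset.card_sdiff_add_card_eq_card (Finset.subset_univ _)
        have h2 : ((univ \ (C ∪ S)).card : ℤ) + (C.card + S.card) = Fintype.card V := by
          exact_mod_cast h1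
        have h3 : ((univ \ (C ∪ S)).card : ℤ) = (Fintype.card V : ℤ) - S.card - C.card := by
          linarith
        rw [h3]
      · intro C hC D hD hCD
        rw [Function.onFun, Finset.disjoint_left]
        intro p hp hp'
        exact Finset.disjoint_left.1 (hK2 hC hD hCD) (Finset.mem_product.1 hp).1
          (Finset.mem_product.1 hp').1
    have hdis : Disjoint Q1 (W ×ˢ Un) := by
      rw [Finset.disjoint_left]
      intro p hp hp'
      obtain ⟨C, hC, hpC, -⟩ := (hmQ1 p).1 hp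
      exact ((hmW _).1 (Finset.mem_product.1 hp').1).1 ((hmU _).2 ⟨C, hC, hpC⟩)
    have hmain := two_miss G (Q1 ∪ (W ×ˢ Un)) (by
      intro p hp
      rcases Finset.mem_union.1 hp with hp | hp
      · obtain ⟨C, hC, h1, h2, h3⟩ := (hmQ1 p).1 hp
        refine ⟨fun h => h2 (h ▸ h1), fun h => ?_⟩
        rcases (hK1 C hC).2.2 p.1 h1 p.2 h with h4 | h4
        · exact h2 h4
        · exact h3 h4
      · obtain ⟨h1, h2⟩ := Finset.mem_product.1 hp
        obtain ⟨h3, h4⟩ := (hmW _).1 h1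
        obtain ⟨C, hC, h5⟩ := (hmU _).1 h2
        have h6 : p.1 ∉ C := fun h => h3 ((hmU _).2 ⟨C, hC, h⟩)
        refine ⟨fun h => h6 (h ▸ h5), fun h => ?_⟩
        rcases (hK1 C hC).2.2 p.2 h5 p.1 h.symm with h7 | h7
        · exact h6 h7
        · exact h4 h7)
    rw [Finset.card_union_of_disjoint hdis, Finset.card_product] at hmain
    have h8 : (Q1.card : ℤ) + W.card * Un.card ≤ 2 * (miss G : ℤ) := by exact_mod_cast hmain
    rw [hUcz, ← hc1]
    exact h8
  · intro D hDS hDK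
    have h1 : D ⊆ W := by
      intro v hv
      refine (hmW v).2 ⟨fun h => ?_, Finset.disjoint_left.1 hDS hv⟩
      obtain ⟨C, hC, hvC⟩ := (hmU v).1 h
      exact Finset.disjoint_left.1 (hDK C hC) hvC hv
    exact_mod_cast Finset.card_le_card h1

/-- the bound for pieces of bounded sizes -/
theorem mc2 (G : SimpleGraph V) (S : Finset V) (K : Finset (Finset V)) (hK : Pieces G S K)
    (D : Finset V) (hDS : Disjoint D S) (hDK : ∀ C ∈ K, Disjoint C D) (c : ℤ) (hc : 0 ≤ c)
    (hcD : c ≤ D.card) (hlo : ∀ C ∈ K, c ≤ (C.card : ℤ)) (hhi : ∀ C ∈ K, C.card ≤ D.card) (N : ℤ)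
    (hN : N = (Fintype.card V : ℤ) - S.card) :
    ((K.card : ℤ) + 1) * c ≤ N ∧
      (K.card : ℤ) * c * (2 * N - ((K.card : ℤ) + 1) * c) ≤ 2 * (miss G : ℤ) := by
  obtain ⟨M, hM0, hM1, hM2, hM3⟩ := mc G S K hK
  have hDM := hM3 D hDS hDK
  obtain ⟨sg, hsg⟩ : ∃ sg : ℤ, sg = ∑ C ∈ K, (C.card : ℤ) := ⟨_, rfl⟩
  obtain ⟨y, hy⟩ : ∃ y : ℤ, y = (K.card : ℤ) := ⟨_, rfl⟩
  rw [← hsg] at hM1 hM2
  rw [← hN] at hM2
  rw [← hy]
  have hy0 : 0 ≤ y := by rw [hy]; exact Int.natCast_nonneg _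
  have hNM : N = sg + M := by linarith
  have h1 : y * c ≤ sg := by
    rw [hsg, hy]
    have := Finset.card_nsmul_le_sum K (fun C => (C.card : ℤ)) c hlo
    rwa [nsmul_eq_mul] at this
  have hcM : c ≤ M := hcD.trans hDM
  have h2 : ∑ C ∈ K, (C.card : ℤ) * (N - C.card) ≥ sg * N - (c + M) * sg + y * (c * M) := by
    have h3 : sg * N - (c + M) * sg + y * (c * M) =
        ∑ C ∈ K, ((C.card : ℤ) * N - (c + M) * C.card + c * M) := by
      rw [Finset.sum_add_distrib, Finset.sum_sub_distrib, ← Finset.sum_mul, ← Finset.mul_sum,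
        Finset.sum_const, nsmul_eq_mul, ← hsg, ← hy]
    rw [h3]
    refine Finset.sum_le_sum fun C hC => ?_
    have h4 := hlo C hC
    have h5 : (C.card : ℤ) ≤ M := by
      have h6 : (C.card : ℤ) ≤ D.card := by exact_mod_cast hhi C hC
      linarith
    nlinarith [mul_nonneg (sub_nonneg.2 h4) (sub_nonneg.2 h5)]
  have h6 : (y + 1) * c ≤ N := by
    rw [hNM]
    linarith
  refine ⟨h6, ?_⟩
  have h7 : sg * N - (c + M) * sg + y * (c * M) + M * sg ≤ 2 * (miss G : ℤ) := by linarith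
  have h8 : 0 ≤ (sg - y * c) * (N - (y + 1) * c) :=
    mul_nonneg (by linarith) (by linarith)
  have h9 : sg * N - (c + M) * sg + y * (c * M) + M * sg =
      (sg - y * c) * (N - (y + 1) * c) + y * c * (2 * N - (y + 1) * c) := by
    rw [hNM]
    ring
  linarith

end

theorem two_m1 (s r : ℕ) (hs : 1 ≤ s) : 2 * (m1 s r : ℤ) = r * (4 * s - 3 + r) := by
  unfold m1
  have h1 := Nat.choose_two_right r
  have h2 : 2 * (r.choose 2) = r * (r - 1) := by
    rw [h1]
    exact Nat.mul_div_cancel' (Nat.even_mul_pred_self r).two_dvd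
  have h3 : 2 * ((r.choose 2 : ℕ) : ℤ) = r * (r - 1) := by
    rcases Nat.eq_zero_or_pos r with rfl | hr
    · simp
    · have h4 : ((2 * (r.choose 2) : ℕ) : ℤ) = ((r * (r - 1) : ℕ) : ℤ) := by rw [h2]
      push_cast [Nat.cast_sub hr] at h4
      exact h4
  have h5 : ((2 * s - 1 : ℕ) : ℤ) = 2 * s - 1 := by
    rw [Nat.cast_sub (by omega)]
    push_cast
    rfl
  push_cast
  rw [h5]
  linarith

theorem two_m2 (s r : ℕ) (hs : 1 ≤ s) : 2 * (m2 s r : ℤ) = (s + r) * (s + r - 1) := by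
  unfold m2
  have h1 := Nat.choose_two_right (s + r)
  have h2 : 2 * ((s + r).choose 2) = (s + r) * (s + r - 1) := by
    rw [h1]
    exact Nat.mul_div_cancel' (Nat.even_mul_pred_self (s + r)).two_dvd
  have h4 : ((2 * ((s + r).choose 2) : ℕ) : ℤ) = (((s + r) * (s + r - 1) : ℕ) : ℤ) := by rw [h2]
  have h5 : 1 ≤ s + r := by omega
  push_cast [Nat.cast_sub h5] at h4
  exact h4

theorem barrier : S_Barrier := by
  classical
  intro V _ _ G s r hs hr hrs hV hdeg S K hK hK2 hSK
  obtain ⟨hK1, hKd⟩ := hK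
  have hm1 := two_m1 s r (by omega)
  have hm2 := two_m2 s r (by omega)
  obtain ⟨A, hA⟩ : ∃ A : ℤ, A = S.card := ⟨_, rfl⟩
  obtain ⟨N, hN⟩ : ∃ N : ℤ, N = (Fintype.card V : ℤ) - S.card := ⟨_, rfl⟩
  have hVz : (Fintype.card V : ℤ) + 2 = 3 * s + r := by exact_mod_cast hV
  have hSKz : A + r + 2 ≤ (K.card : ℤ) + s := by rw [hA]; exact_mod_cast hSK
  have hsz : (2 : ℤ) ≤ s := by exact_mod_cast hs
  have hrz : (1 : ℤ) ≤ r := by exact_mod_cast hr
  have hrsz : (r : ℤ) + 1 ≤ s := by exact_mod_cast hrs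
  have hKz : (2 : ℤ) ≤ K.card := by exact_mod_cast hK2
  have hNA : N = 3 * s + r - 2 - A := by rw [hN, hA]; linarith
  have goal1 : (2 * (m1 s r : ℤ) ≤ 2 * (miss G : ℤ) ∨ 2 * (m2 s r : ℤ) ≤ 2 * (miss G : ℤ)) →
      mm s r ≤ miss G := by
    rintro (h | h)
    · have h1 : m1 s r ≤ miss G := by
        have : (m1 s r : ℤ) ≤ miss G := by linarith
        exact_mod_cast this
      exact (min_le_left _ _).trans h1
    · have h1 : m2 s r ≤ miss G := by
        have : (m2 s r : ℤ) ≤ miss G := by linarith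
        exact_mod_cast this
      exact (min_le_right _ _).trans h1
  apply goal1
  have hne : K.Nonempty := Finset.card_pos.1 (by omega)
  obtain ⟨Cm, hCm, hCmax⟩ := Finset.exists_max_image K Finset.card hne
  have hKe : Pieces G S (K.erase Cm) :=
    ⟨fun C hC => hK1 C (Finset.mem_of_mem_erase hC),
      hKd.subset (Finset.coe_subset.2 (Finset.erase_subset _ _))⟩
  have hey : ((K.erase Cm).card : ℤ) = K.card - 1 := by
    rw [Finset.card_erase_of_mem hCm, Nat.cast_sub (by omega)]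
    push_cast
    rfl
  obtain ⟨y, hy⟩ : ∃ y : ℤ, y = ((K.erase Cm).card : ℤ) := ⟨_, rfl⟩
  have hdm : ∀ C ∈ K.erase Cm, Disjoint C Cm := fun C hC =>
    hKd (Finset.mem_of_mem_erase hC) hCm (Finset.ne_of_mem_erase hC)
  have hhi : ∀ C ∈ K.erase Cm, C.card ≤ Cm.card := fun C hC =>
    hCmax C (Finset.mem_of_mem_erase hC)
  by_cases hAs : (s : ℤ) ≤ A
  · -- many vertices in the separator
    have h1 : ∀ C ∈ K, (1 : ℤ) ≤ C.card := fun C hC => by
      exact_mod_cast Finset.card_pos.2 (hK1 C hC).1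
    obtain ⟨h2, h3⟩ := mc2 G S (K.erase Cm) hKe Cm (hK1 Cm hCm).2.1 hdm 1 (by norm_num)
      (h1 Cm hCm) (fun C hC => h1 C (Finset.mem_of_mem_erase hC)) hhi N hN
    rw [← hy] at h2 h3
    obtain ⟨i, hi⟩ : ∃ i : ℤ, i = A - s := ⟨_, rfl⟩
    have hi0 : 0 ≤ i := by linarith
    have hyi : r + 1 + i ≤ y := by linarith
    have hNi : N = 2 * s - 2 + r - i := by linarith
    have his : i ≤ s - 2 := by linarith
    have h4 : (r + 1 + i) * (4 * s - 6 + r - 3 * i) ≤ 2 * (miss G : ℤ) := by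
      refine le_trans ?_ h3
      have h5 : 0 ≤ (y - (r + 1 + i)) * (2 * N - 1 - y - (r + 1 + i)) :=
        mul_nonneg (by linarith) (by linarith)
      rw [hNi] at h5 ⊢
      nlinarith
    rcases le_or_gt 0 (4 * (s : ℤ) - 9 - 2 * r - 3 * i) with h5 | h5
    · left
      rw [hm1]
      refine le_trans ?_ h4
      have h6 := mul_nonneg hi0 h5
      nlinarith
    · rcases hi0.eq_or_lt with h6 | h6
      · left
        rw [hm1]
        refine le_trans ?_ h4
        rw [← h6]
        nlinarith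
      · right
        rw [hm2]
        refine le_trans ?_ h4
        have h7 : 0 ≤ (s - 2 - i) * (-(s : ℤ) + 2 * r + 3 + 3 * i) :=
          mul_nonneg (by linarith) (by linarith)
        nlinarith
  · -- few vertices in the separator
    push Not at hAs
    obtain ⟨x, hx⟩ : ∃ x : ℤ, x = s - A := ⟨_, rfl⟩
    have hx1 : 1 ≤ x := by omega
    have hbig : ∀ C ∈ K, x + 1 ≤ (C.card : ℤ) := by
      intro C hC
      obtain ⟨⟨v, hv⟩, hCS, hCn⟩ := hK1 C hC
      have h1 : G.neighborSet v ⊆ ((C.erase v ∪ S : Finset V) : Set V) := by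
        intro w hw
        rw [SimpleGraph.mem_neighborSet] at hw
        rw [Finset.coe_union, Set.mem_union, Finset.mem_coe, Finset.mem_coe]
        rcases hCn v hv w hw with h | h
        · exact Or.inl (Finset.mem_erase.2 ⟨hw.ne', h⟩)
        · exact Or.inr h
      have h2 := Set.ncard_le_ncard h1 (Finset.finite_toSet _)
      rw [Set.ncard_coe_finset] at h2
      have h3 := Finset.card_union_le (C.erase v) S
      rw [Finset.card_erase_of_mem hv] at h3
      have h4 := hdeg v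
      have h5 : 1 ≤ C.card := Finset.card_pos.2 ⟨v, hv⟩
      have h6 : s + 1 ≤ C.card + S.card := by omega
      have h7 : (s : ℤ) + 1 ≤ C.card + S.card := by exact_mod_cast h6
      rw [hx, hA]
      linarith
    have hNx : N = 2 * s - 2 + r + x := by linarith
    left
    rw [hm1]
    rcases le_or_gt (x + 1) (r : ℤ) with hxr | hxr
    · obtain ⟨h2, h3⟩ := mc2 G S (K.erase Cm) hKe Cm (hK1 Cm hCm).2.1 hdm (x + 1) (by linarith)
        (hbig Cm hCm) (fun C hC => hbig C (Finset.mem_of_mem_erase hC)) hhi N hN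
      rw [← hy] at h2 h3
      have hyx : r + 1 - x ≤ y := by linarith
      have h4 : 2 * (r : ℤ) ≤ y * (x + 1) := by
        have h5 : 0 ≤ (x - 1) * (r - 1 - x) := mul_nonneg (by linarith) (by linarith)
        have h6 : (r + 1 - x) * (x + 1) ≤ y * (x + 1) :=
          mul_le_mul_of_nonneg_right hyx (by linarith)
        nlinarith
      have hN0 : 0 ≤ N := by rw [hNx]; linarith
      have h5 : 2 * (r : ℤ) * N ≤ 2 * (miss G : ℤ) := by
        have h6 : y * (x + 1) * N ≤ y * (x + 1) * (2 * N - (y + 1) * (x + 1)) :=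
          mul_le_mul_of_nonneg_left (by linarith) (by linarith)
        have h7 := mul_le_mul_of_nonneg_right h4 hN0
        linarith
      refine le_trans ?_ h5
      rw [hNx]
      nlinarith
    · obtain ⟨Cn, hCn, hCmin⟩ := Finset.exists_min_image K Finset.card hne
      have hK1' : Pieces G S {Cn} := by
        refine ⟨fun C hC => ?_, ?_⟩
        · rw [Finset.mem_singleton] at hC
          rw [hC]
          exact hK1 Cn hCn
        · rw [Finset.coe_singleton]
          exact Set.pairwiseDisjoint_singleton _ _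
      obtain ⟨M, hM0, hM1, hM2, hM3⟩ := mc G S {Cn} hK1'
      rw [Finset.sum_singleton] at hM1 hM2
      rw [Finset.sum_singleton, ← hN] at hM2
      obtain ⟨D, hD, hDn⟩ := Finset.exists_mem_ne (by omega : 1 < K.card) Cn
      have h4 := hM3 D (hK1 D hD).2.1 (by
        intro C hC
        rw [Finset.mem_singleton] at hC
        rw [hC]
        exact hKd hCn hD hDn.symm)
      have h5 : (Cn.card : ℤ) ≤ D.card := by exact_mod_cast hCmin D hD
      obtain ⟨c, hc⟩ : ∃ c : ℤ, c = Cn.card := ⟨_, rfl⟩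
      rw [← hc] at hM1 hM2 h5
      have hcx : x + 1 ≤ c := by rw [hc]; exact hbig Cn hCn
      have hMN : M = N - c := by linarith
      have h2c : 2 * c ≤ N := by linarith
      have h6 : 2 * ((x + 1) * (N - x - 1)) ≤ 2 * (miss G : ℤ) := by
        have h7 : 0 ≤ (c - (x + 1)) * (N - c - (x + 1)) := mul_nonneg (by linarith) (by linarith)
        rw [hMN] at hM2
        nlinarith
      refine le_trans ?_ h6
      rw [hNx]
      have h8 : 0 ≤ (x - r) * (2 * (s : ℤ) - 3 + r) := mul_nonneg (by linarith) (by linarith)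
      nlinarith

end Pool.Agent.H621.ZM.Barrier
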