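import Pool.Agent.H621.ZM.Spec

/-!
BIG: large minimum degree gives a large matching.
-/

set_option autoImplicit false

namespace Pool.Agent.H621.ZM.Big

open Finset Pool.Agent.H621.ZM

variable {V : Type} [DecidableEq V] {G : SimpleGraph V}

lemma isM_insert {F : Finset (Sym2 V)} (hF : IsM G F) {x y : V} (hxy : G.Adj x y)
    (hx : ∀ e ∈ F, x ∉ e) (hy : ∀ e ∈ F, y ∉ e) : IsM G (insert s(x, y) F) := by
  refine ⟨?_, ?_⟩
  · intro e he
    rcases Finset.mem_insert.1 he with rfl | he
    · exact hxy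
    · exact hF.1 e he
  · intro e he f hf hef v hv
    rcases Finset.mem_insert.1 he with rfl | he'
    · rcases Finset.mem_insert.1 hf with rfl | hf'
      · exact absurd rfl hef
      · rcases Sym2.mem_iff.1 hv with rfl | rfl
        · exact hx f hf'
        · exact hy f hf'
    · rcases Finset.mem_insert.1 hf with rfl | hf'
      · intro hv'
        rcases Sym2.mem_iff.1 hv' with rfl | rfl
        · exact hx e he' hv
        · exact hy e he' hv
      · exact hF.2 e he' f hf' hef v hv

lemma card_insert' {F : Finset (Sym2 V)} {x y : V} (hx : ∀ e ∈ F, x ∉ e) :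
    (insert s(x, y) F).card = F.card + 1 :=
  Finset.card_insert_of_notMem fun h => hx _ h (Sym2.mem_mk_left x y)

omit [DecidableEq V] in
lemma isM_subset {F F' : Finset (Sym2 V)} (hF : IsM G F) (h : F' ⊆ F) : IsM G F' :=
  ⟨fun e he => hF.1 e (h he), fun e he f hf => hF.2 e (h he) f (h hf)⟩

/-- the exchange of one edge for two -/
lemma exch {F : Finset (Sym2 V)} (hF : IsM G F) {x y a b : V} (he : s(a, b) ∈ F) (hxy : x ≠ y)
    (hx : ∀ e ∈ F, x ∉ e) (hy : ∀ e ∈ F, y ∉ e) (hxa : G.Adj x a) (hyb : G.Adj y b) :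
    ∃ F', IsM G F' ∧ F'.card = F.card + 1 := by
  have hab : a ≠ b := G.ne_of_adj (hF.1 _ he)
  have hE : IsM G (F.erase s(a, b)) := isM_subset hF (Finset.erase_subset _ _)
  have h1 : ∀ e ∈ F.erase s(a, b), a ∉ e := fun e h =>
    hF.2 _ he e (Finset.mem_of_mem_erase h) (Finset.ne_of_mem_erase h).symm a
      (Sym2.mem_mk_left a b)
  have h2 : ∀ e ∈ F.erase s(a, b), b ∉ e := fun e h =>
    hF.2 _ he e (Finset.mem_of_mem_erase h) (Finset.ne_of_mem_erase h).symm b
      (Sym2.mem_mk_right a b)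
  have h3 : ∀ e ∈ F.erase s(a, b), x ∉ e := fun e h => hx e (Finset.mem_of_mem_erase h)
  have h4 : ∀ e ∈ F.erase s(a, b), y ∉ e := fun e h => hy e (Finset.mem_of_mem_erase h)
  have h5 := isM_insert hE hxa h3 h1
  have hya : y ≠ a := fun h => hy _ he (h ▸ Sym2.mem_mk_left a b)
  have hxb : x ≠ b := fun h => hx _ he (h ▸ Sym2.mem_mk_right a b)
  have h6 : ∀ e ∈ insert s(x, a) (F.erase s(a, b)), y ∉ e := by
    intro e h
    rcases Finset.mem_insert.1 h with rfl | h
    · intro h'
      rcases Sym2.mem_iff.1 h' with h' | h'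
      · exact hxy h'.symm
      · exact hya h'
    · exact h4 e h
  have h7 : ∀ e ∈ insert s(x, a) (F.erase s(a, b)), b ∉ e := by
    intro e h
    rcases Finset.mem_insert.1 h with rfl | h
    · intro h'
      rcases Sym2.mem_iff.1 h' with h' | h'
      · exact hxb h'.symm
      · exact hab h'.symm
    · exact h2 e h
  refine ⟨_, isM_insert h5 hyb h6 h7, ?_⟩
  rw [card_insert' h6, card_insert' h3, Finset.card_erase_of_mem he]
  have : 0 < F.card := Finset.card_pos.2 ⟨_, he⟩
  omega

lemma aux (p q r t : Prop) [Decidable p] [Decidable q] [Decidable r] [Decidable t]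
    (h1 : ¬ (p ∧ t)) (h2 : ¬ (q ∧ r)) :
    (if p then 1 else 0) + (if q then 1 else 0) + ((if r then 1 else 0) + (if t then 1 else 0)) ≤
      2 := by
  by_cases p <;> by_cases q <;> by_cases r <;> by_cases t <;> simp_all

theorem big : S_Big := by
  intro V _ _ G s hs hcard hdeg
  classical
  obtain ⟨F, hF, hmax⟩ : ∃ F : Finset (Sym2 V), IsM G F ∧ ∀ F', IsM G F' → F'.card ≤ F.card := by
    have hne : (Finset.univ.filter (fun F : Finset (Sym2 V) => IsM G F)).Nonempty :=
      ⟨∅, Finset.mem_filter.2 ⟨Finset.mem_univ _, by simp [IsM]⟩⟩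
    obtain ⟨F, hF, hmax⟩ := Finset.exists_max_image _ Finset.card hne
    exact ⟨F, (Finset.mem_filter.1 hF).2, fun F' hF' =>
      hmax F' (Finset.mem_filter.2 ⟨Finset.mem_univ _, hF'⟩)⟩
  by_cases hle : 2 * s - 1 ≤ F.card
  · obtain ⟨F', h1, h2⟩ := Finset.exists_subset_card_eq hle
    exact ⟨F', isM_subset hF h1, h2⟩
  exfalso
  set U : Finset V := F.biUnion Sym2.toFinset with hU
  have hmem : ∀ v, v ∈ U ↔ ∃ e ∈ F, v ∈ e := by
    intro v
    simp [hU]
  have hU2 : U.card ≤ F.card * 2 := by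
    refine Finset.card_biUnion_le_card_mul _ _ _ fun e he => ?_
    induction e with
    | _ a b =>
      have : Sym2.toFinset s(a, b) ⊆ {a, b} := by
        intro v
        simp
      exact (Finset.card_le_card this).trans Finset.card_le_two
  have hUc : 1 < Uᶜ.card := by
    rw [Finset.card_compl]
    omega
  obtain ⟨x, hx, y, hy, hxy⟩ := Finset.one_lt_card.1 hUc
  have hun : ∀ x, x ∈ Uᶜ → ∀ e ∈ F, x ∉ e := by
    intro x hx e he h
    exact Finset.mem_compl.1 hx ((hmem x).2 ⟨e, he, h⟩)
  have hnb : ∀ x, x ∈ Uᶜ → ∀ u, G.Adj x u → u ∈ U := by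
    intro x hx u hxu
    by_contra hu
    have h1 := isM_insert hF hxu (hun x hx) (hun u (Finset.mem_compl.2 hu))
    have h2 := hmax _ h1
    rw [card_insert' (hun x hx)] at h2
    omega
  have hN : ∀ x, x ∈ Uᶜ → 2 * s - 1 ≤ ∑ e ∈ F, (e.toFinset.filter (G.Adj x)).card := by
    intro x hx
    refine (hdeg x).trans ?_
    have h1 : G.neighborSet x = ((F.biUnion fun e => e.toFinset.filter (G.Adj x) : Finset V) :
        Set V) := by
      ext u
      simp only [SimpleGraph.mem_neighborSet, Finset.coe_biUnion, Finset.mem_coe,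
        Set.mem_iUnion, Finset.mem_filter, Sym2.mem_toFinset, exists_prop]
      constructor
      · intro h
        obtain ⟨e, he, hu⟩ := (hmem u).1 (hnb x hx u h)
        exact ⟨e, he, hu, h⟩
      · rintro ⟨e, he, hu, h⟩
        exact h
    rw [h1, Set.ncard_coe_finset]
    exact Finset.card_biUnion_le
  have hE : ∀ e ∈ F, (e.toFinset.filter (G.Adj x)).card + (e.toFinset.filter (G.Adj y)).card ≤
      2 := by
    intro e he
    induction e with
    | _ a b =>
      have hab : a ≠ b := G.ne_of_adj (hF.1 _ he)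
      have c1 : ¬ (G.Adj x a ∧ G.Adj y b) := by
        rintro ⟨h1, h2⟩
        obtain ⟨F', h3, h4⟩ := exch hF he hxy (hun x hx) (hun y hy) h1 h2
        have := hmax F' h3
        omega
      have c2 : ¬ (G.Adj x b ∧ G.Adj y a) := by
        rintro ⟨h1, h2⟩
        obtain ⟨F', h3, h4⟩ := exch hF (a := b) (b := a) (by rwa [Sym2.eq_swap]) hxy (hun x hx)
          (hun y hy) h1 h2
        have := hmax F' h3
        omega
      have e1 : Sym2.toFinset s(a, b) = {a, b} := by
        ext v
        simp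
      have e2 : ∀ w, ((Sym2.toFinset s(a, b)).filter (G.Adj w)).card =
          (if G.Adj w a then 1 else 0) + (if G.Adj w b then 1 else 0) := by
        intro w
        rw [e1, Finset.card_filter, Finset.sum_pair hab]
      rw [e2, e2]
      exact aux _ _ _ _ c1 c2
  have h1 := hN x hx
  have h2 := hN y hy
  have h3 : ∑ e ∈ F, ((e.toFinset.filter (G.Adj x)).card +
      (e.toFinset.filter (G.Adj y)).card) ≤ ∑ e ∈ F, 2 := Finset.sum_le_sum hE
  rw [Finset.sum_add_distrib, Finset.sum_const, smul_eq_mul] at h3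
  omega

end Pool.Agent.H621.ZM.Big
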