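import Pool.Agent.H621.ZM.Spec2

/-!
CASEX: the exceptional alternative gives `TypeR` or `TwoF` (helper323).
-/

set_option autoImplicit false

namespace Pool.Agent.H621.ZM.CaseX

open Finset Pool.Agent.H621.ZM

theorem sumkey {ι : Type} {s : ℕ} (c : ι → ZMod s) (x : ZMod s) (S : Finset ι)
    (hS : S.card + 1 = s) : ∑ i ∈ S, c i = ∑ i ∈ S, (c i - x) - x := by
  have h1 : ((S.card + 1 : ℕ) : ZMod s) = 0 := by rw [hS, ZMod.natCast_self]
  push_cast at h1
  rw [Finset.sum_sub_distrib, Finset.sum_const, nsmul_eq_mul]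
  linear_combination x * h1

theorem force {ι : Type} [DecidableEq ι] {s : ℕ} {c : ι → ZMod s} {L : Finset ι} {i0 : ι}
    (h0 : i0 ∈ L) {z : ZMod s}
    (hz : ∀ T, T ≤ (L.val.map c).erase (c i0) → Multiset.card T + 1 = s → T.sum + z ≠ 0)
    {S : Finset ι} (hSL : S ⊆ L.erase i0) (hS : S.card + 1 = s) : ∑ i ∈ S, c i + z ≠ 0 := by
  refine hz (S.val.map c) ?_ ?_
  · rw [← Multiset.map_erase_of_mem c L.val h0]
    apply Multiset.map_le_map
    have h1 : S.val ≤ (L.erase i0).val := Finset.val_le_iff.2 hSL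
    rwa [Finset.erase_val] at h1
  · rw [Multiset.card_map]
    exact hS

theorem caseX : S_CaseX := by
  intro ι _ s t c L ht hst hL hZF hX
  obtain ⟨x, W, Γ, hWΓ, hdis, htu, huW, hΓ, hsW, hfull, hcol⟩ := hX
  set Z := L.filter (fun i => c i = x) with hZ
  have hWL : ∀ i ∈ W, i ∈ L ∧ c i ≠ x := fun i hi => by
    have : i ∈ L.filter (fun i => c i ≠ x) := by rw [← hWΓ]; exact mem_union_left _ hi
    exact mem_filter.1 this
  have hΓL : ∀ i ∈ Γ, i ∈ L ∧ c i ≠ x := fun i hi => by
    have : i ∈ L.filter (fun i => c i ≠ x) := by rw [← hWΓ]; exact mem_union_right _ hi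
    exact mem_filter.1 this
  have hZL : ∀ i ∈ Z, i ∈ L ∧ c i = x := fun i hi => mem_filter.1 hi
  rcases W.eq_empty_or_nonempty with hWe | hWn
  · left
    refine ⟨x, ?_, ?_⟩
    · rw [hWe, card_empty] at huW
      exact huW
    · rw [hWe, empty_union] at hWΓ
      rw [← hWΓ]
      exact hfull
  right
  -- sums over the zero part
  have hZsum : ∀ Z' ⊆ Z, ∑ i ∈ Z', (c i - x) = 0 := by
    intro Z' hZ'
    refine sum_eq_zero fun i hi => ?_
    rw [(hZL i (hZ' hi)).2, sub_self]
  refine ⟨{x}, W.image c, ?_, ?_, ?_, ?_, ?_⟩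
  · rw [disjoint_singleton_left, mem_image]
    rintro ⟨i, hi, hix⟩
    exact (hWL i hi).2 hix
  · rintro y (hy | hy)
    · -- the value `x`
      rw [mem_singleton] at hy
      subst hy
      intro z hz
      by_contra hne
      obtain ⟨T, hTΓ, hTs⟩ := hfull (-(z - y))
      have hTn : T.Nonempty := by
        rw [nonempty_iff_ne_empty]
        rintro rfl
        rw [sum_empty] at hTs
        apply hne
        have : z - y = 0 := by
          rw [← neg_eq_zero]
          exact hTs.symm
        exact sub_eq_zero.1 this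
      have hTc : T.card ≤ t := hΓ ▸ card_le_card hTΓ
      have hT1 : 1 ≤ T.card := hTn.card_pos
      obtain ⟨Z', hZ', hZ'c⟩ := exists_subset_card_eq (show Z.card - T.card ≤ Z.card by omega)
      have hlt : Z'.card < Z.card := by omega
      obtain ⟨i0, hi0, hi0'⟩ := exists_mem_notMem_of_card_lt_card hlt
      have hd1 : Disjoint T W := (hdis.mono_right hTΓ).symm
      have hd2 : Disjoint (T ∪ W) Z' := by
        rw [disjoint_left]
        intro i hi hiZ
        have h3 := (hZL i (hZ' hiZ)).2
        rcases mem_union.1 hi with h4 | h4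
        · exact (hΓL i (hTΓ h4)).2 h3
        · exact (hWL i h4).2 h3
      have hcard : ((T ∪ W) ∪ Z').card + 1 = s := by
        rw [card_union_of_disjoint hd2, card_union_of_disjoint hd1, hZ'c]
        omega
      have hsub : (T ∪ W) ∪ Z' ⊆ L.erase i0 := by
        intro i hi
        rw [mem_erase]
        rcases mem_union.1 hi with h4 | h4
        · have h5 : c i ≠ y ∧ i ∈ L := by
            rcases mem_union.1 h4 with h6 | h6
            · exact ⟨(hΓL i (hTΓ h6)).2, (hΓL i (hTΓ h6)).1⟩
            · exact ⟨(hWL i h6).2, (hWL i h6).1⟩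
          refine ⟨?_, h5.2⟩
          rintro rfl
          exact h5.1 (hZL i hi0).2
        · refine ⟨?_, (hZL i (hZ' h4)).1⟩
          rintro rfl
          exact hi0' h4
      have hz' : ∀ T, T ≤ (L.val.map c).erase (c i0) → Multiset.card T + 1 = s →
          T.sum + z ≠ 0 := by
        rw [(hZL i0 hi0).2]
        exact hz
      apply force (hZL i0 hi0).1 hz' hsub hcard
      rw [sumkey c y _ hcard, sum_union hd2, sum_union hd1, hTs, hsW, hZsum Z' hZ']
      ring
    · -- the values on `W`
      obtain ⟨i0, hi0, rfl⟩ := mem_image.1 hy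
      intro z hz
      by_contra hne
      obtain ⟨T, hTΓ, hTs⟩ := hfull (c i0 - z)
      have hTn : T.Nonempty := by
        rw [nonempty_iff_ne_empty]
        rintro rfl
        rw [sum_empty] at hTs
        exact hne (sub_eq_zero.1 hTs.symm).symm
      have hTc : T.card ≤ t := hΓ ▸ card_le_card hTΓ
      have hT1 : 1 ≤ T.card := hTn.card_pos
      obtain ⟨Z', hZ', hZ'c⟩ := exists_subset_card_eq
        (show Z.card + 1 - T.card ≤ Z.card by omega)
      have hd1 : Disjoint T (W.erase i0) := ((hdis.mono_right hTΓ).symm).mono_right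
        (erase_subset _ _)
      have hd2 : Disjoint (T ∪ W.erase i0) Z' := by
        rw [disjoint_left]
        intro i hi hiZ
        have h3 := (hZL i (hZ' hiZ)).2
        rcases mem_union.1 hi with h4 | h4
        · exact (hΓL i (hTΓ h4)).2 h3
        · exact (hWL i (mem_of_mem_erase h4)).2 h3
      have hW1 : (W.erase i0).card + 1 = W.card := card_erase_add_one hi0
      have hcard : ((T ∪ W.erase i0) ∪ Z').card + 1 = s := by
        rw [card_union_of_disjoint hd2, card_union_of_disjoint hd1, hZ'c]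
        omega
      have hsub : (T ∪ W.erase i0) ∪ Z' ⊆ L.erase i0 := by
        intro i hi
        rw [mem_erase]
        rcases mem_union.1 hi with h4 | h4
        · rcases mem_union.1 h4 with h6 | h6
          · refine ⟨?_, (hΓL i (hTΓ h6)).1⟩
            rintro rfl
            exact disjoint_left.1 hdis hi0 (hTΓ h6)
          · exact ⟨ne_of_mem_erase h6, (hWL i (mem_of_mem_erase h6)).1⟩
        · refine ⟨?_, (hZL i (hZ' h4)).1⟩
          rintro rfl
          exact (hWL i hi0).2 (hZL i (hZ' h4)).2
      apply force (hWL i0 hi0).1 hz hsub hcard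
      have hWe : ∑ i ∈ W.erase i0, (c i - x) = -(c i0 - x) := by
        have h7 := add_sum_erase W (fun i => c i - x) hi0
        rw [hsW] at h7
        exact eq_neg_of_add_eq_zero_right h7
      rw [sumkey c x _ hcard, sum_union hd2, sum_union hd1, hTs, hWe, hZsum Z' hZ']
      ring
  · have hZn : Z.Nonempty := card_pos.1 (by omega)
    obtain ⟨i, hi⟩ := hZn
    exact ⟨i, mem_filter.2 ⟨(hZL i hi).1, mem_singleton.2 (hZL i hi).2⟩⟩
  · obtain ⟨i, hi⟩ := hWn
    exact ⟨i, mem_filter.2 ⟨(hWL i hi).1, mem_image_of_mem c hi⟩⟩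
  · have e1 : L.filter (fun i => c i ∈ ({x} : Finset (ZMod s))) = Z := by
      rw [hZ]
      refine filter_congr fun i _ => ?_
      rw [mem_singleton]
    rw [e1]
    obtain ⟨i, hi⟩ := hWn
    obtain ⟨j, hj, hji⟩ := hcol i hi
    have hjW : j ∉ W := fun h => disjoint_left.1 hdis h hj
    have hsub : insert j W ⊆ L.filter (fun i => c i ∈ W.image c) := by
      intro k hk
      rcases mem_insert.1 hk with rfl | hk
      · exact mem_filter.2 ⟨(hΓL k hj).1, by rw [hji]; exact mem_image_of_mem c hi⟩
      · exact mem_filter.2 ⟨(hWL k hk).1, mem_image_of_mem c hk⟩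
    have h8 := card_le_card hsub
    rw [card_insert_of_notMem hjW] at h8
    omega

end Pool.Agent.H621.ZM.CaseX
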