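import Pool.Agent.H621.ZM.Spec

/-! # `S_Conn`: connectivity of the matchings with `s + s / 2` edges -/

set_option autoImplicit false

namespace Pool.Agent.H621.ZM.Conn

open Finset

variable {V : Type} [DecidableEq V]

theorem step1_symm {G : SimpleGraph V} {A B : Finset (Sym2 V)} (hA : IsM G A) (h : Step1 G A B) :
    Step1 G B A := by
  obtain ⟨-, e, f, he, hf, rfl⟩ := h
  have hef : e ≠ f := fun h => hf (h ▸ he)
  refine ⟨hA, f, e, mem_insert_self _ _, ?_, ?_⟩
  · rw [mem_insert, mem_erase]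
    rintro (h | h)
    · exact hef h
    · exact h.1 rfl
  · ext x
    simp only [mem_insert, mem_erase]
    constructor
    · intro hx
      by_cases hxe : x = e
      · exact Or.inl hxe
      · right
        refine ⟨fun h => hf (h ▸ hx), Or.inr ⟨hxe, hx⟩⟩
    · rintro (rfl | ⟨h1, h2 | h2⟩)
      · exact he
      · exact absurd h2 h1
      · exact h2.2

theorem chain_symm {G : SimpleGraph V} {A B : Finset (Sym2 V)} (hA : IsM G A)
    (h : Relation.ReflTransGen (Step1 G) A B) :
    IsM G B ∧ Relation.ReflTransGen (Step1 G) B A := by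
  induction h with
  | refl => exact ⟨hA, Relation.ReflTransGen.refl⟩
  | tail _ hbc ih =>
    exact ⟨hbc.1, Relation.ReflTransGen.head (step1_symm ih.1 hbc) ih.2⟩

theorem conn1_of_jump (hJ : S_Jump) (G : SimpleGraph V) (l : ℕ) (P : Finset (Sym2 V))
    (hP : IsM G P) (hc : l + 1 ≤ P.card) : Conn1 G l := by
  obtain ⟨P', hP', hc'⟩ := exists_subset_card_eq hc
  have hPM : IsM G P' := ⟨fun e he => hP.1 e (hP' he), fun e he f hf => hP.2 e (hP' he) f (hP' hf)⟩
  obtain ⟨Y, hY, hYc⟩ := exists_subset_card_eq (show l ≤ P'.card by omega)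
  intro A B hA hB hAc hBc
  have h1 := hJ V G A P' Y hA hPM (by omega) hY (by omega)
  have h2 := hJ V G B P' Y hB hPM (by omega) hY (by omega)
  have h1' : Relation.ReflTransGen (Step1 G) A Y := Relation.ReflTransGen.mono (fun _ _ h => h.1) _ _ h1
  have h2' : Relation.ReflTransGen (Step1 G) B Y := Relation.ReflTransGen.mono (fun _ _ h => h.1) _ _ h2
  exact h1'.trans (chain_symm hB h2').2

theorem conn (hJ : S_Jump) (hN : S_Near) (hCN : S_ConnNear) (hCP : S_ConnPerf) : S_Conn := by
  intro V _ _ G s r hs hr hrs hn hd hm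
  have hm1 : miss G < m1 s r := lt_of_lt_of_le hm (min_le_left _ _)
  unfold m1 at hm1
  obtain ⟨F, hF, hFc⟩ := hN V G s r (by omega) (by omega) hrs hn hd hm
  rcases Nat.even_or_odd s with he | ho
  · obtain ⟨k, hk⟩ := he
    have hl : s + s / 2 = 3 * k := by omega
    rw [hl]
    rcases (show r = 2 ∨ r = 3 ∨ 4 ≤ r by omega) with rfl | rfl | h4
    · right
      refine ⟨⟨k, hk⟩, hCP V G (3 * k) (by omega) ?_⟩
      have : (2 : ℕ).choose 2 = 1 := rfl
      omega
    · right
      refine ⟨⟨k, hk⟩, (hCN V G s (3 * k) (by omega) hd).2 ?_⟩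
      have : (3 : ℕ).choose 2 = 3 := rfl
      omega
    · left
      exact conn1_of_jump hJ G _ F hF (by omega)
  · obtain ⟨k, hk⟩ := ho
    have hl : s + s / 2 = 3 * k + 1 := by omega
    rw [hl]
    left
    rcases (show r = 2 ∨ 3 ≤ r by omega) with rfl | h3
    · refine (hCN V G s (3 * k + 1) (by omega) hd).1 ?_
      have : (2 : ℕ).choose 2 = 1 := rfl
      omega
    · exact conn1_of_jump hJ G _ F hF (by omega)

end Pool.Agent.H621.ZM.Conn
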