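import Pool.Agent.H621.ZM.Spec

/-!
Almost perfect matchings are connected under exchanges of one or two edges.
-/

set_option autoImplicit false
set_option linter.unusedSectionVars false

namespace Pool.Agent.H621.ZM.ConnNear

open Finset

variable {V : Type} [DecidableEq V] {G : SimpleGraph V} {a b : V → V} {x x' y : V}

/-- an almost perfect matching as an involution with exactly one fixed point -/
structure St (G : SimpleGraph V) (a : V → V) (x : V) : Prop where
  inv : ∀ v, a (a v) = v
  fix : a x = x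
  adj : ∀ v, v ≠ x → G.Adj v (a v)

theorem St.ne (h : St G a x) {v : V} (hv : v ≠ x) : a v ≠ v := fun h1 => (h.adj v hv).ne h1.symm

theorem St.ne_x (h : St G a x) {v : V} (hv : v ≠ x) : a v ≠ x := fun h1 => hv (by
  have h2 := h.inv v
  rw [h1, h.fix] at h2
  exact h2.symm)

theorem St.inj (h : St G a x) {u v : V} (huv : a u = a v) : u = v := by
  rw [← h.inv u, huv, h.inv v]

/-- moving the uncovered vertex -/
def mv (a : V → V) (x y : V) : V → V :=
  fun v => if v = x then y else if v = y then x else if v = a y then v else a v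

theorem mv_x : mv a x y x = y := if_pos rfl

theorem mv_y (h : y ≠ x) : mv a x y y = x := by
  unfold mv
  rw [if_neg h, if_pos rfl]

theorem mv_z (h : St G a x) (hy : y ≠ x) : mv a x y (a y) = a y := by
  unfold mv
  rw [if_neg (h.ne_x hy), if_neg (h.ne hy), if_pos rfl]

theorem mv_o {v : V} (h1 : v ≠ x) (h2 : v ≠ y) (h3 : v ≠ a y) : mv a x y v = a v := by
  unfold mv
  rw [if_neg h1, if_neg h2, if_neg h3]

theorem mv_st (h : St G a x) (hxy : G.Adj x y) : St G (mv a x y) (a y) := by
  have hy : y ≠ x := hxy.ne'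
  have hcase : ∀ v, v = x ∨ v = y ∨ v = a y ∨ (v ≠ x ∧ v ≠ y ∧ v ≠ a y) := by
    intro v
    by_cases h1 : v = x
    · exact Or.inl h1
    by_cases h2 : v = y
    · exact Or.inr (Or.inl h2)
    by_cases h3 : v = a y
    · exact Or.inr (Or.inr (Or.inl h3))
    · exact Or.inr (Or.inr (Or.inr ⟨h1, h2, h3⟩))
  refine ⟨fun v => ?_, mv_z h hy, fun v hv => ?_⟩
  · rcases hcase v with rfl | rfl | rfl | ⟨h1, h2, h3⟩
    · rw [mv_x, mv_y hy]
    · rw [mv_y hy, mv_x]
    · rw [mv_z h hy, mv_z h hy]
    · rw [mv_o h1 h2 h3]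
      have e1 : a v ≠ x := h.ne_x h1
      have e2 : a v ≠ y := fun e => h3 (by rw [← e, h.inv])
      have e3 : a v ≠ a y := fun e => h2 (h.inj e)
      rw [mv_o e1 e2 e3, h.inv]
  · rcases hcase v with rfl | rfl | rfl | ⟨h1, h2, h3⟩
    · rw [mv_x]
      exact hxy
    · rw [mv_y hy]
      exact hxy.symm
    · exact absurd rfl hv
    · rw [mv_o h1 h2 h3]
      exact h.adj v h1

variable [Fintype V]

/-- the edges of an involution -/
def E (a : V → V) : Finset (Sym2 V) := (univ.filter (fun v => a v ≠ v)).image (fun v => s(v, a v))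

theorem mem_E (h : ∀ v, a (a v) = v) {u w : V} : s(u, w) ∈ E a ↔ a u = w ∧ u ≠ w := by
  unfold E
  rw [mem_image]
  constructor
  · rintro ⟨v, hv, he⟩
    rw [mem_filter] at hv
    rw [Sym2.eq_iff] at he
    rcases he with ⟨rfl, rfl⟩ | ⟨rfl, rfl⟩
    · exact ⟨rfl, fun h => hv.2 h.symm⟩
    · exact ⟨h v, hv.2⟩
  · rintro ⟨rfl, hne⟩
    exact ⟨u, by rw [mem_filter]; exact ⟨mem_univ _, fun h => hne h.symm⟩, rfl⟩

theorem eq_of_mem (h : ∀ v, a (a v) = v) {e : Sym2 V} (he : e ∈ E a) {v : V} (hv : v ∈ e) :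
    e = s(v, a v) := by
  induction e using Sym2.ind with
  | _ u w =>
    rw [mem_E h] at he
    obtain ⟨rfl, -⟩ := he
    rw [Sym2.mem_iff] at hv
    rcases hv with rfl | rfl
    · rfl
    · rw [h, Sym2.eq_swap]

theorem St.isM (h : St G a x) : IsM G (E a) := by
  refine ⟨fun e he => ?_, fun e he f hf hef v hv hv' => hef ?_⟩
  · induction e using Sym2.ind with
    | _ u w =>
      rw [mem_E h.inv] at he
      obtain ⟨rfl, hne⟩ := he
      rw [SimpleGraph.mem_edgeSet]
      refine h.adj u ?_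
      rintro rfl
      exact hne h.fix.symm
  · rw [eq_of_mem h.inv he hv, eq_of_mem h.inv hf hv']

theorem step1 (h : St G a x) (hxy : G.Adj x y) : Step1 G (E a) (E (mv a x y)) := by
  have hm := mv_st h hxy
  have hy : y ≠ x := hxy.ne'
  refine ⟨hm.isM, s(y, a y), s(x, y), (mem_E h.inv).2 ⟨rfl, (h.ne hy).symm⟩, fun h1 => ?_, ?_⟩
  · rw [mem_E h.inv, h.fix] at h1
    exact hy h1.1.symm
  · ext e
    induction e using Sym2.ind with
    | _ u w =>
      simp only [mem_insert, mem_erase, mem_E h.inv, mem_E hm.inv, Sym2.eq_iff, ne_eq]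
      by_cases h1 : u = x
      · subst h1
        rw [mv_x, h.fix]
        constructor
        · rintro ⟨rfl, -⟩
          exact Or.inl (Or.inl ⟨rfl, rfl⟩)
        · rintro ((⟨-, rfl⟩ | ⟨h1, -⟩) | ⟨-, rfl, h2⟩)
          · exact ⟨rfl, hy.symm⟩
          · exact absurd h1.symm hy
          · exact absurd rfl h2
      by_cases h2 : u = y
      · subst h2
        rw [mv_y hy]
        constructor
        · rintro ⟨rfl, -⟩
          exact Or.inl (Or.inr ⟨rfl, rfl⟩)
        · rintro ((⟨h1, -⟩ | ⟨-, rfl⟩) | ⟨h2, rfl, -⟩)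
          · exact absurd h1 hy
          · exact ⟨rfl, hy⟩
          · exact absurd (Or.inl ⟨rfl, rfl⟩) h2
      by_cases h3 : u = a y
      · subst h3
        rw [mv_z h hy, h.inv]
        constructor
        · rintro ⟨rfl, h4⟩
          exact absurd rfl h4
        · rintro ((⟨h4, -⟩ | ⟨h4, -⟩) | ⟨h4, rfl, -⟩)
          · exact absurd h4 h1
          · exact absurd h4 h2
          · exact absurd (Or.inr ⟨rfl, rfl⟩) h4
      · rw [mv_o h1 h2 h3]
        constructor
        · rintro ⟨rfl, h4⟩
          refine Or.inr ⟨?_, rfl, h4⟩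
          rintro (⟨h5, -⟩ | ⟨h5, -⟩)
          · exact h2 h5
          · exact h3 h5
        · rintro ((⟨h4, -⟩ | ⟨h4, -⟩) | ⟨-, h5⟩)
          · exact absurd h4 h1
          · exact absurd h4 h2
          · exact h5

/-- the vertices where two matchings differ -/
def D (a b : V → V) : Finset V := univ.filter (fun v => a v ≠ b v)

theorem mem_D {v : V} : v ∈ D a b ↔ a v ≠ b v := by
  unfold D
  rw [mem_filter]
  exact ⟨fun h => h.2, fun h => ⟨mem_univ _, h⟩⟩

/-- moving the uncovered vertex of `a` to that of `b` -/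
theorem reach (R : Finset (Sym2 V) → Finset (Sym2 V) → Prop)
    (hR : ∀ A B, Step1 G A B → R A B) (hb : St G b x') (n : ℕ) : ∀ (a : V → V) (x : V), St G a x →
    (D a b).card ≤ n → ∃ a', St G a' x' ∧ Relation.ReflTransGen R (E a) (E a') ∧
      (∀ v, a v = b v → a' v = b v) ∧ (x ≠ x' → a' x = b x) := by
  induction n with
  | zero =>
    intro a x ha hn
    by_cases hx : x = x'
    · subst hx
      exact ⟨a, ha, Relation.ReflTransGen.refl, fun v hv => hv, fun h => absurd rfl h⟩
    · exfalso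
      have h1 : x ∈ D a b := by
        rw [mem_D, ha.fix]
        exact (hb.ne hx).symm
      have h2 := card_pos.2 ⟨x, h1⟩
      omega
  | succ n ih =>
    intro a x ha hn
    by_cases hx : x = x'
    · subst hx
      exact ⟨a, ha, Relation.ReflTransGen.refl, fun v hv => hv, fun h => absurd rfl h⟩
    · have hadj : G.Adj x (b x) := hb.adj x hx
      have hp : b x ≠ x := hadj.ne'
      have hm := mv_st ha hadj
      have hpx : a (b x) ≠ x := ha.ne_x hp
      have hag : ∀ v, a v = b v → mv a x (b x) v = b v := by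
        intro v hv
        have h1 : v ≠ x := by
          rintro rfl
          rw [ha.fix] at hv
          exact hp hv.symm
        have h2 : v ≠ b x := by
          rintro rfl
          rw [hb.inv] at hv
          exact hpx hv
        have h3 : v ≠ a (b x) := by
          rintro rfl
          rw [ha.inv] at hv
          exact hpx (hb.inj hv).symm
        rw [mv_o h1 h2 h3, hv]
      have hD : D (mv a x (b x)) b ⊂ D a b := by
        rw [ssubset_iff_of_subset]
        · refine ⟨x, ?_, ?_⟩
          · rw [mem_D, ha.fix]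
            exact hp.symm
          · rw [mem_D, mv_x]
            exact fun h => h rfl
        · intro v hv
          rw [mem_D] at hv ⊢
          exact fun h => hv (hag v h)
      have hc := card_lt_card hD
      obtain ⟨a', h1, h2, h3, -⟩ := ih _ _ hm (by omega)
      refine ⟨a', h1, (Relation.ReflTransGen.single (hR _ _ (step1 ha hadj))).trans h2,
        fun v hv => h3 v (hag v hv), fun _ => h3 x mv_x⟩

/-- the difference set is stable -/
theorem D_a (ha : St G a x) {v : V} (hv : v ∈ D a b) (hb : St G b x) : a v ∈ D a b := by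
  rw [mem_D] at hv ⊢
  intro h
  rw [ha.inv] at h
  apply hv
  have h1 := hb.inv (a v)
  rw [← h] at h1
  exact h1.symm

theorem D_x (ha : St G a x) (hb : St G b x) : x ∉ D a b := by
  rw [mem_D, ha.fix, hb.fix]
  exact fun h => h rfl

/-- one round: if a free vertex `y` (where the uncovered vertex can be moved without using `D a b`) has a
neighbour in `D a b` -/
theorem round (R : Finset (Sym2 V) → Finset (Sym2 V) → Prop)
    (hR : ∀ A B, Step1 G A B → R A B) (ha : St G a y) (hb : St G b y) {v : V} (hv : v ∈ D a b)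
    (hyv : G.Adj y v) : ∃ a', St G a' y ∧ Relation.ReflTransGen R (E a) (E a') ∧
      (∀ v, a v = b v → a' v = b v) ∧ (D a' b).card < (D a b).card := by
  have hm := mv_st ha hyv
  have hvy : v ≠ y := hyv.ne'
  have hav := D_a ha hv hb
  obtain ⟨a', h1, h2, h3, h4⟩ := reach R hR hb _ _ _ hm le_rfl
  have h5 : a' (a v) = b (a v) := h4 (ha.ne_x hvy)
  have hag : ∀ u, a u = b u → a' u = b u := by
    intro u hu
    by_cases huy : u = y
    · rw [huy, h1.fix, hb.fix]
    · refine h3 u ?_
      rw [mv_o huy, hu]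
      · rintro rfl
        exact (mem_D.1 hv) hu
      · rintro rfl
        exact (mem_D.1 hav) hu
  refine ⟨a', h1, (Relation.ReflTransGen.single (hR _ _ (step1 ha hyv))).trans h2, hag, ?_⟩
  refine card_lt_card ?_
  rw [ssubset_iff_of_subset]
  · exact ⟨a v, hav, fun h => (mem_D.1 h) h5⟩
  · intro u hu
    rw [mem_D] at hu ⊢
    exact fun h => hu (hag u h)

theorem D_mv (ha : St G a x) (hb : St G b x) {p : V} (hp : p ∉ D a b) (hxp : G.Adj x p) :
    D (mv a x p) (mv b x p) = D a b := by
  have hpab : a p = b p := by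
    by_contra h
    exact hp (mem_D.2 h)
  have hpx : p ≠ x := hxp.ne'
  ext v
  rw [mem_D, mem_D]
  by_cases h1 : v = x
  · rw [h1, mv_x, mv_x, ha.fix, hb.fix]
    exact ⟨fun h => absurd rfl h, fun h => absurd rfl h⟩
  by_cases h2 : v = p
  · rw [h2, mv_y hpx, mv_y hpx, hpab]
    exact ⟨fun h => absurd rfl h, fun h => absurd rfl h⟩
  by_cases h3 : v = a p
  · have h4 : v = b p := by rw [h3, hpab]
    have e1 : mv a x p v = v := by
      rw [h3]
      exact mv_z ha hpx
    have e2 : mv b x p v = v := by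
      rw [h4]
      exact mv_z hb hpx
    have e3 : a v = p := by rw [h3, ha.inv]
    have e4 : b v = p := by rw [h4, hb.inv]
    rw [e1, e2, e3, e4]
    exact ⟨fun h => absurd rfl h, fun h => absurd rfl h⟩
  · rw [mv_o h1 h2 h3, mv_o h1 h2 (by rw [← hpab]; exact h3)]

/-- moving back -/
theorem mv_mv (ha : St G a x) {p : V} (hxp : G.Adj x p) : mv (mv a x p) (a p) p = a := by
  have hpx : p ≠ x := hxp.ne'
  have hz : a p ≠ p := ha.ne hpx
  have hy : mv a x p p = x := mv_y hpx
  funext v
  by_cases h3 : v = a p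
  · subst h3
    rw [mv_x, ha.inv]
  by_cases h2 : v = p
  · subst h2
    rw [mv_y hz.symm]
  by_cases h1 : v = x
  · subst h1
    unfold mv
    rw [if_neg h3, if_neg h2, if_neg hpx, if_pos rfl, if_pos rfl, ha.fix]
  · rw [mv_o h3 h2 (by rw [hy]; exact h1), mv_o h1 h2 h3]

/-- one round with the uncovered vertex at `x`, using the free vertex `a p` -/
theorem round' (R : Finset (Sym2 V) → Finset (Sym2 V) → Prop)
    (hR : ∀ A B, Step1 G A B → R A B) (ha : St G a x) (hb : St G b x) {v p : V} (hv : v ∈ D a b)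
    (hp : p ∉ D a b) (hxp : G.Adj x p)
    (hyv : G.Adj (a p) v) : ∃ a', St G a' x ∧ Relation.ReflTransGen R (E a) (E a') ∧
      (D a' b).card < (D a b).card := by
  have hpab : a p = b p := by
    by_contra h
    exact hp (mem_D.2 h)
  have hpx : p ≠ x := hxp.ne'
  have ha1 := mv_st ha hxp
  have hb1 := mv_st hb hxp
  rw [← hpab] at hb1
  have hD := D_mv ha hb hp hxp
  obtain ⟨a', h1, h2, h3, h4⟩ := round R hR ha1 hb1 (by rw [hD]; exact hv) hyv
  rw [hD] at h4
  -- move back
  have e1 : a' p = x := by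
    have := h3 p (by rw [mv_y hpx, mv_y hpx])
    rw [this, mv_y hpx]
  have hadj : G.Adj (a p) p := (ha.adj p hpx).symm
  have h5 := mv_st h1 hadj
  have h6 := step1 h1 hadj
  rw [e1] at h5
  have hb2 : mv (mv b x p) (a p) p = b := by
    rw [hpab]
    exact mv_mv hb hxp
  have h7 : D (mv a' (a p) p) (mv (mv b x p) (a p) p) = D a' (mv b x p) := by
    refine D_mv h1 hb1 ?_ hadj
    rw [mem_D, e1, mv_y hpx]
    exact fun h => h rfl
  rw [hb2] at h7
  refine ⟨mv a' (a p) p, h5, ((Relation.ReflTransGen.single (hR _ _ (step1 ha hxp))).trans h2).trans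
    (Relation.ReflTransGen.single (hR _ _ h6)), ?_⟩
  rw [h7]
  exact h4

/-- counting non-edges -/
theorem miss_ge (Y K : Finset V) (hYK : Disjoint Y K) (h : ∀ y ∈ Y, ∀ v ∈ K, ¬ G.Adj y v) :
    Y.card * K.card ≤ miss G := by
  unfold miss
  rw [← card_product, ← Set.ncard_coe_finset]
  refine Set.ncard_le_ncard_of_injOn (fun q => s(q.1, q.2)) ?_ ?_ (Set.toFinite _)
  · rintro ⟨u, v⟩ huv
    rw [mem_coe, mem_product] at huv
    rw [SimpleGraph.mem_edgeSet, SimpleGraph.compl_adj]
    exact ⟨fun e => disjoint_left.1 hYK huv.1 (by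
      have e' : u = v := e
      rw [e']
      exact huv.2), h u huv.1 v huv.2⟩
  · rintro ⟨u, v⟩ huv ⟨u', v'⟩ huv' he
    rw [mem_coe, mem_product] at huv huv'
    have he' : s(u, v) = s(u', v') := he
    rw [Sym2.eq_iff] at he'
    rcases he' with ⟨rfl, rfl⟩ | ⟨h1, h2⟩
    · rfl
    · exfalso
      refine disjoint_left.1 hYK huv.1 ?_
      have h3 : v' ∈ K := huv'.2
      change u = v' at h1
      rw [h1]
      exact h3

/-- the main dichotomy -/
theorem dich (R : Finset (Sym2 V) → Finset (Sym2 V) → Prop)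
    (hR : ∀ A B, Step1 G A B → R A B) (s : ℕ) (hdeg : ∀ v, s ≤ (G.neighborSet v).ncard)
    (ha : St G a x) (hb : St G b x) :
    (s + 1) * (D a b).card ≤ miss G ∨ ∃ a', St G a' x ∧ Relation.ReflTransGen R (E a) (E a') ∧
      (D a' b).card < (D a b).card := by
  classical
  by_cases hx : ∃ v ∈ D a b, G.Adj x v
  · obtain ⟨v, hv, hxv⟩ := hx
    obtain ⟨a', h1, h2, -, h4⟩ := round R hR ha hb hv hxv
    exact Or.inr ⟨a', h1, h2, h4⟩
  push Not at hx
  by_cases hp : ∃ p v, G.Adj x p ∧ v ∈ D a b ∧ G.Adj (a p) v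
  · obtain ⟨p, v, hxp, hv, hpv⟩ := hp
    exact Or.inr (round' R hR ha hb hv (fun h => hx p h hxp) hxp hpv)
  push Not at hp
  left
  let N : Finset V := univ.filter (fun p => G.Adj x p)
  have hN : s ≤ N.card := by
    refine (hdeg x).trans ?_
    rw [← Set.ncard_coe_finset]
    refine Set.ncard_le_ncard ?_ (Set.toFinite _)
    intro p hp
    rw [mem_coe, mem_filter]
    exact ⟨mem_univ _, hp⟩
  let Y : Finset V := insert x (N.image a)
  have hxN : x ∉ N.image a := by
    intro h
    obtain ⟨p, hp, h1⟩ := mem_image.1 h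
    rw [mem_filter] at hp
    exact ha.ne_x hp.2.ne' h1
  have hY : s + 1 ≤ Y.card := by
    rw [card_insert_of_notMem hxN, card_image_of_injective _ (fun u v huv => ha.inj huv)]
    omega
  have hYK : Disjoint Y (D a b) := by
    rw [disjoint_left]
    intro u hu
    rcases mem_insert.1 hu with rfl | hu
    · exact D_x ha hb
    · obtain ⟨p, hp, rfl⟩ := mem_image.1 hu
      rw [mem_filter] at hp
      intro h
      have h1 := D_a ha h hb
      rw [ha.inv] at h1
      exact hx p h1 hp.2
  have h1 := miss_ge (G := G) Y (D a b) hYK (by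
    intro u hu v hv
    rcases mem_insert.1 hu with rfl | hu
    · exact hx v hv
    · obtain ⟨p, hp', rfl⟩ := mem_image.1 hu
      rw [mem_filter] at hp'
      exact hp p v hp'.2 hv)
  exact (Nat.mul_le_mul_right _ hY).trans h1

/-- the induction -/
theorem conn (R : Finset (Sym2 V) → Finset (Sym2 V) → Prop)
    (hR : ∀ A B, Step1 G A B → R A B) (hb : St G b x')
    (hcase : ∀ a, St G a x' → a ≠ b → ∃ a', St G a' x' ∧ Relation.ReflTransGen R (E a) (E a') ∧
      (D a' b).card < (D a b).card) (n : ℕ) : ∀ (a : V → V) (x : V), St G a x →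
    (D a b).card ≤ n → Relation.ReflTransGen R (E a) (E b) := by
  induction n using Nat.strong_induction_on with
  | _ n ih =>
    intro a x ha hn
    by_cases hx : x = x'
    · subst hx
      by_cases hab : a = b
      · rw [hab]
      · obtain ⟨a', h1, h2, h3⟩ := hcase a ha hab
        exact h2.trans (ih _ (lt_of_lt_of_le h3 hn) a' x h1 le_rfl)
    · obtain ⟨a', h1, h2, h3, h4⟩ := reach R hR hb _ a x ha le_rfl
      have h5 := h4 hx
      have h6 : (D a' b).card < (D a b).card := by
        refine card_lt_card ?_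
        rw [ssubset_iff_of_subset]
        · refine ⟨x, ?_, fun h => (mem_D.1 h) h5⟩
          rw [mem_D, ha.fix]
          exact (hb.ne hx).symm
        · intro u hu
          rw [mem_D] at hu ⊢
          exact fun h => hu (h3 u h)
      exact h2.trans (ih _ (lt_of_lt_of_le h6 hn) a' x' h1 le_rfl)

theorem D_b (ha : St G a x) {v : V} (hv : v ∈ D a b) (hb : St G b x) : b v ∈ D a b := by
  rw [mem_D] at hv ⊢
  intro h
  rw [hb.inv] at h
  apply hv
  have h1 := ha.inv (b v)
  rw [h] at h1
  exact h1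

/-- the first four vertices of an alternating cycle are different -/
theorem four_ne (ha : St G a x) (hb : St G b x) {v : V} (hv : v ∈ D a b) :
    v ≠ a v ∧ v ≠ b v ∧ v ≠ b (a v) ∧ a v ≠ b v ∧ a v ≠ b (a v) ∧ b v ≠ b (a v) := by
  have hvx : v ≠ x := fun h => D_x ha hb (h ▸ hv)
  have hav := ha.ne_x hvx
  have hab : a v ≠ b v := mem_D.1 hv
  refine ⟨(ha.ne hvx).symm, (hb.ne hvx).symm, fun h => ?_, hab, (hb.ne hav).symm, fun h => ?_⟩
  · apply hab
    have h1 := hb.inv (a v)
    rw [← h] at h1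
    exact h1.symm
  · exact (ha.ne hvx) (hb.inj h).symm

theorem four (ha : St G a x) (hb : St G b x) {v : V} (hv : v ∈ D a b) : 4 ≤ (D a b).card := by
  obtain ⟨h1, h2, h3, h4, h5, h6⟩ := four_ne ha hb hv
  have hc : ({v, a v, b v, b (a v)} : Finset V).card = 4 := by
    rw [card_insert_of_notMem, card_insert_of_notMem, card_insert_of_notMem, card_singleton]
    · simp [h6]
    · simp [h4, h5]
    · simp [h1, h2, h3]
  rw [← hc]
  refine card_le_card ?_
  intro u hu
  simp only [mem_insert, mem_singleton] at hu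
  rcases hu with rfl | rfl | rfl | rfl
  · exact hv
  · exact D_a ha hv hb
  · exact D_b ha hv hb
  · exact D_b ha (D_a ha hv hb) hb

theorem six (ha : St G a x) (hb : St G b x) {v : V} (hv : v ∈ D a b) (h : a (b v) ≠ b (a v)) :
    6 ≤ (D a b).card := by
  obtain ⟨h1, h2, h3, h4, h5, h6⟩ := four_ne ha hb hv
  have hvx : v ≠ x := fun h => D_x ha hb (h ▸ hv)
  have hbv : b v ≠ x := hb.ne_x hvx
  have hbav : b (a v) ≠ x := hb.ne_x (ha.ne_x hvx)
  have hc : ({v, a v, b v, b (a v), a (b v), a (b (a v))} : Finset V).card = 6 := by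
    have n1 : v ≠ a (b v) := fun e => h4 (by rw [e, ha.inv, ← e])
    have n2 : v ≠ a (b (a v)) := fun e => h5 (by
      have e1 := ha.inv (b (a v))
      rw [← e] at e1
      exact e1)
    have n3 : a v ≠ a (b v) := fun e => h2 (ha.inj e)
    have n4 : a v ≠ a (b (a v)) := fun e => h3 (ha.inj e)
    have n5 : b v ≠ a (b v) := (ha.ne hbv).symm
    have n6 : b v ≠ a (b (a v)) := fun e => h (by
      have e1 := ha.inv (b (a v))
      rw [← e] at e1
      exact e1)
    have n7 : b (a v) ≠ a (b v) := h.symm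
    have n8 : b (a v) ≠ a (b (a v)) := (ha.ne hbav).symm
    have n9 : a (b v) ≠ a (b (a v)) := fun e => h6 (ha.inj e)
    rw [card_insert_of_notMem, card_insert_of_notMem, card_insert_of_notMem,
      card_insert_of_notMem, card_insert_of_notMem, card_singleton]
    · simp only [mem_singleton]; exact n9
    · simp only [mem_insert, mem_singleton, not_or]; exact ⟨n7, n8⟩
    · simp only [mem_insert, mem_singleton, not_or]; exact ⟨h6, n5, n6⟩
    · simp only [mem_insert, mem_singleton, not_or]; exact ⟨h4, h5, n3, n4⟩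
    · simp only [mem_insert, mem_singleton, not_or]; exact ⟨h1, h2, h3, n1, n2⟩
  rw [← hc]
  refine card_le_card ?_
  intro u hu
  simp only [mem_insert, mem_singleton] at hu
  rcases hu with rfl | rfl | rfl | rfl | rfl | rfl
  · exact hv
  · exact D_a ha hv hb
  · exact D_b ha hv hb
  · exact D_b ha (D_a ha hv hb) hb
  · exact D_a ha (D_b ha hv hb) hb
  · exact D_a ha (D_b ha (D_a ha hv hb) hb) hb

/-- exchange along an alternating cycle of length four -/
def sw (a b : V → V) (v : V) : V → V :=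
  fun u => if u = v ∨ u = a v ∨ u = b v ∨ u = b (a v) then b u else a u

theorem sw_spec (ha : St G a x) (hb : St G b x) {v : V} (hv : v ∈ D a b) (h : a (b v) = b (a v)) :
    St G (sw a b v) x ∧ Step2 G (E a) (E (sw a b v)) ∧ (D (sw a b v) b).card < (D a b).card := by
  obtain ⟨h1, h2, h3, h4, h5, h6⟩ := four_ne ha hb hv
  have hvx : v ≠ x := fun h => D_x ha hb (h ▸ hv)
  have ebav : a (b (a v)) = b v := by rw [← h, ha.inv]
  have q1 : sw a b v v = b v := if_pos (Or.inl rfl)
  have q2 : sw a b v (a v) = b (a v) := if_pos (Or.inr (Or.inl rfl))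
  have q3 : sw a b v (b v) = v := (if_pos (Or.inr (Or.inr (Or.inl rfl)))).trans (hb.inv v)
  have q4 : sw a b v (b (a v)) = a v :=
    (if_pos (Or.inr (Or.inr (Or.inr rfl)))).trans (hb.inv (a v))
  have q5 : ∀ u, u ≠ v → u ≠ a v → u ≠ b v → u ≠ b (a v) → sw a b v u = a u := by
    intro u n1 n2 n3 n4
    refine if_neg ?_
    rintro (e | e | e | e)
    · exact n1 e
    · exact n2 e
    · exact n3 e
    · exact n4 e
  have hcase : ∀ u, u = v ∨ u = a v ∨ u = b v ∨ u = b (a v) ∨
      (u ≠ v ∧ u ≠ a v ∧ u ≠ b v ∧ u ≠ b (a v)) := by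
    intro u
    by_cases n1 : u = v
    · exact Or.inl n1
    by_cases n2 : u = a v
    · exact Or.inr (Or.inl n2)
    by_cases n3 : u = b v
    · exact Or.inr (Or.inr (Or.inl n3))
    by_cases n4 : u = b (a v)
    · exact Or.inr (Or.inr (Or.inr (Or.inl n4)))
    · exact Or.inr (Or.inr (Or.inr (Or.inr ⟨n1, n2, n3, n4⟩)))
  have hax := ha.ne_x hvx
  have hst : St G (sw a b v) x := by
    refine ⟨fun u => ?_, ?_, fun u hu => ?_⟩
    · rcases hcase u with rfl | rfl | rfl | rfl | ⟨n1, n2, n3, n4⟩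
      · rw [q1, q3]
      · rw [q2, q4]
      · rw [q3, q1]
      · rw [q4, q2]
      · rw [q5 u n1 n2 n3 n4, q5, ha.inv]
        · exact fun e => n2 (by rw [← e, ha.inv])
        · exact fun e => n1 (ha.inj e)
        · exact fun e => n4 (by rw [← h, ← e, ha.inv])
        · exact fun e => n3 (by rw [← ebav, ← e, ha.inv])
    · rw [q5, ha.fix]
      · exact hvx.symm
      · exact hax.symm
      · exact (hb.ne_x hvx).symm
      · exact (hb.ne_x hax).symm
    · unfold sw
      split_ifs
      · exact hb.adj u hu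
      · exact ha.adj u hu
  refine ⟨hst, ⟨hst.isM, s(v, a v), s(b v, b (a v)), s(v, b v), s(a v, b (a v)),
    (mem_E ha.inv).2 ⟨rfl, h1⟩, (mem_E ha.inv).2 ⟨h, h6⟩, ?_, ?_, ?_, ?_, ?_⟩, ?_⟩
  · rw [ne_eq, Sym2.eq_iff]
    rintro (⟨e, -⟩ | ⟨e, -⟩)
    · exact h2 e
    · exact h3 e
  · rw [mem_E ha.inv]
    exact fun e => h4 e.1
  · rw [mem_E ha.inv, ha.inv]
    exact fun e => h3 e.1
  · rw [ne_eq, Sym2.eq_iff]
    rintro (⟨e, -⟩ | ⟨e, -⟩)
    · exact h1 e
    · exact h3 e
  · ext e
    induction e using Sym2.ind with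
    | _ u w =>
      simp only [mem_insert, mem_erase, mem_E ha.inv, mem_E hst.inv, Sym2.eq_iff, ne_eq]
      rcases hcase u with rfl | rfl | rfl | rfl | ⟨n1, n2, n3, n4⟩
      · rw [q1]
        constructor
        · rintro ⟨rfl, -⟩
          exact Or.inl (Or.inl ⟨rfl, rfl⟩)
        · rintro ((⟨-, e⟩ | ⟨e, -⟩) | (⟨e, -⟩ | ⟨e, -⟩) | ⟨-, e, rfl, -⟩)
          · exact ⟨e.symm, fun e' => h2 (e'.trans e)⟩
          · exact absurd e h2
          · exact absurd e h1
          · exact absurd e h3
          · exact absurd (Or.inl ⟨rfl, rfl⟩) e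
      · rw [q2, ha.inv]
        constructor
        · rintro ⟨rfl, -⟩
          exact Or.inr (Or.inl (Or.inl ⟨rfl, rfl⟩))
        · rintro ((⟨e, -⟩ | ⟨e, -⟩) | (⟨-, e⟩ | ⟨e, -⟩) | ⟨-, e, rfl, -⟩)
          · exact absurd e.symm h1
          · exact absurd e h4
          · exact ⟨e.symm, fun e' => h5 (e'.trans e)⟩
          · exact absurd e h5
          · exact absurd (Or.inr ⟨rfl, rfl⟩) e
      · rw [q3, h]
        constructor
        · rintro ⟨rfl, -⟩
          exact Or.inl (Or.inr ⟨rfl, rfl⟩)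
        · rintro ((⟨e, -⟩ | ⟨-, e⟩) | (⟨e, -⟩ | ⟨e, -⟩) | ⟨e, -, rfl, -⟩)
          · exact absurd e.symm h2
          · exact ⟨e.symm, fun e' => h2 (e'.trans e).symm⟩
          · exact absurd e.symm h4
          · exact absurd e h6
          · exact absurd (Or.inl ⟨rfl, rfl⟩) e
      · rw [q4, ebav]
        constructor
        · rintro ⟨rfl, -⟩
          exact Or.inr (Or.inl (Or.inr ⟨rfl, rfl⟩))
        · rintro ((⟨e, -⟩ | ⟨e, -⟩) | (⟨e, -⟩ | ⟨-, e⟩) | ⟨e, -, rfl, -⟩)
          · exact absurd e.symm h3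
          · exact absurd e.symm h6
          · exact absurd e.symm h5
          · exact ⟨e.symm, fun e' => h5 (e'.trans e).symm⟩
          · exact absurd (Or.inr ⟨rfl, rfl⟩) e
      · rw [q5 u n1 n2 n3 n4]
        constructor
        · rintro ⟨e, e'⟩
          refine Or.inr (Or.inr ⟨?_, ?_, e, e'⟩)
          · rintro (⟨e, -⟩ | ⟨e, -⟩)
            · exact n3 e
            · exact n4 e
          · rintro (⟨e, -⟩ | ⟨e, -⟩)
            · exact n1 e
            · exact n2 e
        · rintro ((⟨e, -⟩ | ⟨e, -⟩) | (⟨e, -⟩ | ⟨e, -⟩) | ⟨-, -, e, e'⟩)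
          · exact absurd e n1
          · exact absurd e n3
          · exact absurd e n2
          · exact absurd e n4
          · exact ⟨e, e'⟩
  · refine card_lt_card ?_
    rw [ssubset_iff_of_subset]
    · exact ⟨v, hv, fun e => (mem_D.1 e) q1⟩
    · intro u hu
      rw [mem_D] at hu ⊢
      intro e
      apply hu
      unfold sw
      split_ifs
      · rfl
      · exact e

/-- almost perfect matchings as involutions -/
theorem exists_state {l : ℕ} (hV : Fintype.card V = 2 * l + 1) {A : Finset (Sym2 V)}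
    (hA : IsM G A) (hc : A.card = l) : ∃ (a : V → V) (x : V), St G a x ∧ E a = A := by
  classical
  have huniq : ∀ v w w', s(v, w) ∈ A → s(v, w') ∈ A → w = w' := by
    intro v w w' h1 h2
    by_contra hne
    refine hA.2 _ h1 _ h2 ?_ v (Sym2.mem_mk_left v w) (Sym2.mem_mk_left v w')
    intro e
    rw [Sym2.eq_iff] at e
    rcases e with ⟨-, e⟩ | ⟨e, e'⟩
    · exact hne e
    · exact hne (by rw [e', e])
  let a : V → V := fun v => if h : ∃ w, s(v, w) ∈ A then h.choose else v
  have ha1 : ∀ v w, s(v, w) ∈ A → a v = w := by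
    intro v w h
    have h1 : ∃ w, s(v, w) ∈ A := ⟨w, h⟩
    have h2 : a v = h1.choose := dif_pos h1
    rw [h2]
    exact huniq v _ _ h1.choose_spec h
  have ha2 : ∀ v, (¬ ∃ w, s(v, w) ∈ A) → a v = v := fun v h => dif_neg h
  have hne : ∀ v w, s(v, w) ∈ A → v ≠ w := by
    intro v w h
    have h1 := hA.1 _ h
    rw [SimpleGraph.mem_edgeSet] at h1
    exact h1.ne
  -- the covered vertices
  have hcov : (A.biUnion Sym2.toFinset).card = 2 * l := by
    rw [card_biUnion]
    · rw [← hc, mul_comm, ← smul_eq_mul, ← sum_const]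
      refine sum_congr rfl fun e he => ?_
      refine Sym2.card_toFinset_of_not_isDiag e ?_
      exact SimpleGraph.not_isDiag_of_mem_edgeSet _ (hA.1 e he)
    · intro e he f hf hef
      rw [Function.onFun, disjoint_left]
      intro v hv hv'
      rw [Sym2.mem_toFinset] at hv hv'
      exact hA.2 e he f hf hef v hv hv'
  have hunc : (univ \ A.biUnion Sym2.toFinset).card = 1 := by
    rw [card_sdiff_of_subset (subset_univ _), card_univ, hV, hcov]
    omega
  obtain ⟨x, hx⟩ := card_eq_one.1 hunc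
  have hmem : ∀ v, v ∈ A.biUnion Sym2.toFinset ↔ ∃ w, s(v, w) ∈ A := by
    intro v
    rw [mem_biUnion]
    constructor
    · rintro ⟨e, he, hv⟩
      rw [Sym2.mem_toFinset] at hv
      obtain ⟨w, rfl⟩ := hv
      exact ⟨w, he⟩
    · rintro ⟨w, hw⟩
      refine ⟨s(v, w), hw, ?_⟩
      rw [Sym2.mem_toFinset]
      exact Sym2.mem_mk_left v w
  have hxv : ∀ v, v = x ↔ ¬ ∃ w, s(v, w) ∈ A := by
    intro v
    rw [← hmem, ← mem_singleton, ← hx, mem_sdiff]
    exact ⟨fun h => h.2, fun h => ⟨mem_univ _, h⟩⟩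
  have hst : St G a x := by
    refine ⟨fun v => ?_, ha2 x ((hxv x).1 rfl), fun v hv => ?_⟩
    · by_cases h : ∃ w, s(v, w) ∈ A
      · obtain ⟨w, hw⟩ := h
        rw [ha1 v w hw]
        refine ha1 w v ?_
        rw [Sym2.eq_swap]
        exact hw
      · rw [ha2 v h, ha2 v h]
    · have h : ∃ w, s(v, w) ∈ A := by
        by_contra h
        exact hv ((hxv v).2 h)
      obtain ⟨w, hw⟩ := h
      rw [ha1 v w hw]
      have h1 := hA.1 _ hw
      rwa [SimpleGraph.mem_edgeSet] at h1
  refine ⟨a, x, hst, ?_⟩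
  ext e
  induction e using Sym2.ind with
  | _ u w =>
    rw [mem_E hst.inv]
    constructor
    · rintro ⟨h1, h2⟩
      by_cases h : ∃ w, s(u, w) ∈ A
      · obtain ⟨w', hw'⟩ := h
        rw [ha1 u w' hw'] at h1
        rw [← h1]
        exact hw'
      · rw [ha2 u h] at h1
        exact absurd h1 h2
    · intro h
      exact ⟨ha1 u w h, hne u w h⟩

/-- CONNNEAR: almost perfect matchings are connected -/
theorem connNear : S_ConnNear := by
  intro V _ _ G s l hV hdeg
  constructor
  · intro hm A B hA hB hAc hBc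
    obtain ⟨a, x, ha, rfl⟩ := exists_state hV hA hAc
    obtain ⟨b, x', hb, rfl⟩ := exists_state hV hB hBc
    refine conn (Step1 G) (fun _ _ h => h) hb (fun a ha hne => ?_) _ a x ha le_rfl
    rcases dich (Step1 G) (fun _ _ h => h) s hdeg ha hb with h | h
    · exfalso
      obtain ⟨v, hv⟩ := Function.ne_iff.1 hne
      have h1 := four ha hb (mem_D.2 hv)
      have h2 := Nat.mul_le_mul_left (s + 1) h1
      omega
    · exact h
  · intro hm A B hA hB hAc hBc
    obtain ⟨a, x, ha, rfl⟩ := exists_state hV hA hAc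
    obtain ⟨b, x', hb, rfl⟩ := exists_state hV hB hBc
    refine conn _ (fun _ _ h => Or.inl h) hb (fun a ha hne => ?_) _ a x ha le_rfl
    obtain ⟨v, hv⟩ := Function.ne_iff.1 hne
    by_cases h4 : a (b v) = b (a v)
    · obtain ⟨e1, e2, e3⟩ := sw_spec ha hb (mem_D.2 hv) h4
      exact ⟨_, e1, Relation.ReflTransGen.single (Or.inr e2), e3⟩
    · rcases dich (fun X Y => Step1 G X Y ∨ Step2 G X Y) (fun _ _ h => Or.inl h) s hdeg ha hb
        with h | h
      · exfalso
        have h1 := six ha hb (mem_D.2 hv) h4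
        have h2 := Nat.mul_le_mul_left (s + 1) h1
        omega
      · exact h

end Pool.Agent.H621.ZM.ConnNear
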