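import Pool.Agent.H621.ZM.Spec

/-!
Perfect matchings of a graph with few non-edges are connected under exchanges of two edges.
-/

set_option autoImplicit false

namespace Pool.Agent.H621.ZM.ConnPerf

open Finset

section Fun

variable {V : Type} {G : SimpleGraph V}

/-- a perfect matching as an involution -/
structure PM (G : SimpleGraph V) (m : V → V) : Prop where
  adj : ∀ v, G.Adj v (m v)
  inv : ∀ v, m (m v) = v

theorem PM.ne {m : V → V} (h : PM G m) (v : V) : m v ≠ v := (h.adj v).ne'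

theorem PM.inj {m : V → V} (h : PM G m) {u v : V} (e : m u = m v) : u = v := by
  rw [← h.inv u, e, h.inv v]

/-- exchange of the partners of `x` and `y` -/
def Ex (m m' : V → V) (x y : V) : Prop :=
  m' x = m y ∧ m' y = m x ∧ ∀ v, v ≠ x → v ≠ y → v ≠ m x → v ≠ m y → m' v = m v

/-- one step -/
def St (G : SimpleGraph V) (m m' : V → V) : Prop :=
  PM G m ∧ PM G m' ∧ ∃ x y, x ≠ y ∧ m x ≠ y ∧ Ex m m' x y

variable [DecidableEq V]

theorem exists_ex {m : V → V} (h : PM G m) {x y : V} (hxy : x ≠ y) (hmx : m x ≠ y)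
    (h1 : G.Adj x (m y)) (h2 : G.Adj y (m x)) :
    ∃ m', PM G m' ∧ Ex m m' x y ∧ St G m m' := by
  have hxm : x ≠ m x := (h.ne x).symm
  have hym : y ≠ m y := (h.ne y).symm
  have hmy : m y ≠ x := by
    intro e
    exact hmx (by rw [← e, h.inv])
  have hmm : m x ≠ m y := fun e => hxy (h.inj e)
  obtain ⟨m', hm'⟩ : ∃ m' : V → V, m' = fun v => if v = x then m y else if v = y then m x else
    if v = m x then y else if v = m y then x else m v := ⟨_, rfl⟩
  have e1 : m' x = m y := by rw [hm']; simp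
  have e2 : m' y = m x := by rw [hm']; simp [hxy.symm]
  have e3 : m' (m x) = y := by rw [hm']; simp [hxm.symm, hmx]
  have e4 : m' (m y) = x := by rw [hm']; simp [hym.symm, hmy, hmm.symm]
  have e5 : ∀ v, v ≠ x → v ≠ y → v ≠ m x → v ≠ m y → m' v = m v := by
    intro v a b c d
    rw [hm']; simp [a, b, c, d]
  have hp : PM G m' := by
    constructor
    · intro v
      by_cases a : v = x
      · rw [a, e1]; exact h1
      by_cases b : v = y
      · rw [b, e2]; exact h2
      by_cases c : v = m x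
      · rw [c, e3]; exact h2.symm
      by_cases d : v = m y
      · rw [d, e4]; exact h1.symm
      rw [e5 v a b c d]
      exact h.adj v
    · intro v
      by_cases a : v = x
      · rw [a, e1, e4]
      by_cases b : v = y
      · rw [b, e2, e3]
      by_cases c : v = m x
      · rw [c, e3, e2]
      by_cases d : v = m y
      · rw [d, e4, e1]
      rw [e5 v a b c d, e5 (m v), h.inv]
      · intro e; exact c (by rw [← e, h.inv])
      · intro e; exact d (by rw [← e, h.inv])
      · intro e; exact a (h.inj e)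
      · intro e; exact b (h.inj e)
  exact ⟨m', hp, ⟨e1, e2, e5⟩, h, hp, x, y, hxy, hmx, e1, e2, e5⟩

/-- number of vertices with different partners -/
def D [Fintype V] (a b : V → V) : ℕ := (univ.filter fun v => a v ≠ b v).card

/-- reachability -/
def R (G : SimpleGraph V) (a b : V → V) : Prop := Relation.ReflTransGen (St G) a b

/-! ### cycles -/

section Cyc

variable {a b : V → V} {x : ℕ → V}

omit [DecidableEq V] in
theorem F1 (ha : PM G a) (hb : PM G b) (hx : ∀ i, x (i + 1) = b (a (x i))) :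
    ∀ d i, x (i + d) ≠ a (x i) := by
  intro d
  induction d using Nat.twoStepInduction with
  | zero => intro i e; exact ha.ne _ e.symm
  | one => intro i e; rw [hx] at e; exact hb.ne _ e
  | more d ih _ =>
    intro i e
    apply ih (i + 1)
    have e2 : x (i + (d + 2)) = b (a (x (i + (d + 1)))) := hx (i + (d + 1))
    rw [e2] at e
    have e3 : a (x (i + (d + 1))) = x (i + 1) := by rw [hx i, ← e, hb.inv]
    rw [← e3, ha.inv]
    congr 1
    omega

omit [DecidableEq V] in
theorem F1' (ha : PM G a) (hb : PM G b) (hx : ∀ i, x (i + 1) = b (a (x i))) (i j : ℕ) :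
    x i ≠ a (x j) := by
  rcases le_total j i with h | h
  · obtain ⟨d, rfl⟩ := Nat.exists_eq_add_of_le h
    exact F1 ha hb hx d j
  · obtain ⟨d, rfl⟩ := Nat.exists_eq_add_of_le h
    intro e
    apply F1 ha hb hx d i
    rw [e, ha.inv]

omit [DecidableEq V] in
theorem F2 (ha : PM G a) (hb : PM G b) (hx : ∀ i, x (i + 1) = b (a (x i))) {d : ℕ} :
    ∀ i, x (i + d) = x i → x d = x 0 := by
  intro i
  induction i with
  | zero => intro h; rwa [Nat.zero_add] at h
  | succ i ih =>
    intro h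
    apply ih
    rw [show i + 1 + d = (i + d) + 1 by omega, hx, hx] at h
    exact ha.inj (hb.inj h)

omit [DecidableEq V] in
theorem F3 (ha : PM G a) (hb : PM G b) (hx : ∀ i, x (i + 1) = b (a (x i)))
    (hd : a (x 0) ≠ b (x 0)) (i : ℕ) : a (x i) ≠ b (x i) ∧ a (a (x i)) ≠ b (a (x i)) := by
  have h1 : x (i + 1) ≠ x i := by
    intro e
    have e2 := F2 ha hb hx i e
    rw [hx 0] at e2
    apply hd
    have e3 := congrArg b e2
    rwa [hb.inv] at e3
  constructor
  · intro e
    apply h1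
    rw [hx, e, hb.inv]
  · rw [ha.inv, ← hx]
    exact h1.symm


/-- splitting of a cycle by an odd chord -/
theorem split [Fintype V] (ha : PM G a) (hb : PM G b) (hx : ∀ i, x (i + 1) = b (a (x i)))
    (hd : a (x 0) ≠ b (x 0)) {j : ℕ} (hj : 1 ≤ j) (hne : ∀ i, 1 ≤ i → i ≤ j → x i ≠ x 0)
    (hadj : G.Adj (x 0) (a (x j))) {w : V} (hw : a w ≠ b w)
    (hwS : ∀ i, i ≤ j → w ≠ x i ∧ w ≠ a (x i)) :
    ∃ c, PM G c ∧ D a c < D a b ∧ D c b < D a b := by
  have inj : ∀ i i', i ≤ j → i' ≤ j → x i = x i' → i = i' := by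
    intro i i' hi hi' e
    by_contra hne'
    rcases lt_or_gt_of_ne hne' with h | h
    · obtain ⟨d, rfl⟩ := Nat.exists_eq_add_of_le h.le
      exact hne d (by omega) (by omega) (F2 ha hb hx i e.symm)
    · obtain ⟨d, rfl⟩ := Nat.exists_eq_add_of_le h.le
      exact hne d (by omega) (by omega) (F2 ha hb hx i' e)
  obtain ⟨S, hS⟩ : ∃ S : V → Prop, S = fun v => ∃ i, i ≤ j ∧ (v = x i ∨ v = a (x i)) := ⟨_, rfl⟩
  have hSx : ∀ i, i ≤ j → S (x i) := fun i hi => by rw [hS]; exact ⟨i, hi, Or.inl rfl⟩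
  have hSy : ∀ i, i ≤ j → S (a (x i)) := fun i hi => by rw [hS]; exact ⟨i, hi, Or.inr rfl⟩
  have hSd : ∀ v, S v → a v ≠ b v := by
    intro v hv
    rw [hS] at hv
    obtain ⟨i, _, rfl | rfl⟩ := hv
    · exact (F3 ha hb hx hd i).1
    · exact (F3 ha hb hx hd i).2
  have hSa : ∀ v, S (a v) → S v := by
    intro v hv
    rw [hS] at hv
    obtain ⟨i, hi, e | e⟩ := hv
    · have : v = a (x i) := by rw [← e, ha.inv]
      rw [this]; exact hSy i hi
    · rw [ha.inj e]; exact hSx i hi
  have hSb : ∀ v, S v → v ≠ x 0 → v ≠ a (x j) → S (b v) ∧ b v ≠ x 0 ∧ b v ≠ a (x j) := by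
    intro v hv h0 h1
    rw [hS] at hv
    obtain ⟨i, hi, rfl | rfl⟩ := hv
    · obtain ⟨i, rfl⟩ : ∃ i', i = i' + 1 := by
        cases i with
        | zero => exact absurd rfl h0
        | succ i => exact ⟨i, rfl⟩
      rw [hx, hb.inv]
      refine ⟨hSy i (by omega), (F1' ha hb hx 0 i).symm, ?_⟩
      intro e
      have := inj i j (by omega) le_rfl (ha.inj e)
      omega
    · rw [← hx]
      have hij : i ≠ j := by
        rintro rfl
        exact h1 rfl
      exact ⟨hSx (i + 1) (by omega), hne _ (by omega) (by omega), F1' ha hb hx _ _⟩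
  have h0j : x 0 ≠ a (x j) := F1' ha hb hx 0 j
  classical
  obtain ⟨c, hc⟩ : ∃ c : V → V, c = fun v => if v = x 0 then a (x j) else
    if v = a (x j) then x 0 else if S v then b v else a v := ⟨_, rfl⟩
  have c0 : c (x 0) = a (x j) := by rw [hc]; simp
  have cj : c (a (x j)) = x 0 := by rw [hc]; simp [h0j.symm]
  have cS : ∀ v, v ≠ x 0 → v ≠ a (x j) → S v → c v = b v := by
    intro v h1 h2 h3
    rw [hc]; simp [h1, h2, h3]
  have cn : ∀ v, ¬ S v → c v = a v := by
    intro v h3
    have h1 : v ≠ x 0 := fun e => h3 (by rw [e]; exact hSx 0 (by omega))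
    have h2 : v ≠ a (x j) := fun e => h3 (by rw [e]; exact hSy j le_rfl)
    rw [hc]; simp [h1, h2, h3]
  refine ⟨c, ⟨?_, ?_⟩, ?_, ?_⟩
  · intro v
    by_cases h0 : v = x 0
    · rw [h0, c0]; exact hadj
    by_cases h1 : v = a (x j)
    · rw [h1, cj]; exact hadj.symm
    by_cases h2 : S v
    · rw [cS v h0 h1 h2]; exact hb.adj v
    · rw [cn v h2]; exact ha.adj v
  · intro v
    by_cases h0 : v = x 0
    · rw [h0, c0, cj]
    by_cases h1 : v = a (x j)
    · rw [h1, cj, c0]
    by_cases h2 : S v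
    · obtain ⟨q1, q2, q3⟩ := hSb v h2 h0 h1
      rw [cS v h0 h1 h2, cS _ q2 q3 q1, hb.inv]
    · have h3 : ¬ S (a v) := fun h => h2 (hSa v h)
      rw [cn v h2, cn _ h3, ha.inv]
  · apply card_lt_card
    rw [ssubset_iff_of_subset]
    · refine ⟨w, ?_, ?_⟩
      · simp [hw]
      · have : ¬ S w := by
          rw [hS]
          rintro ⟨i, hi, e | e⟩
          · exact (hwS i hi).1 e
          · exact (hwS i hi).2 e
        simp [cn w this]
    · intro v hv
      simp only [mem_filter, mem_univ, true_and] at hv ⊢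
      by_contra e
      apply hv
      rw [cn]
      intro h
      exact hSd v h e
  · apply card_lt_card
    rw [ssubset_iff_of_subset]
    · refine ⟨a (x 0), ?_, ?_⟩
      · simp only [mem_filter, mem_univ, true_and]
        exact (F3 ha hb hx hd 0).2
      · have h1 : a (x 0) ≠ x 0 := ha.ne _
        have h2 : a (x 0) ≠ a (x j) := fun e => by
          have := inj 0 j (by omega) le_rfl (ha.inj e)
          omega
        simp only [mem_filter, mem_univ, true_and, not_not]
        exact cS _ h1 h2 (hSy 0 (by omega))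
    · intro v hv
      simp only [mem_filter, mem_univ, true_and] at hv ⊢
      by_cases h2 : S v
      · exact hSd v h2
      · rwa [cn v h2] at hv

/-- exchange on a cycle of length four -/
theorem two [Fintype V] (ha : PM G a) (hb : PM G b) {v : V} (hd : a v ≠ b v)
    (h4 : b (a (b (a v))) = v) : ∃ c, PM G c ∧ R G a c ∧ D c b < D a b := by
  have h1 : b v = a (b (a v)) := by rw [← h4, hb.inv, h4]
  have h01 : v ≠ b (a v) := by
    intro e
    apply hd
    rw [e, hb.inv, ← e]
  obtain ⟨c, hc, ⟨e1, e2, e3⟩, hst⟩ := exists_ex ha (x := v) (y := b (a v)) h01 (hb.ne _).symm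
    (by rw [← h1]; exact hb.adj v) (hb.adj _).symm
  have e4 : c (a v) = b (a v) := by
    have := hc.inv (b (a v))
    rwa [e2] at this
  have e5 : c (b v) = v := by rw [h1, ← e1, hc.inv]
  refine ⟨c, hc, Relation.ReflTransGen.single hst, ?_⟩
  apply card_lt_card
  rw [ssubset_iff_of_subset]
  · refine ⟨v, ?_, ?_⟩
    · simp [hd]
    · simp [e1, h1]
  · intro w hw
    simp only [mem_filter, mem_univ, true_and] at hw ⊢
    by_cases q1 : w = v
    · rw [q1]; exact hd
    by_cases q2 : w = b (a v)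
    · exact absurd (by rw [q2, e2, hb.inv]) hw
    by_cases q3 : w = a v
    · exact absurd (by rw [q3, e4]) hw
    by_cases q4 : w = a (b (a v))
    · exact absurd (by rw [q4, ← h1, e5, hb.inv]) hw
    rwa [e3 w q1 q2 q3 q4] at hw

/-- the exchange with the help of a common edge -/
theorem aux [Fintype V] (ha : PM G a) (hb : PM G b) (hx : ∀ i, x (i + 1) = b (a (x i)))
    (hd : a (x 0) ≠ b (x 0)) (h2 : x 2 ≠ x 0) {z : V} (hz : a z = b z) (g0 : G.Adj z (x 0))
    (g1 : G.Adj (a z) (a (x 0))) (g2 : G.Adj (a z) (a (x 1))) (g3 : G.Adj (a z) (a (x 2))) :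
    ∃ c, PM G c ∧ R G a c ∧ D c b < D a b := by
  have f3 := F3 ha hb hx hd
  have f1 := F1' ha hb hx
  have z1 : ∀ i, z ≠ x i := fun i e => (f3 i).1 (by rw [← e]; exact hz)
  have z2 : ∀ i, z ≠ a (x i) := fun i e => (f3 i).2 (by rw [← e]; exact hz)
  have z3 : ∀ i, a z ≠ x i := fun i e => z2 i (by rw [← e, ha.inv])
  have z4 : ∀ i, a z ≠ a (x i) := fun i e => z1 i (ha.inj e)
  have x01 : x 0 ≠ x 1 := by
    intro e
    rw [hx 0] at e
    apply hd
    have := congrArg b e
    rw [hb.inv] at this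
    exact this.symm
  have x02 : x 0 ≠ x 2 := h2.symm
  have x12 : x 1 ≠ x 2 := by
    intro e
    rw [hx 0, hx 1] at e
    exact x01 (ha.inj (hb.inj e))
  have y01 : a (x 0) ≠ a (x 1) := fun e => x01 (ha.inj e)
  have y02 : a (x 0) ≠ a (x 2) := fun e => x02 (ha.inj e)
  have y12 : a (x 1) ≠ a (x 2) := fun e => x12 (ha.inj e)
  have bx1 : b (a (x 0)) = x 1 := (hx 0).symm
  have bx2 : b (a (x 1)) = x 2 := (hx 1).symm
  have by0 : b (x 1) = a (x 0) := by rw [hx 0, hb.inv]
  have by1 : b (x 2) = a (x 1) := by rw [hx 1, hb.inv]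
  obtain ⟨m0, hm0, ⟨p1, p2, p3⟩, st0⟩ := exists_ex ha (x := z) (y := a (x 0)) (z2 0) (z4 0)
    (by rw [ha.inv]; exact g0) g1.symm
  rw [ha.inv] at p1 p3
  have p4 : m0 (a (x 1)) = x 1 := by
    rw [p3 _ (z2 1).symm y01.symm (z4 1).symm (f1 0 1).symm, ha.inv]
  have p5 : m0 (a (x 2)) = x 2 := by
    rw [p3 _ (z2 2).symm y02.symm (z4 2).symm (f1 0 2).symm, ha.inv]
  obtain ⟨m1, hm1, ⟨q1, q2, q3⟩, st1⟩ := exists_ex hm0 (x := a (x 0)) (y := a (x 1)) y01
    (by rw [p2]; exact z4 1) (by rw [p4, ← bx1]; exact hb.adj _) (by rw [p2]; exact g2.symm)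
  rw [p4] at q1 q3
  rw [p2] at q2 q3
  have q4 : m1 (a (x 2)) = x 2 := by
    rw [q3 _ y02.symm y12.symm (z4 2).symm (f1 1 2).symm, p5]
  obtain ⟨m2, hm2, ⟨r1, r2, r3⟩, st2⟩ := exists_ex hm1 (x := a (x 1)) (y := a (x 2)) y12
    (by rw [q2]; exact z4 2) (by rw [q4, ← bx2]; exact hb.adj _) (by rw [q2]; exact g3.symm)
  rw [q4] at r1 r3
  rw [q2] at r2 r3
  have r4 : m2 (a (x 0)) = x 1 := by
    rw [r3 _ y01 y02 (z4 0).symm (f1 2 0).symm, q1]
  have r5 : m2 (x 1) = a (x 0) := by rw [← r4, hm2.inv]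
  have r6 : m2 (x 2) = a (x 1) := by rw [← r1, hm2.inv]
  refine ⟨m2, hm2, ((Relation.ReflTransGen.single st0).tail st1).tail st2, ?_⟩
  obtain ⟨T, hT⟩ : ∃ T : Finset V, T = {a (x 0), x 1, a (x 1), x 2} := ⟨_, rfl⟩
  have hTc : T.card = 4 := by
    rw [hT, card_insert_of_notMem, card_insert_of_notMem, card_insert_of_notMem, card_singleton]
    · simp [(f1 2 1).symm]
    · simp [f1 1 1, x12]
    · simp [(f1 1 0).symm, y01, (f1 2 0).symm]
  have hTs : T ⊆ univ.filter fun v => a v ≠ b v := by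
    intro v hv
    rw [hT] at hv
    simp only [mem_insert, mem_singleton] at hv
    simp only [mem_filter, mem_univ, true_and]
    rcases hv with rfl | rfl | rfl | rfl
    · exact (f3 0).2
    · exact (f3 1).1
    · exact (f3 1).2
    · exact (f3 2).1
  have hsub : (univ.filter fun v => m2 v ≠ b v) ⊆
      ((univ.filter fun v => a v ≠ b v) \ T) ∪ {z, a z} := by
    intro v hv
    simp only [mem_filter, mem_univ, true_and] at hv
    simp only [mem_union, mem_sdiff, mem_filter, mem_univ, true_and, mem_insert, mem_singleton]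
    by_cases w1 : v = z
    · exact Or.inr (Or.inl w1)
    by_cases w2 : v = a z
    · exact Or.inr (Or.inr w2)
    left
    have n1 : v ≠ a (x 0) := fun e => hv (by rw [e, r4, bx1])
    have n2 : v ≠ x 1 := fun e => hv (by rw [e, r5, by0])
    have n3 : v ≠ a (x 1) := fun e => hv (by rw [e, r1, bx2])
    have n4 : v ≠ x 2 := fun e => hv (by rw [e, r6, by1])
    refine ⟨?_, ?_⟩
    · by_cases w3 : v = x 0
      · rw [w3]; exact hd
      by_cases w4 : v = a (x 2)
      · rw [w4]; exact (f3 2).2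
      rwa [r3 v n3 w4 w2 n4, q3 v n1 n3 w2 n2, p3 v w1 n1 w2 w3] at hv
    · rw [hT]
      simp [n1, n2, n3, n4]
  have h1 := card_le_card hsub
  have h3 := card_union_le ((univ.filter fun v => a v ≠ b v) \ T) {z, a z}
  have h4 : ({z, a z} : Finset V).card ≤ 2 := card_le_two
  have h5 := card_sdiff_add_card_eq_card hTs
  unfold D
  omega

end Cyc

/-- ordered pairs of non-adjacent vertices, each pair in one order only -/
theorem miss_ge [Fintype V] (P : Finset (V × V)) (h1 : ∀ p ∈ P, p.1 ≠ p.2 ∧ ¬ G.Adj p.1 p.2)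
    (h2 : ∀ p ∈ P, (p.2, p.1) ∉ P) : P.card ≤ miss G := by
  have h3 : (P.image fun p : V × V => s(p.1, p.2)).card = P.card := by
    apply card_image_of_injOn
    intro p hp q hq e
    simp only [Sym2.eq_iff] at e
    rcases e with ⟨e1, e2⟩ | ⟨e1, e2⟩
    · exact Prod.ext e1 e2
    · exfalso
      apply h2 p hp
      have : (p.2, p.1) = q := Prod.ext e2 e1
      rw [this]
      exact hq
  rw [← h3, ← Set.ncard_coe_finset]
  unfold miss
  apply Set.ncard_le_ncard _ (Set.toFinite _)
  intro e he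
  simp only [coe_image, Set.mem_image, mem_coe] at he
  obtain ⟨p, hp, rfl⟩ := he
  rw [SimpleGraph.mem_edgeSet, SimpleGraph.compl_adj]
  exact h1 p hp

theorem count [Fintype V] {l : ℕ} (hcard : Fintype.card V = 2 * l) (hmiss : miss G + 9 < 4 * l)
    {a b : V → V} (ha : PM G a) (hb : PM G b) (hab : a ≠ b)
    (H1 : ∀ c, PM G c → D a c < D a b → D c b < D a b → False)
    (H2 : ∀ c, PM G c → R G a c → D c b < D a b → False) : False := by
  classical
  obtain ⟨v0, hv0⟩ : ∃ v, a v ≠ b v := by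
    by_contra h
    push Not at h
    exact hab (funext h)
  obtain ⟨x, hx0, hx⟩ : ∃ x : ℕ → V, x 0 = v0 ∧ ∀ i, x (i + 1) = b (a (x i)) :=
    ⟨fun i => (fun v => b (a v))^[i] v0, rfl, fun i => Function.iterate_succ_apply' _ _ _⟩
  have hd : a (x 0) ≠ b (x 0) := by rw [hx0]; exact hv0
  have f3 := F3 ha hb hx hd
  have f1 := F1' ha hb hx
  have hper : ∃ k, 1 ≤ k ∧ x k = x 0 := by
    obtain ⟨i, j, hij, e⟩ := Finite.exists_ne_map_eq_of_infinite x
    rcases lt_or_gt_of_ne hij with h | h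
    · obtain ⟨d, rfl⟩ := Nat.exists_eq_add_of_le h.le
      exact ⟨d, by omega, F2 ha hb hx i e.symm⟩
    · obtain ⟨d, rfl⟩ := Nat.exists_eq_add_of_le h.le
      exact ⟨d, by omega, F2 ha hb hx j e⟩
  obtain ⟨k, ⟨hk1, hk⟩, hmin⟩ : ∃ k, (1 ≤ k ∧ x k = x 0) ∧ ∀ j, j < k → ¬ (1 ≤ j ∧ x j = x 0) :=
    ⟨Nat.find hper, Nat.find_spec hper, fun j hj => Nat.find_min hper hj⟩
  have hmin' : ∀ i j, 1 ≤ j → j < k → x (i + j) ≠ x i := fun i j h1 h2 e =>
    hmin j h2 ⟨h1, F2 ha hb hx i e⟩
  have hk3 : 3 ≤ k := by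
    by_contra hlt
    have : k = 1 ∨ k = 2 := by omega
    rcases this with rfl | rfl
    · rw [hx 0] at hk
      apply hd
      have := congrArg b hk
      rwa [hb.inv] at this
    · obtain ⟨c, hc, h1, h2⟩ := two ha hb hd (by rw [← hx, ← hx]; exact hk)
      exact H2 c hc h1 h2
  have per : ∀ i, x (i + k) = x i := by
    intro i
    induction i with
    | zero => rw [Nat.zero_add]; exact hk
    | succ i ih => rw [show i + 1 + k = (i + k) + 1 by omega, hx, hx, ih]
  have hinj : ∀ i j, i < k → j < k → x i = x j → i = j := by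
    intro i j hi hj e
    by_contra hne
    rcases lt_or_gt_of_ne hne with h | h
    · obtain ⟨d, rfl⟩ := Nat.exists_eq_add_of_le h.le
      exact hmin' i d (by omega) (by omega) e.symm
    · obtain ⟨d, rfl⟩ := Nat.exists_eq_add_of_le h.le
      exact hmin' j d (by omega) (by omega) e
  have hbx : ∀ i, b (x i) = a (x (i + (k - 1))) := by
    intro i
    rw [← per i, show i + k = i + (k - 1) + 1 by omega, hx, hb.inv]
  obtain ⟨X, hX⟩ : ∃ X : Finset V, X = (range k).image x := ⟨_, rfl⟩
  obtain ⟨Y, hY⟩ : ∃ Y : Finset V, Y = X.image a := ⟨_, rfl⟩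
  have memX : ∀ i, x i ∈ X := by
    intro i
    induction i using Nat.strong_induction_on with
    | _ i ih =>
      rcases lt_or_ge i k with h | h
      · rw [hX]; exact mem_image_of_mem _ (mem_range.2 h)
      · obtain ⟨d, rfl⟩ := Nat.exists_eq_add_of_le h
        rw [Nat.add_comm, per]
        exact ih d (by omega)
  have memY : ∀ i, a (x i) ∈ Y := fun i => by rw [hY]; exact mem_image_of_mem _ (memX i)
  have ofX : ∀ v ∈ X, ∃ i, i < k ∧ v = x i := by
    intro v hv
    rw [hX, mem_image] at hv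
    obtain ⟨i, hi, e⟩ := hv
    exact ⟨i, mem_range.1 hi, e.symm⟩
  have ofY : ∀ v ∈ Y, ∃ i, i < k ∧ v = a (x i) := by
    intro v hv
    rw [hY, mem_image] at hv
    obtain ⟨u, hu, e⟩ := hv
    obtain ⟨i, hi, rfl⟩ := ofX u hu
    exact ⟨i, hi, e.symm⟩
  have cX : X.card = k := by
    rw [hX, card_image_of_injOn, card_range]
    intro i hi j hj e
    exact hinj i j (mem_range.1 hi) (mem_range.1 hj) e
  have cY : Y.card = k := by
    rw [hY, card_image_of_injective _ (fun u v e => ha.inj e), cX]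
  have hXY : Disjoint X Y := by
    rw [disjoint_left]
    intro v h1 h2
    obtain ⟨i, _, rfl⟩ := ofX v h1
    obtain ⟨j, _, e⟩ := ofY _ h2
    exact f1 i j e
  -- all differences are on the cycle
  have hDiff : ∀ w, w ∉ X ∪ Y → a w = b w := by
    intro w hw
    by_contra hne
    rw [mem_union, not_or] at hw
    obtain ⟨c, hc, h1, h2⟩ := split ha hb hx hd (j := k - 1) (by omega)
      (fun i h1 h2 e => hmin i (by omega) ⟨h1, e⟩)
      (by rw [show k - 1 = 0 + (k - 1) by omega, ← hbx]; exact hb.adj _) hne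
      (fun i _ => ⟨fun e => hw.1 (by rw [e]; exact memX i), fun e => hw.2 (by rw [e]; exact memY i)⟩)
    exact H1 c hc h1 h2
  -- no odd chords
  have hch : ∀ i j, 1 ≤ j → j + 2 ≤ k → ¬ G.Adj (x i) (a (x (i + j))) := by
    intro i j h1 h2 hadj
    have hside : ∀ n, n ≤ j → x (i + (j + 1)) ≠ x (i + n) ∧ x (i + (j + 1)) ≠ a (x (i + n)) := by
      intro n hn
      refine ⟨?_, f1 _ _⟩
      have := hmin' (i + n) (j + 1 - n) (by omega) (by omega)
      rwa [show i + n + (j + 1 - n) = i + (j + 1) by omega] at this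
    obtain ⟨c, hc, q1, q2⟩ := split (x := fun n => x (i + n)) ha hb (fun n => hx (i + n))
      (f3 i).1 (j := j) h1 (fun n g1 g2 => hmin' i n g1 (by omega)) hadj
      (w := x (i + (j + 1))) (f3 _).1 hside
    exact H1 c hc q1 q2
  have NC : ∀ u ∈ X, ∀ v ∈ Y, G.Adj u v → v = a u ∨ v = b u := by
    intro u hu v hv hadj
    obtain ⟨i, hi, rfl⟩ := ofX u hu
    obtain ⟨i', hi', rfl⟩ := ofY v hv
    obtain ⟨j, hj, e⟩ : ∃ j, j < k ∧ x i' = x (i + j) := by
      rcases le_total i i' with h | h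
      · exact ⟨i' - i, by omega, by rw [show i + (i' - i) = i' by omega]⟩
      · rcases Nat.eq_or_lt_of_le h with rfl | h
        · exact ⟨0, by omega, rfl⟩
        · exact ⟨i' + k - i, by omega, by rw [show i + (i' + k - i) = i' + k by omega, per]⟩
    rw [e] at hadj ⊢
    by_cases h0 : j = 0
    · left; rw [h0]; rfl
    by_cases h1 : j = k - 1
    · right; rw [h1, hbx]
    · exact absurd hadj (hch i j (by omega) (by omega))
  -- no usable edges
  have NU1 : ∀ z, z ∉ X ∪ Y → ∀ u ∈ X, G.Adj z u → ¬ ∀ y ∈ Y, G.Adj (a z) y := by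
    intro z hz u hu h1 h2
    obtain ⟨i, hi, rfl⟩ := ofX u hu
    obtain ⟨c, hc, q1, q2⟩ := aux (x := fun n => x (i + n)) ha hb (fun n => hx (i + n))
      (f3 i).1 (hmin' i 2 (by omega) (by omega)) (hDiff z hz) h1 (h2 _ (memY _)) (h2 _ (memY _))
      (h2 _ (memY _))
    exact H2 c hc q1 q2
  have NU2 : ∀ z, z ∉ X ∪ Y → ∀ u ∈ Y, G.Adj z u → ¬ ∀ y ∈ X, G.Adj (a z) y := by
    intro z hz u hu h1 h2
    obtain ⟨i, hi, rfl⟩ := ofY u hu
    obtain ⟨c, hc, q1, q2⟩ := aux (x := fun n => a (x (i + (k - 1) * n))) ha hb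
      (fun n => by
        show a (x (i + (k - 1) * (n + 1))) = b (a (a (x (i + (k - 1) * n))))
        rw [ha.inv, hbx]
        congr 2
        ring)
      (f3 i).2 (by
        intro e
        have e2 := ha.inj e
        simp only [mul_zero, add_zero] at e2
        have e3 : i + (k - 1) * 2 = i + (k - 2) + k := by omega
        rw [e3, per] at e2
        exact hmin' i (k - 2) (by omega) (by omega) e2) (hDiff z hz) h1
      (h2 _ (by rw [ha.inv]; exact memX _)) (h2 _ (by rw [ha.inv]; exact memX _))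
      (h2 _ (by rw [ha.inv]; exact memX _))
    exact H2 c hc q1 q2
  -- the counting
  obtain ⟨Z, hZ⟩ : ∃ Z : Finset V, Z = univ \ (X ∪ Y) := ⟨_, rfl⟩
  have memZ : ∀ z, z ∈ Z ↔ z ∉ X ∪ Y := by
    intro z
    rw [hZ]
    simp
  have cXY : (X ∪ Y).card = 2 * k := by
    rw [card_union_of_disjoint hXY, cX, cY]
    ring
  have cZ : Z.card + 2 * k = 2 * l := by
    have := card_sdiff_add_card_eq_card (subset_univ (X ∪ Y))
    rw [cXY, card_univ, hcard, ← hZ] at this
    exact this
  have aZ : ∀ z ∈ Z, a z ∈ Z := by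
    intro z hz
    rw [memZ] at hz ⊢
    intro h
    apply hz
    rw [mem_union] at h ⊢
    rcases h with h | h
    · obtain ⟨i, _, e⟩ := ofX _ h
      right
      have : z = a (x i) := by rw [← e, ha.inv]
      rw [this]; exact memY i
    · obtain ⟨i, _, e⟩ := ofY _ h
      left
      rw [ha.inj e]; exact memX i
  obtain ⟨nX, hnX⟩ : ∃ nX : V → ℕ, nX = fun z => (X.filter fun u => ¬ G.Adj z u).card := ⟨_, rfl⟩
  obtain ⟨nY, hnY⟩ : ∃ nY : V → ℕ, nY = fun z => (Y.filter fun u => ¬ G.Adj z u).card := ⟨_, rfl⟩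
  have nXle : ∀ z, nX z ≤ k := fun z => by rw [hnX, ← cX]; exact card_filter_le _ _
  have nYle : ∀ z, nY z ≤ k := fun z => by rw [hnY, ← cY]; exact card_filter_le _ _
  have nX0 : ∀ z, nX z = 0 → ∀ u ∈ X, G.Adj z u := by
    intro z h u hu
    rw [hnX] at h
    simp only [card_eq_zero, filter_eq_empty_iff, not_not] at h
    exact h hu
  have nY0 : ∀ z, nY z = 0 → ∀ u ∈ Y, G.Adj z u := by
    intro z h u hu
    rw [hnY] at h
    simp only [card_eq_zero, filter_eq_empty_iff, not_not] at h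
    exact h hu
  have nXk : ∀ z, nX z < k → ∃ u ∈ X, G.Adj z u := by
    intro z h
    by_contra hcon
    push Not at hcon
    rw [hnX] at h
    simp only [] at h
    rw [filter_true_of_mem hcon, cX] at h
    omega
  have nYk : ∀ z, nY z < k → ∃ u ∈ Y, G.Adj z u := by
    intro z h
    by_contra hcon
    push Not at hcon
    rw [hnY] at h
    simp only [] at h
    rw [filter_true_of_mem hcon, cY] at h
    omega
  have four : ∀ z ∈ Z, 4 ≤ (nX z + nY z) + (nX (a z) + nY (a z)) := by
    intro z hz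
    have hz' := (memZ z).1 hz
    have haz := (memZ _).1 (aZ z hz)
    have k1 : ¬ (nX z < k ∧ nY (a z) = 0) := by
      rintro ⟨p, q⟩
      obtain ⟨u, hu, hadj⟩ := nXk z p
      exact NU1 z hz' u hu hadj (nY0 _ q)
    have k2 : ¬ (nY z < k ∧ nX (a z) = 0) := by
      rintro ⟨p, q⟩
      obtain ⟨u, hu, hadj⟩ := nYk z p
      exact NU2 z hz' u hu hadj (nX0 _ q)
    have k3 : ¬ (nX (a z) < k ∧ nY z = 0) := by
      rintro ⟨p, q⟩
      obtain ⟨u, hu, hadj⟩ := nXk _ p
      exact NU1 _ haz u hu hadj (by rw [ha.inv]; exact nY0 _ q)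
    have k4 : ¬ (nY (a z) < k ∧ nX z = 0) := by
      rintro ⟨p, q⟩
      obtain ⟨u, hu, hadj⟩ := nYk _ p
      exact NU2 _ haz u hu hadj (by rw [ha.inv]; exact nX0 _ q)
    have := nXle z
    have := nYle z
    have := nXle (a z)
    have := nYle (a z)
    omega
  have hsum : ∑ z ∈ Z, (nX (a z) + nY (a z)) = ∑ z ∈ Z, (nX z + nY z) := by
    refine sum_nbij' a a aZ aZ (fun z _ => ha.inv z) (fun z _ => ha.inv z) (fun z _ => rfl)
  have hS : 4 * Z.card ≤ 2 * ∑ z ∈ Z, (nX z + nY z) := by
    have h1 : ∑ z ∈ Z, 4 ≤ ∑ z ∈ Z, ((nX z + nY z) + (nX (a z) + nY (a z))) :=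
      sum_le_sum four
    rw [sum_add_distrib, hsum, sum_const, smul_eq_mul] at h1
    omega
  obtain ⟨P1, hP1⟩ : ∃ P1 : Finset (V × V), P1 = (X ×ˢ Y).filter fun p => ¬ G.Adj p.1 p.2 :=
    ⟨_, rfl⟩
  obtain ⟨P2, hP2⟩ : ∃ P2 : Finset (V × V), P2 = (Z ×ˢ (X ∪ Y)).filter fun p => ¬ G.Adj p.1 p.2 :=
    ⟨_, rfl⟩
  have c1 : k * k ≤ P1.card + 2 * k := by
    have hsub : X ×ˢ Y ⊆ P1 ∪ (X.image (fun u => (u, a u)) ∪ X.image (fun u => (u, b u))) := by
      rintro ⟨u, v⟩ huv
      rw [mem_product] at huv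
      simp only [mem_union, mem_image]
      by_cases hadj : G.Adj u v
      · right
        rcases NC u huv.1 v huv.2 hadj with rfl | rfl
        · exact Or.inl ⟨u, huv.1, rfl⟩
        · exact Or.inr ⟨u, huv.1, rfl⟩
      · left
        rw [hP1, mem_filter, mem_product]
        exact ⟨huv, hadj⟩
    have h1 := card_le_card hsub
    rw [card_product, cX, cY] at h1
    have h2 := card_union_le P1 (X.image (fun u => (u, a u)) ∪ X.image (fun u => (u, b u)))
    have h3 := card_union_le (X.image (fun u => (u, a u))) (X.image (fun u => (u, b u)))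
    have h4 : (X.image (fun u => (u, a u))).card ≤ k := by rw [← cX]; exact card_image_le
    have h5 : (X.image (fun u => (u, b u))).card ≤ k := by rw [← cX]; exact card_image_le
    omega
  have c2 : P2.card = ∑ z ∈ Z, (nX z + nY z) := by
    rw [hP2, card_filter, sum_product]
    refine sum_congr rfl fun z _ => ?_
    rw [← card_filter, filter_union, card_union_of_disjoint (disjoint_filter_filter hXY), hnX, hnY]
  have c3 : P1.card + P2.card ≤ miss G := by
    have hdis : Disjoint P1 P2 := by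
      rw [disjoint_left]
      intro p h1 h2
      rw [hP1, mem_filter, mem_product] at h1
      rw [hP2, mem_filter, mem_product] at h2
      exact (memZ _).1 h2.1.1 (mem_union_left _ h1.1.1)
    rw [← card_union_of_disjoint hdis]
    have hp : ∀ p ∈ P1 ∪ P2, (p.1 ∈ X ∧ p.2 ∈ Y ∨ p.1 ∉ X ∪ Y ∧ p.2 ∈ X ∪ Y) ∧ ¬ G.Adj p.1 p.2 := by
      intro p h
      rw [mem_union] at h
      rcases h with h | h
      · rw [hP1, mem_filter, mem_product] at h
        exact ⟨Or.inl h.1, h.2⟩
      · rw [hP2, mem_filter, mem_product] at h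
        exact ⟨Or.inr ⟨(memZ _).1 h.1.1, h.1.2⟩, h.2⟩
    have hXY' : ∀ v, v ∈ X → v ∈ Y → False := fun v h1 h2 => (disjoint_left.1 hXY) h1 h2
    apply miss_ge
    · intro p h
      obtain ⟨h1, h2⟩ := hp p h
      refine ⟨fun e => ?_, h2⟩
      rcases h1 with h1 | h1
      · rw [e] at h1
        exact hXY' _ h1.1 h1.2
      · rw [e] at h1
        exact h1.1 h1.2
    · intro p h h'
      obtain ⟨h1, _⟩ := hp p h
      obtain ⟨h2, _⟩ := hp _ h'
      simp only [mem_union, not_or] at h1 h2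
      rcases h1 with h1 | h1 <;> rcases h2 with h2 | h2
      · exact hXY' _ h1.1 h2.2
      · exact h2.1.2 h1.2
      · exact h1.1.2 h2.2
      · rcases h1.2 with h3 | h3
        · exact h2.1.1 h3
        · exact h2.1.2 h3
  have key : 6 * k ≤ k * k + 9 := by nlinarith [sq_nonneg ((k : ℤ) - 3), mul_self_nonneg ((k : ℤ) - 3)]
  omega

theorem conn [Fintype V] {l : ℕ} (hcard : Fintype.card V = 2 * l) (hmiss : miss G + 9 < 4 * l) :
    ∀ n, ∀ a b : V → V, PM G a → PM G b → D a b ≤ n → R G a b := by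
  intro n
  induction n with
  | zero =>
    intro a b _ _ h
    have : a = b := by
      funext v
      by_contra hne
      have h2 : 0 < D a b := card_pos.2 ⟨v, by simp [hne]⟩
      omega
    rw [this]
    exact Relation.ReflTransGen.refl
  | succ n ih =>
    intro a b ha hb h
    by_contra hR
    have hab : a ≠ b := by
      rintro rfl
      exact hR Relation.ReflTransGen.refl
    refine count hcard hmiss ha hb hab ?_ ?_
    · intro c hc h1 h2
      exact hR ((ih a c ha hc (by omega)).trans (ih c b hc hb (by omega)))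
    · intro c hc h1 h2
      exact hR (h1.trans (ih c b hc hb (by omega)))

/-- the set of edges of a perfect matching -/
def E [Fintype V] (m : V → V) : Finset (Sym2 V) := univ.image fun v => s(v, m v)

theorem mem_E [Fintype V] {m : V → V} (hm : PM G m) (u w : V) : s(u, w) ∈ E m ↔ m u = w := by
  unfold E
  simp only [mem_image, mem_univ, true_and, Sym2.eq_iff]
  constructor
  · rintro ⟨v, ⟨rfl, rfl⟩ | ⟨rfl, rfl⟩⟩
    · rfl
    · exact hm.inv _
  · rintro rfl
    exact ⟨u, Or.inl ⟨rfl, rfl⟩⟩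

theorem isM_E [Fintype V] {m : V → V} (hm : PM G m) : IsM G (E m) := by
  constructor
  · intro e he
    induction e using Sym2.ind with
    | _ u w =>
      rw [mem_E hm] at he
      rw [SimpleGraph.mem_edgeSet, ← he]
      exact hm.adj u
  · intro e he f hf hne v hve hvf
    apply hne
    obtain ⟨w, rfl⟩ := hve
    obtain ⟨w', rfl⟩ := hvf
    rw [mem_E hm] at he hf
    rw [← he, ← hf]

theorem exists_fun [Fintype V] {l : ℕ} (hcard : Fintype.card V = 2 * l) {A : Finset (Sym2 V)}
    (hA : IsM G A) (hc : A.card = l) : ∃ a, PM G a ∧ A = E a := by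
  have hcov : A.biUnion (fun e => e.toFinset) = univ := by
    rw [← card_eq_iff_eq_univ, card_biUnion]
    · rw [sum_congr rfl (fun e he => Sym2.card_toFinset_of_not_isDiag e
        (G.not_isDiag_of_mem_edgeSet (hA.1 e he))), sum_const, hc, smul_eq_mul, hcard]
      ring
    · intro e he f hf hne
      show Disjoint e.toFinset f.toFinset
      rw [disjoint_left]
      intro v h1 h2
      rw [Sym2.mem_toFinset] at h1 h2
      exact hA.2 e he f hf hne v h1 h2
  have hex : ∀ v, ∃ w, s(v, w) ∈ A := by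
    intro v
    have hv : v ∈ A.biUnion (fun e => e.toFinset) := by rw [hcov]; exact mem_univ v
    rw [mem_biUnion] at hv
    obtain ⟨e, he, hve⟩ := hv
    rw [Sym2.mem_toFinset] at hve
    obtain ⟨w, rfl⟩ := hve
    exact ⟨w, he⟩
  choose a hae using hex
  have huniq : ∀ u w, s(u, w) ∈ A → a u = w := by
    intro u w h
    by_contra hne
    have hne' : s(u, a u) ≠ s(u, w) := by
      intro e
      exact hne (Sym2.congr_right.1 e)
    exact hA.2 _ (hae u) _ h hne' u (Sym2.mem_mk_left _ _) (Sym2.mem_mk_left _ _)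
  have hpm : PM G a := by
    constructor
    · intro v
      have := hA.1 _ (hae v)
      rwa [SimpleGraph.mem_edgeSet] at this
    · intro v
      apply huniq
      rw [Sym2.eq_swap]
      exact hae v
  refine ⟨a, hpm, ?_⟩
  ext e
  induction e using Sym2.ind with
  | _ u w =>
    rw [mem_E hpm]
    constructor
    · exact huniq u w
    · rintro rfl
      exact hae u

theorem step2_of_st [Fintype V] {m m' : V → V} (h : St G m m') : Step2 G (E m) (E m') := by
  obtain ⟨hm, hm', x, y, hxy, hmx, e1, e2, e5⟩ := h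
  have e3 : m' (m x) = y := by rw [← e2, hm'.inv]
  have e4 : m' (m y) = x := by rw [← e1, hm'.inv]
  have hmy : m y ≠ x := by
    intro e
    exact hmx (by rw [← e, hm.inv])
  have hmm : m x ≠ m y := fun e => hxy (hm.inj e)
  refine ⟨isM_E hm', s(x, m x), s(y, m y), s(x, m y), s(y, m x), ?_, ?_, ?_, ?_, ?_, ?_, ?_⟩
  · rw [mem_E hm]
  · rw [mem_E hm]
  · intro e
    rw [Sym2.eq_iff] at e
    rcases e with ⟨e, _⟩ | ⟨e, _⟩
    · exact hxy e
    · exact hmy e.symm
  · rw [mem_E hm]; exact hmm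
  · rw [mem_E hm]; exact hmm.symm
  · intro e
    rw [Sym2.eq_iff] at e
    rcases e with ⟨e, _⟩ | ⟨e, _⟩
    · exact hxy e
    · exact hm.ne _ e.symm
  · ext e
    induction e using Sym2.ind with
    | _ u w =>
      simp only [mem_insert, mem_erase, mem_E hm, mem_E hm', Sym2.eq_iff, ne_eq]
      have n1 := hm.ne x
      have n2 := hm.ne y
      have n3 := hm.inv x
      have n4 := hm.inv y
      by_cases a1 : u = x
      · rw [a1, e1]
        grind
      by_cases a2 : u = y
      · rw [a2, e2]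
        grind
      by_cases a3 : u = m x
      · rw [a3, e3]
        grind
      by_cases a4 : u = m y
      · rw [a4, e4]
        grind
      rw [e5 u a1 a2 a3 a4]
      simp [a1, a2, a3, a4]

end Fun

theorem connPerf : S_ConnPerf := by
  intro V _ _ G l hcard hmiss A B hA hB hcA hcB
  obtain ⟨a, ha, rfl⟩ := exists_fun hcard hA hcA
  obtain ⟨b, hb, rfl⟩ := exists_fun hcard hB hcB
  exact Relation.ReflTransGen.lift (r := St G) (p := fun X Y => Step1 G X Y ∨ Step2 G X Y) E
    (fun m m' h => Or.inr (step2_of_st h)) a b (conn hcard hmiss _ a b ha hb le_rfl)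

end Pool.Agent.H621.ZM.ConnPerf
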