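import Pool.Agent.H621.ZM.Spec
import Pool.Graph.R_pool_sql_team_seeded_c8625f6e.K4H79.ZS.OutsideMiddleRange

/-! # `S_Constr`: the two extremal two-coloured graphs -/

set_option autoImplicit false

namespace Pool.Agent.H621.ZM.Constr

open Finset K4H79.ZS
open Pool.Agent.Results.MP_22c8d1_co.OutsideMiddleRange (sum_A_eq ext ext_edges ext_good)

/-- the first extremal graph -/
def g1 (n s : ℕ) : SimpleGraph (Fin n) where
  Adj x y := x ≠ y ∧ (x.val < s - 1 ∨ y.val < s - 1 ∨ (x.val < 3 * s - 2 ∧ y.val < 3 * s - 2))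
  symm := ⟨fun x y h => ⟨h.1.symm, by
    rcases h.2 with h2 | h2 | h2
    · exact Or.inr (Or.inl h2)
    · exact Or.inl h2
    · exact Or.inr (Or.inr ⟨h2.2, h2.1⟩)⟩⟩
  loopless := ⟨fun x h => h.1 rfl⟩

theorem two_choose (n : ℕ) : 2 * (((n.choose 2 : ℕ) : ℤ)) = n * (n - 1) := by
  have h := Nat.cast_choose_two ℚ n
  have h2 : (2 : ℚ) * (n.choose 2 : ℕ) = n * (n - 1) := by rw [h]; ring
  exact_mod_cast h2

open Classical in
theorem row {n s r : ℕ} (hs : 1 ≤ s) (hn : n + 2 = 3 * s + r) (x : Fin n) :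
    ∑ y, A (g1 n s) x y = (s - 1) + (if x.val < 3 * s - 2 then 2 * s - 2 else 0) +
      (if x.val < s - 1 then r else 0) := by
  have h0 : ∑ y, A (g1 n s) x y = (univ.filter (fun y => (g1 n s).Adj x y)).card := by
    rw [card_filter]
    rfl
  rw [h0]
  by_cases h1 : x.val < s - 1
  · have h2 : univ.filter (fun y => (g1 n s).Adj x y) = univ.erase x := by
      ext y
      simp only [mem_filter, mem_univ, true_and, mem_erase, and_true]
      constructor
      · intro h; exact h.1.symm
      · intro h; exact ⟨fun h' => h h'.symm, Or.inl h1⟩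
    rw [h2, card_erase_of_mem (mem_univ _), card_univ, Fintype.card_fin, if_pos h1,
      if_pos (by omega)]
    omega
  · by_cases h3 : x.val < 3 * s - 2
    · have h2 : univ.filter (fun y => (g1 n s).Adj x y) =
          (univ.filter (fun y : Fin n => y.val < 3 * s - 2)).erase x := by
        ext y
        simp only [mem_filter, mem_univ, true_and, mem_erase]
        constructor
        · rintro ⟨h4, h5 | h5 | h5⟩
          · exact absurd h5 h1
          · exact ⟨fun h => h4 h.symm, by omega⟩
          · exact ⟨fun h => h4 h.symm, h5.2⟩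
        · rintro ⟨h4, h5⟩
          exact ⟨fun h => h4 h.symm, Or.inr (Or.inr ⟨h3, h5⟩)⟩
      rw [h2, card_erase_of_mem (by rw [mem_filter]; exact ⟨mem_univ _, h3⟩),
        Fin.card_filter_val_lt, if_neg h1, if_pos h3]
      omega
    · have h2 : univ.filter (fun y => (g1 n s).Adj x y) =
          univ.filter (fun y : Fin n => y.val < s - 1) := by
        ext y
        simp only [mem_filter, mem_univ, true_and]
        constructor
        · rintro ⟨h4, h5 | h5 | h5⟩
          · exact absurd h5 h1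
          · exact h5
          · exact absurd h5.1 h3
        · intro h5
          refine ⟨fun h => ?_, Or.inr (Or.inl h5)⟩
          rw [h] at h1
          exact h1 h5
      rw [h2, Fin.card_filter_val_lt, if_neg h1, if_neg h3]
      omega

theorem g1_edges {n s r : ℕ} (hs : 1 ≤ s) (hn : n + 2 = 3 * s + r) :
    (g1 n s).edgeSet.ncard + m1 s r = n.choose 2 := by
  classical
  have h1 := sum_A_eq (g1 n s)
  rw [sum_congr rfl fun x _ => row hs hn x, sum_add_distrib, sum_add_distrib, sum_const, card_univ,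
    Fintype.card_fin, ← sum_filter, ← sum_filter, sum_const, sum_const, Fin.card_filter_val_lt,
    Fin.card_filter_val_lt, min_eq_right (by omega), min_eq_right (by omega)] at h1
  simp only [smul_eq_mul] at h1
  obtain ⟨σ, rfl⟩ : ∃ σ, s = σ + 1 := ⟨s - 1, by omega⟩
  have e1 : σ + 1 - 1 = σ := by omega
  have e2 : 3 * (σ + 1) - 2 = 3 * σ + 1 := by omega
  have e3 : 2 * (σ + 1) - 2 = 2 * σ := by omega
  have e4 : 2 * (σ + 1) - 1 = 2 * σ + 1 := by omega
  have e5 : n = 3 * σ + 1 + r := by omega
  rw [e1, e2, e3, e5] at h1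
  unfold m1
  rw [e4, e5]
  have h2 := two_choose (3 * σ + 1 + r)
  have h3 := two_choose r
  zify at h1 ⊢
  push_cast at h2
  subst e5
  nlinarith

theorem g2_edges {n s r : ℕ} (hs : 1 ≤ s) (hn : n + 2 = 3 * s + r) :
    (ext n (2 * s - 2)).edgeSet.ncard + m2 s r = n.choose 2 := by
  rw [ext_edges (by omega)]
  obtain ⟨σ, rfl⟩ : ∃ σ, s = σ + 1 := ⟨s - 1, by omega⟩
  have e3 : 2 * (σ + 1) - 2 = 2 * σ := by omega
  have e5 : n = 3 * σ + 1 + r := by omega
  rw [e3, e5]
  unfold Pool.Agent.Results.MP_22c8d1_co.OutsideMiddleRange.val m2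
  have e6 : 2 * (3 * σ + 1 + r) - 2 * σ - 1 = 4 * σ + 1 + 2 * r := by omega
  have e7 : 2 * σ * (4 * σ + 1 + 2 * r) / 2 = σ * (4 * σ + 1 + 2 * r) := by
    rw [mul_assoc, Nat.mul_div_cancel_left _ (by norm_num)]
  rw [e6, e7]
  have h2 := two_choose (3 * σ + 1 + r)
  have h3 := two_choose (σ + 1 + r)
  zify
  push_cast at h2 h3
  nlinarith

theorem g1_good (n s : ℕ) (hs : 1 ≤ s) :
    ∃ c : Sym2 (Fin n) → Bool, ∀ F : Finset (Sym2 (Fin n)),
        (↑F : Set (Sym2 (Fin n))) ⊆ (g1 n s).edgeSet → F.card = s →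
        (∀ e ∈ F, ∀ f ∈ F, e ≠ f → ∀ v ∈ e, v ∉ f) →
        ¬ ∃ b : Bool, ∀ e ∈ F, c e = b := by
  classical
  refine ⟨fun e => decide (∃ v ∈ e, v.val < s - 1), ?_⟩
  rintro F hF hcard hdis ⟨b, hb⟩
  cases b with
  | true =>
    have hlow : ∀ e ∈ F, ∃ v ∈ e, v.val < s - 1 := fun e he => of_decide_eq_true (hb e he)
    obtain ⟨e0, he0⟩ := Finset.card_pos.mp (show 0 < F.card by omega)
    obtain ⟨v0, -, -⟩ := hlow e0 he0
    have : Nonempty (Fin n) := ⟨v0⟩
    choose! f hf1 hf2 using hlow
    obtain ⟨e, he, e', he', hne, heq⟩ := Finset.exists_ne_map_eq_of_card_lt_of_maps_to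
      (f := fun e => (f e).val) (s := F) (t := Finset.range (s - 1))
      (by rw [Finset.card_range, hcard]; omega)
      (fun e he => Finset.mem_coe.mpr (Finset.mem_range.mpr (hf2 e (Finset.mem_coe.mp he))))
    have hfe : f e = f e' := Fin.ext heq
    exact hdis e he e' he' hne (f e) (hf1 e he) (by rw [hfe]; exact hf1 e' he')
  | false =>
    have hhigh : ∀ e ∈ F, ∀ v ∈ e, ¬ v.val < s - 1 ∧ v.val < 3 * s - 2 := by
      intro e he
      have h2 := of_decide_eq_false (hb e he)
      have h3 : e ∈ (g1 n s).edgeSet := hF he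
      induction e using Sym2.ind with
      | _ x y =>
        have h4 : x ≠ y ∧ (x.val < s - 1 ∨ y.val < s - 1 ∨
            (x.val < 3 * s - 2 ∧ y.val < 3 * s - 2)) := h3
        have h5 : ¬ x.val < s - 1 := fun h => h2 ⟨x, Sym2.mem_mk_left x y, h⟩
        have h6 : ¬ y.val < s - 1 := fun h => h2 ⟨y, Sym2.mem_mk_right x y, h⟩
        intro v hv
        rw [Sym2.mem_iff] at hv
        rcases hv with rfl | rfl
        · exact ⟨h5, by omega⟩
        · exact ⟨h6, by omega⟩
    have hc2 : ∀ e ∈ F, (Finset.univ.filter (fun v => v ∈ e)).card = 2 := by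
      intro e he
      have h3 : e ∈ (g1 n s).edgeSet := hF he
      induction e using Sym2.ind with
      | _ x y =>
        have hxy : x ≠ y := h3.1
        have : (Finset.univ.filter (fun v => v ∈ s(x, y))) = {x, y} := by
          ext v
          simp
        rw [this, Finset.card_pair hxy]
    have hbi : (F.biUnion (fun e => Finset.univ.filter (fun v => v ∈ e))).card = 2 * s := by
      rw [Finset.card_biUnion]
      · rw [Finset.sum_congr rfl hc2, Finset.sum_const, hcard, smul_eq_mul, mul_comm]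
      · intro e he f hf hef
        show Disjoint (Finset.univ.filter (fun v => v ∈ e)) (Finset.univ.filter (fun v => v ∈ f))
        rw [Finset.disjoint_left]
        intro v hv hv2
        rw [Finset.mem_filter] at hv hv2
        exact hdis e he f hf hef v hv.2 hv2.2
    have hsub : ((F.biUnion (fun e => Finset.univ.filter (fun v => v ∈ e))).image
        (fun v : Fin n => v.val)) ⊆ Finset.Ico (s - 1) (3 * s - 2) := by
      intro t ht
      rw [Finset.mem_image] at ht
      obtain ⟨v, hv, rfl⟩ := ht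
      rw [Finset.mem_biUnion] at hv
      obtain ⟨e, he, hv⟩ := hv
      rw [Finset.mem_filter] at hv
      rw [Finset.mem_Ico]
      have := hhigh e he v hv.2
      omega
    have h5 := Finset.card_le_card hsub
    rw [Finset.card_image_of_injective _ Fin.val_injective, hbi, Nat.card_Ico] at h5
    omega

theorem constr : S_Constr := by
  intro n s r hs hn
  unfold mm
  rcases le_total (m1 s r) (m2 s r) with h | h
  · rw [min_eq_left h]
    exact ⟨g1 n s, g1_edges hs hn, g1_good n s hs⟩
  · rw [min_eq_right h]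
    exact ⟨ext n (2 * s - 2), g2_edges hs hn, ext_good n s hs⟩

end Pool.Agent.H621.ZM.Constr
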