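import Pool.Agent.H621.ZM.Spec

/-!
Zero-sum matchings, part CORE: a zero-sum-free labelling is a two-colouring (helper790).
-/

set_option autoImplicit false

namespace Pool.Agent.H621.ZM.Core

open Finset

/-! ### Matchings -/

theorem isM_sub {V : Type} {G : SimpleGraph V} {F F' : Finset (Sym2 V)} (h : IsM G F) (hs : F' ⊆ F) : IsM G F' :=
  ⟨fun e he => h.1 e (hs he), fun e he f hf => h.2 e (hs he) f (hs hf)⟩

theorem isM_empty {V : Type} (G : SimpleGraph V) : IsM G (∅ : Finset (Sym2 V)) :=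
  ⟨fun e he => absurd he (notMem_empty e), fun e he => absurd he (notMem_empty e)⟩

theorem isM_single {V : Type} {G : SimpleGraph V} {e : Sym2 V} (h : e ∈ G.edgeSet) :
    IsM G ({e} : Finset (Sym2 V)) := by
  refine ⟨fun f hf => ?_, fun f hf f' hf' hne => ?_⟩
  · rw [mem_singleton.mp hf]; exact h
  · rw [mem_singleton] at hf hf'
    exact absurd (hf.trans hf'.symm) hne

/-! ### Windows -/

section Window

variable {ι : Type} {w : ι → ℤ} {L : Finset ι}

theorem card_le_aa : ((L.filter (fun i => w i ≤ 0)).card : ℤ) ≤ aa w L := by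
  rw [aa, ← sum_filter_add_sum_filter_not L (fun i => w i ≤ 0)]
  have h1 : ((L.filter (fun i => w i ≤ 0)).card : ℤ) ≤ ∑ i ∈ L.filter (fun i => w i ≤ 0), max (1 - w i) 0 := by
    rw [card_eq_sum_ones]
    push_cast
    refine sum_le_sum fun i hi => ?_
    have := (mem_filter.mp hi).2
    exact le_max_of_le_left (by omega)
  have h2 : 0 ≤ ∑ i ∈ L.filter (fun i => ¬ w i ≤ 0), max (1 - w i) 0 :=
    sum_nonneg fun i _ => le_max_right _ _
  linarith

theorem card_le_bb : ((L.filter (fun i => ¬ w i ≤ 0)).card : ℤ) ≤ bb w L := by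
  rw [bb, ← sum_filter_add_sum_filter_not L (fun i => w i ≤ 0)]
  have h1 : ((L.filter (fun i => ¬ w i ≤ 0)).card : ℤ) ≤ ∑ i ∈ L.filter (fun i => ¬ w i ≤ 0), max (w i) 0 := by
    rw [card_eq_sum_ones]
    push_cast
    refine sum_le_sum fun i hi => ?_
    have := (mem_filter.mp hi).2
    exact le_max_of_le_left (by omega)
  have h2 : 0 ≤ ∑ i ∈ L.filter (fun i => w i ≤ 0), max (w i) 0 :=
    sum_nonneg fun i _ => le_max_right _ _
  linarith

theorem bb_large {i : ι} (hi : i ∈ L) (hw : 1 ≤ w i) :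
    ((L.filter (fun i => ¬ w i ≤ 0)).card : ℤ) + (w i - 1) ≤ bb w L := by
  classical
  rw [bb, ← sum_filter_add_sum_filter_not L (fun i => w i ≤ 0)]
  have hi' : i ∈ L.filter (fun i => ¬ w i ≤ 0) := mem_filter.mpr ⟨hi, by omega⟩
  have h2 : 0 ≤ ∑ i ∈ L.filter (fun i => w i ≤ 0), max (w i) 0 :=
    sum_nonneg fun i _ => le_max_right _ _
  rw [← add_sum_erase _ _ hi', ← card_erase_add_one hi']
  have h1 : (((L.filter (fun i => ¬ w i ≤ 0)).erase i).card : ℤ) ≤
      ∑ i ∈ (L.filter (fun i => ¬ w i ≤ 0)).erase i, max (w i) 0 := by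
    rw [card_eq_sum_ones]
    push_cast
    refine sum_le_sum fun j hj => ?_
    have := (mem_filter.mp (mem_of_mem_erase hj)).2
    exact le_max_of_le_left (by omega)
  have h3 : w i ≤ max (w i) 0 := le_max_left _ _
  push_cast
  linarith

theorem aa_large {i : ι} (hi : i ∈ L) (hw : w i ≤ 0) :
    ((L.filter (fun i => w i ≤ 0)).card : ℤ) + (- w i) ≤ aa w L := by
  classical
  rw [aa, ← sum_filter_add_sum_filter_not L (fun i => w i ≤ 0)]
  have hi' : i ∈ L.filter (fun i => w i ≤ 0) := mem_filter.mpr ⟨hi, hw⟩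
  have h2 : 0 ≤ ∑ i ∈ L.filter (fun i => ¬ w i ≤ 0), max (1 - w i) 0 :=
    sum_nonneg fun i _ => le_max_right _ _
  rw [← add_sum_erase _ _ hi', ← card_erase_add_one hi']
  have h1 : (((L.filter (fun i => w i ≤ 0)).erase i).card : ℤ) ≤
      ∑ i ∈ (L.filter (fun i => w i ≤ 0)).erase i, max (1 - w i) 0 := by
    rw [card_eq_sum_ones]
    push_cast
    refine sum_le_sum fun j hj => ?_
    have := (mem_filter.mp (mem_of_mem_erase hj)).2
    exact le_max_of_le_left (by omega)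
  have h3 : 1 - w i ≤ max (1 - w i) 0 := le_max_left _ _
  push_cast
  linarith

theorem card_split : ((L.filter (fun i => w i ≤ 0)).card : ℤ) + ((L.filter (fun i => ¬ w i ≤ 0)).card : ℤ) =
    (L.card : ℤ) := by
  exact_mod_cast card_filter_add_card_filter_not (fun i => w i ≤ 0)

/-- the window of a good lift -/
theorem window {s t : ℕ} {c : ι → ZMod s} {g d : ZMod s} (hL : L.card + 1 = s + t) (h : Good c g d w L) {i : ι}
    (hi : i ∈ L) : (t : ℤ) + 1 - s ≤ w i ∧ w i ≤ (s : ℤ) - t := by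
  obtain ⟨-, ha, hb⟩ := h
  have h1 := card_le_aa (w := w) (L := L)
  have h2 := card_le_bb (w := w) (L := L)
  have h3 := card_split (w := w) (L := L)
  have h4 : (L.card : ℤ) + 1 = s + t := by exact_mod_cast hL
  constructor
  · by_cases hw : w i ≤ 0
    · have := aa_large hi hw
      linarith
    · have := aa_large (w := w) (L := L) (i := i)
      have h5 : (0 : ℤ) ≤ (L.filter (fun i => ¬ w i ≤ 0)).card := by positivity
      push Not at hw
      linarith
  · by_cases hw : w i ≤ 0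
    · have h5 : (0 : ℤ) ≤ (L.filter (fun i => w i ≤ 0)).card := by positivity
      linarith
    · have := bb_large hi (by omega : 1 ≤ w i)
      linarith

/-- few terms outside `{0, 1}` -/
theorem card_out {k : ℤ} (h : aa w L + bb w L ≤ L.card + k) :
    ((L.filter (fun i => ¬ (0 ≤ w i ∧ w i ≤ 1))).card : ℤ) ≤ k := by
  have h1 : (L.card : ℤ) + (L.filter (fun i => ¬ (0 ≤ w i ∧ w i ≤ 1))).card ≤ aa w L + bb w L := by
    rw [card_filter, card_eq_sum_ones, aa, bb, ← sum_add_distrib]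
    push_cast
    rw [← sum_add_distrib]
    refine sum_le_sum fun i _ => ?_
    by_cases h2 : 0 ≤ w i ∧ w i ≤ 1
    · rw [if_neg (not_not.mpr h2)]
      have h4 : 1 - w i ≤ max (1 - w i) 0 := le_max_left _ _
      have h5 : w i ≤ max (w i) 0 := le_max_left _ _
      omega
    · rw [if_pos h2]
      have h3 : w i < 0 ∨ 1 < w i := by omega
      rcases h3 with h3 | h3
      · have h4 : 1 - w i ≤ max (1 - w i) 0 := le_max_left _ _
        have h5 : 0 ≤ max (w i) 0 := le_max_right _ _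
        omega
      · have h4 : w i ≤ max (w i) 0 := le_max_left _ _
        have h5 : 0 ≤ max (1 - w i) 0 := le_max_right _ _
        omega
  linarith

/-- a partial sum is large -/
theorem sum_ge {T : Finset ι} (hT : T ⊆ L) : (T.card : ℤ) - aa w L ≤ ∑ i ∈ T, w i := by
  have h1 : ∑ i ∈ T, max (1 - w i) 0 ≤ aa w L :=
    sum_le_sum_of_subset_of_nonneg hT fun i _ _ => le_max_right _ _
  have h2 : ∑ i ∈ T, (1 - w i) ≤ ∑ i ∈ T, max (1 - w i) 0 := sum_le_sum fun i _ => le_max_left _ _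
  rw [sum_sub_distrib, sum_const, nsmul_eq_mul, mul_one] at h2
  linarith

end Window

/-- two lifts in the window agree -/
theorem uniq {s t : ℕ} (h2t : s + 1 ≤ 2 * t) {g d : ZMod s} (hd : IsUnit d) {x y : ℤ}
    (hx : (t : ℤ) + 1 - s ≤ x ∧ x ≤ (s : ℤ) - t) (hy : (t : ℤ) + 1 - s ≤ y ∧ y ≤ (s : ℤ) - t)
    (h : g + d * (x : ZMod s) = g + d * (y : ZMod s)) : x = y := by
  have h1 : (x : ZMod s) = (y : ZMod s) := hd.mul_left_cancel (add_left_cancel h)
  have h2 : ((x - y : ℤ) : ZMod s) = 0 := by rw [Int.cast_sub, h1, sub_self]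
  have h3 : (s : ℤ) ∣ x - y := (ZMod.intCast_zmod_eq_zero_iff_dvd (x - y) s).mp h2
  have h4 : |x - y| < s := by
    rw [abs_lt]
    constructor <;> omega
  have h5 := Int.eq_zero_of_abs_lt_dvd h3 h4
  omega

/-! ### Claim A -/

theorem claimA (hJ : S_Jump) {V : Type} [DecidableEq V] {G : SimpleGraph V} {s t : ℕ}
    {c : Sym2 V → ZMod s} (h2t : s + 1 ≤ 2 * t) (hts : t + 1 ≤ s)
    (hZ : ∀ F, IsM G F → F.card = s → ∑ e ∈ F, c e ≠ 0)
    (hE : ∀ F, IsM G F → F.card + t ≤ s → ∃ F', F ⊆ F' ∧ IsM G F' ∧ F'.card + 1 = s + t)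
    {g d : ZMod s} {W : Sym2 V → ℤ} (hW : ∀ L, IsM G L → L.card + 1 = s + t → Good c g d W L)
    {K : Finset (Sym2 V)} (hK : IsM G K) (hK0 : ∀ e ∈ K, W e ≤ 0) : K.card < s := by
  by_contra hcon
  obtain ⟨K', hK's, hK'c⟩ := exists_subset_card_eq (not_lt.mp hcon)
  replace hK := isM_sub hK hK's
  replace hK0 : ∀ e ∈ K', W e ≤ 0 := fun e he => hK0 e (hK's he)
  clear hcon
  -- the labels are determined by `W`
  have hc : ∀ e ∈ G.edgeSet, c e = g + d * (W e : ZMod s) := by
    intro e he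
    obtain ⟨L, hL1, hL2, hL3⟩ := hE {e} (isM_single he) (by rw [card_singleton]; omega)
    exact (hW L hL2 hL3).1 e (hL1 (mem_singleton_self e))
  -- the excess of a long matching
  have hout : ∀ L, IsM G L → L.card + 1 = s + t →
      ((L.filter (fun i => ¬ (0 ≤ W i ∧ W i ≤ 1))).card : ℤ) ≤ (s : ℤ) - 1 - t := by
    intro L hL hLc
    obtain ⟨-, ha, hb⟩ := hW L hL hLc
    have h4 : (L.card : ℤ) + 1 = s + t := by exact_mod_cast hLc
    exact card_out (by linarith)
  let K1 := K'.filter (fun e => W e < 0)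
  let K0 := K'.filter (fun e => ¬ W e < 0)
  have hK1K : K1 ⊆ K' := filter_subset _ _
  have hK0K : K0 ⊆ K' := filter_subset _ _
  have hcard : K1.card + K0.card = s := by
    rw [← hK'c]
    exact card_filter_add_card_filter_not _
  have hK1c : K1.card + t ≤ s := by
    by_contra hlt
    obtain ⟨K2, hK2s, hK2c⟩ := exists_subset_card_eq (by omega : s - t ≤ K1.card)
    obtain ⟨L, hL1, hL2, hL3⟩ := hE K2 (isM_sub hK (hK2s.trans hK1K)) (by omega)
    have h1 := hout L hL2 hL3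
    have h2 : K2 ⊆ L.filter (fun i => ¬ (0 ≤ W i ∧ W i ≤ 1)) := by
      intro e he
      refine mem_filter.mpr ⟨hL1 he, ?_⟩
      have := (mem_filter.mp (hK2s he)).2
      omega
    have h3 := card_le_card h2
    omega
  obtain ⟨L, hL1, hL2, hL3⟩ := hE K1 (isM_sub hK hK1K) hK1c
  let M := L.filter (fun i => 0 ≤ W i ∧ W i ≤ 1)
  have hMc : K0.card + 1 ≤ M.card := by
    have h1 := hout L hL2 hL3
    have h2 : M.card + (L.filter (fun i => ¬ (0 ≤ W i ∧ W i ≤ 1))).card = L.card :=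
      card_filter_add_card_filter_not _
    omega
  obtain ⟨P, hPM, hPc⟩ := exists_subset_card_eq hMc
  obtain ⟨Y, hYP, hYc⟩ := exists_subset_card_eq (by omega : K0.card ≤ P.card)
  have hPL : P ⊆ L := hPM.trans (filter_subset _ _)
  have hchain := hJ V G K0 P Y (isM_sub hK hK0K) (isM_sub hL2 hPL) hPc hYP hYc
  -- values
  have hval : ∀ e ∈ K0 ∪ P, 0 ≤ W e ∧ W e ≤ 1 := by
    intro e he
    rcases mem_union.mp he with he | he
    · have h1 := (mem_filter.mp he).2
      have h2 := hK0 e (hK0K he)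
      omega
    · exact (mem_filter.mp (hPM he)).2
  have hneg : ∀ e ∈ K1, W e < 0 := fun e he => (mem_filter.mp he).2
  -- `K1 ∪ X` is a matching
  have hmatch : ∀ X, IsM G X → X ⊆ K0 ∪ P → X.card = K0.card →
      Disjoint K1 X ∧ IsM G (K1 ∪ X) := by
    intro X hX hXs hXc
    have hdis : Disjoint K1 X := by
      rw [disjoint_left]
      intro e he he'
      have h1 := hneg e he
      have h2 := (hval e (hXs he')).1
      omega
    have hkey : ∀ e ∈ K1, ∀ f ∈ X, (∀ v ∈ e, v ∉ f) ∧ (∀ v ∈ f, v ∉ e) := by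
      intro e he f hf
      have hne : e ≠ f := by
        rintro rfl
        exact (disjoint_left.mp hdis he) hf
      rcases mem_union.mp (hXs hf) with hf' | hf'
      · exact ⟨hK.2 e (hK1K he) f (hK0K hf') hne, hK.2 f (hK0K hf') e (hK1K he) hne.symm⟩
      · exact ⟨hL2.2 e (hL1 he) f (hPL hf') hne, hL2.2 f (hPL hf') e (hL1 he) hne.symm⟩
    refine ⟨hdis, ?_, ?_⟩
    · intro e he
      rcases mem_union.mp he with he | he
      · exact hL2.1 e (hL1 he)
      · exact hX.1 e he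
    · intro e he f hf hne
      rcases mem_union.mp he with he | he <;> rcases mem_union.mp hf with hf | hf
      · exact hL2.2 e (hL1 he) f (hL1 hf) hne
      · exact (hkey e he f hf).1
      · exact (hkey f hf e he).2
      · exact hX.2 e he f hf hne
  have hne0 : ∀ X, IsM G X → X ⊆ K0 ∪ P → X.card = K0.card → ∑ e ∈ K1, W e + ∑ e ∈ X, W e ≠ 0 := by
    intro X hX hXs hXc h0
    obtain ⟨hdis, hM⟩ := hmatch X hX hXs hXc
    have hcd : (K1 ∪ X).card = s := by rw [card_union_of_disjoint hdis]; omega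
    refine hZ (K1 ∪ X) hM hcd ?_
    have h1 : ∑ e ∈ K1 ∪ X, c e = ∑ e ∈ K1 ∪ X, (g + d * (W e : ZMod s)) :=
      sum_congr rfl fun e he => hc e (hM.1 e he)
    rw [h1, sum_add_distrib, sum_const, hcd, ← mul_sum, ← Int.cast_sum, sum_union hdis, h0]
    simp
  -- the invariant
  have hinv : ∀ X, Relation.ReflTransGen (fun A B => Step1 G A B ∧ B ⊆ K0 ∪ P) K0 X →
      IsM G X ∧ X ⊆ K0 ∪ P ∧ X.card = K0.card ∧ ∑ e ∈ K1, W e + ∑ e ∈ X, W e < 0 := by
    intro X hX
    induction hX with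
    | refl =>
      have h1 : ∑ e ∈ K0, W e = 0 := by
        refine sum_eq_zero fun e he => ?_
        have h1 := (mem_filter.mp he).2
        have h2 := hK0 e (hK0K he)
        omega
      have h2 : ∑ e ∈ K1, W e ≤ 0 := sum_nonpos fun e he => (hneg e he).le
      have h3 := hne0 K0 (isM_sub hK hK0K) subset_union_left rfl
      refine ⟨isM_sub hK hK0K, subset_union_left, rfl, ?_⟩
      omega
    | tail _ hstep ih =>
      rename_i A B _
      obtain ⟨hA1, hA2, hA3, hA4⟩ := ih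
      obtain ⟨⟨hB, e, f, he, hf, hBe⟩, hBs⟩ := hstep
      have hfe : f ∉ A.erase e := fun h => hf (mem_of_mem_erase h)
      have hBc : B.card = K0.card := by
        rw [hBe, card_insert_of_notMem hfe, card_erase_add_one he, hA3]
      refine ⟨hB, hBs, hBc, ?_⟩
      have h1 := hne0 B hB hBs hBc
      have h2 : ∑ i ∈ B, W i = W f + (∑ i ∈ A, W i - W e) := by
        rw [hBe, sum_insert hfe, ← add_sum_erase A _ he]
        ring
      have h3 := hval e (hA2 he)
      have h4 := hval f (hBs (by rw [hBe]; exact mem_insert_self _ _))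
      omega
  obtain ⟨h1, h2, h3, h4⟩ := hinv Y hchain
  obtain ⟨hdis, hM⟩ := hmatch Y h1 h2 h3
  have h5 : K1 ∪ Y ⊆ L := union_subset hL1 (hYP.trans hPL)
  have h6 := sum_ge (w := W) h5
  have h7 : (K1 ∪ Y).card = s := by rw [card_union_of_disjoint hdis]; omega
  rw [h7, sum_union hdis] at h6
  have h8 := (hW L hL2 hL3).2.1
  linarith

/-! ### The lifts of all long matchings -/

theorem propagate (hS1 : S_Swap1) (hS2 : S_Swap2) {V : Type} [DecidableEq V] {G : SimpleGraph V} {s t : ℕ}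
    {c : Sym2 V → ZMod s} (hs : 3 ≤ s) (h2t : s + 1 ≤ 2 * t)
    (hZF : ∀ L, IsM G L → ZF c L)
    (hC : Conn1 G (s + t - 1) ∨ (s + 2 ≤ 2 * t ∧ Conn2 G (s + t - 1)))
    {g d : ZMod s} (hd : IsUnit d) {w : Sym2 V → ℤ} {L0 : Finset (Sym2 V)} (hL0 : IsM G L0)
    (hL0c : L0.card + 1 = s + t) (hg : Good c g d w L0) (L : Finset (Sym2 V)) (hL : IsM G L)
    (hLc : L.card + 1 = s + t) : ∃ w', Good c g d w' L := by
  have hstep1 : ∀ A B : Finset (Sym2 V), A.card + 1 = s + t → (∃ w, Good c g d w A) → Step1 G A B →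
      B.card + 1 = s + t ∧ ∃ w, Good c g d w B := by
    rintro A B hAc ⟨w, hw⟩ ⟨hB, e, f, he, hf, hBe⟩
    have hfe : f ∉ A.erase e := fun h => hf (mem_of_mem_erase h)
    have hA : insert e (A.erase e) = A := insert_erase he
    have hc1 : (A.erase e).card + 1 = A.card := card_erase_add_one he
    refine ⟨by rw [hBe, card_insert_of_notMem hfe, hc1]; exact hAc, ?_⟩
    have ha := hw.2.1
    have hb := hw.2.2
    have h2t' : (s : ℤ) + 1 ≤ 2 * t := by exact_mod_cast h2t
    obtain ⟨w', hw', -⟩ := hS1 (Sym2 V) s t c g d w (A.erase e) e f (by omega) hd (notMem_erase e A) hfe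
      (by omega) (by rw [hA]; exact hw) (by rw [hA]; linarith)
      (by rw [← hBe]; exact hZF B hB)
    exact ⟨w', by rw [hBe]; exact hw'⟩
  have hstep2 : s + 2 ≤ 2 * t → ∀ A B : Finset (Sym2 V), A.card + 1 = s + t → (∃ w, Good c g d w A) →
      Step2 G A B → B.card + 1 = s + t ∧ ∃ w, Good c g d w B := by
    rintro h2t' A B hAc ⟨w, hw⟩ ⟨hB, e₁, e₂, f₁, f₂, he₁, he₂, hne, hf₁, hf₂, hnf, hBe⟩
    have he₂' : e₂ ∈ A.erase e₁ := mem_erase.mpr ⟨hne.symm, he₂⟩
    have hc1 : (A.erase e₁).card + 1 = A.card := card_erase_add_one he₁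
    have hc2 : ((A.erase e₁).erase e₂).card + 1 = (A.erase e₁).card := card_erase_add_one he₂'
    have hA : insert e₁ (insert e₂ ((A.erase e₁).erase e₂)) = A := by
      rw [insert_erase he₂', insert_erase he₁]
    have hf₁' : f₁ ∉ (A.erase e₁).erase e₂ := fun h => hf₁ (mem_of_mem_erase (mem_of_mem_erase h))
    have hf₂' : f₂ ∉ (A.erase e₁).erase e₂ := fun h => hf₂ (mem_of_mem_erase (mem_of_mem_erase h))
    have hf₁₂ : f₁ ∉ insert f₂ ((A.erase e₁).erase e₂) := by
      rw [mem_insert, not_or]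
      exact ⟨hnf, hf₁'⟩
    have he₁' : e₁ ∉ (A.erase e₁).erase e₂ := fun h => notMem_erase e₁ A (mem_of_mem_erase h)
    refine ⟨by rw [hBe, card_insert_of_notMem hf₁₂, card_insert_of_notMem hf₂']; omega, ?_⟩
    obtain ⟨w', hw', -⟩ := hS2 (Sym2 V) s t c g d w ((A.erase e₁).erase e₂) e₁ e₂ f₁ f₂ hs hd
      he₁' (notMem_erase e₂ _) hne hf₁' hf₂' hnf (by omega) h2t' (by rw [hA]; exact hw)
      (by rw [← hBe]; exact hZF B hB)
    exact ⟨w', by rw [hBe]; exact hw'⟩
  have hgoal : ∀ R : Finset (Sym2 V) → Finset (Sym2 V) → Prop,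
      (∀ A B, A.card + 1 = s + t → (∃ w, Good c g d w A) → R A B →
        B.card + 1 = s + t ∧ ∃ w, Good c g d w B) →
      Relation.ReflTransGen R L0 L → ∃ w', Good c g d w' L := by
    intro R hR hRT
    have h1 : ∀ X, Relation.ReflTransGen R L0 X → X.card + 1 = s + t ∧ ∃ w', Good c g d w' X := by
      intro X hX
      induction hX with
      | refl => exact ⟨hL0c, w, hg⟩
      | tail _ hst ih => exact hR _ _ ih.1 ih.2 hst
    exact (h1 L hRT).2
  rcases hC with hC | ⟨h2t', hC⟩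
  · exact hgoal _ hstep1 (hC L0 L hL0 hL (by omega) (by omega))
  · refine hgoal _ ?_ (hC L0 L hL0 hL (by omega) (by omega))
    rintro A B hA hgA (h | h)
    · exact hstep1 A B hA hgA h
    · exact hstep2 h2t' A B hA hgA h

theorem isM_edge {V : Type} {G : SimpleGraph V} {p : Sym2 V → Prop} {F : Finset (Sym2 V)}
    (h : IsM (SimpleGraph.fromEdgeSet {e | e ∈ G.edgeSet ∧ p e}) F) : IsM G F ∧ ∀ e ∈ F, p e := by
  have h1 : ∀ e ∈ F, e ∈ G.edgeSet ∧ p e := by
    intro e he
    have h2 := h.1 e he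
    rw [SimpleGraph.edgeSet_fromEdgeSet] at h2
    exact h2.1
  exact ⟨⟨fun e he => (h1 e he).1, h.2⟩, fun e he => (h1 e he).2⟩

theorem core : S_Swap1 → S_Swap2 → S_Struct → S_Pop → S_Jump → S_Core := by
  intro hS1 hS2 hSt hPo hJ V _ _ G s t c hs h2t hts hZ hE hC
  have hZF : ∀ L, IsM G L → ZF c L := fun L hL T hT hTc => hZ T (isM_sub hL hT) hTc
  obtain ⟨L0, -, hL0, hL0c⟩ := hE ∅ (isM_empty G) (by rw [card_empty]; omega)
  obtain ⟨x, hx⟩ := hPo (Sym2 V) s t c L0 (by omega) h2t hL0c (hZF L0 hL0)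
  obtain ⟨g, d, w0, hd, hg0⟩ := hSt (Sym2 V) s t c L0 (by omega) h2t hL0c (hZF L0 hL0) ⟨x, by omega⟩
  have hex : ∀ L, IsM G L → L.card + 1 = s + t → ∃ w', Good c g d w' L := fun L hL hLc =>
    propagate hS1 hS2 hs h2t hZF hC hd hL0 hL0c hg0 L hL hLc
  choose! wL hwL using hex
  have hE1 : ∀ e ∈ G.edgeSet, ∃ L, e ∈ L ∧ IsM G L ∧ L.card + 1 = s + t := by
    intro e he
    obtain ⟨L, hL1, hL2, hL3⟩ := hE {e} (isM_single he) (by rw [card_singleton]; omega)
    exact ⟨L, hL1 (mem_singleton_self e), hL2, hL3⟩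
  choose! Le hLe using hE1
  let W : Sym2 V → ℤ := fun e => wL (Le e) e
  have hWw : ∀ L, IsM G L → L.card + 1 = s + t → ∀ e ∈ L, wL L e = W e := by
    intro L hL hLc e he
    obtain ⟨h1, h2, h3⟩ := hLe e (hL.1 e he)
    refine uniq (g := g) h2t hd (window hLc (hwL L hL hLc) he) (window h3 (hwL _ h2 h3) h1) ?_
    rw [← (hwL L hL hLc).1 e he, ← (hwL _ h2 h3).1 e h1]
  have hW : ∀ L, IsM G L → L.card + 1 = s + t → Good c g d W L := by
    intro L hL hLc
    obtain ⟨h1, h2, h3⟩ := hwL L hL hLc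
    refine ⟨fun e he => ?_, ?_, ?_⟩
    · rw [← hWw L hL hLc e he]
      exact h1 e he
    · have h4 : aa W L = aa (wL L) L := sum_congr rfl fun e he => by rw [hWw L hL hLc e he]
      rw [h4]
      exact h2
    · have h4 : bb W L = bb (wL L) L := sum_congr rfl fun e he => by rw [hWw L hL hLc e he]
      rw [h4]
      exact h3
  have hW' : ∀ L, IsM G L → L.card + 1 = s + t → Good c (g + d) (-d) (fun e => 1 - W e) L := by
    intro L hL hLc
    obtain ⟨h1, h2, h3⟩ := hW L hL hLc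
    refine ⟨fun e he => ?_, ?_, ?_⟩
    · rw [h1 e he]
      push_cast
      ring
    · have h4 : aa (fun e => 1 - W e) L = bb W L := sum_congr rfl fun e _ => by
        have h5 : 1 - (1 - W e) = W e := by ring
        simp only [h5]
      rw [h4]
      exact h3
    · exact h2
  refine ⟨SimpleGraph.fromEdgeSet {e | e ∈ G.edgeSet ∧ W e ≤ 0},
    SimpleGraph.fromEdgeSet {e | e ∈ G.edgeSet ∧ 1 ≤ W e}, ?_, ?_, ?_⟩
  · intro v u h
    rw [SimpleGraph.sup_adj, SimpleGraph.fromEdgeSet_adj, SimpleGraph.fromEdgeSet_adj]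
    have h1 : s(v, u) ∈ G.edgeSet := h
    rcases le_or_gt (W s(v, u)) 0 with h2 | h2
    · exact Or.inl ⟨⟨h1, h2⟩, h.ne⟩
    · exact Or.inr ⟨⟨h1, h2⟩, h.ne⟩
  · intro F hF
    obtain ⟨h1, h2⟩ := isM_edge hF
    exact claimA hJ h2t hts hZ hE hW h1 h2
  · intro F hF
    obtain ⟨h1, h2⟩ := isM_edge hF
    exact claimA hJ h2t hts hZ hE hW' h1 fun e he => by
      have := h2 e he
      omega

end Pool.Agent.H621.ZM.Core
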