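import Pool.Agent.H621.ZM.Spec2
import Pool.Agent.H621.ZM.Core

/-!
Zero-sum matchings, part COREEVEN: a zero-sum-free labelling is a two-colouring, the case `s = 2 t`
(helper703; a variation of the file `Core.lean` of helper790).
-/

set_option autoImplicit false

namespace Pool.Agent.H621.ZM.CoreEven

open Finset
open Pool.Agent.H621.ZM.Core (isM_sub isM_empty isM_single window card_out sum_ge isM_edge)

/-- two lifts in the window agree -/
theorem uniq {s t : ℕ} (h2t : s = 2 * t) {g d : ZMod s} (hd : IsUnit d) {x y : ℤ}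
    (hx : (t : ℤ) + 1 - s ≤ x ∧ x ≤ (s : ℤ) - t) (hy : (t : ℤ) + 1 - s ≤ y ∧ y ≤ (s : ℤ) - t)
    (h : g + d * (x : ZMod s) = g + d * (y : ZMod s)) : x = y := by
  have h1 : (x : ZMod s) = (y : ZMod s) := hd.mul_left_cancel (add_left_cancel h)
  have h2 : ((x - y : ℤ) : ZMod s) = 0 := by rw [Int.cast_sub, h1, sub_self]
  have h3 : (s : ℤ) ∣ x - y := (ZMod.intCast_zmod_eq_zero_iff_dvd (x - y) s).mp h2
  have h4 : |x - y| < s := by
    rw [abs_lt]
    constructor <;> omega
  have h5 := Int.eq_zero_of_abs_lt_dvd h3 h4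
  omega

/-! ### Claim A -/

theorem claimA (hJ : S_Jump) {V : Type} [DecidableEq V] {G : SimpleGraph V} {s t : ℕ}
    {c : Sym2 V → ZMod s} (h2t : s = 2 * t) (ht : 2 ≤ t)
    (hZ : ∀ F, IsM G F → F.card = s → ∑ e ∈ F, c e ≠ 0)
    (hE : ∀ F, IsM G F → F.card + t ≤ s → ∃ F', F ⊆ F' ∧ IsM G F' ∧ F'.card + 1 = s + t)
    {g d : ZMod s} {W : Sym2 V → ℤ} (hW : ∀ L, IsM G L → L.card + 1 = s + t → Good c g d W L)
    (hSl : ∀ L, IsM G L → L.card + 1 = s + t → aa W L + bb W L + 3 ≤ 2 * (s : ℤ))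
    {K : Finset (Sym2 V)} (hK : IsM G K) (hK0 : ∀ e ∈ K, W e ≤ 0) : K.card < s := by
  by_contra hcon
  obtain ⟨K', hK's, hK'c⟩ := exists_subset_card_eq (not_lt.mp hcon)
  replace hK := isM_sub hK hK's
  replace hK0 : ∀ e ∈ K', W e ≤ 0 := fun e he => hK0 e (hK's he)
  clear hcon
  -- the labels are determined by `W`
  have hc : ∀ e ∈ G.edgeSet, c e = g + d * (W e : ZMod s) := by
    intro e he
    obtain ⟨L, hL1, hL2, hL3⟩ := hE {e} (isM_single he) (by rw [card_singleton]; omega)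
    exact (hW L hL2 hL3).1 e (hL1 (mem_singleton_self e))
  -- the excess of a long matching
  have hout : ∀ L, IsM G L → L.card + 1 = s + t →
      ((L.filter (fun i => ¬ (0 ≤ W i ∧ W i ≤ 1))).card : ℤ) ≤ (s : ℤ) - 2 - t := by
    intro L hL hLc
    have ha := hSl L hL hLc
    have h4 : (L.card : ℤ) + 1 = s + t := by exact_mod_cast hLc
    exact card_out (by linarith)
  let K1 := K'.filter (fun e => W e < 0)
  let K0 := K'.filter (fun e => ¬ W e < 0)
  have hK1K : K1 ⊆ K' := filter_subset _ _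
  have hK0K : K0 ⊆ K' := filter_subset _ _
  have hcard : K1.card + K0.card = s := by
    rw [← hK'c]
    exact card_filter_add_card_filter_not _
  have hK1c : K1.card + t ≤ s := by
    by_contra hlt
    obtain ⟨K2, hK2s, hK2c⟩ := exists_subset_card_eq (by omega : s - t ≤ K1.card)
    obtain ⟨L, hL1, hL2, hL3⟩ := hE K2 (isM_sub hK (hK2s.trans hK1K)) (by omega)
    have h1 := hout L hL2 hL3
    have h2 : K2 ⊆ L.filter (fun i => ¬ (0 ≤ W i ∧ W i ≤ 1)) := by
      intro e he
      refine mem_filter.mpr ⟨hL1 he, ?_⟩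
      have := (mem_filter.mp (hK2s he)).2
      omega
    have h3 := card_le_card h2
    omega
  obtain ⟨L, hL1, hL2, hL3⟩ := hE K1 (isM_sub hK hK1K) hK1c
  let M := L.filter (fun i => 0 ≤ W i ∧ W i ≤ 1)
  have hMc : K0.card + 1 ≤ M.card := by
    have h1 := hout L hL2 hL3
    have h2 : M.card + (L.filter (fun i => ¬ (0 ≤ W i ∧ W i ≤ 1))).card = L.card :=
      card_filter_add_card_filter_not _
    omega
  obtain ⟨P, hPM, hPc⟩ := exists_subset_card_eq hMc
  obtain ⟨Y, hYP, hYc⟩ := exists_subset_card_eq (by omega : K0.card ≤ P.card)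
  have hPL : P ⊆ L := hPM.trans (filter_subset _ _)
  have hchain := hJ V G K0 P Y (isM_sub hK hK0K) (isM_sub hL2 hPL) hPc hYP hYc
  -- values
  have hval : ∀ e ∈ K0 ∪ P, 0 ≤ W e ∧ W e ≤ 1 := by
    intro e he
    rcases mem_union.mp he with he | he
    · have h1 := (mem_filter.mp he).2
      have h2 := hK0 e (hK0K he)
      omega
    · exact (mem_filter.mp (hPM he)).2
  have hneg : ∀ e ∈ K1, W e < 0 := fun e he => (mem_filter.mp he).2
  -- `K1 ∪ X` is a matching
  have hmatch : ∀ X, IsM G X → X ⊆ K0 ∪ P → X.card = K0.card →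
      Disjoint K1 X ∧ IsM G (K1 ∪ X) := by
    intro X hX hXs hXc
    have hdis : Disjoint K1 X := by
      rw [disjoint_left]
      intro e he he'
      have h1 := hneg e he
      have h2 := (hval e (hXs he')).1
      omega
    have hkey : ∀ e ∈ K1, ∀ f ∈ X, (∀ v ∈ e, v ∉ f) ∧ (∀ v ∈ f, v ∉ e) := by
      intro e he f hf
      have hne : e ≠ f := by
        rintro rfl
        exact (disjoint_left.mp hdis he) hf
      rcases mem_union.mp (hXs hf) with hf' | hf'
      · exact ⟨hK.2 e (hK1K he) f (hK0K hf') hne, hK.2 f (hK0K hf') e (hK1K he) hne.symm⟩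
      · exact ⟨hL2.2 e (hL1 he) f (hPL hf') hne, hL2.2 f (hPL hf') e (hL1 he) hne.symm⟩
    refine ⟨hdis, ?_, ?_⟩
    · intro e he
      rcases mem_union.mp he with he | he
      · exact hL2.1 e (hL1 he)
      · exact hX.1 e he
    · intro e he f hf hne
      rcases mem_union.mp he with he | he <;> rcases mem_union.mp hf with hf | hf
      · exact hL2.2 e (hL1 he) f (hL1 hf) hne
      · exact (hkey e he f hf).1
      · exact (hkey f hf e he).2
      · exact hX.2 e he f hf hne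
  have hne0 : ∀ X, IsM G X → X ⊆ K0 ∪ P → X.card = K0.card → ∑ e ∈ K1, W e + ∑ e ∈ X, W e ≠ 0 := by
    intro X hX hXs hXc h0
    obtain ⟨hdis, hM⟩ := hmatch X hX hXs hXc
    have hcd : (K1 ∪ X).card = s := by rw [card_union_of_disjoint hdis]; omega
    refine hZ (K1 ∪ X) hM hcd ?_
    have h1 : ∑ e ∈ K1 ∪ X, c e = ∑ e ∈ K1 ∪ X, (g + d * (W e : ZMod s)) :=
      sum_congr rfl fun e he => hc e (hM.1 e he)
    rw [h1, sum_add_distrib, sum_const, hcd, ← mul_sum, ← Int.cast_sum, sum_union hdis, h0]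
    simp
  -- the invariant
  have hinv : ∀ X, Relation.ReflTransGen (fun A B => Step1 G A B ∧ B ⊆ K0 ∪ P) K0 X →
      IsM G X ∧ X ⊆ K0 ∪ P ∧ X.card = K0.card ∧ ∑ e ∈ K1, W e + ∑ e ∈ X, W e < 0 := by
    intro X hX
    induction hX with
    | refl =>
      have h1 : ∑ e ∈ K0, W e = 0 := by
        refine sum_eq_zero fun e he => ?_
        have h1 := (mem_filter.mp he).2
        have h2 := hK0 e (hK0K he)
        omega
      have h2 : ∑ e ∈ K1, W e ≤ 0 := sum_nonpos fun e he => (hneg e he).le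
      have h3 := hne0 K0 (isM_sub hK hK0K) subset_union_left rfl
      refine ⟨isM_sub hK hK0K, subset_union_left, rfl, ?_⟩
      omega
    | tail _ hstep ih =>
      rename_i A B _
      obtain ⟨hA1, hA2, hA3, hA4⟩ := ih
      obtain ⟨⟨hB, e, f, he, hf, hBe⟩, hBs⟩ := hstep
      have hfe : f ∉ A.erase e := fun h => hf (mem_of_mem_erase h)
      have hBc : B.card = K0.card := by
        rw [hBe, card_insert_of_notMem hfe, card_erase_add_one he, hA3]
      refine ⟨hB, hBs, hBc, ?_⟩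
      have h1 := hne0 B hB hBs hBc
      have h2 : ∑ i ∈ B, W i = W f + (∑ i ∈ A, W i - W e) := by
        rw [hBe, sum_insert hfe, ← add_sum_erase A _ he]
        ring
      have h3 := hval e (hA2 he)
      have h4 := hval f (hBs (by rw [hBe]; exact mem_insert_self _ _))
      omega
  obtain ⟨h1, h2, h3, h4⟩ := hinv Y hchain
  obtain ⟨hdis, hM⟩ := hmatch Y h1 h2 h3
  have h5 : K1 ∪ Y ⊆ L := union_subset hL1 (hYP.trans hPL)
  have h6 := sum_ge (w := W) h5
  have h7 : (K1 ∪ Y).card = s := by rw [card_union_of_disjoint hdis]; omega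
  rw [h7, sum_union hdis] at h6
  have h8 := (hW L hL2 hL3).2.1
  linarith

/-- the slack of a good lift -/
theorem slack (hR : S_RigidGood) {V : Type} [DecidableEq V] {G : SimpleGraph V} {s t : ℕ}
    {c : Sym2 V → ZMod s} (ht : 2 ≤ t) (h2t : s = 2 * t)
    (hT : ∀ F, IsM G F → F.card + 1 = s + t → ¬ TypeR c F ∧ ¬ TwoF c F)
    {g d : ZMod s} (hd : IsUnit d) {w : Sym2 V → ℤ} {L : Finset (Sym2 V)} (hL : IsM G L)
    (hLc : L.card + 1 = s + t) (hg : Good c g d w L) :
    aa w L + bb w L + 3 ≤ 2 * (s : ℤ) := by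
  obtain ⟨h1, h2, h3⟩ := hg
  by_contra hcon
  have h4 := hR (Sym2 V) s t c g d w L ht h2t hLc hd h1 (by omega) (by omega)
  have h5 := hT L hL hLc
  exact h4.elim h5.1 h5.2

/-! ### The lifts of all long matchings -/

theorem propagate (hS1 : S_Swap1) (hR : S_RigidGood) {V : Type} [DecidableEq V]
    {G : SimpleGraph V} {s t : ℕ} {c : Sym2 V → ZMod s} (ht : 2 ≤ t) (h2t : s = 2 * t)
    (hT : ∀ F, IsM G F → F.card + 1 = s + t → ¬ TypeR c F ∧ ¬ TwoF c F)
    (hZF : ∀ L, IsM G L → ZF c L) (hC : Conn1 G (s + t - 1))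
    {g d : ZMod s} (hd : IsUnit d) {w : Sym2 V → ℤ} {L0 : Finset (Sym2 V)} (hL0 : IsM G L0)
    (hL0c : L0.card + 1 = s + t) (hg : Good c g d w L0) (L : Finset (Sym2 V)) (hL : IsM G L)
    (hLc : L.card + 1 = s + t) : ∃ w', Good c g d w' L := by
  have h1 : ∀ X, Relation.ReflTransGen (Step1 G) L0 X →
      IsM G X ∧ X.card + 1 = s + t ∧ ∃ w', Good c g d w' X := by
    intro X hX
    induction hX with
    | refl => exact ⟨hL0, hL0c, w, hg⟩
    | tail _ hst ih =>
      rename_i A B _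
      obtain ⟨hA, hAc, w, hw⟩ := ih
      obtain ⟨hB, e, f, he, hf, hBe⟩ := hst
      have hfe : f ∉ A.erase e := fun h => hf (mem_of_mem_erase h)
      have hAe : insert e (A.erase e) = A := insert_erase he
      have hc1 : (A.erase e).card + 1 = A.card := card_erase_add_one he
      refine ⟨hB, by rw [hBe, card_insert_of_notMem hfe, hc1]; exact hAc, ?_⟩
      have hsl := slack hR ht h2t hT hd hA hAc hw
      have h2t' : (s : ℤ) = 2 * t := by exact_mod_cast h2t
      obtain ⟨w', hw', -⟩ := hS1 (Sym2 V) s t c g d w (A.erase e) e f (by omega) hd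
        (notMem_erase e A) hfe (by omega) (by rw [hAe]; exact hw) (by rw [hAe]; linarith)
        (by rw [← hBe]; exact hZF B hB)
      exact ⟨w', by rw [hBe]; exact hw'⟩
  exact (h1 L (hC L0 L hL0 hL (by omega) (by omega))).2.2

theorem coreEven : S_Swap1 → S_Struct2 → S_Pop2 → S_CaseX → S_RigidGood → S_Jump →
    S_CoreEven := by
  intro hS1 hSt hPo hX hR hJ V _ _ G s t c ht h2t hZ hE hC hT
  have hZF : ∀ L, IsM G L → ZF c L := fun L hL T hT hTc => hZ T (isM_sub hL hT) hTc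
  obtain ⟨L0, -, hL0, hL0c⟩ := hE ∅ (isM_empty G) (by rw [card_empty]; omega)
  obtain ⟨g, d, w0, hd, hg0⟩ : ∃ (g d : ZMod s) (w : Sym2 V → ℤ), IsUnit d ∧ Good c g d w L0 := by
    have h1 := hPo (Sym2 V) s t c L0 ht h2t hL0c (hZF L0 hL0)
    rcases hSt (Sym2 V) s t c L0 ht h2t hL0c (hZF L0 hL0) h1 with h2 | h2
    · exact h2
    · have h3 := hX (Sym2 V) s t c L0 ht h2t hL0c (hZF L0 hL0) h2
      have h4 := hT L0 hL0 hL0c
      exact (h3.elim h4.1 h4.2).elim
  have hex : ∀ L, IsM G L → L.card + 1 = s + t → ∃ w', Good c g d w' L := fun L hL hLc =>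
    propagate hS1 hR ht h2t hT hZF hC hd hL0 hL0c hg0 L hL hLc
  choose! wL hwL using hex
  have hE1 : ∀ e ∈ G.edgeSet, ∃ L, e ∈ L ∧ IsM G L ∧ L.card + 1 = s + t := by
    intro e he
    obtain ⟨L, hL1, hL2, hL3⟩ := hE {e} (isM_single he) (by rw [card_singleton]; omega)
    exact ⟨L, hL1 (mem_singleton_self e), hL2, hL3⟩
  choose! Le hLe using hE1
  let W : Sym2 V → ℤ := fun e => wL (Le e) e
  have hWw : ∀ L, IsM G L → L.card + 1 = s + t → ∀ e ∈ L, wL L e = W e := by
    intro L hL hLc e he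
    obtain ⟨h1, h2, h3⟩ := hLe e (hL.1 e he)
    refine uniq (g := g) h2t hd (window hLc (hwL L hL hLc) he) (window h3 (hwL _ h2 h3) h1) ?_
    rw [← (hwL L hL hLc).1 e he, ← (hwL _ h2 h3).1 e h1]
  have hW : ∀ L, IsM G L → L.card + 1 = s + t → Good c g d W L := by
    intro L hL hLc
    obtain ⟨h1, h2, h3⟩ := hwL L hL hLc
    refine ⟨fun e he => ?_, ?_, ?_⟩
    · rw [← hWw L hL hLc e he]
      exact h1 e he
    · have h4 : aa W L = aa (wL L) L := sum_congr rfl fun e he => by rw [hWw L hL hLc e he]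
      rw [h4]
      exact h2
    · have h4 : bb W L = bb (wL L) L := sum_congr rfl fun e he => by rw [hWw L hL hLc e he]
      rw [h4]
      exact h3
  have haa : ∀ L : Finset (Sym2 V), aa (fun e => 1 - W e) L = bb W L := fun L =>
    sum_congr rfl fun e _ => by
      have h5 : 1 - (1 - W e) = W e := by ring
      simp only [h5]
  have hbb : ∀ L : Finset (Sym2 V), bb (fun e => 1 - W e) L = aa W L := fun L => rfl
  have hW' : ∀ L, IsM G L → L.card + 1 = s + t → Good c (g + d) (-d) (fun e => 1 - W e) L := by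
    intro L hL hLc
    obtain ⟨h1, h2, h3⟩ := hW L hL hLc
    refine ⟨fun e he => ?_, ?_, ?_⟩
    · rw [h1 e he]
      push_cast
      ring
    · rw [haa L]
      exact h3
    · exact h2
  have hSl : ∀ L, IsM G L → L.card + 1 = s + t → aa W L + bb W L + 3 ≤ 2 * (s : ℤ) :=
    fun L hL hLc => slack hR ht h2t hT hd hL hLc (hW L hL hLc)
  have hSl' : ∀ L, IsM G L → L.card + 1 = s + t →
      aa (fun e => 1 - W e) L + bb (fun e => 1 - W e) L + 3 ≤ 2 * (s : ℤ) := by
    intro L hL hLc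
    rw [haa L, hbb L]
    have := hSl L hL hLc
    omega
  refine ⟨SimpleGraph.fromEdgeSet {e | e ∈ G.edgeSet ∧ W e ≤ 0},
    SimpleGraph.fromEdgeSet {e | e ∈ G.edgeSet ∧ 1 ≤ W e}, ?_, ?_, ?_⟩
  · intro v u h
    rw [SimpleGraph.sup_adj, SimpleGraph.fromEdgeSet_adj, SimpleGraph.fromEdgeSet_adj]
    have h1 : s(v, u) ∈ G.edgeSet := h
    rcases le_or_gt (W s(v, u)) 0 with h2 | h2
    · exact Or.inl ⟨⟨h1, h2⟩, h.ne⟩
    · exact Or.inr ⟨⟨h1, h2⟩, h.ne⟩
  · intro F hF
    obtain ⟨h1, h2⟩ := isM_edge hF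
    exact claimA hJ h2t ht hZ hE hW hSl h1 h2
  · intro F hF
    obtain ⟨h1, h2⟩ := isM_edge hF
    exact claimA hJ h2t ht hZ hE hW' hSl' h1 fun e he => by
      have := h2 e he
      omega

end Pool.Agent.H621.ZM.CoreEven
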