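import Pool.Agent.H621.ZM.Spec2
import Pool.Agent.H621.ZM.Core

/-!
Zero-sum matchings, part COREODD (helper448), a variation of CORE (helper790).
-/

set_option autoImplicit false

namespace Pool.Agent.H621.ZM.CoreOdd

open Finset Pool.Agent.H621.ZM.Core

theorem propagate (hS1 : S_Swap1) (hS2 : S_Swap2b) {V : Type} [DecidableEq V] {G : SimpleGraph V}
    {s t : ℕ} {c : Sym2 V → ZMod s} (hs : 3 ≤ s) (h2t : s + 1 = 2 * t)
    (hZF : ∀ L, IsM G L → ZF c L)
    (hC : Conn2 G (s + t - 1))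
    (hR : ∀ F, IsM G F → F.card + 1 = s + t → ¬ TypeR c F)
    {g d : ZMod s} (hd : IsUnit d) {w : Sym2 V → ℤ} {L0 : Finset (Sym2 V)} (hL0 : IsM G L0)
    (hL0c : L0.card + 1 = s + t) (hg : Good c g d w L0) (L : Finset (Sym2 V)) (hL : IsM G L)
    (hLc : L.card + 1 = s + t) : ∃ w', Good c g d w' L := by
  have hstep1 : ∀ A B : Finset (Sym2 V), A.card + 1 = s + t → (∃ w, Good c g d w A) → Step1 G A B →
      B.card + 1 = s + t ∧ ∃ w, Good c g d w B := by
    rintro A B hAc ⟨w, hw⟩ ⟨hB, e, f, he, hf, hBe⟩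
    have hfe : f ∉ A.erase e := fun h => hf (mem_of_mem_erase h)
    have hA : insert e (A.erase e) = A := insert_erase he
    have hc1 : (A.erase e).card + 1 = A.card := card_erase_add_one he
    refine ⟨by rw [hBe, card_insert_of_notMem hfe, hc1]; exact hAc, ?_⟩
    have ha := hw.2.1
    have hb := hw.2.2
    have h2t' : (s : ℤ) + 1 = 2 * t := by exact_mod_cast h2t
    obtain ⟨w', hw', -⟩ := hS1 (Sym2 V) s t c g d w (A.erase e) e f (by omega) hd (notMem_erase e A) hfe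
      (by omega) (by rw [hA]; exact hw) (by rw [hA]; linarith)
      (by rw [← hBe]; exact hZF B hB)
    exact ⟨w', by rw [hBe]; exact hw'⟩
  have hstep2 : ∀ A B : Finset (Sym2 V), IsM G A → A.card + 1 = s + t → (∃ w, Good c g d w A) →
      Step2 G A B → B.card + 1 = s + t ∧ ∃ w, Good c g d w B := by
    rintro A B hAM hAc ⟨w, hw⟩ ⟨hB, e₁, e₂, f₁, f₂, he₁, he₂, hne, hf₁, hf₂, hnf, hBe⟩
    have he₂' : e₂ ∈ A.erase e₁ := mem_erase.mpr ⟨hne.symm, he₂⟩
    have hc1 : (A.erase e₁).card + 1 = A.card := card_erase_add_one he₁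
    have hc2 : ((A.erase e₁).erase e₂).card + 1 = (A.erase e₁).card := card_erase_add_one he₂'
    have hA : insert e₁ (insert e₂ ((A.erase e₁).erase e₂)) = A := by
      rw [insert_erase he₂', insert_erase he₁]
    have hf₁' : f₁ ∉ (A.erase e₁).erase e₂ := fun h => hf₁ (mem_of_mem_erase (mem_of_mem_erase h))
    have hf₂' : f₂ ∉ (A.erase e₁).erase e₂ := fun h => hf₂ (mem_of_mem_erase (mem_of_mem_erase h))
    have hf₁₂ : f₁ ∉ insert f₂ ((A.erase e₁).erase e₂) := by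
      rw [mem_insert, not_or]
      exact ⟨hnf, hf₁'⟩
    have he₁' : e₁ ∉ (A.erase e₁).erase e₂ := fun h => notMem_erase e₁ A (mem_of_mem_erase h)
    have hBc : B.card + 1 = s + t := by
      rw [hBe, card_insert_of_notMem hf₁₂, card_insert_of_notMem hf₂']; omega
    refine ⟨hBc, ?_⟩
    obtain ⟨w', hw', -⟩ := hS2 (Sym2 V) s t c g d w ((A.erase e₁).erase e₂) e₁ e₂ f₁ f₂ hs h2t hd
      he₁' (notMem_erase e₂ _) hne hf₁' hf₂' hnf (by omega) (by rw [hA]; exact hw)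
      (by rw [← hBe]; exact hZF B hB) (by rw [hA]; exact hR A hAM hAc)
      (by rw [← hBe]; exact hR B hB hBc)
    exact ⟨w', by rw [hBe]; exact hw'⟩
  have h1 : ∀ X, Relation.ReflTransGen (fun X Y => Step1 G X Y ∨ Step2 G X Y) L0 X →
      IsM G X ∧ X.card + 1 = s + t ∧ ∃ w', Good c g d w' X := by
    intro X hX
    induction hX with
    | refl => exact ⟨hL0, hL0c, w, hg⟩
    | tail _ hst ih =>
      rcases hst with h | h
      · exact ⟨h.1, hstep1 _ _ ih.2.1 ih.2.2 h⟩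
      · exact ⟨h.1, hstep2 _ _ ih.1 ih.2.1 ih.2.2 h⟩
  exact (h1 L (hC L0 L hL0 hL (by omega) (by omega))).2.2

theorem coreOdd : S_Swap1 → S_Swap2b → S_Struct → S_Pop → S_Jump → S_CoreOdd := by
  intro hS1 hS2 hSt hPo hJ V _ _ G s t c hs h2t' hts hZ hE hC hR
  have h2t : s + 1 ≤ 2 * t := h2t'.le
  have hZF : ∀ L, IsM G L → ZF c L := fun L hL T hT hTc => hZ T (isM_sub hL hT) hTc
  obtain ⟨L0, -, hL0, hL0c⟩ := hE ∅ (isM_empty G) (by rw [card_empty]; omega)
  obtain ⟨x, hx⟩ := hPo (Sym2 V) s t c L0 (by omega) h2t hL0c (hZF L0 hL0)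
  obtain ⟨g, d, w0, hd, hg0⟩ := hSt (Sym2 V) s t c L0 (by omega) h2t hL0c (hZF L0 hL0) ⟨x, by omega⟩
  have hex : ∀ L, IsM G L → L.card + 1 = s + t → ∃ w', Good c g d w' L := fun L hL hLc =>
    propagate hS1 hS2 hs h2t' hZF hC hR hd hL0 hL0c hg0 L hL hLc
  choose! wL hwL using hex
  have hE1 : ∀ e ∈ G.edgeSet, ∃ L, e ∈ L ∧ IsM G L ∧ L.card + 1 = s + t := by
    intro e he
    obtain ⟨L, hL1, hL2, hL3⟩ := hE {e} (isM_single he) (by rw [card_singleton]; omega)
    exact ⟨L, hL1 (mem_singleton_self e), hL2, hL3⟩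
  choose! Le hLe using hE1
  let W : Sym2 V → ℤ := fun e => wL (Le e) e
  have hWw : ∀ L, IsM G L → L.card + 1 = s + t → ∀ e ∈ L, wL L e = W e := by
    intro L hL hLc e he
    obtain ⟨h1, h2, h3⟩ := hLe e (hL.1 e he)
    refine uniq (g := g) h2t hd (window hLc (hwL L hL hLc) he) (window h3 (hwL _ h2 h3) h1) ?_
    rw [← (hwL L hL hLc).1 e he, ← (hwL _ h2 h3).1 e h1]
  have hW : ∀ L, IsM G L → L.card + 1 = s + t → Good c g d W L := by
    intro L hL hLc
    obtain ⟨h1, h2, h3⟩ := hwL L hL hLc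
    refine ⟨fun e he => ?_, ?_, ?_⟩
    · rw [← hWw L hL hLc e he]
      exact h1 e he
    · have h4 : aa W L = aa (wL L) L := sum_congr rfl fun e he => by rw [hWw L hL hLc e he]
      rw [h4]
      exact h2
    · have h4 : bb W L = bb (wL L) L := sum_congr rfl fun e he => by rw [hWw L hL hLc e he]
      rw [h4]
      exact h3
  have hW' : ∀ L, IsM G L → L.card + 1 = s + t → Good c (g + d) (-d) (fun e => 1 - W e) L := by
    intro L hL hLc
    obtain ⟨h1, h2, h3⟩ := hW L hL hLc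
    refine ⟨fun e he => ?_, ?_, ?_⟩
    · rw [h1 e he]
      push_cast
      ring
    · have h4 : aa (fun e => 1 - W e) L = bb W L := sum_congr rfl fun e _ => by
        have h5 : 1 - (1 - W e) = W e := by ring
        simp only [h5]
      rw [h4]
      exact h3
    · exact h2
  refine ⟨SimpleGraph.fromEdgeSet {e | e ∈ G.edgeSet ∧ W e ≤ 0},
    SimpleGraph.fromEdgeSet {e | e ∈ G.edgeSet ∧ 1 ≤ W e}, ?_, ?_, ?_⟩
  · intro v u h
    rw [SimpleGraph.sup_adj, SimpleGraph.fromEdgeSet_adj, SimpleGraph.fromEdgeSet_adj]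
    have h1 : s(v, u) ∈ G.edgeSet := h
    rcases le_or_gt (W s(v, u)) 0 with h2 | h2
    · exact Or.inl ⟨⟨h1, h2⟩, h.ne⟩
    · exact Or.inr ⟨⟨h1, h2⟩, h.ne⟩
  · intro F hF
    obtain ⟨h1, h2⟩ := isM_edge hF
    exact claimA hJ h2t hts hZ hE hW h1 h2
  · intro F hF
    obtain ⟨h1, h2⟩ := isM_edge hF
    exact claimA hJ h2t hts hZ hE hW' h1 fun e he => by
      have := h2 e he
      omega

end Pool.Agent.H621.ZM.CoreOdd
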