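import Pool.Agent.H621.ZM.Spec
import Pool.Graph.R_pool_sql_team_39128cda.Lib.helper26_.Berge

/-!
# NEAR and EXT: matchings from the Tutte-Berge formula
-/

set_option autoImplicit false

namespace Pool.Agent.H621.ZM.ExtNear

open Finset Pool.Agent.H621.ZM

/-- The matching of an involution. -/
theorem inv_matching {W V : Type} [Fintype W] [DecidableEq W] [DecidableEq V]
    (G : SimpleGraph V) (ι : W → V) (hι : Function.Injective ι) (f : W → W)
    (hf : ∀ v, f (f v) = v) (hadj : ∀ v, f v ≠ v → G.Adj (ι v) (ι (f v))) :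
    ∃ F : Finset (Sym2 V), IsM G F ∧ 2 * F.card = (univ.filter (fun v => f v ≠ v)).card ∧
      ∀ e ∈ F, ∀ x ∈ e, ∃ w, x = ι w := by
  set T : Finset W := univ.filter (fun v => f v ≠ v) with hT
  have hmem : ∀ v, v ∈ T ↔ f v ≠ v := fun v => by rw [hT, mem_filter]; simp
  have heq : ∀ v w : W, s(ι v, ι (f v)) = s(ι w, ι (f w)) ↔ v = w ∨ v = f w := by
    intro v w
    rw [Sym2.eq_iff]
    constructor
    · rintro (⟨h1, -⟩ | ⟨h1, -⟩)
      · exact Or.inl (hι h1)
      · exact Or.inr (hι h1)
    · rintro (rfl | rfl)
      · exact Or.inl ⟨rfl, rfl⟩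
      · exact Or.inr ⟨rfl, by rw [hf]⟩
  refine ⟨T.image (fun v => s(ι v, ι (f v))), ⟨?_, ?_⟩, ?_, ?_⟩
  · intro e he
    rw [mem_image] at he
    obtain ⟨v, hv, rfl⟩ := he
    rw [SimpleGraph.mem_edgeSet]
    exact hadj v ((hmem v).1 hv)
  · intro e he e' he' hne x hx hx'
    rw [mem_image] at he he'
    obtain ⟨v, hv, rfl⟩ := he
    obtain ⟨w, hw, rfl⟩ := he'
    apply hne
    rw [heq]
    rw [Sym2.mem_iff] at hx hx'
    rcases hx with rfl | rfl
    · rcases hx' with h | h
      · exact Or.inl (hι h)
      · exact Or.inr (hι h)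
    · rcases hx' with h | h
      · have h1 := hι h
        right
        rw [← h1, hf]
      · have h1 := congrArg f (hι h)
        rw [hf, hf] at h1
        exact Or.inl h1
  · have h1 := Finset.card_eq_sum_card_image (fun v => s(ι v, ι (f v))) T
    have h2 : ∀ b ∈ T.image (fun v => s(ι v, ι (f v))),
        (T.filter (fun v => s(ι v, ι (f v)) = b)).card = 2 := by
      intro b hb
      rw [mem_image] at hb
      obtain ⟨w, hw, rfl⟩ := hb
      have h3 : T.filter (fun v => s(ι v, ι (f v)) = s(ι w, ι (f w))) = {w, f w} := by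
        ext v
        rw [mem_filter, heq, mem_insert, mem_singleton]
        constructor
        · rintro ⟨-, h⟩
          exact h
        · rintro (rfl | rfl)
          · exact ⟨hw, Or.inl rfl⟩
          · refine ⟨?_, Or.inr rfl⟩
            rw [hmem, hf]
            exact ((hmem w).1 hw).symm
      rw [h3, card_pair ((hmem w).1 hw).symm]
    rw [Finset.sum_congr rfl h2, sum_const, smul_eq_mul] at h1
    rw [h1]
    ring
  · intro e he x hx
    rw [mem_image] at he
    obtain ⟨v, -, rfl⟩ := he
    rw [Sym2.mem_iff] at hx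
    rcases hx with rfl | rfl
    · exact ⟨v, rfl⟩
    · exact ⟨f v, rfl⟩

theorem near : S_Barrier → S_Near := by
  intro hB V _ _ G s r hs hr hrs hn hdeg hmiss
  have hd : Even (Fintype.card V + Fintype.card V % 2) := by
    rw [Nat.even_iff]
    omega
  rcases Pool.Agent.Lib.helper26.Berge.tb G (Fintype.card V % 2) hd with
    ⟨f, hf, hadj, hfix⟩ | ⟨S, K, hSK, hK, hdis⟩
  · obtain ⟨F, hF, hc, -⟩ := inv_matching G id Function.injective_id f hf hadj
    refine ⟨F, hF, ?_⟩
    have h1 := Finset.card_filter_add_card_filter_not (s := (univ : Finset V)) (fun v => f v = v)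
    rw [card_univ] at h1
    have h2 : (univ.filter (fun v => ¬ f v = v)).card = 2 * F.card := hc.symm
    omega
  · exfalso
    have hP : Pieces G S K := by
      refine ⟨fun C hC => ?_, hdis⟩
      obtain ⟨h1, h2, h3⟩ := hK C hC
      refine ⟨?_, h2, h3⟩
      rw [← card_pos]
      exact h1.pos
    have := hB V G s r hs hr hrs hn hdeg S K hP (by omega) (by omega)
    omega

/-- The vertices of a matching. -/
theorem cover_card {V : Type} [Fintype V] [DecidableEq V] {G : SimpleGraph V}
    {F : Finset (Sym2 V)} (hF : IsM G F) :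
    (univ.filter (fun v : V => ∃ e ∈ F, v ∈ e)).card = 2 * F.card := by
  have h1 : univ.filter (fun v : V => ∃ e ∈ F, v ∈ e) =
      F.biUnion (fun e => univ.filter (fun v => v ∈ e)) := by
    ext v
    simp
  rw [h1, card_biUnion]
  · have h2 : ∀ e ∈ F, (univ.filter (fun v => v ∈ e)).card = 2 := by
      intro e he
      have h3 := hF.1 e he
      induction e with
      | _ a b =>
        rw [SimpleGraph.mem_edgeSet] at h3
        have h4 : univ.filter (fun v => v ∈ s(a, b)) = {a, b} := by
          ext v
          simp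
        rw [h4, card_pair h3.ne]
    rw [sum_congr rfl h2, sum_const, smul_eq_mul, mul_comm]
  · intro e he e' he' hne
    change Disjoint (univ.filter (fun v => v ∈ e)) (univ.filter (fun v => v ∈ e'))
    rw [Finset.disjoint_left]
    intro v hv hv'
    rw [mem_filter] at hv hv'
    exact hF.2 e he e' he' hne v hv.2 hv'.2

/-- EXT with the hypothesis `1 ≤ t`: small matchings extend -/
def S_Ext1 : Prop := ∀ (V : Type) [Fintype V] [DecidableEq V] (G : SimpleGraph V) (s r t : ℕ),
  2 ≤ s → 1 ≤ t → 1 ≤ r → r + 1 ≤ s → Fintype.card V + 2 = 3 * s + r →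
  (∀ v, s ≤ (G.neighborSet v).ncard) →
  miss G < mm s r → 2 * t ≤ s + r → ∀ F, IsM G F → F.card + t ≤ s →
  ∃ F', F ⊆ F' ∧ IsM G F' ∧ F'.card + 1 = s + t

theorem ext1 : S_Barrier → S_Ext1 := by
  intro hB V _ _ G s r t hs ht hr hrs hn hdeg hmiss hts F hF hFt
  set cov : Finset V := univ.filter (fun v : V => ∃ e ∈ F, v ∈ e) with hcov
  have hcovc : cov.card = 2 * F.card := cover_card hF
  have hcm : ∀ v, v ∈ cov ↔ ∃ e ∈ F, v ∈ e := fun v => by rw [hcov, mem_filter]; simp
  let W : Type := {v : V // v ∉ cov}
  have hW : Fintype.card W + 2 * F.card = Fintype.card V := by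
    have h1 : Fintype.card W = (univ.filter (fun v => v ∉ cov)).card := Fintype.card_subtype _
    have h2 := Finset.card_filter_add_card_filter_not (s := (univ : Finset V)) (fun v => v ∈ cov)
    rw [card_univ] at h2
    have h3 : univ.filter (fun v => v ∈ cov) = cov := by
      ext v
      simp
    rw [h3, hcovc] at h2
    omega
  have hval : Function.Injective (Subtype.val : W → V) := Subtype.val_injective
  have hd : Even (Fintype.card W + (s + r - 2 * t)) := by
    rw [Nat.even_iff]
    omega
  rcases Pool.Agent.Lib.helper26.Berge.tb (G.comap (Subtype.val : W → V)) (s + r - 2 * t) hd with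
    ⟨f, hf, hadj, hfix⟩ | ⟨S, K, hSK, hK, hdis⟩
  · obtain ⟨F0, hF0, hc, hF0c⟩ := inv_matching G (Subtype.val : W → V) hval f hf
      (fun v hv => hadj v hv)
    have h1 : (univ.filter (fun v : W => f v = v)).card +
        (univ.filter (fun v : W => ¬ f v = v)).card = Fintype.card W := by
      rw [← card_univ]
      exact Finset.card_filter_add_card_filter_not (s := (univ : Finset W)) (fun v => f v = v)
    have h2 : (univ.filter (fun v : W => ¬ f v = v)).card = 2 * F0.card := hc.symm
    have h4 : (univ.filter (fun v : W => f v = v)).card ≤ s + r - 2 * t := hfix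
    have h3 : s + t - 1 - F.card ≤ F0.card := by omega
    obtain ⟨F1, hF1, hF1c⟩ := Finset.exists_subset_card_eq h3
    have hun : ∀ e ∈ F, ∀ e' ∈ F1, ∀ v ∈ e, v ∉ e' := by
      intro e he e' he' v hv hv'
      obtain ⟨w, rfl⟩ := hF0c e' (hF1 he') v hv'
      exact w.2 ((hcm _).2 ⟨e, he, hv⟩)
    have hdj : Disjoint F F1 := by
      rw [Finset.disjoint_left]
      intro e he he'
      induction e with
      | _ a b => exact hun _ he _ he' a (Sym2.mem_mk_left a b) (Sym2.mem_mk_left a b)
    refine ⟨F ∪ F1, subset_union_left, ⟨?_, ?_⟩, ?_⟩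
    · intro e he
      rcases mem_union.1 he with h | h
      · exact hF.1 e h
      · exact hF0.1 e (hF1 h)
    · intro e he e' he' hne v hv hv'
      rcases mem_union.1 he with h | h
      · rcases mem_union.1 he' with h' | h'
        · exact hF.2 e h e' h' hne v hv hv'
        · exact hun e h e' h' v hv hv'
      · rcases mem_union.1 he' with h' | h'
        · exact hun e' h' e h v hv' hv
        · exact hF0.2 e (hF1 h) e' (hF1 h') hne v hv hv'
    · rw [card_union_of_disjoint hdj, hF1c]
      omega
  · exfalso
    let emb : W ↪ V := ⟨Subtype.val, hval⟩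
    have hembm : ∀ (C : Finset W) (v : V), v ∈ C.map emb ↔ ∃ w ∈ C, (w : V) = v := by
      intro C v
      rw [mem_map]
      rfl
    set S1 : Finset V := S.map emb ∪ cov with hS1
    set K1 : Finset (Finset V) := K.map ⟨fun C => C.map emb, Finset.map_injective emb⟩ with hK1
    have hK1m : ∀ C, C ∈ K1 ↔ ∃ C' ∈ K, C'.map emb = C := by
      intro C
      rw [hK1, mem_map]
      rfl
    have hK1c : K1.card = K.card := card_map _
    have hS1c : S1.card ≤ S.card + 2 * F.card := by
      have h1 := card_union_le (S.map emb) cov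
      rw [card_map, hcovc] at h1
      exact h1
    have hP : Pieces G S1 K1 := by
      refine ⟨fun C hC => ?_, ?_⟩
      · obtain ⟨C', hC', rfl⟩ := (hK1m C).1 hC
        obtain ⟨h1, h2, h3⟩ := hK C' hC'
        refine ⟨?_, ?_, ?_⟩
        · rw [Finset.map_nonempty, ← card_pos]
          exact h1.pos
        · rw [Finset.disjoint_left]
          intro v hv hv'
          obtain ⟨w, hw, rfl⟩ := (hembm _ _).1 hv
          rw [hS1, mem_union] at hv'
          rcases hv' with hv' | hv'
          · obtain ⟨w', hw', h⟩ := (hembm _ _).1 hv'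
            rw [hval h] at hw'
            exact (Finset.disjoint_left.1 h2) hw hw'
          · exact w.2 hv'
        · intro v hv x hx
          obtain ⟨w, hw, rfl⟩ := (hembm _ _).1 hv
          by_cases hxc : x ∈ cov
          · right
            rw [hS1, mem_union]
            exact Or.inr hxc
          · rcases h3 w hw ⟨x, hxc⟩ hx with h | h
            · left
              exact (hembm _ _).2 ⟨_, h, rfl⟩
            · right
              rw [hS1, mem_union]
              left
              exact (hembm _ _).2 ⟨_, h, rfl⟩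
      · intro C hC D hD hne
        obtain ⟨C', hC', rfl⟩ := (hK1m C).1 hC
        obtain ⟨D', hD', rfl⟩ := (hK1m D).1 hD
        have h1 : C' ≠ D' := fun h => hne (by rw [h])
        have h2 := hdis hC' hD' h1
        change Disjoint (C'.map emb) (D'.map emb)
        rw [Finset.disjoint_map]
        exact h2
    have := hB V G s r hs hr hrs hn hdeg S1 K1 hP (by omega) (by omega)
    omega

end Pool.Agent.H621.ZM.ExtNear
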