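import Pool.Agent.H621.ZM.Conn
import Pool.Agent.H621.ZM.ExtNear

/-! # Assembly -/

set_option autoImplicit false

namespace Pool.Agent.H621.ZM.Final

open Finset

/-- no matching with `s` edges has label sum `0` -/
def ZSFree {V : Type} (G : SimpleGraph V) (s : ℕ) (c : Sym2 V → ZMod s) : Prop :=
  ∀ F, IsM G F → F.card = s → ∑ e ∈ F, c e ≠ 0

theorem del {V : Type} [Fintype V] [DecidableEq V] (G : SimpleGraph V) (s : ℕ) (c : Sym2 V → ZMod s)
    (hc : ZSFree G s c) (v : V) :
    ∃ (G' : SimpleGraph {x : V // x ≠ v}) (c' : Sym2 {x : V // x ≠ v} → ZMod s), ZSFree G' s c' ∧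
      miss G' + Fintype.card V ≤ miss G + (G.neighborSet v).ncard + 1 := by
  classical
  let f : {x : V // x ≠ v} ↪ V := Function.Embedding.subtype _
  refine ⟨G.comap f, fun e => c (e.map f), ?_, ?_⟩
  · intro F hF hcard hsum
    refine hc (F.map (f.sym2Map)) ?_ (by rw [card_map]; exact hcard) (by rw [sum_map]; exact hsum)
    constructor
    · intro e he
      rw [mem_map] at he
      obtain ⟨e', he', rfl⟩ := he
      have := hF.1 e' he'
      induction e' using Sym2.ind with
      | _ x y => exact this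
    · intro e he g hg heg u hu hu2
      rw [mem_map] at he hg
      obtain ⟨e', he', rfl⟩ := he
      obtain ⟨g', hg', rfl⟩ := hg
      have hne : e' ≠ g' := fun h => heg (by rw [h])
      have hu' : u ∈ Sym2.map f e' := hu
      have hu2' : u ∈ Sym2.map f g' := hu2
      rw [Sym2.mem_map] at hu' hu2'
      obtain ⟨a, ha, rfl⟩ := hu'
      obtain ⟨b, hb, hab⟩ := hu2'
      have : b = a := f.injective hab
      exact hF.2 e' he' g' hg' hne a ha (this ▸ hb)
  · set A : Set (Sym2 V) := (Sym2.map f) '' (G.comap f)ᶜ.edgeSet with hA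
    set N : Set V := {w | w ≠ v ∧ ¬ G.Adj v w} with hN
    set B : Set (Sym2 V) := (fun w => s(v, w)) '' N with hB
    have hAs : A ⊆ Gᶜ.edgeSet := by
      rintro _ ⟨e, he, rfl⟩
      induction e using Sym2.ind with
      | _ x y =>
        rw [SimpleGraph.mem_edgeSet, SimpleGraph.compl_adj] at he
        rw [Sym2.map_mk, SimpleGraph.mem_edgeSet, SimpleGraph.compl_adj]
        exact ⟨fun h => he.1 (f.injective h), he.2⟩
    have hBs : B ⊆ Gᶜ.edgeSet := by
      rintro _ ⟨w, hw, rfl⟩
      show s(v, w) ∈ Gᶜ.edgeSet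
      rw [SimpleGraph.mem_edgeSet, SimpleGraph.compl_adj]
      exact ⟨hw.1.symm, hw.2⟩
    have hdis : Disjoint A B := by
      rw [Set.disjoint_left]
      rintro _ ⟨e, he, rfl⟩ ⟨w, hw, h⟩
      have h1 : v ∈ Sym2.map f e := by
        rw [← h]
        exact Sym2.mem_mk_left v w
      rw [Sym2.mem_map] at h1
      obtain ⟨a, ha, hav⟩ := h1
      exact a.2 hav
    have hAc : A.ncard = miss (G.comap f) := by
      rw [hA, Set.ncard_image_of_injective _ (Sym2.map.injective f.injective)]
      rfl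
    have hBc : B.ncard = N.ncard := by
      rw [hB]
      apply Set.ncard_image_of_injective
      intro a b hab
      have hab' : s(v, a) = s(v, b) := hab
      exact (Sym2.congr_right).1 hab'
    have hNc : N.ncard + ((G.neighborSet v).ncard + 1) = Fintype.card V := by
      have h1 : N = (insert v (G.neighborSet v))ᶜ := by
        ext w
        simp only [hN, Set.mem_ofPred_eq, Set.mem_compl_iff, Set.mem_insert_iff,
          SimpleGraph.mem_neighborSet, not_or]
      have h2 : (insert v (G.neighborSet v)).ncard = (G.neighborSet v).ncard + 1 := by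
        apply Set.ncard_insert_of_notMem _ (Set.toFinite _)
        rw [SimpleGraph.mem_neighborSet]
        exact G.loopless.irrefl v
      rw [h1, ← h2, add_comm]
      have := Set.ncard_add_ncard_compl (insert v (G.neighborSet v))
      rw [this, Nat.card_eq_fintype_card]
    have h3 : (A ∪ B).ncard ≤ Gᶜ.edgeSet.ncard := Set.ncard_le_ncard (Set.union_subset hAs hBs)
      (Set.toFinite _)
    rw [Set.ncard_union_eq hdis (Set.toFinite _) (Set.toFinite _), hAc, hBc] at h3
    unfold miss at *
    omega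

theorem card_sub {V : Type} [Fintype V] [DecidableEq V] (v : V) :
    Fintype.card {x : V // x ≠ v} + 1 = Fintype.card V := by
  rw [Fintype.card_subtype_compl, Fintype.card_subtype_eq]
  have : 0 < Fintype.card V := Fintype.card_pos_iff.2 ⟨v⟩
  omega

theorem m1_succ (s r : ℕ) (_ : 1 ≤ s) : m1 s (r + 1) = m1 s r + (2 * s - 1 + r) := by
  unfold m1
  rw [Nat.choose_succ_succ' r 1, Nat.choose_one_right]
  ring

theorem m2_succ (s r : ℕ) : m2 s (r + 1) = m2 s r + (s + r) := by
  unfold m2
  rw [← add_assoc, Nat.choose_succ_succ' (s + r) 1, Nat.choose_one_right]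
  ring

theorem two_m1 (s r : ℕ) (hs : 1 ≤ s) : 2 * (m1 s r : ℤ) = r * (4 * s - 2) + r * (r - 1) := by
  induction r with
  | zero => simp [m1]
  | succ r ih =>
    rw [m1_succ s r hs]
    have h1 : ((2 * s - 1 : ℕ) : ℤ) = 2 * s - 1 := by omega
    push_cast at ih ⊢
    rw [h1]
    linarith

theorem two_m2 (s r : ℕ) : 2 * (m2 s r : ℤ) = (s + r) * (s + r - 1) := by
  unfold m2
  have h := Nat.cast_choose_two ℚ (s + r)
  have h2 : (2 : ℚ) * ((s + r).choose 2 : ℕ) = (s + r : ℕ) * ((s + r : ℕ) - 1) := by rw [h]; ring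
  have h3 : (2 : ℤ) * ((s + r).choose 2 : ℕ) = (s + r : ℕ) * ((s + r : ℕ) - 1) := by
    exact_mod_cast h2
  push_cast at h3
  exact h3

/-- the difference -/
theorem m1_m2 (s r : ℕ) (hs : 1 ≤ s) :
    2 * (m1 s r : ℤ) - 2 * (m2 s r : ℤ) = (s - 1) * (2 * r - s) := by
  rw [two_m1 s r hs, two_m2]
  ring

theorem m2_le_m1 (s r : ℕ) (hs : 1 ≤ s) (h : s ≤ 2 * r) : m2 s r ≤ m1 s r := by
  have h1 := m1_m2 s r hs
  have h2 : (0 : ℤ) ≤ (s - 1) * (2 * r - s) := mul_nonneg (by omega) (by omega)
  omega

theorem mm_eq (s r : ℕ) (hs : 1 ≤ s) (h : s ≤ 2 * r) : mm s r = m2 s r :=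
  min_eq_right (m2_le_m1 s r hs h)

theorem mm_succ_le (s r : ℕ) (hs : 1 ≤ s) : mm s (r + 1) ≤ mm s r + (2 * s - 1 + r) := by
  unfold mm
  have h1 := m1_succ s r hs
  have h2 := m2_succ s r
  rcases le_total (m1 s r) (m2 s r) with h | h
  · rw [min_eq_left h]
    exact (min_le_left _ _).trans (by omega)
  · rw [min_eq_right h]
    exact (min_le_right _ _).trans (by omega)

/-- the direct case: minimum degree at least `s` -/
theorem direct (hI2 : S_Swap1) (hI3 : S_Swap2) (hSt : S_Struct) (hPop : S_Pop)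
    (hJ : S_Jump) (hCore : S_Swap1 → S_Swap2 → S_Struct → S_Pop → S_Jump → S_Core)
    (hExt : ExtNear.S_Ext1) (hTwo : S_TwoCol) (hConn : S_Conn)
    {V : Type} [Fintype V] [DecidableEq V] (G : SimpleGraph V) (s r : ℕ) (c : Sym2 V → ZMod s)
    (hs : 3 ≤ s) (hr : 2 ≤ r) (hrs : r + 1 ≤ s) (hn : Fintype.card V + 2 = 3 * s + r)
    (hd : ∀ v, s ≤ (G.neighborSet v).ncard) (hc : ZSFree G s c) : mm s r ≤ miss G := by
  by_contra hlt
  rw [not_le] at hlt
  have hC := hCore hI2 hI3 hSt hPop hJ
  obtain ⟨G₁, G₂, h1, h2, h3⟩ := hC V G s (s / 2 + 1) c hs (by omega) (by omega) hc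
    (fun F hF hFc => hExt V G s r (s / 2 + 1) (by omega) (by omega) (by omega) hrs hn hd hlt
      (by omega) F hF hFc)
    (by
      have he : s + (s / 2 + 1) - 1 = s + s / 2 := by omega
      rw [he]
      rcases hConn V G s r hs hr hrs hn hd hlt with h | ⟨he, h⟩
      · exact Or.inl h
      · obtain ⟨k, hk⟩ := he
        exact Or.inr ⟨by omega, h⟩)
  have := hTwo V G G₁ G₂ s r (by omega) hn h1 h2 h3
  omega

/-- large minimum degree is impossible -/
theorem bigdeg (hB : S_Big) {V : Type} [Fintype V] [DecidableEq V] (G : SimpleGraph V) (s r : ℕ)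
    (c : Sym2 V → ZMod s) (hs : 1 ≤ s) (hsr : s ≤ r) (hn : Fintype.card V + 2 = 3 * s + r)
    (hd : ∀ v, 2 * s - 1 ≤ (G.neighborSet v).ncard) (hc : ZSFree G s c) : False := by
  obtain ⟨F, hF, hFc⟩ := hB V G s hs (by omega) hd
  obtain ⟨T, hT1, hT2, hT3⟩ := ZMod.erdos_ginzburg_ziv (n := s) (s := F) c (by omega)
  exact hc T ⟨fun e he => hF.1 e (hT1 he), fun e he f hf => hF.2 e (hT1 he) f (hT1 hf)⟩ hT2 hT3

/-- everything that is needed of the parts -/
structure Parts : Prop where
  dir : ∀ (V : Type) [Fintype V] [DecidableEq V] (G : SimpleGraph V) (s r : ℕ) (c : Sym2 V → ZMod s),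
    3 ≤ s → 2 ≤ r → r + 1 ≤ s → Fintype.card V + 2 = 3 * s + r →
    (∀ v, s ≤ (G.neighborSet v).ncard) → ZSFree G s c → mm s r ≤ miss G
  big : ∀ (V : Type) [Fintype V] [DecidableEq V] (G : SimpleGraph V) (s r : ℕ) (c : Sym2 V → ZMod s),
    1 ≤ s → s ≤ r → Fintype.card V + 2 = 3 * s + r →
    (∀ v, 2 * s - 1 ≤ (G.neighborSet v).ncard) → ZSFree G s c → False

/-- below `r = s`: either the conjectured bound or the first bound up to the defect `D` -/
theorem low (hP : Parts) (s D : ℕ) (hs : 1 ≤ s)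
    (hbase : ∀ (V : Type) [Fintype V] [DecidableEq V] (G : SimpleGraph V) (c : Sym2 V → ZMod s),
      Fintype.card V + 2 = 3 * s + 1 → ZSFree G s c → 2 * s - 1 ≤ miss G + D) :
    ∀ (r : ℕ), 1 ≤ r → r + 1 ≤ s → ∀ (V : Type) [Fintype V] [DecidableEq V] (G : SimpleGraph V)
      (c : Sym2 V → ZMod s), Fintype.card V + 2 = 3 * s + r → ZSFree G s c →
      mm s r ≤ miss G ∨ m1 s r ≤ miss G + D := by
  intro r
  induction r with
  | zero => omega
  | succ r ih =>
    intro _ hrs V _ _ G c hn hc
    rcases Nat.eq_zero_or_pos r with rfl | hr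
    · right
      have h1 := hbase V G c hn hc
      have h2 : m1 s 1 = 2 * s - 1 := by simp [m1]
      simpa [h2] using h1
    · by_cases hd : ∀ v, s ≤ (G.neighborSet v).ncard
      · exact Or.inl (hP.dir V G s (r + 1) c (by omega) (by omega) hrs hn hd hc)
      · push Not at hd
        obtain ⟨v, hv⟩ := hd
        obtain ⟨G', c', hc', hm⟩ := del G s c hc v
        have hcard := card_sub v
        have h1 := m1_succ s r hs
        have h2 := mm_succ_le s r hs
        rcases ih hr (by omega) {x : V // x ≠ v} G' c' (by omega) hc' with h | h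
        · left
          omega
        · right
          omega

/-- the whole range -/
theorem all (hP : Parts) (s D : ℕ) (hs : 1 ≤ s)
    (hbase : ∀ (V : Type) [Fintype V] [DecidableEq V] (G : SimpleGraph V) (c : Sym2 V → ZMod s),
      Fintype.card V + 2 = 3 * s + 1 → ZSFree G s c → 2 * s - 1 ≤ miss G + D)
    (E : ℕ) (r₀ : ℕ) (hr₀ : 1 ≤ r₀) (hr₀s : r₀ + 1 ≤ s ∨ r₀ = 1)
    (hE : ∀ r, r₀ ≤ r → r + 1 ≤ s → mm s r + D ≤ m1 s r + E) (hE1 : s = 1 → D ≤ E) :
    ∀ (r : ℕ), r₀ ≤ r → ∀ (V : Type) [Fintype V] [DecidableEq V] (G : SimpleGraph V)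
      (c : Sym2 V → ZMod s), Fintype.card V + 2 = 3 * s + r → ZSFree G s c →
      mm s r ≤ miss G + E := by
  intro r
  induction r with
  | zero => omega
  | succ r ih =>
    intro hr V _ _ G c hn hc
    by_cases hrs : r + 1 + 1 ≤ s
    · rcases low hP s D hs hbase (r + 1) (by omega) hrs V G c hn hc with h | h
      · omega
      · have := hE (r + 1) hr hrs
        omega
    · rcases Nat.eq_or_lt_of_le (show 1 ≤ s by omega) with h1 | h1
      · subst h1
        rcases Nat.eq_zero_or_pos r with rfl | hr'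
        · have h2 := hbase V G c hn hc
          have h3 : mm 1 1 ≤ 1 := (min_le_left _ _).trans (by simp [m1])
          have := hE1 rfl
          have h4 : mm 1 (0 + 1) ≤ 1 := h3
          omega
        · by_cases hd : ∀ v, 2 * 1 - 1 ≤ (G.neighborSet v).ncard
          · exact (hP.big V G 1 (r + 1) c le_rfl (by omega) hn hd hc).elim
          · push Not at hd
            obtain ⟨v, hv⟩ := hd
            obtain ⟨G', c', hc', hm⟩ := del G 1 c hc v
            have hcard := card_sub v
            have h5 := ih (by omega) {x : V // x ≠ v} G' c' (by omega) hc'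
            have h6 := m2_succ 1 r
            have h7 := mm_eq 1 r le_rfl (by omega)
            have h8 := mm_eq 1 (r + 1) le_rfl (by omega)
            omega
      · -- `2 ≤ s ≤ r + 1`
        by_cases hd : ∀ v, 2 * s - 1 ≤ (G.neighborSet v).ncard
        · exact (hP.big V G s (r + 1) c hs (by omega) hn hd hc).elim
        · push Not at hd
          obtain ⟨v, hv⟩ := hd
          obtain ⟨G', c', hc', hm⟩ := del G s c hc v
          have hcard := card_sub v
          have h5 := ih (by omega) {x : V // x ≠ v} G' c' (by omega) hc'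
          have h6 := m2_succ s r
          have h7 := mm_eq s r hs (by omega)
          have h8 := mm_eq s (r + 1) hs (by omega)
          omega

end Pool.Agent.H621.ZM.Final
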