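import Pool.Agent.H621.ZM.Spec2

/-!
# FINISH2: a vertex with almost no neighbours in a monochromatic set
-/

set_option autoImplicit false

namespace Pool.Agent.H621.ZM.Finish2

open Finset

/-- `s` elements of `ZMod s` have a nonempty zero-sum subset -/
theorem daven {ι : Type} [DecidableEq ι] {s : ℕ} (hs : 1 ≤ s) (I : Finset ι) (hI : I.card = s)
    (g : ι → ZMod s) : ∃ J, J ⊆ I ∧ J.Nonempty ∧ ∑ i ∈ J, g i = 0 := by
  obtain ⟨t, ht, hc, h0⟩ := ZMod.erdos_ginzburg_ziv (n := s) (s := I.disjSum (univ : Finset (Fin (s - 1))))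
    (Sum.elim g (fun _ => 0)) (by
      rw [card_disjSum, hI, card_univ, Fintype.card_fin]
      omega)
  refine ⟨t.toLeft, ?_, ?_, ?_⟩
  · intro i hi
    have h1 := ht (mem_toLeft.1 hi)
    rw [inl_mem_disjSum] at h1
    exact h1
  · rw [← card_pos]
    have h1 := card_toLeft_add_card_toRight (u := t)
    have h2 : t.toRight.card ≤ s - 1 := by
      have h3 := card_le_univ t.toRight
      rw [Fintype.card_fin] at h3
      exact h3
    omega
  · have h1 : t.toLeft.disjSum t.toRight = t := toLeft_disjSum_toRight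
    rw [← h1, sum_disjSum] at h0
    simpa using h0

theorem exists_inj {V : Type} [DecidableEq V] (A D : Finset V) (h : A.card ≤ D.card) :
    ∃ g : V → V, Set.InjOn g A ∧ ∀ a ∈ A, g a ∈ D := by
  have h1 : Fintype.card A ≤ Fintype.card D := by
    rw [Fintype.card_coe, Fintype.card_coe]
    exact h
  obtain ⟨e⟩ := Function.Embedding.nonempty_of_card_le h1
  refine ⟨fun v => if hv : v ∈ A then (e ⟨v, hv⟩ : V) else v, ?_, ?_⟩
  · intro v hv v' hv' he
    have h2 : v ∈ A := hv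
    have h3 : v' ∈ A := hv'
    simp only [dif_pos h2, dif_pos h3] at he
    have h4 := e.injective (Subtype.ext he)
    exact congrArg Subtype.val h4
  · intro a ha
    simp only [dif_pos ha]
    exact (e ⟨a, ha⟩).2

theorem combine (hN : S_NearU) {V : Type} [Fintype V] [DecidableEq V] (G : SimpleGraph V) (s : ℕ)
    (c : Sym2 V → ZMod s) (x : ZMod s) (Q₁ : Finset V)
    (hQx : ∀ a ∈ Q₁, ∀ b ∈ Q₁, G.Adj a b → c s(a, b) = x)
    (hQm : ∀ u ∈ Q₁, ∀ v ∈ Q₁, ∀ u' ∈ Q₁, ∀ v' ∈ Q₁, u ≠ v → ¬ G.Adj u v → u' ≠ v' →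
      ¬ G.Adj u' v' → s(u, v) = s(u', v'))
    (J : Finset V) (f : V → V) (h1 : ∀ v ∈ J, v ∉ Q₁) (h2 : Set.InjOn f J)
    (h3 : ∀ v ∈ J, f v ∉ J) (h4 : ∀ v ∈ J, G.Adj v (f v))
    (h5 : ∑ v ∈ J, (c s(v, f v) - x) = 0) (h6 : J.card ≤ s)
    (h7 : 2 * (s - J.card) ≤ (Q₁ \ J.image f).card) (h8 : 3 ≤ (Q₁ \ J.image f).card) :
    ∃ F, IsM G F ∧ F.card = s ∧ ∑ e ∈ F, c e = 0 := by
  obtain ⟨U, hU⟩ : ∃ U, U = Q₁ \ J.image f := ⟨_, rfl⟩
  rw [← hU] at h7 h8
  have hUQ : ∀ v ∈ U, v ∈ Q₁ ∧ ∀ w ∈ J, f w ≠ v := by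
    intro v hv
    rw [hU, mem_sdiff, mem_image] at hv
    exact ⟨hv.1, fun w hw he => hv.2 ⟨w, hw, he⟩⟩
  have hcount : {p : V × V | p.1 ∈ U ∧ p.2 ∈ U ∧ p.1 ≠ p.2 ∧ ¬ G.Adj p.1 p.2}.ncard ≤ 2 := by
    by_cases hex : ∃ p : V × V, p.1 ∈ U ∧ p.2 ∈ U ∧ p.1 ≠ p.2 ∧ ¬ G.Adj p.1 p.2
    · obtain ⟨⟨u, v⟩, hu, hv, huv, hadj⟩ := hex
      have hsub : {p : V × V | p.1 ∈ U ∧ p.2 ∈ U ∧ p.1 ≠ p.2 ∧ ¬ G.Adj p.1 p.2} ⊆
          (({(u, v), (v, u)} : Finset (V × V)) : Set (V × V)) := by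
        rintro ⟨a, b⟩ ⟨ha, hb, hab, hadj'⟩
        have h9 := hQm a (hUQ a ha).1 b (hUQ b hb).1 u (hUQ u hu).1 v (hUQ v hv).1 hab hadj' huv hadj
        rw [Sym2.eq_iff] at h9
        rw [mem_coe, mem_insert, mem_singleton, Prod.mk.injEq, Prod.mk.injEq]
        exact h9
      refine (Set.ncard_le_ncard hsub (Finset.finite_toSet _)).trans ?_
      rw [Set.ncard_coe_finset]
      exact card_le_two
    · have h9 : {p : V × V | p.1 ∈ U ∧ p.2 ∈ U ∧ p.1 ≠ p.2 ∧ ¬ G.Adj p.1 p.2} = ∅ := by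
        ext p
        constructor
        · intro hp
          exact hex ⟨p, hp⟩
        · intro hp
          exact hp.elim
      rw [h9, Set.ncard_empty]
      exact Nat.zero_le _
  obtain ⟨M, hM, hMc, hMU⟩ := hN V G U (s - J.card) (U.card + 1 - 2 * (s - J.card)) (by omega)
    (by omega) (by
      refine lt_of_le_of_lt hcount ?_
      have h9 : 2 ≤ U.card + 1 - 2 * (s - J.card) + 1 := by omega
      have h10 : 2 ≤ U.card - 1 := by omega
      calc 2 < 2 * 2 := by norm_num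
        _ ≤ _ := Nat.mul_le_mul h9 h10)
  -- disjointness
  have hD1 : ∀ v ∈ J, ∀ v' ∈ J, v ≠ v' → ∀ w, w ∈ s(v, f v) → w ∉ s(v', f v') := by
    intro v hv v' hv' hne w hw hw'
    rw [Sym2.mem_iff] at hw hw'
    rcases hw with rfl | rfl <;> rcases hw' with h | h
    · exact hne h
    · exact h3 v' hv' (h ▸ hv)
    · exact h3 v hv (h ▸ hv')
    · exact hne (h2 hv hv' h)
  have hD2 : ∀ v ∈ J, ∀ e ∈ M, ∀ w, w ∈ s(v, f v) → w ∉ e := by
    intro v hv e he w hw hw'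
    have h9 := hUQ w (hMU e he w hw')
    rw [Sym2.mem_iff] at hw
    rcases hw with rfl | rfl
    · exact h1 w hv h9.1
    · exact h9.2 v hv rfl
  have hinj : Set.InjOn (fun v => s(v, f v)) J := by
    intro v hv v' hv' he
    by_contra hne
    have he' : s(v, f v) = s(v', f v') := he
    refine hD1 v hv v' hv' hne v (Sym2.mem_mk_left _ _) ?_
    rw [← he']
    exact Sym2.mem_mk_left _ _
  have hdisj : Disjoint (J.image (fun v => s(v, f v))) M := by
    rw [Finset.disjoint_left]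
    intro e he he'
    obtain ⟨v, hv, rfl⟩ := mem_image.1 he
    exact hD2 v hv _ he' v (Sym2.mem_mk_left _ _) (Sym2.mem_mk_left _ _)
  refine ⟨J.image (fun v => s(v, f v)) ∪ M, ⟨?_, ?_⟩, ?_, ?_⟩
  · intro e he
    rw [mem_union] at he
    rcases he with he | he
    · obtain ⟨v, hv, rfl⟩ := mem_image.1 he
      exact (SimpleGraph.mem_edgeSet G).2 (h4 v hv)
    · exact hM.1 e he
  · intro e he e' he' hne v hv hv'
    rw [mem_union] at he he'
    rcases he with he | he <;> rcases he' with he' | he'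
    · obtain ⟨a, ha, rfl⟩ := mem_image.1 he
      obtain ⟨b, hb, rfl⟩ := mem_image.1 he'
      have hab : a ≠ b := by
        rintro rfl
        exact hne rfl
      exact hD1 a ha b hb hab v hv hv'
    · obtain ⟨a, ha, rfl⟩ := mem_image.1 he
      exact hD2 a ha e' he' v hv hv'
    · obtain ⟨b, hb, rfl⟩ := mem_image.1 he'
      exact hD2 b hb e he v hv' hv
    · exact hM.2 e he e' he' hne v hv hv'
  · rw [card_union_of_disjoint hdisj, card_image_of_injOn hinj, hMc]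
    omega
  · rw [sum_union hdisj, sum_image hinj]
    have h9 : ∑ e ∈ M, c e = ∑ e ∈ M, x := by
      refine sum_congr rfl fun e he => ?_
      have h10 := hM.1 e he
      have h11 := hMU e he
      revert h10 h11
      refine Sym2.ind (fun a b => ?_) e
      intro h10 h11
      exact hQx a (hUQ a (h11 a (Sym2.mem_mk_left _ _))).1 b
        (hUQ b (h11 b (Sym2.mem_mk_right _ _))).1 ((SimpleGraph.mem_edgeSet G).1 h10)
    have h10 : ∑ v ∈ J, c s(v, f v) = J.card • x := by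
      rw [sum_sub_distrib, sum_const, sub_eq_zero] at h5
      exact h5
    rw [h9, h10, sum_const, hMc, ← add_nsmul, Nat.add_sub_cancel' h6, nsmul_eq_mul,
      ZMod.natCast_self, zero_mul]

theorem ne_struct {V : Type} [Fintype V] [DecidableEq V] (G : SimpleGraph V) (s : ℕ) (w₀ : V)
    (B : Finset V) (hBc : B.card + 3 = 2 * s) (hwB : w₀ ∉ B) (hBn : ∀ q ∈ B, ¬ G.Adj w₀ q)
    (hm : miss G + 2 ≤ 2 * s) (u v u' v' : V) (h1 : u ≠ v) (h2 : ¬ G.Adj u v)
    (h3 : ∀ q ∈ B, s(u, v) ≠ s(w₀, q)) (h1' : u' ≠ v') (h2' : ¬ G.Adj u' v')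
    (h3' : ∀ q ∈ B, s(u', v') ≠ s(w₀, q)) : s(u, v) = s(u', v') := by
  by_contra hne
  have hinj : Set.InjOn (fun q => s(w₀, q)) B := by
    intro q hq q' hq' he
    have he' : s(w₀, q) = s(w₀, q') := he
    rw [Sym2.eq_iff] at he'
    rcases he' with ⟨_, h⟩ | ⟨h, h'⟩
    · exact h
    · rw [h', h]
  have hc1 : (insert s(u, v) (insert s(u', v') (B.image (fun q => s(w₀, q))))).card = 2 * s - 1 := by
    rw [card_insert_of_notMem, card_insert_of_notMem, card_image_of_injOn hinj]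
    · omega
    · intro h
      obtain ⟨q, hq, he⟩ := mem_image.1 h
      exact h3' q hq he.symm
    · intro h
      rcases mem_insert.1 h with h | h
      · exact hne h
      · obtain ⟨q, hq, he⟩ := mem_image.1 h
        exact h3 q hq he.symm
  have hsub : ((insert s(u, v) (insert s(u', v') (B.image (fun q => s(w₀, q)))) :
      Finset (Sym2 V)) : Set (Sym2 V)) ⊆ Gᶜ.edgeSet := by
    intro e he
    rw [mem_coe, mem_insert, mem_insert, mem_image] at he
    rcases he with rfl | rfl | ⟨q, hq, rfl⟩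
    · rw [SimpleGraph.mem_edgeSet, SimpleGraph.compl_adj]
      exact ⟨h1, h2⟩
    · rw [SimpleGraph.mem_edgeSet, SimpleGraph.compl_adj]
      exact ⟨h1', h2'⟩
    · rw [SimpleGraph.mem_edgeSet, SimpleGraph.compl_adj]
      exact ⟨fun h => hwB (h ▸ hq), hBn q hq⟩
  have h4 := Set.ncard_le_ncard hsub (Set.toFinite _)
  rw [Set.ncard_coe_finset, hc1] at h4
  have h5 : 2 * s - 1 ≤ miss G := h4
  omega

theorem finish2 : S_NearU → S_Finish2 := by
  intro hN V _ _ G s c x w₀ Q₁ hs hV hQ hw hm hB hQx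
  obtain ⟨B, hBQ, hBc, hBn⟩ := hB
  by_contra hno
  have hwB : w₀ ∉ B := fun h => hw (hBQ h)
  have hne := ne_struct G s w₀ B hBc hwB hBn hm
  have ns1 : ∀ u v, u ≠ w₀ → v ≠ w₀ → ∀ q ∈ B, s(u, v) ≠ s(w₀, q) := by
    intro u v hu hv q _ he
    rw [Sym2.eq_iff] at he
    rcases he with ⟨h, _⟩ | ⟨_, h⟩
    · exact hu h
    · exact hv h
  have ns2 : ∀ v, v ∉ B → ∀ q ∈ B, s(w₀, v) ≠ s(w₀, q) := by
    intro v hv q hq he
    rw [Sym2.eq_iff] at he
    rcases he with ⟨_, h⟩ | ⟨h, _⟩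
    · exact hv (h ▸ hq)
    · exact hwB (h ▸ hq)
  have hQw : ∀ q ∈ Q₁, q ≠ w₀ := fun q hq h => hw (h ▸ hq)
  have hQm : ∀ u ∈ Q₁, ∀ v ∈ Q₁, ∀ u' ∈ Q₁, ∀ v' ∈ Q₁, u ≠ v → ¬ G.Adj u v → u' ≠ v' →
      ¬ G.Adj u' v' → s(u, v) = s(u', v') := fun u hu v hv u' hu' v' hv' a b a' b' =>
    hne u v u' v' a b (ns1 u v (hQw u hu) (hQw v hv)) a' b' (ns1 u' v' (hQw u' hu') (hQw v' hv'))
  have comb : ∀ (J : Finset V) (f : V → V), (∀ v ∈ J, v ∉ Q₁) → Set.InjOn f J →
      (∀ v ∈ J, f v ∉ J) → (∀ v ∈ J, G.Adj v (f v)) → ∑ v ∈ J, (c s(v, f v) - x) = 0 →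
      J.card ≤ s → 2 * (s - J.card) ≤ (Q₁ \ J.image f).card → 3 ≤ (Q₁ \ J.image f).card → False :=
    fun J f a1 a2 a3 a4 a5 a6 a7 a8 =>
      hno (combine hN G s c x Q₁ hQx hQm J f a1 a2 a3 a4 a5 a6 a7 a8)
  -- A: no two disjoint edges of colour `x` between the parts
  have hA : ∀ p p' q q', p ∉ Q₁ → p' ∉ Q₁ → q ∈ Q₁ → q' ∈ Q₁ → G.Adj p q → c s(p, q) = x →
      G.Adj p' q' → c s(p', q') = x → p = p' ∨ q = q' := by
    intro p p' q q' hp hp' hq hq' h1 h2 h3 h4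
    by_contra hcon
    rw [not_or] at hcon
    obtain ⟨hpp, hqq⟩ := hcon
    have hfp : (if p = p then q else q') = q := if_pos rfl
    have hfp' : (if p' = p then q else q') = q' := if_neg (Ne.symm hpp)
    have hJc : ({p, p'} : Finset V).card = 2 := card_pair hpp
    have him : (({p, p'} : Finset V).image (fun v => if v = p then q else q')).card ≤ 2 := by
      rw [← hJc]
      exact card_image_le
    have hsd := le_card_sdiff (({p, p'} : Finset V).image (fun v => if v = p then q else q')) Q₁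
    refine comb {p, p'} (fun v => if v = p then q else q') ?_ ?_ ?_ ?_ ?_ ?_ ?_ ?_
    · intro v hv
      rw [mem_insert, mem_singleton] at hv
      rcases hv with rfl | rfl
      · exact hp
      · exact hp'
    · intro v hv v' hv' he
      rw [mem_coe, mem_insert, mem_singleton] at hv hv'
      rcases hv with rfl | rfl <;> rcases hv' with rfl | rfl
      · rfl
      · simp only [if_true, if_neg (Ne.symm hpp)] at he
        exact absurd he hqq
      · simp only [if_true, if_neg (Ne.symm hpp)] at he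
        exact absurd he.symm hqq
      · rfl
    · intro v hv hv'
      have h5 : (if v = p then q else q') ∈ Q₁ := by
        split_ifs
        · exact hq
        · exact hq'
      rw [mem_insert, mem_singleton] at hv'
      rcases hv' with h6 | h6
      · exact hp (h6 ▸ h5)
      · exact hp' (h6 ▸ h5)
    · intro v hv
      rw [mem_insert, mem_singleton] at hv
      rcases hv with rfl | rfl
      · simpa only [if_true] using h1
      · simpa only [if_neg (Ne.symm hpp)] using h3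
    · rw [sum_pair hpp]
      simp only [if_true, if_neg (Ne.symm hpp)]
      rw [h2, h4, sub_self, add_zero]
    · omega
    · omega
    · omega
  -- B: no edge of colour `x` outside of `Q₁`
  have hBB : ∀ p p', p ∉ Q₁ → p' ∉ Q₁ → G.Adj p p' → c s(p, p') ≠ x := by
    intro p p' hp hp' h1 h2
    have him : Q₁ \ (({p} : Finset V).image (fun _ => p')) = Q₁ := by
      rw [image_singleton, sdiff_singleton_eq_erase]
      exact erase_eq_of_notMem hp'
    have hJc : ({p} : Finset V).card = 1 := card_singleton p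
    refine comb {p} (fun _ => p') ?_ ?_ ?_ ?_ ?_ ?_ ?_ ?_
    · intro v hv
      rw [mem_singleton] at hv
      rw [hv]
      exact hp
    · intro v hv v' hv' _
      rw [mem_coe, mem_singleton] at hv hv'
      rw [hv, hv']
    · intro v hv hv'
      rw [mem_singleton] at hv'
      exact h1.ne hv'.symm
    · intro v hv
      rw [mem_singleton] at hv
      rw [hv]
      exact h1
    · rw [sum_singleton, h2, sub_self]
    · omega
    · rw [him]
      omega
    · rw [him]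
      omega
  have hPc : (Q₁ᶜ).card = s + 1 := by
    rw [card_compl]
    omega
  -- the final step
  have win : ∀ p p' : V, p ∉ Q₁ → p' ∉ Q₁ → G.Adj p p' → ∀ g : V → V,
      Set.InjOn g {v | v ∉ Q₁ ∧ v ≠ p ∧ v ≠ p'} →
      (∀ v, v ∉ Q₁ → v ≠ p → v ≠ p' → g v ∈ Q₁ ∧ G.Adj v (g v) ∧ c s(v, g v) ≠ x) → False := by
    intro p p' hp hp' hadj g hinj hg
    have hpp : p ≠ p' := hadj.ne
    obtain ⟨f, hf⟩ : ∃ f : V → V, f = fun v => if v = p then p' else g v := ⟨_, rfl⟩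
    have hfp : f p = p' := by rw [hf]; exact if_pos rfl
    have hfv : ∀ v, v ≠ p → f v = g v := fun v hv => by rw [hf]; exact if_neg hv
    obtain ⟨I, hI⟩ : ∃ I, I = Q₁ᶜ.erase p' := ⟨_, rfl⟩
    have hIm : ∀ v, v ∈ I ↔ v ≠ p' ∧ v ∉ Q₁ := by
      intro v
      rw [hI, mem_erase, mem_compl]
    have hIc : I.card = s := by
      rw [hI, card_erase_of_mem (mem_compl.2 hp'), hPc]
      omega
    obtain ⟨J, hJI, hJn, hJ0⟩ := daven (by omega) I hIc (fun v => c s(v, f v) - x)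
    have hf1 : ∀ v ∈ I, G.Adj v (f v) ∧ c s(v, f v) ≠ x := by
      intro v hv
      rw [hIm] at hv
      by_cases h : v = p
      · rw [h, hfp]
        exact ⟨hadj, hBB p p' hp hp' hadj⟩
      · rw [hfv v h]
        exact (hg v hv.2 h hv.1).2
    have hf2 : ∀ v ∈ I, f v ∉ I := by
      intro v hv hv'
      rw [hIm] at hv hv'
      by_cases h : v = p
      · rw [h, hfp] at hv'
        exact hv'.1 rfl
      · rw [hfv v h] at hv'
        exact hv'.2 (hg v hv.2 h hv.1).1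
    have hf3 : Set.InjOn f I := by
      intro v hv v' hv' he
      rw [mem_coe, hIm] at hv hv'
      by_cases h : v = p <;> by_cases h' : v' = p
      · rw [h, h']
      · rw [h, hfp, hfv v' h'] at he
        exact absurd ((hg v' hv'.2 h' hv'.1).1) (he ▸ hp')
      · rw [h', hfp, hfv v h] at he
        exact absurd ((hg v hv.2 h hv.1).1) (he ▸ hp')
      · rw [hfv v h, hfv v' h'] at he
        exact hinj ⟨hv.2, h, hv.1⟩ ⟨hv'.2, h', hv'.1⟩ he
    have hpI : p ∈ I := (hIm p).2 ⟨hpp, hp⟩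
    have hJs : J.card ≤ s := by
      rw [← hIc]
      exact card_le_card hJI
    have hJ2 : 2 ≤ J.card := by
      by_contra h
      have h1 : J.card = 1 := by
        have := card_pos.2 hJn
        omega
      obtain ⟨a, ha⟩ := card_eq_one.1 h1
      rw [ha, sum_singleton, sub_eq_zero] at hJ0
      have h2 : a ∈ J := by rw [ha]; exact mem_singleton_self a
      exact (hf1 a (hJI h2)).2 hJ0
    have him : (J.image f).card ≤ J.card := card_image_le
    have hsd := le_card_sdiff (J.image f) Q₁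
    have hsub : Q₁ \ (J.erase p).image f ⊆ Q₁ \ J.image f := by
      intro z hz
      rw [mem_sdiff] at hz ⊢
      refine ⟨hz.1, fun h => ?_⟩
      obtain ⟨v, hv, hvz⟩ := mem_image.1 h
      by_cases h' : v = p
      · rw [h', hfp] at hvz
        exact hp' (hvz ▸ hz.1)
      · exact hz.2 (mem_image.2 ⟨v, mem_erase.2 ⟨h', hv⟩, hvz⟩)
    have h3 : 3 ≤ (Q₁ \ J.image f).card := by
      have h4 := card_le_card hsub
      have h5 := le_card_sdiff ((J.erase p).image f) Q₁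
      have h6 : ((J.erase p).image f).card ≤ (J.erase p).card := card_image_le
      have h7 : (J.erase p).card ≤ (I.erase p).card := card_le_card (erase_subset_erase p hJI)
      have h8 : (I.erase p).card = s - 1 := by rw [card_erase_of_mem hpI, hIc]
      omega
    exact comb J f (fun v hv => ((hIm v).1 (hJI hv)).2) (hf3.mono (coe_subset.2 hJI))
      (fun v hv hv' => hf2 v (hJI hv) (hJI hv')) (fun v hv => (hf1 v (hJI hv)).1) hJ0 hJs
      (by omega) h3
  -- the unique possible neighbour of `w₀` in `Q₁`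
  obtain ⟨y, hy⟩ : ∃ y, Q₁ \ B = {y} := by
    rw [← card_eq_one, card_sdiff_of_subset hBQ]
    omega
  have hyQ : y ∈ Q₁ ∧ y ∉ B := by
    rw [← mem_sdiff, hy]
    exact mem_singleton_self y
  have hyu : ∀ q ∈ Q₁, G.Adj w₀ q → q = y := by
    intro q hq hadj
    have h1 : q ∈ Q₁ \ B := mem_sdiff.2 ⟨hq, fun h => hBn q h hadj⟩
    rw [hy] at h1
    exact mem_singleton.1 h1
  -- the exceptional vertex of `Q₁`
  obtain ⟨qs, hqs⟩ : ∃ qs, ∀ v, v ∉ Q₁ → v ≠ w₀ → ∀ q ∈ Q₁, q ≠ qs → G.Adj v q := by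
    by_cases hex : ∃ v q, v ∉ Q₁ ∧ v ≠ w₀ ∧ q ∈ Q₁ ∧ ¬ G.Adj v q
    · obtain ⟨v1, q1, h1, h2, h3, h4⟩ := hex
      refine ⟨q1, fun v hv hvw q hq hqq => ?_⟩
      by_contra hadj
      have hvq : v ≠ q := fun h => hv (h ▸ hq)
      have h1q : v1 ≠ q1 := fun h => h1 (h ▸ h3)
      have h5 := hne v q v1 q1 hvq hadj (ns1 v q hvw (hQw q hq)) h1q h4 (ns1 v1 q1 h2 (hQw q1 h3))
      rw [Sym2.eq_iff] at h5
      rcases h5 with ⟨_, h6⟩ | ⟨h6, _⟩
      · exact hqq h6
      · exact hv (h6 ▸ h3)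
    · refine ⟨w₀, fun v hv hvw q hq _ => ?_⟩
      by_contra hadj
      exact hex ⟨v, q, hv, hvw, hq, hadj⟩
  -- the star
  have hstar : (∃ q0, ∀ v q, v ∉ Q₁ → q ∈ Q₁ → G.Adj v q → c s(v, q) = x → q = q0) ∨
      ∃ p0, p0 ∉ Q₁ ∧ p0 ≠ w₀ ∧ ∀ v q, v ∉ Q₁ → q ∈ Q₁ → G.Adj v q → c s(v, q) = x → v = p0 := by
    by_cases h1 : ∃ v q, v ∉ Q₁ ∧ q ∈ Q₁ ∧ G.Adj v q ∧ c s(v, q) = x
    · obtain ⟨v1, q1, a1, a2, a3, a4⟩ := h1
      by_cases h2 : ∀ v q, v ∉ Q₁ → q ∈ Q₁ → G.Adj v q → c s(v, q) = x → q = q1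
      · exact Or.inl ⟨q1, h2⟩
      · push Not at h2
        obtain ⟨v2, q2, b1, b2, b3, b4, b5⟩ := h2
        have hv12 : v1 = v2 := (hA v1 v2 q1 q2 a1 b1 a2 b2 a3 a4 b3 b4).resolve_right (Ne.symm b5)
        have hall : ∀ v q, v ∉ Q₁ → q ∈ Q₁ → G.Adj v q → c s(v, q) = x → v = v1 := by
          intro v q c1 c2 c3 c4
          by_contra hv
          have e1 := (hA v v1 q q1 c1 a1 c2 a2 c3 c4 a3 a4).resolve_left hv
          have e2 := (hA v v2 q q2 c1 b1 c2 b2 c3 c4 b3 b4).resolve_left (hv12 ▸ hv)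
          exact b5 (e2.symm.trans e1)
        by_cases h3 : v1 = w₀
        · refine Or.inl ⟨y, fun v q c1 c2 c3 c4 => ?_⟩
          have h4 := hall v q c1 c2 c3 c4
          rw [h4, h3] at c3
          exact hyu q c2 c3
        · exact Or.inr ⟨v1, a1, h3, hall⟩
    · refine Or.inl ⟨w₀, fun v q c1 c2 c3 c4 => ?_⟩
      exact absurd ⟨v, q, c1, c2, c3, c4⟩ h1
  have hcQ : ∀ a b : V, Q₁.card ≤ ((Q₁.erase a).erase b).card + 2 := by
    intro a b
    have h1 := pred_card_le_card_erase (s := Q₁) (a := a)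
    have h2 := pred_card_le_card_erase (s := Q₁.erase a) (a := b)
    omega
  have hcP : ∀ a b : V, a ∉ Q₁ → b ∉ Q₁ → a ≠ b → ((Q₁ᶜ.erase a).erase b).card = s - 1 := by
    intro a b ha hb hab
    rw [card_erase_of_mem (mem_erase.2 ⟨hab.symm, mem_compl.2 hb⟩),
      card_erase_of_mem (mem_compl.2 ha), hPc]
    omega
  rcases hstar with ⟨q0, hq0⟩ | ⟨p0, hp0, hp0w, hstar⟩
  · -- centre in `Q₁`
    obtain ⟨p1, hp1, hp1w, hadj⟩ : ∃ p1, p1 ∉ Q₁ ∧ p1 ≠ w₀ ∧ G.Adj w₀ p1 := by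
      have h1 : 1 < (Q₁ᶜ.erase w₀).card := by
        rw [card_erase_of_mem (mem_compl.2 hw), hPc]
        omega
      obtain ⟨a, ha, b, hb, hab⟩ := one_lt_card.1 h1
      rw [mem_erase, mem_compl] at ha hb
      by_contra hcon
      push Not at hcon
      have h2 := hne w₀ a w₀ b (Ne.symm ha.1) (hcon a ha.2 ha.1) (ns2 a fun h => ha.2 (hBQ h))
        (Ne.symm hb.1) (hcon b hb.2 hb.1) (ns2 b fun h => hb.2 (hBQ h))
      rw [Sym2.eq_iff] at h2
      rcases h2 with ⟨_, h3⟩ | ⟨h3, _⟩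
      · exact hab h3
      · exact hb.1 h3.symm
    have hc1 := hcQ q0 qs
    have hc2 := hcP w₀ p1 hw hp1 (Ne.symm hp1w)
    obtain ⟨g, hg1, hg2⟩ := exists_inj ((Q₁ᶜ.erase w₀).erase p1) ((Q₁.erase q0).erase qs) (by omega)
    refine win w₀ p1 hw hp1 hadj g ?_ ?_
    · rintro v ⟨h1, h2, h3⟩ v' ⟨h1', h2', h3'⟩ he
      exact hg1 (mem_coe.2 (mem_erase.2 ⟨h3, mem_erase.2 ⟨h2, mem_compl.2 h1⟩⟩))
        (mem_coe.2 (mem_erase.2 ⟨h3', mem_erase.2 ⟨h2', mem_compl.2 h1'⟩⟩)) he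
    · intro v h1 h2 h3
      have h4 := hg2 v (mem_erase.2 ⟨h3, mem_erase.2 ⟨h2, mem_compl.2 h1⟩⟩)
      rw [mem_erase, mem_erase] at h4
      have h5 := hqs v h1 h2 (g v) h4.2.2 h4.1
      exact ⟨h4.2.2, h5, fun h6 => h4.2.1 (hq0 v (g v) h1 h4.2.2 h5 h6)⟩
  · by_cases hadj : G.Adj w₀ p0
    · have hc1 := hcQ qs qs
      have hc2 := hcP w₀ p0 hw hp0 (Ne.symm hp0w)
      obtain ⟨g, hg1, hg2⟩ := exists_inj ((Q₁ᶜ.erase w₀).erase p0) ((Q₁.erase qs).erase qs)
        (by omega)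
      refine win w₀ p0 hw hp0 hadj g ?_ ?_
      · rintro v ⟨h1, h2, h3⟩ v' ⟨h1', h2', h3'⟩ he
        exact hg1 (mem_coe.2 (mem_erase.2 ⟨h3, mem_erase.2 ⟨h2, mem_compl.2 h1⟩⟩))
          (mem_coe.2 (mem_erase.2 ⟨h3', mem_erase.2 ⟨h2', mem_compl.2 h1'⟩⟩)) he
      · intro v h1 h2 h3
        have h4 := hg2 v (mem_erase.2 ⟨h3, mem_erase.2 ⟨h2, mem_compl.2 h1⟩⟩)
        rw [mem_erase, mem_erase] at h4
        have h5 := hqs v h1 h2 (g v) h4.2.2 h4.1
        exact ⟨h4.2.2, h5, fun h6 => h3 (hstar v (g v) h1 h4.2.2 h5 h6)⟩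
    · -- the exceptional non-edge is `{w₀, p0}`
      have hex : ∀ u v, u ≠ v → ¬ G.Adj u v → (∀ q ∈ B, s(u, v) ≠ s(w₀, q)) →
          s(u, v) = s(w₀, p0) := fun u v a b d =>
        hne u v w₀ p0 a b d (Ne.symm hp0w) hadj (ns2 p0 fun h => hp0 (hBQ h))
      have hall : ∀ v, v ∉ Q₁ → v ≠ w₀ → ∀ q ∈ Q₁, G.Adj v q := by
        intro v hv hvw q hq
        by_contra h
        have h1 := hex v q (fun h => hv (h ▸ hq)) h (ns1 v q hvw (hQw q hq))
        rw [Sym2.eq_iff] at h1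
        rcases h1 with ⟨h2, _⟩ | ⟨_, h2⟩
        · exact hvw h2
        · exact hQw q hq h2
      have hwy : G.Adj w₀ y := by
        by_contra h
        have h1 := hex w₀ y (Ne.symm (hQw y hyQ.1)) h (ns2 y hyQ.2)
        rw [Sym2.eq_iff] at h1
        rcases h1 with ⟨_, h2⟩ | ⟨h2, _⟩
        · exact hp0 (h2 ▸ hyQ.1)
        · exact hp0w h2.symm
      obtain ⟨p1, hp1, hp1w, hp10⟩ : ∃ p1, p1 ∉ Q₁ ∧ p1 ≠ w₀ ∧ p1 ≠ p0 := by
        have h1 : 0 < ((Q₁ᶜ.erase w₀).erase p0).card := by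
          rw [hcP w₀ p0 hw hp0 (Ne.symm hp0w)]
          omega
        obtain ⟨p1, hp1⟩ := card_pos.1 h1
        rw [mem_erase, mem_erase, mem_compl] at hp1
        exact ⟨p1, hp1.2.2, hp1.2.1, hp1.1⟩
      have hadj1 : G.Adj p0 p1 := by
        by_contra h
        have h1 := hex p0 p1 (Ne.symm hp10) h (ns1 p0 p1 hp0w hp1w)
        rw [Sym2.eq_iff] at h1
        rcases h1 with ⟨h2, _⟩ | ⟨_, h2⟩
        · exact hp0w h2
        · exact hp1w h2
      have hc1 := hcQ y y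
      have hc2 := hcP p0 p1 hp0 hp1 (Ne.symm hp10)
      obtain ⟨g, hg1, hg2⟩ := exists_inj ((Q₁ᶜ.erase p0).erase p1) ((Q₁.erase y).erase y) (by omega)
      have hgm : ∀ v, v ∉ Q₁ → v ≠ p0 → v ≠ p1 → g v ∈ Q₁ ∧ g v ≠ y := by
        intro v h1 h2 h3
        have h4 := hg2 v (mem_erase.2 ⟨h3, mem_erase.2 ⟨h2, mem_compl.2 h1⟩⟩)
        rw [mem_erase, mem_erase] at h4
        exact ⟨h4.2.2, h4.1⟩
      refine win p0 p1 hp0 hp1 hadj1 (fun v => if v = w₀ then y else g v) ?_ ?_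
      · rintro v ⟨h1, h2, h3⟩ v' ⟨h1', h2', h3'⟩ he
        by_cases hv : v = w₀ <;> by_cases hv' : v' = w₀
        · rw [hv, hv']
        · simp only [if_pos hv, if_neg hv'] at he
          exact absurd he.symm (hgm v' h1' h2' h3').2
        · simp only [if_neg hv, if_pos hv'] at he
          exact absurd he (hgm v h1 h2 h3).2
        · simp only [if_neg hv, if_neg hv'] at he
          exact hg1 (mem_coe.2 (mem_erase.2 ⟨h3, mem_erase.2 ⟨h2, mem_compl.2 h1⟩⟩))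
            (mem_coe.2 (mem_erase.2 ⟨h3', mem_erase.2 ⟨h2', mem_compl.2 h1'⟩⟩)) he
      · intro v h1 h2 h3
        by_cases hv : v = w₀
        · simp only [if_pos hv]
          rw [hv]
          refine ⟨hyQ.1, hwy, fun h6 => hp0w ?_⟩
          exact (hstar w₀ y hw hyQ.1 hwy h6).symm
        · simp only [if_neg hv]
          have h4 := hgm v h1 h2 h3
          have h5 := hall v h1 hv (g v) h4.1
          exact ⟨h4.1, h5, fun h6 => h2 (hstar v (g v) h1 h4.1 h5 h6)⟩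

end Pool.Agent.H621.ZM.Finish2
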