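import Pool.Agent.H621.ZM.Spec2

/-!
FINISH5 (helper101): a monochromatic set of `2 s - 1` vertices gives a zero sum, `s ≥ 5`.
-/

set_option autoImplicit false
set_option linter.unusedSectionVars false

namespace Pool.Agent.H621.ZM.Finish5

open Finset
open scoped Classical

section count

variable {V : Type} [Fintype V] [DecidableEq V] (G : SimpleGraph V)

/-- indicator of a non-edge -/
noncomputable def na (u v : V) : ℕ := if u ≠ v ∧ ¬ G.Adj u v then 1 else 0

/-- ordered non-edges between `A` and `B` -/
noncomputable def W (A B : Finset V) : ℕ := ∑ u ∈ A, ∑ v ∈ B, na G u v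

variable {G}

theorem na_symm (u v : V) : na G u v = na G v u := by
  unfold na
  have h : (u ≠ v ∧ ¬ G.Adj u v) ↔ (v ≠ u ∧ ¬ G.Adj v u) := by
    rw [G.adj_comm u v, ne_comm]
  by_cases h1 : u ≠ v ∧ ¬ G.Adj u v
  · rw [if_pos h1, if_pos (h.1 h1)]
  · rw [if_neg h1, if_neg (fun h2 => h1 (h.2 h2))]

theorem na_self (u : V) : na G u u = 0 := by
  unfold na
  rw [if_neg]
  exact fun h => h.1 rfl

theorem na_adj {u v : V} (h : G.Adj u v) : na G u v = 0 := by
  unfold na
  rw [if_neg]
  exact fun h' => h'.2 h

theorem na_one {u v : V} (h : u ≠ v) (h' : ¬ G.Adj u v) : na G u v = 1 := by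
  unfold na
  rw [if_pos ⟨h, h'⟩]

theorem na_le (u v : V) : na G u v ≤ 1 := by
  unfold na
  split_ifs <;> omega

theorem W_mono {A A' B B' : Finset V} (hA : A ⊆ A') (hB : B ⊆ B') : W G A B ≤ W G A' B' := by
  unfold W
  exact (Finset.sum_le_sum fun u _ => Finset.sum_le_sum_of_subset hB).trans
    (Finset.sum_le_sum_of_subset hA)

theorem W_univ : W G univ univ = 2 * miss G := by
  have h := (Gᶜ).sum_degrees_eq_twice_card_edges
  have h1 : ∀ u : V, ∑ v : V, na G u v = (Gᶜ).degree u := by
    intro u
    rw [← SimpleGraph.card_neighborFinset_eq_degree, SimpleGraph.neighborFinset_eq_filter,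
      Finset.card_filter]
    refine Finset.sum_congr rfl fun v _ => ?_
    unfold na
    by_cases h2 : u ≠ v ∧ ¬ G.Adj u v
    · rw [if_pos h2, if_pos]
      rw [SimpleGraph.compl_adj]
      exact h2
    · rw [if_neg h2, if_neg]
      rw [SimpleGraph.compl_adj]
      exact h2
  unfold W
  rw [Finset.sum_congr rfl fun u _ => h1 u, h]
  unfold miss
  rw [← SimpleGraph.coe_edgeFinset, Set.ncard_coe_finset]

theorem W_ncard (U : Finset V) :
    {p : V × V | p.1 ∈ U ∧ p.2 ∈ U ∧ p.1 ≠ p.2 ∧ ¬ G.Adj p.1 p.2}.ncard = W G U U := by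
  have h : {p : V × V | p.1 ∈ U ∧ p.2 ∈ U ∧ p.1 ≠ p.2 ∧ ¬ G.Adj p.1 p.2} =
      (((U ×ˢ U).filter (fun p => p.1 ≠ p.2 ∧ ¬ G.Adj p.1 p.2) : Finset (V × V)) : Set (V × V)) := by
    ext p
    rw [Set.mem_ofPred_eq, Finset.mem_coe, Finset.mem_filter, Finset.mem_product]
    tauto
  rw [h, Set.ncard_coe_finset, Finset.card_filter, Finset.sum_product]
  rfl

/-- a complete bipartite set of non-edges -/
theorem bip {A B : Finset V} (hd : Disjoint A B) (h : ∀ a ∈ A, ∀ b ∈ B, ¬ G.Adj a b) :
    A.card * B.card ≤ miss G := by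
  have h1 : W G A B = A.card * B.card := by
    unfold W
    rw [Finset.sum_congr rfl fun a ha => Finset.sum_congr rfl fun b hb =>
      na_one (Finset.disjoint_iff_ne.1 hd a ha b hb) (h a ha b hb)]
    simp
  have h2 : W G B A = A.card * B.card := by
    rw [← h1]
    unfold W
    rw [Finset.sum_comm]
    exact Finset.sum_congr rfl fun a _ => Finset.sum_congr rfl fun b _ => na_symm b a
  have h3 : W G A B + W G B A ≤ W G (A ∪ B) (A ∪ B) := by
    have h4 : W G (A ∪ B) (A ∪ B) =
        (W G A A + W G A B) + (W G B A + W G B B) := by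
      unfold W
      rw [Finset.sum_union hd, ← Finset.sum_add_distrib, ← Finset.sum_add_distrib]
      refine congrArg₂ (· + ·) ?_ ?_
      · exact Finset.sum_congr rfl fun a _ => Finset.sum_union hd
      · exact Finset.sum_congr rfl fun a _ => Finset.sum_union hd
    omega
  have h5 := W_mono (G := G) (Finset.subset_univ (A ∪ B)) (Finset.subset_univ (A ∪ B))
  rw [W_univ] at h5
  omega

theorem W_two {w a : V} {U : Finset V} (hw : w ∉ insert a U) (ha : a ∉ U) (hwa : G.Adj w a) :
    W G (insert w (insert a U)) (insert w (insert a U)) =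
      W G U U + 2 * (∑ v ∈ insert w (insert a U), na G w v) +
        2 * (∑ v ∈ insert w (insert a U), na G a v) := by
  have h1 : ∀ u, ∑ v ∈ insert w (insert a U), na G u v =
      na G u w + (na G u a + ∑ v ∈ U, na G u v) := by
    intro u
    rw [Finset.sum_insert hw, Finset.sum_insert ha]
  unfold W
  rw [Finset.sum_insert hw, Finset.sum_insert ha, h1 w, h1 a,
    Finset.sum_congr rfl fun u (_ : u ∈ U) => h1 u, Finset.sum_add_distrib,
    Finset.sum_add_distrib, na_self, na_self, na_adj hwa, na_adj hwa.symm,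
    Finset.sum_congr rfl fun u (_ : u ∈ U) => na_symm u w,
    Finset.sum_congr rfl fun u (_ : u ∈ U) => na_symm u a]
  ring

/-- few non-edges if no edge sees four non-edges -/
theorem few {R : Finset V} (hR : 8 ≤ R.card) (hn : ∀ w ∈ R, ∃ a ∈ R, G.Adj w a)
    (h : ∀ w ∈ R, ∀ a ∈ R, G.Adj w a → ∑ v ∈ R, na G w v + ∑ v ∈ R, na G a v ≤ 3) :
    W G R R < 2 * (R.card - 1) := by
  obtain ⟨w, hw, hmax⟩ := Finset.exists_max_image R (fun u => ∑ v ∈ R, na G u v)
    (Finset.card_pos.1 (by omega))
  obtain ⟨a, ha, hwa⟩ := hn w hw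
  set D := ∑ v ∈ R, na G w v with hD
  have hD3 : D ≤ 3 := by
    have := h w hw a ha hwa
    omega
  have hbd : ∀ u ∈ R, ∑ v ∈ R, na G u v ≤
      min D (3 - D) + (D - min D (3 - D)) * (if u = w then 1 else 0) +
        (D - min D (3 - D)) * na G w u := by
    intro u hu
    have h1 : ∑ v ∈ R, na G u v ≤ D := hmax u hu
    by_cases huw : u = w
    · rw [if_pos huw]
      have : min D (3 - D) ≤ D := min_le_left _ _
      omega
    · rw [if_neg huw]
      by_cases had : G.Adj w u
      · have h2 := h w hw u hu had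
        have h3 : ∑ v ∈ R, na G u v ≤ min D (3 - D) := le_min h1 (by omega)
        omega
      · rw [na_one (fun h' => huw h'.symm) had]
        have : min D (3 - D) ≤ D := min_le_left _ _
        omega
  have hsum : W G R R ≤ R.card * min D (3 - D) + (D - min D (3 - D)) * 1 +
      (D - min D (3 - D)) * D := by
    unfold W
    refine (Finset.sum_le_sum hbd).trans ?_
    rw [Finset.sum_add_distrib, Finset.sum_add_distrib, Finset.sum_const, smul_eq_mul,
      ← Finset.mul_sum, ← Finset.mul_sum, Finset.sum_ite_eq' R w (fun _ => 1), if_pos hw]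
  interval_cases D
  · simp at hsum
    omega
  · norm_num at hsum
    omega
  · norm_num at hsum
    omega
  · norm_num at hsum
    omega

end count

section match'

variable {V : Type} [DecidableEq V] {G : SimpleGraph V}

theorem union_isM {A B : Finset (Sym2 V)} (hA : IsM G A) (hB : IsM G B)
    (hd : ∀ e ∈ A, ∀ f ∈ B, ∀ v ∈ e, v ∉ f) : IsM G (A ∪ B) ∧ Disjoint A B := by
  constructor
  · constructor
    · intro e he
      rcases Finset.mem_union.1 he with h | h
      · exact hA.1 e h
      · exact hB.1 e h
    · intro e he f hf hef v hv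
      rcases Finset.mem_union.1 he with h | h <;> rcases Finset.mem_union.1 hf with h' | h'
      · exact hA.2 e h f h' hef v hv
      · exact hd e h f h' v hv
      · intro hvf
        exact hd f h' e h v hvf hv
      · exact hB.2 e h f h' hef v hv
  · rw [Finset.disjoint_left]
    intro e he he'
    induction e with
    | _ a b =>
      exact hd _ he _ he' a (Sym2.mem_mk_left a b) (Sym2.mem_mk_left a b)

end match'

/-- zero-sum subsets -/
theorem davenport {V : Type} [DecidableEq V] (s : ℕ) (hs : 1 ≤ s) (P : Finset V)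
    (hP : P.card = s) (g : V → ZMod s) : ∃ J, J ⊆ P ∧ J.Nonempty ∧ ∑ p ∈ J, g p = 0 := by
  have : NeZero s := ⟨by omega⟩
  let e : Fin s ≃ P := (P.equivFinOfCardEq hP).symm
  let S : Fin (s + 1) → ZMod s := fun k =>
    ∑ i ∈ (Finset.univ : Finset (Fin s)).filter (fun i : Fin s => (i : ℕ) < (k : ℕ)), g (e i)
  have hcard : Fintype.card (ZMod s) < Fintype.card (Fin (s + 1)) := by
    rw [ZMod.card, Fintype.card_fin]
    omega
  obtain ⟨a, b, hab, hS⟩ := Fintype.exists_ne_map_eq_of_card_lt S hcard
  have key : ∀ a b : Fin (s + 1), a < b → S a = S b →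
      ∃ J, J ⊆ P ∧ J.Nonempty ∧ ∑ p ∈ J, g p = 0 := by
    intro a b hab hS
    set T := (Finset.univ : Finset (Fin s)).filter (fun i : Fin s => (a : ℕ) ≤ (i : ℕ) ∧ (i : ℕ) < (b : ℕ))
      with hT
    have hinj : Function.Injective (fun i : Fin s => ((e i : P) : V)) := by
      intro i j hij
      exact e.injective (Subtype.ext hij)
    refine ⟨T.image (fun i => ((e i : P) : V)), ?_, ?_, ?_⟩
    · intro p hp
      obtain ⟨i, _, rfl⟩ := Finset.mem_image.1 hp
      exact (e i).2
    · have hab' : (a : ℕ) < (b : ℕ) := hab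
      have hb := b.2
      refine Finset.Nonempty.image ⟨⟨(a : ℕ), by omega⟩, ?_⟩ _
      rw [hT, Finset.mem_filter]
      exact ⟨Finset.mem_univ _, le_rfl, hab'⟩
    · rw [Finset.sum_image (fun i _ j _ hij => hinj hij)]
      have hsplit : (Finset.univ : Finset (Fin s)).filter (fun i : Fin s => (i : ℕ) < (b : ℕ)) =
          (Finset.univ : Finset (Fin s)).filter (fun i : Fin s => (i : ℕ) < (a : ℕ)) ∪ T := by
        ext i
        have hab' : (a : ℕ) < (b : ℕ) := hab
        rw [Finset.mem_union, hT, Finset.mem_filter, Finset.mem_filter, Finset.mem_filter]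
        constructor
        · rintro ⟨h1, h2⟩
          rcases lt_or_ge (i : ℕ) (a : ℕ) with h | h
          · exact Or.inl ⟨h1, h⟩
          · exact Or.inr ⟨h1, h, h2⟩
        · rintro (⟨h1, h2⟩ | ⟨h1, _, h2⟩)
          · exact ⟨h1, h2.trans hab'⟩
          · exact ⟨h1, h2⟩
      have hdisj : Disjoint ((Finset.univ : Finset (Fin s)).filter (fun i : Fin s => (i : ℕ) < (a : ℕ)))
          T := by
        rw [Finset.disjoint_left]
        intro i h1 h2
        rw [hT, Finset.mem_filter] at h2
        rw [Finset.mem_filter] at h1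
        omega
      have h3 : S b = S a + ∑ i ∈ T, g (e i) := by
        show ∑ i ∈ (Finset.univ : Finset (Fin s)).filter (fun i : Fin s => (i : ℕ) < (b : ℕ)), g (e i) =
          ∑ i ∈ (Finset.univ : Finset (Fin s)).filter (fun i : Fin s => (i : ℕ) < (a : ℕ)), g (e i) +
            ∑ i ∈ T, g (e i)
        rw [hsplit, Finset.sum_union hdisj]
      rw [hS] at h3
      exact (left_eq_add.1 h3)
  rcases lt_or_gt_of_ne hab with h | h
  · exact key a b h hS
  · exact key b a h hS.symm

/-- Hall's condition -/
theorem hall {V : Type} [Fintype V] [DecidableEq V] (G : SimpleGraph V) (s : ℕ) (Q : Finset V)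
    (hs : 5 ≤ s) (hV : Fintype.card V + 1 = 3 * s) (hQ : Q.card + 1 = 2 * s)
    (hm : miss G + 2 ≤ 2 * s) :
    ∃ f : V → V, (∀ p, p ∉ Q → f p ∈ Q ∧ G.Adj p (f p)) ∧
      ∀ p p', p ∉ Q → p' ∉ Q → f p = f p' → p = p' := by
  have hall' : ∀ P0 : Finset {v : V // v ∉ Q},
      P0.card ≤ (P0.biUnion fun p => Q.filter (fun q => G.Adj (p : V) q)).card := by
    intro P0
    by_contra hc
    rw [not_le] at hc
    set N := P0.biUnion fun p => Q.filter (fun q => G.Adj (p : V) q) with hN
    have hNQ : N ⊆ Q := by
      intro q hq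
      rw [hN, Finset.mem_biUnion] at hq
      obtain ⟨p, _, hp⟩ := hq
      exact (Finset.mem_filter.1 hp).1
    set A := P0.map (Function.Embedding.subtype _) with hA
    have hAQ : ∀ a ∈ A, a ∉ Q := by
      intro a ha
      rw [hA, Finset.mem_map] at ha
      obtain ⟨p, _, rfl⟩ := ha
      exact p.2
    have hAc : A.card = P0.card := Finset.card_map _
    have hd : Disjoint A (Q \ N) := by
      rw [Finset.disjoint_left]
      intro a ha hq
      exact hAQ a ha (Finset.mem_sdiff.1 hq).1
    have hna : ∀ a ∈ A, ∀ b ∈ Q \ N, ¬ G.Adj a b := by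
      intro a ha b hb hab
      rw [hA, Finset.mem_map] at ha
      obtain ⟨p, hp, rfl⟩ := ha
      rw [Finset.mem_sdiff] at hb
      refine hb.2 ?_
      rw [hN, Finset.mem_biUnion]
      exact ⟨p, hp, Finset.mem_filter.2 ⟨hb.1, hab⟩⟩
    have h1 := bip hd hna
    rw [hAc, Finset.card_sdiff_of_subset hNQ] at h1
    have h2 : P0.card ≤ s := by
      have h3 : Disjoint A Q := by
        rw [Finset.disjoint_left]
        exact hAQ
      have h4 := Finset.card_le_univ (A ∪ Q)
      rw [Finset.card_union_of_disjoint h3, hAc] at h4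
      omega
    have h5 : N.card ≤ Q.card := Finset.card_le_card hNQ
    obtain ⟨k, hk⟩ : ∃ k, P0.card = k + 1 := ⟨P0.card - 1, by omega⟩
    obtain ⟨t, ht⟩ : ∃ t, Q.card - N.card = t + (2 * s - 1 - k) := by
      refine ⟨Q.card - N.card - (2 * s - 1 - k), ?_⟩
      omega
    rw [hk, ht] at h1
    obtain ⟨r, hr⟩ : ∃ r, s = k + 1 + r := ⟨s - (k + 1), by omega⟩
    have h6 : 2 * s - 1 - k = k + 1 + 2 * r := by omega
    rw [h6] at h1
    nlinarith
  obtain ⟨f, hf1, hf2⟩ := (Finset.all_card_le_biUnion_card_iff_exists_injective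
    (fun p : {v : V // v ∉ Q} => Q.filter (fun q => G.Adj (p : V) q))).1 hall'
  refine ⟨fun v => if h : v ∉ Q then f ⟨v, h⟩ else v, ?_, ?_⟩
  · intro p hp
    have h := Finset.mem_filter.1 (hf2 ⟨p, hp⟩)
    simp only [hp, not_false_eq_true, dif_pos]
    exact h
  · intro p p' hp hp' h
    simp only [hp, hp', not_false_eq_true, dif_pos] at h
    exact Subtype.ext_iff.1 (hf1 h)

theorem finish5 : S_Finish2 → S_NearU → S_Finish5 := by
  intro hF2 hNU V _ _ G s c x Q hs hV hQ hm hcol
  by_cases hcase : ∃ w₀ ∈ Q, 2 * s - 3 ≤ ((Q.erase w₀).filter (fun q => ¬ G.Adj w₀ q)).card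
  · obtain ⟨w₀, hw₀, hge⟩ := hcase
    obtain ⟨B, hB1, hB2⟩ := Finset.exists_subset_card_eq hge
    refine hF2 V G s c x w₀ (Q.erase w₀) (by omega) hV ?_ (Finset.notMem_erase _ _) hm
      ⟨B, hB1.trans (Finset.filter_subset _ _), by omega, fun q hq =>
        (Finset.mem_filter.1 (hB1 hq)).2⟩ ?_
    · rw [Finset.card_erase_of_mem hw₀]
      omega
    · intro a ha b hb hab
      exact hcol a (Finset.mem_of_mem_erase ha) b (Finset.mem_of_mem_erase hb) hab
  simp only [not_exists, not_and, not_le] at hcase
  obtain ⟨f, hf1, hf2⟩ := hall G s Q hs hV hQ hm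
  have hPc : (Finset.univ \ Q).card = s := by
    rw [Finset.card_sdiff_of_subset (Finset.subset_univ _), Finset.card_univ]
    omega
  obtain ⟨J, hJP, hJne, hJ0⟩ := davenport s (by omega) (Finset.univ \ Q) hPc
    (fun p => c s(p, f p) - x)
  have hJQ : ∀ p ∈ J, p ∉ Q := fun p hp => (Finset.mem_sdiff.1 (hJP hp)).2
  have hJs : J.card ≤ s := by
    rw [← hPc]
    exact Finset.card_le_card hJP
  have hJ1 : 1 ≤ J.card := hJne.card_pos
  set R := Q \ J.image f with hR
  have hfJ : J.image f ⊆ Q := by
    intro q hq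
    obtain ⟨p, hp, rfl⟩ := Finset.mem_image.1 hq
    exact (hf1 p (hJQ p hp)).1
  have hfinj : Set.InjOn f (J : Set V) := by
    intro p hp p' hp' h
    exact hf2 p p' (hJQ p (Finset.mem_coe.1 hp)) (hJQ p' (Finset.mem_coe.1 hp')) h
  have hfJc : (J.image f).card = J.card := Finset.card_image_of_injOn hfinj
  have hRc : R.card + J.card + 1 = 2 * s := by
    rw [hR, Finset.card_sdiff_of_subset hfJ, hfJc]
    omega
  have hRQ : R ⊆ Q := Finset.sdiff_subset
  -- a matching inside `R`
  have hMR : ∃ F, IsM G F ∧ F.card = s - J.card ∧ ∀ e ∈ F, ∀ v ∈ e, v ∈ R := by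
    have hWle : W G R R ≤ 2 * miss G := by
      rw [← W_univ]
      exact W_mono (Finset.subset_univ _) (Finset.subset_univ _)
    rcases eq_or_lt_of_le hJs with hj | hj
    · refine ⟨∅, ⟨fun e he => absurd he (Finset.notMem_empty _),
        fun e he => absurd he (Finset.notMem_empty _)⟩, ?_,
        fun e he => absurd he (Finset.notMem_empty _)⟩
      rw [Finset.card_empty]
      omega
    · rcases Nat.lt_or_ge 1 J.card with hj2 | hj2
      · refine hNU V G R (s - J.card) J.card (by omega) hJ1 ?_
        rw [W_ncard]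
        have h1 : W G R R ≤ 4 * s - 4 := by omega
        have h2 : R.card - 1 = 2 * s - 2 - J.card := by omega
        rw [h2]
        refine lt_of_le_of_lt h1 ?_
        obtain ⟨u, hu⟩ : ∃ u, J.card = u + 2 := ⟨J.card - 2, by omega⟩
        obtain ⟨r, hr⟩ : ∃ r, s = J.card + 1 + r := ⟨s - (J.card + 1), by omega⟩
        have h3 : 2 * s - 2 - J.card = J.card + 2 * r := by omega
        rw [h3]
        have h4 : 4 * s - 4 = 4 * (J.card + r) := by omega
        rw [h4, hu]
        have h5 : 5 ≤ u + 3 + r := by omega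
        nlinarith [Nat.zero_le (u * r), Nat.zero_le (u * u)]
      · have hj1 : J.card = 1 := le_antisymm hj2 hJ1
        have hRc2 : R.card + 2 = 2 * s := by omega
        have hnbr : ∀ w ∈ R, ∃ a ∈ R, G.Adj w a := by
          intro w hw
          by_contra hc
          simp only [not_exists, not_and] at hc
          have h1 := hcase w (hRQ hw)
          have h2 : R.erase w ⊆ (Q.erase w).filter (fun q => ¬ G.Adj w q) := by
            intro q hq
            rw [Finset.mem_erase] at hq
            rw [Finset.mem_filter, Finset.mem_erase]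
            exact ⟨⟨hq.1, hRQ hq.2⟩, hc q hq.2⟩
          have h3 := Finset.card_le_card h2
          rw [Finset.card_erase_of_mem hw] at h3
          omega
        by_cases hed : ∃ w ∈ R, ∃ a ∈ R, G.Adj w a ∧
            4 ≤ ∑ v ∈ R, na G w v + ∑ v ∈ R, na G a v
        · obtain ⟨w, hw, a, ha, hwa, h4⟩ := hed
          have hne : w ≠ a := hwa.ne
          set U := (R.erase w).erase a with hU
          have haw : a ∈ R.erase w := Finset.mem_erase.2 ⟨hne.symm, ha⟩
          have hRU : insert w (insert a U) = R := by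
            rw [hU, Finset.insert_erase haw, Finset.insert_erase hw]
          have haU : a ∉ U := Finset.notMem_erase _ _
          have hwU : w ∉ insert a U := by
            rw [hU, Finset.insert_erase haw]
            exact Finset.notMem_erase _ _
          have hW2 := W_two hwU haU hwa
          rw [hRU] at hW2
          have hUc : U.card + 2 = R.card := by
            rw [hU, Finset.card_erase_of_mem haw, Finset.card_erase_of_mem hw]
            omega
          obtain ⟨F, hF1, hF2', hF3⟩ := hNU V G U (s - 2) 1 (by omega) le_rfl (by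
            rw [W_ncard]
            omega)
          have hsing : IsM G {s(w, a)} := by
            constructor
            · intro e he
              rw [Finset.mem_singleton] at he
              rw [he]
              exact hwa
            · intro e he e' he' hne'
              rw [Finset.mem_singleton] at he he'
              exact absurd (he.trans he'.symm) hne'
          have hun := union_isM hsing hF1 (by
            intro e he e' he' v hv hv'
            rw [Finset.mem_singleton] at he
            rw [he, Sym2.mem_iff] at hv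
            have h5 := hF3 e' he' v hv'
            rcases hv with rfl | rfl
            · exact hwU (Finset.mem_insert_of_mem h5)
            · exact haU h5)
          refine ⟨{s(w, a)} ∪ F, hun.1, ?_, ?_⟩
          · rw [Finset.card_union_of_disjoint hun.2, Finset.card_singleton, hF2']
            omega
          · intro e he v hv
            rcases Finset.mem_union.1 he with h | h
            · rw [Finset.mem_singleton] at h
              rw [h, Sym2.mem_iff] at hv
              rcases hv with rfl | rfl
              · exact hw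
              · exact ha
            · have h5 := hF3 e h v hv
              rw [hU] at h5
              exact Finset.mem_of_mem_erase (Finset.mem_of_mem_erase h5)
        · have hfew := few (G := G) (R := R) (by omega) hnbr (by
            intro w hw a ha hwa
            by_contra hc
            exact hed ⟨w, hw, a, ha, hwa, by omega⟩)
          obtain ⟨F, hF1, hF2', hF3⟩ := hNU V G R (s - 1) 1 (by omega) le_rfl (by
            rw [W_ncard]
            exact hfew)
          exact ⟨F, hF1, by omega, hF3⟩
  obtain ⟨F, hF1, hFc, hFR⟩ := hMR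
  -- the edges `p f(p)`
  have hE : IsM G (J.image fun p => s(p, f p)) := by
    constructor
    · intro e he
      obtain ⟨p, hp, rfl⟩ := Finset.mem_image.1 he
      exact (hf1 p (hJQ p hp)).2
    · intro e he e' he' hne v hv hv'
      obtain ⟨p, hp, rfl⟩ := Finset.mem_image.1 he
      obtain ⟨p', hp', rfl⟩ := Finset.mem_image.1 he'
      have hpp : p ≠ p' := by
        rintro rfl
        exact hne rfl
      rw [Sym2.mem_iff] at hv hv'
      have h1 := (hf1 p (hJQ p hp)).1
      have h2 := (hf1 p' (hJQ p' hp')).1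
      rcases hv with rfl | rfl <;> rcases hv' with h | h
      · exact hpp h
      · exact hJQ v hp (h ▸ h2)
      · exact hJQ p' hp' (h ▸ h1)
      · exact hpp (hf2 p p' (hJQ p hp) (hJQ p' hp') h)
  have hinjE : Set.InjOn (fun p => s(p, f p)) (J : Set V) := by
    intro p hp p' hp' h
    have h1 : p ∈ s(p', f p') := by
      have h0 : s(p, f p) = s(p', f p') := h
      rw [← h0]
      exact Sym2.mem_mk_left _ _
    rw [Sym2.mem_iff] at h1
    rcases h1 with h1 | h1
    · exact h1
    · exfalso
      have h2 := (hf1 p' (hJQ p' (Finset.mem_coe.1 hp'))).1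
      rw [← h1] at h2
      exact hJQ p (Finset.mem_coe.1 hp) h2
  have hun := union_isM hE hF1 (by
    intro e he e' he' v hv hv'
    obtain ⟨p, hp, rfl⟩ := Finset.mem_image.1 he
    have h5 := hFR e' he' v hv'
    rw [hR, Finset.mem_sdiff] at h5
    rw [Sym2.mem_iff] at hv
    rcases hv with rfl | rfl
    · exact hJQ v hp h5.1
    · exact h5.2 (Finset.mem_image_of_mem f hp))
  refine ⟨(J.image fun p => s(p, f p)) ∪ F, hun.1, ?_, ?_⟩
  · rw [Finset.card_union_of_disjoint hun.2, Finset.card_image_of_injOn hinjE, hFc]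
    omega
  · rw [Finset.sum_union hun.2, Finset.sum_image (fun p hp p' hp' h => hinjE hp hp' h)]
    have h1 : ∑ e ∈ F, c e = ((s - J.card : ℕ) : ZMod s) * x := by
      rw [← hFc, ← nsmul_eq_mul, ← Finset.sum_const]
      refine Finset.sum_congr rfl fun e he => ?_
      have h2 := hF1.1 e he
      have h3 := hFR e he
      induction e with
      | _ a b =>
        exact hcol a (hRQ (h3 a (Sym2.mem_mk_left a b))) b (hRQ (h3 b (Sym2.mem_mk_right a b))) h2
    have h2 : ∑ p ∈ J, c s(p, f p) = (J.card : ZMod s) * x := by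
      rw [Finset.sum_sub_distrib, Finset.sum_const, nsmul_eq_mul, sub_eq_zero] at hJ0
      exact hJ0
    rw [h1, h2, ← add_mul, ← Nat.cast_add, Nat.add_sub_cancel' hJs, ZMod.natCast_self, zero_mul]

end Pool.Agent.H621.ZM.Finish5
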