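import Pool.Agent.H621.ZM.Spec2

/-!
Zero-sum matchings, the case `s = 4`: the last step (helper79).
-/

set_option autoImplicit false

namespace Pool.Agent.H621.ZM.FinishFour

open Finset Pool.Agent.H621.ZM

def allB (f : Bool → Bool) : Bool := f true && f false

theorem allB_elim {f : Bool → Bool} (h : allB f = true) (b : Bool) : f b = true := by
  unfold allB at h
  rw [Bool.and_eq_true] at h
  cases b
  · exact h.2
  · exact h.1

def im (a b : Bool) : Bool := cond a b true

theorem im_elim {a b : Bool} (h : im a b = true) (ha : a = true) : b = true := by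
  unfold im at h
  rwa [ha] at h

/-- the finite check -/
def six_body (b01 b02 b03 b04 b05 b12 b13 b14 b15 b23 b24 b25 b34 b35 b45 : Bool) : Bool :=
  im (b01 || b02 || b03 || b04 || b05) (
  im (b01 || b12 || b13 || b14 || b15) (
  im (b02 || b12 || b23 || b24 || b25) (
  im (b03 || b13 || b23 || b34 || b35) (
  im (b04 || b14 || b24 || b34 || b45) (
  im (b05 || b15 || b25 || b35 || b45) (
  im (b01 || b02 || b03 || b12 || b13 || b23) (
  im (b01 || b02 || b04 || b12 || b14 || b24) (
  im (b01 || b02 || b05 || b12 || b15 || b25) (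
  im (b01 || b03 || b04 || b13 || b14 || b34) (
  im (b01 || b03 || b05 || b13 || b15 || b35) (
  im (b01 || b04 || b05 || b14 || b15 || b45) (
  im (b02 || b03 || b04 || b23 || b24 || b34) (
  im (b02 || b03 || b05 || b23 || b25 || b35) (
  im (b02 || b04 || b05 || b24 || b25 || b45) (
  im (b03 || b04 || b05 || b34 || b35 || b45) (
  im (b12 || b13 || b14 || b23 || b24 || b34) (
  im (b12 || b13 || b15 || b23 || b25 || b35) (
  im (b12 || b14 || b15 || b24 || b25 || b45) (
  im (b13 || b14 || b15 || b34 || b35 || b45) (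
  im (b23 || b24 || b25 || b34 || b35 || b45) (
  im (Nat.ble (cond b01 0 1 + cond b02 0 1 + cond b03 0 1 + cond b04 0 1 + cond b05 0 1 + cond b12 0 1 + cond b13 0 1 + cond b14 0 1 + cond b15 0 1 + cond b23 0 1 + cond b24 0 1 + cond b25 0 1 + cond b34 0 1 + cond b35 0 1 + cond b45 0 1) 6) (
    (b01 && b23 && b45) ||
      (b01 && b24 && b35) ||
      (b01 && b25 && b34) ||
      (b02 && b13 && b45) ||
      (b02 && b14 && b35) ||
      (b02 && b15 && b34) ||
      (b03 && b12 && b45) ||
      (b03 && b14 && b25) ||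
      (b03 && b15 && b24) ||
      (b04 && b12 && b35) ||
      (b04 && b13 && b25) ||
      (b04 && b15 && b23) ||
      (b05 && b12 && b34) ||
      (b05 && b13 && b24) ||
      (b05 && b14 && b23)))))))))))))))))))))))

theorem six_chk : (allB fun b01 => allB fun b02 => allB fun b03 => allB fun b04 => allB fun b05 => allB fun b12 => allB fun b13 => allB fun b14 => allB fun b15 => allB fun b23 => allB fun b24 => allB fun b25 => allB fun b34 => allB fun b35 => allB fun b45 =>
    six_body b01 b02 b03 b04 b05 b12 b13 b14 b15 b23 b24 b25 b34 b35 b45) = true := by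
  decide +kernel

theorem six_dec (b01 b02 b03 b04 b05 b12 b13 b14 b15 b23 b24 b25 b34 b35 b45 : Bool) : six_body b01 b02 b03 b04 b05 b12 b13 b14 b15 b23 b24 b25 b34 b35 b45 = true := by
  have h := six_chk
  replace h := allB_elim h b01
  replace h := allB_elim h b02
  replace h := allB_elim h b03
  replace h := allB_elim h b04
  replace h := allB_elim h b05
  replace h := allB_elim h b12
  replace h := allB_elim h b13
  replace h := allB_elim h b14
  replace h := allB_elim h b15
  replace h := allB_elim h b23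
  replace h := allB_elim h b24
  replace h := allB_elim h b25
  replace h := allB_elim h b34
  replace h := allB_elim h b35
  replace h := allB_elim h b45
  exact h

/-- the finite check -/
def five_body (b01 b02 b03 b04 b12 b13 b14 b23 b24 b34 : Bool) : Bool :=
  im (b01 || b02 || b03 || b12 || b13 || b23) (
  im (b01 || b02 || b04 || b12 || b14 || b24) (
  im (b01 || b03 || b04 || b13 || b14 || b34) (
  im (b02 || b03 || b04 || b23 || b24 || b34) (
  im (b12 || b13 || b14 || b23 || b24 || b34) (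
  im (Nat.ble (cond b01 0 1 + cond b02 0 1 + cond b03 0 1 + cond b04 0 1 + cond b12 0 1 + cond b13 0 1 + cond b14 0 1 + cond b23 0 1 + cond b24 0 1 + cond b34 0 1) 6) (
    (b12 && b34) ||
      (b13 && b24) ||
      (b14 && b23) ||
      (b02 && b34) ||
      (b03 && b24) ||
      (b04 && b23) ||
      (b01 && b34) ||
      (b03 && b14) ||
      (b04 && b13) ||
      (b01 && b24) ||
      (b02 && b14) ||
      (b04 && b12) ||
      (b01 && b23) ||
      (b02 && b13) ||
      (b03 && b12)))))))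

theorem five_chk : (allB fun b01 => allB fun b02 => allB fun b03 => allB fun b04 => allB fun b12 => allB fun b13 => allB fun b14 => allB fun b23 => allB fun b24 => allB fun b34 =>
    five_body b01 b02 b03 b04 b12 b13 b14 b23 b24 b34) = true := by
  decide +kernel

theorem five_dec (b01 b02 b03 b04 b12 b13 b14 b23 b24 b34 : Bool) : five_body b01 b02 b03 b04 b12 b13 b14 b23 b24 b34 = true := by
  have h := five_chk
  replace h := allB_elim h b01
  replace h := allB_elim h b02
  replace h := allB_elim h b03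
  replace h := allB_elim h b04
  replace h := allB_elim h b12
  replace h := allB_elim h b13
  replace h := allB_elim h b14
  replace h := allB_elim h b23
  replace h := allB_elim h b24
  replace h := allB_elim h b34
  exact h


theorem cond_sum {α : Type} (g : α → Bool) (L : List α) :
    (L.map (fun p => cond (g p) 0 1)).sum = (L.filter (fun p => !g p)).length := by
  induction L with
  | nil => rfl
  | cons a L ih =>
    rw [List.map_cons, List.sum_cons, List.filter_cons, ih]
    cases h : g a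
    · simp [h]
      omega
    · simp [h]

theorem miss_ge {V : Type} [Fintype V] [DecidableEq V] {G : SimpleGraph V}
    (T : Finset (Sym2 V)) (h : ∀ e ∈ T, e ∈ Gᶜ.edgeSet) : T.card ≤ miss G := by
  unfold miss
  rw [← Set.ncard_coe_finset]
  exact Set.ncard_le_ncard h (Set.toFinite _)

theorem cntL {V : Type} [Fintype V] [DecidableEq V] {G : SimpleGraph V} [DecidableRel G.Adj]
    {n : ℕ} (v : Fin n → V) (hv : Function.Injective v) (L : List (Fin n × Fin n)) (hL : L.Nodup)
    (hlt : ∀ p ∈ L, p.1 < p.2) :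
    (L.map (fun p => cond (decide (G.Adj (v p.1) (v p.2))) 0 1)).sum ≤ miss G := by
  rw [cond_sum]
  have h1 : ∀ p ∈ L.filter (fun p => !decide (G.Adj (v p.1) (v p.2))),
      p.1 < p.2 ∧ ¬ G.Adj (v p.1) (v p.2) := by
    intro p hp
    rw [List.mem_filter] at hp
    refine ⟨hlt p hp.1, ?_⟩
    simpa using hp.2
  have h2 : ((L.filter (fun p => !decide (G.Adj (v p.1) (v p.2)))).map
      (fun p => s(v p.1, v p.2))).Nodup := by
    refine (List.nodup_map_iff_inj_on (hL.filter _)).2 ?_
    intro x hx y hy hxy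
    have h3 := (h1 x hx).1
    have h4 := (h1 y hy).1
    rw [Sym2.eq_iff] at hxy
    rcases hxy with h | h
    · exact Prod.ext (hv h.1) (hv h.2)
    · have h5 := hv h.1
      have h6 := hv h.2
      rw [h5, h6] at h3
      exact absurd (h3.trans h4) (lt_irrefl _)
  have h3 := miss_ge (G := G) ((L.filter (fun p => !decide (G.Adj (v p.1) (v p.2)))).map
      (fun p => s(v p.1, v p.2))).toFinset (by
    intro e he
    rw [List.mem_toFinset, List.mem_map] at he
    obtain ⟨p, hp, rfl⟩ := he
    rw [SimpleGraph.mem_edgeSet, SimpleGraph.compl_adj]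
    exact ⟨fun h => (h1 p hp).1.ne (hv h), (h1 p hp).2⟩)
  rwa [List.toFinset_card_of_nodup h2, List.length_map] at h3

theorem ind4 {V : Type} {G : SimpleGraph V} {n : ℕ} (v : Fin n → V) {a b c d : Fin n}
    (h : ∃ i ∈ ({a, b, c, d} : Finset (Fin n)), ∃ j ∈ ({a, b, c, d} : Finset (Fin n)),
      G.Adj (v i) (v j)) :
    G.Adj (v a) (v b) ∨ G.Adj (v a) (v c) ∨ G.Adj (v a) (v d) ∨ G.Adj (v b) (v c) ∨
      G.Adj (v b) (v d) ∨ G.Adj (v c) (v d) := by
  obtain ⟨i, hi, j, hj, hij⟩ := h
  have hs := hij.symm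
  have hi' := G.irrefl (v := v i)
  simp only [mem_insert, mem_singleton] at hi hj
  rcases hi with rfl | rfl | rfl | rfl <;> rcases hj with rfl | rfl | rfl | rfl <;> tauto

theorem six_use {V : Type} [Fintype V] [DecidableEq V] {G : SimpleGraph V} (v : Fin 6 → V)
    (hv : Function.Injective v) (hm : miss G ≤ 6)
    (hdeg : ∀ i, ∃ j, j ≠ i ∧ G.Adj (v i) (v j))
    (hind : ∀ T : Finset (Fin 6), T.card = 4 → ∃ i ∈ T, ∃ j ∈ T, G.Adj (v i) (v j)) :
    ∃ i0 i1 i2 i3 i4 i5 : Fin 6, [i0, i1, i2, i3, i4, i5].Nodup ∧ G.Adj (v i0) (v i1) ∧ G.Adj (v i2) (v i3) ∧ G.Adj (v i4) (v i5) := by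
  classical
  have h := six_dec (decide (G.Adj (v 0) (v 1))) (decide (G.Adj (v 0) (v 2))) (decide (G.Adj (v 0) (v 3))) (decide (G.Adj (v 0) (v 4))) (decide (G.Adj (v 0) (v 5))) (decide (G.Adj (v 1) (v 2))) (decide (G.Adj (v 1) (v 3))) (decide (G.Adj (v 1) (v 4))) (decide (G.Adj (v 1) (v 5))) (decide (G.Adj (v 2) (v 3))) (decide (G.Adj (v 2) (v 4))) (decide (G.Adj (v 2) (v 5))) (decide (G.Adj (v 3) (v 4))) (decide (G.Adj (v 3) (v 5))) (decide (G.Adj (v 4) (v 5)))
  unfold six_body at h
  replace h := im_elim h (by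
    obtain ⟨j, hj, hj'⟩ := hdeg 0
    have hs := hj'.symm
    simp only [Bool.or_eq_true, decide_eq_true_eq]
    fin_cases j <;> simp at hj hj' hs ⊢ <;> tauto)
  replace h := im_elim h (by
    obtain ⟨j, hj, hj'⟩ := hdeg 1
    have hs := hj'.symm
    simp only [Bool.or_eq_true, decide_eq_true_eq]
    fin_cases j <;> simp at hj hj' hs ⊢ <;> tauto)
  replace h := im_elim h (by
    obtain ⟨j, hj, hj'⟩ := hdeg 2
    have hs := hj'.symm
    simp only [Bool.or_eq_true, decide_eq_true_eq]
    fin_cases j <;> simp at hj hj' hs ⊢ <;> tauto)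
  replace h := im_elim h (by
    obtain ⟨j, hj, hj'⟩ := hdeg 3
    have hs := hj'.symm
    simp only [Bool.or_eq_true, decide_eq_true_eq]
    fin_cases j <;> simp at hj hj' hs ⊢ <;> tauto)
  replace h := im_elim h (by
    obtain ⟨j, hj, hj'⟩ := hdeg 4
    have hs := hj'.symm
    simp only [Bool.or_eq_true, decide_eq_true_eq]
    fin_cases j <;> simp at hj hj' hs ⊢ <;> tauto)
  replace h := im_elim h (by
    obtain ⟨j, hj, hj'⟩ := hdeg 5
    have hs := hj'.symm
    simp only [Bool.or_eq_true, decide_eq_true_eq]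
    fin_cases j <;> simp at hj hj' hs ⊢ <;> tauto)
  replace h := im_elim h (by
    simpa only [Bool.or_eq_true, decide_eq_true_eq, or_assoc] using
      ind4 (G := G) v (hind {0, 1, 2, 3} (by decide)))
  replace h := im_elim h (by
    simpa only [Bool.or_eq_true, decide_eq_true_eq, or_assoc] using
      ind4 (G := G) v (hind {0, 1, 2, 4} (by decide)))
  replace h := im_elim h (by
    simpa only [Bool.or_eq_true, decide_eq_true_eq, or_assoc] using
      ind4 (G := G) v (hind {0, 1, 2, 5} (by decide)))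
  replace h := im_elim h (by
    simpa only [Bool.or_eq_true, decide_eq_true_eq, or_assoc] using
      ind4 (G := G) v (hind {0, 1, 3, 4} (by decide)))
  replace h := im_elim h (by
    simpa only [Bool.or_eq_true, decide_eq_true_eq, or_assoc] using
      ind4 (G := G) v (hind {0, 1, 3, 5} (by decide)))
  replace h := im_elim h (by
    simpa only [Bool.or_eq_true, decide_eq_true_eq, or_assoc] using
      ind4 (G := G) v (hind {0, 1, 4, 5} (by decide)))
  replace h := im_elim h (by
    simpa only [Bool.or_eq_true, decide_eq_true_eq, or_assoc] using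
      ind4 (G := G) v (hind {0, 2, 3, 4} (by decide)))
  replace h := im_elim h (by
    simpa only [Bool.or_eq_true, decide_eq_true_eq, or_assoc] using
      ind4 (G := G) v (hind {0, 2, 3, 5} (by decide)))
  replace h := im_elim h (by
    simpa only [Bool.or_eq_true, decide_eq_true_eq, or_assoc] using
      ind4 (G := G) v (hind {0, 2, 4, 5} (by decide)))
  replace h := im_elim h (by
    simpa only [Bool.or_eq_true, decide_eq_true_eq, or_assoc] using
      ind4 (G := G) v (hind {0, 3, 4, 5} (by decide)))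
  replace h := im_elim h (by
    simpa only [Bool.or_eq_true, decide_eq_true_eq, or_assoc] using
      ind4 (G := G) v (hind {1, 2, 3, 4} (by decide)))
  replace h := im_elim h (by
    simpa only [Bool.or_eq_true, decide_eq_true_eq, or_assoc] using
      ind4 (G := G) v (hind {1, 2, 3, 5} (by decide)))
  replace h := im_elim h (by
    simpa only [Bool.or_eq_true, decide_eq_true_eq, or_assoc] using
      ind4 (G := G) v (hind {1, 2, 4, 5} (by decide)))
  replace h := im_elim h (by
    simpa only [Bool.or_eq_true, decide_eq_true_eq, or_assoc] using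
      ind4 (G := G) v (hind {1, 3, 4, 5} (by decide)))
  replace h := im_elim h (by
    simpa only [Bool.or_eq_true, decide_eq_true_eq, or_assoc] using
      ind4 (G := G) v (hind {2, 3, 4, 5} (by decide)))
  replace h := im_elim h (by
    rw [Nat.ble_eq]
    have h1 := cntL (G := G) v hv [(0, 1), (0, 2), (0, 3), (0, 4), (0, 5), (1, 2), (1, 3), (1, 4), (1, 5), (2, 3), (2, 4), (2, 5), (3, 4), (3, 5), (4, 5)] (by decide) (by decide)
    simp only [List.map_cons, List.map_nil, List.sum_cons, List.sum_nil] at h1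
    omega)
  simp only [Bool.or_eq_true, Bool.and_eq_true, decide_eq_true_eq, or_assoc, and_assoc] at h
  rcases h with h | h | h | h | h | h | h | h | h | h | h | h | h | h | h
  · exact ⟨0, 1, 2, 3, 4, 5, by decide, h⟩
  · exact ⟨0, 1, 2, 4, 3, 5, by decide, h⟩
  · exact ⟨0, 1, 2, 5, 3, 4, by decide, h⟩
  · exact ⟨0, 2, 1, 3, 4, 5, by decide, h⟩
  · exact ⟨0, 2, 1, 4, 3, 5, by decide, h⟩
  · exact ⟨0, 2, 1, 5, 3, 4, by decide, h⟩
  · exact ⟨0, 3, 1, 2, 4, 5, by decide, h⟩
  · exact ⟨0, 3, 1, 4, 2, 5, by decide, h⟩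
  · exact ⟨0, 3, 1, 5, 2, 4, by decide, h⟩
  · exact ⟨0, 4, 1, 2, 3, 5, by decide, h⟩
  · exact ⟨0, 4, 1, 3, 2, 5, by decide, h⟩
  · exact ⟨0, 4, 1, 5, 2, 3, by decide, h⟩
  · exact ⟨0, 5, 1, 2, 3, 4, by decide, h⟩
  · exact ⟨0, 5, 1, 3, 2, 4, by decide, h⟩
  · exact ⟨0, 5, 1, 4, 2, 3, by decide, h⟩

theorem five_use {V : Type} [Fintype V] [DecidableEq V] {G : SimpleGraph V} (v : Fin 5 → V)
    (hv : Function.Injective v) (hm : miss G ≤ 6)
    (hind : ∀ T : Finset (Fin 5), T.card = 4 → ∃ i ∈ T, ∃ j ∈ T, G.Adj (v i) (v j)) :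
    ∃ i0 i1 i2 i3 : Fin 5, [i0, i1, i2, i3].Nodup ∧ G.Adj (v i0) (v i1) ∧ G.Adj (v i2) (v i3) := by
  classical
  have h := five_dec (decide (G.Adj (v 0) (v 1))) (decide (G.Adj (v 0) (v 2))) (decide (G.Adj (v 0) (v 3))) (decide (G.Adj (v 0) (v 4))) (decide (G.Adj (v 1) (v 2))) (decide (G.Adj (v 1) (v 3))) (decide (G.Adj (v 1) (v 4))) (decide (G.Adj (v 2) (v 3))) (decide (G.Adj (v 2) (v 4))) (decide (G.Adj (v 3) (v 4)))
  unfold five_body at h
  replace h := im_elim h (by
    simpa only [Bool.or_eq_true, decide_eq_true_eq, or_assoc] using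
      ind4 (G := G) v (hind {0, 1, 2, 3} (by decide)))
  replace h := im_elim h (by
    simpa only [Bool.or_eq_true, decide_eq_true_eq, or_assoc] using
      ind4 (G := G) v (hind {0, 1, 2, 4} (by decide)))
  replace h := im_elim h (by
    simpa only [Bool.or_eq_true, decide_eq_true_eq, or_assoc] using
      ind4 (G := G) v (hind {0, 1, 3, 4} (by decide)))
  replace h := im_elim h (by
    simpa only [Bool.or_eq_true, decide_eq_true_eq, or_assoc] using
      ind4 (G := G) v (hind {0, 2, 3, 4} (by decide)))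
  replace h := im_elim h (by
    simpa only [Bool.or_eq_true, decide_eq_true_eq, or_assoc] using
      ind4 (G := G) v (hind {1, 2, 3, 4} (by decide)))
  replace h := im_elim h (by
    rw [Nat.ble_eq]
    have h1 := cntL (G := G) v hv [(0, 1), (0, 2), (0, 3), (0, 4), (1, 2), (1, 3), (1, 4), (2, 3), (2, 4), (3, 4)] (by decide) (by decide)
    simp only [List.map_cons, List.map_nil, List.sum_cons, List.sum_nil] at h1
    omega)
  simp only [Bool.or_eq_true, Bool.and_eq_true, decide_eq_true_eq, or_assoc, and_assoc] at h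
  rcases h with h | h | h | h | h | h | h | h | h | h | h | h | h | h | h
  · exact ⟨1, 2, 3, 4, by decide, h⟩
  · exact ⟨1, 3, 2, 4, by decide, h⟩
  · exact ⟨1, 4, 2, 3, by decide, h⟩
  · exact ⟨0, 2, 3, 4, by decide, h⟩
  · exact ⟨0, 3, 2, 4, by decide, h⟩
  · exact ⟨0, 4, 2, 3, by decide, h⟩
  · exact ⟨0, 1, 3, 4, by decide, h⟩
  · exact ⟨0, 3, 1, 4, by decide, h⟩
  · exact ⟨0, 4, 1, 3, by decide, h⟩
  · exact ⟨0, 1, 2, 4, by decide, h⟩
  · exact ⟨0, 2, 1, 4, by decide, h⟩
  · exact ⟨0, 4, 1, 2, by decide, h⟩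
  · exact ⟨0, 1, 2, 3, by decide, h⟩
  · exact ⟨0, 2, 1, 3, by decide, h⟩
  · exact ⟨0, 3, 1, 2, by decide, h⟩


/-- a family of disjoint edges -/
theorem fam {V : Type} [DecidableEq V] {G : SimpleGraph V} (c : Sym2 V → ZMod 4) {ι : Type}
    [Fintype ι] [DecidableEq ι] (hι : Fintype.card ι = 4) (l r : ι → V)
    (hl : Function.Injective l) (hr : Function.Injective r) (hlr : ∀ k k', l k ≠ r k')
    (hadj : ∀ k, G.Adj (l k) (r k)) :
    ∃ F, IsM G F ∧ F.card = 4 ∧ ∑ e ∈ F, c e = ∑ k, c s(l k, r k) := by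
  have hinj : Function.Injective (fun k => s(l k, r k)) := by
    intro k k' h
    simp only [Sym2.eq_iff] at h
    rcases h with h | h
    · exact hl h.1
    · exact absurd h.1 (hlr k k')
  refine ⟨univ.image (fun k => s(l k, r k)), ⟨?_, ?_⟩, ?_, ?_⟩
  · intro e he
    obtain ⟨k, _, rfl⟩ := mem_image.1 he
    exact hadj k
  · intro e he f hf hef v hv hv'
    obtain ⟨k, _, rfl⟩ := mem_image.1 he
    obtain ⟨k', _, rfl⟩ := mem_image.1 hf
    rw [Sym2.mem_iff] at hv hv'
    have hkk : k ≠ k' := fun h => hef (by rw [h])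
    rcases hv with hv | hv <;> rcases hv' with h | h
    · exact hkk (hl (hv.symm.trans h))
    · exact hlr _ _ (hv.symm.trans h)
    · exact hlr _ _ (h.symm.trans hv)
    · exact hkk (hr (hv.symm.trans h))
  · rw [card_image_of_injective _ hinj, card_univ, hι]
  · rw [sum_image fun a _ b _ h => hinj h]

theorem dav4 : ∀ a b c d : ZMod 4, a = 0 ∨ b = 0 ∨ c = 0 ∨ d = 0 ∨ a + b = 0 ∨ b + c = 0 ∨
    c + d = 0 ∨ a + (b + c) = 0 ∨ b + (c + d) = 0 ∨ a + (b + (c + d)) = 0 := by
  decide +kernel

theorem dav (a : Fin 4 → ZMod 4) : ∃ J : Finset (Fin 4), J.Nonempty ∧ ∑ k ∈ J, a k = 0 := by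
  rcases dav4 (a 0) (a 1) (a 2) (a 3) with h | h | h | h | h | h | h | h | h | h
  · exact ⟨{0}, by decide, by rw [sum_singleton]; exact h⟩
  · exact ⟨{1}, by decide, by rw [sum_singleton]; exact h⟩
  · exact ⟨{2}, by decide, by rw [sum_singleton]; exact h⟩
  · exact ⟨{3}, by decide, by rw [sum_singleton]; exact h⟩
  · exact ⟨{0, 1}, by decide, by rw [sum_insert (by decide), sum_singleton]; exact h⟩
  · exact ⟨{1, 2}, by decide, by rw [sum_insert (by decide), sum_singleton]; exact h⟩
  · exact ⟨{2, 3}, by decide, by rw [sum_insert (by decide), sum_singleton]; exact h⟩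
  · exact ⟨{0, 1, 2}, by decide, by
      rw [sum_insert (by decide), sum_insert (by decide), sum_singleton]; exact h⟩
  · exact ⟨{1, 2, 3}, by decide, by
      rw [sum_insert (by decide), sum_insert (by decide), sum_singleton]; exact h⟩
  · exact ⟨{0, 1, 2, 3}, by decide, by
      rw [sum_insert (by decide), sum_insert (by decide), sum_insert (by decide),
        sum_singleton]; exact h⟩

/-- enumeration of a finite set -/
theorem enum {V : Type} [DecidableEq V] {S : Finset V} {n : ℕ} (h : S.card = n) :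
    ∃ v : Fin n → V, Function.Injective v ∧ (∀ k, v k ∈ S) := by
  let e := S.equivFinOfCardEq h
  exact ⟨fun k => (e.symm k).1, fun a b hab => e.symm.injective (Subtype.ext hab),
    fun k => (e.symm k).2⟩

theorem enum' {V : Type} [DecidableEq V] {S : Finset V} {n : ℕ} (h : S.card = n) :
    ∃ v : Fin n → V, Function.Injective v ∧ (∀ k, v k ∈ S) ∧ ∀ x ∈ S, ∃ k, v k = x := by
  let e := S.equivFinOfCardEq h
  refine ⟨fun k => (e.symm k).1, fun a b hab => e.symm.injective (Subtype.ext hab),
    fun k => (e.symm k).2, fun x hx => ⟨e ⟨x, hx⟩, ?_⟩⟩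
  change (e.symm (e ⟨x, hx⟩)).1 = x
  rw [Equiv.symm_apply_apply]

theorem finish4 : S_Finish4 := by
  intro V _ _ G c x Q I hV hQ hm hIQ hI hind hcol
  -- every pair which is not inside `I` is adjacent
  have hadj : ∀ a b : V, a ≠ b → (a ∉ I ∨ b ∉ I) → G.Adj a b := by
    intro a b hab hnI
    by_contra hcon
    have h1 : ∀ e ∈ I.offDiag.image Sym2.mk.uncurry, e ∈ Gᶜ.edgeSet ∧ ∀ v ∈ e, v ∈ I := by
      intro e he
      obtain ⟨⟨p, q⟩, hp, rfl⟩ := mem_image.1 he
      rw [mem_offDiag] at hp
      refine ⟨?_, ?_⟩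
      · change Gᶜ.Adj p q
        rw [SimpleGraph.compl_adj]
        exact ⟨hp.2.2, hind p hp.1 q hp.2.1⟩
      · intro v hv
        change v ∈ s(p, q) at hv
        rw [Sym2.mem_iff] at hv
        rcases hv with rfl | rfl
        · exact hp.1
        · exact hp.2.1
    have h2 : s(a, b) ∉ I.offDiag.image Sym2.mk.uncurry := by
      intro h
      have h3 := (h1 _ h).2
      rcases hnI with h4 | h4
      · exact h4 (h3 a (Sym2.mem_mk_left a b))
      · exact h4 (h3 b (Sym2.mem_mk_right a b))
    have h3 := miss_ge (G := G) (insert s(a, b) (I.offDiag.image Sym2.mk.uncurry)) (by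
      intro e he
      rcases mem_insert.1 he with rfl | he
      · rw [SimpleGraph.mem_edgeSet, SimpleGraph.compl_adj]
        exact ⟨hab, hcon⟩
      · exact (h1 e he).1)
    rw [card_insert_of_notMem h2, Sym2.card_image_offDiag, hI] at h3
    have h4 : Nat.choose 4 2 = 6 := by decide
    omega
  have hP : (univ \ Q).card = 4 := by
    rw [card_sdiff_of_subset (subset_univ Q), card_univ, hV, hQ]
  have hA : (Q \ I).card = 3 := by
    rw [card_sdiff_of_subset hIQ, hQ, hI]
  obtain ⟨p, hp, hpm⟩ := enum hP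
  obtain ⟨u, hu, hum⟩ := enum hI
  obtain ⟨w, hw, hwm⟩ := enum hA
  obtain ⟨J, ⟨k0, hk0⟩, hJ⟩ := dav fun k => c s(u k, p k) - x
  -- an injection of the other indices into `Fin 3`
  obtain ⟨τ, hτ⟩ : ∃ τ : Fin 4 → Fin 3, ∀ a b, a ≠ k0 → b ≠ k0 → τ a = τ b → a = b := by
    clear hk0 hJ
    revert k0
    decide +kernel
  have hpQ : ∀ k, p k ∉ Q := fun k => (mem_sdiff.1 (hpm k)).2
  have hwI : ∀ k, w k ∉ I := fun k => (mem_sdiff.1 (hwm k)).2
  have hwQ : ∀ k, w k ∈ Q := fun k => (mem_sdiff.1 (hwm k)).1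
  have hr : ∀ k, (if k ∈ J then p k else w (τ k)) ∉ I := by
    intro k
    split_ifs
    · exact fun h => hpQ k (hIQ h)
    · exact hwI _
  have hlr : ∀ k k', u k ≠ (if k' ∈ J then p k' else w (τ k')) := by
    intro k k' h
    exact hr k' (h ▸ hum k)
  obtain ⟨F, hF1, hF2, hF3⟩ := fam (G := G) c (ι := Fin 4) (by simp) u
    (fun k => if k ∈ J then p k else w (τ k)) hu (by
      intro a b hab
      simp only at hab
      by_cases ha : a ∈ J <;> by_cases hb : b ∈ J
      · rw [if_pos ha, if_pos hb] at hab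
        exact hp hab
      · rw [if_pos ha, if_neg hb] at hab
        exact absurd (hab ▸ hwQ (τ b)) (hpQ a)
      · rw [if_neg ha, if_pos hb] at hab
        exact absurd (hab ▸ hwQ (τ a)) (hpQ b)
      · rw [if_neg ha, if_neg hb] at hab
        exact hτ a b (fun h => ha (h ▸ hk0)) (fun h => hb (h ▸ hk0)) (hw hab)) hlr
    (fun k => hadj _ _ (hlr k k) (Or.inr (hr k)))
  refine ⟨F, hF1, hF2, ?_⟩
  rw [hF3]
  have h5 : ∀ k : Fin 4, c s(u k, if k ∈ J then p k else w (τ k)) =
      (if k ∈ J then c s(u k, p k) - x else 0) + x := by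
    intro k
    by_cases hk : k ∈ J
    · rw [if_pos hk, if_pos hk]
      ring
    · rw [if_neg hk, if_neg hk, zero_add]
      have h6 := hadj (u k) (w (τ k)) (fun h => hwI (τ k) (h ▸ hum k)) (Or.inr (hwI _))
      exact hcol _ (hum k) _ (hwQ _) h6
  rw [sum_congr rfl fun k _ => h5 k, sum_add_distrib, ← sum_filter, filter_mem_eq_inter,
    univ_inter, hJ, sum_const, card_univ, Fintype.card_fin]
  have h7 : ∀ x : ZMod 4, 0 + 4 • x = 0 := by decide
  exact h7 x

/-- Hall's theorem for the four vertices outside `Q` -/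
theorem hallP {V : Type} [Fintype V] [DecidableEq V] {G : SimpleGraph V} {Q : Finset V}
    (hV : Fintype.card V = 11) (hQ : Q.card = 7) (hm : miss G ≤ 6) :
    ∃ p q : Fin 4 → V, Function.Injective p ∧ Function.Injective q ∧ (∀ k, p k ∉ Q) ∧
      (∀ k, q k ∈ Q) ∧ ∀ k, G.Adj (p k) (q k) := by
  classical
  have hP : (univ \ Q).card = 4 := by
    rw [card_sdiff_of_subset (subset_univ Q), card_univ, hV, hQ]
  obtain ⟨p, hp, hpm⟩ := enum hP
  have hpQ : ∀ k, p k ∉ Q := fun k => (mem_sdiff.1 (hpm k)).2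
  obtain ⟨q, hq, hqm⟩ := (Finset.all_card_le_biUnion_card_iff_exists_injective
    (fun k : Fin 4 => Q.filter (fun w => G.Adj (p k) w))).1 (by
      intro S
      by_contra hcon
      have hNQ : (S.biUnion fun k => Q.filter (fun w => G.Adj (p k) w)) ⊆ Q := by
        intro w hw
        obtain ⟨k, _, hk⟩ := mem_biUnion.1 hw
        exact (mem_filter.1 hk).1
      have h1 := miss_ge (G := G) ((S ×ˢ (Q \ (S.biUnion fun k =>
          Q.filter (fun w => G.Adj (p k) w)))).image fun z => s(p z.1, z.2)) (by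
        intro e he
        obtain ⟨⟨k, w⟩, hz, rfl⟩ := mem_image.1 he
        rw [mem_product, mem_sdiff] at hz
        rw [SimpleGraph.mem_edgeSet, SimpleGraph.compl_adj]
        refine ⟨fun h => hpQ k (h ▸ hz.2.1), fun h => hz.2.2 ?_⟩
        exact mem_biUnion.2 ⟨k, hz.1, mem_filter.2 ⟨hz.2.1, h⟩⟩)
      rw [card_image_of_injOn (by
        intro a ha b hb hab
        rw [mem_coe, mem_product, mem_sdiff] at ha hb
        simp only [Sym2.eq_iff] at hab
        rcases hab with h | h
        · exact Prod.ext (hp h.1) h.2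
        · exact absurd (h.1 ▸ hb.2.1) (hpQ a.1)), card_product, card_sdiff_of_subset hNQ,
        hQ] at h1
      have h2 : S.card ≤ 4 := by
        simpa using card_le_univ S
      generalize (S.biUnion fun k => Q.filter (fun w => G.Adj (p k) w)).card = n at hcon h1
      generalize S.card = m at hcon h1 h2
      have h3 : n < m := not_le.1 hcon
      have h4 : m * (7 - n) ≤ 6 := h1.trans hm
      clear hcon h1
      interval_cases m <;> interval_cases n <;> omega)
  exact ⟨p, q, hp, hq, hpQ, fun k => (mem_filter.1 (hqm k)).1, fun k => (mem_filter.1 (hqm k)).2⟩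

/-- the matching inside the rest -/
theorem inside {V : Type} [Fintype V] [DecidableEq V] {G : SimpleGraph V} {R : Finset V} {i : ℕ}
    (hi : i ≤ 3) (hR : R.card = 3 + i) (hm : miss G ≤ 6)
    (hind : ∀ T : Finset V, T ⊆ R → T.card = 4 → ∃ a ∈ T, ∃ b ∈ T, G.Adj a b)
    (hdeg : i = 3 → ∀ w ∈ R, ∃ u ∈ R, G.Adj w u) :
    ∃ a b : Fin i → V, Function.Injective a ∧ Function.Injective b ∧ (∀ k k', a k ≠ b k') ∧
      (∀ k, a k ∈ R) ∧ (∀ k, b k ∈ R) ∧ ∀ k, G.Adj (a k) (b k) := by
  obtain rfl | rfl | rfl | rfl : i = 0 ∨ i = 1 ∨ i = 2 ∨ i = 3 := by omega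
  · exact ⟨fun k => k.elim0, fun k => k.elim0, fun k => k.elim0, fun k => k.elim0,
      fun k => k.elim0, fun k => k.elim0, fun k => k.elim0, fun k => k.elim0⟩
  · obtain ⟨a, ha, b, hb, hab⟩ := hind R subset_rfl hR
    exact ⟨fun _ => a, fun _ => b, fun k k' _ => Subsingleton.elim k k',
      fun k k' _ => Subsingleton.elim k k', fun _ _ => hab.ne, fun _ => ha, fun _ => hb,
      fun _ => hab⟩
  · obtain ⟨v, hv, hvm⟩ := enum (n := 5) hR
    obtain ⟨i0, i1, i2, i3, hnd, h1, h2⟩ := five_use v hv hm (by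
      intro T hT
      obtain ⟨a, ha, b, hb, hab⟩ := hind (T.image v) (by
        intro x hx
        obtain ⟨k, _, rfl⟩ := mem_image.1 hx
        exact hvm k) (by rw [card_image_of_injective _ hv, hT])
      obtain ⟨k, hk, rfl⟩ := mem_image.1 ha
      obtain ⟨k', hk', rfl⟩ := mem_image.1 hb
      exact ⟨k, hk, k', hk', hab⟩)
    have hg : Function.Injective [i0, i1, i2, i3].get := List.nodup_iff_injective_get.1 hnd
    refine ⟨fun k => v ([i0, i1, i2, i3].get ⟨2 * k.1, by
        have := k.2
        simp only [List.length_cons, List.length_nil]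
        omega⟩), fun k => v ([i0, i1, i2, i3].get ⟨2 * k.1 + 1, by
        have := k.2
        simp only [List.length_cons, List.length_nil]
        omega⟩), ?_, ?_, ?_, fun k => hvm _, fun k => hvm _, ?_⟩
    · intro a b hab
      have h := Fin.mk.inj_iff.1 (hg (hv hab))
      exact Fin.ext (by omega)
    · intro a b hab
      have h := Fin.mk.inj_iff.1 (hg (hv hab))
      exact Fin.ext (by omega)
    · intro a b hab
      have h := Fin.mk.inj_iff.1 (hg (hv hab))
      omega
    · intro k
      fin_cases k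
      · exact h1
      · exact h2
  · obtain ⟨v, hv, hvm, hvs⟩ := enum' (n := 6) hR
    obtain ⟨i0, i1, i2, i3, i4, i5, hnd, h1, h2, h3⟩ := six_use v hv hm (by
      intro k
      obtain ⟨u, hu, hku⟩ := hdeg rfl (v k) (hvm k)
      obtain ⟨j, rfl⟩ := hvs u hu
      exact ⟨j, fun h => hku.ne (by rw [h]), hku⟩) (by
      intro T hT
      obtain ⟨a, ha, b, hb, hab⟩ := hind (T.image v) (by
        intro x hx
        obtain ⟨k, _, rfl⟩ := mem_image.1 hx
        exact hvm k) (by rw [card_image_of_injective _ hv, hT])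
      obtain ⟨k, hk, rfl⟩ := mem_image.1 ha
      obtain ⟨k', hk', rfl⟩ := mem_image.1 hb
      exact ⟨k, hk, k', hk', hab⟩)
    have hg : Function.Injective [i0, i1, i2, i3, i4, i5].get :=
      List.nodup_iff_injective_get.1 hnd
    refine ⟨fun k => v ([i0, i1, i2, i3, i4, i5].get ⟨2 * k.1, by
        have := k.2
        simp only [List.length_cons, List.length_nil]
        omega⟩), fun k => v ([i0, i1, i2, i3, i4, i5].get ⟨2 * k.1 + 1, by
        have := k.2
        simp only [List.length_cons, List.length_nil]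
        omega⟩), ?_, ?_, ?_, fun k => hvm _, fun k => hvm _, ?_⟩
    · intro a b hab
      have h := Fin.mk.inj_iff.1 (hg (hv hab))
      exact Fin.ext (by omega)
    · intro a b hab
      have h := Fin.mk.inj_iff.1 (hg (hv hab))
      exact Fin.ext (by omega)
    · intro a b hab
      have h := Fin.mk.inj_iff.1 (hg (hv hab))
      omega
    · intro k
      fin_cases k
      · exact h1
      · exact h2
      · exact h3

theorem finishFour : S_Finish2 → S_NearU → S_FinishFour := by
  intro h2 _ V _ _ G c x Q hV hQ hm hcol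
  by_cases hA : ∃ w₀ ∈ Q, ∃ B ⊆ Q.erase w₀, B.card = 5 ∧ ∀ q ∈ B, ¬ G.Adj w₀ q
  · obtain ⟨w₀, hw, B, hB, hBc, hBn⟩ := hA
    exact h2 V G 4 c x w₀ (Q.erase w₀) le_rfl (by omega)
      (by rw [card_erase_of_mem hw, hQ]) (notMem_erase _ _) (by omega)
      ⟨B, hB, by omega, hBn⟩
      (fun a ha b hb h => hcol a (mem_of_mem_erase ha) b (mem_of_mem_erase hb) h)
  by_cases hI : ∃ I ⊆ Q, I.card = 4 ∧ ∀ a ∈ I, ∀ b ∈ I, ¬ G.Adj a b
  · obtain ⟨I, hI1, hI2, hI3⟩ := hI
    exact finish4 V G c x Q I hV hQ hm hI1 hI2 hI3 (fun a ha b hb h => hcol a (hI1 ha) b hb h)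
  obtain ⟨p, q, hp, hq, hpQ, hqQ, hpq⟩ := hallP hV hQ hm
  obtain ⟨J, hJ, hJs⟩ := dav fun k => c s(p k, q k) - x
  have hJ4 : J.card ≤ 4 := by simpa using card_le_univ J
  have hJ1 : 1 ≤ J.card := hJ.card_pos
  have hsub : J.image q ⊆ Q := by
    intro y hy
    obtain ⟨k, _, rfl⟩ := mem_image.1 hy
    exact hqQ k
  have hR : (Q \ J.image q).card = 3 + (4 - J.card) := by
    rw [card_sdiff_of_subset hsub, card_image_of_injective _ hq, hQ]
    omega
  obtain ⟨a, b, ha, hb, hab, haR, hbR, hadj⟩ := inside (G := G) (by omega) hR hm (by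
    intro T hT hT4
    by_contra hcon
    push Not at hcon
    exact hI ⟨T, hT.trans sdiff_subset, hT4, fun a ha b hb => hcon a ha b hb⟩) (by
    intro h3 w hw
    by_contra hcon
    push Not at hcon
    refine hA ⟨w, (mem_sdiff.1 hw).1, (Q \ J.image q).erase w,
      erase_subset_erase _ sdiff_subset, ?_, ?_⟩
    · rw [card_erase_of_mem hw, hR]
      omega
    · intro u hu
      exact hcon u (mem_of_mem_erase hu))
  obtain ⟨F, hF1, hF2, hF3⟩ := fam (G := G) c (ι := {k // k ∈ J} ⊕ Fin (4 - J.card)) (by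
      rw [Fintype.card_sum, Fintype.card_coe, Fintype.card_fin]
      omega)
    (Sum.elim (fun k => p k.1) a) (Sum.elim (fun k => q k.1) b)
    (by
      refine Function.Injective.sumElim (fun k k' h => Subtype.ext (hp h)) ha ?_
      intro k k' h
      exact hpQ k.1 (h ▸ (mem_sdiff.1 (haR k')).1))
    (by
      refine Function.Injective.sumElim (fun k k' h => Subtype.ext (hq h)) hb ?_
      intro k k' h
      exact (mem_sdiff.1 (hbR k')).2 (h ▸ mem_image_of_mem q k.2))
    (by
      rintro (k | k) (k' | k')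
      · exact fun (h : p k.1 = q k'.1) => hpQ k.1 (h ▸ hqQ k'.1)
      · exact fun (h : p k.1 = b k') => hpQ k.1 (h ▸ (mem_sdiff.1 (hbR k')).1)
      · exact fun (h : a k = q k'.1) => (mem_sdiff.1 (haR k)).2 (h ▸ mem_image_of_mem q k'.2)
      · exact hab k k')
    (by
      rintro (k | k)
      · exact hpq k.1
      · exact hadj k)
  refine ⟨F, hF1, hF2, ?_⟩
  rw [hF3, Fintype.sum_sum_type]
  simp only [Sum.elim_inl, Sum.elim_inr]
  have h5 : ∀ k : Fin (4 - J.card), c s(a k, b k) = x := fun k =>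
    hcol _ (mem_sdiff.1 (haR k)).1 _ (mem_sdiff.1 (hbR k)).1 (hadj k)
  rw [sum_congr rfl fun k _ => h5 k, sum_const, card_univ, Fintype.card_fin]
  have h6 : ∑ k : {k // k ∈ J}, c s(p k.1, q k.1) = ∑ k ∈ J, c s(p k, q k) :=
    Finset.sum_coe_sort J (fun k => c s(p k, q k))
  have h7 : ∑ k ∈ J, c s(p k, q k) = J.card • x := by
    rw [sum_sub_distrib, sum_const] at hJs
    exact sub_eq_zero.1 hJs
  rw [h6, h7, ← add_smul, show J.card + (4 - J.card) = 4 by omega]
  have h8 : ∀ x : ZMod 4, 4 • x = 0 := by decide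
  exact h8 x

end Pool.Agent.H621.ZM.FinishFour
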