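import Pool.Agent.H621.ZM.Values

/-! # The explicit value -/

set_option autoImplicit false

namespace Pool.Agent.H621.ZM.Formula

open Finset Pool.Agent.H621.ZM.Final Pool.Agent.H621.ZM.Values

theorem choose_add (a b : ℕ) : (a + b).choose 2 = a.choose 2 + a * b + b.choose 2 := by
  induction b with
  | zero => simp
  | succ b ih =>
    rw [← add_assoc, Nat.choose_succ_succ' (a + b) 1, Nat.choose_one_right, ih,
      Nat.choose_succ_succ' b 1, Nat.choose_one_right]
    ring

theorem f1 (s r : ℕ) (hs : 1 ≤ s) :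
    (3 * s - 2 + r).choose 2 = (3 * s - 2).choose 2 + (s - 1) * r + m1 s r := by
  rw [choose_add]
  unfold m1
  obtain ⟨σ, rfl⟩ : ∃ σ, s = σ + 1 := ⟨s - 1, by omega⟩
  have e1 : 3 * (σ + 1) - 2 = 3 * σ + 1 := by omega
  have e2 : 2 * (σ + 1) - 1 = 2 * σ + 1 := by omega
  have e3 : σ + 1 - 1 = σ := by omega
  rw [e1, e2, e3]
  ring

theorem f2 (s r : ℕ) (hs : 1 ≤ s) :
    (3 * s - 2 + r).choose 2 = (2 * s - 2).choose 2 + (2 * s - 2) * (s + r) + m2 s r := by
  have e1 : 3 * s - 2 + r = (2 * s - 2) + (s + r) := by omega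
  rw [e1, choose_add]
  rfl

/-- the value -/
theorem value (a n s r : ℕ) (hs : 1 ≤ s) (hn : n + 2 = 3 * s + r) (h : a + mm s r = n.choose 2) :
    a = max ((3 * s - 2).choose 2 + (s - 1) * (n - (3 * s - 2)))
      ((2 * s - 2).choose 2 + (2 * s - 2) * (n - (2 * s - 2))) := by
  have e1 : n = 3 * s - 2 + r := by omega
  have e2 : n - (3 * s - 2) = r := by omega
  have e3 : n - (2 * s - 2) = s + r := by omega
  have h1 := f1 s r hs
  have h2 := f2 s r hs
  rw [← e1] at h1 h2
  rw [e2, e3]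
  unfold mm at h
  rcases le_total (m1 s r) (m2 s r) with h3 | h3
  · rw [min_eq_left h3] at h
    rw [max_eq_left (by omega)]
    omega
  · rw [min_eq_right h3] at h
    rw [max_eq_right (by omega)]
    omega

theorem small_value (n s : ℕ) (hs : 1 ≤ s) (hn : n + 2 ≤ 3 * s) : T2 n s = n.choose 2 := by
  obtain ⟨c, hc⟩ :=
    Pool.Agent.Results.MP_22c8d1_co.OutsideMiddleRange.small_good n s hs hn
  apply le_antisymm
  · apply csSup_le (ne2 n s hs)
    rintro k ⟨G, rfl, -⟩
    exact Pool.Agent.Results.MP_22c8d1_co.OutsideMiddleRange.ncard_le G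
  · exact le_csSup (bdd2 n s)
      ⟨⊤, Pool.Agent.Results.MP_22c8d1_co.OutsideMiddleRange.ncard_top n, c, hc⟩

end Pool.Agent.H621.ZM.Formula
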