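import Pool.Agent.H621.ZM.Spec2

/-!
# ZM NEARU (helper571 for helper621): large matchings inside a set with few missing pairs
-/

set_option autoImplicit false

namespace Pool.Agent.H621.ZM.NearU

open Finset Pool.Agent.H621.ZM

theorem ins {V : Type} [DecidableEq V] {G : SimpleGraph V} {F : Finset (Sym2 V)} (hF : IsM G F)
    {a b : V} (hab : G.Adj a b) (h : ∀ e ∈ F, a ∉ e ∧ b ∉ e) :
    IsM G (insert s(a, b) F) ∧ s(a, b) ∉ F := by
  refine ⟨⟨fun e he => ?_, fun e he f hf hef v hv => ?_⟩,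
    fun h1 => (h _ h1).1 (Sym2.mem_mk_left a b)⟩
  · rcases mem_insert.1 he with rfl | he
    · exact hab
    · exact hF.1 e he
  · rcases mem_insert.1 he with he | he
    · rcases mem_insert.1 hf with hf | hf
      · exact absurd (he.trans hf.symm) hef
      · rw [he, Sym2.mem_iff] at hv
        rcases hv with hv | hv
        · rw [hv]
          exact (h f hf).1
        · rw [hv]
          exact (h f hf).2
    · rcases mem_insert.1 hf with hf | hf
      · intro hv2
        rw [hf, Sym2.mem_iff] at hv2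
        rcases hv2 with h1 | h1
        · rw [h1] at hv
          exact (h e he).1 hv
        · rw [h1] at hv
          exact (h e he).2 hv
      · exact hF.2 e he f hf hef v hv

theorem nearU : S_NearU := by
  classical
  intro V _ _ G U k i hk hi hmiss
  -- a maximum matching inside `U`
  obtain ⟨F, hF, hmax⟩ := Finset.exists_max_image
    ((univ : Finset (Finset (Sym2 V))).filter fun F => IsM G F ∧ ∀ e ∈ F, ∀ v ∈ e, v ∈ U)
    Finset.card ⟨∅, mem_filter.2 ⟨mem_univ _, ⟨fun e he => absurd he (notMem_empty e),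
      fun e he => absurd he (notMem_empty e)⟩, fun e he => absurd he (notMem_empty e)⟩⟩
  obtain ⟨-, hM, hFU⟩ := mem_filter.1 hF
  have hmax' : ∀ F' : Finset (Sym2 V), IsM G F' → (∀ e ∈ F', ∀ v ∈ e, v ∈ U) →
      F'.card ≤ F.card := fun F' h1 h2 => hmax F' (mem_filter.2 ⟨mem_univ _, h1, h2⟩)
  obtain ⟨C, hC⟩ : ∃ C : Finset V, C = F.biUnion fun e => e.toFinset := ⟨_, rfl⟩
  have hmemC : ∀ v, v ∈ C ↔ ∃ e ∈ F, v ∈ e := by
    intro v
    rw [hC, mem_biUnion]
    exact ⟨fun ⟨e, he, hv⟩ => ⟨e, he, Sym2.mem_toFinset.1 hv⟩,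
      fun ⟨e, he, hv⟩ => ⟨e, he, Sym2.mem_toFinset.2 hv⟩⟩
  have hCU : C ⊆ U := by
    intro v hv
    obtain ⟨e, he, hv⟩ := (hmemC v).1 hv
    exact hFU e he v hv
  have hdisj : (F : Set (Sym2 V)).PairwiseDisjoint fun e => e.toFinset := by
    intro e he f hf hef
    show Disjoint e.toFinset f.toFinset
    rw [Finset.disjoint_left]
    intro v h1 h2
    exact hM.2 e he f hf hef v (Sym2.mem_toFinset.1 h1) (Sym2.mem_toFinset.1 h2)
  have hCcard : C.card = 2 * F.card := by
    rw [hC, card_biUnion hdisj, mul_comm]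
    refine Finset.sum_const_nat fun e he => ?_
    exact Sym2.card_toFinset_of_not_isDiag e (G.not_isDiag_of_mem_edgeSet (hM.1 e he))
  obtain ⟨I, hI⟩ : ∃ I : Finset V, I = U \ C := ⟨_, rfl⟩
  have hIU : ∀ a ∈ I, a ∈ U ∧ a ∉ C := fun a ha => by
    rw [hI] at ha
    exact mem_sdiff.1 ha
  have hIF : ∀ a ∈ I, ∀ e ∈ F, a ∉ e := fun a ha e he h =>
    (hIU a ha).2 ((hmemC a).2 ⟨e, he, h⟩)
  have hIcard : I.card + 2 * F.card = U.card := by
    rw [← hCcard, hI]
    exact card_sdiff_add_card_eq_card hCU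
  -- `I` is independent
  have hind : ∀ a ∈ I, ∀ b ∈ I, ¬ G.Adj a b := by
    intro a ha b hb hab
    obtain ⟨h1, h2⟩ := ins hM hab fun e he => ⟨hIF a ha e he, hIF b hb e he⟩
    have h3 := hmax' _ h1 (fun e he v hv => by
      rcases mem_insert.1 he with rfl | he
      · rcases Sym2.mem_iff.1 hv with rfl | rfl
        · exact (hIU _ ha).1
        · exact (hIU _ hb).1
      · exact hFU e he v hv)
    rw [card_insert_of_notMem h2] at h3
    omega
  -- the exchange
  have hexch : ∀ u v, s(u, v) ∈ F → ∀ p ∈ I, ∀ q ∈ I, G.Adj u p → G.Adj v q → p = q := by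
    intro u v huv p hp q hq hup hvq
    by_contra hpq
    have huvA : G.Adj u v := hM.1 _ huv
    have hM1 : IsM G (F.erase s(u, v)) :=
      ⟨fun e he => hM.1 e (mem_of_mem_erase he), fun e he f hf =>
        hM.2 e (mem_of_mem_erase he) f (mem_of_mem_erase hf)⟩
    have hu1 : ∀ e ∈ F.erase s(u, v), u ∉ e := fun e he h =>
      hM.2 _ huv e (mem_of_mem_erase he) (ne_of_mem_erase he).symm u (Sym2.mem_mk_left u v) h
    have hv1 : ∀ e ∈ F.erase s(u, v), v ∉ e := fun e he h =>
      hM.2 _ huv e (mem_of_mem_erase he) (ne_of_mem_erase he).symm v (Sym2.mem_mk_right u v) h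
    obtain ⟨hM2, hn2⟩ := ins hM1 hup fun e he => ⟨hu1 e he, hIF p hp e (mem_of_mem_erase he)⟩
    have hpv : p ≠ v := fun h => hIF p hp _ huv (h ▸ Sym2.mem_mk_right u v)
    have hqu : q ≠ u := fun h => hIF q hq _ huv (h ▸ Sym2.mem_mk_left u v)
    obtain ⟨hM3, hn3⟩ := ins hM2 hvq (fun e he => by
      rcases mem_insert.1 he with rfl | he
      · rw [Sym2.mem_iff, Sym2.mem_iff, not_or, not_or]
        exact ⟨⟨huvA.ne.symm, hpv.symm⟩, ⟨hqu, Ne.symm hpq⟩⟩
      · exact ⟨hv1 e he, hIF q hq e (mem_of_mem_erase he)⟩)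
    have h3 := hmax' _ hM3 (fun e he w hw => by
      rcases mem_insert.1 he with rfl | he
      · rcases Sym2.mem_iff.1 hw with rfl | rfl
        · exact hFU _ huv _ (Sym2.mem_mk_right _ _)
        · exact (hIU _ hq).1
      · rcases mem_insert.1 he with rfl | he
        · rcases Sym2.mem_iff.1 hw with rfl | rfl
          · exact hFU _ huv _ (Sym2.mem_mk_left _ _)
          · exact (hIU _ hp).1
        · exact hFU e (mem_of_mem_erase he) w hw)
    rw [card_insert_of_notMem hn3, card_insert_of_notMem hn2, card_erase_of_mem huv] at h3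
    have h4 : 0 < F.card := card_pos.2 ⟨_, huv⟩
    omega
  -- the number of missing pairs at a vertex
  obtain ⟨g, hg⟩ : ∃ g : V → ℕ, ∀ v, g v = (I.filter fun a => ¬ G.Adj v a).card :=
    ⟨_, fun _ => rfl⟩
  have hN : ∀ v, (I.filter fun a => G.Adj v a).card + g v = I.card := fun v => by
    rw [hg]
    exact Finset.card_filter_add_card_filter_not (s := I) (fun a => G.Adj v a)
  have hedge : 2 ≤ I.card → ∀ u v, s(u, v) ∈ F → I.card ≤ g u + g v := by
    intro h2 u v huv
    have h3 := hN u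
    have h4 := hN v
    rcases (I.filter fun a => G.Adj u a).eq_empty_or_nonempty with h5 | ⟨p, hp⟩
    · rw [h5, card_empty] at h3
      omega
    · rcases (I.filter fun a => G.Adj v a).eq_empty_or_nonempty with h6 | ⟨q, hq⟩
      · rw [h6, card_empty] at h4
        omega
      · obtain ⟨hp1, hp2⟩ := mem_filter.1 hp
        obtain ⟨hq1, hq2⟩ := mem_filter.1 hq
        have h7 : (I.filter fun a => G.Adj u a).card ≤ 1 := by
          refine card_le_one.2 fun a ha b hb => ?_
          obtain ⟨ha1, ha2⟩ := mem_filter.1 ha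
          obtain ⟨hb1, hb2⟩ := mem_filter.1 hb
          rw [hexch u v huv a ha1 q hq1 ha2 hq2, hexch u v huv b hb1 q hq1 hb2 hq2]
        have h8 : (I.filter fun a => G.Adj v a).card ≤ 1 := by
          refine card_le_one.2 fun a ha b hb => ?_
          obtain ⟨ha1, ha2⟩ := mem_filter.1 ha
          obtain ⟨hb1, hb2⟩ := mem_filter.1 hb
          rw [← hexch u v huv p hp1 a ha1 hp2 ha2, ← hexch u v huv p hp1 b hb1 hp2 hb2]
        omega
  have hsum : 2 ≤ I.card → F.card * I.card ≤ ∑ v ∈ C, g v := by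
    intro h2
    rw [hC, sum_biUnion hdisj, ← smul_eq_mul, ← Finset.sum_const]
    refine sum_le_sum fun e he => ?_
    induction e using Sym2.ind with
    | _ u v =>
      have huv : u ≠ v := (hM.1 _ he : G.Adj u v).ne
      have h3 : (s(u, v) : Sym2 V).toFinset = {u, v} := by
        ext w
        rw [Sym2.mem_toFinset, Sym2.mem_iff, mem_insert, mem_singleton]
      rw [h3, sum_pair huv]
      exact hedge h2 u v he
  -- the missing pairs
  obtain ⟨MP, hMP⟩ : ∃ MP : Finset (V × V),
      MP = (U ×ˢ U).filter fun p => p.1 ≠ p.2 ∧ ¬ G.Adj p.1 p.2 := ⟨_, rfl⟩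
  have hMPc : {p : V × V | p.1 ∈ U ∧ p.2 ∈ U ∧ p.1 ≠ p.2 ∧ ¬ G.Adj p.1 p.2}.ncard = MP.card := by
    rw [← Set.ncard_coe_finset]
    congr 1
    ext p
    rw [hMP, mem_coe, mem_filter, mem_product]
    exact ⟨fun h => ⟨⟨h.1, h.2.1⟩, h.2.2⟩, fun h => ⟨h.1.1, h.1.2, h.2⟩⟩
  rw [hMPc] at hmiss
  have hcount : 2 ≤ I.card → I.card * (U.card - 1) ≤ MP.card := by
    intro h2
    obtain ⟨Y, hY⟩ : ∃ Y : Finset (V × V), Y = (C ×ˢ I).filter fun p => ¬ G.Adj p.1 p.2 :=
      ⟨_, rfl⟩
    have hYc : Y.card = ∑ v ∈ C, g v := by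
      rw [hY, card_filter, sum_product]
      refine sum_congr rfl fun v _ => ?_
      rw [hg, card_filter]
    have hYm : ∀ p ∈ Y, p.1 ∈ C ∧ p.2 ∈ I ∧ ¬ G.Adj p.1 p.2 := by
      intro p hp
      rw [hY] at hp
      obtain ⟨h3, h4⟩ := mem_filter.1 hp
      exact ⟨(mem_product.1 h3).1, (mem_product.1 h3).2, h4⟩
    have hsub1 : I.offDiag ⊆ MP := by
      intro p hp
      rw [mem_offDiag] at hp
      rw [hMP, mem_filter, mem_product]
      exact ⟨⟨(hIU _ hp.1).1, (hIU _ hp.2.1).1⟩, hp.2.2, hind _ hp.1 _ hp.2.1⟩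
    have hsub2 : Y ⊆ MP := by
      intro p hp
      obtain ⟨h3, h4, h5⟩ := hYm p hp
      rw [hMP, mem_filter, mem_product]
      exact ⟨⟨hCU h3, (hIU _ h4).1⟩, fun h => (hIU _ h4).2 (h ▸ h3), h5⟩
    have hsub3 : Y.image Prod.swap ⊆ MP := by
      intro p hp
      obtain ⟨q, hq, rfl⟩ := mem_image.1 hp
      obtain ⟨h3, h4, h5⟩ := hYm q hq
      rw [hMP, mem_filter, mem_product]
      refine ⟨⟨(hIU _ h4).1, hCU h3⟩, ?_, ?_⟩
      · intro h
        have h' : q.2 = q.1 := h
        exact (hIU _ h4).2 (by rw [h']; exact h3)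
      · intro h
        have h' : G.Adj q.2 q.1 := h
        exact h5 h'.symm
    have hY2 : (Y.image Prod.swap).card = Y.card :=
      card_image_of_injective _ Prod.swap_injective
    have hd1 : Disjoint I.offDiag Y := by
      rw [Finset.disjoint_left]
      intro p h3 h4
      exact (hIU _ (mem_offDiag.1 h3).1).2 (hYm p h4).1
    have hd2 : Disjoint (I.offDiag ∪ Y) (Y.image Prod.swap) := by
      rw [Finset.disjoint_left]
      intro p h3 h4
      obtain ⟨q, hq, rfl⟩ := mem_image.1 h4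
      obtain ⟨h5, h6, -⟩ := hYm q hq
      rcases mem_union.1 h3 with h7 | h7
      · exact (hIU _ (mem_offDiag.1 h7).2.1).2 h5
      · exact (hIU _ (hYm _ h7).2.1).2 h5
    have h3 := card_le_card (union_subset (union_subset hsub1 hsub2) hsub3)
    rw [card_union_of_disjoint hd2, card_union_of_disjoint hd1, hY2, hYc, offDiag_card] at h3
    have h4 := hsum h2
    have h5 : I.card * (U.card - 1) = I.card * I.card - I.card + (F.card * I.card +
        F.card * I.card) := by
      obtain ⟨j, hj⟩ : ∃ j, I.card = j + 1 := ⟨I.card - 1, by omega⟩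
      have h6 : U.card - 1 = j + 2 * F.card := by omega
      rw [h6, hj]
      have h7 : (j + 1) * (j + 1) - (j + 1) = (j + 1) * j := by
        rw [← Nat.mul_sub_one]
        rfl
      rw [h7]
      ring
    omega
  have hle : I.card ≤ i := by
    by_contra hc
    have h2 : 2 ≤ I.card := by omega
    have h3 := hcount h2
    have h4 : (i + 1) * (U.card - 1) ≤ I.card * (U.card - 1) :=
      Nat.mul_le_mul_right _ (by omega)
    omega
  have hkF : k ≤ F.card := by omega
  obtain ⟨F', hF', hcard⟩ := exists_subset_card_eq hkF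
  exact ⟨F', ⟨fun e he => hM.1 e (hF' he), fun e he f hf => hM.2 e (hF' he) f (hF' hf)⟩, hcard,
    fun e he => hFU e (hF' he)⟩

end Pool.Agent.H621.ZM.NearU
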