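import Mathlib

/-!
Zero-sum matchings: definitions and statements of the parts.
-/

set_option autoImplicit false

namespace Pool.Agent.H621.ZM

open Finset

/-- `F` is the edge set of a matching of `G` -/
def IsM {V : Type} (G : SimpleGraph V) (F : Finset (Sym2 V)) : Prop :=
  (∀ e ∈ F, e ∈ G.edgeSet) ∧ ∀ e ∈ F, ∀ f ∈ F, e ≠ f → ∀ v ∈ e, v ∉ f

/-- no `s`-term zero-sum subsequence of `(c i)`, `i ∈ L` -/
def ZF {ι : Type} {s : ℕ} (c : ι → ZMod s) (L : Finset ι) : Prop :=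
  ∀ T, T ⊆ L → T.card = s → ∑ i ∈ T, c i ≠ 0

def aa {ι : Type} (w : ι → ℤ) (L : Finset ι) : ℤ := ∑ i ∈ L, max (1 - w i) 0
def bb {ι : Type} (w : ι → ℤ) (L : Finset ι) : ℤ := ∑ i ∈ L, max (w i) 0

/-- `w` is a lift of `c` on `L` (for the affine map `x ↦ g + d x`) with small positive and negative part -/
def Good {ι : Type} {s : ℕ} (c : ι → ZMod s) (g d : ZMod s) (w : ι → ℤ) (L : Finset ι) : Prop :=
  (∀ i ∈ L, c i = g + d * (w i : ZMod s)) ∧ aa w L + 1 ≤ (s : ℤ) ∧ bb w L + 1 ≤ (s : ℤ)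

/-- number of non-edges -/
noncomputable def miss {V : Type} (G : SimpleGraph V) : ℕ := Gᶜ.edgeSet.ncard

def m1 (s r : ℕ) : ℕ := r * (2 * s - 1) + r.choose 2
def m2 (s r : ℕ) : ℕ := (s + r).choose 2
def mm (s r : ℕ) : ℕ := min (m1 s r) (m2 s r)

/-- `K` is a family of disjoint nonempty sets outside `S`, each with all its outside neighbours in `S` -/
def Pieces {V : Type} [DecidableEq V] (G : SimpleGraph V) (S : Finset V) (K : Finset (Finset V)) : Prop :=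
  (∀ C ∈ K, C.Nonempty ∧ Disjoint C S ∧ ∀ v ∈ C, ∀ w, G.Adj v w → w ∈ C ∨ w ∈ S) ∧
  (K : Set (Finset V)).PairwiseDisjoint id

/-- exchange of one edge -/
def Step1 {V : Type} [DecidableEq V] (G : SimpleGraph V) (A B : Finset (Sym2 V)) : Prop :=
  IsM G B ∧ ∃ e f, e ∈ A ∧ f ∉ A ∧ B = insert f (A.erase e)

/-- exchange of two edges -/
def Step2 {V : Type} [DecidableEq V] (G : SimpleGraph V) (A B : Finset (Sym2 V)) : Prop :=
  IsM G B ∧ ∃ e₁ e₂ f₁ f₂, e₁ ∈ A ∧ e₂ ∈ A ∧ e₁ ≠ e₂ ∧ f₁ ∉ A ∧ f₂ ∉ A ∧ f₁ ≠ f₂ ∧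
    B = insert f₁ (insert f₂ ((A.erase e₁).erase e₂))

/-- any two matchings with `l` edges are connected by exchanges of one edge -/
def Conn1 {V : Type} [DecidableEq V] (G : SimpleGraph V) (l : ℕ) : Prop :=
  ∀ A B : Finset (Sym2 V), IsM G A → IsM G B → A.card = l → B.card = l →
    Relation.ReflTransGen (Step1 G) A B

/-- any two matchings with `l` edges are connected by exchanges of one or two edges -/
def Conn2 {V : Type} [DecidableEq V] (G : SimpleGraph V) (l : ℕ) : Prop :=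
  ∀ A B : Finset (Sym2 V), IsM G A → IsM G B → A.card = l → B.card = l →
    Relation.ReflTransGen (fun X Y => Step1 G X Y ∨ Step2 G X Y) A B

/-! ### The parts -/

/-- INTERVAL -/
def S_Interval : Prop := ∀ (ι : Type) [DecidableEq ι] (L : Finset ι) (w : ι → ℤ) (k : ℕ),
  (L.filter (fun i => w i ≤ 0)).card ≤ k → (L.filter (fun i => 1 ≤ w i)).card ≤ k →
  aa w L + bb w L ≤ L.card + k → aa w L + bb w L + k ≤ 2 * L.card →
  (∀ i ∈ L, 2 ≤ w i → w i ≤ (L.filter (fun j => w j = 1)).card + 1 ∧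
      w i ≤ (L.filter (fun j => w j = 0)).card + 2) →
  (∀ i ∈ L, w i ≤ -1 → -w i ≤ (L.filter (fun j => w j = 1)).card + 1 ∧
      -w i ≤ (L.filter (fun j => w j = 0)).card) →
  ∀ x : ℤ, k - aa w L ≤ x → x ≤ bb w L → ∃ T, T ⊆ L ∧ T.card = k ∧ ∑ i ∈ T, w i = x

/-- SWAP1: exchange of one term -/
def S_Swap1 : Prop := ∀ (ι : Type) [DecidableEq ι] (s t : ℕ) (c : ι → ZMod s) (g d : ZMod s)
  (w : ι → ℤ) (L0 : Finset ι) (i j : ι), 2 ≤ s → IsUnit d → i ∉ L0 → j ∉ L0 →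
  L0.card + 2 = s + t → Good c g d w (insert i L0) →
  aa w (insert i L0) + bb w (insert i L0) + 3 ≤ (s : ℤ) + 2 * t → ZF c (insert j L0) →
  ∃ w', Good c g d w' (insert j L0) ∧ ∀ k ∈ L0, w' k = w k

/-- SWAP2: exchange of two terms -/
def S_Swap2 : Prop := ∀ (ι : Type) [DecidableEq ι] (s t : ℕ) (c : ι → ZMod s) (g d : ZMod s)
  (w : ι → ℤ) (L0 : Finset ι) (i i' j j' : ι), 3 ≤ s → IsUnit d →
  i ∉ L0 → i' ∉ L0 → i ≠ i' → j ∉ L0 → j' ∉ L0 → j ≠ j' →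
  L0.card + 3 = s + t → s + 2 ≤ 2 * t → Good c g d w (insert i (insert i' L0)) →
  ZF c (insert j (insert j' L0)) →
  ∃ w', Good c g d w' (insert j (insert j' L0)) ∧ ∀ k ∈ L0, w' k = w k

/-- ZEROFREE: zero-free sequences with few subsums -/
def S_ZeroFree : Prop := ∀ (G : Type) [AddCommGroup G] [DecidableEq G] (ι : Type) [DecidableEq ι]
  (L : Finset ι) (c : ι → G), (∀ T, T ⊆ L → T.Nonempty → ∑ i ∈ T, c i ≠ 0) →
  (L.powerset.image (fun T => ∑ i ∈ T, c i)).card + 1 ≤ 2 * L.card →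
  ∃ (g : G) (x : ι → ℕ), (∀ i ∈ L, 1 ≤ x i ∧ c i = x i • g) ∧
    (L.powerset.image (fun T => ∑ i ∈ T, c i)).card = (∑ i ∈ L, x i) + 1 ∧
    ∀ j : ℕ, 1 ≤ j → j ≤ ∑ i ∈ L, x i → j • g ≠ 0

/-- STRUCT: the structure of long `s`-zero-free sequences with a popular value -/
def S_Struct : Prop := ∀ (ι : Type) [DecidableEq ι] (s t : ℕ) (c : ι → ZMod s) (L : Finset ι),
  2 ≤ s → s + 1 ≤ 2 * t → L.card + 1 = s + t → ZF c L →
  (∃ x, t ≤ (L.filter (fun i => c i = x)).card + 1) →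
  ∃ (g d : ZMod s) (w : ι → ℤ), IsUnit d ∧ Good c g d w L

/-- SUMS: a Kneser type theorem -/
def S_Sums : Prop := ∀ (G : Type) [AddCommGroup G] [Fintype G] [DecidableEq G] (n : ℕ), 1 ≤ n →
  (∀ K : AddSubgroup G, K ≠ ⊥ → K ≠ ⊤ → Nat.card K + K.index ≤ n + 2) →
  ∀ (ι : Type) [DecidableEq ι] (L : Finset ι) (c : ι → G),
  (∀ K : AddSubgroup G, K.index + n ≤ 1 + ∑ᶠ Q : G ⧸ K,
      min n {i | i ∈ L ∧ (QuotientAddGroup.mk (c i) : G ⧸ K) = Q}.ncard) →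
  ∀ x : G, ∃ T, T ⊆ L ∧ T.card = n ∧ ∑ i ∈ T, c i = x

/-- POP: a long `s`-zero-free sequence has a popular value -/
def S_Pop : Prop := ∀ (ι : Type) [DecidableEq ι] (s t : ℕ) (c : ι → ZMod s) (L : Finset ι),
  2 ≤ s → s + 1 ≤ 2 * t → L.card + 1 = s + t → ZF c L →
  ∃ x, t ≤ (L.filter (fun i => c i = x)).card

/-- JUMP: a matching with `k` edges can be moved to any `k` edges of a matching with `k + 1` edges -/
def S_Jump : Prop := ∀ (V : Type) [DecidableEq V] (G : SimpleGraph V) (X P Y : Finset (Sym2 V)),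
  IsM G X → IsM G P → P.card = X.card + 1 → Y ⊆ P → Y.card = X.card →
  Relation.ReflTransGen (fun A B => Step1 G A B ∧ B ⊆ X ∪ P) X Y

/-- BARRIER: many pieces force many non-edges -/
def S_Barrier : Prop := ∀ (V : Type) [Fintype V] [DecidableEq V] (G : SimpleGraph V) (s r : ℕ),
  2 ≤ s → 1 ≤ r → r + 1 ≤ s → Fintype.card V + 2 = 3 * s + r → (∀ v, s ≤ (G.neighborSet v).ncard) →
  ∀ (S : Finset V) (K : Finset (Finset V)), Pieces G S K → 2 ≤ K.card →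
  S.card + r + 2 ≤ K.card + s → mm s r ≤ miss G

/-- EXT: small matchings extend -/
def S_Ext : Prop := ∀ (V : Type) [Fintype V] [DecidableEq V] (G : SimpleGraph V) (s r t : ℕ),
  2 ≤ s → 1 ≤ r → r + 1 ≤ s → Fintype.card V + 2 = 3 * s + r → (∀ v, s ≤ (G.neighborSet v).ncard) →
  miss G < mm s r → 2 * t ≤ s + r → ∀ F, IsM G F → F.card + t ≤ s →
  ∃ F', F ⊆ F' ∧ IsM G F' ∧ F'.card + 1 = s + t

/-- NEAR: an almost perfect matching -/
def S_Near : Prop := ∀ (V : Type) [Fintype V] [DecidableEq V] (G : SimpleGraph V) (s r : ℕ),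
  2 ≤ s → 1 ≤ r → r + 1 ≤ s → Fintype.card V + 2 = 3 * s + r → (∀ v, s ≤ (G.neighborSet v).ncard) →
  miss G < mm s r → ∃ F, IsM G F ∧ Fintype.card V ≤ 2 * F.card + 1

/-- TWOCOL: the number of non-edges of a union of two graphs without `s K_2` -/
def S_TwoCol : Prop := ∀ (V : Type) [Fintype V] [DecidableEq V] (G G₁ G₂ : SimpleGraph V) (s r : ℕ),
  1 ≤ s → Fintype.card V + 2 = 3 * s + r → G ≤ G₁ ⊔ G₂ → (∀ F, IsM G₁ F → F.card < s) →
  (∀ F, IsM G₂ F → F.card < s) → mm s r ≤ miss G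

/-- BIG: large minimum degree -/
def S_Big : Prop := ∀ (V : Type) [Fintype V] [DecidableEq V] (G : SimpleGraph V) (s : ℕ), 1 ≤ s →
  4 * s ≤ Fintype.card V + 2 → (∀ v, 2 * s - 1 ≤ (G.neighborSet v).ncard) →
  ∃ F, IsM G F ∧ F.card = 2 * s - 1

/-- CORE: a zero-sum-free labelling is a two-colouring -/
def S_Core : Prop := ∀ (V : Type) [Fintype V] [DecidableEq V] (G : SimpleGraph V) (s t : ℕ)
  (c : Sym2 V → ZMod s), 3 ≤ s → s + 1 ≤ 2 * t → t + 1 ≤ s →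
  (∀ F, IsM G F → F.card = s → ∑ e ∈ F, c e ≠ 0) →
  (∀ F, IsM G F → F.card + t ≤ s → ∃ F', F ⊆ F' ∧ IsM G F' ∧ F'.card + 1 = s + t) →
  (Conn1 G (s + t - 1) ∨ (s + 2 ≤ 2 * t ∧ Conn2 G (s + t - 1))) →
  ∃ G₁ G₂ : SimpleGraph V, G ≤ G₁ ⊔ G₂ ∧ (∀ F, IsM G₁ F → F.card < s) ∧ (∀ F, IsM G₂ F → F.card < s)

/-- CONN: connectivity of the matchings with `s + s / 2` edges -/
def S_Conn : Prop := ∀ (V : Type) [Fintype V] [DecidableEq V] (G : SimpleGraph V) (s r : ℕ),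
  3 ≤ s → 2 ≤ r → r + 1 ≤ s → Fintype.card V + 2 = 3 * s + r → (∀ v, s ≤ (G.neighborSet v).ncard) →
  miss G < mm s r → Conn1 G (s + s / 2) ∨ (Even s ∧ Conn2 G (s + s / 2))

/-- CONNNEAR: almost perfect matchings are connected -/
def S_ConnNear : Prop := ∀ (V : Type) [Fintype V] [DecidableEq V] (G : SimpleGraph V) (s l : ℕ),
  Fintype.card V = 2 * l + 1 → (∀ v, s ≤ (G.neighborSet v).ncard) →
  (miss G < 4 * (s + 1) → Conn1 G l) ∧ (miss G < 6 * (s + 1) → Conn2 G l)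

/-- CONNPERF: perfect matchings are connected -/
def S_ConnPerf : Prop := ∀ (V : Type) [Fintype V] [DecidableEq V] (G : SimpleGraph V) (l : ℕ),
  Fintype.card V = 2 * l → miss G + 9 < 4 * l → Conn2 G l

/-- CONSTR: two-coloured graphs with many edges -/
def S_Constr : Prop := ∀ (n s r : ℕ), 1 ≤ s → n + 2 = 3 * s + r →
  ∃ G : SimpleGraph (Fin n), G.edgeSet.ncard + mm s r = n.choose 2 ∧
    ∃ c : Sym2 (Fin n) → Bool, ∀ F : Finset (Sym2 (Fin n)),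
      (↑F : Set (Sym2 (Fin n))) ⊆ G.edgeSet → F.card = s →
      (∀ e ∈ F, ∀ f ∈ F, e ≠ f → ∀ v ∈ e, v ∉ f) → ¬ ∃ b : Bool, ∀ e ∈ F, c e = b

end Pool.Agent.H621.ZM
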