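import Mathlib
import Pool.Agent.H621.ZM.Spec

/-!
A long `s`-zero-free sequence in `ZMod s` has a popular value.
-/

set_option autoImplicit false

namespace Pool.Agent.H621.ZM.Pop

open Finset Pool.Agent.H621.ZM

/-- iterated Erdős–Ginzburg–Ziv -/
theorem egz_iter {H : Type} [AddCommGroup H] [Finite H] [IsAddCyclic H] {ι : Type} [DecidableEq ι]
    (a : ι → H) (q : ℕ) : ∀ A : Finset ι, (q + 1) * Nat.card H ≤ A.card + 1 →
    ∃ T, T ⊆ A ∧ T.card = q * Nat.card H ∧ ∑ i ∈ T, a i = 0 := by
  have hk : 0 < Nat.card H := Nat.card_pos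
  let e : ZMod (Nat.card H) ≃+ H := zmodAddCyclicAddEquiv (inferInstance : IsAddCyclic H)
  induction q with
  | zero => intro A _; exact ⟨∅, by simp, by simp, by simp⟩
  | succ q ih =>
    intro A hA
    have h1 : (q + 1 + 1) * Nat.card H = (q + 1) * Nat.card H + Nat.card H := by ring
    have h2 : (q + 1) * Nat.card H = q * Nat.card H + Nat.card H := by ring
    obtain ⟨T0, hT0, hc0, hs0⟩ := ZMod.erdos_ginzburg_ziv (n := Nat.card H) (s := A)
      (fun i => e.symm (a i)) (by omega)
    have hs0' : ∑ i ∈ T0, a i = 0 := by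
      have h : e.symm (∑ i ∈ T0, a i) = 0 := by rw [map_sum]; exact hs0
      exact (AddEquiv.map_eq_zero_iff e.symm).1 h
    have hcd : (A \ T0).card = A.card - T0.card := Finset.card_sdiff_of_subset hT0
    obtain ⟨T1, hT1, hc1, hs1⟩ := ih (A \ T0) (by omega)
    have hdis : Disjoint T0 T1 := by
      refine Finset.disjoint_left.2 fun i hi hi1 => ?_
      exact (Finset.mem_sdiff.1 (hT1 hi1)).2 hi
    refine ⟨T0 ∪ T1, ?_, ?_, ?_⟩
    · refine Finset.union_subset hT0 (hT1.trans Finset.sdiff_subset)
    · rw [Finset.card_union_of_disjoint hdis]; omega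
    · rw [Finset.sum_union hdis, hs0', hs1, add_zero]

/-- the numerical condition -/
theorem num_cond (s n k q : ℕ) (hn : s ≤ 2 * n + 1) (hkq : k * q = s) (hk : 2 ≤ k) (hq : 2 ≤ q) :
    k + q ≤ n + 2 := by
  rcases Nat.even_or_odd s with he | ho
  · obtain ⟨m, hm⟩ := he
    obtain ⟨a, rfl⟩ := Nat.exists_eq_add_of_le hk
    obtain ⟨b, rfl⟩ := Nat.exists_eq_add_of_le hq
    have : (2 + a) * (2 + b) = 4 + 2 * a + 2 * b + a * b := by ring
    have h3 : 0 ≤ a * b := Nat.zero_le _
    omega
  · have hk1 : Odd k := by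
      rw [← hkq] at ho
      exact (Nat.odd_mul.1 ho).1
    have hq1 : Odd q := by
      rw [← hkq] at ho
      exact (Nat.odd_mul.1 ho).2
    have hk3 : 3 ≤ k := by
      obtain ⟨a, ha⟩ := hk1; omega
    have hq3 : 3 ≤ q := by
      obtain ⟨a, ha⟩ := hq1; omega
    obtain ⟨m, hm⟩ := ho
    obtain ⟨a, rfl⟩ := Nat.exists_eq_add_of_le hk3
    obtain ⟨b, rfl⟩ := Nat.exists_eq_add_of_le hq3
    have : (3 + a) * (3 + b) = 9 + 3 * a + 3 * b + a * b := by ring
    have h3 : 0 ≤ a * b := Nat.zero_le _
    omega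

theorem pop (hS : S_Sums) : S_Pop := by
  classical
  intro ι _ s t c L hs2 hst hL hZF
  by_contra hcon
  push Not at hcon
  have : NeZero s := ⟨by omega⟩
  obtain ⟨n, rfl⟩ : ∃ n, t = n + 1 := ⟨t - 1, by omega⟩
  have hLn : L.card = s + n := by omega
  have hn : s ≤ 2 * n + 1 := by omega
  have hn1 : 1 ≤ n := by omega
  have hcardG : Nat.card (ZMod s) = s := Nat.card_zmod s
  have hki : ∀ K : AddSubgroup (ZMod s), Nat.card K * K.index = s := by
    intro K; rw [AddSubgroup.card_mul_index, hcardG]
  have hcardK : ∀ K : AddSubgroup (ZMod s), K ≠ ⊥ → 2 ≤ Nat.card K := by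
    intro K hK
    have h0 : 0 < Nat.card K := Nat.card_pos
    have h1 : Nat.card K ≠ 1 := fun h => hK (AddSubgroup.card_eq_one.1 h)
    omega
  have hindK : ∀ K : AddSubgroup (ZMod s), K ≠ ⊤ → 2 ≤ K.index := by
    intro K hK
    have h0 : K.index ≠ 0 := AddSubgroup.index_ne_zero_of_finite
    have h1 : K.index ≠ 1 := fun h => hK (AddSubgroup.index_eq_one.1 h)
    omega
  have hnum : ∀ K : AddSubgroup (ZMod s), K ≠ ⊥ → K ≠ ⊤ → Nat.card K + K.index ≤ n + 2 :=
    fun K h1 h2 => num_cond s n _ _ hn (hki K) (hcardK K h1) (hindK K h2)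
  have hmain : ∀ K : AddSubgroup (ZMod s), K.index + n ≤ 1 + ∑ᶠ Q : (ZMod s) ⧸ K,
      min n {i | i ∈ L ∧ (QuotientAddGroup.mk (c i) : (ZMod s) ⧸ K) = Q}.ncard := by
    intro K
    haveI : Fintype ((ZMod s) ⧸ K) := Fintype.ofFinite _
    let m : (ZMod s) ⧸ K → ℕ := fun Q =>
      (L.filter (fun i => (QuotientAddGroup.mk (c i) : (ZMod s) ⧸ K) = Q)).card
    have hm : ∀ Q, {i | i ∈ L ∧ (QuotientAddGroup.mk (c i) : (ZMod s) ⧸ K) = Q}.ncard = m Q := by
      intro Q
      have h : {i | i ∈ L ∧ (QuotientAddGroup.mk (c i) : (ZMod s) ⧸ K) = Q}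
          = ((L.filter (fun i => (QuotientAddGroup.mk (c i) : (ZMod s) ⧸ K) = Q) : Finset ι) : Set ι) := by
        ext i; simp
      rw [h, Set.ncard_coe_finset]
    have hfs : ∑ᶠ Q : (ZMod s) ⧸ K,
        min n {i | i ∈ L ∧ (QuotientAddGroup.mk (c i) : (ZMod s) ⧸ K) = Q}.ncard
        = ∑ Q : (ZMod s) ⧸ K, min n (m Q) := by
      rw [finsum_eq_sum_of_fintype]
      exact Finset.sum_congr rfl fun Q _ => by rw [hm]
    rw [hfs]
    have htot : ∑ Q : (ZMod s) ⧸ K, m Q = s + n := by
      rw [← hLn]
      exact (Finset.card_eq_sum_card_fiberwise (f := fun i =>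
        (QuotientAddGroup.mk (c i) : (ZMod s) ⧸ K)) (t := Finset.univ) (by intro i _; simp)).symm
    have hkis := hki K
    have hkpos : 0 < Nat.card K := Nat.card_pos
    have hqs : K.index ≤ s := by
      calc K.index ≤ Nat.card K * K.index := Nat.le_mul_of_pos_left _ hkpos
        _ = s := hkis
    by_cases hall : ∀ Q, m Q ≤ n
    · have : ∑ Q : (ZMod s) ⧸ K, min n (m Q) = s + n := by
        rw [← htot]
        exact Finset.sum_congr rfl fun Q _ => min_eq_right (hall Q)
      omega
    · push Not at hall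
      obtain ⟨Q0, hQ0⟩ := hall
      have hsplit : ∑ Q : (ZMod s) ⧸ K, min n (m Q)
          = min n (m Q0) + ∑ Q ∈ Finset.univ.erase Q0, min n (m Q) :=
        (Finset.add_sum_erase _ _ (Finset.mem_univ Q0)).symm
      have hsplit' : ∑ Q : (ZMod s) ⧸ K, m Q
          = m Q0 + ∑ Q ∈ Finset.univ.erase Q0, m Q :=
        (Finset.add_sum_erase _ _ (Finset.mem_univ Q0)).symm
      have hmin0 : min n (m Q0) = n := min_eq_left hQ0.le
      by_cases hKbot : K = ⊥
      · -- all multiplicities are at most `n`
        exfalso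
        subst hKbot
        obtain ⟨x, rfl⟩ := QuotientAddGroup.mk_surjective Q0
        have h1 := hcon x
        have h2 : m (QuotientAddGroup.mk x) = (L.filter (fun i => c i = x)).card := by
          show (L.filter _).card = _
          congr 1
          refine Finset.filter_congr fun i _ => ?_
          rw [QuotientAddGroup.eq, AddSubgroup.mem_bot]
          constructor
          · intro h
            have : c i = x := by
              have h' : x = c i := by
                have := congrArg (fun y => c i + y) h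
                simpa using this
              exact h'.symm
            exact this
          · intro h; rw [h]; simp
        omega
      by_cases hKtop : K = ⊤
      · subst hKtop
        rw [AddSubgroup.index_top]
        omega
      have h1 := hnum K hKbot hKtop
      have hk2 := hcardK K hKbot
      by_contra hlt
      push Not at hlt
      -- the terms outside `Q0`
      have hothers : ∀ Q ∈ Finset.univ.erase Q0, min n (m Q) = m Q := by
        intro Q hQ
        have h3 : min n (m Q) ≤ ∑ Q ∈ Finset.univ.erase Q0, min n (m Q) :=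
          Finset.single_le_sum (f := fun Q => min n (m Q)) (fun _ _ => Nat.zero_le _) hQ
        have h4 : min n (m Q) < n := by omega
        rcases min_choice n (m Q) with h5 | h5
        · omega
        · exact h5
      have hsum : ∑ Q ∈ Finset.univ.erase Q0, min n (m Q) = ∑ Q ∈ Finset.univ.erase Q0, m Q :=
        Finset.sum_congr rfl hothers
      have hbig : s + Nat.card K ≤ m Q0 := by omega
      obtain ⟨g0, rfl⟩ := QuotientAddGroup.mk_surjective Q0
      let A := L.filter (fun i => (QuotientAddGroup.mk (c i) : (ZMod s) ⧸ K) = QuotientAddGroup.mk g0)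
      have hA : s + Nat.card K ≤ A.card := hbig
      have hAK : ∀ i ∈ A, c i - g0 ∈ K := by
        intro i hi
        have h3 := (Finset.mem_filter.1 hi).2
        rw [QuotientAddGroup.eq] at h3
        have h4 := K.neg_mem h3
        have h5 : -(-c i + g0) = c i - g0 := by ring
        rwa [h5] at h4
      let κ : ι → K := fun i => if h : c i - g0 ∈ K then ⟨c i - g0, h⟩ else 0
      have : IsAddCyclic K := inferInstance
      obtain ⟨T, hTA, hTc, hTs⟩ := egz_iter κ K.index A (by
        have : (K.index + 1) * Nat.card K = Nat.card K * K.index + Nat.card K := by ring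
        omega)
      have hTc' : T.card = s := by rw [hTc, mul_comm]; exact hkis
      refine hZF T (hTA.trans (Finset.filter_subset _ _)) hTc' ?_
      have h6 : ∀ i ∈ T, c i = g0 + (κ i : ZMod s) := by
        intro i hi
        have h7 := hAK i (hTA hi)
        have h8 : (κ i : ZMod s) = c i - g0 := by
          show ((if h : c i - g0 ∈ K then (⟨c i - g0, h⟩ : K) else 0 : K) : ZMod s) = _
          rw [dif_pos h7]
        rw [h8]; ring
      rw [Finset.sum_congr rfl h6, Finset.sum_add_distrib, Finset.sum_const, hTc']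
      have h9 : ∑ i ∈ T, ((κ i : K) : ZMod s) = ((∑ i ∈ T, κ i : K) : ZMod s) := by
        rw [AddSubgroup.val_finsetSum]
      rw [h9, hTs]
      simp
  obtain ⟨T, hTL, hTc, hTs⟩ := hS (ZMod s) n hn1 hnum ι L c hmain (∑ i ∈ L, c i)
  refine hZF (L \ T) Finset.sdiff_subset ?_ ?_
  · rw [Finset.card_sdiff_of_subset hTL]; omega
  · have := Finset.sum_sdiff (f := c) hTL
    rw [hTs] at this
    exact add_eq_right.1 this

end Pool.Agent.H621.ZM.Pop
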