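import Pool.Agent.H621.ZM.Spec
import Pool.Graph.R_seed8.Helper730.Kneser

/-!
A Kneser type theorem: `n`-term subsums cover the group.
-/

set_option autoImplicit false
set_option linter.unusedSectionVars false
set_option linter.unusedVariables false

open Finset
open scoped Pointwise

namespace Pool.Agent.H621.ZM.Sums

open Pool.Agent.Helper730.Kneser

def Cnd (G : Type) [AddCommGroup G] (n : ℕ) {ι : Type} (L : Finset ι) (c : ι → G) : Prop :=
  ∀ (H : Type) [AddCommGroup H] [Fintype H] [DecidableEq H] (φ : G →+ H), Function.Surjective φ →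
    Fintype.card H + n ≤ 1 + ∑ y : H, min n (L.filter (fun i => φ (c i) = y)).card

def Num (G : Type) [AddCommGroup G] [Fintype G] (n : ℕ) : Prop :=
  ∀ (H : Type) [AddCommGroup H] [Fintype H] (φ : G →+ H), Function.Surjective φ →
    ∀ k : ℕ, k * Fintype.card H = Fintype.card G → 2 ≤ k → 2 ≤ Fintype.card H →
      k + Fintype.card H ≤ n + 2

theorem trunc {G : Type} [AddCommGroup G] [DecidableEq G] {ι : Type} [DecidableEq ι] (n : ℕ)
    (c : ι → G) : ∀ (L : Finset ι), Cnd G n L c → ∃ L1, L1 ⊆ L ∧ Cnd G n L1 c ∧
      ∀ v, (L1.filter (fun i => c i = v)).card ≤ n := by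
  intro L
  induction L using Finset.strongInduction with
  | H L ih =>
    intro hL
    by_cases hv : ∃ v, n < (L.filter (fun i => c i = v)).card
    · obtain ⟨v, hv⟩ := hv
      obtain ⟨i, hi⟩ := Finset.card_pos.mp (by omega : 0 < (L.filter (fun i => c i = v)).card)
      have hi' := hi
      rw [Finset.mem_filter] at hi
      have hc : Cnd G n (L.erase i) c := by
        intro H _ _ _ φ hφ
        have h1 := hL H φ hφ
        refine h1.trans (Nat.add_le_add_left (Finset.sum_le_sum ?_) 1)
        intro y _
        rw [Finset.filter_erase]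
        by_cases hy : φ (c i) = y
        · have : n ≤ ((L.filter (fun j => φ (c j) = y)).erase i).card := by
            have h2 : ((L.filter (fun j => c j = v)).erase i) ⊆
                (L.filter (fun j => φ (c j) = y)).erase i := by
              apply Finset.erase_subset_erase
              intro j hj
              rw [Finset.mem_filter] at hj ⊢
              exact ⟨hj.1, by rw [hj.2, ← hi.2, hy]⟩
            have h3 := Finset.card_le_card h2
            rw [Finset.card_erase_of_mem hi'] at h3
            omega
          omega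
        · rw [Finset.erase_eq_of_notMem]
          rw [Finset.mem_filter]
          exact fun h => hy h.2
      obtain ⟨L1, h1, h2, h3⟩ := ih (L.erase i) (Finset.erase_ssubset hi.1) hc
      exact ⟨L1, h1.trans (Finset.erase_subset _ _), h2, h3⟩
    · push Not at hv
      exact ⟨L, Finset.Subset.refl _, hL, hv⟩

theorem len_le {G : Type} [AddCommGroup G] [Fintype G] [DecidableEq G] {ι : Type} (n : ℕ)
    (c : ι → G) (L : Finset ι) (h : Cnd G n L c) : Fintype.card G + n ≤ 1 + L.card := by
  have h1 := h G (AddMonoidHom.id G) Function.surjective_id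
  have h2 : ∑ y : G, min n (L.filter (fun i => c i = y)).card ≤
      ∑ y : G, (L.filter (fun i => c i = y)).card := Finset.sum_le_sum (fun y _ => min_le_right _ _)
  have h3 : L.card = ∑ y : G, (L.filter (fun i => c i = y)).card :=
    Finset.card_eq_sum_card_fiberwise (fun i _ => Finset.mem_univ _)
  simp only [AddMonoidHom.id_apply] at h1
  omega

section chain

variable {G : Type} [AddCommGroup G] [Fintype G] [DecidableEq G]

def PS (A : ℕ → Finset G) : ℕ → Finset G
  | 0 => {0}
  | j + 1 => PS A j + A j

theorem PS_nonempty (A : ℕ → Finset G) (h : ℕ) (hA : ∀ i, i < h → (A i).Nonempty) :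
    ∀ j, j ≤ h → (PS A j).Nonempty := by
  intro j
  induction j with
  | zero => intro _; exact Finset.singleton_nonempty 0
  | succ j ih =>
    intro hj
    exact (ih (by omega)).add (hA j (by omega))

theorem fs_add_fs (K : AddSubgroup G) : fs K + fs K = fs K := by
  apply add_fs_stab
  intro g hg x
  rw [mem_fs, mem_fs]
  exact ⟨fun hx => K.add_mem hx hg, fun hx => by
    have := K.sub_mem hx hg
    rwa [add_sub_cancel_right] at this⟩

theorem le_stab_add_fs (C : Finset G) (K : AddSubgroup G) : K ≤ stab (C + fs K) := by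
  intro g hg
  apply mem_stab_of_forall
  intro x hx
  obtain ⟨y, hy, z, hz, rfl⟩ := Finset.mem_add.mp hx
  rw [add_assoc]
  exact Finset.add_mem_add hy (mem_fs.mpr (K.add_mem (mem_fs.mp hz) hg))

theorem stab_le_stab_add (C A : Finset G) : stab C ≤ stab (C + A) := by
  intro g hg
  apply mem_stab_of_forall
  intro x hx
  obtain ⟨y, hy, z, hz, rfl⟩ := Finset.mem_add.mp hx
  rw [add_right_comm]
  exact Finset.add_mem_add (stab_add hg hy) hz

theorem chain (A : ℕ → Finset G) (h : ℕ) (hA : ∀ i, i < h → (A i).Nonempty) (K : AddSubgroup G) :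
    ∀ j, j ≤ h → stab (PS A j + fs K) = K →
      ∑ i ∈ Finset.range j, (A i + fs K).card + (fs K).card ≤
        (PS A j + fs K).card + j * (fs K).card := by
  intro j
  induction j with
  | zero =>
    intro _ _
    have : PS A 0 + fs K = fs K := by
      show {0} + fs K = fs K
      rw [Finset.singleton_add]
      simp
    rw [this]
    simp
  | succ j ih =>
    intro hj hst
    have e1 : PS A j + fs K + A j = PS A (j + 1) + fs K := by
      show _ = PS A j + A j + fs K
      rw [add_right_comm]
    have h1 : stab (PS A j + fs K) = K := by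
      apply le_antisymm
      · have := stab_le_stab_add (PS A j + fs K) (A j)
        rw [e1, hst] at this
        exact this
      · exact le_stab_add_fs _ _
    have h2 := ih (by omega) h1
    have h3 := kneser' (PS A j + fs K) (A j)
      ((PS_nonempty A h hA j (by omega)).add (fs_nonempty K)) (hA j (by omega))
    rw [e1, hst, add_assoc, fs_add_fs] at h3
    rw [Finset.sum_range_succ, Nat.succ_mul]
    omega

theorem greedy {ι : Type} [DecidableEq ι] (L : Finset ι) (c : ι → G) :
    ∀ j, ∀ x ∈ PS (fun i => Finset.univ.filter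
      (fun v => i < (L.filter (fun l => c l = v)).card)) j,
      ∃ T, T ⊆ L ∧ T.card = j ∧ ∑ i ∈ T, c i = x := by
  intro j
  induction j with
  | zero =>
    intro x hx
    have hx0 : x = 0 := Finset.mem_singleton.mp hx
    exact ⟨∅, Finset.empty_subset _, rfl, by rw [hx0]; simp⟩
  | succ j ih =>
    intro x hx
    obtain ⟨y, hy, v, hv, rfl⟩ := Finset.mem_add.mp hx
    obtain ⟨T, hT, hTc, hTs⟩ := ih y hy
    rw [Finset.mem_filter] at hv
    obtain ⟨i, hi, hiT⟩ := Finset.exists_mem_notMem_of_card_lt_card (by rw [hTc]; exact hv.2 :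
      T.card < (L.filter (fun l => c l = v)).card)
    rw [Finset.mem_filter] at hi
    refine ⟨insert i T, Finset.insert_subset hi.1 hT, ?_, ?_⟩
    · rw [Finset.card_insert_of_notMem hiT, hTc]
    · rw [Finset.sum_insert hiT, hTs, hi.2, add_comm]

theorem layer {ι : Type} [DecidableEq ι] (L : Finset ι) (c : ι → G) (h : ℕ)
    (hmax : ∀ v, (L.filter (fun i => c i = v)).card ≤ h) (p : G → Prop) [DecidablePred p] :
    ∑ i ∈ Finset.range h, ((Finset.univ.filter
      (fun v => i < (L.filter (fun l => c l = v)).card)).filter p).card =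
      (L.filter (fun l => p (c l))).card := by
  have h1 : (L.filter (fun l => p (c l))).card =
      ∑ v : G, ((L.filter (fun l => p (c l))).filter (fun l => c l = v)).card :=
    Finset.card_eq_sum_card_fiberwise (fun i _ => Finset.mem_univ _)
  rw [h1]
  have h2 : ∀ i, ((Finset.univ.filter
      (fun v => i < (L.filter (fun l => c l = v)).card)).filter p).card =
      ∑ v : G, if (i < (L.filter (fun l => c l = v)).card ∧ p v) then 1 else 0 := by
    intro i
    rw [Finset.filter_filter, Finset.card_filter]
  rw [Finset.sum_congr rfl (fun i _ => h2 i), Finset.sum_comm]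
  apply Finset.sum_congr rfl
  intro v _
  rw [← Finset.card_filter]
  by_cases hp : p v
  · have e1 : (L.filter (fun l => p (c l))).filter (fun l => c l = v) =
        L.filter (fun l => c l = v) := by
      ext l
      simp only [Finset.mem_filter]
      constructor
      · rintro ⟨⟨h1, h2⟩, h3⟩
        exact ⟨h1, h3⟩
      · rintro ⟨h1, h3⟩
        exact ⟨⟨h1, by rw [h3]; exact hp⟩, h3⟩
    rw [e1]
    have e2 : (Finset.range h).filter
        (fun i => i < (L.filter (fun l => c l = v)).card ∧ p v) =
        Finset.range (L.filter (fun l => c l = v)).card := by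
      ext i
      simp only [Finset.mem_filter, Finset.mem_range]
      constructor
      · rintro ⟨_, h2, _⟩
        exact h2
      · intro h2
        exact ⟨lt_of_lt_of_le h2 (hmax v), h2, hp⟩
    rw [e2, Finset.card_range]
  · have e1 : (L.filter (fun l => p (c l))).filter (fun l => c l = v) = ∅ := by
      ext l
      simp only [Finset.mem_filter, Finset.notMem_empty, iff_false]
      rintro ⟨⟨h1, h2⟩, h3⟩
      rw [h3] at h2
      exact hp h2
    have e2 : (Finset.range h).filter
        (fun i => i < (L.filter (fun l => c l = v)).card ∧ p v) = ∅ := by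
      ext i
      simp only [Finset.mem_filter, Finset.notMem_empty, iff_false]
      rintro ⟨_, _, h2⟩
      exact hp h2
    rw [e1, e2]
    rfl

theorem popular {ι : Type} [DecidableEq ι] (n : ℕ) (L : Finset ι) (c : ι → G)
    (hN : Fintype.card G + n ≤ 1 + L.card) (h : ℕ) (hn : h ≤ n) (hh : 1 ≤ h)
    (hmax : ∀ v, (L.filter (fun i => c i = v)).card ≤ h) (a : G)
    (ha : (L.filter (fun i => c i = a)).card = h) :
    (∀ x, ∃ T, T ⊆ L ∧ T.card = n ∧ ∑ i ∈ T, c i = x) ∨
    ∃ K : AddSubgroup G, 2 ≤ (fs K).card ∧ (fs K).card < Fintype.card G ∧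
      ∃ U, U ⊆ L ∧ (∀ i ∈ U, c i - a ∈ K) ∧ h + 2 * (fs K).card ≤ 1 + U.card := by
  classical
  have hs : 0 < Fintype.card G := Fintype.card_pos_iff.mpr ⟨0⟩
  obtain ⟨L2, hL2a, hL2, hL2c⟩ := Finset.exists_subsuperset_card_eq
    (Finset.filter_subset (fun i => c i = a) L) (n := L.card - (n - h)) (by omega) (by omega)
  have hmax2 : ∀ v, (L2.filter (fun i => c i = v)).card ≤ h := fun v =>
    (Finset.card_le_card (Finset.filter_subset_filter _ hL2)).trans (hmax v)
  have ha2 : (L2.filter (fun i => c i = a)).card = h := by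
    apply le_antisymm (hmax2 a)
    rw [← ha]
    apply Finset.card_le_card
    intro i hi
    rw [Finset.mem_filter]
    exact ⟨hL2a hi, (Finset.mem_filter.mp hi).2⟩
  set A : ℕ → Finset G := fun i => Finset.univ.filter
      (fun v => i < (L2.filter (fun l => c l = v)).card) with hA
  have haA : ∀ i, i < h → a ∈ A i := by
    intro i hi
    simp only [hA, Finset.mem_filter, Finset.mem_univ, true_and, ha2]
    exact hi
  by_cases hS : PS A h = Finset.univ
  · left
    intro x
    obtain ⟨T, hT, hTc, hTs⟩ := greedy L2 c h (x - ∑ i ∈ L \ L2, c i) (by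
      show _ ∈ PS A h
      rw [hS]
      exact Finset.mem_univ _)
    have hd : Disjoint T (L \ L2) := Finset.disjoint_of_subset_left hT Finset.disjoint_sdiff
    refine ⟨T ∪ (L \ L2), Finset.union_subset (hT.trans hL2) Finset.sdiff_subset, ?_, ?_⟩
    · rw [Finset.card_union_of_disjoint hd, Finset.card_sdiff_of_subset hL2, hTc, hL2c]
      omega
    · rw [Finset.sum_union hd, hTs, sub_add_cancel]
  · right
    have hSne := PS_nonempty A h (fun i hi => ⟨a, haA i hi⟩) h le_rfl
    set K := stab (PS A h) with hK
    have e1 : PS A h + fs K = PS A h := add_fs_stab _ _ le_rfl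
    have h1 := chain A h (fun i hi => ⟨a, haA i hi⟩) K h le_rfl (by rw [e1])
    rw [e1] at h1
    obtain ⟨z, hz⟩ : ∃ z, z ∉ PS A h := by
      by_contra hcon
      push Not at hcon
      exact hS (Finset.eq_univ_iff_forall.mpr hcon)
    have h2 : (PS A h).card + (fs K).card ≤ Fintype.card G := by
      have h3 : (fs K).card = ((fs K).image (fun g => z + g)).card := by
        rw [Finset.card_image_of_injective _ (add_right_injective z)]
      have h4 : Disjoint (PS A h) ((fs K).image (fun g => z + g)) := by
        rw [Finset.disjoint_left]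
        intro y hy hy2
        obtain ⟨g, hg, rfl⟩ := Finset.mem_image.mp hy2
        rw [mem_fs] at hg
        exact hz ((mem_stab.mp hg z).mpr hy)
      rw [h3, ← Finset.card_union_of_disjoint h4]
      exact Finset.card_le_univ _
    have h3 : h * (fs K).card + (L2.filter (fun l => ¬ (c l - a ∈ K))).card ≤
        ∑ i ∈ Finset.range h, (A i + fs K).card := by
      have h4 := layer L2 c h hmax2 (fun v => ¬ (v - a ∈ K))
      rw [← h4]
      have h5 : h * (fs K).card = ∑ i ∈ Finset.range h, (fs K).card := by
        rw [Finset.sum_const, Finset.card_range, smul_eq_mul]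
      rw [h5, ← Finset.sum_add_distrib]
      apply Finset.sum_le_sum
      intro i hi
      rw [Finset.mem_range] at hi
      have h6 : (fs K).card = ((fs K).image (fun g => a + g)).card := by
        rw [Finset.card_image_of_injective _ (add_right_injective a)]
      have h7 : Disjoint ((fs K).image (fun g => a + g))
          ((A i).filter (fun v => ¬ (v - a ∈ K))) := by
        rw [Finset.disjoint_left]
        intro y hy hy2
        obtain ⟨g, hg, rfl⟩ := Finset.mem_image.mp hy
        rw [mem_fs] at hg
        rw [Finset.mem_filter] at hy2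
        apply hy2.2
        rw [add_sub_cancel_left]
        exact hg
      show (fs K).card + ((A i).filter (fun v => ¬ (v - a ∈ K))).card ≤ _
      rw [h6, ← Finset.card_union_of_disjoint h7]
      apply Finset.card_le_card
      intro y hy
      rw [Finset.mem_union] at hy
      rcases hy with hy | hy
      · obtain ⟨g, hg, rfl⟩ := Finset.mem_image.mp hy
        exact Finset.add_mem_add (haA i hi) hg
      · rw [Finset.mem_filter] at hy
        have := Finset.add_mem_add hy.1 (mem_fs.mpr K.zero_mem)
        rwa [add_zero] at this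
    have h4 : (L2.filter (fun l => c l - a ∈ K)).card +
        (L2.filter (fun l => ¬ (c l - a ∈ K))).card = L2.card :=
      Finset.card_filter_add_card_filter_not _
    have hSp := hSne.card_pos
    have hkp := fs_card_pos K
    have h5 : h + 2 * (fs K).card ≤ 1 + (L2.filter (fun l => c l - a ∈ K)).card := by
      omega
    refine ⟨K, ?_, by omega, L2.filter (fun l => c l - a ∈ K),
      (Finset.filter_subset _ _).trans hL2, fun i hi => (Finset.mem_filter.mp hi).2, h5⟩
    by_contra hcon
    have hk1 : (fs K).card = 1 := by omega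
    obtain ⟨w, hw⟩ := Finset.card_eq_one.mp hk1
    have hw0 : ∀ g ∈ K, g = 0 := by
      intro g hg
      have h6 := mem_fs.mpr hg
      have h7 := mem_fs.mpr K.zero_mem
      rw [hw, Finset.mem_singleton] at h6 h7
      rw [h6, h7]
    have h6 : (L2.filter (fun l => c l - a ∈ K)).card ≤ (L2.filter (fun i => c i = a)).card := by
      apply Finset.card_le_card
      intro i hi
      rw [Finset.mem_filter] at hi ⊢
      exact ⟨hi.1, sub_eq_zero.mp (hw0 _ hi.2)⟩
    omega

theorem grow {ι : Type} [DecidableEq ι] (L : Finset ι) (c : ι → G) (h : ℕ)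
    (hmax : ∀ v, (L.filter (fun i => c i = v)).card ≤ h) (K : AddSubgroup G) (a : G)
    (U : Finset ι) (hUL : U ⊆ L) (hUK : ∀ i ∈ U, c i - a ∈ K)
    (hU : h + 2 * (fs K).card ≤ 1 + U.card)
    (hmin : ∀ (K1 : AddSubgroup G) (a1 : G) (U1 : Finset ι), 2 ≤ (fs K1).card →
      (fs K1).card < (fs K).card → U1 ⊆ L → (∀ i ∈ U1, c i - a1 ∈ K1) →
      1 + U1.card < h + 2 * (fs K1).card) :
    ∀ (d m : ℕ) (P : Finset ι) (B : Finset G), P ⊆ U → P.card = 2 * m →
      B.Nonempty → (∀ b ∈ B, ∀ b' ∈ B, b' - b ∈ K) → m + 1 ≤ B.card →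
      (∀ b ∈ B, ∃ T, T ⊆ P ∧ T.card = m ∧ ∑ i ∈ T, c i = b) → (fs K).card ≤ B.card + d →
    ∃ (m : ℕ) (P : Finset ι) (b0 : G), P ⊆ U ∧ P.card = 2 * m ∧
      m + 1 ≤ (fs K).card ∧ ∀ g ∈ K, ∃ T, T ⊆ P ∧ T.card = m ∧ ∑ i ∈ T, c i = b0 + g := by
  classical
  have hfin : ∀ (m : ℕ) (P : Finset ι) (B : Finset G), P ⊆ U → P.card = 2 * m →
      B.Nonempty → (∀ b ∈ B, ∀ b' ∈ B, b' - b ∈ K) → m + 1 ≤ B.card →
      (∀ b ∈ B, ∃ T, T ⊆ P ∧ T.card = m ∧ ∑ i ∈ T, c i = b) → (fs K).card ≤ B.card →
    ∃ (m : ℕ) (P : Finset ι) (b0 : G), P ⊆ U ∧ P.card = 2 * m ∧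
      m + 1 ≤ (fs K).card ∧ ∀ g ∈ K, ∃ T, T ⊆ P ∧ T.card = m ∧ ∑ i ∈ T, c i = b0 + g := by
    intro m P B hPU hPc hB hBK hmB hBs hk
    obtain ⟨b0, hb0⟩ := hB
    have h1 : B ⊆ (fs K).image (fun g => b0 + g) := by
      intro b hb
      rw [Finset.mem_image]
      exact ⟨b - b0, mem_fs.mpr (hBK b0 hb0 b hb), by rw [add_sub_cancel]⟩
    have h2 : ((fs K).image (fun g => b0 + g)).card = (fs K).card :=
      Finset.card_image_of_injective _ (add_right_injective b0)
    have h3 := Finset.eq_of_subset_of_card_le h1 (by rw [h2]; exact hk)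
    refine ⟨m, P, b0, hPU, hPc, ?_, ?_⟩
    · have := Finset.card_le_card h1
      omega
    · intro g hg
      apply hBs
      rw [h3, Finset.mem_image]
      exact ⟨g, mem_fs.mpr hg, rfl⟩
  intro d
  induction d with
  | zero =>
    intro m P B hPU hPc hB hBK hmB hBs hk
    exact hfin m P B hPU hPc hB hBK hmB hBs hk
  | succ d ih =>
    intro m P B hPU hPc hB hBK hmB hBs hk
    by_cases hlt : (fs K).card ≤ B.card
    · exact hfin m P B hPU hPc hB hBK hmB hBs hlt
    push Not at hlt
    obtain ⟨b0, hb0⟩ := hB
    have h1 : B ⊆ (fs K).image (fun g => b0 + g) := by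
      intro b hb
      rw [Finset.mem_image]
      exact ⟨b - b0, mem_fs.mpr (hBK b0 hb0 b hb), by rw [add_sub_cancel]⟩
    have h2 : ((fs K).image (fun g => b0 + g)).card = (fs K).card :=
      Finset.card_image_of_injective _ (add_right_injective b0)
    obtain ⟨z, hz, hzB⟩ := Finset.exists_mem_notMem_of_card_lt_card (by rw [h2]; exact hlt :
      B.card < ((fs K).image (fun g => b0 + g)).card)
    have hK1K : ∀ g ∈ stab B, g ∈ K := by
      intro g hg
      have := hBK b0 hb0 (b0 + g) (stab_add hg hb0)
      rwa [add_sub_cancel_left] at this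
    have h3 : B.card + (fs (stab B)).card ≤ (fs K).card := by
      have h4 : (fs (stab B)).card = ((fs (stab B)).image (fun g => z + g)).card := by
        rw [Finset.card_image_of_injective _ (add_right_injective z)]
      have h5 : Disjoint B ((fs (stab B)).image (fun g => z + g)) := by
        rw [Finset.disjoint_left]
        intro y hy hy2
        obtain ⟨g, hg, rfl⟩ := Finset.mem_image.mp hy2
        rw [mem_fs] at hg
        exact hzB ((mem_stab.mp hg z).mpr hy)
      rw [h4, ← Finset.card_union_of_disjoint h5, ← h2]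
      apply Finset.card_le_card
      apply Finset.union_subset h1
      intro y hy
      obtain ⟨g, hg, rfl⟩ := Finset.mem_image.mp hy
      rw [mem_fs] at hg
      obtain ⟨g', hg', rfl⟩ := Finset.mem_image.mp hz
      rw [Finset.mem_image]
      exact ⟨g' + g, mem_fs.mpr (K.add_mem (mem_fs.mp hg') (hK1K g hg)), by
        rw [add_assoc]⟩
    have h4 : (U \ P).card + 2 * m = U.card := by
      rw [← hPc]
      exact Finset.card_sdiff_add_card_eq_card hPU
    have hk1p := fs_card_pos (stab B)
    have hBp : 0 < B.card := Finset.card_pos.mpr ⟨b0, hb0⟩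
    obtain ⟨i0, hi0⟩ := Finset.card_pos.mp (by omega : 0 < (U \ P).card)
    by_cases hall : ∀ i ∈ U \ P, c i - c i0 ∈ stab B
    · exfalso
      by_cases hk1 : 2 ≤ (fs (stab B)).card
      · have := hmin (stab B) (c i0) (U \ P) hk1 (by omega)
          (Finset.sdiff_subset.trans hUL) hall
        omega
      · have hk1 : (fs (stab B)).card = 1 := by omega
        obtain ⟨w, hw⟩ := Finset.card_eq_one.mp hk1
        have hw0 : ∀ g ∈ stab B, g = 0 := by
          intro g hg
          have h6 := mem_fs.mpr hg
          have h7 := mem_fs.mpr (stab B).zero_mem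
          rw [hw, Finset.mem_singleton] at h6 h7
          rw [h6, h7]
        have h6 : (U \ P).card ≤ (L.filter (fun i => c i = c i0)).card := by
          apply Finset.card_le_card
          intro i hi
          rw [Finset.mem_filter]
          exact ⟨hUL (Finset.sdiff_subset hi), sub_eq_zero.mp (hw0 _ (hall i hi))⟩
        have := hmax (c i0)
        omega
    · push Not at hall
      obtain ⟨j, hj, hji⟩ := hall
      have hij : i0 ≠ j := by
        rintro rfl
        apply hji
        rw [sub_self]
        exact (stab B).zero_mem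
      rw [Finset.mem_sdiff] at hi0 hj
      have hcard : B.card + 1 ≤ (B.image (fun b => b + c i0) ∪ B.image (fun b => b + c j)).card := by
        by_contra hcon
        have h5 : (B.image (fun b => b + c i0)).card = B.card :=
          Finset.card_image_of_injective _ (add_left_injective (c i0))
        have h6 := Finset.eq_of_subset_of_card_le
          (Finset.subset_union_left : B.image (fun b => b + c i0) ⊆
            B.image (fun b => b + c i0) ∪ B.image (fun b => b + c j)) (by omega)
        apply hji
        apply mem_stab_of_forall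
        intro b hb
        have h7 : b + c j ∈ B.image (fun b => b + c i0) := by
          rw [h6]
          apply Finset.mem_union_right
          exact Finset.mem_image.mpr ⟨b, hb, rfl⟩
        obtain ⟨b', hb', hbb⟩ := Finset.mem_image.mp h7
        have h8 : b + (c j - c i0) = b' := by
          rw [← add_sub_assoc, ← hbb, add_sub_cancel_right]
        rw [h8]
        exact hb'
      apply ih (m + 1) (insert i0 (insert j P))
        (B.image (fun b => b + c i0) ∪ B.image (fun b => b + c j))
      · exact Finset.insert_subset hi0.1 (Finset.insert_subset hj.1 hPU)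
      · rw [Finset.card_insert_of_notMem, Finset.card_insert_of_notMem hj.2, hPc]
        · ring
        · rw [Finset.mem_insert]
          rintro (h5 | h5)
          · exact hij h5
          · exact hi0.2 h5
      · exact ⟨b0 + c i0, Finset.mem_union_left _ (Finset.mem_image.mpr ⟨b0, hb0, rfl⟩)⟩
      · have h5 : ∀ b ∈ B.image (fun b => b + c i0) ∪ B.image (fun b => b + c j),
            b - (b0 + a) ∈ K := by
          intro b hb
          rw [Finset.mem_union, Finset.mem_image, Finset.mem_image] at hb
          rcases hb with ⟨b', hb', rfl⟩ | ⟨b', hb', rfl⟩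
          · rw [add_sub_add_comm]
            exact K.add_mem (hBK b0 hb0 b' hb') (hUK i0 hi0.1)
          · rw [add_sub_add_comm]
            exact K.add_mem (hBK b0 hb0 b' hb') (hUK j hj.1)
        intro b hb b' hb'
        have := K.sub_mem (h5 b' hb') (h5 b hb)
        rwa [sub_sub_sub_cancel_right] at this
      · omega
      · intro b hb
        rw [Finset.mem_union, Finset.mem_image, Finset.mem_image] at hb
        rcases hb with ⟨b', hb', rfl⟩ | ⟨b', hb', rfl⟩
        · obtain ⟨T, hT, hTc, hTs⟩ := hBs b' hb'
          have hiT : i0 ∉ T := fun h5 => hi0.2 (hT h5)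
          refine ⟨insert i0 T, ?_, ?_, ?_⟩
          · apply Finset.insert_subset_insert
            exact hT.trans (Finset.subset_insert _ _)
          · rw [Finset.card_insert_of_notMem hiT, hTc]
          · rw [Finset.sum_insert hiT, hTs, add_comm]
        · obtain ⟨T, hT, hTc, hTs⟩ := hBs b' hb'
          have hiT : j ∉ T := fun h5 => hj.2 (hT h5)
          refine ⟨insert j T, ?_, ?_, ?_⟩
          · exact (Finset.insert_subset_insert _ hT).trans (Finset.subset_insert _ _)
          · rw [Finset.card_insert_of_notMem hiT, hTc]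
          · rw [Finset.sum_insert hiT, hTs, add_comm]
      · omega

theorem fiber_mul {H : Type} [AddCommGroup H] [Fintype H] [DecidableEq H] (φ : G →+ H)
    (hφ : Function.Surjective φ) (y : H) :
    (Finset.univ.filter (fun v => φ v = y)).card * Fintype.card H = Fintype.card G := by
  have h1 : Fintype.card G = ∑ y' : H, (Finset.univ.filter (fun v => φ v = y')).card := by
    rw [← Finset.card_univ]
    exact Finset.card_eq_sum_card_fiberwise (fun i _ => Finset.mem_univ _)
  have h2 : ∀ y' : H, (Finset.univ.filter (fun v => φ v = y')).card =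
      (Finset.univ.filter (fun v => φ v = y)).card := fun y' =>
    AddMonoidHom.card_fiber_eq_of_mem_range φ (hφ y') (hφ y)
  rw [h1, Finset.sum_congr rfl (fun y' _ => h2 y'), Finset.sum_const, Finset.card_univ,
    smul_eq_mul, mul_comm]

theorem cond_step {ι : Type} [DecidableEq ι] (n : ℕ) (L : Finset ι) (c : ι → G)
    (hL : Cnd G n L c) (hNum : Num G n) (h : ℕ)
    (hmax : ∀ v, (L.filter (fun i => c i = v)).card ≤ h) (K : AddSubgroup G) (a : G)
    (hk2 : 2 ≤ (fs K).card) (q : ℕ) (hq : (fs K).card * q = Fintype.card G)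
    (hqn : (fs K).card + q ≤ n + 2) (U : Finset ι) (hUL : U ⊆ L) (hUK : ∀ i ∈ U, c i - a ∈ K)
    (hU : h + 2 * (fs K).card ≤ 1 + U.card) (m : ℕ) (P : Finset ι) (hPU : P ⊆ U)
    (hPc : P.card = 2 * m) (hmk : m + 1 ≤ (fs K).card)
    (H : Type) [AddCommGroup H] [Fintype H] [DecidableEq H] (ψ : G →+ H)
    (hψ : Function.Surjective ψ) (hK : ∀ g ∈ K, ψ g = 0) :
    Fintype.card H + (n - m) ≤
      1 + ∑ y : H, min (n - m) ((L \ P).filter (fun i => ψ (c i) = y)).card := by
  have hN := len_le n c L hL
  have hs : 0 < Fintype.card G := Fintype.card_pos_iff.mpr ⟨0⟩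
  have hq' : 0 < Fintype.card H := Fintype.card_pos_iff.mpr ⟨0⟩
  have hPL : P ⊆ L := hPU.trans hUL
  have hUψ : ∀ i ∈ U, ψ (c i) = ψ a := by
    intro i hi
    have := hK _ (hUK i hi)
    rw [map_sub] at this
    exact sub_eq_zero.mp this
  have hkk : ∀ y : H, (fs K).card ≤ (Finset.univ.filter (fun v => ψ v = y)).card := by
    intro y
    obtain ⟨v0, hv0⟩ := hψ y
    have h1 : (fs K).card = ((fs K).image (fun g => v0 + g)).card := by
      rw [Finset.card_image_of_injective _ (add_right_injective v0)]
    rw [h1]
    apply Finset.card_le_card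
    intro v hv
    obtain ⟨g, hg, rfl⟩ := Finset.mem_image.mp hv
    rw [Finset.mem_filter]
    refine ⟨Finset.mem_univ _, ?_⟩
    rw [map_add, hK g (mem_fs.mp hg), add_zero, hv0]
  have hqq : Fintype.card H ≤ q := by
    have h1 := fiber_mul ψ hψ (ψ a)
    have h2 := hkk (ψ a)
    have h3 : (fs K).card * Fintype.card H ≤ (fs K).card * q := by
      rw [hq, ← h1]
      exact Nat.mul_le_mul_right _ h2
    exact Nat.le_of_mul_le_mul_left h3 (by omega)
  have hM : ∀ y, y ≠ ψ a → ((L \ P).filter (fun i => ψ (c i) = y)).card =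
      (L.filter (fun i => ψ (c i) = y)).card := by
    intro y hy
    congr 1
    ext i
    rw [Finset.mem_filter, Finset.mem_filter, Finset.mem_sdiff]
    constructor
    · rintro ⟨⟨h1, h2⟩, h3⟩
      exact ⟨h1, h3⟩
    · rintro ⟨h1, h3⟩
      refine ⟨⟨h1, fun h2 => hy ?_⟩, h3⟩
      rw [← h3, hUψ i (hPU h2)]
  have hM0 : h + 2 * (fs K).card ≤ 1 + ((L \ P).filter (fun i => ψ (c i) = ψ a)).card + 2 * m := by
    have h1 : U ⊆ P ∪ ((L \ P).filter (fun i => ψ (c i) = ψ a)) := by
      intro i hi
      rw [Finset.mem_union, Finset.mem_filter, Finset.mem_sdiff]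
      by_cases hiP : i ∈ P
      · exact Or.inl hiP
      · exact Or.inr ⟨⟨hUL hi, hiP⟩, hUψ i hi⟩
    have h2 := Finset.card_le_card h1
    have h3 := Finset.card_union_le P ((L \ P).filter (fun i => ψ (c i) = ψ a))
    omega
  have hLP : (L \ P).card + 2 * m = L.card := by
    rw [← hPc]
    exact Finset.card_sdiff_add_card_eq_card hPL
  have hLPs : (L \ P).card = ∑ y : H, ((L \ P).filter (fun i => ψ (c i) = y)).card :=
    Finset.card_eq_sum_card_fiberwise (fun i _ => Finset.mem_univ _)
  have hkH := fiber_mul ψ hψ (ψ a)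
  have hsq : Fintype.card H + m ≤ Fintype.card G := by
    have h2 := hkk (ψ a)
    rw [← hkH]
    obtain ⟨w, hw⟩ : ∃ w, (Finset.univ.filter (fun v => ψ v = ψ a)).card = w + 1 :=
      ⟨(Finset.univ.filter (fun v => ψ v = ψ a)).card - 1, by omega⟩
    rw [hw] at h2 ⊢
    rw [Nat.succ_mul]
    have h3 : w * 1 ≤ w * Fintype.card H := Nat.mul_le_mul_left _ hq'
    omega
  by_cases ca : n - m ≤ ((L \ P).filter (fun i => ψ (c i) = ψ a)).card
  · have h1 := hL H ψ hψ
    rw [← Finset.add_sum_erase Finset.univ _ (Finset.mem_univ (ψ a))] at h1 ⊢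
    have h2 : min n (L.filter (fun i => ψ (c i) = ψ a)).card ≤ n := min_le_left _ _
    rw [min_eq_left ca]
    by_cases h3 : ∃ y1, y1 ≠ ψ a ∧ n - m ≤ (L.filter (fun i => ψ (c i) = y1)).card
    · obtain ⟨y1, hy1, hy2⟩ := h3
      have h4 : min (n - m) ((L \ P).filter (fun i => ψ (c i) = y1)).card ≤
          ∑ y ∈ Finset.univ.erase (ψ a),
            min (n - m) ((L \ P).filter (fun i => ψ (c i) = y)).card :=
        Finset.single_le_sum (f := fun y => min (n - m)
          ((L \ P).filter (fun i => ψ (c i) = y)).card) (fun y _ => Nat.zero_le _)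
          (Finset.mem_erase.mpr ⟨hy1, Finset.mem_univ _⟩)
      rw [hM y1 hy1, min_eq_left hy2] at h4
      omega
    · push Not at h3
      have h4 : ∑ y ∈ Finset.univ.erase (ψ a), min n (L.filter (fun i => ψ (c i) = y)).card ≤
          ∑ y ∈ Finset.univ.erase (ψ a),
            min (n - m) ((L \ P).filter (fun i => ψ (c i) = y)).card := by
        apply Finset.sum_le_sum
        intro y hy
        rw [Finset.mem_erase] at hy
        rw [hM y hy.1]
        have := h3 y hy.1
        omega
      omega
  · push Not at ca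
    by_cases cb : ∀ y, ((L \ P).filter (fun i => ψ (c i) = y)).card ≤ n - m
    · have h1 : ∑ y : H, min (n - m) ((L \ P).filter (fun i => ψ (c i) = y)).card =
          (L \ P).card := by
        rw [hLPs]
        apply Finset.sum_congr rfl
        intro y _
        exact min_eq_right (cb y)
      rw [h1]
      omega
    · push Not at cb
      obtain ⟨y1, hy1⟩ := cb
      have hy1a : y1 ≠ ψ a := by
        rintro rfl
        omega
      rw [← Finset.add_sum_erase Finset.univ _ (Finset.mem_univ y1)] at hLPs ⊢
      rw [min_eq_left hy1.le]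
      by_contra hcon
      have h1 : ∀ y ∈ Finset.univ.erase y1,
          min (n - m) ((L \ P).filter (fun i => ψ (c i) = y)).card =
            ((L \ P).filter (fun i => ψ (c i) = y)).card := by
        intro y hy
        have h4 : min (n - m) ((L \ P).filter (fun i => ψ (c i) = y)).card ≤
            ∑ y ∈ Finset.univ.erase y1,
              min (n - m) ((L \ P).filter (fun i => ψ (c i) = y)).card :=
          Finset.single_le_sum (f := fun y => min (n - m)
            ((L \ P).filter (fun i => ψ (c i) = y)).card) (fun y _ => Nat.zero_le _) hy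
        omega
      rw [Finset.sum_congr rfl h1] at hcon
      have h2 : ((L \ P).filter (fun i => ψ (c i) = ψ a)).card ≤
          ∑ y ∈ Finset.univ.erase y1, ((L \ P).filter (fun i => ψ (c i) = y)).card :=
        Finset.single_le_sum (f := fun y => ((L \ P).filter (fun i => ψ (c i) = y)).card)
          (fun y _ => Nat.zero_le _)
          (Finset.mem_erase.mpr ⟨fun h5 => hy1a h5.symm, Finset.mem_univ _⟩)
      have h3 : ((L \ P).filter (fun i => ψ (c i) = y1)).card ≤
          h * (Finset.univ.filter (fun v => ψ v = y1)).card := by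
        rw [hM y1 hy1a]
        apply Finset.card_le_mul_card_image_of_maps_to (f := c)
        · intro i hi
          rw [Finset.mem_filter] at hi ⊢
          exact ⟨Finset.mem_univ _, hi.2⟩
        · intro v _
          exact (Finset.card_le_card (Finset.filter_subset_filter _
            (Finset.filter_subset _ _))).trans (hmax v)
      have h5 := fiber_mul ψ hψ y1
      have h6 := hkk y1
      have h7 := hNum H ψ hψ _ h5 (by omega) (by omega)
      have h8 : (Finset.univ.filter (fun v => ψ v = y1)).card * (h + 3) ≤ Fintype.card G := by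
        rw [← h5]
        exact Nat.mul_le_mul_left _ (by omega)
      rw [Nat.mul_add, Nat.mul_comm _ h] at h8
      omega

end chain

theorem main : ∀ (s : ℕ) (G : Type) [AddCommGroup G] [Fintype G] [DecidableEq G],
    Fintype.card G = s → ∀ n, 1 ≤ n → Num G n →
    ∀ (ι : Type) [DecidableEq ι] (L : Finset ι) (c : ι → G), Cnd G n L c →
      ∀ x, ∃ T, T ⊆ L ∧ T.card = n ∧ ∑ i ∈ T, c i = x := by
  classical
  intro s
  induction s using Nat.strong_induction_on with
  | _ s ih =>
    intro G _ _ _ hG n hn hNum ι _ L c hL x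
    obtain ⟨L1, hL1, hC1, hmul⟩ := trunc n c L hL
    have hN := len_le n c L1 hC1
    have hs : 0 < Fintype.card G := Fintype.card_pos_iff.mpr ⟨0⟩
    obtain ⟨a, _, hamax⟩ := Finset.exists_max_image Finset.univ
      (fun v => (L1.filter (fun i => c i = v)).card) ⟨(0 : G), Finset.mem_univ _⟩
    obtain ⟨h, hh⟩ : ∃ h, (L1.filter (fun i => c i = a)).card = h := ⟨_, rfl⟩
    have hmax : ∀ v, (L1.filter (fun i => c i = v)).card ≤ h := fun v => by
      rw [← hh]
      exact hamax v (Finset.mem_univ _)
    have hh1 : 1 ≤ h := by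
      obtain ⟨i, hi⟩ := Finset.card_pos.mp (by omega : 0 < L1.card)
      have h1 : 0 < (L1.filter (fun j => c j = c i)).card :=
        Finset.card_pos.mpr ⟨i, Finset.mem_filter.mpr ⟨hi, rfl⟩⟩
      have h2 := hmax (c i)
      omega
    rcases popular n L1 c hN h (by rw [← hh]; exact hmul a) hh1 hmax a hh with hpop | hpop
    · obtain ⟨T, hT, hTc, hTs⟩ := hpop x
      exact ⟨T, hT.trans hL1, hTc, hTs⟩
    · have hQ : ∃ k, ∃ (K : AddSubgroup G) (a : G) (U : Finset ι), (fs K).card = k ∧ 2 ≤ k ∧
          k < Fintype.card G ∧ U ⊆ L1 ∧ (∀ i ∈ U, c i - a ∈ K) ∧ h + 2 * k ≤ 1 + U.card := by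
        obtain ⟨K, h1, h2, U, h3, h4, h5⟩ := hpop
        exact ⟨_, K, a, U, rfl, h1, h2, h3, h4, h5⟩
      obtain ⟨K, a1, U, hKk, hk2, hkG, hUL, hUK, hU⟩ := Nat.find_spec hQ
      have hmin : ∀ (K1 : AddSubgroup G) (a1 : G) (U1 : Finset ι), 2 ≤ (fs K1).card →
          (fs K1).card < (fs K).card → U1 ⊆ L1 → (∀ i ∈ U1, c i - a1 ∈ K1) →
          1 + U1.card < h + 2 * (fs K1).card := by
        intro K1 a2 U1 h1 h2 h3 h4
        by_contra hcon
        rw [hKk] at h2
        exact Nat.find_min hQ h2 ⟨K1, a2, U1, rfl, h1, by omega, h3, h4, by omega⟩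
      rw [← hKk] at hk2 hkG hU
      obtain ⟨m, P, b0, hPU, hPc, hmk, hcov⟩ := grow L1 c h hmax K a1 U hUL hUK hU hmin
        (fs K).card 0 ∅ {0} (Finset.empty_subset _) rfl (Finset.singleton_nonempty 0)
        (by
          intro b hb b' hb'
          rw [Finset.mem_singleton] at hb hb'
          rw [hb, hb', sub_self]
          exact K.zero_mem) (by simp)
        (by
          intro b hb
          rw [Finset.mem_singleton] at hb
          exact ⟨∅, Finset.empty_subset _, rfl, by rw [hb]; simp⟩) (by omega)
      have : Fintype (G ⧸ K) := Fintype.ofFinite _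
      have hsurj : Function.Surjective (QuotientAddGroup.mk' K) :=
        QuotientAddGroup.mk'_surjective K
      have hq : (fs K).card * Fintype.card (G ⧸ K) = Fintype.card G := by
        rw [← fiber_mul (QuotientAddGroup.mk' K) hsurj 0]
        congr 2
        ext v
        rw [mem_fs, Finset.mem_filter]
        simp
      have hq2 : 2 ≤ Fintype.card (G ⧸ K) := by
        by_contra hcon
        have h1 : Fintype.card (G ⧸ K) ≤ 1 := by omega
        have h2 := Nat.mul_le_mul_left (fs K).card h1
        omega
      have hqn := hNum (G ⧸ K) (QuotientAddGroup.mk' K) hsurj _ hq hk2 hq2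
      have hqs : Fintype.card (G ⧸ K) < s := by
        have h2 := Nat.mul_le_mul_right (Fintype.card (G ⧸ K)) hk2
        omega
      have hcnd := cond_step n L1 c hC1 hNum h hmax K a1 hk2 _ hq hqn U hUL hUK hU m P hPU hPc hmk
      obtain ⟨T1, hT1, hT1c, hT1s⟩ := ih (Fintype.card (G ⧸ K)) hqs (G ⧸ K) rfl (n - m)
        (by omega)
        (by
          intro H _ _ φ hφ k' hk' h2 h3
          have h4 : k' + Fintype.card H ≤ k' * Fintype.card H := by nlinarith
          omega)
        ι (L1 \ P) (fun i => QuotientAddGroup.mk' K (c i))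
        (by
          intro H _ _ _ φ hφ
          exact hcnd H (φ.comp (QuotientAddGroup.mk' K)) (hφ.comp hsurj) (by
            intro g hg
            have h1 : QuotientAddGroup.mk' K g = 0 := by simpa using hg
            rw [AddMonoidHom.comp_apply, h1, map_zero]))
        (QuotientAddGroup.mk' K (x - b0))
      obtain ⟨T2, hT2, hT2c, hT2s⟩ := hcov (x - b0 - ∑ i ∈ T1, c i) (by
        have h1 : QuotientAddGroup.mk' K (x - b0 - ∑ i ∈ T1, c i) = 0 := by
          rw [map_sub, ← hT1s, map_sum, sub_self]
        exact (QuotientAddGroup.eq_zero_iff _).mp h1)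
      have hd : Disjoint T1 T2 := by
        rw [Finset.disjoint_left]
        intro i h1 h2
        exact (Finset.mem_sdiff.mp (hT1 h1)).2 (hT2 h2)
      refine ⟨T1 ∪ T2, ?_, ?_, ?_⟩
      · exact (Finset.union_subset (hT1.trans Finset.sdiff_subset)
          (hT2.trans (hPU.trans hUL))).trans hL1
      · rw [Finset.card_union_of_disjoint hd, hT1c, hT2c]
        omega
      · rw [Finset.sum_union hd, hT2s]
        abel

theorem sums : S_Sums := by
  classical
  intro G _ _ _ n hn hK ι _ L c hC x
  apply main (Fintype.card G) G rfl n hn ?_ ι L c ?_ x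
  · intro H _ _ φ hφ k hk h2 h3
    have e1 : φ.ker.index = Fintype.card H := by
      rw [AddSubgroup.index_ker, AddMonoidHom.range_eq_top.mpr hφ, AddSubgroup.card_top,
        Nat.card_eq_fintype_card]
    have e2 : Nat.card φ.ker * φ.ker.index = Nat.card G := AddSubgroup.card_mul_index _
    have e3 : Nat.card φ.ker = k := by
      rw [e1, Nat.card_eq_fintype_card (α := G), ← hk] at e2
      exact Nat.eq_of_mul_eq_mul_right (by omega) e2
    have h4 := hK φ.ker
      (by
        intro h5
        rw [h5] at e3
        simp at e3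
        omega)
      (by
        intro h5
        rw [h5, AddSubgroup.index_top] at e1
        omega)
    rw [e1, e3] at h4
    exact h4
  · intro H _ _ _ φ hφ
    have e1 : φ.ker.index = Fintype.card H := by
      rw [AddSubgroup.index_ker, AddMonoidHom.range_eq_top.mpr hφ, AddSubgroup.card_top,
        Nat.card_eq_fintype_card]
    have h1 := hC φ.ker
    rw [e1] at h1
    have e2 : ∑ᶠ Q : G ⧸ φ.ker, min n {i | i ∈ L ∧
        (QuotientAddGroup.mk (c i) : G ⧸ φ.ker) = Q}.ncard =
        ∑ y : H, min n (L.filter (fun i => φ (c i) = y)).card := by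
      rw [← finsum_eq_sum_of_fintype, ← finsum_comp_equiv
        (QuotientAddGroup.quotientKerEquivOfSurjective φ hφ).toEquiv]
      apply finsum_congr
      intro Q
      congr 1
      rw [← Set.ncard_coe_finset]
      congr 1
      ext i
      simp only [Set.mem_ofPred_eq, Finset.coe_filter]
      apply and_congr_right
      intro _
      constructor
      · intro h2
        rw [← h2]
        rfl
      · intro h2
        apply (QuotientAddGroup.quotientKerEquivOfSurjective φ hφ).injective
        rw [← show (QuotientAddGroup.quotientKerEquivOfSurjective φ hφ).toEquiv Q =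
          (QuotientAddGroup.quotientKerEquivOfSurjective φ hφ) Q from rfl, ← h2]
        rfl
    rw [e2] at h1
    exact h1

end Pool.Agent.H621.ZM.Sums
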