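import Pool.Agent.H621.ZM.Spec2
import Pool.Agent.H621.ZM.Sums
import Pool.Agent.H621.ZM.Pop

/-!
`s`-zero-free sequences of length `3 t - 1` in `ZMod (2 t)` have a value of multiplicity at least `t`.
-/

set_option autoImplicit false
set_option linter.unusedSectionVars false
set_option linter.unusedVariables false

open Finset
open scoped Pointwise

namespace Pool.Agent.H621.ZM.Pop2

open Pool.Agent.Helper730.Kneser Pool.Agent.H621.ZM Pool.Agent.H621.ZM.Sums

section chain

variable {G : Type} [AddCommGroup G] [Fintype G] [DecidableEq G]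

theorem popular2 {ι : Type} [DecidableEq ι] (n : ℕ) (L : Finset ι) (c : ι → G)
    (hN : Fintype.card G + n ≤ L.card) (h : ℕ) (hn : h ≤ n) (hh : 1 ≤ h)
    (hmax : ∀ v, (L.filter (fun i => c i = v)).card ≤ h) (a : G)
    (ha : (L.filter (fun i => c i = a)).card = h) :
    (∀ x, ∃ T, T ⊆ L ∧ T.card = n ∧ ∑ i ∈ T, c i = x) ∨
    ∃ K : AddSubgroup G, 2 ≤ (fs K).card ∧ (fs K).card < Fintype.card G ∧
      ∃ U, U ⊆ L ∧ (∀ i ∈ U, c i - a ∈ K) ∧
        L.card + h + 2 * (fs K).card ≤ Fintype.card G + n + U.card := by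
  classical
  have hs : 0 < Fintype.card G := Fintype.card_pos_iff.mpr ⟨0⟩
  obtain ⟨L2, hL2a, hL2, hL2c⟩ := Finset.exists_subsuperset_card_eq
    (Finset.filter_subset (fun i => c i = a) L) (n := L.card - (n - h)) (by omega) (by omega)
  have hmax2 : ∀ v, (L2.filter (fun i => c i = v)).card ≤ h := fun v =>
    (Finset.card_le_card (Finset.filter_subset_filter _ hL2)).trans (hmax v)
  have ha2 : (L2.filter (fun i => c i = a)).card = h := by
    apply le_antisymm (hmax2 a)
    rw [← ha]
    apply Finset.card_le_card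
    intro i hi
    rw [Finset.mem_filter]
    exact ⟨hL2a hi, (Finset.mem_filter.mp hi).2⟩
  set A : ℕ → Finset G := fun i => Finset.univ.filter
      (fun v => i < (L2.filter (fun l => c l = v)).card) with hA
  have haA : ∀ i, i < h → a ∈ A i := by
    intro i hi
    simp only [hA, Finset.mem_filter, Finset.mem_univ, true_and, ha2]
    exact hi
  by_cases hS : PS A h = Finset.univ
  · left
    intro x
    obtain ⟨T, hT, hTc, hTs⟩ := greedy L2 c h (x - ∑ i ∈ L \ L2, c i) (by
      show _ ∈ PS A h
      rw [hS]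
      exact Finset.mem_univ _)
    have hd : Disjoint T (L \ L2) := Finset.disjoint_of_subset_left hT Finset.disjoint_sdiff
    refine ⟨T ∪ (L \ L2), Finset.union_subset (hT.trans hL2) Finset.sdiff_subset, ?_, ?_⟩
    · rw [Finset.card_union_of_disjoint hd, Finset.card_sdiff_of_subset hL2, hTc, hL2c]
      omega
    · rw [Finset.sum_union hd, hTs, sub_add_cancel]
  · right
    have hSne := PS_nonempty A h (fun i hi => ⟨a, haA i hi⟩) h le_rfl
    set K := stab (PS A h) with hK
    have e1 : PS A h + fs K = PS A h := add_fs_stab _ _ le_rfl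
    have h1 := chain A h (fun i hi => ⟨a, haA i hi⟩) K h le_rfl (by rw [e1])
    rw [e1] at h1
    obtain ⟨z, hz⟩ : ∃ z, z ∉ PS A h := by
      by_contra hcon
      push Not at hcon
      exact hS (Finset.eq_univ_iff_forall.mpr hcon)
    have h2 : (PS A h).card + (fs K).card ≤ Fintype.card G := by
      have h3 : (fs K).card = ((fs K).image (fun g => z + g)).card := by
        rw [Finset.card_image_of_injective _ (add_right_injective z)]
      have h4 : Disjoint (PS A h) ((fs K).image (fun g => z + g)) := by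
        rw [Finset.disjoint_left]
        intro y hy hy2
        obtain ⟨g, hg, rfl⟩ := Finset.mem_image.mp hy2
        rw [mem_fs] at hg
        exact hz ((mem_stab.mp hg z).mpr hy)
      rw [h3, ← Finset.card_union_of_disjoint h4]
      exact Finset.card_le_univ _
    have h3 : h * (fs K).card + (L2.filter (fun l => ¬ (c l - a ∈ K))).card ≤
        ∑ i ∈ Finset.range h, (A i + fs K).card := by
      have h4 := layer L2 c h hmax2 (fun v => ¬ (v - a ∈ K))
      rw [← h4]
      have h5 : h * (fs K).card = ∑ i ∈ Finset.range h, (fs K).card := by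
        rw [Finset.sum_const, Finset.card_range, smul_eq_mul]
      rw [h5, ← Finset.sum_add_distrib]
      apply Finset.sum_le_sum
      intro i hi
      rw [Finset.mem_range] at hi
      have h6 : (fs K).card = ((fs K).image (fun g => a + g)).card := by
        rw [Finset.card_image_of_injective _ (add_right_injective a)]
      have h7 : Disjoint ((fs K).image (fun g => a + g))
          ((A i).filter (fun v => ¬ (v - a ∈ K))) := by
        rw [Finset.disjoint_left]
        intro y hy hy2
        obtain ⟨g, hg, rfl⟩ := Finset.mem_image.mp hy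
        rw [mem_fs] at hg
        rw [Finset.mem_filter] at hy2
        apply hy2.2
        rw [add_sub_cancel_left]
        exact hg
      show (fs K).card + ((A i).filter (fun v => ¬ (v - a ∈ K))).card ≤ _
      rw [h6, ← Finset.card_union_of_disjoint h7]
      apply Finset.card_le_card
      intro y hy
      rw [Finset.mem_union] at hy
      rcases hy with hy | hy
      · obtain ⟨g, hg, rfl⟩ := Finset.mem_image.mp hy
        exact Finset.add_mem_add (haA i hi) hg
      · rw [Finset.mem_filter] at hy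
        have := Finset.add_mem_add hy.1 (mem_fs.mpr K.zero_mem)
        rwa [add_zero] at this
    have h4 : (L2.filter (fun l => c l - a ∈ K)).card +
        (L2.filter (fun l => ¬ (c l - a ∈ K))).card = L2.card :=
      Finset.card_filter_add_card_filter_not _
    have hSp := hSne.card_pos
    have hkp := fs_card_pos K
    have h5 : L.card + h + 2 * (fs K).card ≤
        Fintype.card G + n + (L2.filter (fun l => c l - a ∈ K)).card := by
      omega
    refine ⟨K, ?_, by omega, L2.filter (fun l => c l - a ∈ K),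
      (Finset.filter_subset _ _).trans hL2, fun i hi => (Finset.mem_filter.mp hi).2, h5⟩
    by_contra hcon
    have hk1 : (fs K).card = 1 := by omega
    obtain ⟨w, hw⟩ := Finset.card_eq_one.mp hk1
    have hw0 : ∀ g ∈ K, g = 0 := by
      intro g hg
      have h6 := mem_fs.mpr hg
      have h7 := mem_fs.mpr K.zero_mem
      rw [hw, Finset.mem_singleton] at h6 h7
      rw [h6, h7]
    have h6 : (L2.filter (fun l => c l - a ∈ K)).card ≤ (L2.filter (fun i => c i = a)).card := by
      apply Finset.card_le_card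
      intro i hi
      rw [Finset.mem_filter] at hi ⊢
      exact ⟨hi.1, sub_eq_zero.mp (hw0 _ hi.2)⟩
    omega

theorem cond_step2 {ι : Type} [DecidableEq ι] (n : ℕ) (L : Finset ι) (c : ι → G)
    (hL : Cnd G n L c) (hLc : Fintype.card G + n = L.card) (h : ℕ)
    (hmax : ∀ v, (L.filter (fun i => c i = v)).card ≤ h) (K : AddSubgroup G) (a : G)
    (hk2 : 2 ≤ (fs K).card) (U : Finset ι) (hUL : U ⊆ L) (hUK : ∀ i ∈ U, c i - a ∈ K)
    (hU : h + 2 * (fs K).card ≤ U.card) (m : ℕ) (P : Finset ι) (hPU : P ⊆ U)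
    (hPc : P.card = 2 * m) (hmk : m + 1 ≤ (fs K).card)
    (H : Type) [AddCommGroup H] [Fintype H] [DecidableEq H] (ψ : G →+ H)
    (hψ : Function.Surjective ψ) (hK : ∀ g ∈ K, ψ g = 0) (hqH : Fintype.card H + m ≤ n + 1) :
    Fintype.card H + (n - m) ≤
      1 + ∑ y : H, min (n - m) ((L \ P).filter (fun i => ψ (c i) = y)).card := by
  have hN := len_le n c L hL
  have hs : 0 < Fintype.card G := Fintype.card_pos_iff.mpr ⟨0⟩
  have hq' : 0 < Fintype.card H := Fintype.card_pos_iff.mpr ⟨0⟩
  have hPL : P ⊆ L := hPU.trans hUL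
  have hUψ : ∀ i ∈ U, ψ (c i) = ψ a := by
    intro i hi
    have := hK _ (hUK i hi)
    rw [map_sub] at this
    exact sub_eq_zero.mp this
  have hkk : ∀ y : H, (fs K).card ≤ (Finset.univ.filter (fun v => ψ v = y)).card := by
    intro y
    obtain ⟨v0, hv0⟩ := hψ y
    have h1 : (fs K).card = ((fs K).image (fun g => v0 + g)).card := by
      rw [Finset.card_image_of_injective _ (add_right_injective v0)]
    rw [h1]
    apply Finset.card_le_card
    intro v hv
    obtain ⟨g, hg, rfl⟩ := Finset.mem_image.mp hv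
    rw [Finset.mem_filter]
    refine ⟨Finset.mem_univ _, ?_⟩
    rw [map_add, hK g (mem_fs.mp hg), add_zero, hv0]
  have hM : ∀ y, y ≠ ψ a → ((L \ P).filter (fun i => ψ (c i) = y)).card =
      (L.filter (fun i => ψ (c i) = y)).card := by
    intro y hy
    congr 1
    ext i
    rw [Finset.mem_filter, Finset.mem_filter, Finset.mem_sdiff]
    constructor
    · rintro ⟨⟨h1, h2⟩, h3⟩
      exact ⟨h1, h3⟩
    · rintro ⟨h1, h3⟩
      refine ⟨⟨h1, fun h2 => hy ?_⟩, h3⟩
      rw [← h3, hUψ i (hPU h2)]
  have hM0 : h + 2 * (fs K).card ≤ ((L \ P).filter (fun i => ψ (c i) = ψ a)).card + 2 * m := by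
    have h1 : U ⊆ P ∪ ((L \ P).filter (fun i => ψ (c i) = ψ a)) := by
      intro i hi
      rw [Finset.mem_union, Finset.mem_filter, Finset.mem_sdiff]
      by_cases hiP : i ∈ P
      · exact Or.inl hiP
      · exact Or.inr ⟨⟨hUL hi, hiP⟩, hUψ i hi⟩
    have h2 := Finset.card_le_card h1
    have h3 := Finset.card_union_le P ((L \ P).filter (fun i => ψ (c i) = ψ a))
    omega
  have hLP : (L \ P).card + 2 * m = L.card := by
    rw [← hPc]
    exact Finset.card_sdiff_add_card_eq_card hPL
  have hLPs : (L \ P).card = ∑ y : H, ((L \ P).filter (fun i => ψ (c i) = y)).card :=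
    Finset.card_eq_sum_card_fiberwise (fun i _ => Finset.mem_univ _)
  have hkH := fiber_mul ψ hψ (ψ a)
  have hsq : Fintype.card H + m ≤ Fintype.card G := by
    have h2 := hkk (ψ a)
    rw [← hkH]
    obtain ⟨w, hw⟩ : ∃ w, (Finset.univ.filter (fun v => ψ v = ψ a)).card = w + 1 :=
      ⟨(Finset.univ.filter (fun v => ψ v = ψ a)).card - 1, by omega⟩
    rw [hw] at h2 ⊢
    rw [Nat.succ_mul]
    have h3 : w * 1 ≤ w * Fintype.card H := Nat.mul_le_mul_left _ hq'
    omega
  by_cases ca : n - m ≤ ((L \ P).filter (fun i => ψ (c i) = ψ a)).card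
  · have h1 := hL H ψ hψ
    rw [← Finset.add_sum_erase Finset.univ _ (Finset.mem_univ (ψ a))] at h1 ⊢
    have h2 : min n (L.filter (fun i => ψ (c i) = ψ a)).card ≤ n := min_le_left _ _
    rw [min_eq_left ca]
    by_cases h3 : ∃ y1, y1 ≠ ψ a ∧ n - m ≤ (L.filter (fun i => ψ (c i) = y1)).card
    · obtain ⟨y1, hy1, hy2⟩ := h3
      have h4 : min (n - m) ((L \ P).filter (fun i => ψ (c i) = y1)).card ≤
          ∑ y ∈ Finset.univ.erase (ψ a),
            min (n - m) ((L \ P).filter (fun i => ψ (c i) = y)).card :=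
        Finset.single_le_sum (f := fun y => min (n - m)
          ((L \ P).filter (fun i => ψ (c i) = y)).card) (fun y _ => Nat.zero_le _)
          (Finset.mem_erase.mpr ⟨hy1, Finset.mem_univ _⟩)
      rw [hM y1 hy1, min_eq_left hy2] at h4
      omega
    · push Not at h3
      have h4 : ∑ y ∈ Finset.univ.erase (ψ a), min n (L.filter (fun i => ψ (c i) = y)).card ≤
          ∑ y ∈ Finset.univ.erase (ψ a),
            min (n - m) ((L \ P).filter (fun i => ψ (c i) = y)).card := by
        apply Finset.sum_le_sum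
        intro y hy
        rw [Finset.mem_erase] at hy
        rw [hM y hy.1]
        have := h3 y hy.1
        omega
      omega
  · push Not at ca
    by_cases cb : ∀ y, ((L \ P).filter (fun i => ψ (c i) = y)).card ≤ n - m
    · have h1 : ∑ y : H, min (n - m) ((L \ P).filter (fun i => ψ (c i) = y)).card =
          (L \ P).card := by
        rw [hLPs]
        apply Finset.sum_congr rfl
        intro y _
        exact min_eq_right (cb y)
      rw [h1]
      omega
    · push Not at cb
      obtain ⟨y1, hy1⟩ := cb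
      have hy1a : y1 ≠ ψ a := by
        rintro rfl
        omega
      rw [← Finset.add_sum_erase Finset.univ _ (Finset.mem_univ y1)] at hLPs ⊢
      rw [min_eq_left hy1.le]
      by_contra hcon
      have h1 : ∀ y ∈ Finset.univ.erase y1,
          min (n - m) ((L \ P).filter (fun i => ψ (c i) = y)).card =
            ((L \ P).filter (fun i => ψ (c i) = y)).card := by
        intro y hy
        have h4 : min (n - m) ((L \ P).filter (fun i => ψ (c i) = y)).card ≤
            ∑ y ∈ Finset.univ.erase y1,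
              min (n - m) ((L \ P).filter (fun i => ψ (c i) = y)).card :=
          Finset.single_le_sum (f := fun y => min (n - m)
            ((L \ P).filter (fun i => ψ (c i) = y)).card) (fun y _ => Nat.zero_le _) hy
        omega
      rw [Finset.sum_congr rfl h1] at hcon
      have h2 : ((L \ P).filter (fun i => ψ (c i) = ψ a)).card ≤
          ∑ y ∈ Finset.univ.erase y1, ((L \ P).filter (fun i => ψ (c i) = y)).card :=
        Finset.single_le_sum (f := fun y => ((L \ P).filter (fun i => ψ (c i) = y)).card)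
          (fun y _ => Nat.zero_le _)
          (Finset.mem_erase.mpr ⟨fun h5 => hy1a h5.symm, Finset.mem_univ _⟩)
      have h3 : ((L \ P).filter (fun i => ψ (c i) = y1)).card ≤
          h * (Finset.univ.filter (fun v => ψ v = y1)).card := by
        rw [hM y1 hy1a]
        apply Finset.card_le_mul_card_image_of_maps_to (f := c)
        · intro i hi
          rw [Finset.mem_filter] at hi ⊢
          exact ⟨Finset.mem_univ _, hi.2⟩
        · intro v _
          exact (Finset.card_le_card (Finset.filter_subset_filter _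
            (Finset.filter_subset _ _))).trans (hmax v)
      have h5 := fiber_mul ψ hψ y1
      have h6 := hkk y1
      have h8 : (Finset.univ.filter (fun v => ψ v = y1)).card * (h + 4) ≤ Fintype.card G := by
        rw [← h5]
        exact Nat.mul_le_mul_left _ (by omega)
      rw [Nat.mul_add, Nat.mul_comm _ h] at h8
      omega

end chain

section egz

variable {s : ℕ} [NeZero s] {ι : Type} [DecidableEq ι]

/-- many terms in one coset of `K`: there is an `s`-term zero sum -/
theorem egzK (K : AddSubgroup (ZMod s)) (c : ι → ZMod s) (A : Finset ι) (g0 : ZMod s)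
    (hAK : ∀ i ∈ A, c i - g0 ∈ K) (hA : s + Nat.card K ≤ A.card + 1) :
    ∃ T, T ⊆ A ∧ T.card = s ∧ ∑ i ∈ T, c i = 0 := by
  classical
  have hcardG : Nat.card (ZMod s) = s := Nat.card_zmod s
  have hkis : Nat.card K * K.index = s := by rw [AddSubgroup.card_mul_index, hcardG]
  let κ : ι → K := fun i => if h : c i - g0 ∈ K then ⟨c i - g0, h⟩ else 0
  have : IsAddCyclic K := inferInstance
  obtain ⟨T, hTA, hTc, hTs⟩ := Pool.Agent.H621.ZM.Pop.egz_iter κ K.index A (by
    have : (K.index + 1) * Nat.card K = Nat.card K * K.index + Nat.card K := by ring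
    omega)
  have hTc' : T.card = s := by rw [hTc, mul_comm]; exact hkis
  refine ⟨T, hTA, hTc', ?_⟩
  have h6 : ∀ i ∈ T, c i = g0 + (κ i : ZMod s) := by
    intro i hi
    have h7 := hAK i (hTA hi)
    have h8 : (κ i : ZMod s) = c i - g0 := by
      show ((if h : c i - g0 ∈ K then (⟨c i - g0, h⟩ : K) else 0 : K) : ZMod s) = _
      rw [dif_pos h7]
    rw [h8]; ring
  rw [Finset.sum_congr rfl h6, Finset.sum_add_distrib, Finset.sum_const, hTc']
  have h9 : ∑ i ∈ T, ((κ i : K) : ZMod s) = ((∑ i ∈ T, κ i : K) : ZMod s) := by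
    rw [AddSubgroup.val_finsetSum]
  rw [h9, hTs]
  simp

/-- the same for the fibre of a homomorphism -/
theorem egzφ {H : Type} [AddCommGroup H] [Fintype H] [DecidableEq H] (φ : ZMod s →+ H)
    (hφ : Function.Surjective φ) (c : ι → ZMod s) (A : Finset ι) (y : H)
    (hAy : ∀ i ∈ A, φ (c i) = y) (f : ℕ) (hf : f * Fintype.card H = s)
    (hA : s + f ≤ A.card + 1) : ∃ T, T ⊆ A ∧ T.card = s ∧ ∑ i ∈ T, c i = 0 := by
  obtain ⟨g0, hg0⟩ := hφ y
  refine egzK φ.ker c A g0 (fun i hi => ?_) ?_
  · rw [AddMonoidHom.mem_ker, map_sub, hAy i hi, hg0, sub_self]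
  · have e1 : φ.ker.index = Fintype.card H := by
      rw [AddSubgroup.index_ker, AddMonoidHom.range_eq_top.mpr hφ, AddSubgroup.card_top,
        Nat.card_eq_fintype_card]
    have e2 : Nat.card φ.ker * φ.ker.index = Nat.card (ZMod s) := AddSubgroup.card_mul_index _
    rw [e1, Nat.card_zmod] at e2
    have hH : 0 < Fintype.card H := Fintype.card_pos_iff.mpr ⟨0⟩
    have e3 : Nat.card φ.ker = f := Nat.eq_of_mul_eq_mul_right hH (e2.trans hf.symm)
    rw [e3]
    exact hA

/-- condition (C) -/
theorem cnd (t : ℕ) (ht : 2 ≤ t) (hs : s = 2 * t) (n : ℕ) (hn : t = n + 1) (L : Finset ι)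
    (c : ι → ZMod s) (hL : L.card = s + n) (hZF : ZF c L)
    (hmul : ∀ v, (L.filter (fun i => c i = v)).card ≤ n) : Cnd (ZMod s) n L c := by
  intro H _ _ _ φ hφ
  have hH : 0 < Fintype.card H := Fintype.card_pos_iff.mpr ⟨0⟩
  have hsum : L.card = ∑ y : H, (L.filter (fun i => φ (c i) = y)).card :=
    Finset.card_eq_sum_card_fiberwise (fun i _ => Finset.mem_univ _)
  obtain ⟨f, hf⟩ : ∃ f, f * Fintype.card H = s := by
    refine ⟨_, (fiber_mul φ hφ 0).trans (ZMod.card s)⟩
  have hf0 : 0 < f := by
    rcases Nat.eq_zero_or_pos f with h | h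
    · rw [h, zero_mul] at hf
      omega
    · exact h
  have hHs : Fintype.card H ≤ s := by
    rw [← hf]
    exact Nat.le_mul_of_pos_left _ hf0
  by_cases hall : ∀ y, (L.filter (fun i => φ (c i) = y)).card ≤ n
  · have h1 : ∑ y : H, min n (L.filter (fun i => φ (c i) = y)).card = L.card := by
      rw [hsum]
      exact Finset.sum_congr rfl fun y _ => min_eq_right (hall y)
    rw [h1]
    omega
  · push Not at hall
    obtain ⟨y0, hy0⟩ := hall
    rw [← Finset.add_sum_erase Finset.univ _ (Finset.mem_univ y0)] at hsum ⊢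
    rw [min_eq_left hy0.le]
    by_contra hcon
    push Not at hcon
    have hH1 : 2 ≤ Fintype.card H := by omega
    have hf2 : 2 ≤ f := by
      by_contra hf1
      have hf1 : f = 1 := by omega
      rw [hf1, one_mul] at hf
      have hinj : Function.Injective φ := by
        have := (Fintype.bijective_iff_surjective_and_card φ).2 ⟨hφ, by rw [ZMod.card, hf]⟩
        exact this.1
      obtain ⟨v, hv⟩ := hφ y0
      have h1 := hmul v
      have h2 : (L.filter (fun i => φ (c i) = y0)).card = (L.filter (fun i => c i = v)).card := by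
        congr 1
        refine Finset.filter_congr fun i _ => ?_
        rw [← hv]
        exact hinj.eq_iff
      omega
    have hfq : f + Fintype.card H ≤ t + 2 := by
      obtain ⟨a, ha⟩ := Nat.exists_eq_add_of_le hf2
      obtain ⟨b, hb⟩ := Nat.exists_eq_add_of_le hH1
      rw [ha, hb] at hf ⊢
      have h1 : (2 + a) * (2 + b) = 4 + 2 * a + 2 * b + a * b := by ring
      have h2 : 0 ≤ a * b := Nat.zero_le _
      omega
    have hHt : Fintype.card H ≤ t := by
      have : 2 * Fintype.card H ≤ s := by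
        rw [← hf]
        exact Nat.mul_le_mul_right _ hf2
      omega
    have hothers : ∀ y ∈ Finset.univ.erase y0,
        min n (L.filter (fun i => φ (c i) = y)).card = (L.filter (fun i => φ (c i) = y)).card := by
      intro y hy
      have h3 : min n (L.filter (fun i => φ (c i) = y)).card ≤
          ∑ y ∈ Finset.univ.erase y0, min n (L.filter (fun i => φ (c i) = y)).card :=
        Finset.single_le_sum (f := fun y => min n (L.filter (fun i => φ (c i) = y)).card)
          (fun _ _ => Nat.zero_le _) hy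
      rcases min_choice n (L.filter (fun i => φ (c i) = y)).card with h5 | h5
      · omega
      · exact h5
    rw [Finset.sum_congr rfl hothers] at hcon
    obtain ⟨T, hT, hTc, hTs⟩ := egzφ φ hφ c (L.filter (fun i => φ (c i) = y0)) y0
      (fun i hi => (Finset.mem_filter.1 hi).2) f hf (by omega)
    exact hZF T (hT.trans (Finset.filter_subset _ _)) hTc hTs

end egz

section fin

variable {G : Type} [AddCommGroup G] [Fintype G] [DecidableEq G]

/-- from the quotient and the pairs to the group -/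
theorem finish {ι : Type} [DecidableEq ι] (n : ℕ) (L : Finset ι) (c : ι → G) (K : AddSubgroup G)
    (P : Finset ι) (m : ℕ) (hPL : P ⊆ L) (hmn : m + 1 ≤ n) (b0 : G)
    (hcov : ∀ g ∈ K, ∃ T, T ⊆ P ∧ T.card = m ∧ ∑ i ∈ T, c i = b0 + g)
    (hNum : ∀ (H : Type) [AddCommGroup H] [Fintype H] (φ : G ⧸ K →+ H), Function.Surjective φ →
      ∀ k : ℕ, k * Fintype.card H = Nat.card (G ⧸ K) → 2 ≤ k → 2 ≤ Fintype.card H →
        k + Fintype.card H ≤ n - m + 2)
    (hC : ∀ (H : Type) [AddCommGroup H] [Fintype H] [DecidableEq H] (ψ : G →+ H),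
      Function.Surjective ψ → (∀ g ∈ K, ψ g = 0) →
      Fintype.card H + (n - m) ≤
        1 + ∑ y : H, min (n - m) ((L \ P).filter (fun i => ψ (c i) = y)).card) :
    ∀ x, ∃ T, T ⊆ L ∧ T.card = n ∧ ∑ i ∈ T, c i = x := by
  classical
  intro x
  have : Fintype (G ⧸ K) := Fintype.ofFinite _
  have hsurj : Function.Surjective (QuotientAddGroup.mk' K) :=
    QuotientAddGroup.mk'_surjective K
  obtain ⟨T1, hT1, hT1c, hT1s⟩ := Pool.Agent.H621.ZM.Sums.main (Fintype.card (G ⧸ K)) (G ⧸ K) rfl
    (n - m) (by omega)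
    (by
      intro H _ _ φ hφ k' hk' h2 h3
      exact hNum H φ hφ k' (by rw [Nat.card_eq_fintype_card]; exact hk') h2 h3)
    ι (L \ P) (fun i => QuotientAddGroup.mk' K (c i))
    (by
      intro H _ _ _ φ hφ
      exact hC H (φ.comp (QuotientAddGroup.mk' K)) (hφ.comp hsurj) (by
        intro g hg
        have h1 : QuotientAddGroup.mk' K g = 0 := by simpa using hg
        rw [AddMonoidHom.comp_apply, h1, map_zero]))
    (QuotientAddGroup.mk' K (x - b0))
  obtain ⟨T2, hT2, hT2c, hT2s⟩ := hcov (x - b0 - ∑ i ∈ T1, c i) (by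
    have h1 : QuotientAddGroup.mk' K (x - b0 - ∑ i ∈ T1, c i) = 0 := by
      rw [map_sub, ← hT1s, map_sum, sub_self]
    exact (QuotientAddGroup.eq_zero_iff _).mp h1)
  have hd : Disjoint T1 T2 := by
    rw [Finset.disjoint_left]
    intro i h1 h2
    exact (Finset.mem_sdiff.mp (hT1 h1)).2 (hT2 h2)
  refine ⟨T1 ∪ T2, ?_, ?_, ?_⟩
  · exact Finset.union_subset (hT1.trans Finset.sdiff_subset) (hT2.trans hPL)
  · rw [Finset.card_union_of_disjoint hd, hT1c, hT2c]
    omega
  · rw [Finset.sum_union hd, hT2s]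
    abel

theorem card_quot (K : AddSubgroup G) [Fintype (G ⧸ K)] :
    (fs K).card * Fintype.card (G ⧸ K) = Fintype.card G := by
  classical
  have hsurj : Function.Surjective (QuotientAddGroup.mk' K) :=
    QuotientAddGroup.mk'_surjective K
  rw [← fiber_mul (QuotientAddGroup.mk' K) hsurj 0]
  congr 2
  ext v
  rw [mem_fs, Finset.mem_filter]
  simp

theorem card_le_quot (K : AddSubgroup G) [Fintype (G ⧸ K)] {H : Type} [AddCommGroup H] [Fintype H]
    (ψ : G →+ H) (hψ : Function.Surjective ψ) (hK : ∀ g ∈ K, ψ g = 0) :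
    Fintype.card H ≤ Fintype.card (G ⧸ K) := by
  refine Fintype.card_le_of_surjective (QuotientAddGroup.lift K ψ (fun g hg => hK g hg)) ?_
  intro y
  obtain ⟨g, hg⟩ := hψ y
  exact ⟨QuotientAddGroup.mk g, hg⟩

/-- STEP 3 -/
theorem step3 {ι : Type} [DecidableEq ι] (n : ℕ) (L : Finset ι) (c : ι → G)
    (hL : Cnd G n L c) (hLc : Fintype.card G + n = L.card) (h : ℕ)
    (hmax : ∀ v, (L.filter (fun i => c i = v)).card ≤ h) (K : AddSubgroup G) [Fintype (G ⧸ K)] (a : G)
    (hk2 : 2 ≤ (fs K).card) (hq2 : 2 ≤ Fintype.card (G ⧸ K))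
    (hkq : (fs K).card + Fintype.card (G ⧸ K) ≤ n + 2)
    (U : Finset ι) (hUL : U ⊆ L) (hUK : ∀ i ∈ U, c i - a ∈ K)
    (hU : h + 2 * (fs K).card ≤ U.card)
    (hmin : ∀ (K1 : AddSubgroup G) (a1 : G) (U1 : Finset ι), 2 ≤ (fs K1).card →
      (fs K1).card < (fs K).card → U1 ⊆ L → (∀ i ∈ U1, c i - a1 ∈ K1) →
      U1.card < h + 2 * (fs K1).card) :
    ∀ x, ∃ T, T ⊆ L ∧ T.card = n ∧ ∑ i ∈ T, c i = x := by
  classical
  obtain ⟨m, P, b0, hPU, hPc, hmk, hcov⟩ := grow L c (h + 1) (fun v => (hmax v).trans (by omega))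
    K a U hUL hUK (by omega)
    (fun K1 a1 U1 h1 h2 h3 h4 => by have := hmin K1 a1 U1 h1 h2 h3 h4; omega)
    (fs K).card 0 ∅ {0} (Finset.empty_subset _) rfl (Finset.singleton_nonempty 0)
    (by
      intro b hb b' hb'
      rw [Finset.mem_singleton] at hb hb'
      rw [hb, hb', sub_self]
      exact K.zero_mem) (by simp)
    (by
      intro b hb
      rw [Finset.mem_singleton] at hb
      exact ⟨∅, Finset.empty_subset _, rfl, by rw [hb]; simp⟩) (by omega)
  refine finish n L c K P m (hPU.trans hUL) (by omega) b0 hcov ?_ ?_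
  · intro H _ _ φ hφ k' hk' h2 h3
    rw [Nat.card_eq_fintype_card] at hk'
    have h4 : k' + Fintype.card H ≤ k' * Fintype.card H := by nlinarith
    omega
  · intro H _ _ _ ψ hψ hK
    refine cond_step2 n L c hL hLc h hmax K a hk2 U hUL hUK hU m P hPU hPc hmk H ψ hψ hK ?_
    have := card_le_quot K ψ hψ hK
    omega

end fin

section st4

variable {G : Type} [AddCommGroup G] [Fintype G] [DecidableEq G]

theorem fs_map (K : AddSubgroup G) [Fintype K] [DecidableEq K] (K1 : AddSubgroup K) :
    (fs (K1.map K.subtype)).card = (fs K1).card := by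
  have h : fs (K1.map K.subtype) = (fs K1).image K.subtype := by
    ext x
    rw [mem_fs, Finset.mem_image, AddSubgroup.mem_map]
    constructor
    · rintro ⟨y, hy, rfl⟩
      exact ⟨y, mem_fs.mpr hy, rfl⟩
    · rintro ⟨y, hy, rfl⟩
      exact ⟨y, mem_fs.mp hy, rfl⟩
  rw [h, Finset.card_image_of_injective _ K.subtype_injective]

theorem coset_bound {ι : Type} [DecidableEq ι] (L : Finset ι) (c : ι → G) (h : ℕ)
    (hmax : ∀ v, (L.filter (fun i => c i = v)).card ≤ h) (K : AddSubgroup G) (g : G)
    (A : Finset ι) (hAL : A ⊆ L) (hA : ∀ i ∈ A, c i - g ∈ K) : A.card ≤ h * (fs K).card := by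
  have h1 : (fs K).card = ((fs K).image (fun x => g + x)).card := by
    rw [Finset.card_image_of_injective _ (add_right_injective g)]
  rw [h1]
  apply Finset.card_le_mul_card_image_of_maps_to (f := c)
  · intro i hi
    rw [Finset.mem_image]
    exact ⟨c i - g, mem_fs.mpr (hA i hi), by rw [add_sub_cancel]⟩
  · intro v _
    exact (Finset.card_le_card (Finset.filter_subset_filter _ hAL)).trans (hmax v)

end st4

section st5

variable {s : ℕ} [NeZero s] {ι : Type} [DecidableEq ι]

/-- STEP 4 -/
theorem step4 (t n : ℕ) (hs : s = 2 * t) (hn : t = n + 1) (L : Finset ι) (c : ι → ZMod s)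
    (hL : L.card = s + n) (hZF : ZF c L) (h : ℕ) (hhn : h ≤ n)
    (hmax : ∀ v, (L.filter (fun i => c i = v)).card ≤ h) (K : AddSubgroup (ZMod s))
    (hkt : (fs K).card = t) (a : ZMod s) (U : Finset ι) (hUL : U ⊆ L) (hUK : ∀ i ∈ U, c i - a ∈ K)
    (hU : h + 2 * t ≤ U.card)
    (hmin : ∀ (K1 : AddSubgroup (ZMod s)) (a1 : ZMod s) (U1 : Finset ι), 2 ≤ (fs K1).card →
      (fs K1).card < (fs K).card → U1 ⊆ L → (∀ i ∈ U1, c i - a1 ∈ K1) →
      U1.card < h + 2 * (fs K1).card) : False := by
  classical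
  have : Fintype K := Fintype.ofFinite K
  have hcK : Fintype.card K = t := by
    rw [← hkt]
    have h1 : fs K = (Finset.univ : Finset K).image K.subtype := by
      ext x
      rw [mem_fs, Finset.mem_image]
      constructor
      · intro hx
        exact ⟨⟨x, hx⟩, Finset.mem_univ _, rfl⟩
      · rintro ⟨y, _, rfl⟩
        exact y.2
    rw [h1, Finset.card_image_of_injective _ K.subtype_injective, Finset.card_univ]
  let κ : ι → K := fun i => if h : c i - a ∈ K then ⟨c i - a, h⟩ else 0
  have hκ : ∀ i ∈ U, (κ i : ZMod s) = c i - a := by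
    intro i hi
    show ((if h : c i - a ∈ K then (⟨c i - a, h⟩ : K) else 0 : K) : ZMod s) = _
    rw [dif_pos (hUK i hi)]
  obtain ⟨a', _, hamax⟩ := Finset.exists_max_image Finset.univ
    (fun v => (U.filter (fun i => κ i = v)).card) ⟨(0 : K), Finset.mem_univ _⟩
  obtain ⟨h', hh'⟩ : ∃ h', (U.filter (fun i => κ i = a')).card = h' := ⟨_, rfl⟩
  have hmax' : ∀ v, (U.filter (fun i => κ i = v)).card ≤ h' := fun v => by
    rw [← hh']
    exact hamax v (Finset.mem_univ _)
  have hh1 : 1 ≤ h' := by
    obtain ⟨i, hi⟩ := Finset.card_pos.mp (by omega : 0 < U.card)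
    have h1 : 0 < (U.filter (fun j => κ j = κ i)).card :=
      Finset.card_pos.mpr ⟨i, Finset.mem_filter.mpr ⟨hi, rfl⟩⟩
    have h2 := hmax' (κ i)
    omega
  have hh2 : h' ≤ h := by
    rw [← hh']
    refine le_trans (Finset.card_le_card ?_) (hmax (a + a'))
    intro i hi
    rw [Finset.mem_filter] at hi ⊢
    refine ⟨hUL hi.1, ?_⟩
    rw [← hi.2, hκ i hi.1, add_sub_cancel]
  rcases popular2 (U.card - 2 * t) U κ (by rw [hcK]; omega) h' (by omega) hh1 hmax' a' hh' with
    hcov | ⟨K1, hk1, hk2, U1, hU1, hU1K, hU1c⟩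
  · obtain ⟨T, hTU, hTc, hTs⟩ := hcov (∑ i ∈ U, κ i)
    refine hZF (U \ T) (Finset.sdiff_subset.trans hUL) ?_ ?_
    · rw [Finset.card_sdiff_of_subset hTU]
      omega
    · have h1 := Finset.sum_sdiff (f := κ) hTU
      rw [hTs] at h1
      have h2 : ∑ i ∈ U \ T, κ i = 0 := add_eq_right.1 h1
      have h3 : ∀ i ∈ U \ T, c i = a + (κ i : ZMod s) := by
        intro i hi
        rw [hκ i (Finset.mem_sdiff.1 hi).1, add_sub_cancel]
      have h4 : ∑ i ∈ U \ T, ((κ i : K) : ZMod s) = ((∑ i ∈ U \ T, κ i : K) : ZMod s) := by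
        rw [AddSubgroup.val_finsetSum]
      have h5 : (U \ T).card = s := by
        rw [Finset.card_sdiff_of_subset hTU]
        omega
      rw [Finset.sum_congr rfl h3, Finset.sum_add_distrib, h4, h2, Finset.sum_const, h5]
      simp
  · rw [hcK] at hk2 hU1c
    have h1 := fs_map K K1
    have h2 := hmin (K1.map K.subtype) (a + a') U1 (by omega) (by omega) (hU1.trans hUL) (by
      intro i hi
      rw [AddSubgroup.mem_map]
      refine ⟨κ i - a', hU1K i hi, ?_⟩
      rw [map_sub]
      show (κ i : ZMod s) - (a' : ZMod s) = _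
      rw [hκ i (hU1 hi)]
      ring)
    omega

/-- two cosets of a subgroup with two elements -/
theorem twoCosets (t n : ℕ) (hs : s = 2 * t) (hn : t = n + 1) (L : Finset ι) (c : ι → ZMod s)
    (hL : L.card = s + n) (hZF : ZF c L)
    (hmax : ∀ v, (L.filter (fun i => c i = v)).card ≤ n) (K : AddSubgroup (ZMod s))
    (hk : (fs K).card = 2) (hidx : K.index = t) (g1 g2 : ZMod s)
    (hg : ∀ i ∈ L, c i - g1 ∈ K ∨ c i - g2 ∈ K) : False := by
  classical
  set A1 := L.filter (fun i => c i - g1 ∈ K) with hA1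
  set A2 := L.filter (fun i => ¬ c i - g1 ∈ K) with hA2
  have h12 : A1.card + A2.card = L.card := Finset.card_filter_add_card_filter_not _
  have hb1 : A1.card ≤ n * 2 := by
    rw [← hk]
    exact coset_bound L c n hmax K g1 A1 (Finset.filter_subset _ _)
      (fun i hi => (Finset.mem_filter.1 hi).2)
  have hA2K : ∀ i ∈ A2, c i - g2 ∈ K := fun i hi =>
    (hg i (Finset.mem_filter.1 hi).1).resolve_left (Finset.mem_filter.1 hi).2
  have hb2 : A2.card ≤ n * 2 := by
    rw [← hk]
    exact coset_bound L c n hmax K g2 A2 (Finset.filter_subset _ _) hA2K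
  obtain ⟨i, hi⟩ := Finset.card_pos.mp (by omega : 0 < A1.card)
  obtain ⟨j, hj, hij⟩ : ∃ j ∈ A1, c j ≠ c i := by
    by_contra hcon
    push Not at hcon
    have h1 : A1.card ≤ (L.filter (fun j => c j = c i)).card := by
      refine Finset.card_le_card fun j hj => ?_
      exact Finset.mem_filter.2 ⟨(Finset.mem_filter.1 hj).1, hcon j hj⟩
    have h2 := hmax (c i)
    omega
  have hne : i ≠ j := fun e => hij (by rw [e])
  have hcd : ((A1.erase i).erase j).card + 2 = A1.card := by
    rw [Finset.card_erase_of_mem (Finset.mem_erase.2 ⟨hne.symm, hj⟩), Finset.card_erase_of_mem hi]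
    have : 2 ≤ A1.card := by omega
    omega
  obtain ⟨P0, hP0, hP0c⟩ := Finset.exists_subset_card_eq
    (show n ≤ ((A1.erase i).erase j).card by omega)
  obtain ⟨T2, hT2, hT2c⟩ := Finset.exists_subset_card_eq (show n + 1 ≤ A2.card by omega)
  have hiP : i ∉ P0 := fun h => by
    have := hP0 h
    simp at this
  have hjP : j ∉ P0 := fun h => by
    have := hP0 h
    simp at this
  have hPA : P0 ⊆ A1 := fun x hx => Finset.mem_of_mem_erase (Finset.mem_of_mem_erase (hP0 hx))
  have hd12 : Disjoint A1 A2 := Finset.disjoint_filter_filter_not _ _ _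
  have hTT : ∀ z ∈ A1, z ∉ P0 → (insert z P0 ∪ T2) ⊆ L ∧ (insert z P0 ∪ T2).card = s ∧
      ∑ x ∈ insert z P0 ∪ T2, c x = c z + ∑ x ∈ P0, c x + ∑ x ∈ T2, c x := by
    intro z hz hzP
    have hsub : insert z P0 ⊆ A1 := Finset.insert_subset hz hPA
    have hd : Disjoint (insert z P0) T2 := Finset.disjoint_of_subset_left hsub
      (Finset.disjoint_of_subset_right hT2 hd12)
    refine ⟨Finset.union_subset (hsub.trans (Finset.filter_subset _ _))
      (hT2.trans (Finset.filter_subset _ _)), ?_, ?_⟩
    · rw [Finset.card_union_of_disjoint hd, Finset.card_insert_of_notMem hzP, hP0c, hT2c]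
      omega
    · rw [Finset.sum_union hd, Finset.sum_insert hzP]
  have hτK : c j - c i ∈ K := by
    have := K.sub_mem (Finset.mem_filter.1 hj).2 (Finset.mem_filter.1 hi).2
    rwa [sub_sub_sub_cancel_right] at this
  have hK2 : ∀ x ∈ K, x = 0 ∨ x = c j - c i := by
    have h1 : ({0, c j - c i} : Finset (ZMod s)) ⊆ fs K := by
      intro x hx
      rw [Finset.mem_insert, Finset.mem_singleton] at hx
      rw [mem_fs]
      rcases hx with rfl | rfl
      · exact K.zero_mem
      · exact hτK
    have h2 := Finset.eq_of_subset_of_card_le h1 (by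
      rw [hk, Finset.card_pair (sub_ne_zero.2 hij).symm])
    intro x hx
    have h3 := mem_fs.mpr hx
    rw [← h2, Finset.mem_insert, Finset.mem_singleton] at h3
    exact h3
  have hsumK : ∀ (A : Finset ι) (g : ZMod s), (∀ x ∈ A, c x - g ∈ K) → A.card = t →
      ∑ x ∈ A, c x ∈ K := by
    intro A g hA hAc
    have h1 : ∑ x ∈ A, c x = ∑ x ∈ A, (c x - g) + t • g := by
      rw [Finset.sum_sub_distrib, Finset.sum_const, hAc, sub_add_cancel]
    rw [h1]
    refine K.add_mem (K.sum_mem hA) ?_
    rw [← hidx]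
    exact K.nsmul_index_mem g
  obtain ⟨hs1, hs2, hs3⟩ := hTT i hi hiP
  obtain ⟨hs1', hs2', hs3'⟩ := hTT j hj hjP
  have hxK : c i + ∑ x ∈ P0, c x + ∑ x ∈ T2, c x ∈ K := by
    refine K.add_mem ?_ (hsumK T2 g2 (fun x hx => hA2K x (hT2 hx)) (by rw [hT2c, hn]))
    rw [← Finset.sum_insert hiP]
    refine hsumK (insert i P0) g1 (fun x hx => ?_) (by
      rw [Finset.card_insert_of_notMem hiP, hP0c, hn])
    rcases Finset.mem_insert.1 hx with rfl | hx
    · exact (Finset.mem_filter.1 hi).2
    · exact (Finset.mem_filter.1 (hPA hx)).2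
  rcases hK2 _ hxK with h0 | h0
  · exact hZF _ hs1 hs2 (by rw [hs3, h0])
  · refine hZF _ hs1' hs2' ?_
    rw [hs3']
    have h1 : c j + ∑ x ∈ P0, c x + ∑ x ∈ T2, c x =
        (c i + ∑ x ∈ P0, c x + ∑ x ∈ T2, c x) + (c j - c i) := by ring
    rw [h1, h0]
    rcases hK2 _ (K.add_mem hτK hτK) with h2 | h2
    · exact h2
    · exact absurd (add_eq_right.1 h2) (sub_ne_zero.2 hij)

end st5

section st6

variable {G : Type} [AddCommGroup G] [Fintype G] [DecidableEq G]

theorem two_le_sum {H : Type} [Fintype H] [DecidableEq H] (f : H → ℕ) {y1 y2 y3 : H}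
    (h12 : y1 ≠ y2) (h13 : y1 ≠ y3) (h23 : y2 ≠ y3) : f y1 + f y2 + f y3 ≤ ∑ y : H, f y := by
  have h1 : ∑ y ∈ ({y1, y2, y3} : Finset H), f y = f y1 + f y2 + f y3 := by
    rw [Finset.sum_insert (by simp [h12, h13]), Finset.sum_insert (by simp [h23]),
      Finset.sum_singleton, add_assoc]
  rw [← h1]
  exact Finset.sum_le_sum_of_subset (Finset.subset_univ _)

/-- STEP 5 -/
theorem step5 {ι : Type} [DecidableEq ι] (n : ℕ) (L : Finset ι) (c : ι → G)
    (hs : Fintype.card G = 2 * (n + 1))
    (hL : Cnd G n L c) (hLc : Fintype.card G + n = L.card) (h : ℕ) (hhn : h ≤ n)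
    (hmax : ∀ v, (L.filter (fun i => c i = v)).card ≤ h) (K : AddSubgroup G) [Fintype (G ⧸ K)] (a : G)
    (hk2 : (fs K).card = 2) (hq2 : Fintype.card (G ⧸ K) = n + 1)
    (U : Finset ι) (hUL : U ⊆ L) (hUK : ∀ i ∈ U, c i - a ∈ K)
    (hU : h + 2 * (fs K).card ≤ U.card)
    (hmin : ∀ (K1 : AddSubgroup G) (a1 : G) (U1 : Finset ι), 2 ≤ (fs K1).card →
      (fs K1).card < (fs K).card → U1 ⊆ L → (∀ i ∈ U1, c i - a1 ∈ K1) →
      U1.card < h + 2 * (fs K1).card)
    (htwo : ¬ ∃ g1 g2 : G, ∀ i ∈ L, c i - g1 ∈ K ∨ c i - g2 ∈ K) :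
    ∀ x, ∃ T, T ⊆ L ∧ T.card = n ∧ ∑ i ∈ T, c i = x := by
  classical
  obtain ⟨m, P, b0, hPU, hPc, hmk, hcov⟩ := grow L c (h + 1) (fun v => (hmax v).trans (by omega))
    K a U hUL hUK (by omega)
    (fun K1 a1 U1 h1 h2 h3 h4 => by have := hmin K1 a1 U1 h1 h2 h3 h4; omega)
    (fs K).card 0 ∅ {0} (Finset.empty_subset _) rfl (Finset.singleton_nonempty 0)
    (by
      intro b hb b' hb'
      rw [Finset.mem_singleton] at hb hb'
      rw [hb, hb', sub_self]
      exact K.zero_mem) (by simp)
    (by
      intro b hb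
      rw [Finset.mem_singleton] at hb
      exact ⟨∅, Finset.empty_subset _, rfl, by rw [hb]; simp⟩) (by omega)
  have hUb : U.card ≤ h * 2 := by
    rw [← hk2]
    exact coset_bound L c h hmax K a U hUL hUK
  have hm1 : m = 1 := by
    rcases Nat.eq_zero_or_pos m with h0 | h0
    · exfalso
      subst h0
      have hP0 : P = ∅ := Finset.card_eq_zero.1 (by omega)
      have hK0 : ∀ g ∈ K, g = 0 := by
        intro g hg
        obtain ⟨T, hT, -, hTs⟩ := hcov g hg
        obtain ⟨T', hT', -, hTs'⟩ := hcov 0 K.zero_mem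
        rw [hP0, Finset.subset_empty] at hT hT'
        rw [hT, Finset.sum_empty] at hTs
        rw [hT', Finset.sum_empty, add_zero] at hTs'
        rw [← hTs', zero_add] at hTs
        exact hTs.symm
      have h1 : (fs K).card ≤ 1 := by
        rw [Finset.card_le_one]
        intro x hx y hy
        rw [hK0 x (mem_fs.mp hx), hK0 y (mem_fs.mp hy)]
      omega
    · omega
  subst hm1
  refine finish n L c K P 1 (hPU.trans hUL) (by omega) b0 hcov ?_ ?_
  · intro H _ _ φ hφ k' hk' h2 h3
    rw [Nat.card_eq_fintype_card] at hk'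
    have h4 : k' + Fintype.card H ≤ k' * Fintype.card H := by nlinarith
    omega
  · intro H _ _ _ ψ hψ hK
    have hHq := card_le_quot K ψ hψ hK
    by_cases hqH : Fintype.card H + 1 ≤ n + 1
    · exact cond_step2 n L c hL hLc h hmax K a (by omega) U hUL hUK hU 1 P hPU hPc hmk H ψ hψ hK hqH
    have hH : Fintype.card H = n + 1 := by omega
    have hfib : ∀ y : H, (Finset.univ.filter (fun v => ψ v = y)).card = 2 := by
      intro y
      have h1 := fiber_mul ψ hψ y
      rw [hH, hs] at h1
      exact Nat.eq_of_mul_eq_mul_right (Nat.succ_pos n) h1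
    have hker : ∀ g : G, ψ g = 0 → g ∈ K := by
      have h1 : fs K ⊆ Finset.univ.filter (fun v => ψ v = 0) := by
        intro g hg
        rw [Finset.mem_filter]
        exact ⟨Finset.mem_univ _, hK g (mem_fs.mp hg)⟩
      have h2 := Finset.eq_of_subset_of_card_le h1 (by rw [hfib, hk2])
      intro g hg
      rw [← mem_fs, h2, Finset.mem_filter]
      exact ⟨Finset.mem_univ _, hg⟩
    have hPL : P ⊆ L := hPU.trans hUL
    have hLP : (L \ P).card + 2 = L.card := by
      have := Finset.card_sdiff_add_card_eq_card hPL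
      omega
    have hsum : (L \ P).card = ∑ y : H, ((L \ P).filter (fun i => ψ (c i) = y)).card :=
      Finset.card_eq_sum_card_fiberwise (fun i _ => Finset.mem_univ _)
    have hMb : ∀ y : H, ((L \ P).filter (fun i => ψ (c i) = y)).card ≤ h * 2 := by
      intro y
      obtain ⟨g, hg⟩ := hψ y
      rw [← hk2]
      refine coset_bound L c h hmax K g _ ((Finset.filter_subset _ _).trans Finset.sdiff_subset) ?_
      intro i hi
      apply hker
      rw [map_sub, (Finset.mem_filter.1 hi).2, hg, sub_self]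
    have hMa : 1 ≤ ((L \ P).filter (fun i => ψ (c i) = ψ a)).card := by
      have h1 : U \ P ⊆ (L \ P).filter (fun i => ψ (c i) = ψ a) := by
        intro i hi
        rw [Finset.mem_sdiff] at hi
        rw [Finset.mem_filter, Finset.mem_sdiff]
        refine ⟨⟨hUL hi.1, hi.2⟩, ?_⟩
        have := hK _ (hUK i hi.1)
        rw [map_sub] at this
        exact sub_eq_zero.mp this
      have h2 := Finset.card_le_card h1
      have h3 := Finset.card_sdiff_add_card_eq_card hPU
      omega
    by_cases hall : ∀ y, ((L \ P).filter (fun i => ψ (c i) = y)).card ≤ n - 1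
    · have h1 : ∑ y : H, min (n - 1) ((L \ P).filter (fun i => ψ (c i) = y)).card =
          (L \ P).card := by
        rw [hsum]
        exact Finset.sum_congr rfl fun y _ => min_eq_right (hall y)
      rw [h1]
      omega
    push Not at hall
    obtain ⟨y1, hy1⟩ := hall
    by_cases hy : ∃ y2, y1 ≠ y2 ∧ n - 1 ≤ ((L \ P).filter (fun i => ψ (c i) = y2)).card
    · obtain ⟨y2, hy12, hy2⟩ := hy
      obtain ⟨y3, h13, h23, hy3⟩ : ∃ y3, y1 ≠ y3 ∧ y2 ≠ y3 ∧
          1 ≤ ((L \ P).filter (fun i => ψ (c i) = y3)).card := by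
        by_contra hcon
        push Not at hcon
        apply htwo
        obtain ⟨g1, hg1⟩ := hψ y1
        obtain ⟨g2, hg2⟩ := hψ y2
        refine ⟨g1, g2, fun i hi => ?_⟩
        by_contra hc
        push Not at hc
        have e1 : y1 ≠ ψ (c i) := by
          intro e
          apply hc.1
          apply hker
          rw [map_sub, hg1, e, sub_self]
        have e2 : y2 ≠ ψ (c i) := by
          intro e
          apply hc.2
          apply hker
          rw [map_sub, hg2, e, sub_self]
        have h1 := hcon _ e1 e2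
        by_cases hiP : i ∈ P
        · have h2 : ψ (c i) = ψ a := by
            have := hK _ (hUK i (hPU hiP))
            rw [map_sub] at this
            exact sub_eq_zero.mp this
          rw [h2] at h1
          omega
        · have h2 : 0 < ((L \ P).filter (fun j => ψ (c j) = ψ (c i))).card :=
            Finset.card_pos.2 ⟨i, Finset.mem_filter.2 ⟨Finset.mem_sdiff.2 ⟨hi, hiP⟩, rfl⟩⟩
          omega
      have h1 := two_le_sum (fun y => min (n - 1) ((L \ P).filter (fun i => ψ (c i) = y)).card)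
        hy12 h13 h23
      rw [min_eq_left hy1.le, min_eq_left hy2] at h1
      have h2 : 1 ≤ min (n - 1) ((L \ P).filter (fun i => ψ (c i) = y3)).card := by
        rw [le_min_iff]
        exact ⟨by omega, hy3⟩
      omega
    · push Not at hy
      rw [← Finset.add_sum_erase Finset.univ _ (Finset.mem_univ y1)] at hsum ⊢
      rw [min_eq_left hy1.le]
      have h1 : ∑ y ∈ Finset.univ.erase y1,
          min (n - 1) ((L \ P).filter (fun i => ψ (c i) = y)).card =
          ∑ y ∈ Finset.univ.erase y1, ((L \ P).filter (fun i => ψ (c i) = y)).card := by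
        refine Finset.sum_congr rfl fun y hyy => ?_
        exact min_eq_right (hy y (Finset.ne_of_mem_erase hyy).symm).le
      rw [h1]
      have := hMb y1
      omega

end st6

theorem pop2 : S_Pop2 := by
  classical
  intro ι _ s t c L ht hs hL hZF
  by_contra hcon
  push Not at hcon
  obtain ⟨n, hn⟩ : ∃ n, t = n + 1 := ⟨t - 1, by omega⟩
  have : NeZero s := ⟨by omega⟩
  have hLn : L.card = s + n := by omega
  have hmul : ∀ v, (L.filter (fun i => c i = v)).card ≤ n := fun v => by
    have := hcon v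
    omega
  have hcG : Fintype.card (ZMod s) = s := ZMod.card s
  have hC := cnd t ht hs n hn L c hLn hZF hmul
  -- the sums of `n` terms do not cover the group
  have hnc : ¬ ∀ x, ∃ T, T ⊆ L ∧ T.card = n ∧ ∑ i ∈ T, c i = x := by
    intro hx
    obtain ⟨T, hTL, hTc, hTs⟩ := hx (∑ i ∈ L, c i)
    refine hZF (L \ T) Finset.sdiff_subset ?_ ?_
    · rw [Finset.card_sdiff_of_subset hTL]
      omega
    · have := Finset.sum_sdiff (f := c) hTL
      rw [hTs] at this
      exact add_eq_right.1 this
  obtain ⟨a, _, hamax⟩ := Finset.exists_max_image Finset.univ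
    (fun v => (L.filter (fun i => c i = v)).card) ⟨(0 : ZMod s), Finset.mem_univ _⟩
  obtain ⟨h, hh⟩ : ∃ h, (L.filter (fun i => c i = a)).card = h := ⟨_, rfl⟩
  have hmax : ∀ v, (L.filter (fun i => c i = v)).card ≤ h := fun v => by
    rw [← hh]
    exact hamax v (Finset.mem_univ _)
  have hhn : h ≤ n := by
    rw [← hh]
    exact hmul a
  have hh1 : 1 ≤ h := by
    obtain ⟨i, hi⟩ := Finset.card_pos.mp (by omega : 0 < L.card)
    have h1 : 0 < (L.filter (fun j => c j = c i)).card :=
      Finset.card_pos.mpr ⟨i, Finset.mem_filter.mpr ⟨hi, rfl⟩⟩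
    have h2 := hmax (c i)
    omega
  rcases popular2 n L c (by rw [hcG]; omega) h hhn hh1 hmax a hh with hpop | hpop
  · exact hnc hpop
  have hQ : ∃ k, ∃ (K : AddSubgroup (ZMod s)) (a : ZMod s) (U : Finset ι), (fs K).card = k ∧ 2 ≤ k ∧
      k < s ∧ U ⊆ L ∧ (∀ i ∈ U, c i - a ∈ K) ∧ h + 2 * k ≤ U.card := by
    obtain ⟨K, h1, h2, U, h3, h4, h5⟩ := hpop
    rw [hcG] at h2 h5
    exact ⟨_, K, a, U, rfl, h1, h2, h3, h4, by omega⟩
  obtain ⟨K, a1, U, hKk, hk2, hkG, hUL, hUK, hU⟩ := Nat.find_spec hQ
  have hmin : ∀ (K1 : AddSubgroup (ZMod s)) (a1 : ZMod s) (U1 : Finset ι), 2 ≤ (fs K1).card →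
      (fs K1).card < (fs K).card → U1 ⊆ L → (∀ i ∈ U1, c i - a1 ∈ K1) →
      U1.card < h + 2 * (fs K1).card := by
    intro K1 a2 U1 h1 h2 h3 h4
    by_contra hcon
    rw [hKk] at h2
    exact Nat.find_min hQ h2 ⟨K1, a2, U1, rfl, h1, by omega, h3, h4, by omega⟩
  rw [← hKk] at hk2 hkG hU
  have : Fintype (ZMod s ⧸ K) := Fintype.ofFinite _
  have hq := card_quot K
  rw [hcG] at hq
  have hq2 : 2 ≤ Fintype.card (ZMod s ⧸ K) := by
    by_contra hcon
    have h1 : Fintype.card (ZMod s ⧸ K) ≤ 1 := by omega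
    have h2 := Nat.mul_le_mul_left (fs K).card h1
    omega
  have hLc : Fintype.card (ZMod s) + n = L.card := by rw [hcG, hLn]
  by_cases hkq : (fs K).card + Fintype.card (ZMod s ⧸ K) ≤ n + 2
  · exact hnc (step3 n L c hC hLc h hmax K a1 hk2 hq2 hkq U hUL hUK hU hmin)
  · have hcase : ((fs K).card = 2 ∧ Fintype.card (ZMod s ⧸ K) = t) ∨
        (Fintype.card (ZMod s ⧸ K) = 2 ∧ (fs K).card = t) := by
      obtain ⟨x, hx⟩ := Nat.exists_eq_add_of_le hk2
      obtain ⟨y, hy⟩ := Nat.exists_eq_add_of_le hq2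
      rw [hx, hy] at hq hkq ⊢
      have h1 : (2 + x) * (2 + y) = 4 + 2 * x + 2 * y + x * y := by ring
      have h2 : x * y = 0 := by
        have : 0 ≤ x * y := Nat.zero_le _
        omega
      rcases Nat.mul_eq_zero.1 h2 with h3 | h3
      · left
        omega
      · right
        omega
    rcases hcase with ⟨hk, hqt⟩ | ⟨hqt, hk⟩
    · by_cases htwo : ∃ g1 g2 : ZMod s, ∀ i ∈ L, c i - g1 ∈ K ∨ c i - g2 ∈ K
      · obtain ⟨g1, g2, hg⟩ := htwo
        refine twoCosets t n hs hn L c hLn hZF hmul K hk ?_ g1 g2 hg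
        rw [AddSubgroup.index, Nat.card_eq_fintype_card, hqt]
      · exact hnc (step5 n L c (by rw [hcG, hs, hn]) hC hLc h hhn hmax K a1 hk (by rw [hqt, hn]) U
          hUL hUK hU hmin htwo)
    · exact step4 t n hs hn L c hLn hZF h hhn hmax K hk a1 U hUL hUK (by rw [← hk]; exact hU) hmin

end Pool.Agent.H621.ZM.Pop2
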