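import Pool.Agent.H621.ZM.Spec2

/-!
Zero-sum matchings, the case `n = 3 s - 1`: proof of `S_QZero`.
-/

set_option autoImplicit false

namespace Pool.Agent.H621.ZM.QZero

open Finset

/-- a perfect matching of `Q \ {d}` with edges of colour `x`, as an involution -/
structure PM {V κ : Type} (G : SimpleGraph V) (c : Sym2 V → κ) (x : κ) (Q : Finset V) (σ : V → V)
    (d : V) : Prop where
  dQ : d ∈ Q
  mem : ∀ w ∈ Q, w ≠ d → σ w ∈ Q
  ned : ∀ w ∈ Q, w ≠ d → σ w ≠ d
  inv : ∀ w ∈ Q, w ≠ d → σ (σ w) = w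
  adj : ∀ w ∈ Q, w ≠ d → G.Adj w (σ w)
  col : ∀ w ∈ Q, w ≠ d → c s(w, σ w) = x

/-- the exchanged involution -/
def ex {V : Type} [DecidableEq V] (σ : V → V) (v w u : V) : V :=
  if u = v then w else if u = w then v else σ u

variable {V : Type} [DecidableEq V] {G : SimpleGraph V} {κ : Type} {c : Sym2 V → κ} {x : κ}
  {s : ℕ} {Q : Finset V} {σ : V → V} {v : V}

theorem ex_v (w : V) : ex σ v w v = w := if_pos rfl

theorem ex_w {w : V} (h : w ≠ v) : ex σ v w w = v := by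
  unfold ex
  rw [if_neg h, if_pos rfl]

theorem ex_u {w u : V} (h : u ≠ v) (h' : u ≠ w) : ex σ v w u = σ u := by
  unfold ex
  rw [if_neg h, if_neg h']

theorem PM.exch (h : PM G c x Q σ v) {w : V} (hcol : c s(v, w) = x) (hw : w ∈ Q)
    (hadj : G.Adj v w) : PM G c x Q (ex σ v w) (σ w) := by
  have hwv : w ≠ v := hadj.ne'
  have hinj : ∀ u ∈ Q, u ≠ v → u ≠ w → σ u ≠ σ w := by
    intro u hu huv huw he
    apply huw
    rw [← h.inv u hu huv, he, h.inv w hw hwv]
  have hne : ∀ u ∈ Q, u ≠ v → u ≠ σ w → σ u ≠ w := by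
    intro u hu huv huw he
    apply huw
    rw [← he, h.inv u hu huv]
  refine ⟨h.mem w hw hwv, ?_, ?_, ?_, ?_, ?_⟩
  · intro u hu hne'
    by_cases h1 : u = v
    · rw [h1, ex_v]
      exact hw
    · by_cases h2 : u = w
      · rw [h2, ex_w hwv]
        exact h.dQ
      · rw [ex_u h1 h2]
        exact h.mem u hu h1
  · intro u hu hne'
    by_cases h1 : u = v
    · rw [h1, ex_v]
      exact (h.adj w hw hwv).ne
    · by_cases h2 : u = w
      · rw [h2, ex_w hwv]
        exact (h.ned w hw hwv).symm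
      · rw [ex_u h1 h2]
        exact hinj u hu h1 h2
  · intro u hu hne'
    by_cases h1 : u = v
    · rw [h1, ex_v, ex_w hwv]
    · by_cases h2 : u = w
      · rw [h2, ex_w hwv, ex_v]
      · rw [ex_u h1 h2, ex_u (h.ned u hu h1) (hne u hu h1 hne'), h.inv u hu h1]
  · intro u hu hne'
    by_cases h1 : u = v
    · rw [h1, ex_v]
      exact hadj
    · by_cases h2 : u = w
      · rw [h2, ex_w hwv]
        exact hadj.symm
      · rw [ex_u h1 h2]
        exact h.adj u hu h1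
  · intro u hu hne'
    by_cases h1 : u = v
    · rw [h1, ex_v]
      exact hcol
    · by_cases h2 : u = w
      · rw [h2, ex_w hwv, Sym2.eq_swap]
        exact hcol
      · rw [ex_u h1 h2]
        exact h.col u hu h1

theorem two_card {M : Finset (Sym2 V)} (hM : IsM G M) :
    M.card * 2 = (M.biUnion fun e => e.toFinset).card := by
  rw [card_biUnion]
  · rw [sum_const_nat]
    intro e he
    exact Sym2.card_toFinset_of_not_isDiag e
      (SimpleGraph.not_isDiag_of_mem_edgeSet G (hM.1 e he))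
  · intro e he f hf hef
    rw [Function.onFun, Finset.disjoint_left]
    intro u hv hv'
    rw [Sym2.mem_toFinset] at hv hv'
    exact hM.2 e he f hf hef u hv hv'

theorem PM.toM (h : PM G c x Q σ v) (hs : Q.card + 1 = 2 * s) :
    ∃ N, IsM G N ∧ N.card + 1 = s ∧ (∀ e ∈ N, c e = x ∧ ∀ u ∈ e, u ∈ Q) ∧ ∀ e ∈ N, v ∉ e := by
  have key : ∀ w ∈ Q, w ≠ v → ∀ u ∈ s(w, σ w), s(w, σ w) = s(u, σ u) ∧ u ∈ Q ∧ u ≠ v := by
    intro w hw hwv u hu
    rcases Sym2.mem_iff.1 hu with rfl | rfl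
    · exact ⟨rfl, hw, hwv⟩
    · refine ⟨?_, h.mem w hw hwv, h.ned w hw hwv⟩
      rw [h.inv w hw hwv]
      exact Sym2.eq_swap
  have hIs : IsM G ((Q.erase v).image fun w => s(w, σ w)) := by
    refine ⟨?_, ?_⟩
    · intro e he
      obtain ⟨w, hw, rfl⟩ := mem_image.1 he
      rw [mem_erase] at hw
      exact h.adj w hw.2 hw.1
    · intro e he f hf hef u hu hu'
      obtain ⟨w, hw, rfl⟩ := mem_image.1 he
      obtain ⟨w', hw', rfl⟩ := mem_image.1 hf
      rw [mem_erase] at hw hw'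
      apply hef
      rw [(key w hw.2 hw.1 u hu).1, (key w' hw'.2 hw'.1 u hu').1]
  refine ⟨(Q.erase v).image fun w => s(w, σ w), hIs, ?_, ?_, ?_⟩
  · have h1 := two_card hIs
    have h2 : (((Q.erase v).image fun w => s(w, σ w)).biUnion fun e => e.toFinset) =
        Q.erase v := by
      ext u
      rw [mem_biUnion]
      constructor
      · rintro ⟨e, he, hu⟩
        obtain ⟨w, hw, rfl⟩ := mem_image.1 he
        rw [mem_erase] at hw
        rw [Sym2.mem_toFinset] at hu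
        have h3 := key w hw.2 hw.1 u hu
        exact mem_erase.2 ⟨h3.2.2, h3.2.1⟩
      · intro hu
        exact ⟨s(u, σ u), mem_image_of_mem _ hu, Sym2.mem_toFinset.2 (Sym2.mem_mk_left _ _)⟩
    rw [h2, card_erase_of_mem h.dQ] at h1
    omega
  · intro e he
    obtain ⟨w, hw, rfl⟩ := mem_image.1 he
    rw [mem_erase] at hw
    exact ⟨h.col w hw.2 hw.1, fun u hu => (key w hw.2 hw.1 u hu).2.1⟩
  · intro e he hv
    obtain ⟨w, hw, rfl⟩ := mem_image.1 he
    rw [mem_erase] at hw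
    exact (key w hw.2 hw.1 v hv).2.2 rfl

theorem ofM {N : Finset (Sym2 V)} (hN : IsM G N) (hcard : N.card + 1 = s)
    (hx : ∀ e ∈ N, c e = x ∧ ∀ u ∈ e, u ∈ Q) (hv : v ∈ Q) (hvN : ∀ e ∈ N, v ∉ e)
    (hs : Q.card + 1 = 2 * s) : ∃ σ, PM G c x Q σ v := by
  have h1 := two_card hN
  have h2 : (N.biUnion fun e => e.toFinset) = Q.erase v := by
    apply eq_of_subset_of_card_le
    · intro u hu
      obtain ⟨e, he, hu⟩ := mem_biUnion.1 hu
      rw [Sym2.mem_toFinset] at hu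
      refine mem_erase.2 ⟨?_, (hx e he).2 u hu⟩
      rintro rfl
      exact hvN e he hu
    · rw [← h1, card_erase_of_mem hv]
      omega
  have h3 : ∀ w ∈ Q, w ≠ v → ∃ u, s(w, u) ∈ N := by
    intro w hw hwv
    have h4 : w ∈ N.biUnion fun e => e.toFinset := by
      rw [h2]
      exact mem_erase.2 ⟨hwv, hw⟩
    obtain ⟨e, he, hu⟩ := mem_biUnion.1 h4
    rw [Sym2.mem_toFinset] at hu
    obtain ⟨u, rfl⟩ := Sym2.mem_iff_exists.1 hu
    exact ⟨u, he⟩
  have : Nonempty V := ⟨v⟩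
  choose! σ hσ using h3
  have hadj : ∀ w ∈ Q, w ≠ v → G.Adj w (σ w) := fun w hw hwv => hN.1 _ (hσ w hw hwv)
  have hmem : ∀ w ∈ Q, w ≠ v → σ w ∈ Q := fun w hw hwv =>
    (hx _ (hσ w hw hwv)).2 _ (Sym2.mem_mk_right _ _)
  have hned : ∀ w ∈ Q, w ≠ v → σ w ≠ v := by
    intro w hw hwv he
    apply hvN _ (hσ w hw hwv)
    rw [he]
    exact Sym2.mem_mk_right _ _
  refine ⟨σ, hv, hmem, hned, ?_, hadj, fun w hw hwv => (hx _ (hσ w hw hwv)).1⟩
  intro w hw hwv
  have h4 := hσ w hw hwv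
  have h5 := hσ (σ w) (hmem w hw hwv) (hned w hw hwv)
  by_cases h6 : s(w, σ w) = s(σ w, σ (σ w))
  · rw [Sym2.eq_iff] at h6
    rcases h6 with ⟨h7, -⟩ | ⟨h7, -⟩
    · exact absurd h7 (hadj w hw hwv).ne
    · exact h7.symm
  · exact absurd (Sym2.mem_mk_left _ _) (hN.2 _ h4 _ h5 h6 (σ w) (Sym2.mem_mk_right _ _))

theorem le_miss [Fintype V] (D : Finset (V × V)) (h : ∀ p ∈ D, p.1 ≠ p.2 ∧ ¬ G.Adj p.1 p.2)
    (h2 : ∀ p ∈ D, (p.2, p.1) ∉ D) : D.card ≤ miss G := by
  classical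
  have h3 : (D.image fun p => s(p.1, p.2)).card = D.card := by
    apply card_image_of_injOn
    rintro ⟨a, b⟩ hp ⟨a', b'⟩ hp' he
    have he' : s(a, b) = s(a', b') := he
    rw [Sym2.eq_iff] at he'
    rcases he' with ⟨rfl, rfl⟩ | ⟨rfl, rfl⟩
    · rfl
    · exact absurd hp' (h2 _ hp)
  rw [← h3, ← Set.ncard_coe_finset]
  unfold miss
  apply Set.ncard_le_ncard _ (Set.toFinite _)
  intro e he
  obtain ⟨p, hp, rfl⟩ := mem_image.1 (mem_coe.1 he)
  have h4 := h p hp
  rw [SimpleGraph.mem_edgeSet, SimpleGraph.compl_adj]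
  exact h4

variable (H : ∀ σ d, PM G c x Q σ d → ∀ w ∈ Q, G.Adj d w → c s(d, w) = x)

include H in
theorem F1 (h : PM G c x Q σ v) {X : V} (hXQ : X ∈ Q) (hXv : X ≠ v)
    (hX : ¬ ∃ σ, PM G c x Q σ X) : ¬ G.Adj v (σ X) := by
  intro hadj
  apply hX
  have h1 := h.exch (H σ v h (σ X) (h.mem X hXQ hXv) hadj) (h.mem X hXQ hXv) hadj
  rw [h.inv X hXQ hXv] at h1
  exact ⟨_, h1⟩

include H in
theorem F2 (h : PM G c x Q σ v) {X : V} (hXQ : X ∈ Q) (hXv : X ≠ v)
    (hX : ¬ ∃ σ, PM G c x Q σ X) {w : V} (hw : w ∈ Q) (hwX : w ≠ X)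
    (hwX' : w ≠ σ X) (hadj : G.Adj v w) : ¬ G.Adj (σ w) (σ X) := by
  have h1 := h.exch (H σ v h w hw hadj) hw hadj
  have hXw : X ≠ σ w := by
    intro he
    apply hwX'
    rw [he, h.inv w hw hadj.ne']
  have h2 := F1 H h1 hXQ hXw hX
  rwa [ex_u hXv hwX.symm] at h2

/-- the remaining vertices -/
def rest (Q : Finset V) (σ : V → V) (v X Y : V) : Finset V :=
  Q.filter fun w => w ≠ v ∧ w ≠ X ∧ w ≠ σ X ∧ w ≠ Y ∧ w ≠ σ Y

theorem mem_rest {X Y w : V} : w ∈ rest Q σ v X Y ↔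
    w ∈ Q ∧ w ≠ v ∧ w ≠ X ∧ w ≠ σ X ∧ w ≠ Y ∧ w ≠ σ Y := mem_filter

theorem rest_card (h : PM G c x Q σ v) {X Y : V} (hXQ : X ∈ Q) (hYQ : Y ∈ Q) (hXv : X ≠ v)
    (hYv : Y ≠ v) (hXY : X ≠ Y) (hXY' : σ X ≠ Y) (hs : Q.card + 1 = 2 * s) (h5 : 5 ≤ s) :
    (rest Q σ v X Y).card + 6 = 2 * s := by
  have hYX' : σ Y ≠ X := by
    intro he
    apply hXY'
    rw [← he, h.inv Y hYQ hYv]
  have hss : σ X ≠ σ Y := by
    intro he
    apply hXY
    rw [← h.inv X hXQ hXv, he, h.inv Y hYQ hYv]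
  have hX1 : σ X ≠ X := (h.adj X hXQ hXv).ne'
  have hY1 : σ Y ≠ Y := (h.adj Y hYQ hYv).ne'
  have hX2 := h.ned X hXQ hXv
  have hY2 := h.ned Y hYQ hYv
  have h1 : rest Q σ v X Y = Q \ {v, X, σ X, Y, σ Y} := by
    ext w
    rw [mem_rest, mem_sdiff]
    simp only [mem_insert, mem_singleton, not_or]
  have h2 : ({v, X, σ X, Y, σ Y} : Finset V) ⊆ Q := by
    intro w hw
    simp only [mem_insert, mem_singleton] at hw
    rcases hw with rfl | rfl | rfl | rfl | rfl
    · exact h.dQ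
    · exact hXQ
    · exact h.mem X hXQ hXv
    · exact hYQ
    · exact h.mem Y hYQ hYv
  have h3 : ({v, X, σ X, Y, σ Y} : Finset V).card = 5 := by
    rw [card_insert_of_notMem, card_insert_of_notMem, card_insert_of_notMem,
      card_insert_of_notMem, card_singleton]
    · simpa using hY1.symm
    · simp [hXY', hss]
    · simp [hX1.symm, hXY, hYX'.symm]
    · simp [hXv.symm, hX2.symm, hYv.symm, hY2.symm]
  rw [h1, card_sdiff_of_subset h2, h3]
  omega

theorem rest_inv (h : PM G c x Q σ v) {X Y : V} (hXQ : X ∈ Q) (hYQ : Y ∈ Q) (hXv : X ≠ v)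
    (hYv : Y ≠ v) {w : V} (hw : w ∈ rest Q σ v X Y) : σ w ∈ rest Q σ v X Y := by
  rw [mem_rest] at hw ⊢
  obtain ⟨h1, h2, h3, h4, h5, h6⟩ := hw
  refine ⟨h.mem w h1 h2, h.ned w h1 h2, ?_, ?_, ?_, ?_⟩
  · intro he
    apply h4
    rw [← he, h.inv w h1 h2]
  · intro he
    apply h3
    rw [← h.inv w h1 h2, he, h.inv X hXQ hXv]
  · intro he
    apply h6
    rw [← he, h.inv w h1 h2]
  · intro he
    apply h5
    rw [← h.inv w h1 h2, he, h.inv Y hYQ hYv]

include H in
theorem case1 [Fintype V] (h : PM G c x Q σ v) {X Y : V} (hXQ : X ∈ Q) (hYQ : Y ∈ Q) (hXv : X ≠ v)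
    (hYv : Y ≠ v) (hXY : X ≠ Y) (hXY' : σ X ≠ Y) (hs : Q.card + 1 = 2 * s) (h5 : 5 ≤ s)
    (hX : ¬ ∃ σ, PM G c x Q σ X) (hY : ¬ ∃ σ, PM G c x Q σ Y) (hvX : ¬ G.Adj v X)
    (hvY : ¬ G.Adj v Y) (hnb : ∃ w ∈ Q, G.Adj v w) : 2 * s ≤ miss G + 1 := by
  classical
  have hrc := rest_card h hXQ hYQ hXv hYv hXY hXY' hs h5
  have hYX' : σ Y ≠ X := by
    intro he
    apply hXY'
    rw [← he, h.inv Y hYQ hYv]
  have hss : σ X ≠ σ Y := by
    intro he
    apply hXY
    rw [← h.inv X hXQ hXv, he, h.inv Y hYQ hYv]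
  have hX1 : σ X ≠ X := (h.adj X hXQ hXv).ne'
  have hY1 : σ Y ≠ Y := (h.adj Y hYQ hYv).ne'
  have hX2 := h.ned X hXQ hXv
  have hY2 := h.ned Y hYQ hYv
  have fX := F1 H h hXQ hXv hX
  have fY := F1 H h hYQ hYv hY
  set R := rest Q σ v X Y with hR
  set P : Finset V := {X, σ X, Y, σ Y} with hP
  set B0 := R.filter fun w => ¬ G.Adj v w with hB0
  set B1 := R.filter fun w => G.Adj v w with hB1
  set B2 := R.filter fun w => G.Adj v (σ w) with hB2
  have hPc : P.card = 4 := by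
    rw [hP, card_insert_of_notMem, card_insert_of_notMem, card_insert_of_notMem, card_singleton]
    · simpa using hY1.symm
    · simp [hXY', hss]
    · simp [hX1.symm, hXY, hYX'.symm]
  have hPR : Disjoint P B0 := by
    rw [Finset.disjoint_left]
    intro u hu hu'
    have h1 := (mem_rest.1 (mem_filter.1 hu').1)
    rw [hP] at hu
    simp only [mem_insert, mem_singleton] at hu
    rcases hu with rfl | rfl | rfl | rfl
    · exact h1.2.2.1 rfl
    · exact h1.2.2.2.1 rfl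
    · exact h1.2.2.2.2.1 rfl
    · exact h1.2.2.2.2.2 rfl
  have hB12 : B2.card = B1.card := by
    apply card_bij (fun w _ => σ w)
    · intro w hw
      rw [hB2, mem_filter] at hw
      rw [hB1, mem_filter]
      exact ⟨rest_inv h hXQ hYQ hXv hYv hw.1, hw.2⟩
    · intro a ha b hb hab
      have ha' := mem_rest.1 (mem_filter.1 ha).1
      have hb' := mem_rest.1 (mem_filter.1 hb).1
      rw [← h.inv a ha'.1 ha'.2.1, hab, h.inv b hb'.1 hb'.2.1]
    · intro w hw
      rw [hB1, mem_filter] at hw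
      have hw' := mem_rest.1 hw.1
      refine ⟨σ w, ?_, h.inv w hw'.1 hw'.2.1⟩
      rw [hB2, mem_filter, h.inv w hw'.1 hw'.2.1]
      exact ⟨rest_inv h hXQ hYQ hXv hYv hw.1, hw.2⟩
  have hB01 : B1.card + B0.card = R.card := card_filter_add_card_filter_not _
  have hB1p : 0 < B1.card := by
    obtain ⟨w, hwQ, hvw⟩ := hnb
    rw [card_pos]
    refine ⟨w, ?_⟩
    rw [hB1, mem_filter, hR, mem_rest]
    refine ⟨⟨hwQ, hvw.ne', ?_, ?_, ?_, ?_⟩, hvw⟩
    · rintro rfl; exact hvX hvw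
    · rintro rfl; exact fX hvw
    · rintro rfl; exact hvY hvw
    · rintro rfl; exact fY hvw
  set D : Finset (V × V) := ({v} ×ˢ (P ∪ B0)) ∪ (B2 ×ˢ {σ X, σ Y}) with hD
  have hdis : Disjoint (({v} : Finset V) ×ˢ (P ∪ B0)) (B2 ×ˢ ({σ X, σ Y} : Finset V)) := by
    rw [Finset.disjoint_left]
    rintro ⟨a, b⟩ h1 h2
    rw [mem_product] at h1 h2
    have h3 : a = v := mem_singleton.1 h1.1
    have h4 := mem_rest.1 (mem_filter.1 h2.1).1
    exact h4.2.1 h3
  have hDc : D.card = 4 + B0.card + B2.card * 2 := by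
    rw [hD, card_union_of_disjoint hdis, card_product, card_product, card_singleton, one_mul,
      card_union_of_disjoint hPR, hPc, card_pair hss]
  have hDm : D.card ≤ miss G := by
    apply le_miss
    · rintro ⟨a, b⟩ hp
      rw [hD, mem_union, mem_product, mem_product] at hp
      rcases hp with ⟨h1, h2⟩ | ⟨h1, h2⟩
      · have h3 : a = v := mem_singleton.1 h1
        subst h3
        rcases mem_union.1 h2 with h4 | h4
        · have h4' : b ∈ P := h4
          rw [hP] at h4'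
          simp only [mem_insert, mem_singleton] at h4'
          rcases h4' with rfl | rfl | rfl | rfl
          · exact ⟨hXv.symm, hvX⟩
          · exact ⟨hX2.symm, fX⟩
          · exact ⟨hYv.symm, hvY⟩
          · exact ⟨hY2.symm, fY⟩
        · have h5 := mem_filter.1 h4
          exact ⟨(mem_rest.1 h5.1).2.1.symm, h5.2⟩
      · have h3 := mem_filter.1 h1
        have h4 : a ∈ R := h3.1
        have h5 : G.Adj v (σ a) := h3.2
        have h6 := mem_rest.1 h4
        have h7 := mem_rest.1 (rest_inv h hXQ hYQ hXv hYv h4)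
        have h8 : b = σ X ∨ b = σ Y := by
          have h2' : b ∈ ({σ X, σ Y} : Finset V) := h2
          simpa only [mem_insert, mem_singleton] using h2'
        rcases h8 with rfl | rfl
        · have h9 := F2 H h hXQ hXv hX h7.1 h7.2.2.1 h7.2.2.2.1 h5
          rw [h.inv a h6.1 h6.2.1] at h9
          exact ⟨h6.2.2.2.1, h9⟩
        · have h9 := F2 H h hYQ hYv hY h7.1 h7.2.2.2.2.1 h7.2.2.2.2.2 h5
          rw [h.inv a h6.1 h6.2.1] at h9
          exact ⟨h6.2.2.2.2.2, h9⟩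
    · rintro ⟨a, b⟩ hp hq
      have hvPB : v ∉ P ∪ B0 := by
        intro h1
        rcases mem_union.1 h1 with h4 | h4
        · rw [hP] at h4
          simp only [mem_insert, mem_singleton] at h4
          rcases h4 with h4 | h4 | h4 | h4
          · exact hXv h4.symm
          · exact hX2 h4.symm
          · exact hYv h4.symm
          · exact hY2 h4.symm
        · exact (mem_rest.1 (mem_filter.1 h4).1).2.1 rfl
      have hvS : v ∉ ({σ X, σ Y} : Finset V) := by
        simp only [mem_insert, mem_singleton, not_or]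
        exact ⟨hX2.symm, hY2.symm⟩
      rw [hD, mem_union, mem_product, mem_product] at hp hq
      rcases hp with ⟨h1, h2⟩ | ⟨h1, h2⟩
      · have h3 : a = v := mem_singleton.1 h1
        rcases hq with ⟨h4, -⟩ | ⟨-, h5⟩
        · have h6 : b = v := mem_singleton.1 h4
          apply hvPB
          rw [← h6]
          exact h2
        · apply hvS
          rw [← h3]
          exact h5
      · rcases hq with ⟨h4, -⟩ | ⟨h4, -⟩
        · have h6 : b = v := mem_singleton.1 h4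
          apply hvS
          rw [← h6]
          exact h2
        · have h6 := mem_rest.1 (mem_filter.1 h4).1
          have h8 : b = σ X ∨ b = σ Y := by
            have h2' : b ∈ ({σ X, σ Y} : Finset V) := h2
            simpa only [mem_insert, mem_singleton] using h2'
          rcases h8 with h9 | h9
          · exact h6.2.2.2.1 h9
          · exact h6.2.2.2.2.2 h9
  omega

include H in
theorem case2 [Fintype V] (h : PM G c x Q σ v) {X Y : V} (hXQ : X ∈ Q) (hYQ : Y ∈ Q) (hXv : X ≠ v)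
    (hYv : Y ≠ v) (hXY : X ≠ Y) (hXY' : σ X ≠ Y) (hs : Q.card + 1 = 2 * s) (h5 : 5 ≤ s)
    (hX : ¬ ∃ σ, PM G c x Q σ X) (hY : ¬ ∃ σ, PM G c x Q σ Y) (hvX : G.Adj v X) :
    2 * s ≤ miss G + 1 := by
  classical
  have hrc := rest_card h hXQ hYQ hXv hYv hXY hXY' hs h5
  have hYX' : σ Y ≠ X := by
    intro he
    apply hXY'
    rw [← he, h.inv Y hYQ hYv]
  have hss : σ X ≠ σ Y := by
    intro he
    apply hXY
    rw [← h.inv X hXQ hXv, he, h.inv Y hYQ hYv]
  have hX2 := h.ned X hXQ hXv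
  have hY2 := h.ned Y hYQ hYv
  have fX := F1 H h hXQ hXv hX
  have fY := F1 H h hYQ hYv hY
  have fXY : ¬ G.Adj (σ X) (σ Y) := F2 H h hYQ hYv hY hXQ hXY hYX'.symm hvX
  have h1 := h.exch (H σ v h X hXQ hvX) hXQ hvX
  -- the conditions
  have i1 : ∀ w ∈ rest Q σ v X Y, G.Adj v w → ¬ G.Adj (σ X) (σ w) ∧ ¬ G.Adj (σ Y) (σ w) := by
    intro w hw hvw
    have hw' := mem_rest.1 hw
    exact ⟨fun h' => F2 H h hXQ hXv hX hw'.1 hw'.2.2.1 hw'.2.2.2.1 hvw h'.symm,
      fun h' => F2 H h hYQ hYv hY hw'.1 hw'.2.2.2.2.1 hw'.2.2.2.2.2 hvw h'.symm⟩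
  have i2 : ∀ w ∈ rest Q σ v X Y, G.Adj (σ X) w → ¬ G.Adj v (σ w) ∧ ¬ G.Adj (σ Y) (σ w) := by
    intro w hw hXw
    have hw' := mem_rest.1 hw
    have e1 : ex σ v X X = v := ex_w hXv
    have e2 : ex σ v X w = σ w := ex_u hw'.2.1 hw'.2.2.1
    have e3 : ex σ v X Y = σ Y := ex_u hYv hXY.symm
    have hXX : X ≠ σ X := (h.adj X hXQ hXv).ne
    constructor
    · have h2 := F2 H h1 hXQ hXX hX hw'.1 hw'.2.2.1 (by rw [e1]; exact hw'.2.1) hXw
      rw [e1, e2] at h2
      exact fun h' => h2 h'.symm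
    · have h2 := F2 H h1 hYQ hXY'.symm hY hw'.1 hw'.2.2.2.2.1
        (by rw [e3]; exact hw'.2.2.2.2.2) hXw
      rw [e2, e3] at h2
      exact fun h' => h2 h'.symm
  set R := rest Q σ v X Y with hR
  have hRinv : ∀ w ∈ R, σ w ∈ R := fun w hw => rest_inv h hXQ hYQ hXv hYv hw
  have hRss : ∀ w ∈ R, σ (σ w) = w := fun w hw => h.inv w (mem_rest.1 hw).1 (mem_rest.1 hw).2.1
  have hcnt : ∀ a : V, (R.filter fun w => ¬ G.Adj a w).card =
      ∑ w ∈ R, (if G.Adj a w then 0 else 1) := by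
    intro a
    rw [card_filter]
    exact sum_congr rfl fun w _ => by
      by_cases hh : G.Adj a w
      · simp [hh]
      · simp [hh]
  have hcnt' : ∀ a : V, (R.filter fun w => ¬ G.Adj a w).card =
      ∑ w ∈ R, (if G.Adj a (σ w) then 0 else 1) := by
    intro a
    rw [hcnt a]
    exact sum_nbij' σ σ hRinv hRinv hRss hRss (fun w hw => by rw [hRss w hw])
  set Nv := (R.filter fun w => ¬ G.Adj v w) with hNv
  set NX := (R.filter fun w => ¬ G.Adj (σ X) w) with hNX
  set NY := (R.filter fun w => ¬ G.Adj (σ Y) w) with hNY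
  have htot : 3 * R.card ≤ 2 * (Nv.card + NX.card + NY.card) := by
    have e : 2 * (Nv.card + NX.card + NY.card) =
        ∑ w ∈ R, (((if G.Adj v w then 0 else 1) + (if G.Adj (σ X) w then 0 else 1) +
          (if G.Adj (σ Y) w then 0 else 1)) + ((if G.Adj v (σ w) then 0 else 1) +
          (if G.Adj (σ X) (σ w) then 0 else 1) + (if G.Adj (σ Y) (σ w) then 0 else 1))) := by
      rw [sum_add_distrib, sum_add_distrib, sum_add_distrib, sum_add_distrib, sum_add_distrib,
        ← hcnt v, ← hcnt (σ X), ← hcnt (σ Y), ← hcnt' v, ← hcnt' (σ X), ← hcnt' (σ Y)]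
      ring
    rw [e, mul_comm, ← smul_eq_mul, ← sum_const]
    refine sum_le_sum fun w hw => ?_
    have a1 := i1 w hw
    have a2 := i2 w hw
    have a3 := i1 (σ w) (hRinv w hw)
    have a4 := i2 (σ w) (hRinv w hw)
    rw [hRss w hw] at a3 a4
    by_cases b1 : G.Adj v w
    · by_cases b2 : G.Adj v (σ w)
      · have c1 := a1 b1
        have c2 := a3 b2
        simp [b1, b2, c1.1, c1.2, c2.1, c2.2]
      · have c1 := a1 b1
        simp only [b1, b2, c1.1, c1.2, if_true, if_false]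
        omega
    · by_cases b2 : G.Adj v (σ w)
      · have c2 := a3 b2
        simp only [b1, b2, c2.1, c2.2, if_true, if_false]
        omega
      · by_cases b3 : G.Adj (σ X) w
        · have c3 := a2 b3
          simp only [b1, b2, b3, c3.2, if_true, if_false]
          omega
        · simp only [b1, b2, b3, if_false]
          omega
  set D : Finset (V × V) := {(v, σ X), (v, σ Y), (σ X, σ Y)} ∪
    (({v} ×ˢ Nv) ∪ (({σ X} ×ˢ NX) ∪ ({σ Y} ×ˢ NY))) with hD
  have hRfact : ∀ w ∈ R, w ≠ v ∧ w ≠ σ X ∧ w ≠ σ Y := fun w hw =>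
    ⟨(mem_rest.1 hw).2.1, (mem_rest.1 hw).2.2.2.1, (mem_rest.1 hw).2.2.2.2.2⟩
  have hNvR : ∀ w ∈ Nv, w ∈ R ∧ ¬ G.Adj v w := fun w hw => mem_filter.1 hw
  have hNXR : ∀ w ∈ NX, w ∈ R ∧ ¬ G.Adj (σ X) w := fun w hw => mem_filter.1 hw
  have hNYR : ∀ w ∈ NY, w ∈ R ∧ ¬ G.Adj (σ Y) w := fun w hw => mem_filter.1 hw
  have hmD : ∀ a b : V, (a, b) ∈ D ↔ ((a = v ∧ b = σ X) ∨ (a = v ∧ b = σ Y) ∨
      (a = σ X ∧ b = σ Y)) ∨ ((a = v ∧ b ∈ Nv) ∨ (a = σ X ∧ b ∈ NX) ∨ (a = σ Y ∧ b ∈ NY)) := by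
    intro a b
    rw [hD]
    simp only [mem_union, mem_insert, mem_singleton, mem_product, Prod.mk.injEq]
  have hDc : D.card = 3 + (Nv.card + (NX.card + NY.card)) := by
    rw [hD, card_union_of_disjoint, card_union_of_disjoint, card_union_of_disjoint, card_product,
      card_product, card_product, card_singleton, card_singleton, card_singleton, one_mul, one_mul,
      one_mul]
    · congr 1
      rw [card_insert_of_notMem, card_insert_of_notMem, card_singleton]
      · simp [hX2.symm]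
      · simp [hss, hX2.symm]
    · rw [Finset.disjoint_left]
      rintro ⟨a, b⟩ k1 k2
      rw [mem_product] at k1 k2
      have k3 : a = σ X := mem_singleton.1 k1.1
      have k4 : a = σ Y := mem_singleton.1 k2.1
      exact hss (k3.symm.trans k4)
    · rw [Finset.disjoint_left]
      rintro ⟨a, b⟩ k1 k2
      rw [mem_product] at k1
      rw [mem_union, mem_product, mem_product] at k2
      have k3 : a = v := mem_singleton.1 k1.1
      rcases k2 with k2 | k2
      · have k4 : a = σ X := mem_singleton.1 k2.1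
        exact hX2 (k4.symm.trans k3)
      · have k4 : a = σ Y := mem_singleton.1 k2.1
        exact hY2 (k4.symm.trans k3)
    · rw [Finset.disjoint_left]
      rintro ⟨a, b⟩ k1 k2
      have k3 : b = σ X ∨ b = σ Y := by
        simp only [mem_insert, mem_singleton, Prod.mk.injEq] at k1
        rcases k1 with ⟨-, k⟩ | ⟨-, k⟩ | ⟨-, k⟩
        · exact Or.inl k
        · exact Or.inr k
        · exact Or.inr k
      have k4 : b ∈ R := by
        rw [mem_union, mem_union, mem_product, mem_product, mem_product] at k2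
        rcases k2 with ⟨-, k⟩ | ⟨-, k⟩ | ⟨-, k⟩
        · exact (hNvR _ k).1
        · exact (hNXR _ k).1
        · exact (hNYR _ k).1
      rcases k3 with k | k
      · exact (hRfact b k4).2.1 k
      · exact (hRfact b k4).2.2 k
  have hDm : D.card ≤ miss G := by
    apply le_miss
    · rintro ⟨a, b⟩ hp
      rw [hmD] at hp
      show a ≠ b ∧ ¬ G.Adj a b
      rcases hp with (⟨rfl, rfl⟩ | ⟨rfl, rfl⟩ | ⟨rfl, rfl⟩) | (⟨rfl, k⟩ | ⟨rfl, k⟩ | ⟨rfl, k⟩)
      · exact ⟨hX2.symm, fX⟩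
      · exact ⟨hY2.symm, fY⟩
      · exact ⟨hss, fXY⟩
      · exact ⟨(hRfact b (hNvR b k).1).1.symm, (hNvR b k).2⟩
      · exact ⟨(hRfact b (hNXR b k).1).2.1.symm, (hNXR b k).2⟩
      · exact ⟨(hRfact b (hNYR b k).1).2.2.symm, (hNYR b k).2⟩
    · rintro ⟨a, b⟩ hp hq
      have hq' : (b, a) ∈ D := hq
      rw [hmD] at hp hq'
      have hRv : v ∉ R := fun hh => (hRfact v hh).1 rfl
      have hRX : σ X ∉ R := fun hh => (hRfact _ hh).2.1 rfl
      have hRY : σ Y ∉ R := fun hh => (hRfact _ hh).2.2 rfl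
      have ha : a = v ∨ a = σ X ∨ a = σ Y := by
        rcases hp with (⟨k, -⟩ | ⟨k, -⟩ | ⟨k, -⟩) | (⟨k, -⟩ | ⟨k, -⟩ | ⟨k, -⟩)
        · exact Or.inl k
        · exact Or.inl k
        · exact Or.inr (Or.inl k)
        · exact Or.inl k
        · exact Or.inr (Or.inl k)
        · exact Or.inr (Or.inr k)
      have hb : b = v ∨ b = σ X ∨ b = σ Y := by
        rcases hq' with (⟨k, -⟩ | ⟨k, -⟩ | ⟨k, -⟩) | (⟨k, -⟩ | ⟨k, -⟩ | ⟨k, -⟩)
        · exact Or.inl k
        · exact Or.inl k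
        · exact Or.inr (Or.inl k)
        · exact Or.inl k
        · exact Or.inr (Or.inl k)
        · exact Or.inr (Or.inr k)
      have hbR : b ∉ R := by
        rcases hb with rfl | rfl | rfl
        · exact hRv
        · exact hRX
        · exact hRY
      have haR : a ∉ R := by
        rcases ha with rfl | rfl | rfl
        · exact hRv
        · exact hRX
        · exact hRY
      have hp2 : (a = v ∧ b = σ X) ∨ (a = v ∧ b = σ Y) ∨ (a = σ X ∧ b = σ Y) := by
        rcases hp with k | (⟨-, k⟩ | ⟨-, k⟩ | ⟨-, k⟩)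
        · exact k
        · exact absurd (hNvR b k).1 hbR
        · exact absurd (hNXR b k).1 hbR
        · exact absurd (hNYR b k).1 hbR
      have hq2 : (b = v ∧ a = σ X) ∨ (b = v ∧ a = σ Y) ∨ (b = σ X ∧ a = σ Y) := by
        rcases hq' with k | (⟨-, k⟩ | ⟨-, k⟩ | ⟨-, k⟩)
        · exact k
        · exact absurd (hNvR a k).1 haR
        · exact absurd (hNXR a k).1 haR
        · exact absurd (hNYR a k).1 haR
      rcases hp2 with ⟨k1, k2⟩ | ⟨k1, k2⟩ | ⟨k1, k2⟩ <;>
        rcases hq2 with ⟨k3, k4⟩ | ⟨k3, k4⟩ | ⟨k3, k4⟩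
      · exact hX2 (k2.symm.trans k3)
      · exact hX2 (k2.symm.trans k3)
      · exact hY2 (k4.symm.trans k1)
      · exact hY2 (k2.symm.trans k3)
      · exact hY2 (k2.symm.trans k3)
      · exact hY2 (k4.symm.trans k1)
      · exact hY2 (k2.symm.trans k3)
      · exact hY2 (k2.symm.trans k3)
      · exact hss (k1.symm.trans k4)
  omega

theorem qZero : S_QZero := by
  intro V _ _ G κ c x s Q h5 hs hmiss H0 N v hN hNc hNx hv hvN hnb a ha b hb hab
  have H : ∀ σ d, PM G c x Q σ d → ∀ w ∈ Q, G.Adj d w → c s(d, w) = x := by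
    intro σ d h w hw hdw
    obtain ⟨N', h1, h2, h3, h4⟩ := h.toM hs
    exact H0 N' h1 h2 h3 d h.dQ h4 w hw hdw
  obtain ⟨σ, h⟩ := ofM hN hNc hNx hv hvN hs
  by_contra hcon
  have hX : ¬ ∃ σ, PM G c x Q σ a := by
    rintro ⟨σ', h'⟩
    exact hcon (H σ' a h' b hb hab)
  have hcon' : c s(b, a) ≠ x := by
    rw [Sym2.eq_swap]
    exact hcon
  have hY : ¬ ∃ σ, PM G c x Q σ b := by
    rintro ⟨σ', h'⟩
    exact hcon' (H σ' b h' a ha hab.symm)
  have hav : a ≠ v := by
    rintro rfl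
    exact hX ⟨σ, h⟩
  have hbv : b ≠ v := by
    rintro rfl
    exact hY ⟨σ, h⟩
  have hab' : σ a ≠ b := by
    intro he
    apply hcon
    rw [← he]
    exact h.col a ha hav
  have hba' : σ b ≠ a := by
    intro he
    apply hcon'
    rw [← he]
    exact h.col b hb hbv
  have key : 2 * s ≤ miss G + 1 := by
    by_cases h1 : G.Adj v a
    · exact case2 H h ha hb hav hbv hab.ne hab' hs h5 hX hY h1
    · by_cases h2 : G.Adj v b
      · exact case2 H h hb ha hbv hav hab.ne' hba' hs h5 hY hX h2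
      · exact case1 H h ha hb hav hbv hab.ne hab' hs h5 hX hY h1 h2 hnb
  omega

end Pool.Agent.H621.ZM.QZero
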