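import Pool.Agent.H621.ZM.Spec2

/-!
QZERO4 (helper980 for helper621): the counting for `s = 4` with the exception `K_4`.
-/

set_option autoImplicit false

namespace Pool.Agent.H621.ZM.QZero4

open Finset
open Pool.Agent.H621.ZM

variable {V : Type} {κ : Type}

/-- adjacency of the labelled vertices -/
def A (G : SimpleGraph V) (f : Fin 7 → V) (i j : Fin 7) : Prop := G.Adj (f i) (f j)

/-- the colour is `x` -/
def K (c : Sym2 V → κ) (x : κ) (f : Fin 7 → V) (i j : Fin 7) : Prop := c s(f i, f j) = x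

/-- the hypothesis -/
def Hyp [DecidableEq V] (G : SimpleGraph V) (c : Sym2 V → κ) (x : κ) (Q : Finset V) : Prop :=
  ∀ N, IsM G N → N.card = 3 → (∀ e ∈ N, c e = x ∧ ∀ v ∈ e, v ∈ Q) →
    ∀ d ∈ Q, (∀ e ∈ N, d ∉ e) → ∀ w ∈ Q, G.Adj d w → c s(d, w) = x

lemma Asymm {G : SimpleGraph V} {f : Fin 7 → V} {i j : Fin 7} (h : A G f i j) : A G f j i :=
  G.adj_symm h

lemma Ksymm {c : Sym2 V → κ} {x : κ} {f : Fin 7 → V} {i j : Fin 7} (h : K c x f i j) :
    K c x f j i := by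
  unfold K at *
  rw [Sym2.eq_swap]
  exact h

/-- a vertex missed by a coloured matching -/
lemma free [DecidableEq V] {G : SimpleGraph V} {c : Sym2 V → κ} {x : κ} {Q : Finset V}
    (H : Hyp G c x Q) {f : Fin 7 → V} (hf : Function.Injective f) (hQ : ∀ i, f i ∈ Q)
    (p a a' b b' w w' : Fin 7) (hnd : [p, a, a', b, b', w, w'].Nodup)
    (h1 : A G f a a') (h1' : K c x f a a') (h2 : A G f b b') (h2' : K c x f b b')
    (h3 : A G f w w') (h3' : K c x f w w') (z : Fin 7) (hz : A G f p z) : K c x f p z := by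
  simp only [List.nodup_cons, List.mem_cons, not_or, List.not_mem_nil, not_false_eq_true,
    List.nodup_nil, and_true] at hnd
  obtain ⟨⟨n1, n2, n3, n4, n5, n6⟩, ⟨n7, n8, n9, n10, n11⟩, ⟨n12, n13, n14, n15⟩,
    ⟨n16, n17, n18⟩, ⟨n19, n20⟩, n21⟩ := hnd
  have ne : ∀ {i j : Fin 7}, i ≠ j → f i ≠ f j := fun h h' => h (hf h')
  have m1 := ne n1
  have m2 := ne n2
  have m3 := ne n3
  have m4 := ne n4
  have m5 := ne n5
  have m6 := ne n6
  have m8 := ne n8
  have m9 := ne n9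
  have m10 := ne n10
  have m11 := ne n11
  have m12 := ne n12
  have m13 := ne n13
  have m14 := ne n14
  have m15 := ne n15
  have m17 := ne n17
  have m18 := ne n18
  have m19 := ne n19
  have m20 := ne n20
  obtain ⟨N, hN⟩ : ∃ N : Finset (Sym2 V), N = {s(f a, f a'), s(f b, f b'), s(f w, f w')} := ⟨_, rfl⟩
  have hmem : ∀ e, e ∈ N ↔ e = s(f a, f a') ∨ e = s(f b, f b') ∨ e = s(f w, f w') := by
    intro e
    rw [hN]
    simp
  refine H N ⟨?_, ?_⟩ ?_ ?_ (f p) (hQ p) ?_ (f z) (hQ z) hz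
  · intro e he
    rcases (hmem e).1 he with rfl | rfl | rfl
    · exact h1
    · exact h2
    · exact h3
  · intro e he e' he' hne v hv
    rcases (hmem e).1 he with rfl | rfl | rfl <;> rcases (hmem e').1 he' with rfl | rfl | rfl
    all_goals first
      | exact absurd rfl hne
      | (rw [Sym2.mem_iff] at hv ⊢
         rcases hv with rfl | rfl <;> simp [m8, m9, m10, m11, m12, m13, m14, m15, m17, m18, m19,
           m20, m8.symm, m9.symm, m10.symm, m11.symm, m12.symm, m13.symm, m14.symm, m15.symm,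
           m17.symm, m18.symm, m19.symm, m20.symm])
  · rw [hN]
    rw [card_insert_of_notMem, card_insert_of_notMem, card_singleton]
    · simp [m17, m18, m19, m20]
    · simp [m8, m9, m10, m11, m12, m13, m14, m15]
  · intro e he
    rcases (hmem e).1 he with rfl | rfl | rfl
    · exact ⟨h1', fun v hv => by rcases Sym2.mem_iff.1 hv with rfl | rfl <;> exact hQ _⟩
    · exact ⟨h2', fun v hv => by rcases Sym2.mem_iff.1 hv with rfl | rfl <;> exact hQ _⟩
    · exact ⟨h3', fun v hv => by rcases Sym2.mem_iff.1 hv with rfl | rfl <;> exact hQ _⟩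
  · intro e he
    rcases (hmem e).1 he with rfl | rfl | rfl <;>
      simp [m1, m2, m3, m4, m5, m6]

/-- counting the non-edges -/
lemma bad [Fintype V] {G : SimpleGraph V} (hm : miss G ≤ 6) {f : Fin 7 → V}
    (hf : Function.Injective f) (S : Finset (Fin 7 × Fin 7)) (hS : ∀ p ∈ S, p.1 < p.2 ∧ ¬ A G f p.1 p.2) :
    S.card ≤ 6 := by
  classical
  refine le_trans ?_ hm
  unfold miss
  have h1 : (S.image (fun p => s(f p.1, f p.2)) : Finset (Sym2 V)).card = S.card := by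
    apply card_image_of_injOn
    intro p hp q hq h
    simp only at h
    rw [Sym2.eq_iff] at h
    rcases h with ⟨h1, h2⟩ | ⟨h1, h2⟩
    · exact Prod.ext (hf h1) (hf h2)
    · have h3 := (hS p hp).1
      have h4 := (hS q hq).1
      have h5 := hf h1
      have h6 := hf h2
      rw [h5, h6] at h3
      exact absurd h3 (lt_asymm h4)
  rw [← h1, ← Set.ncard_coe_finset]
  apply Set.ncard_le_ncard _ (Set.toFinite _)
  intro e he
  rw [mem_coe, mem_image] at he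
  obtain ⟨p, hp, rfl⟩ := he
  obtain ⟨h2, h3⟩ := hS p hp
  rw [SimpleGraph.mem_edgeSet, SimpleGraph.compl_adj]
  exact ⟨fun h => absurd (hf h) (ne_of_lt h2), h3⟩

/-- the configuration -/
structure Cfg [DecidableEq V] (G : SimpleGraph V) (c : Sym2 V → κ) (x : κ) (Q : Finset V)
    (f : Fin 7 → V) : Prop where
  H : Hyp G c x Q
  inj : Function.Injective f
  mem : ∀ i, f i ∈ Q
  a12 : A G f 1 2
  k12 : K c x f 1 2
  a34 : A G f 3 4
  k34 : K c x f 3 4
  a56 : A G f 5 6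
  k56 : K c x f 5 6
  a13 : A G f 1 3
  n13 : ¬ K c x f 1 3

section cfg

variable [DecidableEq V] {G : SimpleGraph V} {c : Sym2 V → κ} {x : κ} {Q : Finset V} {f : Fin 7 → V}

lemma Cfg.f0 (h : Cfg G c x Q f) (z : Fin 7) (hz : A G f 0 z) : K c x f 0 z :=
  free h.H h.inj h.mem 0 1 2 3 4 5 6 (by decide) h.a12 h.k12 h.a34 h.k34 h.a56 h.k56 z hz

/-- exchange of the pairs -/
lemma Cfg.swap (h : Cfg G c x Q f) : Cfg G c x Q (f ∘ ![0, 3, 4, 1, 2, 5, 6]) :=
  ⟨h.H, h.inj.comp (by decide), fun _ => h.mem _, h.a34, h.k34, h.a12, h.k12, h.a56, h.k56,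
    Asymm h.a13, fun hk => h.n13 (Ksymm (i := 3) (j := 1) hk)⟩

/-- exchange of the last pair -/
lemma Cfg.flip (h : Cfg G c x Q f) : Cfg G c x Q (f ∘ ![0, 1, 2, 3, 4, 6, 5]) :=
  ⟨h.H, h.inj.comp (by decide), fun _ => h.mem _, h.a12, h.k12, h.a34, h.k34, Asymm h.a56,
    Ksymm (i := 5) (j := 6) h.k56, h.a13, h.n13⟩

lemma Cfg.F1 (h : Cfg G c x Q f) : ¬ A G f 0 2 := by
  intro h1
  have h2 := h.f0 2 h1
  exact h.n13 (free h.H h.inj h.mem 1 0 2 3 4 5 6 (by decide) h1 h2 h.a34 h.k34 h.a56 h.k56 3 h.a13)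

lemma Cfg.F2 (h : Cfg G c x Q f) (h1 : A G f 0 5) : ¬ A G f 6 2 := by
  intro h3
  have h2 := h.f0 5 h1
  have h4 := free h.H h.inj h.mem 6 0 5 1 2 3 4 (by decide) h1 h2 h.a12 h.k12 h.a34 h.k34 2 h3
  exact h.n13 (free h.H h.inj h.mem 1 0 5 6 2 3 4 (by decide) h1 h2 h3 h4 h.a34 h.k34 3 h.a13)

lemma Cfg.F3 (h : Cfg G c x Q f) (h1 : A G f 0 3) : ¬ A G f 4 2 := by
  intro h3
  have h2 := h.f0 3 h1
  have h4 := free h.H h.inj h.mem 4 0 3 1 2 5 6 (by decide) h1 h2 h.a12 h.k12 h.a56 h.k56 2 h3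
  exact h.n13 (free h.H h.inj h.mem 1 0 3 4 2 5 6 (by decide) h1 h2 h3 h4 h.a56 h.k56 3 h.a13)

lemma Cfg.F4 (h : Cfg G c x Q f) (h0 : A G f 0 1) (h1 : A G f 2 5) : ¬ A G f 6 0 ∧ ¬ A G f 6 4 := by
  have k0 := h.f0 1 h0
  have k1 := free h.H h.inj h.mem 2 0 1 3 4 5 6 (by decide) h0 k0 h.a34 h.k34 h.a56 h.k56 5 h1
  constructor
  · intro h3
    have h4 := free h.H h.inj h.mem 6 2 5 0 1 3 4 (by decide) h1 k1 h0 k0 h.a34 h.k34 0 h3
    exact h.n13 (free h.H h.inj h.mem 1 2 5 6 0 3 4 (by decide) h1 k1 h3 h4 h.a34 h.k34 3 h.a13)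
  · intro h3
    have h4 := free h.H h.inj h.mem 6 2 5 0 1 3 4 (by decide) h1 k1 h0 k0 h.a34 h.k34 4 h3
    have h5 := free h.H h.inj h.mem 3 2 5 6 4 0 1 (by decide) h1 k1 h3 h4 h0 k0 1 (Asymm h.a13)
    exact h.n13 (Ksymm h5)

/-- the conclusion -/
def Con (G : SimpleGraph V) (c : Sym2 V → κ) (x : κ) (Q : Finset V) : Prop :=
  ∃ I : Finset V, I ⊆ Q ∧ I.card = 4 ∧ (∀ a ∈ I, ∀ b ∈ I, ¬ G.Adj a b) ∧
      ∀ a ∈ I, ∀ b ∈ Q, G.Adj a b → c s(a, b) = x

lemma surj (hf : Function.Injective f) (hQ : ∀ i, f i ∈ Q) (hc : Q.card = 7) :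
    ∀ b ∈ Q, ∃ i, f i = b := by
  intro b hb
  have h1 : Finset.univ.image f = Q := by
    apply Finset.eq_of_subset_of_card_le
    · intro y hy
      rw [mem_image] at hy
      obtain ⟨i, -, rfl⟩ := hy
      exact hQ i
    · rw [card_image_of_injective _ hf, hc, card_univ, Fintype.card_fin]
  rw [← h1, mem_image] at hb
  obtain ⟨i, -, hi⟩ := hb
  exact ⟨i, hi⟩

lemma caseA [Fintype V] (h : Cfg G c x Q f) (hm : miss G ≤ 6) (h1 : ¬ A G f 0 1)
    (h3 : ¬ A G f 0 3) (h5 : A G f 0 5) : False := by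
  have n2 : ¬ A G f 0 2 := h.F1
  have n4 : ¬ A G f 0 4 := h.swap.F1
  have n26 : ¬ A G f 2 6 := fun h' => h.F2 h5 (Asymm h')
  have n46 : ¬ A G f 4 6 := fun h' => h.swap.F2 h5 (Asymm h')
  by_cases h6 : A G f 0 6
  · have n25 : ¬ A G f 2 5 := fun h' => h.flip.F2 h6 (Asymm h')
    have := bad hm h.inj {(0, 1), (0, 2), (0, 3), (0, 4), (2, 6), (4, 6), (2, 5)} (by
      simp [h1, n2, h3, n4, n26, n46, n25])
    exact absurd this (by decide)
  · have := bad hm h.inj {(0, 1), (0, 2), (0, 3), (0, 4), (2, 6), (4, 6), (0, 6)} (by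
      simp [h1, n2, h3, n4, n26, n46, h6])
    exact absurd this (by decide)

lemma caseB [Fintype V] (h : Cfg G c x Q f) (hm : miss G ≤ 6) (hc : Q.card = 7)
    (h1 : A G f 0 1) (h6 : A G f 0 6) (h5 : ¬ A G f 0 5) : Con G c x Q := by
  have n2 : ¬ A G f 0 2 := h.F1
  have n4 : ¬ A G f 0 4 := h.swap.F1
  have n24 : ¬ A G f 2 4 := h.swap.F3 h1
  have n25 : ¬ A G f 2 5 := fun h' => h.flip.F2 h6 (Asymm h')
  have n45 : ¬ A G f 4 5 := fun h' => h.flip.swap.F2 h6 (Asymm h')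
  have h3 : A G f 0 3 := by
    by_contra h3
    have := bad hm h.inj {(0, 2), (0, 4), (2, 4), (2, 5), (4, 5), (0, 5), (0, 3)} (by
      simp [n2, n4, n24, n25, n45, h5, h3])
    exact absurd this (by decide)
  have g0 := fun z hz => h.f0 z hz
  have g2 := free h.H h.inj h.mem 2 0 1 3 4 5 6 (by decide) h1 (g0 _ h1) h.a34 h.k34 h.a56 h.k56
  have g4 := free h.H h.inj h.mem 4 0 3 1 2 5 6 (by decide) h3 (g0 _ h3) h.a12 h.k12 h.a56 h.k56
  have g5 := free h.H h.inj h.mem 5 0 6 1 2 3 4 (by decide) h6 (g0 _ h6) h.a12 h.k12 h.a34 h.k34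
  have hI : ∀ i ∈ ({0, 2, 4, 5} : Finset (Fin 7)), ∀ j ∈ ({0, 2, 4, 5} : Finset (Fin 7)),
      ¬ A G f i j := by
    have sy : ∀ {i j : Fin 7}, ¬ A G f i j → ¬ A G f j i := fun h h' => h (Asymm h')
    have ir : ∀ i : Fin 7, ¬ A G f i i := fun i => G.irrefl
    intro i hi j hj
    simp only [mem_insert, mem_singleton] at hi hj
    rcases hi with rfl | rfl | rfl | rfl <;> rcases hj with rfl | rfl | rfl | rfl
    · exact ir _
    · exact n2
    · exact n4
    · exact h5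
    · exact sy n2
    · exact ir _
    · exact n24
    · exact n25
    · exact sy n4
    · exact sy n24
    · exact ir _
    · exact n45
    · exact sy h5
    · exact sy n25
    · exact sy n45
    · exact ir _
  have hK : ∀ i ∈ ({0, 2, 4, 5} : Finset (Fin 7)), ∀ z, A G f i z → K c x f i z := by
    intro i hi
    simp only [mem_insert, mem_singleton] at hi
    rcases hi with rfl | rfl | rfl | rfl
    · exact g0
    · exact g2
    · exact g4
    · exact g5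
  refine ⟨({0, 2, 4, 5} : Finset (Fin 7)).image f, ?_, ?_, ?_, ?_⟩
  · intro y hy
    rw [mem_image] at hy
    obtain ⟨i, -, rfl⟩ := hy
    exact h.mem i
  · rw [card_image_of_injective _ h.inj]
    rfl
  · intro a ha b hb
    rw [mem_image] at ha hb
    obtain ⟨i, hi, rfl⟩ := ha
    obtain ⟨j, hj, rfl⟩ := hb
    exact hI i hi j hj
  · intro a ha b hb hab
    rw [mem_image] at ha
    obtain ⟨i, hi, rfl⟩ := ha
    obtain ⟨j, rfl⟩ := surj h.inj h.mem hc b hb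
    exact hK i hi j hab

lemma caseC [Fintype V] (h : Cfg G c x Q f) (hm : miss G ≤ 6) (hc : Q.card = 7)
    (h1 : A G f 0 1) : Con G c x Q := by
  have n2 : ¬ A G f 0 2 := h.F1
  have n4 : ¬ A G f 0 4 := h.swap.F1
  have n24 : ¬ A G f 2 4 := h.swap.F3 h1
  by_cases h5 : A G f 0 5 <;> by_cases h6 : A G f 0 6
  · exfalso
    have n26 : ¬ A G f 2 6 := fun h' => h.F2 h5 (Asymm h')
    have n46 : ¬ A G f 4 6 := fun h' => h.swap.F2 h5 (Asymm h')
    have n25 : ¬ A G f 2 5 := fun h' => h.flip.F2 h6 (Asymm h')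
    have n45 : ¬ A G f 4 5 := fun h' => h.flip.swap.F2 h6 (Asymm h')
    have := bad hm h.inj {(0, 2), (0, 4), (2, 4), (2, 6), (4, 6), (2, 5), (4, 5)} (by
      simp [n2, n4, n24, n26, n46, n25, n45])
    exact absurd this (by decide)
  · exact caseB h.flip hm hc h1 h5 h6
  · exact caseB h hm hc h1 h6 h5
  · exfalso
    by_cases h25 : A G f 2 5 <;> by_cases h26 : A G f 2 6
    · have n46 : ¬ A G f 4 6 := fun h' => (h.F4 h1 h25).2 (Asymm h')
      have n45 : ¬ A G f 4 5 := fun h' => (h.flip.F4 h1 h26).2 (Asymm h')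
      have := bad hm h.inj {(0, 2), (0, 4), (2, 4), (0, 5), (0, 6), (4, 6), (4, 5)} (by
        simp [n2, n4, n24, h5, h6, n46, n45])
      exact absurd this (by decide)
    · have n46 : ¬ A G f 4 6 := fun h' => (h.F4 h1 h25).2 (Asymm h')
      have := bad hm h.inj {(0, 2), (0, 4), (2, 4), (0, 5), (0, 6), (4, 6), (2, 6)} (by
        simp [n2, n4, n24, h5, h6, n46, h26])
      exact absurd this (by decide)
    · have n45 : ¬ A G f 4 5 := fun h' => (h.flip.F4 h1 h26).2 (Asymm h')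
      have := bad hm h.inj {(0, 2), (0, 4), (2, 4), (0, 5), (0, 6), (2, 5), (4, 5)} (by
        simp [n2, n4, n24, h5, h6, h25, n45])
      exact absurd this (by decide)
    · have := bad hm h.inj {(0, 2), (0, 4), (2, 4), (0, 5), (0, 6), (2, 5), (2, 6)} (by
        simp [n2, n4, n24, h5, h6, h25, h26])
      exact absurd this (by decide)

lemma seven : ∀ i : Fin 7, i = 0 ∨ i = 1 ∨ i = 2 ∨ i = 3 ∨ i = 4 ∨ i = 5 ∨ i = 6 := by
  decide

lemma main [Fintype V] (h : Cfg G c x Q f) (hm : miss G ≤ 6) (hc : Q.card = 7)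
    (hv : ∃ w ∈ Q, G.Adj (f 0) w) : Con G c x Q := by
  by_cases h1 : A G f 0 1
  · exact caseC h hm hc h1
  by_cases h3 : A G f 0 3
  · exact caseC h.swap hm hc h3
  exfalso
  obtain ⟨w, hw, hvw⟩ := hv
  obtain ⟨i, rfl⟩ := surj h.inj h.mem hc w hw
  have n2 : ¬ A G f 0 2 := h.F1
  have n4 : ¬ A G f 0 4 := h.swap.F1
  have n0 : ¬ A G f 0 0 := G.irrefl
  have h56 : A G f 0 5 ∨ A G f 0 6 := by
    have hi : A G f 0 i := hvw
    rcases seven i with rfl | rfl | rfl | rfl | rfl | rfl | rfl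
    · exact absurd hi n0
    · exact absurd hi h1
    · exact absurd hi n2
    · exact absurd hi h3
    · exact absurd hi n4
    · exact Or.inl hi
    · exact Or.inr hi
  rcases h56 with h5 | h6
  · exact caseA h hm h1 h3 h5
  · exact caseA h.flip hm h1 h3 h6

end cfg

/-- the partner -/
def pr : Fin 7 → Fin 7 := ![0, 2, 1, 4, 3, 6, 5]

lemma third : ∀ i j : Fin 7, i ≠ 0 → j ≠ 0 → i ≠ j → j ≠ pr i →
    ∃ k : Fin 7, k ≠ 0 ∧ [0, i, pr i, j, pr j, k, pr k].Nodup := by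
  decide

lemma pair_ne {G : SimpleGraph V} {N : Finset (Sym2 V)} (hN : IsM G N) {a b a' b' : V}
    (h1 : s(a, b) ∈ N) (h2 : s(a', b') ∈ N) (h : s(a, b) ≠ s(a', b')) :
    a ≠ a' ∧ a ≠ b' ∧ b ≠ a' ∧ b ≠ b' := by
  have h3 := hN.2 _ h1 _ h2 h
  have h4 := h3 a (Sym2.mem_mk_left a b)
  have h5 := h3 b (Sym2.mem_mk_right a b)
  rw [Sym2.mem_iff, not_or] at h4 h5
  exact ⟨h4.1, h4.2, h5.1, h5.2⟩

theorem qZero4 : S_QZero4 := by
  intro V _ _ G κ c x Q hc hm H N v hN hNc hNx hvQ hvN hv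
  obtain ⟨e1, e2, e3, h12, h13, h23, hNe⟩ := card_eq_three.1 hNc
  have ex : ∀ e : Sym2 V, ∃ a b, e = s(a, b) := by
    intro e
    induction e with
    | _ a b => exact ⟨a, b, rfl⟩
  obtain ⟨a1, b1, rfl⟩ := ex e1
  obtain ⟨a2, b2, rfl⟩ := ex e2
  obtain ⟨a3, b3, rfl⟩ := ex e3
  have m1 : s(a1, b1) ∈ N := by rw [hNe]; simp
  have m2 : s(a2, b2) ∈ N := by rw [hNe]; simp
  have m3 : s(a3, b3) ∈ N := by rw [hNe]; simp
  have A1 : G.Adj a1 b1 := hN.1 _ m1
  have A2 : G.Adj a2 b2 := hN.1 _ m2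
  have A3 : G.Adj a3 b3 := hN.1 _ m3
  obtain ⟨p1, p2, p3, p4⟩ := pair_ne hN m1 m2 h12
  obtain ⟨p5, p6, p7, p8⟩ := pair_ne hN m1 m3 h13
  obtain ⟨p9, p10, p11, p12⟩ := pair_ne hN m2 m3 h23
  have v1 := hvN _ m1
  have v2 := hvN _ m2
  have v3 := hvN _ m3
  rw [Sym2.mem_iff, not_or] at v1 v2 v3
  obtain ⟨g, hg⟩ : ∃ g : Fin 7 → V, g = ![v, a1, b1, a2, b2, a3, b3] := ⟨_, rfl⟩
  have hinj : Function.Injective g := by
    rw [← List.nodup_ofFn, hg]
    simp [List.ofFn_succ, p1, p2, p3, p4, p5, p6, p7, p8, p9, p10, p11, p12, v1.1, v1.2, v2.1, v2.2,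
      v3.1, v3.2, A1.ne, A2.ne, A3.ne]
  have hmem : ∀ i, g i ∈ Q := by
    intro i
    rw [hg]
    rcases seven i with rfl | rfl | rfl | rfl | rfl | rfl | rfl
    · exact hvQ
    · exact (hNx _ m1).2 _ (Sym2.mem_mk_left _ _)
    · exact (hNx _ m1).2 _ (Sym2.mem_mk_right _ _)
    · exact (hNx _ m2).2 _ (Sym2.mem_mk_left _ _)
    · exact (hNx _ m2).2 _ (Sym2.mem_mk_right _ _)
    · exact (hNx _ m3).2 _ (Sym2.mem_mk_left _ _)
    · exact (hNx _ m3).2 _ (Sym2.mem_mk_right _ _)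
  have hA : ∀ i : Fin 7, i ≠ 0 → A G g i (pr i) ∧ K c x g i (pr i) := by
    have B1 : A G g 1 2 ∧ K c x g 1 2 := by rw [hg]; exact ⟨A1, (hNx _ m1).1⟩
    have B2 : A G g 3 4 ∧ K c x g 3 4 := by rw [hg]; exact ⟨A2, (hNx _ m2).1⟩
    have B3 : A G g 5 6 ∧ K c x g 5 6 := by rw [hg]; exact ⟨A3, (hNx _ m3).1⟩
    intro i hi
    rcases seven i with rfl | rfl | rfl | rfl | rfl | rfl | rfl
    · exact absurd rfl hi
    · exact B1
    · exact ⟨Asymm B1.1, Ksymm B1.2⟩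
    · exact B2
    · exact ⟨Asymm B2.1, Ksymm B2.2⟩
    · exact B3
    · exact ⟨Asymm B3.1, Ksymm B3.2⟩
  by_cases hall : ∀ a ∈ Q, ∀ b ∈ Q, G.Adj a b → c s(a, b) = x
  · exact Or.inl hall
  right
  push Not at hall
  obtain ⟨a, ha, b, hb, hab, hcab⟩ := hall
  obtain ⟨i, rfl⟩ := surj hinj hmem hc a ha
  obtain ⟨j, rfl⟩ := surj hinj hmem hc b hb
  have f0 : ∀ z, A G g 0 z → K c x g 0 z := fun z hz =>
    free H hinj hmem 0 1 2 3 4 5 6 (by decide) (hA 1 (by decide)).1 (hA 1 (by decide)).2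
      (hA 3 (by decide)).1 (hA 3 (by decide)).2 (hA 5 (by decide)).1 (hA 5 (by decide)).2 z hz
  have hi0 : i ≠ 0 := by
    rintro rfl
    exact hcab (f0 j hab)
  have hj0 : j ≠ 0 := by
    rintro rfl
    exact hcab (Ksymm (f0 i (Asymm hab)))
  have hij : i ≠ j := by
    rintro rfl
    exact G.irrefl hab
  have hjp : j ≠ pr i := by
    rintro rfl
    exact hcab (hA i hi0).2
  obtain ⟨k, hk0, hnd⟩ := third i j hi0 hj0 hij hjp
  have hinj2 : Function.Injective (![0, i, pr i, j, pr j, k, pr k] : Fin 7 → Fin 7) := by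
    rw [← List.nodup_ofFn]
    simpa [List.ofFn_succ] using hnd
  exact main (f := g ∘ ![0, i, pr i, j, pr j, k, pr k])
    ⟨H, hinj.comp hinj2, fun _ => hmem _, (hA i hi0).1, (hA i hi0).2, (hA j hj0).1, (hA j hj0).2,
      (hA k hk0).1, (hA k hk0).2, hab, hcab⟩ hm hc (by
        have : (g ∘ ![0, i, pr i, j, pr j, k, pr k]) 0 = v := by rw [hg]; rfl
        rw [this]
        exact hv)

end Pool.Agent.H621.ZM.QZero4
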