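import Pool.Agent.H621.ZM.Spec

/-!
Zero-sum matchings, the case `n = 3 s - 1`: definitions and statements of the parts.
-/

set_option autoImplicit false

namespace Pool.Agent.H621.ZM

open Finset

/-- every residue is a subset sum of `c - x` on `N` -/
def Full {ι : Type} {s : ℕ} (c : ι → ZMod s) (x : ZMod s) (N : Finset ι) : Prop :=
  ∀ y : ZMod s, ∃ T, T ⊆ N ∧ ∑ i ∈ T, (c i - x) = y

/-- rigid type: the value `x` has multiplicity `s - 1`, and the others generate everything -/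
def TypeR {ι : Type} [DecidableEq ι] {s : ℕ} (c : ι → ZMod s) (L : Finset ι) : Prop :=
  ∃ x, (L.filter (fun i => c i = x)).card + 1 = s ∧ Full c x (L.filter (fun i => c i ≠ x))

/-- the value `x` is forced: a term `x` of `m` can be replaced only by `x` -/
def FrcM {s : ℕ} (m : Multiset (ZMod s)) (x : ZMod s) : Prop :=
  ∀ z, (∀ T, T ≤ m.erase x → Multiset.card T + 1 = s → T.sum + z ≠ 0) → z = x

/-- two disjoint nonempty sets of forced values with together at least `s` terms -/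
def TwoF {ι : Type} [DecidableEq ι] {s : ℕ} (c : ι → ZMod s) (L : Finset ι) : Prop :=
  ∃ X Y : Finset (ZMod s), Disjoint X Y ∧ (∀ x, x ∈ X ∨ x ∈ Y → FrcM (L.val.map c) x) ∧
    (L.filter (fun i => c i ∈ X)).Nonempty ∧ (L.filter (fun i => c i ∈ Y)).Nonempty ∧
    s ≤ (L.filter (fun i => c i ∈ X)).card + (L.filter (fun i => c i ∈ Y)).card

/-- the exceptional alternative of STRUCT2 -/
def CaseX {ι : Type} [DecidableEq ι] {s : ℕ} (c : ι → ZMod s) (L : Finset ι) (t : ℕ) : Prop :=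
  ∃ (x : ZMod s) (W Γ : Finset ι), W ∪ Γ = L.filter (fun i => c i ≠ x) ∧ Disjoint W Γ ∧
    t ≤ (L.filter (fun i => c i = x)).card ∧
    (L.filter (fun i => c i = x)).card + W.card + 1 = s ∧ Γ.card = t ∧
    ∑ i ∈ W, (c i - x) = 0 ∧ Full c x Γ ∧ ∀ i ∈ W, ∃ j ∈ Γ, c j = c i

/-- POP2 -/
def S_Pop2 : Prop := ∀ (ι : Type) [DecidableEq ι] (s t : ℕ) (c : ι → ZMod s) (L : Finset ι),
  2 ≤ t → s = 2 * t → L.card + 1 = s + t → ZF c L → ∃ x, t ≤ (L.filter (fun i => c i = x)).card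

/-- STRUCT2 -/
def S_Struct2 : Prop := ∀ (ι : Type) [DecidableEq ι] (s t : ℕ) (c : ι → ZMod s) (L : Finset ι),
  2 ≤ t → s = 2 * t → L.card + 1 = s + t → ZF c L →
  (∃ x, t ≤ (L.filter (fun i => c i = x)).card) →
  (∃ (g d : ZMod s) (w : ι → ℤ), IsUnit d ∧ Good c g d w L) ∨ CaseX c L t

/-- CASEX -/
def S_CaseX : Prop := ∀ (ι : Type) [DecidableEq ι] (s t : ℕ) (c : ι → ZMod s) (L : Finset ι),
  2 ≤ t → s = 2 * t → L.card + 1 = s + t → ZF c L → CaseX c L t → TypeR c L ∨ TwoF c L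

/-- RIGIDGOOD -/
def S_RigidGood : Prop := ∀ (ι : Type) [DecidableEq ι] (s t : ℕ) (c : ι → ZMod s) (g d : ZMod s)
  (w : ι → ℤ) (L : Finset ι), 2 ≤ t → s = 2 * t → L.card + 1 = s + t → IsUnit d →
  (∀ i ∈ L, c i = g + d * (w i : ZMod s)) → aa w L + 1 = (s : ℤ) → bb w L + 1 = (s : ℤ) →
  TypeR c L ∨ TwoF c L

/-- SWAP2B -/
def S_Swap2b : Prop := ∀ (ι : Type) [DecidableEq ι] (s t : ℕ) (c : ι → ZMod s) (g d : ZMod s)
  (w : ι → ℤ) (L0 : Finset ι) (i i' j j' : ι), 3 ≤ s → s + 1 = 2 * t → IsUnit d →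
  i ∉ L0 → i' ∉ L0 → i ≠ i' → j ∉ L0 → j' ∉ L0 → j ≠ j' →
  L0.card + 3 = s + t → Good c g d w (insert i (insert i' L0)) →
  ZF c (insert j (insert j' L0)) → ¬ TypeR c (insert i (insert i' L0)) →
  ¬ TypeR c (insert j (insert j' L0)) →
  ∃ w', Good c g d w' (insert j (insert j' L0)) ∧ ∀ k ∈ L0, w' k = w k

/-- COREODD -/
def S_CoreOdd : Prop := ∀ (V : Type) [Fintype V] [DecidableEq V] (G : SimpleGraph V) (s t : ℕ)
  (c : Sym2 V → ZMod s), 3 ≤ s → s + 1 = 2 * t → t + 1 ≤ s →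
  (∀ F, IsM G F → F.card = s → ∑ e ∈ F, c e ≠ 0) →
  (∀ F, IsM G F → F.card + t ≤ s → ∃ F', F ⊆ F' ∧ IsM G F' ∧ F'.card + 1 = s + t) →
  Conn2 G (s + t - 1) → (∀ F, IsM G F → F.card + 1 = s + t → ¬ TypeR c F) →
  ∃ G₁ G₂ : SimpleGraph V, G ≤ G₁ ⊔ G₂ ∧ (∀ F, IsM G₁ F → F.card < s) ∧ (∀ F, IsM G₂ F → F.card < s)

/-- COREEVEN -/
def S_CoreEven : Prop := ∀ (V : Type) [Fintype V] [DecidableEq V] (G : SimpleGraph V) (s t : ℕ)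
  (c : Sym2 V → ZMod s), 2 ≤ t → s = 2 * t →
  (∀ F, IsM G F → F.card = s → ∑ e ∈ F, c e ≠ 0) →
  (∀ F, IsM G F → F.card + t ≤ s → ∃ F', F ⊆ F' ∧ IsM G F' ∧ F'.card + 1 = s + t) →
  Conn1 G (s + t - 1) → (∀ F, IsM G F → F.card + 1 = s + t → ¬ TypeR c F ∧ ¬ TwoF c F) →
  ∃ G₁ G₂ : SimpleGraph V, G ≤ G₁ ⊔ G₂ ∧ (∀ F, IsM G₁ F → F.card < s) ∧ (∀ F, IsM G₂ F → F.card < s)

/-- TWO: a near-perfect matching with two forced classes -/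
def S_TwoG : Prop := ∀ (V : Type) [Fintype V] [DecidableEq V] (G : SimpleGraph V) (s l : ℕ)
  (c : Sym2 V → ZMod s) (M : Finset (Sym2 V)), 2 ≤ s → Fintype.card V = 2 * l + 1 →
  (∀ F, IsM G F → F.card = s → ∑ e ∈ F, c e ≠ 0) → IsM G M → M.card = l → TwoF c M →
  2 * s ≤ miss G + 1

/-- QZERO: if every edge at the free vertex is coloured `x`, all edges are -/
def S_QZero : Prop := ∀ (V : Type) [Fintype V] [DecidableEq V] (G : SimpleGraph V) (κ : Type)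
  (c : Sym2 V → κ) (x : κ) (s : ℕ) (Q : Finset V), 5 ≤ s → Q.card + 1 = 2 * s → miss G + 2 ≤ 2 * s →
  (∀ N, IsM G N → N.card + 1 = s → (∀ e ∈ N, c e = x ∧ ∀ v ∈ e, v ∈ Q) →
    ∀ d ∈ Q, (∀ e ∈ N, d ∉ e) → ∀ w ∈ Q, G.Adj d w → c s(d, w) = x) →
  ∀ N v, IsM G N → N.card + 1 = s → (∀ e ∈ N, c e = x ∧ ∀ v ∈ e, v ∈ Q) → v ∈ Q →
    (∀ e ∈ N, v ∉ e) → (∃ w ∈ Q, G.Adj v w) →
  ∀ a ∈ Q, ∀ b ∈ Q, G.Adj a b → c s(a, b) = x

/-- QZERO4: the same for `s = 4`, with one exception -/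
def S_QZero4 : Prop := ∀ (V : Type) [Fintype V] [DecidableEq V] (G : SimpleGraph V) (κ : Type)
  (c : Sym2 V → κ) (x : κ) (Q : Finset V), Q.card = 7 → miss G ≤ 6 →
  (∀ N, IsM G N → N.card = 3 → (∀ e ∈ N, c e = x ∧ ∀ v ∈ e, v ∈ Q) →
    ∀ d ∈ Q, (∀ e ∈ N, d ∉ e) → ∀ w ∈ Q, G.Adj d w → c s(d, w) = x) →
  ∀ N v, IsM G N → N.card = 3 → (∀ e ∈ N, c e = x ∧ ∀ v ∈ e, v ∈ Q) → v ∈ Q →
    (∀ e ∈ N, v ∉ e) → (∃ w ∈ Q, G.Adj v w) →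
  (∀ a ∈ Q, ∀ b ∈ Q, G.Adj a b → c s(a, b) = x) ∨
    ∃ I : Finset V, I ⊆ Q ∧ I.card = 4 ∧ (∀ a ∈ I, ∀ b ∈ I, ¬ G.Adj a b) ∧
      ∀ a ∈ I, ∀ b ∈ Q, G.Adj a b → c s(a, b) = x

/-- FINISH5 -/
def S_Finish5 : Prop := ∀ (V : Type) [Fintype V] [DecidableEq V] (G : SimpleGraph V) (s : ℕ)
  (c : Sym2 V → ZMod s) (x : ZMod s) (Q : Finset V), 5 ≤ s → Fintype.card V + 1 = 3 * s →
  Q.card + 1 = 2 * s → miss G + 2 ≤ 2 * s → (∀ a ∈ Q, ∀ b ∈ Q, G.Adj a b → c s(a, b) = x) →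
  ∃ F, IsM G F ∧ F.card = s ∧ ∑ e ∈ F, c e = 0

/-- FINISHFOUR: the same for `s = 4` -/
def S_FinishFour : Prop := ∀ (V : Type) [Fintype V] [DecidableEq V] (G : SimpleGraph V)
  (c : Sym2 V → ZMod 4) (x : ZMod 4) (Q : Finset V), Fintype.card V = 11 →
  Q.card = 7 → miss G ≤ 6 → (∀ a ∈ Q, ∀ b ∈ Q, G.Adj a b → c s(a, b) = x) →
  ∃ F, IsM G F ∧ F.card = 4 ∧ ∑ e ∈ F, c e = 0

/-- FINISH2: a vertex `w₀` with almost no neighbour in `Q₁` -/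
def S_Finish2 : Prop := ∀ (V : Type) [Fintype V] [DecidableEq V] (G : SimpleGraph V) (s : ℕ)
  (c : Sym2 V → ZMod s) (x : ZMod s) (w₀ : V) (Q₁ : Finset V), 4 ≤ s → Fintype.card V + 1 = 3 * s →
  Q₁.card + 2 = 2 * s → w₀ ∉ Q₁ → miss G + 2 ≤ 2 * s →
  (∃ B : Finset V, B ⊆ Q₁ ∧ B.card + 3 = 2 * s ∧ ∀ q ∈ B, ¬ G.Adj w₀ q) →
  (∀ a ∈ Q₁, ∀ b ∈ Q₁, G.Adj a b → c s(a, b) = x) →
  ∃ F, IsM G F ∧ F.card = s ∧ ∑ e ∈ F, c e = 0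

/-- FINISH4: `s = 4` and four independent vertices in `Q` -/
def S_Finish4 : Prop := ∀ (V : Type) [Fintype V] [DecidableEq V] (G : SimpleGraph V)
  (c : Sym2 V → ZMod 4) (x : ZMod 4) (Q I : Finset V), Fintype.card V = 11 → Q.card = 7 →
  miss G ≤ 6 → I ⊆ Q → I.card = 4 → (∀ a ∈ I, ∀ b ∈ I, ¬ G.Adj a b) →
  (∀ a ∈ I, ∀ b ∈ Q, G.Adj a b → c s(a, b) = x) →
  ∃ F, IsM G F ∧ F.card = 4 ∧ ∑ e ∈ F, c e = 0

/-- NEARU: large matchings inside a set with few non-edges (`2 *` the number of missing pairs is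
counted by ordered pairs) -/
def S_NearU : Prop := ∀ (V : Type) [Fintype V] [DecidableEq V] (G : SimpleGraph V) (U : Finset V)
  (k i : ℕ), 2 * k + i = U.card + 1 → 1 ≤ i →
  {p : V × V | p.1 ∈ U ∧ p.2 ∈ U ∧ p.1 ≠ p.2 ∧ ¬ G.Adj p.1 p.2}.ncard < (i + 1) * (U.card - 1) →
  ∃ F, IsM G F ∧ F.card = k ∧ ∀ e ∈ F, ∀ v ∈ e, v ∈ U

/-- REVEN -/
def S_REven : Prop := ∀ (V : Type) [Fintype V] [DecidableEq V] (G : SimpleGraph V) (s t : ℕ)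
  (c : Sym2 V → ZMod s) (M : Finset (Sym2 V)), 3 ≤ t → s = 2 * t → Fintype.card V + 1 = 3 * s →
  miss G + 2 ≤ 2 * s → (∀ F, IsM G F → F.card = s → ∑ e ∈ F, c e ≠ 0) → IsM G M →
  M.card + 1 = s + t → ¬ TypeR c M

/-- REVEN4 -/
def S_REven4 : Prop := ∀ (V : Type) [Fintype V] [DecidableEq V] (G : SimpleGraph V)
  (c : Sym2 V → ZMod 4) (M : Finset (Sym2 V)), Fintype.card V = 11 →
  miss G ≤ 6 → (∀ F, IsM G F → F.card = 4 → ∑ e ∈ F, c e ≠ 0) → IsM G M →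
  M.card = 5 → ¬ TypeR c M

/-- RODD -/
def S_ROdd : Prop := ∀ (V : Type) [Fintype V] [DecidableEq V] (G : SimpleGraph V) (s t : ℕ)
  (c : Sym2 V → ZMod s) (M : Finset (Sym2 V)), 3 ≤ t → s + 1 = 2 * t → Fintype.card V + 1 = 3 * s →
  miss G + 2 ≤ 2 * s → (∀ F, IsM G F → F.card = s → ∑ e ∈ F, c e ≠ 0) → IsM G M →
  M.card + 1 = s + t → ¬ TypeR c M

/-- SMALL3 -/
def S_Small3 : Prop := ∀ (V : Type) [Fintype V] [DecidableEq V] (G : SimpleGraph V)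
  (c : Sym2 V → ZMod 3), Fintype.card V = 8 → miss G ≤ 4 →
  ∃ F, IsM G F ∧ F.card = 3 ∧ ∑ e ∈ F, c e = 0

end Pool.Agent.H621.ZM
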