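import Pool.Agent.H621.ZM.Values
import Pool.Agent.H621.ZM.Spec2

/-! # The case `n = 3 s - 1`: assembly -/

set_option autoImplicit false

namespace Pool.Agent.H621.ZM.R1

open Finset Pool.Agent.H621.ZM.Final

theorem isM_mono {V : Type} {G : SimpleGraph V} {F F' : Finset (Sym2 V)} (h : IsM G F) (hs : F' ⊆ F) :
    IsM G F' :=
  ⟨fun e he => h.1 e (hs he), fun e he f hf => h.2 e (hs he) f (hs hf)⟩

/-- the degrees -/
theorem degree {V : Type} [Fintype V] [DecidableEq V] (G : SimpleGraph V) (s : ℕ) (c : Sym2 V → ZMod s)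
    (hc : ZSFree G s c) (hV : Fintype.card V + 1 = 3 * s) (hm : miss G + 2 ≤ 2 * s) (v : V) :
    s ≤ (G.neighborSet v).ncard := by
  obtain ⟨G', c', -, h⟩ := del G s c hc v
  omega

theorem one (hTwo : S_TwoCol) {V : Type} [Fintype V] [DecidableEq V] (G : SimpleGraph V)
    (c : Sym2 V → ZMod 1) (hV : Fintype.card V + 2 = 3 * 1 + 1) (hc : ZSFree G 1 c) :
    2 * 1 - 1 ≤ miss G := by
  have hno : ∀ F, IsM G F → F.card < 1 := by
    intro F hF
    by_contra h
    obtain ⟨T, hT, hTc⟩ := exists_subset_card_eq (not_lt.mp h)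
    exact hc T (isM_mono hF hT) hTc (Subsingleton.elim _ _)
  have h := hTwo V G G G 1 1 le_rfl hV le_sup_left hno hno
  have h2 := Values.mm_one 1 le_rfl
  omega

theorem two (hTwo : S_TwoCol) {V : Type} [Fintype V] [DecidableEq V] (G : SimpleGraph V)
    (c : Sym2 V → ZMod 2) (hV : Fintype.card V + 2 = 3 * 2 + 1) (hc : ZSFree G 2 c) :
    2 * 2 - 1 ≤ miss G := by
  classical
  let H : ZMod 2 → SimpleGraph V := fun b =>
      { Adj := fun x y => G.Adj x y ∧ c s(x, y) = b
        symm := ⟨fun x y h => ⟨h.1.symm, by rw [Sym2.eq_swap]; exact h.2⟩⟩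
        loopless := ⟨fun x h => G.loopless.irrefl x h.1⟩ }
  have hH : ∀ b, ∀ F, IsM (H b) F → F.card < 2 := by
    intro b F hF
    by_contra hcon
    rw [not_lt] at hcon
    obtain ⟨T, hT, hTc⟩ := exists_subset_card_eq hcon
    have hTe : ∀ e ∈ T, e ∈ G.edgeSet ∧ c e = b := by
      intro e he
      have := hF.1 e (hT he)
      induction e using Sym2.ind with
      | _ x y => exact this
    refine hc T ⟨fun e he => (hTe e he).1, fun e he f hf => hF.2 e (hT he) f (hT hf)⟩ hTc ?_
    rw [sum_congr rfl fun e he => (hTe e he).2, sum_const, hTc]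
    have h2b : ∀ b : ZMod 2, 2 • b = 0 := by decide
    exact h2b b
  have h := hTwo V G (H 0) (H 1) 2 1 (by norm_num) hV ?_ (hH 0) (hH 1)
  · have h2 := Values.mm_one 2 (by norm_num)
    omega
  · intro x y hxy
    show (H 0).Adj x y ∨ (H 1).Adj x y
    have h01 : ∀ z : ZMod 2, z = 0 ∨ z = 1 := by decide
    rcases h01 (c s(x, y)) with h | h
    · exact Or.inl ⟨hxy, h⟩
    · exact Or.inr ⟨hxy, h⟩

theorem base (hTwo : S_TwoCol) (hExt : ExtNear.S_Ext1) (hCN : S_ConnNear) (hCP : S_ConnPerf)
    (hCO : S_CoreOdd) (hCE : S_CoreEven) (hTG : S_TwoG) (hRE : S_REven) (hRE4 : S_REven4)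
    (hRO : S_ROdd) (h3 : S_Small3)
    {V : Type} [Fintype V] [DecidableEq V] (G : SimpleGraph V) (s : ℕ)
    (c : Sym2 V → ZMod s) (hs : 1 ≤ s) (hV : Fintype.card V + 2 = 3 * s + 1) (hc : ZSFree G s c) :
    2 * s - 1 ≤ miss G := by
  rcases (show s = 1 ∨ s = 2 ∨ s = 3 ∨ 4 ≤ s by omega) with rfl | rfl | rfl | h4
  · exact one hTwo G c hV hc
  · exact two hTwo G c hV hc
  · by_contra hcon
    obtain ⟨F, hF, hFc, hF0⟩ := h3 V G c (by omega) (by omega)
    exact hc F hF hFc hF0
  · by_contra hcon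
    have hm : miss G + 2 ≤ 2 * s := by omega
    have hd : ∀ v, s ≤ (G.neighborSet v).ncard := degree G s c hc (by omega) hm
    have hmm := Values.mm_one s hs
    have hlt : miss G < mm s 1 := by omega
    rcases Nat.even_or_odd s with he | ho
    · obtain ⟨t, ht⟩ := he
      have hst : s = 2 * t := by omega
      obtain ⟨G₁, G₂, h1, h2, h3'⟩ := hCE V G s t c (by omega) hst hc
        (fun F hF hFc => hExt V G s 1 t (by omega) (by omega) le_rfl (by omega) hV hd hlt
          (by omega) F hF hFc)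
        ((hCN V G s (s + t - 1) (by omega) hd).1 (by omega))
        (by
          intro F hF hFc
          constructor
          · rcases (show t = 2 ∨ 3 ≤ t by omega) with rfl | h3t
            · subst hst
              exact hRE4 V G c F (by omega) (by omega) hc hF (by omega)
            · exact hRE V G s t c F h3t hst (by omega) hm hc hF hFc
          · intro hTF
            have := hTG V G s (s + t - 1) c F (by omega) (by omega) hc hF (by omega) hTF
            omega)
      have := hTwo V G G₁ G₂ s 1 hs hV h1 h2 h3'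
      omega
    · obtain ⟨k, hk⟩ := ho
      obtain ⟨t, ht⟩ : ∃ t, t = k + 1 := ⟨_, rfl⟩
      obtain ⟨G₁, G₂, h1, h2, h3'⟩ := hCO V G s t c (by omega) (by omega) (by omega) hc
        (fun F hF hFc => hExt V G s 1 t (by omega) (by omega) le_rfl (by omega) hV hd hlt
          (by omega) F hF hFc)
        (hCP V G (s + t - 1) (by omega) (by omega))
        (fun F hF hFc => hRO V G s t c F (by omega) (by omega) (by omega) hm hc hF hFc)
      have := hTwo V G G₁ G₂ s 1 hs hV h1 h2 h3'
      omega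

end Pool.Agent.H621.ZM.R1
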