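import Pool.Agent.H621.ZM.Spec2

/-!
Zero-sum matchings, `s = 2 t ≥ 6`: no near-perfect matching is of rigid type (helper415).
-/

set_option autoImplicit false

namespace Pool.Agent.H621.ZM.REven

open Finset

section gen

variable {V : Type} {G : SimpleGraph V}

theorem isM_mono {A B : Finset (Sym2 V)} (h : IsM G B) (hAB : A ⊆ B) : IsM G A :=
  ⟨fun e he => h.1 e (hAB he), fun e he f hf => h.2 e (hAB he) f (hAB hf)⟩

theorem isM_union [DecidableEq V] {A B : Finset (Sym2 V)} (hA : IsM G A) (hB : IsM G B)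
    (h : ∀ e ∈ A, ∀ f ∈ B, ∀ v ∈ e, v ∉ f) : IsM G (A ∪ B) := by
  constructor
  · intro e he
    rcases Finset.mem_union.1 he with he | he
    · exact hA.1 e he
    · exact hB.1 e he
  · intro e he f hf hef v hv
    rcases Finset.mem_union.1 he with he | he <;> rcases Finset.mem_union.1 hf with hf | hf
    · exact hA.2 e he f hf hef v hv
    · exact h e he f hf v hv
    · exact fun hv' => h f hf e he v hv' hv
    · exact hB.2 e he f hf hef v hv

theorem isM_single {a b : V} (h : G.Adj a b) : IsM G {s(a, b)} := by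
  constructor
  · intro e he
    rw [Finset.mem_singleton] at he
    rw [he]
    exact h
  · intro e he f hf hef
    rw [Finset.mem_singleton] at he hf
    exact absurd (he.trans hf.symm) hef

theorem disj_of_cross {A B : Finset (Sym2 V)} (h : ∀ e ∈ A, ∀ f ∈ B, ∀ v ∈ e, v ∉ f) :
    Disjoint A B := by
  rw [Finset.disjoint_left]
  intro e he hf
  exact h e he e hf e.out.1 (Sym2.out_fst_mem e) (Sym2.out_fst_mem e)

/-- the sums of `c - x` over `s` edges -/
theorem sum_sub {s : ℕ} (c : Sym2 V → ZMod s) (x : ZMod s) (F : Finset (Sym2 V)) :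
    ∑ e ∈ F, c e = ∑ e ∈ F, (c e - x) + (F.card : ZMod s) * x := by
  rw [Finset.sum_sub_distrib, Finset.sum_const, nsmul_eq_mul]
  ring

/-- the basic exchange -/
theorem key [DecidableEq V] {s : ℕ} {c : Sym2 V → ZMod s} (x : ZMod s)
    (hF : ∀ F, IsM G F → F.card = s → ∑ e ∈ F, c e ≠ 0) {W A B T : Finset (Sym2 V)}
    (hW : IsM G W) (hA : A ⊆ W) (hB : B ⊆ W) (hT : T ⊆ W) (hAB : Disjoint A B)
    (hAT : Disjoint A T) (hBT : Disjoint B T) (hBx : ∀ e ∈ B, c e = x)
    (h1 : A.card + T.card ≤ s) (h2 : s ≤ A.card + T.card + B.card)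
    (h0 : ∑ e ∈ A, (c e - x) + ∑ e ∈ T, (c e - x) = 0) : False := by
  obtain ⟨B', hB', hB'c⟩ := Finset.exists_subset_card_eq (s := B) (n := s - (A.card + T.card))
    (by omega)
  have d1 : Disjoint A B' := hAB.mono_right hB'
  have d2 : Disjoint (A ∪ B') T := by
    rw [Finset.disjoint_union_left]
    exact ⟨hAT, hBT.mono_left hB'⟩
  refine hF (A ∪ B' ∪ T) (isM_mono hW ?_) ?_ ?_
  · exact Finset.union_subset (Finset.union_subset hA (hB'.trans hB)) hT
  · rw [Finset.card_union_of_disjoint d2, Finset.card_union_of_disjoint d1]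
    omega
  · have hc : (A ∪ B' ∪ T).card = s := by
      rw [Finset.card_union_of_disjoint d2, Finset.card_union_of_disjoint d1]
      omega
    have h3 : ∑ e ∈ B', (c e - x) = 0 :=
      Finset.sum_eq_zero fun e he => by rw [hBx e (hB' he), sub_self]
    rw [sum_sub c x, hc, Finset.sum_union d2, Finset.sum_union d1, h3, ZMod.natCast_self]
    linear_combination h0

/-- the criterion for forced values -/
theorem frc [DecidableEq V] {s : ℕ} {c : Sym2 V → ZMod s} {L : Finset (Sym2 V)} {x0 x : ZMod s}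
    {i0 : Sym2 V} (hi0 : i0 ∈ L) (hx : c i0 = x0)
    (h : ∀ z', z' ≠ x0 - x → ∃ S, S ⊆ L.erase i0 ∧ S.card + 1 = s ∧
      ∑ e ∈ S, (c e - x) + z' = 0) : FrcM (L.val.map c) x0 := by
  intro z hz
  by_contra hne
  obtain ⟨S, hS1, hS2, hS3⟩ := h (z - x) (fun h => hne (sub_left_injective h))
  refine hz (S.val.map c) ?_ ?_ ?_
  · rw [← hx, ← Multiset.map_erase_of_mem _ _ hi0, ← Finset.erase_val]
    exact Multiset.map_le_map (Finset.val_le_iff.2 hS1)
  · rw [Multiset.card_map]
    exact hS2
  · have h1 := sum_sub c x S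
    have h2 : ((S.card : ZMod s) + 1) = 0 := by
      have h3 : ((S.card + 1 : ℕ) : ZMod s) = 0 := by rw [hS2, ZMod.natCast_self]
      push_cast at h3
      exact h3
    show ∑ e ∈ S, c e + z = 0
    rw [h1]
    linear_combination hS3 + x * h2

section vert

variable [DecidableEq V]

/-- the vertices of a set of edges -/
def VV (F : Finset (Sym2 V)) : Finset V := F.biUnion Sym2.toFinset

theorem mem_VV {F : Finset (Sym2 V)} {v : V} : v ∈ VV F ↔ ∃ e ∈ F, v ∈ e := by
  unfold VV
  rw [Finset.mem_biUnion]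
  simp only [Sym2.mem_toFinset]

theorem card_VV {F : Finset (Sym2 V)} (h : IsM G F) : (VV F).card = 2 * F.card := by
  unfold VV
  rw [Finset.card_biUnion]
  · rw [Finset.sum_congr rfl fun e he =>
      Sym2.card_toFinset_of_not_isDiag e (G.not_isDiag_of_mem_edgeSet (h.1 e he)),
      Finset.sum_const, smul_eq_mul, mul_comm]
  · intro e he f hf hef
    show Disjoint e.toFinset f.toFinset
    rw [Finset.disjoint_left]
    intro v hv hv'
    exact h.2 e he f hf hef v (Sym2.mem_toFinset.1 hv) (Sym2.mem_toFinset.1 hv')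

theorem cross_of_VV {A B : Finset (Sym2 V)} (h : Disjoint (VV A) (VV B)) :
    ∀ e ∈ A, ∀ f ∈ B, ∀ v ∈ e, v ∉ f := fun e he f hf _ hv hv' =>
  Finset.disjoint_left.1 h (mem_VV.2 ⟨e, he, hv⟩) (mem_VV.2 ⟨f, hf, hv'⟩)

omit [DecidableEq V] in
/-- non-edges -/
theorem le_miss [Fintype V] {N : Finset (Sym2 V)} (h : ∀ e ∈ N, e ∈ Gᶜ.edgeSet) :
    N.card ≤ miss G := by
  unfold miss
  rw [← Set.ncard_coe_finset]
  exact Set.ncard_le_ncard (fun e he => h e he) (Set.toFinite _)

/-- at most one edge of a matching contains a given vertex -/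
theorem card_filter_mem {N : Finset (Sym2 V)} (h : IsM G N) (w : V) :
    N.card ≤ (N.filter (fun e => w ∉ e)).card + 1 := by
  have h1 := Finset.card_filter_add_card_filter_not (s := N) (fun e => w ∉ e)
  have h2 : (N.filter (fun e => ¬ w ∉ e)).card ≤ 1 := by
    rw [Finset.card_le_one]
    intro e he f hf
    rw [Finset.mem_filter, not_not] at he hf
    by_contra hef
    exact h.2 e he.1 f hf.1 hef w he.2 hf.2
  omega

end vert

/-- filling up with edges of the value `x` -/
theorem build [DecidableEq V] {s : ℕ} {c : Sym2 V → ZMod s} {x z' : ZMod s}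
    {L A0 B0 : Finset (Sym2 V)} (hA : A0 ⊆ L) (hB : B0 ⊆ L) (hd : Disjoint A0 B0)
    (hx : ∀ e ∈ B0, c e = x) (h1 : A0.card + 1 ≤ s) (h2 : s ≤ A0.card + B0.card + 1)
    (h0 : ∑ e ∈ A0, (c e - x) + z' = 0) :
    ∃ S, S ⊆ L ∧ S.card + 1 = s ∧ ∑ e ∈ S, (c e - x) + z' = 0 := by
  obtain ⟨B', hB', hB'c⟩ := Finset.exists_subset_card_eq (s := B0) (n := s - (A0.card + 1))
    (by omega)
  have d1 : Disjoint A0 B' := hd.mono_right hB'
  refine ⟨A0 ∪ B', Finset.union_subset hA (hB'.trans hB), ?_, ?_⟩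
  · rw [Finset.card_union_of_disjoint d1]
    omega
  · have h3 : ∑ e ∈ B', (c e - x) = 0 :=
      Finset.sum_eq_zero fun e he => by rw [hx e (hB' he), sub_self]
    rw [Finset.sum_union d1, h3, add_zero]
    exact h0

/-- two exchanges -/
theorem two_ex [DecidableEq V] {s t : ℕ} {c : Sym2 V → ZMod s} (ht : 3 ≤ t) (hs : s = 2 * t)
    (hF : ∀ F, IsM G F → F.card = s → ∑ e ∈ F, c e ≠ 0) {x : ZMod s} {N0 Γ : Finset (Sym2 V)}
    (hN0x : ∀ e ∈ N0, c e = x) (hdis : Disjoint N0 Γ) (hM : IsM G (N0 ∪ Γ))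
    (hN0c : N0.card + 1 = s) (hΓc : Γ.card = t) (hfull : Full c x Γ) {a b a' b' : V}
    (ha : s(a, a') ∈ N0) (hb : s(b, b') ∈ N0) (hne : s(a, a') ≠ s(b, b')) (hab : G.Adj a b)
    (hab' : G.Adj a' b') (hc : c s(a, b) ≠ x) :
    ∃ M2, IsM G M2 ∧ M2.card = (N0 ∪ Γ).card ∧ TwoF c M2 := by
  have haU : s(a, a') ∈ N0 ∪ Γ := Finset.mem_union_left _ ha
  have hbU : s(b, b') ∈ N0 ∪ Γ := Finset.mem_union_left _ hb
  have hΓne : ∀ e ∈ N0, ∀ f ∈ Γ, f ≠ e := fun e he f hf h =>
    Finset.disjoint_left.1 hdis he (h ▸ hf)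
  -- the vertices are different
  have hmat := hM.2 _ haU _ hbU hne
  have na : a ≠ b ∧ a ≠ b' := by
    have := hmat a (Sym2.mem_mk_left _ _)
    rw [Sym2.mem_iff, not_or] at this
    exact this
  have na' : a' ≠ b ∧ a' ≠ b' := by
    have := hmat a' (Sym2.mem_mk_right _ _)
    rw [Sym2.mem_iff, not_or] at this
    exact this
  have naa : a ≠ a' := G.ne_of_adj (hM.1 _ haU)
  have nbb : b ≠ b' := G.ne_of_adj (hM.1 _ hbU)
  have hA2 : s(a, b) ≠ s(a', b') := by
    intro h
    have h1 : a ∈ s(a', b') := h ▸ Sym2.mem_mk_left a b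
    rw [Sym2.mem_iff] at h1
    rcases h1 with h1 | h1
    · exact naa h1
    · exact na.2 h1
  -- the sets
  obtain ⟨B, hB⟩ : ∃ B, B = (N0.erase s(a, a')).erase s(b, b') := ⟨_, rfl⟩
  have hBN : B ⊆ N0 := by
    rw [hB]
    exact (Finset.erase_subset _ _).trans (Finset.erase_subset _ _)
  have hBc : B.card + 3 = s := by
    rw [hB, Finset.card_erase_of_mem (Finset.mem_erase.2 ⟨hne.symm, hb⟩),
      Finset.card_erase_of_mem ha]
    omega
  have hBa : ∀ e ∈ B, e ≠ s(a, a') ∧ e ≠ s(b, b') := by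
    intro e he
    rw [hB, Finset.mem_erase, Finset.mem_erase] at he
    exact ⟨he.2.1, he.1⟩
  obtain ⟨A, hA⟩ : ∃ A : Finset (Sym2 V), A = {s(a, b), s(a', b')} := ⟨_, rfl⟩
  have hAc : A.card = 2 := by
    rw [hA]
    exact Finset.card_pair hA2
  have hAM : IsM G A := by
    have h1 : A = {s(a, b)} ∪ {s(a', b')} := by rw [hA]; rfl
    rw [h1]
    refine isM_union (isM_single hab) (isM_single hab') ?_
    intro e he f hf v hv hv'
    rw [Finset.mem_singleton] at he hf
    rw [he, Sym2.mem_iff] at hv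
    rw [hf, Sym2.mem_iff] at hv'
    rcases hv with rfl | rfl <;> rcases hv' with h | h
    · exact naa h
    · exact na.2 h
    · exact na'.1 h.symm
    · exact nbb h
  have hcross : ∀ e ∈ A, ∀ f ∈ B ∪ Γ, ∀ v ∈ e, v ∉ f := by
    intro e he f hf v hv
    have hfU : f ∈ N0 ∪ Γ := by
      rcases Finset.mem_union.1 hf with h | h
      · exact Finset.mem_union_left _ (hBN h)
      · exact Finset.mem_union_right _ h
    have hfa : s(a, a') ≠ f := by
      rcases Finset.mem_union.1 hf with h | h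
      · exact (hBa f h).1.symm
      · exact (hΓne _ ha f h).symm
    have hfb : s(b, b') ≠ f := by
      rcases Finset.mem_union.1 hf with h | h
      · exact (hBa f h).2.symm
      · exact (hΓne _ hb f h).symm
    have h1 := hM.2 _ haU _ hfU hfa
    have h2 := hM.2 _ hbU _ hfU hfb
    rw [hA, Finset.mem_insert, Finset.mem_singleton] at he
    rcases he with rfl | rfl <;> rw [Sym2.mem_iff] at hv <;> rcases hv with rfl | rfl
    · exact h1 _ (Sym2.mem_mk_left _ _)
    · exact h2 _ (Sym2.mem_mk_left _ _)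
    · exact h1 _ (Sym2.mem_mk_right _ _)
    · exact h2 _ (Sym2.mem_mk_right _ _)
  have hBΓM : IsM G (B ∪ Γ) := isM_mono hM (Finset.union_subset_union hBN (Finset.Subset.refl _))
  obtain ⟨W, hW⟩ : ∃ W, W = A ∪ (B ∪ Γ) := ⟨_, rfl⟩
  have hWM : IsM G W := by
    rw [hW]
    exact isM_union hAM hBΓM hcross
  have dABΓ : Disjoint A (B ∪ Γ) := disj_of_cross hcross
  have dAB : Disjoint A B := dABΓ.mono_right Finset.subset_union_left
  have dAΓ : Disjoint A Γ := dABΓ.mono_right Finset.subset_union_right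
  have dBΓ : Disjoint B Γ := hdis.mono_left hBN
  have hAW : A ⊆ W := by
    rw [hW]
    exact Finset.subset_union_left
  have hBW : B ⊆ W := by
    rw [hW]
    exact Finset.subset_union_left.trans Finset.subset_union_right
  have hΓW : Γ ⊆ W := by
    rw [hW]
    exact Finset.subset_union_right.trans Finset.subset_union_right
  have hBx : ∀ e ∈ B, c e = x := fun e he => hN0x e (hBN he)
  have hcard : ∀ T, T ⊆ Γ → T.card ≤ t := fun T hT => hΓc ▸ Finset.card_le_card hT
  have hpos : ∀ T : Finset (Sym2 V), ∑ e ∈ T, (c e - x) ≠ 0 → 1 ≤ T.card := by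
    intro T hT
    rw [Nat.one_le_iff_ne_zero, Ne, Finset.card_eq_zero]
    rintro rfl
    exact hT Finset.sum_empty
  -- `Γ` is zero-free
  have zfree : ∀ T, T ⊆ Γ → 1 ≤ T.card → ∑ e ∈ T, (c e - x) ≠ 0 := by
    intro T hT h1 h0
    have := hcard T hT
    refine key x hF hM (A := ∅) (B := N0) (T := T) (Finset.empty_subset _)
      Finset.subset_union_left (hT.trans Finset.subset_union_right) (Finset.disjoint_empty_left _)
      (Finset.disjoint_empty_left _) (hdis.mono_right hT) hN0x ?_ ?_ ?_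
    · rw [Finset.card_empty]
      omega
    · rw [Finset.card_empty]
      omega
    · rw [Finset.sum_empty, zero_add]
      exact h0
  have hz1 : c s(a, b) - x ≠ 0 := sub_ne_zero.2 hc
  have hsumA : ∑ e ∈ A, (c e - x) = (c s(a, b) - x) + (c s(a', b') - x) := by
    rw [hA]
    exact Finset.sum_pair hA2
  have hz12 : (c s(a, b) - x) + (c s(a', b') - x) = 0 := by
    by_contra h
    obtain ⟨T, hT, hTs⟩ := hfull (-((c s(a, b) - x) + (c s(a', b') - x)))
    have h1 := hpos T (by rw [hTs]; exact neg_ne_zero.2 h)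
    have h2 := hcard T hT
    exact key x hF hWM hAW hBW (hT.trans hΓW) dAB (dAΓ.mono_right hT) (dBΓ.mono_right hT) hBx
      (by omega) (by omega) (by rw [hsumA, hTs]; ring)
  have hz2 : c s(a', b') - x ≠ 0 := by
    intro h
    rw [h, add_zero] at hz12
    exact hz1 hz12
  -- the subset sums have only one term
  have hone : ∀ e₀ ∈ A, c e₀ - x ≠ 0 → ∀ T, T ⊆ Γ → ∑ e ∈ T, (c e - x) = -(c e₀ - x) →
      T.card = 1 := by
    intro e₀ he₀ h0 T hT hTs
    have h1 := hpos T (by rw [hTs]; exact neg_ne_zero.2 h0)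
    have h2 := hcard T hT
    by_contra h3
    have hs1 : ({e₀} : Finset (Sym2 V)) ⊆ A := Finset.singleton_subset_iff.2 he₀
    refine key x hF hWM (hs1.trans hAW) hBW (hT.trans hΓW) (dAB.mono_left hs1)
      ((dAΓ.mono_right hT).mono_left hs1) (dBΓ.mono_right hT) hBx ?_ ?_ ?_
    · rw [Finset.card_singleton]
      omega
    · rw [Finset.card_singleton]
      omega
    · rw [Finset.sum_singleton, hTs]
      ring
  have hA1 : s(a, b) ∈ A := by
    rw [hA]
    exact Finset.mem_insert_self _ _
  have hA1' : s(a', b') ∈ A := by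
    rw [hA]
    exact Finset.mem_insert_of_mem (Finset.mem_singleton_self _)
  obtain ⟨T1, hT1, hT1s⟩ := hfull (-(c s(a, b) - x))
  obtain ⟨e1, he1⟩ := Finset.card_eq_one.1 (hone _ hA1 hz1 T1 hT1 hT1s)
  obtain ⟨T2, hT2, hT2s⟩ := hfull (-(c s(a', b') - x))
  obtain ⟨e2, he2⟩ := Finset.card_eq_one.1 (hone _ hA1' hz2 T2 hT2 hT2s)
  rw [he1, Finset.sum_singleton] at hT1s
  rw [he2, Finset.sum_singleton] at hT2s
  rw [he1, Finset.singleton_subset_iff] at hT1
  rw [he2, Finset.singleton_subset_iff] at hT2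
  have he12 : e1 = e2 := by
    by_contra h
    refine zfree {e1, e2} ?_ ?_ ?_
    · intro e he
      rw [Finset.mem_insert, Finset.mem_singleton] at he
      rcases he with rfl | rfl
      · exact hT1
      · exact hT2
    · rw [Finset.card_pair h]
      omega
    · rw [Finset.sum_pair h, hT1s, hT2s]
      linear_combination -hz12
  rw [← he12] at hT2s
  obtain ⟨h, hh⟩ : ∃ h, h = c s(a, b) - x := ⟨_, rfl⟩
  have hh0 : h ≠ 0 := by
    rw [hh]
    exact hz1
  have hhh : h + h = 0 := by
    rw [hh]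
    linear_combination hT1s - hT2s + hz12
  have hc1 : c s(a, b) - x = h := hh.symm
  have hc2 : c s(a', b') - x = h := by linear_combination hz12 - hh - hhh + 2 * hh
  have hc3 : c e1 - x = h := by
    rw [hT1s, hc1]
    linear_combination -hhh
  have hsumA' : ∑ e ∈ A, (c e - x) = 0 := by rw [hsumA, hc1, hc2, hhh]
  have hne1 : e1 ≠ s(a, b) := fun h => Finset.disjoint_left.1 dAΓ hA1 (h ▸ hT1)
  have hne1' : e1 ≠ s(a', b') := fun h => Finset.disjoint_left.1 dAΓ hA1' (h ▸ hT1)
  refine ⟨W, hWM, ?_, {x}, {x + h}, ?_, ?_, ?_, ?_, ?_⟩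
  · rw [hW, Finset.card_union_of_disjoint dABΓ, Finset.card_union_of_disjoint dBΓ,
      Finset.card_union_of_disjoint hdis, hAc]
    omega
  · rw [Finset.disjoint_singleton]
    intro he
    exact hh0 (by linear_combination -he)
  · intro x0 hx0
    rcases hx0 with hx0 | hx0 <;> rw [Finset.mem_singleton] at hx0 <;> subst hx0
    · -- the value `x`
      obtain ⟨i0, hi0⟩ : B.Nonempty := by
        rw [← Finset.card_pos]
        omega
      refine frc (hBW hi0) (hBx i0 hi0) (x := x0) fun z' hz' => ?_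
      rw [sub_self] at hz'
      obtain ⟨T, hT, hTs⟩ := hfull (-z')
      have h1 := hpos T (by rw [hTs]; exact neg_ne_zero.2 hz')
      have h2 := hcard T hT
      have hBe : B.erase i0 ⊆ W.erase i0 := Finset.erase_subset_erase _ hBW
      have hBec : (B.erase i0).card + 4 = s := by
        rw [Finset.card_erase_of_mem hi0]
        omega
      have hTe : T ⊆ W.erase i0 := fun e he =>
        Finset.mem_erase.2 ⟨fun h => Finset.disjoint_left.1 dBΓ hi0 (h ▸ hT he), hΓW (hT he)⟩
      have hAe : A ⊆ W.erase i0 := fun e he =>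
        Finset.mem_erase.2 ⟨fun h => Finset.disjoint_left.1 dAB he (h ▸ hi0), hAW he⟩
      have dT : Disjoint T (B.erase i0) :=
        (dBΓ.symm.mono_left hT).mono_right (Finset.erase_subset _ _)
      have dA : Disjoint A (B.erase i0) := dAB.mono_right (Finset.erase_subset _ _)
      have dAT : Disjoint A T := dAΓ.mono_right hT
      have hBex : ∀ e ∈ B.erase i0, c e = x0 := fun e he => hBx e (Finset.erase_subset _ _ he)
      by_cases h3 : 3 ≤ T.card
      · exact build hTe hBe dT hBex (by omega) (by omega) (by rw [hTs]; ring)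
      · have hc4 : (A ∪ T).card = 2 + T.card := by
          rw [Finset.card_union_of_disjoint dAT, hAc]
        refine build (A0 := A ∪ T) (Finset.union_subset hAe hTe) hBe ?_ hBex (by omega) (by omega) ?_
        · rw [Finset.disjoint_union_left]
          exact ⟨dA, dT⟩
        · rw [Finset.sum_union dAT, hsumA', hTs]
          ring
    · -- the value `x + h`
      refine frc (x := x) (i0 := s(a, b)) (hAW hA1) (by linear_combination hc1) fun z' hz' => ?_
      have hz'' : z' ≠ h := fun h' => hz' (by rw [h']; ring)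
      have hBe : B ⊆ W.erase s(a, b) := fun e he =>
        Finset.mem_erase.2 ⟨fun h => Finset.disjoint_left.1 dAB hA1 (h ▸ he), hBW he⟩
      have hΓe : Γ ⊆ W.erase s(a, b) := fun e he =>
        Finset.mem_erase.2 ⟨fun h => Finset.disjoint_left.1 dAΓ hA1 (h ▸ he), hΓW he⟩
      have hAe : s(a', b') ∈ W.erase s(a, b) := Finset.mem_erase.2 ⟨hA2.symm, hAW hA1'⟩
      have hAB' : s(a', b') ∉ B := Finset.disjoint_left.1 dAB hA1'
      have hAΓ' : s(a', b') ∉ Γ := Finset.disjoint_left.1 dAΓ hA1'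
      have heB : ∀ e ∈ Γ, e ∉ B := fun e he he' => Finset.disjoint_left.1 dBΓ he' he
      by_cases h0 : z' = 0
      · refine build (A0 := {s(a', b'), e1}) (B0 := B) ?_ hBe ?_ hBx ?_ ?_ ?_
        · intro e he
          rw [Finset.mem_insert, Finset.mem_singleton] at he
          rcases he with rfl | rfl
          · exact hAe
          · exact hΓe hT1
        · rw [Finset.disjoint_left]
          intro e he
          rw [Finset.mem_insert, Finset.mem_singleton] at he
          rcases he with rfl | rfl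
          · exact hAB'
          · exact heB _ hT1
        · rw [Finset.card_pair hne1'.symm]
          omega
        · rw [Finset.card_pair hne1'.symm]
          omega
        · rw [Finset.sum_pair hne1'.symm, hc2, hc3, h0, hhh, add_zero]
      · obtain ⟨T, hT, hTs⟩ := hfull (-z')
        have h1 := hpos T (by rw [hTs]; exact neg_ne_zero.2 h0)
        have h2 := hcard T hT
        by_cases h3 : 2 ≤ T.card
        · exact build (hT.trans hΓe) hBe (dBΓ.symm.mono_left hT) hBx (by omega) (by omega)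
            (by rw [hTs]; ring)
        · obtain ⟨e, he⟩ := Finset.card_eq_one.1 (show T.card = 1 by omega)
          rw [he, Finset.sum_singleton] at hTs
          rw [he, Finset.singleton_subset_iff] at hT
          have hee1 : e ≠ e1 := by
            intro h'
            rw [h', hc3] at hTs
            exact hz'' (by linear_combination hTs - hhh)
          have hea : e ≠ s(a', b') := fun h => hAΓ' (h ▸ hT)
          have hm : s(a', b') ∉ ({e, e1} : Finset (Sym2 V)) := by
            rw [Finset.mem_insert, Finset.mem_singleton, not_or]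
            exact ⟨hea.symm, hne1'.symm⟩
          have hc5 : (insert s(a', b') ({e, e1} : Finset (Sym2 V))).card = 3 := by
            rw [Finset.card_insert_of_notMem hm, Finset.card_pair hee1]
          refine build (A0 := insert s(a', b') {e, e1}) (B0 := B) ?_ hBe ?_ hBx ?_ ?_ ?_
          · intro e' he'
            rw [Finset.mem_insert, Finset.mem_insert, Finset.mem_singleton] at he'
            rcases he' with rfl | rfl | rfl
            · exact hAe
            · exact hΓe hT
            · exact hΓe hT1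
          · rw [Finset.disjoint_left]
            intro e' he'
            rw [Finset.mem_insert, Finset.mem_insert, Finset.mem_singleton] at he'
            rcases he' with rfl | rfl | rfl
            · exact hAB'
            · exact heB _ hT
            · exact heB _ hT1
          · omega
          · omega
          · rw [Finset.sum_insert hm, Finset.sum_pair hee1, hc2, hc3, hTs]
            linear_combination hhh
  · obtain ⟨i0, hi0⟩ : B.Nonempty := by
      rw [← Finset.card_pos]
      omega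
    exact ⟨i0, Finset.mem_filter.2 ⟨hBW hi0, by rw [hBx i0 hi0]; exact Finset.mem_singleton_self _⟩⟩
  · exact ⟨e1, Finset.mem_filter.2 ⟨hΓW hT1, by
      rw [Finset.mem_singleton]
      linear_combination hc3⟩⟩
  · have h1 : B ⊆ W.filter (fun i => c i ∈ ({x} : Finset (ZMod s))) := fun e he =>
      Finset.mem_filter.2 ⟨hBW he, by rw [hBx e he]; exact Finset.mem_singleton_self _⟩
    have hm : s(a', b') ∉ ({s(a, b), e1} : Finset (Sym2 V)) := by
      rw [Finset.mem_insert, Finset.mem_singleton, not_or]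
      exact ⟨hA2.symm, hne1'.symm⟩
    have hc5 : (insert s(a', b') ({s(a, b), e1} : Finset (Sym2 V))).card = 3 := by
      rw [Finset.card_insert_of_notMem hm, Finset.card_pair hne1.symm]
    have h2 : insert s(a', b') ({s(a, b), e1} : Finset (Sym2 V)) ⊆
        W.filter (fun i => c i ∈ ({x + h} : Finset (ZMod s))) := by
      intro e he
      rw [Finset.mem_insert, Finset.mem_insert, Finset.mem_singleton] at he
      rw [Finset.mem_filter, Finset.mem_singleton]
      rcases he with rfl | rfl | rfl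
      · exact ⟨hAW hA1', by linear_combination hc2⟩
      · exact ⟨hAW hA1, by linear_combination hc1⟩
      · exact ⟨hΓW hT1, by linear_combination hc3⟩
    have h3 := Finset.card_le_card h1
    have h4 := Finset.card_le_card h2
    omega

end gen

theorem rEven : S_QZero → S_Finish5 → S_Finish2 → S_TwoG → S_REven := by
  intro hQZ hF5 hF2 hTG V _ _ G s t c M ht hs hV hmiss hF hM hMc hTR
  obtain ⟨x, hx1, hfull⟩ := hTR
  obtain ⟨N0, hN0⟩ : ∃ N0, N0 = M.filter (fun e => c e = x) := ⟨_, rfl⟩
  obtain ⟨Γ, hΓ⟩ : ∃ Γ, Γ = M.filter (fun e => c e ≠ x) := ⟨_, rfl⟩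
  rw [← hN0] at hx1
  rw [← hΓ] at hfull
  have hU : N0 ∪ Γ = M := by
    rw [hN0, hΓ]
    exact Finset.filter_union_filter_not_eq _ _
  have hdis : Disjoint N0 Γ := by
    rw [hN0, hΓ]
    exact Finset.disjoint_filter_filter_not _ _ _
  have hN0x : ∀ e ∈ N0, c e = x := fun e he => by
    rw [hN0] at he
    exact (Finset.mem_filter.1 he).2
  have hΓc : Γ.card = t := by
    have := Finset.card_union_of_disjoint hdis
    rw [hU] at this
    omega
  have hN0M : IsM G N0 := isM_mono hM (by rw [← hU]; exact Finset.subset_union_left)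
  have hΓM : IsM G Γ := isM_mono hM (by rw [← hU]; exact Finset.subset_union_right)
  have hcr : ∀ e ∈ N0, ∀ f ∈ Γ, ∀ v ∈ e, v ∉ f := by
    intro e he f hf
    refine hM.2 e ?_ f ?_ ?_
    · rw [← hU]
      exact Finset.mem_union_left _ he
    · rw [← hU]
      exact Finset.mem_union_right _ hf
    · rintro rfl
      exact Finset.disjoint_left.1 hdis he hf
  obtain ⟨Q, hQ⟩ : ∃ Q, Q = (Finset.univ : Finset V) \ VV Γ := ⟨_, rfl⟩
  have hmQ : ∀ v, v ∈ Q ↔ ∀ f ∈ Γ, v ∉ f := by
    intro v
    rw [hQ, Finset.mem_sdiff, mem_VV]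
    simp
  have hQc : Q.card + 1 = 2 * s := by
    rw [hQ, Finset.card_sdiff_of_subset (Finset.subset_univ _), Finset.card_univ, card_VV hΓM]
    omega
  have hV0Q : VV N0 ⊆ Q := by
    intro v hv
    obtain ⟨e, he, hve⟩ := mem_VV.1 hv
    rw [hmQ]
    exact fun f hf => hcr e he f hf v hve
  have hV0c : (VV N0).card + 2 = 2 * s := by
    rw [card_VV hN0M]
    omega
  obtain ⟨v, hv⟩ : ∃ v, Q \ VV N0 = {v} := by
    rw [← Finset.card_eq_one, Finset.card_sdiff_of_subset hV0Q]
    omega
  have hvQ : v ∈ Q ∧ v ∉ VV N0 := by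
    rw [← Finset.mem_sdiff, hv]
    exact Finset.mem_singleton_self _
  have hvN0 : ∀ e ∈ N0, v ∉ e := fun e he h => hvQ.2 (mem_VV.2 ⟨e, he, h⟩)
  have hN0Q : ∀ e ∈ N0, c e = x ∧ ∀ v ∈ e, v ∈ Q := fun e he =>
    ⟨hN0x e he, fun w hw => hV0Q (mem_VV.2 ⟨e, he, hw⟩)⟩
  have hH : ∀ N, IsM G N → N.card + 1 = s → (∀ e ∈ N, c e = x ∧ ∀ v ∈ e, v ∈ Q) →
      ∀ d ∈ Q, (∀ e ∈ N, d ∉ e) → ∀ w ∈ Q, G.Adj d w → c s(d, w) = x := by
    intro N hN hNc hNx d hd hdN w hw hdw
    by_contra hz
    obtain ⟨T, hT, hTs⟩ := hfull (-(c s(d, w) - x))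
    obtain ⟨B, hB⟩ : ∃ B, B = N.filter (fun e => w ∉ e) := ⟨_, rfl⟩
    have hBN : B ⊆ N := by
      rw [hB]
      exact Finset.filter_subset _ _
    have hBc : N.card ≤ B.card + 1 := by
      rw [hB]
      exact card_filter_mem hN w
    have hBw : ∀ e ∈ B, w ∉ e := fun e he => by
      rw [hB] at he
      exact (Finset.mem_filter.1 he).2
    have c1 : ∀ e ∈ ({s(d, w)} : Finset (Sym2 V)), ∀ f ∈ B, ∀ v ∈ e, v ∉ f := by
      intro e he f hf v hv
      rw [Finset.mem_singleton] at he
      rw [he, Sym2.mem_iff] at hv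
      rcases hv with rfl | rfl
      · exact hdN f (hBN hf)
      · exact hBw f hf
    have c2 : ∀ e ∈ ({s(d, w)} : Finset (Sym2 V)) ∪ B, ∀ f ∈ Γ, ∀ v ∈ e, v ∉ f := by
      intro e he f hf v hv
      have hvQ : v ∈ Q := by
        rcases Finset.mem_union.1 he with he | he
        · rw [Finset.mem_singleton] at he
          rw [he, Sym2.mem_iff] at hv
          rcases hv with rfl | rfl
          · exact hd
          · exact hw
        · exact (hNx e (hBN he)).2 v hv
      exact (hmQ v).1 hvQ f hf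
    have hWM : IsM G (({s(d, w)} ∪ B) ∪ Γ) :=
      isM_union (isM_union (isM_single hdw) (isM_mono hN hBN) c1) hΓM c2
    have d1 := disj_of_cross c1
    have d2 := disj_of_cross c2
    rw [Finset.disjoint_union_left] at d2
    have h1 : 1 ≤ T.card := by
      rw [Nat.one_le_iff_ne_zero, Ne, Finset.card_eq_zero]
      rintro rfl
      rw [Finset.sum_empty] at hTs
      exact hz (by linear_combination hTs)
    have h2 : T.card ≤ t := hΓc ▸ Finset.card_le_card hT
    refine key x hF hWM (A := {s(d, w)}) (B := B) (T := T)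
      (Finset.subset_union_left.trans Finset.subset_union_left)
      (Finset.subset_union_right.trans Finset.subset_union_left)
      (hT.trans Finset.subset_union_right) d1 (d2.1.mono_right hT) (d2.2.mono_right hT)
      (fun e he => (hNx e (hBN he)).1) ?_ ?_ ?_
    · rw [Finset.card_singleton]
      omega
    · rw [Finset.card_singleton]
      omega
    · rw [Finset.sum_singleton, hTs]
      ring
  by_cases hnb : ∃ w ∈ Q, G.Adj v w
  · have h1 := hQZ V G (ZMod s) c x s Q (by omega) hQc hmiss hH N0 v hN0M hx1 hN0Q hvQ.1 hvN0 hnb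
    obtain ⟨F, h2, h3, h4⟩ := hF5 V G s c x Q (by omega) hV hQc hmiss h1
    exact hF F h2 h3 h4
  have hnb' : ∀ w ∈ Q, ¬ G.Adj v w := fun w hw h => hnb ⟨w, hw, h⟩
  by_cases hall : ∀ a ∈ VV N0, ∀ b ∈ VV N0, G.Adj a b → c s(a, b) = x
  · obtain ⟨B, hB1, hB2⟩ := Finset.exists_subset_card_eq (s := VV N0) (n := 2 * s - 3) (by omega)
    obtain ⟨F, h2, h3, h4⟩ := hF2 V G s c x v (VV N0) (by omega) hV hV0c hvQ.2 hmiss
      ⟨B, hB1, by omega, fun q hq => hnb' q (hV0Q (hB1 hq))⟩ hall
    exact hF F h2 h3 h4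
  push Not at hall
  obtain ⟨a, ha, b, hb, hab, hc⟩ := hall
  obtain ⟨ea, hea, haea⟩ := mem_VV.1 ha
  obtain ⟨eb, heb, hbeb⟩ := mem_VV.1 hb
  obtain ⟨a', rfl⟩ := haea
  obtain ⟨b', rfl⟩ := hbeb
  have hne : s(a, a') ≠ s(b, b') := by
    intro h
    have h1 : b ∈ s(a, a') := h ▸ Sym2.mem_mk_left b b'
    rw [Sym2.mem_iff] at h1
    rcases h1 with h1 | h1
    · exact G.ne_of_adj hab h1.symm
    · rw [h1] at hc
      exact hc (hN0x _ hea)
  have hmat := hN0M.2 _ hea _ heb hne
  have hab' : G.Adj a' b' := by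
    by_contra hna
    have hn : a' ≠ b' := by
      have := hmat a' (Sym2.mem_mk_right _ _)
      rw [Sym2.mem_iff, not_or] at this
      exact this.2
    have hinj : Set.InjOn (fun q => s(v, q)) (VV N0 : Set V) := by
      intro q _ q' _ h
      exact Sym2.congr_right.1 h
    have hc1 : ((VV N0).image (fun q => s(v, q))).card = (VV N0).card :=
      Finset.card_image_of_injOn hinj
    have hnot : s(a', b') ∉ (VV N0).image (fun q => s(v, q)) := by
      intro h
      obtain ⟨q, -, hq⟩ := Finset.mem_image.1 h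
      have h1 : v ∈ s(a', b') := hq ▸ Sym2.mem_mk_left v q
      rw [Sym2.mem_iff] at h1
      rcases h1 with h1 | h1
      · exact hvN0 _ hea (h1 ▸ Sym2.mem_mk_right _ _)
      · exact hvN0 _ heb (h1 ▸ Sym2.mem_mk_right _ _)
    have h3 := le_miss (G := G) (N := insert s(a', b') ((VV N0).image (fun q => s(v, q)))) (by
      intro e he
      rw [Finset.mem_insert] at he
      rcases he with rfl | he
      · rw [SimpleGraph.mem_edgeSet, SimpleGraph.compl_adj]
        exact ⟨hn, hna⟩
      · obtain ⟨q, hq, rfl⟩ := Finset.mem_image.1 he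
        rw [SimpleGraph.mem_edgeSet, SimpleGraph.compl_adj]
        exact ⟨fun h => hvQ.2 (h ▸ hq), hnb' q (hV0Q hq)⟩)
    rw [Finset.card_insert_of_notMem hnot, hc1] at h3
    omega
  obtain ⟨M2, h1, h2, h3⟩ := two_ex ht hs hF hN0x hdis (hU.symm ▸ hM) hx1 hΓc hfull hea heb hne
    hab hab' hc
  rw [hU] at h2
  have h4 := hTG V G s M2.card c M2 (by omega) (by omega) hF h1 rfl h3
  omega

end Pool.Agent.H621.ZM.REven
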