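import Pool.Agent.H621.ZM.Spec2

/-!
# REVEN4 (helper336, for helper621): the case `s = 4`
-/

set_option autoImplicit false

namespace Pool.Agent.H621.ZM.REven4

open Finset

section basic

variable {V : Type} [Fintype V] [DecidableEq V] {G : SimpleGraph V}

omit [Fintype V] [DecidableEq V] in
theorem isM_mono {F F' : Finset (Sym2 V)} (h : IsM G F) (hs : F' ⊆ F) : IsM G F' :=
  ⟨fun e he => h.1 e (hs he), fun e he f hf => h.2 e (hs he) f (hs hf)⟩

omit [Fintype V] in
theorem isM_insert {F : Finset (Sym2 V)} {e : Sym2 V} (h : IsM G F) (he : e ∈ G.edgeSet)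
    (hv : ∀ f ∈ F, ∀ v ∈ e, v ∉ f) : IsM G (insert e F) := by
  refine ⟨?_, ?_⟩
  · intro f hf
    rw [Finset.mem_insert] at hf
    rcases hf with rfl | hf
    · exact he
    · exact h.1 f hf
  · intro f hf g hg hne v hvf
    rw [Finset.mem_insert] at hf hg
    rcases hf with rfl | hf
    · rcases hg with rfl | hg
      · exact absurd rfl hne
      · exact hv g hg v hvf
    · rcases hg with rfl | hg
      · intro hvg
        exact hv f hf v hvg hvf
      · exact h.2 f hf g hg hne v hvf

omit [Fintype V] in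
theorem isM_union {F₁ F₂ : Finset (Sym2 V)} (h₁ : IsM G F₁) (h₂ : IsM G F₂)
    (hv : ∀ e ∈ F₁, ∀ f ∈ F₂, ∀ v ∈ e, v ∉ f) : IsM G (F₁ ∪ F₂) := by
  refine ⟨?_, ?_⟩
  · intro f hf
    rw [Finset.mem_union] at hf
    rcases hf with hf | hf
    · exact h₁.1 f hf
    · exact h₂.1 f hf
  · intro f hf g hg hne v hvf
    rw [Finset.mem_union] at hf hg
    rcases hf with hf | hf
    · rcases hg with hg | hg
      · exact h₁.2 f hf g hg hne v hvf
      · exact hv f hf g hg v hvf
    · rcases hg with hg | hg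
      · intro hvg
        exact hv g hg f hf v hvg hvf
      · exact h₂.2 f hf g hg hne v hvf

omit [Fintype V] [DecidableEq V] in
/-- an edge which meets no edge of `F` is not in `F` -/
theorem notMem_of_disj {F : Finset (Sym2 V)} {e : Sym2 V} (h : ∀ f ∈ F, ∀ v ∈ e, v ∉ f) :
    e ∉ F := fun he => h e he _ (Sym2.out_fst_mem e) (Sym2.out_fst_mem e)

/-- the covered vertices -/
def cov (F : Finset (Sym2 V)) : Finset V := F.biUnion Sym2.toFinset

omit [Fintype V] in
theorem mem_cov {F : Finset (Sym2 V)} {v : V} : v ∈ cov F ↔ ∃ e ∈ F, v ∈ e := by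
  unfold cov
  rw [Finset.mem_biUnion]
  simp only [Sym2.mem_toFinset]

omit [Fintype V] in
theorem card_cov {F : Finset (Sym2 V)} (h : IsM G F) : (cov F).card = 2 * F.card := by
  unfold cov
  rw [Finset.card_biUnion]
  · rw [Finset.sum_const_nat (m := 2), mul_comm]
    intro e he
    exact Sym2.card_toFinset_of_not_isDiag e (G.not_isDiag_of_mem_edgeSet (h.1 e he))
  · intro e he f hf hne
    change Disjoint (Sym2.toFinset e) (Sym2.toFinset f)
    rw [Finset.disjoint_left]
    intro v hv hv'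
    rw [Sym2.mem_toFinset] at hv hv'
    exact h.2 e he f hf hne v hv hv'

theorem four_smul' (x : ZMod 4) : (4 : ℕ) • x = 0 := by
  revert x
  decide

omit [Fintype V] in
/-- completion by edges of the popular value -/
theorem pad {c : Sym2 V → ZMod 4} (hP : ∀ F, IsM G F → F.card = 4 → ∑ e ∈ F, c e ≠ 0)
    {x : ZMod 4} {A B : Finset (Sym2 V)} (hM : IsM G (A ∪ B)) (hd : Disjoint A B)
    (hB : ∀ e ∈ B, c e = x) (hA : ∑ e ∈ A, (c e - x) = 0) (h1 : A.card ≤ 4)
    (h2 : 4 ≤ A.card + B.card) : False := by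
  obtain ⟨B', hB', hc⟩ := Finset.exists_subset_card_eq (s := B) (n := 4 - A.card) (by omega)
  have hd' : Disjoint A B' := Finset.disjoint_of_subset_right hB' hd
  have hcard : (A ∪ B').card = 4 := by
    rw [Finset.card_union_of_disjoint hd', hc]
    omega
  refine hP (A ∪ B') (isM_mono hM (Finset.union_subset_union_right hB')) hcard ?_
  have e1 : ∑ e ∈ A ∪ B', c e = ∑ e ∈ A ∪ B', (c e - x) + (A ∪ B').card • x := by
    rw [Finset.sum_sub_distrib, Finset.sum_const, sub_add_cancel]
  rw [e1, hcard, Finset.sum_union hd', hA,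
    Finset.sum_eq_zero (fun e he => by rw [hB e (hB' he), sub_self]), four_smul']
  simp

/-- NE: the uncovered vertex has no neighbour in `Q` -/
theorem ne_lemma (hQ : S_QZero4) (hF4 : S_FinishFour) (hF4' : S_Finish4)
    {c : Sym2 V → ZMod 4} (hV : Fintype.card V = 11) (hmiss : miss G ≤ 6)
    (hP : ∀ F, IsM G F → F.card = 4 → ∑ e ∈ F, c e ≠ 0)
    {x : ZMod 4} {N Γ : Finset (Sym2 V)} (hM : IsM G (N ∪ Γ)) (hd : Disjoint N Γ)
    (hN : N.card = 3) (hΓ : Γ.card = 2) (hNx : ∀ e ∈ N, c e = x) (hFull : Full c x Γ)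
    {v w : V} (hv : ∀ e ∈ N ∪ Γ, v ∉ e) (hw : ∀ e ∈ Γ, w ∉ e) (hvw : G.Adj v w) : False := by
  classical
  have hΓM : IsM G Γ := isM_mono hM Finset.subset_union_right
  obtain ⟨Q, hQdef⟩ : ∃ Q : Finset V, Q = (cov Γ)ᶜ := ⟨_, rfl⟩
  have hmemQ : ∀ u, u ∈ Q ↔ ∀ e ∈ Γ, u ∉ e := by
    intro u
    rw [hQdef, Finset.mem_compl, mem_cov]
    push Not
    rfl
  have hQcard : Q.card = 7 := by
    rw [hQdef, Finset.card_compl, card_cov hΓM, hΓ, hV]
  have H : ∀ N, IsM G N → N.card = 3 → (∀ e ∈ N, c e = x ∧ ∀ v ∈ e, v ∈ Q) →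
      ∀ d ∈ Q, (∀ e ∈ N, d ∉ e) → ∀ w ∈ Q, G.Adj d w → c s(d, w) = x := by
    intro N hN hN3 hNc d hdQ hdN w hwQ hdw
    by_contra hne
    obtain ⟨T, hT, hTs⟩ := hFull (-(c s(d, w) - x))
    have hT0 : T.Nonempty := by
      by_contra h
      rw [Finset.not_nonempty_iff_eq_empty] at h
      rw [h, Finset.sum_empty] at hTs
      exact hne (sub_eq_zero.1 (neg_eq_zero.1 hTs.symm))
    have hT2 : T.card ≤ 2 := hΓ ▸ Finset.card_le_card hT
    have hT1 : 1 ≤ T.card := hT0.card_pos
    have hnot : s(d, w) ∉ T := fun h => (hmemQ w).1 hwQ _ (hT h) (Sym2.mem_mk_right d w)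
    have hB2 : 2 ≤ (N.filter (fun e => ¬ w ∈ e)).card := by
      have h1 : (N.filter (fun e => w ∈ e)).card ≤ 1 := by
        rw [Finset.card_le_one]
        intro e he f hf
        rw [Finset.mem_filter] at he hf
        by_contra hef
        exact hN.2 e he.1 f hf.1 hef w he.2 hf.2
      have h2 := Finset.card_filter_add_card_filter_not (s := N) (fun e => w ∈ e)
      omega
    refine pad hP (A := insert s(d, w) T) (B := N.filter (fun e => ¬ w ∈ e)) (x := x)
      ?_ ?_ ?_ ?_ ?_ ?_
    · rw [Finset.insert_union]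
      refine isM_insert (isM_union (isM_mono hΓM hT)
        (isM_mono hN (Finset.filter_subset _ _)) ?_) hdw ?_
      · intro e he f hf u hu huf
        exact (hmemQ u).1 ((hNc f (Finset.mem_filter.1 hf).1).2 u huf) e (hT he) hu
      · intro f hf u hu
        rw [Sym2.mem_iff] at hu
        rw [Finset.mem_union] at hf
        rcases hu with rfl | rfl
        · rcases hf with hf | hf
          · exact (hmemQ _).1 hdQ f (hT hf)
          · exact hdN f (Finset.mem_filter.1 hf).1
        · rcases hf with hf | hf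
          · exact (hmemQ _).1 hwQ f (hT hf)
          · exact (Finset.mem_filter.1 hf).2
    · rw [Finset.disjoint_left]
      intro e he heB
      have heN := Finset.mem_filter.1 heB
      rw [Finset.mem_insert] at he
      rcases he with rfl | he
      · exact heN.2 (Sym2.mem_mk_right d w)
      · exact (hmemQ _).1 ((hNc e heN.1).2 _ (Sym2.out_fst_mem e)) e (hT he) (Sym2.out_fst_mem e)
    · intro e he
      exact (hNc e (Finset.mem_filter.1 he).1).1
    · rw [Finset.sum_insert hnot, hTs, add_neg_cancel]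
    · rw [Finset.card_insert_of_notMem hnot]
      omega
    · rw [Finset.card_insert_of_notMem hnot]
      omega
  have hNM : IsM G N := isM_mono hM Finset.subset_union_left
  have hNQ : ∀ e ∈ N, c e = x ∧ ∀ v ∈ e, v ∈ Q := by
    intro e he
    refine ⟨hNx e he, fun u hu => (hmemQ u).2 fun f hf => ?_⟩
    refine hM.2 e (Finset.mem_union_left _ he) f (Finset.mem_union_right _ hf) ?_ u hu
    rintro rfl
    exact Finset.disjoint_left.1 hd he hf
  have hvQ : v ∈ Q := (hmemQ v).2 fun e he => hv e (Finset.mem_union_right _ he)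
  rcases hQ V G (ZMod 4) c x Q hQcard hmiss H N v hNM hN hNQ hvQ
    (fun e he => hv e (Finset.mem_union_left _ he)) ⟨w, (hmemQ w).2 hw, hvw⟩ with h | ⟨I, hI, hI4, h1, h2⟩
  · obtain ⟨F, hF, hF4c, hF0⟩ := hF4 V G c x Q hV hQcard hmiss h
    exact hP F hF hF4c hF0
  · obtain ⟨F, hF, hF4c, hF0⟩ := hF4' V G c x Q I hV hQcard hmiss hI hI4 h1 h2
    exact hP F hF hF4c hF0

end basic

theorem zmod_two (z : ZMod 4) (h : -z = z) (h0 : z ≠ 0) : z = 2 := by
  revert z
  decide

theorem zmod_full (y r : ZMod 4) (h : (0 : ZMod 4) = 1 ∨ (2 : ZMod 4) = 1 ∨ y = 1 ∨ 2 + y = 1) :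
    r = 0 ∨ r = -2 ∨ r = y - 2 ∨ r = -2 + (y - 2) := by
  revert y r
  decide

/-- **REVEN4** -/
theorem rEven4 : S_QZero4 → S_FinishFour → S_Finish4 → S_Finish2 → S_REven4 := by
  classical
  intro hQ hFF hF4 hF2 V _ _ G c M hV hmiss hP hM hM5 hR
  obtain ⟨x, hx, hFull⟩ := hR
  obtain ⟨N, hNdef⟩ : ∃ N, N = M.filter (fun e => c e = x) := ⟨_, rfl⟩
  obtain ⟨Γ, hΓdef⟩ : ∃ Γ, Γ = M.filter (fun e => c e ≠ x) := ⟨_, rfl⟩
  have hcard := Finset.card_filter_add_card_filter_not (s := M) (fun e => c e = x)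
  have hunion : N ∪ Γ = M := by
    rw [hNdef, hΓdef]
    exact Finset.filter_union_filter_not_eq _ _
  have hdis : Disjoint N Γ := by
    rw [hNdef, hΓdef]
    exact Finset.disjoint_filter_filter_not _ _ _
  rw [← hNdef] at hx hcard
  change N.card + (M.filter (fun e => c e ≠ x)).card = M.card at hcard
  rw [← hΓdef] at hFull hcard
  have hN3 : N.card = 3 := by omega
  have hΓ2 : Γ.card = 2 := by omega
  have hNx : ∀ e ∈ N, c e = x := by
    intro e he
    rw [hNdef, Finset.mem_filter] at he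
    exact he.2
  have hNM : N ⊆ M := hunion ▸ Finset.subset_union_left
  have hΓM : Γ ⊆ M := hunion ▸ Finset.subset_union_right
  clear hNdef hΓdef
  obtain ⟨v, hv⟩ : ∃ v, v ∉ cov M := by
    by_contra h
    push Not at h
    have h1 : cov M = univ := Finset.eq_univ_iff_forall.2 h
    have h2 := card_cov hM
    rw [h1, Finset.card_univ, hV, hM5] at h2
    omega
  have hvM : ∀ e ∈ M, v ∉ e := fun e he h => hv (mem_cov.2 ⟨e, he, h⟩)
  have hdj : ∀ e ∈ N, ∀ f ∈ Γ, ∀ u ∈ e, u ∉ f := by
    intro e he f hf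
    refine hM.2 e (hNM he) f (hΓM hf) ?_
    rintro rfl
    exact Finset.disjoint_left.1 hdis he hf
  by_cases hnb : ∃ w, (∀ e ∈ Γ, w ∉ e) ∧ G.Adj v w
  · obtain ⟨w, hw, hvw⟩ := hnb
    exact ne_lemma hQ hFF hF4 hV hmiss hP (hunion.symm ▸ hM) hdis hN3 hΓ2 hNx hFull
      (hunion.symm ▸ hvM) hw hvw
  push Not at hnb
  have hNm : IsM G N := isM_mono hM hNM
  have hV0 : (cov N).card = 6 := by rw [card_cov hNm, hN3]
  have hvV0 : v ∉ cov N := by
    intro h
    obtain ⟨e, he, hve⟩ := mem_cov.1 h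
    exact hvM e (hNM he) hve
  have hnadj : ∀ q ∈ cov N, ¬ G.Adj v q := by
    intro q hq
    obtain ⟨e, he, hqe⟩ := mem_cov.1 hq
    exact hnb q (fun f hf => hdj e he f hf q hqe)
  have hset : (((cov N).image (fun q => s(v, q)) : Finset (Sym2 V)) : Set (Sym2 V)) =
      Gᶜ.edgeSet := by
    apply Set.eq_of_subset_of_ncard_le
    · intro e he
      rw [Finset.mem_coe, Finset.mem_image] at he
      obtain ⟨q, hq, rfl⟩ := he
      rw [SimpleGraph.mem_edgeSet, SimpleGraph.compl_adj]
      refine ⟨?_, hnadj q hq⟩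
      rintro rfl
      exact hvV0 hq
    · rw [Set.ncard_coe_finset, Finset.card_image_of_injective, hV0]
      · exact hmiss
      · intro q q' h
        simp only at h
        exact Sym2.congr_right.1 h
    · exact Set.toFinite _
  have hadj : ∀ a b, a ≠ b → a ≠ v → b ≠ v → G.Adj a b := by
    intro a b hab hav hbv
    by_contra h
    have h1 : s(a, b) ∈ Gᶜ.edgeSet := by
      rw [SimpleGraph.mem_edgeSet, SimpleGraph.compl_adj]
      exact ⟨hab, h⟩
    rw [← hset, Finset.mem_coe, Finset.mem_image] at h1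
    obtain ⟨q, -, hq⟩ := h1
    rw [Sym2.eq_iff] at hq
    rcases hq with ⟨h2, -⟩ | ⟨h2, -⟩
    · exact hav h2.symm
    · exact hbv h2.symm
  have hadjv : ∀ u, u ≠ v → u ∉ cov N → G.Adj v u := by
    intro u huv hu
    by_contra h
    have h1 : s(v, u) ∈ Gᶜ.edgeSet := by
      rw [SimpleGraph.mem_edgeSet, SimpleGraph.compl_adj]
      exact ⟨huv.symm, h⟩
    rw [← hset, Finset.mem_coe, Finset.mem_image] at h1
    obtain ⟨q, hqN, hq⟩ := h1
    have h2 : q = u := Sym2.congr_right.1 hq
    exact hu (h2 ▸ hqN)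
  by_cases hall : ∀ a ∈ cov N, ∀ b ∈ cov N, G.Adj a b → c s(a, b) = x
  · obtain ⟨B, hB, hB5⟩ := Finset.exists_subset_card_eq (s := cov N) (n := 5) (by omega)
    obtain ⟨F, hF, hFc, hF0⟩ := hF2 V G 4 c x v (cov N) le_rfl (by omega) (by omega) hvV0
      (by omega) ⟨B, hB, by omega, fun q hq => hnadj q (hB hq)⟩ hall
    exact hP F hF hFc hF0
  push Not at hall
  obtain ⟨a, ha, b, hb, hab, hcab⟩ := hall
  obtain ⟨e, heN, hae⟩ := mem_cov.1 ha
  obtain ⟨f, hfN, hbf⟩ := mem_cov.1 hb
  obtain ⟨a', rfl⟩ := Sym2.mem_iff_exists.1 hae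
  obtain ⟨b', rfl⟩ := Sym2.mem_iff_exists.1 hbf
  have hef : s(a, a') ≠ s(b, b') := by
    intro h
    have h1 : b ∈ s(a, a') := by
      rw [h]
      exact Sym2.mem_mk_left b b'
    rw [Sym2.mem_iff] at h1
    rcases h1 with h1 | h1
    · exact hab.ne h1.symm
    · rw [h1] at hcab
      exact hcab (hNx _ heN)
  obtain ⟨g, hg⟩ : ∃ g, (N.erase s(a, a')).erase s(b, b') = {g} := by
    rw [← Finset.card_eq_one, Finset.card_erase_of_mem, Finset.card_erase_of_mem heN, hN3]
    exact Finset.mem_erase.2 ⟨hef.symm, hfN⟩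
  have hgmem : g ∈ (N.erase s(a, a')).erase s(b, b') := by
    rw [hg]
    exact Finset.mem_singleton_self g
  rw [Finset.mem_erase, Finset.mem_erase] at hgmem
  obtain ⟨hgf, hge, hgN⟩ := hgmem
  clear hg
  have haa' : a ≠ a' := by
    have h := hM.1 _ (hNM heN)
    rw [SimpleGraph.mem_edgeSet] at h
    exact h.ne
  have hbb' : b ≠ b' := by
    have h := hM.1 _ (hNM hfN)
    rw [SimpleGraph.mem_edgeSet] at h
    exact h.ne
  have hef' := hNm.2 _ heN _ hfN hef
  have ha_f : a ∉ s(b, b') := hef' a (Sym2.mem_mk_left _ _)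
  have ha'_f : a' ∉ s(b, b') := hef' a' (Sym2.mem_mk_right _ _)
  rw [Sym2.mem_iff, not_or] at ha_f ha'_f
  have hav : a ≠ v := by
    rintro rfl
    exact hvM _ (hNM heN) (Sym2.mem_mk_left _ _)
  have ha'v : a' ≠ v := by
    rintro rfl
    exact hvM _ (hNM heN) (Sym2.mem_mk_right _ _)
  have hbv : b ≠ v := by
    rintro rfl
    exact hvM _ (hNM hfN) (Sym2.mem_mk_left _ _)
  have hb'v : b' ≠ v := by
    rintro rfl
    exact hvM _ (hNM hfN) (Sym2.mem_mk_right _ _)
  have hadj' : G.Adj a' b' := hadj a' b' ha'_f.2 ha'v hb'v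
  -- the other edges avoid `a, a', b, b'`
  have hoe : ∀ h ∈ insert g Γ, a ∉ h ∧ a' ∉ h ∧ b ∉ h ∧ b' ∉ h := by
    intro h hh
    rw [Finset.mem_insert] at hh
    rcases hh with rfl | hh
    · exact ⟨hNm.2 _ heN _ hgN (Ne.symm hge) a (Sym2.mem_mk_left _ _),
        hNm.2 _ heN _ hgN (Ne.symm hge) a' (Sym2.mem_mk_right _ _),
        hNm.2 _ hfN _ hgN (Ne.symm hgf) b (Sym2.mem_mk_left _ _),
        hNm.2 _ hfN _ hgN (Ne.symm hgf) b' (Sym2.mem_mk_right _ _)⟩
    · exact ⟨hdj _ heN _ hh a (Sym2.mem_mk_left _ _), hdj _ heN _ hh a' (Sym2.mem_mk_right _ _),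
        hdj _ hfN _ hh b (Sym2.mem_mk_left _ _), hdj _ hfN _ hh b' (Sym2.mem_mk_right _ _)⟩
  have hgΓm : IsM G (insert g Γ) := isM_mono hM (Finset.insert_subset (hNM hgN) hΓM)
  have hc2 : ∀ h ∈ insert g Γ, ∀ u ∈ s(a', b'), u ∉ h := by
    intro h hh u hu
    rw [Sym2.mem_iff] at hu
    rcases hu with rfl | rfl
    · exact (hoe h hh).2.1
    · exact (hoe h hh).2.2.2
  have hc1 : ∀ h ∈ insert s(a', b') (insert g Γ), ∀ u ∈ s(a, b), u ∉ h := by
    intro h hh u hu
    rw [Sym2.mem_iff] at hu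
    rw [Finset.mem_insert] at hh
    rcases hh with rfl | hh
    · rw [Sym2.mem_iff, not_or]
      rcases hu with rfl | rfl
      · exact ⟨haa', ha_f.2⟩
      · exact ⟨fun h => ha'_f.1 h.symm, hbb'⟩
    · rcases hu with rfl | rfl
      · exact (hoe h hh).1
      · exact (hoe h hh).2.2.1
  have hM2 : IsM G (insert s(a, b) (insert s(a', b') (insert g Γ))) :=
    isM_insert (isM_insert hgΓm hadj' hc2) hab hc1
  have hn1 : s(a, b) ∉ insert s(a', b') (insert g Γ) := notMem_of_disj hc1
  have hn2 : s(a', b') ∉ insert g Γ := notMem_of_disj hc2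
  have hgΓ : g ∉ Γ := Finset.disjoint_left.1 hdis hgN
  have hn1Γ : s(a, b) ∉ Γ := fun h =>
    hn1 (Finset.mem_insert_of_mem (Finset.mem_insert_of_mem h))
  have hn2Γ : s(a', b') ∉ Γ := fun h => hn2 (Finset.mem_insert_of_mem h)
  have hn12 : s(a, b) ≠ s(a', b') := fun h => hn1 (h ▸ Finset.mem_insert_self _ _)
  have hn1g : s(a, b) ≠ g := fun h =>
    hn1 (h ▸ Finset.mem_insert_of_mem (Finset.mem_insert_self _ _))
  have hn2g : s(a', b') ≠ g := fun h => hn2 (h ▸ Finset.mem_insert_self _ _)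
  have hcg : c g = x := hNx g hgN
  have hpos : ∀ T : Finset (Sym2 V), ∀ z : ZMod 4, z ≠ 0 → ∑ i ∈ T, (c i - x) = z →
      1 ≤ T.card := by
    intro T z hz hT
    by_contra h
    have h0 : T = ∅ := Finset.card_eq_zero.1 (by omega)
    rw [h0, Finset.sum_empty] at hT
    exact hz hT.symm
  have hle2 : ∀ T : Finset (Sym2 V), T ⊆ Γ → T.card ≤ 2 :=
    fun T hT => hΓ2 ▸ Finset.card_le_card hT
  -- `z₁ + z₂ = 0`
  have hz12 : (c s(a, b) - x) + (c s(a', b') - x) = 0 := by
    by_contra hne
    obtain ⟨T, hT, hTs⟩ := hFull (-((c s(a, b) - x) + (c s(a', b') - x)))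
    have hT1 := hpos T _ (neg_ne_zero.2 hne) hTs
    have hT2 := hle2 T hT
    have hx2 : s(a', b') ∉ T := fun h => hn2Γ (hT h)
    have hx1 : s(a, b) ∉ insert s(a', b') T := by
      rw [Finset.mem_insert, not_or]
      exact ⟨hn12, fun h => hn1Γ (hT h)⟩
    refine pad hP (A := insert s(a, b) (insert s(a', b') T)) (B := {g}) (x := x) ?_ ?_ ?_ ?_ ?_ ?_
    · refine isM_mono hM2 ?_
      intro h hh
      simp only [Finset.mem_union, Finset.mem_insert, Finset.mem_singleton] at hh ⊢
      rcases hh with (h1 | h1 | h1) | h1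
      · exact Or.inl h1
      · exact Or.inr (Or.inl h1)
      · exact Or.inr (Or.inr (Or.inr (hT h1)))
      · exact Or.inr (Or.inr (Or.inl h1))
    · rw [Finset.disjoint_singleton_right]
      simp only [Finset.mem_insert, not_or]
      exact ⟨hn1g.symm, hn2g.symm, fun h => hgΓ (hT h)⟩
    · intro e he
      rw [Finset.mem_singleton.1 he]
      exact hcg
    · rw [Finset.sum_insert hx1, Finset.sum_insert hx2, hTs]
      ring
    · rw [Finset.card_insert_of_notMem hx1, Finset.card_insert_of_notMem hx2]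
      omega
    · rw [Finset.card_insert_of_notMem hx1, Finset.card_insert_of_notMem hx2,
        Finset.card_singleton]
      omega
  have hz1 : c s(a, b) - x ≠ 0 := sub_ne_zero.2 hcab
  have hz2 : c s(a', b') - x = -(c s(a, b) - x) := eq_neg_of_add_eq_zero_right hz12
  -- `T` with sum minus the value of a new edge has one element
  have hone : ∀ p : Sym2 V, p ∉ Γ → p ≠ g → IsM G (insert p (insert g Γ)) →
      ∀ T : Finset (Sym2 V), T ⊆ Γ → ∑ i ∈ T, (c i - x) = -(c p - x) → c p - x ≠ 0 →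
      T.card = 1 := by
    intro p hpΓ hpg hpM T hT hTs hp0
    have hT1 := hpos T _ (neg_ne_zero.2 hp0) hTs
    have hT2 := hle2 T hT
    by_contra hne
    have hpT : p ∉ T := fun h => hpΓ (hT h)
    refine pad hP (A := insert p T) (B := {g}) (x := x) ?_ ?_ ?_ ?_ ?_ ?_
    · refine isM_mono hpM ?_
      intro h hh
      simp only [Finset.mem_union, Finset.mem_insert, Finset.mem_singleton] at hh ⊢
      rcases hh with (h1 | h1) | h1
      · exact Or.inl h1
      · exact Or.inr (Or.inr (hT h1))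
      · exact Or.inr (Or.inl h1)
    · rw [Finset.disjoint_singleton_right]
      simp only [Finset.mem_insert, not_or]
      exact ⟨hpg.symm, fun h => hgΓ (hT h)⟩
    · intro e he
      rw [Finset.mem_singleton.1 he]
      exact hcg
    · rw [Finset.sum_insert hpT, hTs, add_neg_cancel]
    · rw [Finset.card_insert_of_notMem hpT]
      omega
    · rw [Finset.card_insert_of_notMem hpT, Finset.card_singleton]
      omega
  obtain ⟨T1, hT1, hT1s⟩ := hFull (-(c s(a, b) - x))
  obtain ⟨T2, hT2, hT2s⟩ := hFull (-(c s(a', b') - x))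
  have hT1c := hone s(a, b) hn1Γ hn1g (isM_mono hM2
    (Finset.insert_subset_insert _ (Finset.subset_insert _ _))) T1 hT1 hT1s hz1
  have hT2c := hone s(a', b') hn2Γ hn2g (isM_mono hM2 (Finset.subset_insert _ _)) T2 hT2 hT2s
    (by rw [hz2]; exact neg_ne_zero.2 hz1)
  obtain ⟨e1, rfl⟩ := Finset.card_eq_one.1 hT1c
  obtain ⟨e2, rfl⟩ := Finset.card_eq_one.1 hT2c
  rw [Finset.sum_singleton] at hT1s hT2s
  rw [Finset.singleton_subset_iff] at hT1 hT2
  rw [hz2, neg_neg] at hT2s
  have he12 : e1 = e2 := by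
    by_contra hne
    refine pad hP (A := {e1, e2}) (B := N) (x := x) ?_ ?_ hNx ?_ ?_ ?_
    · refine isM_mono hM ?_
      intro h hh
      simp only [Finset.mem_union, Finset.mem_insert, Finset.mem_singleton] at hh
      rcases hh with (rfl | rfl) | h1
      · exact hΓM hT1
      · exact hΓM hT2
      · exact hNM h1
    · rw [Finset.disjoint_left]
      intro h hh hN
      simp only [Finset.mem_insert, Finset.mem_singleton] at hh
      rcases hh with rfl | rfl
      · exact Finset.disjoint_left.1 hdis hN hT1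
      · exact Finset.disjoint_left.1 hdis hN hT2
    · rw [Finset.sum_pair hne, hT1s, hT2s, neg_add_cancel]
    · rw [Finset.card_pair hne]
      omega
    · rw [Finset.card_pair hne]
      omega
  rw [← he12, hT1s] at hT2s
  have hz1two : c s(a, b) - x = 2 := zmod_two _ hT2s hz1
  obtain ⟨e3, he3⟩ : ∃ e3, Γ.erase e1 = {e3} := by
    rw [← Finset.card_eq_one, Finset.card_erase_of_mem hT1, hΓ2]
  have he3m : e3 ∈ Γ.erase e1 := by
    rw [he3]
    exact Finset.mem_singleton_self _
  rw [Finset.mem_erase] at he3m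
  obtain ⟨he31, he3Γ⟩ := he3m
  have hΓeq : Γ = {e1, e3} := by
    rw [← Finset.insert_erase hT1, he3]
  have hce1 : c e1 - x = 2 := by
    rw [hT1s, hT2s, hz1two]
  have hy : (0 : ZMod 4) = 1 ∨ (2 : ZMod 4) = 1 ∨ c e3 - x = 1 ∨ 2 + (c e3 - x) = 1 := by
    obtain ⟨T, hT, hTs⟩ := hFull 1
    rw [hΓeq] at hT
    by_cases h1 : e1 ∈ T
    · by_cases h3 : e3 ∈ T
      · have hTe : T = {e1, e3} := by
          refine Finset.Subset.antisymm hT ?_
          intro h hh
          simp only [Finset.mem_insert, Finset.mem_singleton] at hh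
          rcases hh with rfl | rfl
          · exact h1
          · exact h3
        rw [hTe, Finset.sum_pair (Ne.symm he31), hce1] at hTs
        exact Or.inr (Or.inr (Or.inr hTs))
      · have hTe : T = {e1} := by
          ext h
          constructor
          · intro hh
            have h4 := hT hh
            simp only [Finset.mem_insert, Finset.mem_singleton] at h4 ⊢
            rcases h4 with h4 | h4
            · exact h4
            · exact absurd (h4 ▸ hh) h3
          · intro hh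
            rw [Finset.mem_singleton.1 hh]
            exact h1
        rw [hTe, Finset.sum_singleton, hce1] at hTs
        exact Or.inr (Or.inl hTs)
    · by_cases h3 : e3 ∈ T
      · have hTe : T = {e3} := by
          ext h
          constructor
          · intro hh
            have h4 := hT hh
            simp only [Finset.mem_insert, Finset.mem_singleton] at h4 ⊢
            rcases h4 with h4 | h4
            · exact absurd (h4 ▸ hh) h1
            · exact h4
          · intro hh
            rw [Finset.mem_singleton.1 hh]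
            exact h3
        rw [hTe, Finset.sum_singleton] at hTs
        exact Or.inr (Or.inr (Or.inl hTs))
      · have hTe : T = ∅ := by
          rw [Finset.eq_empty_iff_forall_notMem]
          intro h hh
          have h4 := hT hh
          simp only [Finset.mem_insert, Finset.mem_singleton] at h4
          rcases h4 with h4 | h4
          · exact h1 (h4 ▸ hh)
          · exact h3 (h4 ▸ hh)
        rw [hTe, Finset.sum_empty] at hTs
        exact Or.inl hTs
  have hge3 : g ≠ e3 := by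
    rintro rfl
    exact hgΓ he3Γ
  -- the second matching
  have hunion2 : ({s(a, b), s(a', b'), e1} : Finset (Sym2 V)) ∪ {g, e3} =
      insert s(a, b) (insert s(a', b') (insert g Γ)) := by
    rw [hΓeq, Finset.insert_union, Finset.insert_union, Finset.singleton_union,
      Finset.insert_comm e1 g]
  have hFull2 : Full c (x + 2) ({g, e3} : Finset (Sym2 V)) := by
    intro r
    have hvg : c g - (x + 2) = -2 := by
      rw [hcg]
      ring
    have hve : c e3 - (x + 2) = (c e3 - x) - 2 := by ring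
    rcases zmod_full (c e3 - x) r hy with h | h | h | h
    · exact ⟨∅, Finset.empty_subset _, by rw [Finset.sum_empty, h]⟩
    · refine ⟨{g}, ?_, by rw [Finset.sum_singleton, hvg, h]⟩
      intro p hp
      rw [Finset.mem_singleton.1 hp]
      exact Finset.mem_insert_self _ _
    · refine ⟨{e3}, ?_, by rw [Finset.sum_singleton, hve, h]⟩
      intro p hp
      rw [Finset.mem_singleton.1 hp]
      exact Finset.mem_insert_of_mem (Finset.mem_singleton_self _)
    · exact ⟨{g, e3}, Finset.Subset.refl _, by rw [Finset.sum_pair hge3, hvg, hve, h]⟩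
  obtain ⟨w, hw⟩ : ∃ w, w ∈ e1 := ⟨_, Sym2.out_fst_mem e1⟩
  have he1M : e1 ∈ M := hΓM hT1
  have hwv : w ≠ v := by
    rintro rfl
    exact hvM _ he1M hw
  have hwN : w ∉ cov N := by
    intro h
    obtain ⟨p, hp, hwp⟩ := mem_cov.1 h
    exact hdj p hp e1 hT1 w hwp hw
  have hne1 : s(a, b) ≠ e1 := fun h => hn1Γ (h ▸ hT1)
  have hne2 : s(a', b') ≠ e1 := fun h => hn2Γ (h ▸ hT1)
  have hge1 : g ≠ e1 := fun h => hgΓ (h ▸ hT1)
  refine ne_lemma hQ hFF hF4 hV hmiss hP (x := x + 2) (N := {s(a, b), s(a', b'), e1})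
    (Γ := {g, e3}) (v := v) (w := w) (hunion2.symm ▸ hM2) ?_ ?_ (Finset.card_pair hge3) ?_ hFull2
    ?_ ?_ (hadjv w hwv hwN)
  · rw [Finset.disjoint_left]
    intro p hp hp'
    simp only [Finset.mem_insert, Finset.mem_singleton] at hp hp'
    rcases hp' with rfl | rfl
    · rcases hp with h | h | h
      · exact hn1g h.symm
      · exact hn2g h.symm
      · exact hge1 h
    · rcases hp with h | h | h
      · exact hn1Γ (h ▸ he3Γ)
      · exact hn2Γ (h ▸ he3Γ)
      · exact he31 h
  · rw [Finset.card_insert_of_notMem, Finset.card_pair hne2]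
    simp only [Finset.mem_insert, Finset.mem_singleton, not_or]
    exact ⟨hn12, hne1⟩
  · intro p hp
    simp only [Finset.mem_insert, Finset.mem_singleton] at hp
    rcases hp with rfl | rfl | rfl
    · rw [← hz1two]
      ring
    · have h1 : c s(a', b') - x = 2 := by
        rw [hz2, hz1two]
        decide
      rw [← h1]
      ring
    · rw [← hce1]
      ring
  · rw [hunion2]
    intro p hp
    rw [Finset.mem_insert, Finset.mem_insert, Finset.mem_insert] at hp
    rcases hp with rfl | rfl | rfl | hp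
    · rw [Sym2.mem_iff, not_or]
      exact ⟨hav.symm, hbv.symm⟩
    · rw [Sym2.mem_iff, not_or]
      exact ⟨ha'v.symm, hb'v.symm⟩
    · exact hvM _ (hNM hgN)
    · exact hvM _ (hΓM hp)
  · intro p hp
    simp only [Finset.mem_insert, Finset.mem_singleton] at hp
    rcases hp with rfl | rfl
    · exact hM.2 e1 he1M p (hNM hgN) (Ne.symm hge1) w hw
    · exact hM.2 e1 he1M p (hΓM he3Γ) (Ne.symm he31) w hw

end Pool.Agent.H621.ZM.REven4
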