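import Pool.Agent.H621.ZM.Spec2

/-!
# Zero-sum matchings: no perfect matching of rigid type for odd `s`
-/

set_option autoImplicit false
set_option linter.unusedSectionVars false

namespace Pool.Agent.H621.ZM.ROdd

open Finset Pool.Agent.H621.ZM

/-! ### Combinatorics of natural numbers -/

theorem two_mul_card_le {ι : Type} [DecidableEq ι] (L : Finset ι) (n : ι → ℕ)
    (h1 : ∀ i ∈ L, 1 ≤ n i) : 2 * L.card ≤ ∑ i ∈ L, n i + (L.filter fun i => n i = 1).card := by
  rw [card_filter, ← sum_add_distrib, mul_comm, ← smul_eq_mul, ← sum_const]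
  refine sum_le_sum fun i hi => ?_
  have := h1 i hi
  split_ifs with h <;> omega

theorem sums_all {ι : Type} [DecidableEq ι] (L : Finset ι) (n : ι → ℕ)
    (h2 : ∀ i ∈ L, n i ≤ (L.filter fun i => n i = 1).card + 1) :
    ∀ j ≤ ∑ i ∈ L, n i, ∃ T, T ⊆ L ∧ ∑ i ∈ T, n i = j := by
  set O := L.filter fun i => n i = 1 with hO
  have hO1 : ∀ T ⊆ O, ∑ i ∈ T, n i = T.card := by
    intro T hT
    rw [card_eq_sum_ones]
    exact sum_congr rfl fun i hi => (mem_filter.1 (hT hi)).2
  have key : ∀ B : Finset ι, B ⊆ L \ O → ∀ j ≤ O.card + ∑ i ∈ B, n i,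
      ∃ T, T ⊆ O ∪ B ∧ ∑ i ∈ T, n i = j := by
    intro B
    induction B using Finset.induction_on with
    | empty =>
      intro _ j hj
      rw [sum_empty, add_zero] at hj
      obtain ⟨T, hT, hc⟩ := exists_subset_card_eq hj
      exact ⟨T, hT.trans subset_union_left, by rw [hO1 T hT, hc]⟩
    | insert a B ha ih =>
      intro hB j hj
      have hB' : B ⊆ L \ O := (subset_insert a B).trans hB
      have haL : a ∈ L \ O := hB (mem_insert_self a B)
      rw [sum_insert ha] at hj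
      have hna := h2 a (mem_sdiff.1 haL).1
      by_cases hc : j ≤ O.card + ∑ i ∈ B, n i
      · obtain ⟨T, hT, hs⟩ := ih hB' j hc
        exact ⟨T, hT.trans (union_subset_union_right (subset_insert a B)), hs⟩
      · obtain ⟨T, hT, hs⟩ := ih hB' (j - n a) (by omega)
        have haT : a ∉ T := by
          intro h
          rcases mem_union.1 (hT h) with h | h
          · exact (mem_sdiff.1 haL).2 h
          · exact ha h
        refine ⟨insert a T, ?_, ?_⟩
        · refine insert_subset (mem_union_right _ (mem_insert_self a B)) ?_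
          exact hT.trans (union_subset_union_right (subset_insert a B))
        · rw [sum_insert haT, hs]
          omega
  intro j hj
  have hOL : O ⊆ L := filter_subset _ _
  have e : ∑ i ∈ L, n i = O.card + ∑ i ∈ L \ O, n i := by
    rw [← sum_sdiff hOL, hO1 O (Subset.refl O), add_comm]
  obtain ⟨T, hT, hs⟩ := key (L \ O) (Subset.refl _) j (by rw [← e]; exact hj)
  exact ⟨T, hT.trans (union_subset hOL sdiff_subset), hs⟩

/-! ### Matchings -/

section

variable {V : Type} [DecidableEq V] {G : SimpleGraph V}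

/-- the vertices of a set of edges -/
def VS (F : Finset (Sym2 V)) : Finset V := F.biUnion Sym2.toFinset

theorem mem_VS {F : Finset (Sym2 V)} {v : V} : v ∈ VS F ↔ ∃ e ∈ F, v ∈ e := by
  unfold VS
  simp only [mem_biUnion, Sym2.mem_toFinset]

theorem VS_mono {A B : Finset (Sym2 V)} (h : A ⊆ B) : VS A ⊆ VS B := fun v hv => by
  obtain ⟨e, he, hv⟩ := mem_VS.1 hv
  exact mem_VS.2 ⟨e, h he, hv⟩

theorem isM_subset {A B : Finset (Sym2 V)} (hB : IsM G B) (h : A ⊆ B) : IsM G A :=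
  ⟨fun e he => hB.1 e (h he), fun e he f hf => hB.2 e (h he) f (h hf)⟩

theorem isM_uniq {A : Finset (Sym2 V)} (hA : IsM G A) {e f : Sym2 V} (he : e ∈ A) (hf : f ∈ A)
    {v : V} (h1 : v ∈ e) (h2 : v ∈ f) : e = f := by
  by_contra h
  exact hA.2 e he f hf h v h1 h2

theorem pwd {A : Finset (Sym2 V)} (hA : IsM G A) :
    (A : Set (Sym2 V)).PairwiseDisjoint Sym2.toFinset := by
  intro e he f hf hef
  rw [Function.onFun, Finset.disjoint_left]
  intro v hv hv'
  rw [Sym2.mem_toFinset] at hv hv'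
  exact hA.2 e he f hf hef v hv hv'

theorem card_VS {A : Finset (Sym2 V)} (hA : IsM G A) : (VS A).card = 2 * A.card := by
  unfold VS
  rw [card_biUnion (pwd hA), sum_congr rfl (fun e he =>
    Sym2.card_toFinset_of_not_isDiag e (G.not_isDiag_of_mem_edgeSet (hA.1 e he))), sum_const,
    smul_eq_mul, mul_comm]

theorem isM_union {A B : Finset (Sym2 V)} (hA : IsM G A) (hB : IsM G B)
    (h : ∀ v, v ∈ VS A → v ∉ VS B) : IsM G (A ∪ B) := by
  refine ⟨fun e he => ?_, fun e he f hf hef v hv hv' => ?_⟩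
  · rcases mem_union.1 he with he | he
    · exact hA.1 e he
    · exact hB.1 e he
  · rcases mem_union.1 he with he | he <;> rcases mem_union.1 hf with hf | hf
    · exact hA.2 e he f hf hef v hv hv'
    · exact h v (mem_VS.2 ⟨e, he, hv⟩) (mem_VS.2 ⟨f, hf, hv'⟩)
    · exact h v (mem_VS.2 ⟨f, hf, hv'⟩) (mem_VS.2 ⟨e, he, hv⟩)
    · exact hB.2 e he f hf hef v hv hv'

theorem isM_insert {A : Finset (Sym2 V)} (hA : IsM G A) {a b : V} (hab : G.Adj a b)
    (ha : a ∉ VS A) (hb : b ∉ VS A) : IsM G (insert s(a, b) A) := by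
  refine ⟨fun e he => ?_, fun e he f hf hef v hv hv' => ?_⟩
  · rcases mem_insert.1 he with rfl | he
    · exact hab
    · exact hA.1 e he
  · rcases mem_insert.1 he with h1 | h1 <;> rcases mem_insert.1 hf with h2 | h2
    · exact hef (h1.trans h2.symm)
    · rw [h1] at hv
      rcases Sym2.mem_iff.1 hv with h3 | h3
      · exact ha (h3 ▸ mem_VS.2 ⟨f, h2, hv'⟩)
      · exact hb (h3 ▸ mem_VS.2 ⟨f, h2, hv'⟩)
    · rw [h2] at hv'
      rcases Sym2.mem_iff.1 hv' with h3 | h3
      · exact ha (h3 ▸ mem_VS.2 ⟨e, h1, hv⟩)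
      · exact hb (h3 ▸ mem_VS.2 ⟨e, h1, hv⟩)
    · exact hA.2 e h1 f h2 hef v hv hv'

theorem not_mem_of_VS {A : Finset (Sym2 V)} {a b : V} (ha : a ∉ VS A) : s(a, b) ∉ A :=
  fun h => ha (mem_VS.2 ⟨_, h, Sym2.mem_mk_left a b⟩)

theorem mem_VS_insert {A : Finset (Sym2 V)} {a b v : V} :
    v ∈ VS (insert s(a, b) A) ↔ v = a ∨ v = b ∨ v ∈ VS A := by
  rw [mem_VS, mem_VS]
  constructor
  · rintro ⟨e, he, hv⟩
    rcases mem_insert.1 he with rfl | he
    · rcases Sym2.mem_iff.1 hv with h | h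
      · exact Or.inl h
      · exact Or.inr (Or.inl h)
    · exact Or.inr (Or.inr ⟨e, he, hv⟩)
  · rintro (rfl | rfl | ⟨e, he, hv⟩)
    · exact ⟨_, mem_insert_self _ _, Sym2.mem_mk_left _ _⟩
    · exact ⟨_, mem_insert_self _ _, Sym2.mem_mk_right _ _⟩
    · exact ⟨e, mem_insert_of_mem he, hv⟩

/-- the edges of `N` which meet `U` -/
def hit (N : Finset (Sym2 V)) (U : Finset V) : Finset (Sym2 V) :=
  N.filter fun e => ∃ v ∈ U, v ∈ e

theorem card_hit {N : Finset (Sym2 V)} (hN : IsM G N) (U : Finset V) :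
    (hit N U).card ≤ U.card := by
  classical
  have h : ∀ e, ∃ v, e ∈ hit N U → v ∈ U ∧ v ∈ e := fun e => by
    by_cases he : e ∈ hit N U
    · obtain ⟨v, hv, hve⟩ := (mem_filter.1 he).2
      exact ⟨v, fun _ => ⟨hv, hve⟩⟩
    · exact ⟨(Quot.out e).1, fun h => absurd h he⟩
  choose f hf using h
  refine card_le_card_of_injOn f (fun e he => (hf e he).1) ?_
  intro e he e' he' hee
  have h1 := (hf e he).2
  have h2 := (hf e' he').2
  rw [← hee] at h2
  exact isM_uniq hN (mem_filter.1 he).1 (mem_filter.1 he').1 h1 h2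

variable {s : ℕ} {c : Sym2 V → ZMod s} {x : ZMod s}

/-- the basic exchange argument: a zero-sum set `A` can be completed by edges of the colour `x` -/
theorem complete (hz : ∀ F, IsM G F → F.card = s → ∑ e ∈ F, c e ≠ 0) {A N : Finset (Sym2 V)}
    (hA : IsM G A) (hN : IsM G N) (hx : ∀ e ∈ N, c e = x) (hs : ∑ e ∈ A, (c e - x) = 0)
    (hAs : A.card ≤ s) (U : Finset V) (hU : ∀ v ∈ VS A, v ∈ VS N → v ∈ U)
    (hc : s + (hit N U).card ≤ A.card + N.card) : False := by
  classical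
  have h1 : s - A.card ≤ (N \ hit N U).card := by
    rw [card_sdiff_of_subset (show hit N U ⊆ N from filter_subset _ _)]
    omega
  obtain ⟨N', hN', hc'⟩ := exists_subset_card_eq h1
  have hN'N : N' ⊆ N := hN'.trans sdiff_subset
  have hdis : ∀ v, v ∈ VS A → v ∉ VS N' := by
    intro v hv hv'
    obtain ⟨e, he, hve⟩ := mem_VS.1 hv'
    have h2 := mem_sdiff.1 (hN' he)
    exact h2.2 (mem_filter.2 ⟨h2.1, v, hU v hv (mem_VS.2 ⟨e, h2.1, hve⟩), hve⟩)
  have hF := isM_union hA (isM_subset hN hN'N) hdis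
  have hd : Disjoint A N' := by
    rw [Finset.disjoint_left]
    intro e he he'
    obtain ⟨v, hv⟩ : ∃ v, v ∈ e := ⟨_, Sym2.out_fst_mem e⟩
    exact hdis v (mem_VS.2 ⟨e, he, hv⟩) (mem_VS.2 ⟨e, he', hv⟩)
  have hcard : (A ∪ N').card = s := by
    rw [card_union_of_disjoint hd, hc']
    omega
  refine hz _ hF hcard ?_
  have h3 : ∑ e ∈ A ∪ N', (c e - x) = 0 := by
    rw [sum_union hd, hs, zero_add]
    exact sum_eq_zero fun e he => by rw [hx e (hN'N he), sub_self]
  rw [sum_sub_distrib, sum_const, hcard, nsmul_eq_mul, ZMod.natCast_self, zero_mul, sub_zero] at h3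
  exact h3


theorem card_nsmul_zmod (s : ℕ) (g : ZMod s) : s • g = 0 := by
  rw [nsmul_eq_mul, ZMod.natCast_self, zero_mul]

/-- the setting after the choice of the edge `p p'` -/
structure Ctx (G : SimpleGraph V) (s t : ℕ) (c : Sym2 V → ZMod s) (x g : ZMod s)
    (δ : Finset (Sym2 V)) : Prop where
  s5 : 5 ≤ s
  st : s + 1 = 2 * t
  hz : ∀ F, IsM G F → F.card = s → ∑ e ∈ F, c e ≠ 0
  hδ : IsM G δ
  card : δ.card + 1 = t
  total : ∑ e ∈ δ, (c e - x) = (s - 2) • g
  sums : ∀ j ≤ s - 2, ∃ T, T ⊆ δ ∧ ∑ e ∈ T, (c e - x) = j • g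
  gen : ∀ y : ZMod s, ∃ j < s, y = j • g
  ne : ∀ j, 1 ≤ j → j < s → j • g ≠ 0

variable {t : ℕ} {g : ZMod s} {δ : Finset (Sym2 V)}

theorem O1 (K : Ctx G s t c x g δ) {N : Finset (Sym2 V)} (hN : IsM G N) (hc : N.card + 1 = s)
    (hx : ∀ e ∈ N, c e = x) (hNδ : ∀ v, v ∈ VS N → v ∉ VS δ) {d w : V} (hd : d ∉ VS N)
    (hdδ : d ∉ VS δ) (hw : w ∉ VS δ) (h : G.Adj d w) : c s(d, w) = x ∨ c s(d, w) = x + g := by
  obtain ⟨j, hj, hjg⟩ := K.gen (c s(d, w) - x)
  have s5 := K.s5
  have st := K.st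
  have cases : j = 0 ∨ j = 1 ∨ 2 ≤ j := by omega
  rcases cases with rfl | rfl | h2
  · left
    rw [zero_smul] at hjg
    exact sub_eq_zero.1 hjg
  · right
    rw [one_smul] at hjg
    rw [← hjg]
    ring
  · exfalso
    obtain ⟨T, hT, hs⟩ := K.sums (s - j) (by omega)
    have hTne : T.Nonempty := by
      rw [nonempty_iff_ne_empty]
      rintro rfl
      rw [sum_empty] at hs
      exact K.ne (s - j) (by omega) (by omega) hs.symm
    have hTM := isM_subset K.hδ hT
    have hdT : d ∉ VS T := fun h => hdδ (VS_mono hT h)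
    have hwT : w ∉ VS T := fun h => hw (VS_mono hT h)
    have hA := isM_insert hTM h hdT hwT
    have hnot : s(d, w) ∉ T := not_mem_of_VS hdT
    have hTc := card_le_card hT
    have hδc := K.card
    have hTp := hTne.card_pos
    refine complete K.hz hA hN hx ?_ ?_ {w} ?_ ?_
    · rw [sum_insert hnot, hs, hjg, ← add_smul, show j + (s - j) = s by omega]
      exact card_nsmul_zmod s g
    · rw [card_insert_of_notMem hnot]
      omega
    · intro v hv hvN
      rcases mem_VS_insert.1 hv with h3 | h3 | h3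
      · exact absurd (h3 ▸ hvN) hd
      · rw [h3]
        exact mem_singleton_self _
      · exact absurd (VS_mono hT h3) (hNδ v hvN)
    · have h4 := card_hit hN {w}
      rw [card_singleton] at h4
      rw [card_insert_of_notMem hnot]
      omega

theorem O3 (K : Ctx G s t c x g δ) {N : Finset (Sym2 V)} (hN : IsM G N) (hc : N.card + 1 = s)
    (hx : ∀ e ∈ N, c e = x) (hNδ : ∀ v, v ∈ VS N → v ∉ VS δ) {d w d' w' : V} (hd : d ∉ VS N)
    (hd' : d' ∉ VS N) (hdδ : d ∉ VS δ) (hwδ : w ∉ VS δ) (hdδ' : d' ∉ VS δ) (hwδ' : w' ∉ VS δ)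
    (h : G.Adj d w) (h' : G.Adj d' w') (h1 : d ≠ d') (h2 : d ≠ w') (h3 : w ≠ d') (h4 : w ≠ w')
    (e1 : c s(d, w) = x + g) (e2 : c s(d', w') = x + g) : False := by
  have s5 := K.s5
  have st := K.st
  have hδc := K.card
  have hA1 := isM_insert K.hδ h' hdδ' hwδ'
  have hn1 : d ∉ VS (insert s(d', w') δ) := fun h => by
    rcases mem_VS_insert.1 h with h | h | h
    · exact h1 h
    · exact h2 h
    · exact hdδ h
  have hn2 : w ∉ VS (insert s(d', w') δ) := fun h => by
    rcases mem_VS_insert.1 h with h | h | h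
    · exact h3 h
    · exact h4 h
    · exact hwδ h
  have hA := isM_insert hA1 h hn1 hn2
  have m1 : s(d', w') ∉ δ := not_mem_of_VS hdδ'
  have m2 : s(d, w) ∉ insert s(d', w') δ := not_mem_of_VS hn1
  have hcA : (insert s(d, w) (insert s(d', w') δ)).card = δ.card + 2 := by
    rw [card_insert_of_notMem m2, card_insert_of_notMem m1]
  refine complete K.hz hA hN hx ?_ ?_ {w, w'} ?_ ?_
  · rw [sum_insert m2, sum_insert m1, K.total, e1, e2, add_sub_cancel_left]
    have e3 : g + (g + (s - 2) • g) = ((s - 2) + 1 + 1) • g := by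
      rw [add_smul, add_smul, one_smul]
      abel
    rw [e3, show s - 2 + 1 + 1 = s by omega]
    exact card_nsmul_zmod s g
  · rw [hcA]
    omega
  · intro v hv hvN
    rcases mem_VS_insert.1 hv with h5 | h5 | h5
    · exact absurd (h5 ▸ hvN) hd
    · rw [h5]
      exact mem_insert_self _ _
    · rcases mem_VS_insert.1 h5 with h6 | h6 | h6
      · exact absurd (h6 ▸ hvN) hd'
      · rw [h6]
        exact mem_insert_of_mem (mem_singleton_self _)
      · exact absurd h6 (hNδ v hvN)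
  · have h5 := card_hit hN {w, w'}
    have h6 : ({w, w'} : Finset V).card ≤ 2 := card_le_two
    rw [hcA]
    omega

theorem swap2 (K : Ctx G s t c x g δ) {N : Finset (Sym2 V)} (hN : IsM G N) (hc : N.card + 1 = s)
    (hx : ∀ e ∈ N, c e = x) {a b p p' : V} (hab : s(a, b) ∈ N) (hp : p ∉ VS N) (hp' : p' ∉ VS N)
    (hpp : p ≠ p') (h : G.Adj p a) (h' : G.Adj p' b) (e1 : c s(p, a) = x)
    (e2 : c s(p', b) = x) : False := by
  have s5 := K.s5
  have ha : a ∈ VS N := mem_VS.2 ⟨_, hab, Sym2.mem_mk_left a b⟩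
  have hb : b ∈ VS N := mem_VS.2 ⟨_, hab, Sym2.mem_mk_right a b⟩
  have hne : a ≠ b := (hN.1 _ hab : G.Adj a b).ne
  have h0 : IsM G (∅ : Finset (Sym2 V)) :=
    ⟨fun e he => absurd he (notMem_empty e), fun e he => absurd he (notMem_empty e)⟩
  have hV0 : ∀ v : V, v ∉ VS (∅ : Finset (Sym2 V)) := fun v hv => by
    obtain ⟨e, he, -⟩ := mem_VS.1 hv
    exact absurd he (notMem_empty e)
  have hA1 := isM_insert h0 h' (hV0 _) (hV0 _)
  have hn1 : p ∉ VS (insert s(p', b) (∅ : Finset (Sym2 V))) := fun h => by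
    rcases mem_VS_insert.1 h with h | h | h
    · exact hpp h
    · exact hp (h ▸ hb)
    · exact hV0 _ h
  have hn2 : a ∉ VS (insert s(p', b) (∅ : Finset (Sym2 V))) := fun h => by
    rcases mem_VS_insert.1 h with h | h | h
    · exact hp' (h ▸ ha)
    · exact hne h
    · exact hV0 _ h
  have hA := isM_insert hA1 h hn1 hn2
  have m1 : s(p', b) ∉ (∅ : Finset (Sym2 V)) := notMem_empty _
  have m2 : s(p, a) ∉ insert s(p', b) (∅ : Finset (Sym2 V)) := not_mem_of_VS hn1
  have hcA : (insert s(p, a) (insert s(p', b) (∅ : Finset (Sym2 V)))).card = 2 := by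
    rw [card_insert_of_notMem m2, card_insert_of_notMem m1, card_empty]
  have hhit : (hit N {a, b}).card ≤ 1 := by
    rw [card_le_one]
    have key : ∀ e ∈ hit N {a, b}, e = s(a, b) := by
      intro e he
      obtain ⟨heN, v, hv, hve⟩ := mem_filter.1 he
      rcases mem_insert.1 hv with h3 | h3
      · exact isM_uniq hN heN hab hve (h3 ▸ Sym2.mem_mk_left a b)
      · rw [mem_singleton] at h3
        exact isM_uniq hN heN hab hve (h3 ▸ Sym2.mem_mk_right a b)
    intro e he f hf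
    rw [key e he, key f hf]
  refine complete K.hz hA hN hx ?_ ?_ {a, b} ?_ ?_
  · rw [sum_insert m2, sum_insert m1, sum_empty, e1, e2, sub_self, add_zero, add_zero]
  · rw [hcA]
    omega
  · intro v hv hvN
    rcases mem_VS_insert.1 hv with h5 | h5 | h5
    · exact absurd (h5 ▸ hvN) hp
    · rw [h5]
      exact mem_insert_self _ _
    · rcases mem_VS_insert.1 h5 with h6 | h6 | h6
      · exact absurd (h6 ▸ hvN) hp'
      · rw [h6]
        exact mem_insert_of_mem (mem_singleton_self _)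
      · exact absurd h6 (hV0 v)
  · rw [hcA]
    omega


theorem case3 [DecidableRel G.Adj] (K : Ctx G s t c x g δ) {N : Finset (Sym2 V)} (hN : IsM G N)
    (hc : N.card + 1 = s)
    (hx : ∀ e ∈ N, c e = x) (hNδ : ∀ v, v ∈ VS N → v ∉ VS δ) {p p' : V} (hp : p ∉ VS N)
    (hp' : p' ∉ VS N) (hpδ : p ∉ VS δ) (hpδ' : p' ∉ VS δ) (hpp : p ≠ p') {a : V} (ha : a ∈ VS N)
    (only : ∀ v ∈ VS N, G.Adj p v → c s(p, v) = x + g → v = a)
    (only' : ∀ v ∈ VS N, G.Adj p' v → c s(p', v) = x + g → v = a)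
    (hcount : ((VS N).filter fun v => ¬ G.Adj p v).card +
      ((VS N).filter fun v => ¬ G.Adj p' v).card + 1 ≤ s) : False := by
  have s5 := K.s5
  set m : V → ℕ := fun v => (if ¬ G.Adj p v then 1 else 0) + (if ¬ G.Adj p' v then 1 else 0) with hm
  have h1 : ∑ v ∈ VS N, m v = ((VS N).filter fun v => ¬ G.Adj p v).card +
      ((VS N).filter fun v => ¬ G.Adj p' v).card := by
    rw [hm, sum_add_distrib, card_filter, card_filter]
  have h2 : ∑ v ∈ VS N, m v = ∑ e ∈ N, ∑ v ∈ e.toFinset, m v := by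
    unfold VS
    exact sum_biUnion (pwd hN)
  obtain ⟨ea, hea, haea⟩ := mem_VS.1 ha
  have h3 : ∀ e ∈ N.erase ea, 2 ≤ ∑ v ∈ e.toFinset, m v := by
    intro e he
    obtain ⟨hne, heN⟩ := mem_erase.1 he
    have hae : a ∉ e := fun h => hne (isM_uniq hN heN hea h haea)
    induction e using Sym2.ind with
    | _ b d =>
      have hbd : b ≠ d := (hN.1 _ heN : G.Adj b d).ne
      have hb : b ∈ VS N := mem_VS.2 ⟨_, heN, Sym2.mem_mk_left b d⟩
      have hd : d ∈ VS N := mem_VS.2 ⟨_, heN, Sym2.mem_mk_right b d⟩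
      have hab : b ≠ a := fun h => hae (h ▸ Sym2.mem_mk_left b d)
      have had : d ≠ a := fun h => hae (h ▸ Sym2.mem_mk_right b d)
      rw [Sym2.toFinset_mk_eq, sum_pair hbd]
      have col : ∀ v ∈ VS N, v ≠ a → G.Adj p v → c s(p, v) = x := fun v hv hva h => by
        rcases O1 K hN hc hx hNδ hp hpδ (hNδ v hv) h with h4 | h4
        · exact h4
        · exact absurd (only v hv h h4) hva
      have col' : ∀ v ∈ VS N, v ≠ a → G.Adj p' v → c s(p', v) = x := fun v hv hva h => by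
        rcases O1 K hN hc hx hNδ hp' hpδ' (hNδ v hv) h with h4 | h4
        · exact h4
        · exact absurd (only' v hv h h4) hva
      have A1 : ¬ (G.Adj p b ∧ G.Adj p' d) := fun ⟨h4, h5⟩ =>
        swap2 K hN hc hx heN hp hp' hpp h4 h5 (col b hb hab h4) (col' d hd had h5)
      have A2 : ¬ (G.Adj p d ∧ G.Adj p' b) := fun ⟨h4, h5⟩ =>
        swap2 K hN hc hx (Sym2.eq_swap ▸ heN) hp hp' hpp h4 h5 (col d hd had h4) (col' b hb hab h5)
      simp only [hm]
      by_cases q1 : G.Adj p b <;> by_cases q2 : G.Adj p' d <;> by_cases q3 : G.Adj p d <;>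
        by_cases q4 : G.Adj p' b <;> simp [q1, q2, q3, q4] at A1 A2 ⊢
  have h4 : 2 * (N.erase ea).card ≤ ∑ v ∈ VS N, m v := by
    rw [h2, ← add_sum_erase N _ hea, mul_comm, ← smul_eq_mul, ← sum_const]
    exact (sum_le_sum h3).trans (Nat.le_add_left _ _)
  rw [card_erase_of_mem hea, h1] at h4
  omega

theorem case1 [Fintype V] [DecidableRel G.Adj] (HQ : S_QZero) (HF : S_Finish5)
    (K : Ctx G s t c x g δ)
    (hV : Fintype.card V + 1 = 3 * s) (hmiss : miss G + 2 ≤ 2 * s)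
    {N : Finset (Sym2 V)} (hN : IsM G N) (hc : N.card + 1 = s)
    (hx : ∀ e ∈ N, c e = x) (hNδ : ∀ v, v ∈ VS N → v ∉ VS δ) {p p' : V} (hp : p ∉ VS N)
    (hp' : p' ∉ VS N) (hpδ : p ∉ VS δ) (hpδ' : p' ∉ VS δ) (hadj : G.Adj p p')
    (hcp : c s(p, p') = x + g) (hall : ∀ v ∈ VS N, G.Adj p' v → c s(p', v) ≠ x + g)
    (hcount : ((VS N).filter fun v => ¬ G.Adj p' v).card + 1 ≤ s) : False := by
  have s5 := K.s5
  have hall' : ∀ v ∈ VS N, G.Adj p' v → c s(p', v) = x := fun v hv h => by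
    rcases O1 K hN hc hx hNδ hp' hpδ' (hNδ v hv) h with h4 | h4
    · exact h4
    · exact absurd h4 (hall v hv h)
  have hcN := card_VS hN
  have hQ : (insert p' (VS N)).card + 1 = 2 * s := by
    rw [card_insert_of_notMem hp', hcN]
    omega
  have hQδ : ∀ v ∈ insert p' (VS N), v ∉ VS δ := fun v hv => by
    rcases mem_insert.1 hv with h | h
    · rw [h]; exact hpδ'
    · exact hNδ v h
  have hpQ : p ∉ insert p' (VS N) := fun h => by
    rcases mem_insert.1 h with h | h
    · exact hadj.ne h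
    · exact hp h
  have hyp : ∀ N', IsM G N' → N'.card + 1 = s →
      (∀ e ∈ N', c e = x ∧ ∀ v ∈ e, v ∈ insert p' (VS N)) →
      ∀ d ∈ insert p' (VS N), (∀ e ∈ N', d ∉ e) → ∀ w ∈ insert p' (VS N), G.Adj d w →
        c s(d, w) = x := by
    intro N' hN' hc' hx' d hd hdN w hw h
    have hsub : ∀ v, v ∈ VS N' → v ∈ insert p' (VS N) := fun v hv => by
      obtain ⟨e, he, hve⟩ := mem_VS.1 hv
      exact (hx' e he).2 v hve
    have hNδ' : ∀ v, v ∈ VS N' → v ∉ VS δ := fun v hv => hQδ v (hsub v hv)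
    have hdN' : d ∉ VS N' := fun h => by
      obtain ⟨e, he, hve⟩ := mem_VS.1 h
      exact hdN e he hve
    have hpN' : p ∉ VS N' := fun h => hpQ (hsub p h)
    rcases O1 K hN' hc' (fun e he => (hx' e he).1) hNδ' hdN' (hQδ d hd) (hQδ w hw) h with h4 | h4
    · exact h4
    · rcases mem_insert.1 hd with rfl | hd1
      · rcases mem_insert.1 hw with h5 | hw1
        · exact absurd h5.symm h.ne
        · exact hall' w hw1 h
      · rcases mem_insert.1 hw with rfl | hw1
        · rw [Sym2.eq_swap]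
          exact hall' d hd1 h.symm
        · exfalso
          refine O3 K hN' hc' (fun e he => (hx' e he).1) hNδ' hdN' hpN' (hQδ d hd) (hQδ w hw) hpδ
            hpδ' h hadj ?_ ?_ ?_ ?_ h4 hcp
          · rintro rfl; exact hp hd1
          · rintro rfl; exact hp' hd1
          · rintro rfl; exact hp hw1
          · rintro rfl; exact hp' hw1
  have hex : ∃ w ∈ insert p' (VS N), G.Adj p' w := by
    by_contra hno
    push Not at hno
    have h5 : ((VS N).filter fun v => ¬ G.Adj p' v) = VS N :=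
      filter_true_of_mem fun v hv => hno v (mem_insert_of_mem hv)
    rw [h5, hcN] at hcount
    omega
  have hfin := HQ V G (ZMod s) c x s (insert p' (VS N)) s5 hQ hmiss hyp N p' hN hc
    (fun e he => ⟨hx e he, fun v hv => mem_insert_of_mem (mem_VS.2 ⟨e, he, hv⟩)⟩)
    (mem_insert_self _ _) (fun e he hv => hp' (mem_VS.2 ⟨e, he, hv⟩)) hex
  obtain ⟨F, hF, hFc, hFs⟩ := HF V G s c x (insert p' (VS N)) s5 hV hQ hmiss hfin
  exact K.hz F hF hFc hFs

/-- the non-edges between a set `U` and a disjoint set `W` -/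
theorem miss_ge [Fintype V] [DecidableRel G.Adj] (U W : Finset V) (hd : ∀ v ∈ U, v ∉ W) :
    ∑ a ∈ U, (W.filter fun b => ¬ G.Adj a b).card ≤ miss G := by
  classical
  rw [← card_sigma]
  unfold miss
  rw [Set.ncard_eq_toFinset_card']
  refine card_le_card_of_injOn (fun q : (_ : V) × V => s(q.1, q.2)) ?_ ?_
  · rintro ⟨a, b⟩ hq
    have h1 := mem_sigma.1 (mem_coe.1 hq)
    have h2 := mem_filter.1 h1.2
    rw [mem_coe, Set.mem_toFinset, SimpleGraph.mem_edgeSet, SimpleGraph.compl_adj]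
    refine ⟨fun h => hd a h1.1 ?_, h2.2⟩
    have h3 : a = b := h
    rw [h3]
    exact h2.1
  · rintro ⟨a, b⟩ hq ⟨a', b'⟩ hq' heq
    have h1 := mem_sigma.1 (mem_coe.1 hq)
    have h2 := (mem_filter.1 h1.2).1
    have h1' := mem_sigma.1 (mem_coe.1 hq')
    have h2' := (mem_filter.1 h1'.2).1
    simp only at h1 h2 h1' h2' heq
    rcases Sym2.eq_iff.1 heq with ⟨rfl, rfl⟩ | ⟨h3, h4⟩
    · rfl
    · exact absurd (h3 ▸ h2') (hd a h1.1)

end

/-- **RODD** -/
theorem rOdd : S_ZeroFree → S_QZero → S_Finish5 → S_ROdd := by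
  intro HZ HQ HF V _ _ G s t c M ht hst hV hmiss hz hM hMc hR
  classical
  obtain ⟨x, hx1, hfull⟩ := hR
  obtain ⟨N0, hN0def⟩ : ∃ N, N = M.filter (fun e => c e = x) := ⟨_, rfl⟩
  obtain ⟨Γ, hΓdef⟩ : ∃ N, N = M.filter (fun e => c e ≠ x) := ⟨_, rfl⟩
  rw [← hN0def] at hx1
  rw [← hΓdef] at hfull
  have hN0M : N0 ⊆ M := by rw [hN0def]; exact filter_subset _ _
  have hΓM : Γ ⊆ M := by rw [hΓdef]; exact filter_subset _ _
  have hN0 := isM_subset hM hN0M
  have hΓ := isM_subset hM hΓM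
  have hxN : ∀ e ∈ N0, c e = x := fun e he => by
    rw [hN0def] at he
    exact (mem_filter.1 he).2
  have hxΓ : ∀ e ∈ Γ, c e ≠ x := fun e he => by
    rw [hΓdef] at he
    exact (mem_filter.1 he).2
  have hcard : N0.card + Γ.card = M.card := by
    rw [hN0def, hΓdef]
    exact card_filter_add_card_filter_not _
  have hΓc : Γ.card = t := by omega
  have hdis : ∀ v, v ∈ VS N0 → v ∉ VS Γ := by
    intro v hv hv'
    obtain ⟨e, he, hve⟩ := mem_VS.1 hv
    obtain ⟨f, hf, hvf⟩ := mem_VS.1 hv'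
    have h1 := isM_uniq hM (hN0M he) (hΓM hf) hve hvf
    exact hxΓ f hf (h1 ▸ hxN e he)
  have hzf : ∀ T, T ⊆ Γ → T.Nonempty → ∑ i ∈ T, (c i - x) ≠ 0 := by
    intro T hT hne h0
    have h1 := card_le_card hT
    have h2 := hne.card_pos
    have h3 := card_hit hN0 ∅
    rw [card_empty] at h3
    refine complete hz (isM_subset hΓ hT) hN0 hxN h0 (by omega) ∅ ?_ (by omega)
    intro v hv hv'
    exact absurd (VS_mono hT hv) (hdis v hv')
  have : NeZero s := ⟨by omega⟩
  have himg : (Γ.powerset.image (fun T => ∑ i ∈ T, (c i - x))).card = s := by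
    have h1 : Γ.powerset.image (fun T => ∑ i ∈ T, (c i - x)) = univ := by
      ext y
      simp only [mem_image, mem_powerset, mem_univ, iff_true]
      obtain ⟨T, hT, h⟩ := hfull y
      exact ⟨T, hT, h⟩
    rw [h1, card_univ, ZMod.card]
  obtain ⟨g, n, hn, hsum, hne⟩ := HZ (ZMod s) (Sym2 V) Γ (fun e => c e - x) hzf
    (by rw [himg, hΓc]; omega)
  rw [himg] at hsum
  have hsm : ∀ T ⊆ Γ, ∑ e ∈ T, (c e - x) = (∑ e ∈ T, n e) • g := by
    intro T hT
    rw [sum_smul]
    exact sum_congr rfl fun e he => (hn e (hT he)).2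
  have gen : ∀ y : ZMod s, ∃ j < s, y = j • g := by
    intro y
    obtain ⟨T, hT, h⟩ := hfull y
    have h1 : ∑ e ∈ T, n e ≤ ∑ e ∈ Γ, n e := sum_le_sum_of_subset hT
    exact ⟨∑ e ∈ T, n e, by omega, by rw [← h, hsm T hT]⟩
  have hones : 1 < (Γ.filter (fun e => n e = 1)).card := by
    have := two_mul_card_le Γ n (fun e he => (hn e he).1)
    omega
  obtain ⟨e1, he1, e2, he2, h12⟩ := one_lt_card.1 hones
  obtain ⟨P, hPdef⟩ : ∃ P : Sym2 V → ℕ,
      P = fun e => ∑ a ∈ e.toFinset, ((VS N0).filter fun b => ¬ G.Adj a b).card := ⟨_, rfl⟩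
  have hP : P e1 + P e2 ≤ miss G := by
    have hd12 : Disjoint e1.toFinset e2.toFinset :=
      pwd hΓ (mem_filter.1 he1).1 (mem_filter.1 he2).1 h12
    rw [hPdef]
    show ∑ a ∈ e1.toFinset, _ + ∑ a ∈ e2.toFinset, _ ≤ _
    rw [← sum_union hd12]
    apply miss_ge
    intro v hv hvN
    rcases mem_union.1 hv with h | h
    · exact hdis v hvN (mem_VS.2 ⟨e1, (mem_filter.1 he1).1, Sym2.mem_toFinset.1 h⟩)
    · exact hdis v hvN (mem_VS.2 ⟨e2, (mem_filter.1 he2).1, Sym2.mem_toFinset.1 h⟩)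
  have hex : ∃ e ∈ Γ, n e = 1 ∧ P e + 1 ≤ s := by
    by_cases h : P e1 + 1 ≤ s
    · exact ⟨e1, (mem_filter.1 he1).1, (mem_filter.1 he1).2, h⟩
    · exact ⟨e2, (mem_filter.1 he2).1, (mem_filter.1 he2).2, by omega⟩
  obtain ⟨e0, he0, hn0, hP0⟩ := hex
  induction e0 using Sym2.ind with
  | _ p p' =>
    obtain ⟨δ, hδdef⟩ : ∃ δ, δ = Γ.erase s(p, p') := ⟨_, rfl⟩
    have hδΓ : δ ⊆ Γ := by rw [hδdef]; exact erase_subset _ _
    have hδM := isM_subset hΓ hδΓ
    have hδc : δ.card + 1 = t := by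
      rw [hδdef, card_erase_of_mem he0]
      omega
    have hδs : ∑ e ∈ δ, n e = s - 2 := by
      have h1 := add_sum_erase Γ n he0
      rw [← hδdef, hn0] at h1
      omega
    have K : Ctx G s t c x g δ := by
      refine ⟨by omega, hst, hz, hδM, hδc, by rw [hsm δ hδΓ, hδs], fun j hj => ?_, gen,
        fun j h1 h2 => hne j h1 (by omega)⟩
      obtain ⟨T, hT, hTs⟩ := sums_all δ n (fun f hf => by
        have h1 := two_mul_card_le (δ.erase f) n
          (fun e he => (hn e (hδΓ (mem_of_mem_erase he))).1)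
        have h2 := add_sum_erase δ n hf
        have h3 := card_erase_of_mem hf
        have h4 : ((δ.erase f).filter fun i => n i = 1).card ≤ (δ.filter fun i => n i = 1).card :=
          card_le_card (filter_subset_filter _ (erase_subset _ _))
        have h5 := card_pos.2 ⟨f, hf⟩
        omega) j (by omega)
      exact ⟨T, hT, by rw [hsm T (hT.trans hδΓ), hTs]⟩
    have hadj : G.Adj p p' := hΓ.1 _ he0
    have hpp := hadj.ne
    have hNδ : ∀ v, v ∈ VS N0 → v ∉ VS δ := fun v hv h => hdis v hv (VS_mono hδΓ h)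
    have hp : p ∉ VS N0 := fun h => hdis p h (mem_VS.2 ⟨_, he0, Sym2.mem_mk_left p p'⟩)
    have hp' : p' ∉ VS N0 := fun h => hdis p' h (mem_VS.2 ⟨_, he0, Sym2.mem_mk_right p p'⟩)
    have hδ' : ∀ v ∈ s(p, p'), v ∉ VS δ := by
      intro v hv h
      obtain ⟨e, he, hve⟩ := mem_VS.1 h
      rw [hδdef, mem_erase] at he
      exact he.1 (isM_uniq hΓ he.2 he0 hve hv)
    have hpδ := hδ' p (Sym2.mem_mk_left p p')
    have hpδ' := hδ' p' (Sym2.mem_mk_right p p')
    have hcp : c s(p, p') = x + g := by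
      have h1 := (hn _ he0).2
      rw [hn0, one_smul] at h1
      have h2 : c s(p, p') - x = g := h1
      rw [← h2]
      ring
    have hPe : ((VS N0).filter fun v => ¬ G.Adj p v).card +
        ((VS N0).filter fun v => ¬ G.Adj p' v).card + 1 ≤ s := by
      rw [hPdef] at hP0
      simp only [Sym2.toFinset_mk_eq] at hP0
      rw [sum_pair hpp] at hP0
      exact hP0
    have same : ∀ a ∈ VS N0, ∀ b ∈ VS N0, G.Adj p a → c s(p, a) = x + g → G.Adj p' b →
        c s(p', b) = x + g → a = b := by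
      intro a ha b hb h h1 h' h2
      by_contra hab
      exact O3 K hN0 hx1 hxN hNδ hp hp' hpδ (hNδ a ha) hpδ' (hNδ b hb) h h' hpp
        (fun h3 => hp (h3 ▸ hb)) (fun h3 => hp' (h3 ▸ ha)) hab h1 h2
    by_cases A : ∃ a ∈ VS N0, G.Adj p a ∧ c s(p, a) = x + g
    · by_cases B : ∃ b ∈ VS N0, G.Adj p' b ∧ c s(p', b) = x + g
      · obtain ⟨a, ha, h1, h2⟩ := A
        obtain ⟨b, hb, h3, h4⟩ := B
        have hab := same a ha b hb h1 h2 h3 h4
        exact case3 K hN0 hx1 hxN hNδ hp hp' hpδ hpδ' hpp ha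
          (fun v hv h5 h6 => (same v hv b hb h5 h6 h3 h4).trans hab.symm)
          (fun v hv h5 h6 => (same a ha v hv h1 h2 h5 h6).symm) hPe
      · push Not at B
        exact case1 HQ HF K hV hmiss hN0 hx1 hxN hNδ hp hp' hpδ hpδ' hadj hcp
          (fun v hv h => B v hv h) (by omega)
    · push Not at A
      exact case1 HQ HF K hV hmiss hN0 hx1 hxN hNδ hp' hp hpδ' hpδ hadj.symm
        (by rw [Sym2.eq_swap]; exact hcp) (fun v hv h => A v hv h) (by omega)

end Pool.Agent.H621.ZM.ROdd
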