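import Pool.Agent.H621.ZM.Spec2

/-!
RIGIDGOOD: a good lift without slack is of rigid type or has two forced values.
-/

set_option autoImplicit false

namespace Pool.Agent.H621.ZM.RigidGood

open Finset

variable {ι : Type} [DecidableEq ι]

/-- subset sums of positive integers with a small sum -/
theorem sub_sums (n : ℕ) : ∀ (N : Finset ι) (w : ι → ℤ), N.card = n → (∀ i ∈ N, 1 ≤ w i) →
    ∑ i ∈ N, w i + 1 ≤ 2 * (N.card : ℤ) → ∀ k : ℤ, 0 ≤ k → k ≤ ∑ i ∈ N, w i →
    ∃ T, T ⊆ N ∧ ∑ i ∈ T, w i = k := by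
  induction n with
  | zero =>
    intro N w hN _ hS k _ _
    rw [Finset.card_eq_zero] at hN
    subst hN
    simp at hS
  | succ n ih =>
    intro N w hN hw hS k hk0 hk
    by_cases hall : ∀ i ∈ N, w i = 1
    · have hsum : ∑ i ∈ N, w i = (N.card : ℤ) := by
        rw [Finset.sum_congr rfl hall]
        simp
      rw [hsum] at hk
      obtain ⟨T, hT, hTc⟩ := Finset.exists_subset_card_eq (s := N) (n := k.toNat) (by omega)
      refine ⟨T, hT, ?_⟩
      rw [Finset.sum_congr rfl (fun i hi => hall i (hT hi))]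
      simp only [Finset.sum_const, nsmul_eq_mul, mul_one]
      rw [hTc]
      omega
    · push Not at hall
      obtain ⟨a, ha, ha1⟩ := hall
      have ha2 : 2 ≤ w a := by
        have := hw a ha
        omega
      have hsum := Finset.sum_erase_add N w ha
      have hcard := Finset.card_erase_of_mem ha
      have hlow : ((N.erase a).card : ℤ) ≤ ∑ i ∈ N.erase a, w i := by
        have h1 : ∑ _i ∈ N.erase a, (1 : ℤ) ≤ ∑ i ∈ N.erase a, w i :=
          Finset.sum_le_sum fun i hi => hw i (Finset.mem_of_mem_erase hi)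
        simpa using h1
      have hpos : 0 < N.card := Finset.card_pos.2 ⟨a, ha⟩
      have ih' := ih (N.erase a) w (by omega) (fun i hi => hw i (Finset.mem_of_mem_erase hi))
        (by omega)
      by_cases hka : k ≤ ∑ i ∈ N.erase a, w i
      · obtain ⟨T, hT, hTs⟩ := ih' k hk0 hka
        exact ⟨T, hT.trans (Finset.erase_subset _ _), hTs⟩
      · push Not at hka
        obtain ⟨T, hT, hTs⟩ := ih' (k - w a) (by omega) (by omega)
        have haT : a ∉ T := fun h => Finset.notMem_erase a N (hT h)
        refine ⟨insert a T, ?_, ?_⟩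
        · intro i hi
          rcases Finset.mem_insert.1 hi with rfl | hi
          · exact ha
          · exact Finset.erase_subset _ _ (hT hi)
        · rw [Finset.sum_insert haT, hTs]
          ring

/-- the hypotheses -/
structure Hyp {s : ℕ} (t : ℕ) (c : ι → ZMod s) (g d : ZMod s) (w : ι → ℤ) (L : Finset ι) :
    Prop where
  ht : 2 ≤ t
  hs : s = 2 * t
  hL : L.card + 1 = s + t
  hd : IsUnit d
  hc : ∀ i ∈ L, c i = g + d * (w i : ZMod s)
  ha : aa w L + 1 = (s : ℤ)
  hb : bb w L + 1 = (s : ℤ)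

theorem Hyp.mirror {s t : ℕ} {c : ι → ZMod s} {g d : ZMod s} {w : ι → ℤ} {L : Finset ι}
    (H : Hyp t c g d w L) : Hyp t c (g + d) (-d) (fun i => 1 - w i) L where
  ht := H.ht
  hs := H.hs
  hL := H.hL
  hd := H.hd.neg
  hc := by
    intro i hi
    rw [H.hc i hi]
    push_cast
    ring
  ha := by
    have h1 : aa (fun i => 1 - w i) L = bb w L := by
      unfold aa bb
      refine Finset.sum_congr rfl fun i _ => ?_
      rw [sub_sub_cancel]
    rw [h1, H.hb]
  hb := by
    have h1 : bb (fun i => 1 - w i) L = aa w L := rfl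
    rw [h1, H.ha]

theorem Hyp.up {s t : ℕ} {c : ι → ZMod s} {g d : ZMod s} {w : ι → ℤ} {L : Finset ι}
    (H : Hyp t c g d w L) {i : ι} (hi : i ∈ L) : w i + 1 ≤ s := by
  have h1 : max (w i) 0 ≤ bb w L :=
    Finset.single_le_sum (f := fun i => max (w i) 0) (fun j _ => le_max_right _ _) hi
  have h2 := H.hb
  have h3 := le_max_left (w i) 0
  omega

theorem Hyp.lo {s t : ℕ} {c : ι → ZMod s} {g d : ZMod s} {w : ι → ℤ} {L : Finset ι}
    (H : Hyp t c g d w L) {i : ι} (hi : i ∈ L) : 1 - w i + 1 ≤ s := by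
  have h1 : max (1 - w i) 0 ≤ aa w L :=
    Finset.single_le_sum (f := fun i => max (1 - w i) 0) (fun j _ => le_max_right _ _) hi
  have h2 := H.ha
  have h3 := le_max_left (1 - w i) 0
  omega

theorem Hyp.eq_g {s t : ℕ} {c : ι → ZMod s} {g d : ZMod s} {w : ι → ℤ} {L : Finset ι}
    (H : Hyp t c g d w L) {i : ι} (hi : i ∈ L) : c i = g ↔ w i = 0 := by
  rw [H.hc i hi]
  constructor
  · intro h
    have h1 : d * (w i : ZMod s) = 0 := by linear_combination h
    rw [H.hd.mul_right_eq_zero, ZMod.intCast_zmod_eq_zero_iff_dvd] at h1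
    refine Int.eq_zero_of_abs_lt_dvd h1 ?_
    have h2 := H.up hi
    have h3 := H.lo hi
    have h4 := H.ht
    have h5 := H.hs
    rw [abs_lt]
    constructor <;> omega
  · intro h
    rw [h]
    push_cast
    ring

/-- no negative element -/
theorem typeR {s t : ℕ} {c : ι → ZMod s} {g d : ZMod s} {w : ι → ℤ} {L : Finset ι}
    (H : Hyp t c g d w L) (hneg : ∀ i ∈ L, 0 ≤ w i) : TypeR c L := by
  have hs4 : 4 ≤ s := by
    have := H.ht
    have := H.hs
    omega
  have : NeZero s := ⟨by omega⟩
  have hF : L.filter (fun i => c i = g) = L.filter (fun i => w i = 0) :=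
    Finset.filter_congr fun i hi => H.eq_g hi
  have hN : L.filter (fun i => c i ≠ g) = L.filter (fun i => ¬ w i = 0) :=
    Finset.filter_congr fun i hi => not_congr (H.eq_g hi)
  have hcard : ((L.filter (fun i => w i = 0)).card : ℤ) = aa w L := by
    unfold aa
    rw [Finset.card_filter]
    push_cast
    refine Finset.sum_congr rfl fun i hi => ?_
    have := hneg i hi
    split_ifs with h
    · rw [h]
      simp
    · rw [max_eq_right (by omega)]
  have hsum0 : ∑ i ∈ L.filter (fun i => ¬ w i = 0), w i = bb w L := by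
    unfold bb
    rw [Finset.sum_filter]
    refine Finset.sum_congr rfl fun i hi => ?_
    have := hneg i hi
    by_cases h : w i = 0
    · simp [h]
    · rw [if_pos h, max_eq_left this]
  have hsplit := Finset.card_filter_add_card_filter_not (s := L) (fun i => w i = 0)
  have h1 := H.ha
  have h2 := H.hb
  have h3 := H.hL
  have h4 := H.hs
  refine ⟨g, ?_, ?_⟩
  · rw [hF]
    omega
  · intro y
    rw [hN]
    obtain ⟨u, hu⟩ := H.hd
    have hv := ZMod.val_lt (((u⁻¹ : (ZMod s)ˣ) : ZMod s) * y)
    obtain ⟨T, hT, hTs⟩ := sub_sums _ (L.filter (fun i => ¬ w i = 0)) w rfl (by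
      intro i hi
      rw [Finset.mem_filter] at hi
      have := hneg i hi.1
      omega) (by omega) (((((u⁻¹ : (ZMod s)ˣ) : ZMod s) * y).val : ℕ) : ℤ) (by positivity)
      (by omega)
    refine ⟨T, hT, ?_⟩
    have h5 : ∑ i ∈ T, (c i - g) = d * ((∑ i ∈ T, w i : ℤ) : ZMod s) := by
      push_cast
      rw [Finset.mul_sum]
      refine Finset.sum_congr rfl fun i hi => ?_
      rw [H.hc i (Finset.filter_subset _ _ (hT hi))]
      ring
    rw [h5, hTs]
    push_cast
    rw [ZMod.natCast_zmod_val, ← hu, Units.mul_inv_cancel_left]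

theorem card_erase_filter (L : Finset ι) (p : ι → Prop) [DecidablePred p] {i0 : ι} (hi : i0 ∈ L) :
    ((L.erase i0).filter p).card + (if p i0 then 1 else 0) = (L.filter p).card := by
  rw [Finset.card_filter, Finset.card_filter]
  exact Finset.sum_erase_add L (fun i => if p i then 1 else 0) hi

/-- the counts -/
theorem counts {s t : ℕ} {c : ι → ZMod s} {g d : ZMod s} {w : ι → ℤ} {L : Finset ι}
    (H : Hyp t c g d w L) :
    (((L.filter (fun i => w i ≤ 0)).card : ℤ) + ((L.filter (fun i => 1 ≤ w i)).card : ℤ) =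
      L.card) ∧
    (((L.filter (fun i => w i ≤ 0)).card : ℤ) ≤ aa w L) ∧
    (((L.filter (fun i => 1 ≤ w i)).card : ℤ) ≤ bb w L) ∧
    (2 * ((L.filter (fun i => w i ≤ 0)).card : ℤ) - aa w L ≤
      ((L.filter (fun i => w i = 0)).card : ℤ)) ∧
    (2 * ((L.filter (fun i => 1 ≤ w i)).card : ℤ) - bb w L ≤
      ((L.filter (fun i => w i = 1)).card : ℤ)) ∧
    (∀ i ∈ L, 2 ≤ w i →
      w i - 1 ≤ bb w L - ((L.filter (fun i => 1 ≤ w i)).card : ℤ) ∧
      2 * ((L.filter (fun i => 1 ≤ w i)).card : ℤ) - bb w L + (w i - 2) ≤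
        ((L.filter (fun i => w i = 1)).card : ℤ)) ∧
    (∀ i ∈ L, w i ≤ -1 →
      -w i ≤ aa w L - ((L.filter (fun i => w i ≤ 0)).card : ℤ) ∧
      2 * ((L.filter (fun i => w i ≤ 0)).card : ℤ) - aa w L + (-1 - w i) ≤
        ((L.filter (fun i => w i = 0)).card : ℤ)) := by
  have e1 : ((L.filter (fun i => w i ≤ 0)).card : ℤ) = ∑ i ∈ L, if w i ≤ 0 then (1 : ℤ) else 0 := by
    rw [Finset.card_filter]
    push_cast
    rfl
  have e2 : ((L.filter (fun i => 1 ≤ w i)).card : ℤ) = ∑ i ∈ L, if 1 ≤ w i then (1 : ℤ) else 0 := by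
    rw [Finset.card_filter]
    push_cast
    rfl
  have e3 : ((L.filter (fun i => w i = 0)).card : ℤ) = ∑ i ∈ L, if w i = 0 then (1 : ℤ) else 0 := by
    rw [Finset.card_filter]
    push_cast
    rfl
  have e4 : ((L.filter (fun i => w i = 1)).card : ℤ) = ∑ i ∈ L, if w i = 1 then (1 : ℤ) else 0 := by
    rw [Finset.card_filter]
    push_cast
    rfl
  have e5 : (L.card : ℤ) = ∑ _i ∈ L, (1 : ℤ) := by simp
  -- nonnegative functions
  have n1 : ∀ i ∈ L, 0 ≤ max (1 - w i) 0 - (if w i ≤ 0 then (1 : ℤ) else 0) := by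
    intro i _
    split_ifs with h
    · have := le_max_left (1 - w i) 0
      omega
    · have := le_max_right (1 - w i) 0
      omega
  have n2 : ∀ i ∈ L, 0 ≤ max (w i) 0 - (if 1 ≤ w i then (1 : ℤ) else 0) := by
    intro i _
    split_ifs with h
    · have := le_max_left (w i) 0
      omega
    · have := le_max_right (w i) 0
      omega
  have n3 : ∀ i ∈ L, 0 ≤ (if w i = 0 then (1 : ℤ) else 0) -
      2 * (if w i ≤ 0 then (1 : ℤ) else 0) + max (1 - w i) 0 := by
    intro i _
    have h1 := le_max_left (1 - w i) 0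
    have h2 := le_max_right (1 - w i) 0
    split_ifs <;> omega
  have n4 : ∀ i ∈ L, 0 ≤ (if w i = 1 then (1 : ℤ) else 0) -
      2 * (if 1 ≤ w i then (1 : ℤ) else 0) + max (w i) 0 := by
    intro i _
    have h1 := le_max_left (w i) 0
    have h2 := le_max_right (w i) 0
    split_ifs <;> omega
  have s1 : ∑ i ∈ L, (max (1 - w i) 0 - (if w i ≤ 0 then (1 : ℤ) else 0)) =
      aa w L - ∑ i ∈ L, if w i ≤ 0 then (1 : ℤ) else 0 := by
    rw [Finset.sum_sub_distrib]
    rfl
  have s2 : ∑ i ∈ L, (max (w i) 0 - (if 1 ≤ w i then (1 : ℤ) else 0)) =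
      bb w L - ∑ i ∈ L, if 1 ≤ w i then (1 : ℤ) else 0 := by
    rw [Finset.sum_sub_distrib]
    rfl
  have s3 : ∑ i ∈ L, ((if w i = 0 then (1 : ℤ) else 0) -
      2 * (if w i ≤ 0 then (1 : ℤ) else 0) + max (1 - w i) 0) =
      (∑ i ∈ L, if w i = 0 then (1 : ℤ) else 0) - 2 * (∑ i ∈ L, if w i ≤ 0 then (1 : ℤ) else 0) +
        aa w L := by
    rw [Finset.sum_add_distrib, Finset.sum_sub_distrib, ← Finset.mul_sum]
    rfl
  have s4 : ∑ i ∈ L, ((if w i = 1 then (1 : ℤ) else 0) -
      2 * (if 1 ≤ w i then (1 : ℤ) else 0) + max (w i) 0) =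
      (∑ i ∈ L, if w i = 1 then (1 : ℤ) else 0) - 2 * (∑ i ∈ L, if 1 ≤ w i then (1 : ℤ) else 0) +
        bb w L := by
    rw [Finset.sum_add_distrib, Finset.sum_sub_distrib, ← Finset.mul_sum]
    rfl
  rw [e1, e2, e3, e4, e5]
  refine ⟨?_, ?_, ?_, ?_, ?_, ?_, ?_⟩
  · rw [← Finset.sum_add_distrib]
    refine Finset.sum_congr rfl fun i _ => ?_
    split_ifs <;> omega
  · have := Finset.sum_nonneg n1
    rw [s1] at this
    linarith
  · have := Finset.sum_nonneg n2
    rw [s2] at this
    linarith
  · have := Finset.sum_nonneg n3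
    rw [s3] at this
    linarith
  · have := Finset.sum_nonneg n4
    rw [s4] at this
    linarith
  · intro i hi hw
    have h1 := Finset.single_le_sum n2 hi
    have h2 := Finset.single_le_sum n4 hi
    rw [s2] at h1
    rw [s4] at h2
    have h3 := le_max_left (w i) 0
    rw [if_pos (by omega : 1 ≤ w i)] at h1 h2
    rw [if_neg (by omega : ¬ w i = 1)] at h2
    constructor <;> linarith
  · intro i hi hw
    have h1 := Finset.single_le_sum n1 hi
    have h2 := Finset.single_le_sum n3 hi
    rw [s1] at h1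
    rw [s3] at h2
    have h3 := le_max_left (1 - w i) 0
    rw [if_pos (by omega : w i ≤ 0)] at h1 h2
    rw [if_neg (by omega : ¬ w i = 0)] at h2
    constructor <;> linarith

/-- the value `g` is forced -/
theorem forced (hI : S_Interval) {s t : ℕ} {c : ι → ZMod s} {g d : ZMod s} {w : ι → ℤ}
    {L : Finset ι} (H : Hyp t c g d w L) (h1 : ∃ i ∈ L, w i ≤ -1) (h2 : ∃ i ∈ L, 2 ≤ w i) :
    FrcM (L.val.map c) g ∧ (L.filter (fun i => c i = g)).Nonempty ∧
      2 * ((L.filter (fun i => w i ≤ 0)).card : ℤ) + 1 ≤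
        ((L.filter (fun i => c i = g)).card : ℤ) + s := by
  obtain ⟨k1, k2, k3, k4, k5, k6, k7⟩ := counts H
  obtain ⟨a, haL, ha⟩ := h1
  obtain ⟨b, hbL, hb⟩ := h2
  have ka := (k7 a haL ha).1
  have kb := (k6 b hbL hb).1
  have f1 := H.ht
  have f2 := H.hs
  have f3 := H.hL
  have f4 := H.ha
  have f5 := H.hb
  have hF : L.filter (fun i => c i = g) = L.filter (fun i => w i = 0) :=
    Finset.filter_congr fun i hi => H.eq_g hi
  have hpos : 0 < (L.filter (fun i => w i = 0)).card := by omega
  obtain ⟨i0, hi0⟩ := Finset.card_pos.1 hpos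
  rw [Finset.mem_filter] at hi0
  obtain ⟨hi0L, hi0w⟩ := hi0
  refine ⟨?_, ?_, ?_⟩
  · have : NeZero s := ⟨by omega⟩
    have hs1 : 1 ≤ s := by omega
    -- the data of `L0`
    have c1 := card_erase_filter L (fun i => w i ≤ 0) hi0L
    have c2 := card_erase_filter L (fun i => 1 ≤ w i) hi0L
    have c3 := card_erase_filter L (fun i => w i = 0) hi0L
    have c4 := card_erase_filter L (fun i => w i = 1) hi0L
    rw [if_pos (by omega : w i0 ≤ 0)] at c1
    rw [if_neg (by omega : ¬ 1 ≤ w i0)] at c2
    rw [if_pos hi0w] at c3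
    rw [if_neg (by omega : ¬ w i0 = 1)] at c4
    have c5 := Finset.card_erase_of_mem hi0L
    have c6 : aa w (L.erase i0) + 1 = aa w L := by
      have := Finset.sum_erase_add L (fun i => max (1 - w i) 0) hi0L
      simp only [hi0w] at this
      exact this
    have c7 : bb w (L.erase i0) = bb w L := by
      have := Finset.sum_erase_add L (fun i => max (w i) 0) hi0L
      simp only [hi0w, max_self, add_zero] at this
      exact this
    have key := hI ι (L.erase i0) w (s - 1) (by omega) (by omega) (by omega) (by omega)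
      (by
        intro i hi hw
        have h3 := k6 i (Finset.mem_of_mem_erase hi) hw
        constructor <;> omega)
      (by
        intro i hi hw
        have h3 := k7 i (Finset.mem_of_mem_erase hi) hw
        constructor <;> omega)
    intro z hz
    by_contra hne
    obtain ⟨u, hu⟩ := H.hd
    set X0 : ZMod s := ((u⁻¹ : (ZMod s)ˣ) : ZMod s) * (z - g) with hX0
    have hX0d : d * X0 = z - g := by
      rw [hX0, ← hu, Units.mul_inv_cancel_left]
    have hX0ne : -X0 ≠ 0 := by
      intro h
      rw [neg_eq_zero] at h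
      rw [h, mul_zero] at hX0d
      exact hne (sub_eq_zero.1 hX0d.symm)
    have hv := ZMod.val_lt (-X0)
    have hv0 : 0 < (-X0).val := by
      rw [Nat.pos_iff_ne_zero]
      intro h
      exact hX0ne ((ZMod.val_eq_zero _).1 h)
    obtain ⟨T, hT, hTc, hTs⟩ := key (((-X0).val : ℕ) : ℤ) (by omega) (by omega)
    refine hz (T.val.map c) ?_ ?_ ?_
    · have h3 : L.val.map c = c i0 ::ₘ ((L.erase i0).val.map c) := by
        rw [← Multiset.map_cons]
        congr 1
        rw [Finset.erase_val, Multiset.cons_erase hi0L]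
      have h4 : c i0 = g := (H.eq_g hi0L).2 hi0w
      rw [h3, h4, Multiset.erase_cons_head]
      exact Multiset.map_le_map (Finset.val_le_iff.2 hT)
    · rw [Multiset.card_map]
      change T.card + 1 = s
      omega
    · have h3 : (T.val.map c).sum = ∑ i ∈ T, c i := rfl
      have h4 : ∑ i ∈ T, c i = (T.card : ZMod s) * g + d * ((∑ i ∈ T, w i : ℤ) : ZMod s) := by
        push_cast
        rw [Finset.mul_sum, Finset.card_eq_sum_ones]
        push_cast
        rw [Finset.sum_mul, ← Finset.sum_add_distrib]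
        refine Finset.sum_congr rfl fun i hi => ?_
        rw [H.hc i (Finset.erase_subset _ _ (hT hi))]
        ring
      have h5 : ((T.card : ℕ) : ZMod s) + 1 = 0 := by
        have h6 : T.card + 1 = s := by omega
        have h7 := congrArg (Nat.cast : ℕ → ZMod s) h6
        push_cast at h7
        rw [h7]
        simp
      rw [h3, h4, hTs]
      push_cast
      rw [ZMod.natCast_zmod_val]
      linear_combination g * h5 - hX0d
  · rw [hF]
    exact ⟨i0, Finset.mem_filter.2 ⟨hi0L, hi0w⟩⟩
  · rw [hF]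
    omega

theorem rigidGood : S_Interval → S_RigidGood := by
  intro hI ι _ s t c g d w L ht hs hL hd hc ha hb
  have H : Hyp t c g d w L := ⟨ht, hs, hL, hd, hc, ha, hb⟩
  have H' := H.mirror
  by_cases h1 : ∃ i ∈ L, w i ≤ -1
  · by_cases h2 : ∃ i ∈ L, 2 ≤ w i
    · right
      obtain ⟨p1, p2, p3⟩ := forced hI H h1 h2
      obtain ⟨a, haL, ha'⟩ := h1
      obtain ⟨b, hbL, hb'⟩ := h2
      obtain ⟨q1, q2, q3⟩ := forced hI H' ⟨b, hbL, by omega⟩ ⟨a, haL, by omega⟩
      have hgd : g ≠ g + d := by
        intro h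
        have hd0 : d = 0 := by linear_combination -h
        rw [hd0] at hd
        have h3 := isUnit_zero_iff.1 hd
        have h4 : ((1 : ℕ) : ZMod s) = 0 := by
          push_cast
          exact h3.symm
        rw [ZMod.natCast_eq_zero_iff] at h4
        have := Nat.le_of_dvd one_pos h4
        omega
      refine ⟨{g}, {g + d}, ?_, ?_, ?_, ?_, ?_⟩
      · rw [Finset.disjoint_singleton]
        exact hgd
      · rintro x (hx | hx)
        · rw [Finset.mem_singleton] at hx
          rw [hx]
          exact p1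
        · rw [Finset.mem_singleton] at hx
          rw [hx]
          exact q1
      · simp only [Finset.mem_singleton]
        exact p2
      · simp only [Finset.mem_singleton]
        exact q2
      · simp only [Finset.mem_singleton]
        have e1 : L.filter (fun i => 1 - w i ≤ 0) = L.filter (fun i => 1 ≤ w i) :=
          Finset.filter_congr fun i _ => by constructor <;> intro h <;> omega
        rw [e1] at q3
        have k1 := (counts H).1
        omega
    · left
      push Not at h2
      exact typeR H' (fun i hi => by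
        have := h2 i hi
        show 0 ≤ 1 - w i
        omega)
  · left
    push Not at h1
    exact typeR H (fun i hi => by
      have := h1 i hi
      omega)

end Pool.Agent.H621.ZM.RigidGood
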