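import Pool.Agent.H621.ZM.Spec2

/-!
Zero-sum matchings: the case `s = 3`, `n = 8` (helper295, proof by helper621).
-/

set_option autoImplicit false

namespace Pool.Agent.H621.ZM.Small3

open Finset Pool.Agent.H621.ZM

variable {V : Type} [Fintype V] [DecidableEq V]

/-! ### Arithmetic in `ZMod 3` -/

lemma z1 : ∀ a b e X : ZMod 3, a ≠ b → e ≠ a → e ≠ b → X + a + b ≠ 0 → X = a ∨ X = b := by
  decide

lemma z2 : ∀ a b e X : ZMod 3, a ≠ b → e ≠ a → e ≠ b → (X = a ∨ X = b) → e + X + b ≠ 0 →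
    X = b := by
  decide

lemma z3 : ∀ b : ZMod 3, b + b + b = 0 := by decide

lemma z4 : ∀ a b e X : ZMod 3, a ≠ b → e ≠ a → e ≠ b → X + b + b ≠ 0 → e + X + b ≠ 0 →
    X = e := by
  decide

lemma z5 : ∀ a b e X : ZMod 3, a ≠ b → e ≠ a → e ≠ b → (X = a ∨ X = b) → X + e + b ≠ 0 →
    X = b := by
  decide

lemma z6 : ∀ a b X : ZMod 3, a ≠ b → X + b + b ≠ 0 → (∀ e, e ≠ a → e ≠ b → X ≠ e) → X = a := by
  decide

lemma z7 : ∀ l1 l2 l3 l4 : ZMod 3, l1 + l2 + l3 ≠ 0 → l1 + l2 + l4 ≠ 0 → l1 + l3 + l4 ≠ 0 →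
    l2 + l3 + l4 ≠ 0 → (l1 = l2 ∧ l3 = l4 ∧ l1 ≠ l3) ∨ (l1 = l3 ∧ l2 = l4 ∧ l1 ≠ l2) ∨
      (l1 = l4 ∧ l2 = l3 ∧ l1 ≠ l2) := by
  decide

lemma z8 : ∀ a b : ZMod 3, a ≠ b → ∃ e, e ≠ a ∧ e ≠ b := by decide

lemma z9 : ∀ a b X : ZMod 3, a ≠ b → X + a + b ≠ 0 → X = a ∨ X = b := by decide

/-! ### Matchings with three edges -/

/-- no zero-sum matching with three edges -/
def NoZ (G : SimpleGraph V) (c : Sym2 V → ZMod 3) : Prop :=
  ∀ F, IsM G F → F.card = 3 → ∑ e ∈ F, c e ≠ 0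

omit [Fintype V] in
lemma three {G : SimpleGraph V} {c : Sym2 V → ZMod 3} (h : NoZ G c) {v : Fin 8 → V}
    (hv : Function.Injective v) (i1 i2 i3 i4 i5 i6 : Fin 8) (hn : [i1, i2, i3, i4, i5, i6].Nodup)
    (h1 : G.Adj (v i1) (v i2)) (h2 : G.Adj (v i3) (v i4)) (h3 : G.Adj (v i5) (v i6)) :
    c s(v i1, v i2) + c s(v i3, v i4) + c s(v i5, v i6) ≠ 0 := by
  have hn' := hn
  simp only [List.nodup_cons, List.mem_cons, List.not_mem_nil, or_false, not_or, List.nodup_nil,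
    and_true, not_false_eq_true] at hn'
  obtain ⟨⟨n12, n13, n14, n15, n16⟩, ⟨n23, n24, n25, n26⟩, ⟨n34, n35, n36⟩, ⟨n45, n46⟩, n56⟩ := hn'
  have e12 : s(v i1, v i2) ≠ s(v i3, v i4) := by
    intro h4
    rw [Sym2.eq_iff] at h4
    rcases h4 with ⟨h5, -⟩ | ⟨h5, -⟩
    · exact n13 (hv h5)
    · exact n14 (hv h5)
  have e13 : s(v i1, v i2) ≠ s(v i5, v i6) := by
    intro h4
    rw [Sym2.eq_iff] at h4
    rcases h4 with ⟨h5, -⟩ | ⟨h5, -⟩
    · exact n15 (hv h5)
    · exact n16 (hv h5)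
  have e23 : s(v i3, v i4) ≠ s(v i5, v i6) := by
    intro h4
    rw [Sym2.eq_iff] at h4
    rcases h4 with ⟨h5, -⟩ | ⟨h5, -⟩
    · exact n35 (hv h5)
    · exact n36 (hv h5)
  have h5 := h {s(v i1, v i2), s(v i3, v i4), s(v i5, v i6)} ?_ ?_
  · rw [sum_insert, sum_insert, sum_singleton, ← add_assoc] at h5
    · exact h5
    · simpa using e23
    · simp only [mem_insert, mem_singleton, not_or]
      exact ⟨e12, e13⟩
  · constructor
    · intro e he
      simp only [mem_insert, mem_singleton] at he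
      rcases he with rfl | rfl | rfl
      · exact h1
      · exact h2
      · exact h3
    · intro e he f hf hef w hw hw'
      simp only [mem_insert, mem_singleton] at he hf
      rcases he with rfl | rfl | rfl <;> rcases hf with rfl | rfl | rfl
      · exact hef rfl
      · rw [Sym2.mem_iff] at hw hw'
        rcases hw with rfl | rfl <;> rcases hw' with h6 | h6
        · exact n13 (hv h6)
        · exact n14 (hv h6)
        · exact n23 (hv h6)
        · exact n24 (hv h6)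
      · rw [Sym2.mem_iff] at hw hw'
        rcases hw with rfl | rfl <;> rcases hw' with h6 | h6
        · exact n15 (hv h6)
        · exact n16 (hv h6)
        · exact n25 (hv h6)
        · exact n26 (hv h6)
      · rw [Sym2.mem_iff] at hw hw'
        rcases hw with rfl | rfl <;> rcases hw' with h6 | h6
        · exact n13 (hv h6.symm)
        · exact n23 (hv h6.symm)
        · exact n14 (hv h6.symm)
        · exact n24 (hv h6.symm)
      · exact hef rfl
      · rw [Sym2.mem_iff] at hw hw'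
        rcases hw with rfl | rfl <;> rcases hw' with h6 | h6
        · exact n35 (hv h6)
        · exact n36 (hv h6)
        · exact n45 (hv h6)
        · exact n46 (hv h6)
      · rw [Sym2.mem_iff] at hw hw'
        rcases hw with rfl | rfl <;> rcases hw' with h6 | h6
        · exact n15 (hv h6.symm)
        · exact n25 (hv h6.symm)
        · exact n16 (hv h6.symm)
        · exact n26 (hv h6.symm)
      · rw [Sym2.mem_iff] at hw hw'
        rcases hw with rfl | rfl <;> rcases hw' with h6 | h6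
        · exact n35 (hv h6.symm)
        · exact n45 (hv h6.symm)
        · exact n36 (hv h6.symm)
        · exact n46 (hv h6.symm)
      · exact hef rfl
  · rw [card_insert_of_notMem, card_insert_of_notMem, card_singleton]
    · simpa using e23
    · simp only [mem_insert, mem_singleton, not_or]
      exact ⟨e12, e13⟩

/-! ### Counting missing pairs -/

lemma cnt {G : SimpleGraph V} (hm : miss G ≤ 4) {v : Fin 8 → V} (hv : Function.Injective v)
    (S : Finset (Fin 8 × Fin 8)) (hS : ∀ p ∈ S, p.1 < p.2 ∧ ¬ G.Adj (v p.1) (v p.2)) :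
    S.card ≤ 4 := by
  classical
  refine le_trans ?_ hm
  have h1 : (S.image fun p => s(v p.1, v p.2)).card = S.card := by
    apply card_image_of_injOn
    intro p hp q hq h
    simp only at h
    rw [Sym2.eq_iff] at h
    rcases h with ⟨h2, h3⟩ | ⟨h2, h3⟩
    · exact Prod.ext (hv h2) (hv h3)
    · have h4 := (hS p hp).1
      have h5 := (hS q hq).1
      rw [hv h2, hv h3] at h4
      exact absurd h4 (lt_asymm h5)
  rw [← h1, ← Set.ncard_coe_finset]
  apply Set.ncard_le_ncard _ (Set.toFinite _)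
  intro e he
  simp only [coe_image, Set.mem_image, mem_coe] at he
  obtain ⟨p, hp, rfl⟩ := he
  rw [SimpleGraph.mem_edgeSet, SimpleGraph.compl_adj]
  exact ⟨fun h => (hS p hp).1.ne (hv h), (hS p hp).2⟩

/-- the pairs between `{1, 3}` and `{4, 5, 6, 7}` -/
def cross : Finset (Fin 8 × Fin 8) :=
  {(1, 4), (1, 5), (1, 6), (1, 7), (3, 4), (3, 5), (3, 6), (3, 7)}

/-! ### The main lemma -/

section

variable {G : SimpleGraph V} {c : Sym2 V → ZMod 3} (h : NoZ G c) (hm : miss G ≤ 4)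
include h hm

lemma claimI {v : Fin 8 → V} (hv : Function.Injective v)
    (h01 : G.Adj (v 0) (v 1)) (h23 : G.Adj (v 2) (v 3)) (h45 : G.Adj (v 4) (v 5))
    (h67 : G.Adj (v 6) (v 7)) {a b e : ZMod 3} (l01 : c s(v 0, v 1) = a) (l23 : c s(v 2, v 3) = a)
    (l45 : c s(v 4, v 5) = b) (l67 : c s(v 6, v 7) = b) (hab : a ≠ b) (hea : e ≠ a) (heb : e ≠ b)
    (h02 : G.Adj (v 0) (v 2)) : c s(v 0, v 2) ≠ e := by
  intro l02
  have T := three h hv
  have hB : ∀ j ∈ ({4, 5, 6, 7} : Finset (Fin 8)), ∃ k l : Fin 8, G.Adj (v k) (v l) ∧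
      c s(v k, v l) = b ∧ ([0, 1, 2, 3, j, k, l] : List (Fin 8)).Nodup := by
    intro j hj
    simp only [mem_insert, mem_singleton] at hj
    rcases hj with rfl | rfl | rfl | rfl
    · exact ⟨6, 7, h67, l67, by decide⟩
    · exact ⟨6, 7, h67, l67, by decide⟩
    · exact ⟨4, 5, h45, l45, by decide⟩
    · exact ⟨4, 5, h45, l45, by decide⟩
  -- the labels between the two sides
  have f0 : ∀ j ∈ ({4, 5, 6, 7} : Finset (Fin 8)), G.Adj (v 0) (v j) →
      c s(v 0, v j) = a ∨ c s(v 0, v j) = b := by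
    intro j hj hA
    obtain ⟨k, l, hk, lk, hn⟩ := hB j hj
    have := T 0 j 2 3 k l (by
      clear * - hn
      revert j k l
      decide) hA h23 hk
    rw [l23, lk] at this
    exact z1 a b e _ hab hea heb this
  have f2 : ∀ j ∈ ({4, 5, 6, 7} : Finset (Fin 8)), G.Adj (v 2) (v j) →
      c s(v 2, v j) = a ∨ c s(v 2, v j) = b := by
    intro j hj hA
    obtain ⟨k, l, hk, lk, hn⟩ := hB j hj
    have := T 2 j 0 1 k l (by
      clear * - hn
      revert j k l
      decide) hA h01 hk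
    rw [l01, lk] at this
    exact z1 a b e _ hab hea heb this
  have f1 : ∀ j ∈ ({4, 5, 6, 7} : Finset (Fin 8)), G.Adj (v 1) (v j) → c s(v 1, v j) = b := by
    intro j hj hA
    obtain ⟨k, l, hk, lk, hn⟩ := hB j hj
    have h1 := T 1 j 2 3 k l (by
      clear * - hn
      revert j k l
      decide) hA h23 hk
    rw [l23, lk] at h1
    have h2 := T 0 2 1 j k l (by
      clear * - hn
      revert j k l
      decide) h02 hA hk
    rw [l02, lk] at h2
    exact z2 a b e _ hab hea heb (z1 a b e _ hab hea heb h1) h2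
  have f3 : ∀ j ∈ ({4, 5, 6, 7} : Finset (Fin 8)), G.Adj (v 3) (v j) → c s(v 3, v j) = b := by
    intro j hj hA
    obtain ⟨k, l, hk, lk, hn⟩ := hB j hj
    have h1 := T 3 j 0 1 k l (by
      clear * - hn
      revert j k l
      decide) hA h01 hk
    rw [l01, lk] at h1
    have h2 := T 0 2 3 j k l (by
      clear * - hn
      revert j k l
      decide) h02 hA hk
    rw [l02, lk] at h2
    exact z2 a b e _ hab hea heb (z1 a b e _ hab hea heb h1) h2
  -- the four options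
  have O1 : ¬ G.Adj (v 1) (v 4) ∨ ¬ G.Adj (v 3) (v 5) := by
    by_contra hc
    push Not at hc
    have := T 1 4 3 5 6 7 (by decide) hc.1 hc.2 h67
    rw [f1 4 (by decide) hc.1, f3 5 (by decide) hc.2, l67, z3] at this
    exact this rfl
  have O2 : ¬ G.Adj (v 1) (v 5) ∨ ¬ G.Adj (v 3) (v 4) := by
    by_contra hc
    push Not at hc
    have := T 1 5 3 4 6 7 (by decide) hc.1 hc.2 h67
    rw [f1 5 (by decide) hc.1, f3 4 (by decide) hc.2, l67, z3] at this
    exact this rfl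
  have O3 : ¬ G.Adj (v 1) (v 6) ∨ ¬ G.Adj (v 3) (v 7) := by
    by_contra hc
    push Not at hc
    have := T 1 6 3 7 4 5 (by decide) hc.1 hc.2 h45
    rw [f1 6 (by decide) hc.1, f3 7 (by decide) hc.2, l45, z3] at this
    exact this rfl
  have O4 : ¬ G.Adj (v 1) (v 7) ∨ ¬ G.Adj (v 3) (v 6) := by
    by_contra hc
    push Not at hc
    have := T 1 7 3 6 4 5 (by decide) hc.1 hc.2 h45
    rw [f1 7 (by decide) hc.1, f3 6 (by decide) hc.2, l45, z3] at this
    exact this rfl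
  have hS : ∃ S : Finset (Fin 8 × Fin 8), S ⊆ cross ∧ S.card = 4 ∧
      ∀ p ∈ S, ¬ G.Adj (v p.1) (v p.2) := by
    rcases O1 with o1 | o1 <;> rcases O2 with o2 | o2 <;> rcases O3 with o3 | o3 <;>
      rcases O4 with o4 | o4
    · exact ⟨{(1, 4), (1, 5), (1, 6), (1, 7)}, by decide, by decide, by simp [o1, o2, o3, o4]⟩
    · exact ⟨{(1, 4), (1, 5), (1, 6), (3, 6)}, by decide, by decide, by simp [o1, o2, o3, o4]⟩
    · exact ⟨{(1, 4), (1, 5), (3, 7), (1, 7)}, by decide, by decide, by simp [o1, o2, o3, o4]⟩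
    · exact ⟨{(1, 4), (1, 5), (3, 7), (3, 6)}, by decide, by decide, by simp [o1, o2, o3, o4]⟩
    · exact ⟨{(1, 4), (3, 4), (1, 6), (1, 7)}, by decide, by decide, by simp [o1, o2, o3, o4]⟩
    · exact ⟨{(1, 4), (3, 4), (1, 6), (3, 6)}, by decide, by decide, by simp [o1, o2, o3, o4]⟩
    · exact ⟨{(1, 4), (3, 4), (3, 7), (1, 7)}, by decide, by decide, by simp [o1, o2, o3, o4]⟩
    · exact ⟨{(1, 4), (3, 4), (3, 7), (3, 6)}, by decide, by decide, by simp [o1, o2, o3, o4]⟩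
    · exact ⟨{(3, 5), (1, 5), (1, 6), (1, 7)}, by decide, by decide, by simp [o1, o2, o3, o4]⟩
    · exact ⟨{(3, 5), (1, 5), (1, 6), (3, 6)}, by decide, by decide, by simp [o1, o2, o3, o4]⟩
    · exact ⟨{(3, 5), (1, 5), (3, 7), (1, 7)}, by decide, by decide, by simp [o1, o2, o3, o4]⟩
    · exact ⟨{(3, 5), (1, 5), (3, 7), (3, 6)}, by decide, by decide, by simp [o1, o2, o3, o4]⟩
    · exact ⟨{(3, 5), (3, 4), (1, 6), (1, 7)}, by decide, by decide, by simp [o1, o2, o3, o4]⟩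
    · exact ⟨{(3, 5), (3, 4), (1, 6), (3, 6)}, by decide, by decide, by simp [o1, o2, o3, o4]⟩
    · exact ⟨{(3, 5), (3, 4), (3, 7), (1, 7)}, by decide, by decide, by simp [o1, o2, o3, o4]⟩
    · exact ⟨{(3, 5), (3, 4), (3, 7), (3, 6)}, by decide, by decide, by simp [o1, o2, o3, o4]⟩
  obtain ⟨S, hSc, hS4, hSm⟩ := hS
  have hlt : ∀ p ∈ cross, p.1 < p.2 := by decide
  -- all other pairs are adjacent
  have adj : ∀ p : Fin 8 × Fin 8, p.1 < p.2 → p ∉ cross → G.Adj (v p.1) (v p.2) := by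
    intro p hp hpc
    by_contra hA
    have h1 := cnt hm hv (insert p S) (by
      intro q hq
      rw [mem_insert] at hq
      rcases hq with rfl | hq
      · exact ⟨hp, hA⟩
      · exact ⟨hlt q (hSc hq), hSm q hq⟩)
    rw [card_insert_of_notMem fun h2 => hpc (hSc h2), hS4] at h1
    omega
  -- one of the cross pairs is adjacent
  obtain ⟨p, hp, hpA⟩ : ∃ p ∈ cross, G.Adj (v p.1) (v p.2) := by
    by_contra hc
    push Not at hc
    have h1 := cnt hm hv cross fun q hq => ⟨hlt q hq, hc q hq⟩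
    revert h1
    decide
  have a13 : G.Adj (v 1) (v 3) := adj (1, 3) (by decide) (by decide)
  have l13 : c s(v 1, v 3) = e := by
    have h1 := T 1 3 4 5 6 7 (by decide) a13 h45 h67
    rw [l45, l67] at h1
    have h2 := T 0 2 1 3 4 5 (by decide) h02 a13 h45
    rw [l02, l45] at h2
    exact z4 a b e _ hab hea heb h1 h2
  have a0 : ∀ j ∈ ({4, 5, 6, 7} : Finset (Fin 8)), G.Adj (v 0) (v j) := by
    intro j hj
    refine adj (0, j) ?_ ?_
    · revert j
      decide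
    · revert j
      decide
  have a2 : ∀ j ∈ ({4, 5, 6, 7} : Finset (Fin 8)), G.Adj (v 2) (v j) := by
    intro j hj
    refine adj (2, j) ?_ ?_
    · revert j
      decide
    · revert j
      decide
  have b0 : ∀ j ∈ ({4, 5, 6, 7} : Finset (Fin 8)), c s(v 0, v j) = b := by
    intro j hj
    obtain ⟨k, l, hk, lk, hn⟩ := hB j hj
    have h1 := T 0 j 1 3 k l (by
      clear * - hn
      revert j k l
      decide) (a0 j hj) a13 hk
    rw [l13, lk] at h1
    exact z5 a b e _ hab hea heb (f0 j hj (a0 j hj)) h1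
  have b2 : ∀ j ∈ ({4, 5, 6, 7} : Finset (Fin 8)), c s(v 2, v j) = b := by
    intro j hj
    obtain ⟨k, l, hk, lk, hn⟩ := hB j hj
    have h1 := T 2 j 1 3 k l (by
      clear * - hn
      revert j k l
      decide) (a2 j hj) a13 hk
    rw [l13, lk] at h1
    exact z5 a b e _ hab hea heb (f2 j hj (a2 j hj)) h1
  -- three edges with label `b`
  have hlast : c s(v p.1, v p.2) = b ∧ ∃ k l : Fin 8, k ∈ ({4, 5, 6, 7} : Finset (Fin 8)) ∧
      l ∈ ({4, 5, 6, 7} : Finset (Fin 8)) ∧ [p.1, p.2, 0, k, 2, l].Nodup := by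
    have h1 : (p.1 = 1 ∨ p.1 = 3) ∧ p.2 ∈ ({4, 5, 6, 7} : Finset (Fin 8)) := by
      clear * - hp
      revert p
      decide
    constructor
    · rcases h1.1 with h2 | h2
      · rw [h2] at hpA ⊢
        exact f1 _ h1.2 hpA
      · rw [h2] at hpA ⊢
        exact f3 _ h1.2 hpA
    · clear * - hp
      revert p
      decide
  obtain ⟨lp, k, l, hk, hl, hn⟩ := hlast
  have := T p.1 p.2 0 k 2 l hn hpA (a0 k hk) (a2 l hl)
  rw [lp, b0 k hk, b2 l hl, z3] at this
  exact this rfl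

/-- the standard position -/
lemma claimA {v : Fin 8 → V} (hv : Function.Injective v)
    (h01 : G.Adj (v 0) (v 1)) (h23 : G.Adj (v 2) (v 3)) (h45 : G.Adj (v 4) (v 5))
    (h67 : G.Adj (v 6) (v 7)) {a b : ZMod 3} (l01 : c s(v 0, v 1) = a) (l23 : c s(v 2, v 3) = a)
    (l45 : c s(v 4, v 5) = b) (l67 : c s(v 6, v 7) = b) (hab : a ≠ b)
    (h02 : G.Adj (v 0) (v 2)) : c s(v 0, v 2) = a := by
  have h1 := three h hv 0 2 4 5 6 7 (by decide) h02 h45 h67
  rw [l45, l67] at h1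
  exact z6 a b _ hab h1 fun e hea heb =>
    claimI h hm hv h01 h23 h45 h67 l01 l23 l45 l67 hab hea heb h02

lemma claimS {v : Fin 8 → V} (hv : Function.Injective v)
    (h01 : G.Adj (v 0) (v 1)) (h23 : G.Adj (v 2) (v 3)) (h45 : G.Adj (v 4) (v 5))
    (h67 : G.Adj (v 6) (v 7)) {a b : ZMod 3} (l01 : c s(v 0, v 1) = a) (l23 : c s(v 2, v 3) = a)
    (l45 : c s(v 4, v 5) = b) (l67 : c s(v 6, v 7) = b) (hab : a ≠ b) :
    ∀ i ∈ ({0, 1, 2, 3} : Finset (Fin 8)), ∀ j ∈ ({0, 1, 2, 3} : Finset (Fin 8)),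
      G.Adj (v i) (v j) → c s(v i, v j) = a := by
  have c02 : G.Adj (v 0) (v 2) → c s(v 0, v 2) = a :=
    claimA h hm hv h01 h23 h45 h67 l01 l23 l45 l67 hab
  have c12 : G.Adj (v 1) (v 2) → c s(v 1, v 2) = a :=
    claimA (v := v ∘ ![1, 0, 2, 3, 4, 5, 6, 7]) h hm (hv.comp (by decide)) h01.symm h23 h45 h67
      (by rw [← l01, Sym2.eq_swap]; rfl) l23 l45 l67 hab
  have c03 : G.Adj (v 0) (v 3) → c s(v 0, v 3) = a :=
    claimA (v := v ∘ ![0, 1, 3, 2, 4, 5, 6, 7]) h hm (hv.comp (by decide)) h01 h23.symm h45 h67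
      l01 (by rw [← l23, Sym2.eq_swap]; rfl) l45 l67 hab
  have c13 : G.Adj (v 1) (v 3) → c s(v 1, v 3) = a :=
    claimA (v := v ∘ ![1, 0, 3, 2, 4, 5, 6, 7]) h hm (hv.comp (by decide)) h01.symm h23.symm h45 h67
      (by rw [← l01, Sym2.eq_swap]; rfl) (by rw [← l23, Sym2.eq_swap]; rfl) l45 l67 hab
  intro i hi j hj
  simp only [mem_insert, mem_singleton] at hi hj
  rcases hi with rfl | rfl | rfl | rfl <;> rcases hj with rfl | rfl | rfl | rfl <;> intro hA
  · exact absurd rfl hA.ne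
  · exact l01
  · exact c02 hA
  · exact c03 hA
  · rw [Sym2.eq_swap]
    exact l01
  · exact absurd rfl hA.ne
  · exact c12 hA
  · exact c13 hA
  · rw [Sym2.eq_swap]
    exact c02 hA.symm
  · rw [Sym2.eq_swap]
    exact c12 hA.symm
  · exact absurd rfl hA.ne
  · exact l23
  · rw [Sym2.eq_swap]
    exact c03 hA.symm
  · rw [Sym2.eq_swap]
    exact c13 hA.symm
  · rw [Sym2.eq_swap]
    exact l23
  · exact absurd rfl hA.ne

lemma claimAll {v : Fin 8 → V} (hv : Function.Injective v)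
    (h01 : G.Adj (v 0) (v 1)) (h23 : G.Adj (v 2) (v 3)) (h45 : G.Adj (v 4) (v 5))
    (h67 : G.Adj (v 6) (v 7)) {a b : ZMod 3} (l01 : c s(v 0, v 1) = a) (l23 : c s(v 2, v 3) = a)
    (l45 : c s(v 4, v 5) = b) (l67 : c s(v 6, v 7) = b) (hab : a ≠ b) (i j : Fin 8)
    (hA : G.Adj (v i) (v j)) : c s(v i, v j) = a ∨ c s(v i, v j) = b := by
  have T := three h hv
  have hcr : ∀ i ∈ ({0, 1, 2, 3} : Finset (Fin 8)), ∀ j ∈ ({4, 5, 6, 7} : Finset (Fin 8)),
      G.Adj (v i) (v j) → c s(v i, v j) = a ∨ c s(v i, v j) = b := by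
    intro i hi j hj hA
    have hB : ∃ k l : Fin 8, G.Adj (v k) (v l) ∧
        c s(v k, v l) = b ∧ ([0, 1, 2, 3, j, k, l] : List (Fin 8)).Nodup := by
      simp only [mem_insert, mem_singleton] at hj
      rcases hj with rfl | rfl | rfl | rfl
      · exact ⟨6, 7, h67, l67, by decide⟩
      · exact ⟨6, 7, h67, l67, by decide⟩
      · exact ⟨4, 5, h45, l45, by decide⟩
      · exact ⟨4, 5, h45, l45, by decide⟩
    obtain ⟨k, l, hk, lk, hn⟩ := hB
    simp only [mem_insert, mem_singleton] at hi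
    rcases hi with rfl | rfl | rfl | rfl
    · have := T 0 j 2 3 k l (by
        clear * - hn
        revert j k l
        decide) hA h23 hk
      rw [l23, lk] at this
      exact z9 a b _ hab this
    · have := T 1 j 2 3 k l (by
        clear * - hn
        revert j k l
        decide) hA h23 hk
      rw [l23, lk] at this
      exact z9 a b _ hab this
    · have := T 2 j 0 1 k l (by
        clear * - hn
        revert j k l
        decide) hA h01 hk
      rw [l01, lk] at this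
      exact z9 a b _ hab this
    · have := T 3 j 0 1 k l (by
        clear * - hn
        revert j k l
        decide) hA h01 hk
      rw [l01, lk] at this
      exact z9 a b _ hab this
  have hcase : ∀ i : Fin 8, i ∈ ({0, 1, 2, 3} : Finset (Fin 8)) ∨
      i ∈ ({4, 5, 6, 7} : Finset (Fin 8)) := by decide
  rcases hcase i with hi | hi <;> rcases hcase j with hj | hj
  · exact Or.inl (claimS h hm hv h01 h23 h45 h67 l01 l23 l45 l67 hab i hi j hj hA)
  · exact hcr i hi j hj hA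
  · rw [Sym2.eq_swap]
    exact hcr j hj i hi hA.symm
  · right
    have h1 := claimS (v := v ∘ ![4, 5, 6, 7, 0, 1, 2, 3]) h hm (hv.comp (by decide))
      h45 h67 h01 h23 l45 l67 l01 l23 hab.symm
    have h2 : ∀ i ∈ ({4, 5, 6, 7} : Finset (Fin 8)), ∃ i' ∈ ({0, 1, 2, 3} : Finset (Fin 8)),
        (![4, 5, 6, 7, 0, 1, 2, 3] : Fin 8 → Fin 8) i' = i := by decide
    obtain ⟨i', hi', rfl⟩ := h2 i hi
    obtain ⟨j', hj', rfl⟩ := h2 j hj
    exact h1 i' hi' j' hj' hA

/-- no perfect matching in the standard position -/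
lemma std (hT : S_TwoCol) (hV : Fintype.card V = 8) {v : Fin 8 → V} (hv : Function.Injective v)
    (h01 : G.Adj (v 0) (v 1)) (h23 : G.Adj (v 2) (v 3)) (h45 : G.Adj (v 4) (v 5))
    (h67 : G.Adj (v 6) (v 7)) {a b : ZMod 3} (l01 : c s(v 0, v 1) = a) (l23 : c s(v 2, v 3) = a)
    (l45 : c s(v 4, v 5) = b) (l67 : c s(v 6, v 7) = b) (hab : a ≠ b) : False := by
  have hsur : Function.Surjective v :=
    ((Fintype.bijective_iff_injective_and_card v).2 ⟨hv, by rw [hV]; rfl⟩).2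
  have hall : ∀ x y, G.Adj x y → c s(x, y) = a ∨ c s(x, y) = b := by
    intro x y hA
    obtain ⟨i, rfl⟩ := hsur x
    obtain ⟨j, rfl⟩ := hsur y
    exact claimAll h hm hv h01 h23 h45 h67 l01 l23 l45 l67 hab i j hA
  obtain ⟨Gl, hGl⟩ : ∃ Gl : ZMod 3 → SimpleGraph V, ∀ z x y, (Gl z).Adj x y ↔
      G.Adj x y ∧ c s(x, y) = z := by
    refine ⟨fun z => ⟨fun x y => G.Adj x y ∧ c s(x, y) = z, ⟨fun x y hxy => ?_⟩,
      ⟨fun x hx => hx.1.ne rfl⟩⟩, fun z x y => Iff.rfl⟩
    exact ⟨hxy.1.symm, by rw [Sym2.eq_swap]; exact hxy.2⟩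
  have hno : ∀ z F, IsM (Gl z) F → F.card < 3 := by
    intro z F hF
    by_contra hc
    push Not at hc
    obtain ⟨F', hF', h3⟩ := exists_subset_card_eq hc
    have hz : ∀ e ∈ F', e ∈ G.edgeSet ∧ c e = z := by
      intro e he
      have h1 := hF.1 e (hF' he)
      revert h1
      refine Sym2.ind (fun x y => ?_) e
      intro h1
      rw [SimpleGraph.mem_edgeSet, hGl] at h1
      exact h1
    refine h F' ⟨fun e he => (hz e he).1, fun e he f hf => hF.2 e (hF' he) f (hF' hf)⟩ h3 ?_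
    rw [sum_congr rfl fun e he => (hz e he).2, sum_const, h3]
    have h3z : ∀ z : ZMod 3, 3 • z = 0 := by decide
    exact h3z z
  have h1 := hT V G (Gl a) (Gl b) 3 1 (by norm_num) (by rw [hV]) (by
    intro x y hA
    rw [SimpleGraph.sup_adj, hGl, hGl]
    rcases hall x y hA with h2 | h2
    · exact Or.inl ⟨hA, h2⟩
    · exact Or.inr ⟨hA, h2⟩) (hno a) (hno b)
  have h2 : mm 3 1 = 5 := by decide
  omega

end

theorem small3 (hN : S_NearU) (hT : S_TwoCol) : S_Small3 := by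
  intro V _ _ G c hV hm
  by_contra hc
  push Not at hc
  have h : NoZ G c := fun F hF h3 => hc F hF h3
  obtain ⟨F, hF, h4, -⟩ := hN V G univ 4 1 (by rw [card_univ, hV]) le_rfl (by
    rw [card_univ, hV]
    have h1 : {p : V × V | p.1 ∈ (univ : Finset V) ∧ p.2 ∈ (univ : Finset V) ∧ p.1 ≠ p.2 ∧
        ¬ G.Adj p.1 p.2} ⊆ (Quot.out '' Gᶜ.edgeSet) ∪ (Prod.swap '' (Quot.out '' Gᶜ.edgeSet)) := by
      rintro ⟨x, y⟩ ⟨-, -, hxy, hA⟩
      have h2 : s(x, y) ∈ Gᶜ.edgeSet := by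
        rw [SimpleGraph.mem_edgeSet, SimpleGraph.compl_adj]
        exact ⟨hxy, hA⟩
      have h3 : s((Quot.out s(x, y)).1, (Quot.out s(x, y)).2) = s(x, y) := Quot.out_eq s(x, y)
      obtain ⟨⟨x', y'⟩, hq⟩ : ∃ q : V × V, q = Quot.out s(x, y) := ⟨_, rfl⟩
      rw [← hq] at h3
      rw [Sym2.eq_iff] at h3
      rcases h3 with ⟨h3, h4⟩ | ⟨h3, h4⟩
      · left
        exact ⟨s(x, y), h2, hq.symm.trans (Prod.ext h3 h4)⟩
      · right
        exact ⟨(x', y'), ⟨s(x, y), h2, hq.symm⟩, Prod.ext h4 h3⟩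
    have h2 := Set.ncard_le_ncard h1 (Set.toFinite _)
    have h3 := Set.ncard_union_le (Quot.out '' Gᶜ.edgeSet) (Prod.swap '' (Quot.out '' Gᶜ.edgeSet))
    have h4 := Set.ncard_image_le (f := (Quot.out : Sym2 V → V × V)) (Set.toFinite Gᶜ.edgeSet)
    have h5 := Set.ncard_image_le (f := (Prod.swap : V × V → V × V))
      (Set.toFinite (Quot.out '' Gᶜ.edgeSet))
    have h6 : Gᶜ.edgeSet.ncard ≤ 4 := hm
    omega)
  -- the vertices
  obtain ⟨e1, F1, he1, rfl, hF1⟩ := card_eq_succ.1 h4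
  obtain ⟨e2, e3, e4, h23, h24, h34, rfl⟩ := card_eq_three.1 hF1
  simp only [mem_insert, mem_singleton, not_or] at he1
  obtain ⟨h12, h13, h14⟩ := he1
  obtain ⟨hE, hD⟩ := hF
  induction e1 using Sym2.ind with | _ x0 x1 =>
  induction e2 using Sym2.ind with | _ x2 x3 =>
  induction e3 using Sym2.ind with | _ x4 x5 =>
  induction e4 using Sym2.ind with | _ x6 x7 =>
  have a01 : G.Adj x0 x1 := hE s(x0, x1) (by simp)
  have a23 : G.Adj x2 x3 := hE s(x2, x3) (by simp)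
  have a45 : G.Adj x4 x5 := hE s(x4, x5) (by simp)
  have a67 : G.Adj x6 x7 := hE s(x6, x7) (by simp)
  have d12 := hD s(x0, x1) (by simp) s(x2, x3) (by simp) h12
  have d13 := hD s(x0, x1) (by simp) s(x4, x5) (by simp) h13
  have d14 := hD s(x0, x1) (by simp) s(x6, x7) (by simp) h14
  have d23 := hD s(x2, x3) (by simp) s(x4, x5) (by simp) h23
  have d24 := hD s(x2, x3) (by simp) s(x6, x7) (by simp) h24
  have d34 := hD s(x4, x5) (by simp) s(x6, x7) (by simp) h34
  simp only [Sym2.mem_iff, forall_eq_or_imp, forall_eq, not_or] at d12 d13 d14 d23 d24 d34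
  have n01 := a01.ne
  have n23 := a23.ne
  have n45 := a45.ne
  have n67 := a67.ne
  obtain ⟨⟨n02, n03⟩, ⟨n12, n13⟩⟩ := d12
  obtain ⟨⟨n04, n05⟩, ⟨n14, n15⟩⟩ := d13
  obtain ⟨⟨n06, n07⟩, ⟨n16, n17⟩⟩ := d14
  obtain ⟨⟨n24, n25⟩, ⟨n34, n35⟩⟩ := d23
  obtain ⟨⟨n26, n27⟩, ⟨n36, n37⟩⟩ := d24
  obtain ⟨⟨n46, n47⟩, ⟨n56, n57⟩⟩ := d34
  have hv : Function.Injective ![x0, x1, x2, x3, x4, x5, x6, x7] := by
    have h1 : [x0, x1, x2, x3, x4, x5, x6, x7].Nodup := by
      simp only [List.nodup_cons, List.mem_cons, List.not_mem_nil, or_false, not_or, List.nodup_nil,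
        and_true, not_false_eq_true]
      exact ⟨⟨n01, n02, n03, n04, n05, n06, n07⟩, ⟨n12, n13, n14, n15, n16, n17⟩,
        ⟨n23, n24, n25, n26, n27⟩, ⟨n34, n35, n36, n37⟩, ⟨n45, n46, n47⟩, ⟨n56, n57⟩, n67⟩
    have h2 := List.nodup_iff_injective_get.1 h1
    have h3 : ∀ i, ![x0, x1, x2, x3, x4, x5, x6, x7] i = [x0, x1, x2, x3, x4, x5, x6, x7].get i := by
      intro i
      fin_cases i <;> rfl
    intro i j hij
    rw [h3, h3] at hij
    exact h2 hij
  obtain ⟨v, hvd⟩ : ∃ v : Fin 8 → V, v = ![x0, x1, x2, x3, x4, x5, x6, x7] := ⟨_, rfl⟩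
  rw [← hvd] at hv
  have b01 : G.Adj (v 0) (v 1) := by rw [hvd]; exact a01
  have b23 : G.Adj (v 2) (v 3) := by rw [hvd]; exact a23
  have b45 : G.Adj (v 4) (v 5) := by rw [hvd]; exact a45
  have b67 : G.Adj (v 6) (v 7) := by rw [hvd]; exact a67
  have T := three h hv
  rcases z7 (c s(v 0, v 1)) (c s(v 2, v 3)) (c s(v 4, v 5)) (c s(v 6, v 7))
    (T 0 1 2 3 4 5 (by decide) b01 b23 b45) (T 0 1 2 3 6 7 (by decide) b01 b23 b67)
    (T 0 1 4 5 6 7 (by decide) b01 b45 b67) (T 2 3 4 5 6 7 (by decide) b23 b45 b67) with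
    ⟨h1, h2, h3⟩ | ⟨h1, h2, h3⟩ | ⟨h1, h2, h3⟩
  · exact std h hm hT hV hv b01 b23 b45 b67 rfl h1.symm rfl h2.symm h3
  · exact std (v := v ∘ ![0, 1, 4, 5, 2, 3, 6, 7]) h hm hT hV (hv.comp (by decide)) b01 b45 b23 b67
      rfl h1.symm rfl h2.symm h3
  · exact std (v := v ∘ ![0, 1, 6, 7, 2, 3, 4, 5]) h hm hT hV (hv.comp (by decide)) b01 b67 b23 b45
      rfl h1.symm rfl h2.symm h3

end Pool.Agent.H621.ZM.Small3
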