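import Pool.Agent.H621.ZM.Spec

/-!
Zero-sum matchings: exchanging two terms of a sequence with a good lift.
-/

set_option autoImplicit false

namespace Pool.Agent.H621.ZM.Swap2

open Finset Pool.Agent.H621.ZM

section Basic

variable {ι : Type} [DecidableEq ι]

/-- number of the zeros -/
def uu (w : ι → ℤ) (L : Finset ι) : ℤ := ((L.filter (fun j => w j = 0)).card : ℤ)
/-- number of the ones -/
def vv (w : ι → ℤ) (L : Finset ι) : ℤ := ((L.filter (fun j => w j = 1)).card : ℤ)

theorem uu_eq (w : ι → ℤ) (L : Finset ι) : uu w L = ∑ i ∈ L, (if w i = 0 then (1 : ℤ) else 0) := by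
  unfold uu
  rw [Finset.card_filter]
  push_cast
  rfl

theorem vv_eq (w : ι → ℤ) (L : Finset ι) : vv w L = ∑ i ∈ L, (if w i = 1 then (1 : ℤ) else 0) := by
  unfold vv
  rw [Finset.card_filter]
  push_cast
  rfl

theorem card_eq (L : Finset ι) : (L.card : ℤ) = ∑ _i ∈ L, (1 : ℤ) := by
  simp

/-- the basic inequality for the ones -/
theorem vv_ge (w : ι → ℤ) (L : Finset ι) (p : ι) (hp : p ∈ L) :
    ((if w p = 1 then (1 : ℤ) else 0) - 2 + 2 * max (1 - w p) 0 + max (w p) 0) +
      2 * L.card ≤ vv w L + 2 * aa w L + bb w L := by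
  have h1 : ∑ i ∈ L, ((if w i = 1 then (1 : ℤ) else 0) - 2 + 2 * max (1 - w i) 0 + max (w i) 0) =
      vv w L + 2 * aa w L + bb w L - 2 * L.card := by
    rw [vv_eq, aa, bb, card_eq, Finset.mul_sum, Finset.mul_sum, ← Finset.sum_add_distrib,
      ← Finset.sum_add_distrib, ← Finset.sum_sub_distrib]
    exact Finset.sum_congr rfl fun i _ => by ring
  have h2 := Finset.single_le_sum (f := fun i => (if w i = 1 then (1 : ℤ) else 0) - 2 +
    2 * max (1 - w i) 0 + max (w i) 0) (s := L) (fun i _ => by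
      show (0 : ℤ) ≤ (if w i = 1 then (1 : ℤ) else 0) - 2 + 2 * max (1 - w i) 0 + max (w i) 0
      split_ifs <;> omega) hp
  rw [h1] at h2
  linarith

/-- the basic inequality for the zeros -/
theorem uu_ge (w : ι → ℤ) (L : Finset ι) (p : ι) (hp : p ∈ L) :
    ((if w p = 0 then (1 : ℤ) else 0) - 2 + 2 * max (w p) 0 + max (1 - w p) 0) +
      2 * L.card ≤ uu w L + 2 * bb w L + aa w L := by
  have h1 : ∑ i ∈ L, ((if w i = 0 then (1 : ℤ) else 0) - 2 + 2 * max (w i) 0 + max (1 - w i) 0) =
      uu w L + 2 * bb w L + aa w L - 2 * L.card := by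
    rw [uu_eq, aa, bb, card_eq, Finset.mul_sum, Finset.mul_sum, ← Finset.sum_add_distrib,
      ← Finset.sum_add_distrib, ← Finset.sum_sub_distrib]
    exact Finset.sum_congr rfl fun i _ => by ring
  have h2 := Finset.single_le_sum (f := fun i => (if w i = 0 then (1 : ℤ) else 0) - 2 +
    2 * max (w i) 0 + max (1 - w i) 0) (s := L) (fun i _ => by
      show (0 : ℤ) ≤ (if w i = 0 then (1 : ℤ) else 0) - 2 + 2 * max (w i) 0 + max (1 - w i) 0
      split_ifs <;> omega) hp
  rw [h1] at h2
  linarith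

theorem aa_insert (w : ι → ℤ) {L : Finset ι} {i : ι} (hi : i ∉ L) :
    aa w (insert i L) = max (1 - w i) 0 + aa w L := by
  unfold aa; rw [Finset.sum_insert hi]

theorem bb_insert (w : ι → ℤ) {L : Finset ι} {i : ι} (hi : i ∉ L) :
    bb w (insert i L) = max (w i) 0 + bb w L := by
  unfold bb; rw [Finset.sum_insert hi]

theorem uu_insert_le (w : ι → ℤ) {L : Finset ι} {i : ι} (hi : i ∉ L) :
    uu w (insert i L) ≤ 1 + uu w L := by
  rw [uu_eq, uu_eq, Finset.sum_insert hi]
  split_ifs <;> omega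

theorem vv_insert_le (w : ι → ℤ) {L : Finset ι} {i : ι} (hi : i ∉ L) :
    vv w (insert i L) ≤ 1 + vv w L := by
  rw [vv_eq, vv_eq, Finset.sum_insert hi]
  split_ifs <;> omega

theorem card_nonpos_le (w : ι → ℤ) (L : Finset ι) :
    ((L.filter (fun i => w i ≤ 0)).card : ℤ) ≤ aa w L := by
  rw [Finset.card_filter, aa]
  push_cast
  refine Finset.sum_le_sum fun i _ => ?_
  split_ifs <;> omega

theorem card_pos_le (w : ι → ℤ) (L : Finset ι) :
    ((L.filter (fun i => 1 ≤ w i)).card : ℤ) ≤ bb w L := by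
  rw [Finset.card_filter, bb]
  push_cast
  refine Finset.sum_le_sum fun i _ => ?_
  split_ifs <;> omega

theorem card_le (w : ι → ℤ) (L : Finset ι) : (L.card : ℤ) ≤ aa w L + bb w L := by
  rw [card_eq, aa, bb, ← Finset.sum_add_distrib]
  refine Finset.sum_le_sum fun i _ => ?_
  omega

/-- if the non-positive terms are as many as `aa` they are all zero -/
theorem nonneg_of_card (w : ι → ℤ) (L : Finset ι)
    (h : aa w L ≤ ((L.filter (fun i => w i ≤ 0)).card : ℤ)) : ∀ i ∈ L, 0 ≤ w i := by
  intro i hi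
  have h1 : ∑ i ∈ L, (max (1 - w i) 0 - (if w i ≤ 0 then (1 : ℤ) else 0)) =
      aa w L - ((L.filter (fun i => w i ≤ 0)).card : ℤ) := by
    rw [Finset.sum_sub_distrib, aa, Finset.card_filter]
    push_cast
    rfl
  have h2 := Finset.single_le_sum (f := fun i => max (1 - w i) 0 -
    (if w i ≤ 0 then (1 : ℤ) else 0)) (s := L) (fun i _ => by
      show (0 : ℤ) ≤ max (1 - w i) 0 - (if w i ≤ 0 then (1 : ℤ) else 0)
      split_ifs <;> omega) hi
  rw [h1] at h2
  split_ifs at h2 <;> omega

/-- the special terms are small -/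
def Sp (w : ι → ℤ) (L : Finset ι) : Prop :=
  (∀ p ∈ L, 2 ≤ w p → w p ≤ vv w L + 1 ∧ 2 * w p ≤ uu w L + 1) ∧
    ∀ m ∈ L, w m ≤ -1 → -w m ≤ uu w L ∧ 1 - 2 * w m ≤ vv w L

theorem sp_of_good (w : ι → ℤ) (L0 : Finset ι) (i i' : ι) (s t : ℤ) (hi : i ∉ insert i' L0)
    (hi' : i' ∉ L0) (hcard : (L0.card : ℤ) + 3 = s + t) (hst : s + 2 ≤ 2 * t)
    (ha : aa w (insert i (insert i' L0)) + 1 ≤ s) (hb : bb w (insert i (insert i' L0)) + 1 ≤ s) :
    Sp w L0 := by
  have hu : uu w (insert i (insert i' L0)) ≤ 2 + uu w L0 := by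
    have h1 := uu_insert_le w hi
    have h2 := uu_insert_le w hi'
    linarith
  have hv : vv w (insert i (insert i' L0)) ≤ 2 + vv w L0 := by
    have h1 := vv_insert_le w hi
    have h2 := vv_insert_le w hi'
    linarith
  have hc : ((insert i (insert i' L0)).card : ℤ) = L0.card + 2 := by
    rw [Finset.card_insert_of_notMem hi, Finset.card_insert_of_notMem hi']
    push_cast
    ring
  constructor
  · intro p hp h2
    have hp' : p ∈ insert i (insert i' L0) := by simp [hp]
    have h3 := vv_ge w _ p hp'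
    have h4 := uu_ge w _ p hp'
    rw [if_neg (by omega)] at h3 h4
    rw [hc] at h3 h4
    omega
  · intro p hp h2
    have hp' : p ∈ insert i (insert i' L0) := by simp [hp]
    have h3 := vv_ge w _ p hp'
    have h4 := uu_ge w _ p hp'
    rw [if_neg (by omega)] at h3 h4
    rw [hc] at h3 h4
    omega

/-- the interval of the sums, for a set with small special terms -/
theorem interval (hI : S_Interval) (w : ι → ℤ) (L : Finset ι) (k : ℕ)
    (hP : ((L.filter (fun i => w i ≤ 0)).card : ℤ) ≤ k)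
    (hQ : ((L.filter (fun i => 1 ≤ w i)).card : ℤ) ≤ k)
    (h1 : aa w L + bb w L ≤ L.card + k) (h2 : aa w L + bb w L + k ≤ 2 * L.card)
    (h3 : ∀ p ∈ L, 2 ≤ w p → w p ≤ vv w L + 1 ∧ w p ≤ uu w L + 2)
    (h4 : ∀ p ∈ L, w p ≤ -1 → -w p ≤ vv w L + 1 ∧ -w p ≤ uu w L) (x : ℤ)
    (hx : k - aa w L ≤ x) (hx' : x ≤ bb w L) : ∃ T, T ⊆ L ∧ T.card = k ∧ ∑ i ∈ T, w i = x :=
  hI ι L w k (by exact_mod_cast hP) (by exact_mod_cast hQ) h1 h2 h3 h4 x hx hx'

/-- both new terms are positive -/
theorem case2 (hI : S_Interval) (w : ι → ℤ) (L0 : Finset ι) (s t : ℕ) (X X' : ℤ) (hs : 3 ≤ s)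
    (hcard : L0.card + 3 = s + t) (hst : s + 2 ≤ 2 * t) (ha : aa w L0 + 1 ≤ s)
    (hab : aa w L0 + bb w L0 + 4 ≤ 2 * s) (hSp : Sp w L0) (hX : 1 ≤ X) (_hX' : 1 ≤ X')
    (hXb : X + bb w L0 + 1 ≤ s) (hXb' : X' + bb w L0 + 1 ≤ s)
    (hno : ∀ T, T ⊆ L0 → T.card + 2 = s → ∑ i ∈ T, w i ≠ s - (X + X')) :
    bb w L0 + X + X' + 1 ≤ s := by
  by_contra hcon
  have hQ0 := card_pos_le w L0
  have hP0 := card_nonpos_le w L0
  have hc0 := card_le w L0
  have hcz : (L0.card : ℤ) + 3 = s + t := by exact_mod_cast hcard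
  have hstz : (s : ℤ) + 2 ≤ 2 * t := by exact_mod_cast hst
  obtain ⟨k, rfl⟩ : ∃ k, s = k + 2 := ⟨s - 2, by omega⟩
  push_cast at *
  have hfil : ((L0.filter (fun i => w i ≤ 0)).card : ℤ) + (L0.filter (fun i => 1 ≤ w i)).card =
      L0.card := by
    have h1 := Finset.card_filter_add_card_filter_not (s := L0) (fun i => w i ≤ 0)
    have h2 : L0.filter (fun i => ¬ w i ≤ 0) = L0.filter (fun i => 1 ≤ w i) := by
      refine Finset.filter_congr fun i _ => ?_
      omega
    rw [h2] at h1
    exact_mod_cast h1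
  by_cases hP : ((L0.filter (fun i => w i ≤ 0)).card : ℤ) ≤ k
  · obtain ⟨T, hT, hTc, hTs⟩ := interval hI w L0 k hP (by omega) (by omega) (by omega)
      (fun p hp h => ⟨(hSp.1 p hp h).1, by have := (hSp.1 p hp h).2; omega⟩)
      (fun p hp h => ⟨by have := (hSp.2 p hp h).2; omega, (hSp.2 p hp h).1⟩)
      (k + 2 - (X + X')) (by omega) (by omega)
    exact hno T hT (by omega) hTs
  · have hnn := nonneg_of_card w L0 (by omega)
    have hex : ∃ z ∈ L0, w z ≤ 0 := by
      by_contra hne
      push Not at hne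
      have : L0.filter (fun i => w i ≤ 0) = ∅ := by
        rw [Finset.filter_eq_empty_iff]
        intro i hi
        have := hne i hi
        omega
      rw [this] at hP
      simp at hP
    obtain ⟨z, hz, hz0⟩ := hex
    have hwz : w z = 0 := le_antisymm hz0 (hnn z hz)
    have hins : insert z (L0.erase z) = L0 := Finset.insert_erase hz
    have hzn : z ∉ L0.erase z := Finset.notMem_erase z L0
    have e1 := aa_insert w hzn
    have e2 := bb_insert w hzn
    have e3 := uu_insert_le w hzn
    have e4 : vv w (insert z (L0.erase z)) = vv w (L0.erase z) := by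
      rw [vv_eq, vv_eq, Finset.sum_insert hzn, if_neg (by omega), zero_add]
    have e5 : ((L0.filter (fun i => w i ≤ 0)).card : ℤ) =
        1 + ((L0.erase z).filter (fun i => w i ≤ 0)).card := by
      conv_lhs => rw [← hins]
      rw [Finset.filter_insert, if_pos hz0, Finset.card_insert_of_notMem (by simp)]
      push_cast
      ring
    have e6 : ((L0.erase z).card : ℤ) + 1 = L0.card := by
      exact_mod_cast Finset.card_erase_add_one hz
    have e7 : (((L0.erase z).filter (fun i => 1 ≤ w i)).card : ℤ) ≤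
        (L0.filter (fun i => 1 ≤ w i)).card := by
      exact_mod_cast Finset.card_le_card (Finset.filter_subset_filter _ (Finset.erase_subset z L0))
    rw [hins] at e1 e2 e3 e4
    rw [hwz] at e1 e2
    simp only [sub_zero] at e1
    obtain ⟨T, hT, hTc, hTs⟩ := interval hI w (L0.erase z) k (by omega) (by omega) (by omega)
      (by omega)
      (fun p hp h => by
        have h5 := hSp.1 p (Finset.mem_of_mem_erase hp) h
        exact ⟨by omega, by omega⟩)
      (fun p hp h => absurd (hnn p (Finset.mem_of_mem_erase hp)) (by omega))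
      (k + 2 - (X + X')) (by omega) (by omega)
    exact hno T (hT.trans (Finset.erase_subset z L0)) (by omega) hTs

end Basic

/-- lifts in an interval of length `s` -/
theorem lift_exists (s : ℕ) (hs : 0 < s) (g d y : ZMod s) (hd : IsUnit d) (b : ℤ) :
    ∃ X : ℤ, -b ≤ X ∧ X + b + 1 ≤ s ∧ y = g + d * (X : ZMod s) := by
  have : NeZero s := ⟨hs.ne'⟩
  obtain ⟨e, rfl⟩ := hd
  set z : ZMod s := (e⁻¹ : (ZMod s)ˣ) * (y - g) + (b : ZMod s) with hz
  refine ⟨-b + (z.val : ℤ), by omega, by have := ZMod.val_lt z; omega, ?_⟩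
  push_cast
  rw [ZMod.natCast_zmod_val, hz]
  have h1 : (e : ZMod s) * ((e⁻¹ : (ZMod s)ˣ) : ZMod s) = 1 := Units.mul_inv e
  have h2 : (e : ZMod s) * (-(b : ZMod s) + (((e⁻¹ : (ZMod s)ˣ) : ZMod s) * (y - g) + b)) =
      ((e : ZMod s) * ((e⁻¹ : (ZMod s)ˣ) : ZMod s)) * (y - g) := by ring
  rw [h2, h1]
  ring

/-- the sum of the lifts of `s` terms is not divisible by `s` -/
theorem zf_sum {ι : Type} {s : ℕ} (c : ι → ZMod s) (L : Finset ι) (h : ZF c L) (g d : ZMod s)
    (w : ι → ℤ) (hw : ∀ i ∈ L, c i = g + d * (w i : ZMod s)) (T : Finset ι) (hT : T ⊆ L)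
    (hc : T.card = s) : ((∑ i ∈ T, w i : ℤ) : ZMod s) ≠ 0 := by
  intro h0
  refine h T hT hc ?_
  rw [Finset.sum_congr rfl fun i hi => hw i (hT hi), Finset.sum_add_distrib, Finset.sum_const, hc,
    nsmul_eq_mul, CharP.cast_eq_zero, zero_mul, zero_add, ← Finset.mul_sum]
  push_cast at h0
  rw [h0, mul_zero]

theorem swap2 (hI : S_Interval) : S_Swap2 := by
  intro ι _ s t c g d w L0 i i' j j' hs hd hi hi' hii hj hj' hjj hcard hst hG hZF
  obtain ⟨hGc, hGa, hGb⟩ := hG
  have hiL : i ∉ insert i' L0 := by simp [hi, hii]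
  have hcz : (L0.card : ℤ) + 3 = s + t := by exact_mod_cast hcard
  have hstz : (s : ℤ) + 2 ≤ 2 * t := by exact_mod_cast hst
  have hsz : (3 : ℤ) ≤ s := by exact_mod_cast hs
  have hSp := sp_of_good w L0 i i' s t hiL hi' hcz hstz hGa hGb
  have hGa' := hGa
  have hGb' := hGb
  rw [aa_insert w hiL, aa_insert w hi'] at hGa'
  rw [bb_insert w hiL, bb_insert w hi'] at hGb'
  have hQ0 := card_pos_le w L0
  have hP0 := card_nonpos_le w L0
  have hc0 := card_le w L0
  have ha : aa w L0 + 1 ≤ s := by omega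
  have hb : bb w L0 + 1 ≤ s := by omega
  have hab : aa w L0 + bb w L0 + 4 ≤ 2 * s := by omega
  -- the new lifts
  have hlift : ∀ y : ι, y ∉ L0 → y ∈ insert j (insert j' L0) → ∃ X : ℤ,
      aa w L0 + 2 - s ≤ X ∧ X + bb w L0 + 1 ≤ s ∧ c y = g + d * (X : ZMod s) := by
    intro y hy hyL
    obtain ⟨X, h1, h2, h3⟩ := lift_exists s (by omega) g d (c y) hd (bb w L0)
    refine ⟨X, ?_, h2, h3⟩
    by_contra hcon
    obtain ⟨T, hT, hTc, hTs⟩ := interval hI w L0 (s - 1) (by omega) (by omega) (by omega)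
      (by omega)
      (fun p hp h => ⟨(hSp.1 p hp h).1, by have := (hSp.1 p hp h).2; omega⟩)
      (fun p hp h => ⟨by have := (hSp.2 p hp h).2; omega, (hSp.2 p hp h).1⟩)
      (-X) (by omega) (by omega)
    have hyT : y ∉ T := fun h => hy (hT h)
    have hsub : insert y T ⊆ insert j (insert j' L0) := by
      intro a ha'
      rcases Finset.mem_insert.1 ha' with rfl | h
      · exact hyL
      · simp [hT h]
    refine hZF (insert y T) hsub (by rw [Finset.card_insert_of_notMem hyT]; omega) ?_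
    rw [Finset.sum_insert hyT, h3, Finset.sum_congr rfl fun a ha' => hGc a (by simp [hT ha']),
      Finset.sum_add_distrib, Finset.sum_const, hTc, ← Finset.mul_sum]
    have h5 : ∑ a ∈ T, (w a : ZMod s) = -(X : ZMod s) := by
      have h6 := congrArg (fun n : ℤ => (n : ZMod s)) hTs
      push_cast at h6
      exact h6
    rw [h5]
    have h7 : ((s - 1 : ℕ) : ZMod s) + 1 = 0 := by
      rw [Nat.cast_sub (show 1 ≤ s by omega), CharP.cast_eq_zero (ZMod s) s, Nat.cast_one]
      ring
    rw [nsmul_eq_mul]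
    linear_combination g * h7
  obtain ⟨X, hX1, hX2, hX3⟩ := hlift j hj (by simp)
  obtain ⟨X', hX1', hX2', hX3'⟩ := hlift j' hj' (by simp)
  set w' : ι → ℤ := fun k => if k = j then X else if k = j' then X' else w k with hw'
  have hw'j : w' j = X := by simp [hw']
  have hw'j' : w' j' = X' := by simp [hw', Ne.symm hjj]
  have hw'0 : ∀ k ∈ L0, w' k = w k := by
    intro k hk
    have h1 : k ≠ j := fun h => hj (h ▸ hk)
    have h2 : k ≠ j' := fun h => hj' (h ▸ hk)
    simp [hw', h1, h2]
  have hjL : j ∉ insert j' L0 := by simp [hj, hjj]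
  have hcw : ∀ k ∈ insert j (insert j' L0), c k = g + d * (w' k : ZMod s) := by
    intro k hk
    rcases Finset.mem_insert.1 hk with rfl | hk
    · rw [hw'j, hX3]
    rcases Finset.mem_insert.1 hk with rfl | hk
    · rw [hw'j', hX3']
    · rw [hw'0 k hk]
      exact hGc k (by simp [hk])
  have haa0 : aa w' L0 = aa w L0 := Finset.sum_congr rfl fun k hk => by rw [hw'0 k hk]
  have hbb0 : bb w' L0 = bb w L0 := Finset.sum_congr rfl fun k hk => by rw [hw'0 k hk]
  have hno : ∀ T, T ⊆ L0 → T.card + 2 = s → ∀ m : ℤ, ∑ a ∈ T, w a ≠ s * m - (X + X') := by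
    intro T hT hTc m hTs
    have hj'T : j' ∉ T := fun h => hj' (hT h)
    have hjT : j ∉ insert j' T := by
      simp only [Finset.mem_insert, not_or]
      exact ⟨hjj, fun h => hj (hT h)⟩
    refine zf_sum c _ hZF g d w' hcw (insert j (insert j' T))
      (Finset.insert_subset_insert _ (Finset.insert_subset_insert _ hT))
      (by rw [Finset.card_insert_of_notMem hjT, Finset.card_insert_of_notMem hj'T]; omega) ?_
    rw [Finset.sum_insert hjT, Finset.sum_insert hj'T, hw'j, hw'j',
      Finset.sum_congr rfl fun a ha' => hw'0 a (hT ha'), hTs]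
    have h9 : X + (X' + ((s : ℤ) * m - (X + X'))) = s * m := by ring
    rw [h9]
    push_cast
    rw [CharP.cast_eq_zero, zero_mul]
  refine ⟨w', ⟨hcw, ?_, ?_⟩, hw'0⟩
  · rw [aa_insert w' hjL, aa_insert w' hj', hw'j, hw'j', haa0]
    rcases le_or_gt X 0 with h1 | h1
    · rcases le_or_gt X' 0 with h2 | h2
      · -- mirror
        have hmir := case2 hI (fun k => 1 - w k) L0 s t (1 - X) (1 - X') hs hcard hst
        have e1 : aa (fun k => 1 - w k) L0 = bb w L0 :=
          Finset.sum_congr rfl fun k _ => by simp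
        have e2 : bb (fun k => 1 - w k) L0 = aa w L0 :=
          Finset.sum_congr rfl fun k _ => by simp
        have e3 : uu (fun k => 1 - w k) L0 = vv w L0 := by
          rw [uu_eq, vv_eq]
          refine Finset.sum_congr rfl fun k _ => ?_
          by_cases h : w k = 1
          · rw [if_pos h, if_pos (by omega)]
          · rw [if_neg h, if_neg (by omega)]
        have e4 : vv (fun k => 1 - w k) L0 = uu w L0 := by
          rw [uu_eq, vv_eq]
          refine Finset.sum_congr rfl fun k _ => ?_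
          by_cases h : w k = 0
          · rw [if_pos h, if_pos (by omega)]
          · rw [if_neg h, if_neg (by omega)]
        rw [e1, e2] at hmir
        have hSp' : Sp (fun k => 1 - w k) L0 := by
          constructor
          · intro p hp h
            have h' : 2 ≤ 1 - w p := h
            rw [e3, e4]
            show 1 - w p ≤ uu w L0 + 1 ∧ 2 * (1 - w p) ≤ vv w L0 + 1
            have := hSp.2 p hp (by omega)
            omega
          · intro p hp h
            have h' : 1 - w p ≤ -1 := h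
            rw [e3, e4]
            show -(1 - w p) ≤ vv w L0 ∧ 1 - 2 * (1 - w p) ≤ uu w L0
            have := hSp.1 p hp (by omega)
            omega
        have := hmir hb (by omega) hSp' (by omega) (by omega) (by omega) (by omega) (by
          intro T hT hTc hTs
          refine hno T hT hTc 0 ?_
          rw [Finset.sum_sub_distrib] at hTs
          simp only [Finset.sum_const, nsmul_eq_mul, mul_one] at hTs
          have : (T.card : ℤ) + 2 = s := by exact_mod_cast hTc
          omega)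
        omega
      · omega
    · omega
  · rw [bb_insert w' hjL, bb_insert w' hj', hw'j, hw'j', hbb0]
    rcases le_or_gt X 0 with h1 | h1
    · omega
    · rcases le_or_gt X' 0 with h2 | h2
      · omega
      · have := case2 hI w L0 s t X X' hs hcard hst ha hab hSp (by omega) (by omega) hX2 hX2'
          (by
            intro T hT hTc hTs
            exact hno T hT hTc 1 (by rw [mul_one]; exact hTs))
        omega

end Pool.Agent.H621.ZM.Swap2
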