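import Pool.Agent.H621.ZM.Spec2
import Pool.Agent.H621.ZM.Swap2

/-!
Zero-sum matchings: exchanging two terms of a sequence with a good lift, for `s + 1 = 2 t`.
-/

set_option autoImplicit false
set_option linter.unusedSectionVars false

namespace Pool.Agent.H621.ZM.Swap2b

open Finset Pool.Agent.H621.ZM Pool.Agent.H621.ZM.Swap2

section Basic

variable {ι : Type} [DecidableEq ι]

/-- the basic inequality for the ones, with two terms -/
theorem vv_ge2 (w : ι → ℤ) (L : Finset ι) (p m : ι) (hp : p ∈ L) (hm : m ∈ L) (hpm : p ≠ m) :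
    ((if w p = 1 then (1 : ℤ) else 0) - 2 + 2 * max (1 - w p) 0 + max (w p) 0) +
    ((if w m = 1 then (1 : ℤ) else 0) - 2 + 2 * max (1 - w m) 0 + max (w m) 0) +
      2 * L.card ≤ vv w L + 2 * aa w L + bb w L := by
  have h1 : ∑ i ∈ L, ((if w i = 1 then (1 : ℤ) else 0) - 2 + 2 * max (1 - w i) 0 + max (w i) 0) =
      vv w L + 2 * aa w L + bb w L - 2 * L.card := by
    rw [vv_eq, aa, bb, card_eq, Finset.mul_sum, Finset.mul_sum, ← Finset.sum_add_distrib,
      ← Finset.sum_add_distrib, ← Finset.sum_sub_distrib]
    exact Finset.sum_congr rfl fun i _ => by ring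
  have hsub : ({p, m} : Finset ι) ⊆ L := by
    intro a ha
    rcases Finset.mem_insert.1 ha with h | h
    · rw [h]; exact hp
    · rw [Finset.mem_singleton.1 h]; exact hm
  have h2 := Finset.sum_le_sum_of_subset_of_nonneg (f := fun i => (if w i = 1 then (1 : ℤ) else 0) -
    2 + 2 * max (1 - w i) 0 + max (w i) 0) hsub (fun i _ _ => by
      show (0 : ℤ) ≤ (if w i = 1 then (1 : ℤ) else 0) - 2 + 2 * max (1 - w i) 0 + max (w i) 0
      split_ifs <;> omega)
  rw [Finset.sum_pair hpm, h1] at h2
  linarith

/-- the basic inequality for the zeros, with two terms -/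
theorem uu_ge2 (w : ι → ℤ) (L : Finset ι) (p m : ι) (hp : p ∈ L) (hm : m ∈ L) (hpm : p ≠ m) :
    ((if w p = 0 then (1 : ℤ) else 0) - 2 + 2 * max (w p) 0 + max (1 - w p) 0) +
    ((if w m = 0 then (1 : ℤ) else 0) - 2 + 2 * max (w m) 0 + max (1 - w m) 0) +
      2 * L.card ≤ uu w L + 2 * bb w L + aa w L := by
  have h1 : ∑ i ∈ L, ((if w i = 0 then (1 : ℤ) else 0) - 2 + 2 * max (w i) 0 + max (1 - w i) 0) =
      uu w L + 2 * bb w L + aa w L - 2 * L.card := by
    rw [uu_eq, aa, bb, card_eq, Finset.mul_sum, Finset.mul_sum, ← Finset.sum_add_distrib,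
      ← Finset.sum_add_distrib, ← Finset.sum_sub_distrib]
    exact Finset.sum_congr rfl fun i _ => by ring
  have hsub : ({p, m} : Finset ι) ⊆ L := by
    intro a ha
    rcases Finset.mem_insert.1 ha with h | h
    · rw [h]; exact hp
    · rw [Finset.mem_singleton.1 h]; exact hm
  have h2 := Finset.sum_le_sum_of_subset_of_nonneg (f := fun i => (if w i = 0 then (1 : ℤ) else 0) -
    2 + 2 * max (w i) 0 + max (1 - w i) 0) hsub (fun i _ _ => by
      show (0 : ℤ) ≤ (if w i = 0 then (1 : ℤ) else 0) - 2 + 2 * max (w i) 0 + max (1 - w i) 0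
      split_ifs <;> omega)
  rw [Finset.sum_pair hpm, h1] at h2
  linarith

/-- if `aa + bb` is the number of terms then all terms are `0` or `1` -/
theorem zero_one_of_card (w : ι → ℤ) (L : Finset ι) (h : aa w L + bb w L ≤ (L.card : ℤ)) :
    ∀ i ∈ L, w i = 0 ∨ w i = 1 := by
  intro i hi
  have h1 : ∑ i ∈ L, (max (1 - w i) 0 + max (w i) 0 - 1) = aa w L + bb w L - (L.card : ℤ) := by
    rw [Finset.sum_sub_distrib, Finset.sum_add_distrib, aa, bb, card_eq]
  have h2 := Finset.single_le_sum (f := fun i => max (1 - w i) 0 + max (w i) 0 - 1) (s := L)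
    (fun i _ => by
      show (0 : ℤ) ≤ max (1 - w i) 0 + max (w i) 0 - 1
      omega) hi
  rw [h1] at h2
  have h3 : max (1 - w i) 0 + max (w i) 0 - 1 ≤ 0 := by
    refine le_trans h2 ?_
    linarith
  omega

/-- the special terms are small -/
def Sq (w : ι → ℤ) (L : Finset ι) : Prop :=
  (∀ p ∈ L, 2 ≤ w p → w p ≤ vv w L + 1 ∧ 2 * w p ≤ uu w L + 2) ∧
    ∀ m ∈ L, w m ≤ -1 → -w m ≤ uu w L ∧ -(2 * w m) ≤ vv w L

theorem sq_of_good (w : ι → ℤ) (L0 : Finset ι) (i i' : ι) (s t : ℤ) (hi : i ∉ insert i' L0)
    (hi' : i' ∉ L0) (hcard : (L0.card : ℤ) + 3 = s + t) (hst : s + 1 = 2 * t)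
    (ha : aa w (insert i (insert i' L0)) + 1 ≤ s) (hb : bb w (insert i (insert i' L0)) + 1 ≤ s)
    (hneg : aa w (insert i (insert i' L0)) + 1 = s → bb w (insert i (insert i' L0)) + 1 = s →
      ∃ m ∈ insert i (insert i' L0), w m ≤ -1)
    (hpos : aa w (insert i (insert i' L0)) + 1 = s → bb w (insert i (insert i' L0)) + 1 = s →
      ∃ m ∈ insert i (insert i' L0), 2 ≤ w m) :
    Sq w L0 := by
  have hu : uu w (insert i (insert i' L0)) ≤ 2 + uu w L0 := by
    have h1 := uu_insert_le w hi
    have h2 := uu_insert_le w hi'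
    linarith
  have hv : vv w (insert i (insert i' L0)) ≤ 2 + vv w L0 := by
    have h1 := vv_insert_le w hi
    have h2 := vv_insert_le w hi'
    linarith
  have hc : ((insert i (insert i' L0)).card : ℤ) = L0.card + 2 := by
    rw [Finset.card_insert_of_notMem hi, Finset.card_insert_of_notMem hi']
    push_cast
    ring
  by_cases hT : aa w (insert i (insert i' L0)) + 1 = s ∧ bb w (insert i (insert i' L0)) + 1 = s
  · obtain ⟨m, hm, hm1⟩ := hneg hT.1 hT.2
    obtain ⟨n, hn, hn1⟩ := hpos hT.1 hT.2
    constructor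
    · intro p hp h2
      have hp' : p ∈ insert i (insert i' L0) := by simp [hp]
      have hpm : p ≠ m := fun h => by rw [h] at h2; omega
      have h3 := vv_ge2 w _ p m hp' hm hpm
      have h4 := uu_ge w _ p hp'
      rw [if_neg (by omega)] at h4
      rw [if_neg (by omega), if_neg (by omega)] at h3
      rw [hc] at h3 h4
      omega
    · intro p hp h2
      have hp' : p ∈ insert i (insert i' L0) := by simp [hp]
      have hpn : p ≠ n := fun h => by rw [h] at h2; omega
      have h3 := vv_ge w _ p hp'
      have h4 := uu_ge2 w _ p n hp' hn hpn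
      rw [if_neg (by omega)] at h3
      rw [if_neg (by omega), if_neg (by omega)] at h4
      rw [hc] at h3 h4
      omega
  · constructor
    · intro p hp h2
      have hp' : p ∈ insert i (insert i' L0) := by simp [hp]
      have h3 := vv_ge w _ p hp'
      have h4 := uu_ge w _ p hp'
      rw [if_neg (by omega)] at h3 h4
      rw [hc] at h3 h4
      omega
    · intro p hp h2
      have hp' : p ∈ insert i (insert i' L0) := by simp [hp]
      have h3 := vv_ge w _ p hp'
      have h4 := uu_ge w _ p hp'
      rw [if_neg (by omega)] at h3 h4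
      rw [hc] at h3 h4
      omega

/-- both new terms are positive -/
theorem case2b (hI : S_Interval) (w : ι → ℤ) (L0 : Finset ι) (s t : ℕ) (X X' : ℤ) (hs : 3 ≤ s)
    (hcard : L0.card + 3 = s + t) (hst : s + 1 = 2 * t) (ha : aa w L0 + 1 ≤ s)
    (hab : aa w L0 + bb w L0 + 4 ≤ 2 * s) (hSp : Sq w L0) (hX : 1 ≤ X) (_hX' : 1 ≤ X')
    (hXb : X + bb w L0 + 1 ≤ s) (hXb' : X' + bb w L0 + 1 ≤ s)
    (hno : ∀ T, T ⊆ L0 → T.card + 2 = s → ∑ i ∈ T, w i ≠ s - (X + X'))
    (hR : X = t → X' = t → (∀ i ∈ L0, w i = 0 ∨ w i = 1) →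
      (((L0.filter (fun i => w i ≤ 0)).card : ℤ) + 1 = s) → False) :
    bb w L0 + X + X' + 1 ≤ s := by
  by_contra hcon
  have hQ0 := card_pos_le w L0
  have hP0 := card_nonpos_le w L0
  have hc0 := card_le w L0
  have hcz : (L0.card : ℤ) + 3 = s + t := by exact_mod_cast hcard
  have hstz : (s : ℤ) + 1 = 2 * t := by exact_mod_cast hst
  obtain ⟨k, rfl⟩ : ∃ k, s = k + 2 := ⟨s - 2, by omega⟩
  push_cast at *
  have hfil : ((L0.filter (fun i => w i ≤ 0)).card : ℤ) + (L0.filter (fun i => 1 ≤ w i)).card =
      L0.card := by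
    have h1 := Finset.card_filter_add_card_filter_not (s := L0) (fun i => w i ≤ 0)
    have h2 : L0.filter (fun i => ¬ w i ≤ 0) = L0.filter (fun i => 1 ≤ w i) := by
      refine Finset.filter_congr fun i _ => ?_
      omega
    rw [h2] at h1
    exact_mod_cast h1
  by_cases hP : ((L0.filter (fun i => w i ≤ 0)).card : ℤ) ≤ k
  · obtain ⟨T, hT, hTc, hTs⟩ := interval hI w L0 k hP (by omega) (by omega) (by omega)
      (fun p hp h => ⟨(hSp.1 p hp h).1, by have := (hSp.1 p hp h).2; omega⟩)
      (fun p hp h => ⟨by have := (hSp.2 p hp h).2; omega, (hSp.2 p hp h).1⟩)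
      (k + 2 - (X + X')) (by omega) (by omega)
    exact hno T hT (by omega) hTs
  · have hnn := nonneg_of_card w L0 (by omega)
    by_cases hx0 : X + X' ≤ k + 2
    · have hex : ∃ z ∈ L0, w z ≤ 0 := by
        by_contra hne
        push Not at hne
        have : L0.filter (fun i => w i ≤ 0) = ∅ := by
          rw [Finset.filter_eq_empty_iff]
          intro i hi
          have := hne i hi
          omega
        rw [this] at hP
        simp at hP
      obtain ⟨z, hz, hz0⟩ := hex
      have hwz : w z = 0 := le_antisymm hz0 (hnn z hz)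
      have hins : insert z (L0.erase z) = L0 := Finset.insert_erase hz
      have hzn : z ∉ L0.erase z := Finset.notMem_erase z L0
      have e1 := aa_insert w hzn
      have e2 := bb_insert w hzn
      have e3 := uu_insert_le w hzn
      have e4 : vv w (insert z (L0.erase z)) = vv w (L0.erase z) := by
        rw [vv_eq, vv_eq, Finset.sum_insert hzn, if_neg (by omega), zero_add]
      have e5 : ((L0.filter (fun i => w i ≤ 0)).card : ℤ) =
          1 + ((L0.erase z).filter (fun i => w i ≤ 0)).card := by
        conv_lhs => rw [← hins]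
        rw [Finset.filter_insert, if_pos hz0, Finset.card_insert_of_notMem (by simp)]
        push_cast
        ring
      have e6 : ((L0.erase z).card : ℤ) + 1 = L0.card := by
        exact_mod_cast Finset.card_erase_add_one hz
      have e7 : (((L0.erase z).filter (fun i => 1 ≤ w i)).card : ℤ) ≤
          (L0.filter (fun i => 1 ≤ w i)).card := by
        exact_mod_cast Finset.card_le_card
          (Finset.filter_subset_filter _ (Finset.erase_subset z L0))
      rw [hins] at e1 e2 e3 e4
      rw [hwz] at e1 e2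
      simp only [sub_zero] at e1
      obtain ⟨T, hT, hTc, hTs⟩ := interval hI w (L0.erase z) k (by omega) (by omega) (by omega)
        (by omega)
        (fun p hp h => by
          have h5 := hSp.1 p (Finset.mem_of_mem_erase hp) h
          exact ⟨by omega, by omega⟩)
        (fun p hp h => absurd (hnn p (Finset.mem_of_mem_erase hp)) (by omega))
        (k + 2 - (X + X')) (by omega) (by omega)
      exact hno T (hT.trans (Finset.erase_subset z L0)) (by omega) hTs
    · refine hR (by omega) (by omega) ?_ (by omega)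
      exact zero_one_of_card w L0 (by omega)

end Basic

section Rigid

variable {ι : Type} [DecidableEq ι]

theorem eq_iff {s : ℕ} (g d : ZMod s) (hd : IsUnit d) (n : ℤ) (hn : 0 ≤ n)
    (hns : n < s) : g + d * (n : ZMod s) = g ↔ n = 0 := by
  constructor
  · intro h
    have h1 : d * (n : ZMod s) = 0 := by linear_combination h
    have h2 : (n : ZMod s) = 0 := (hd.mul_right_eq_zero).1 h1
    have h3 : (s : ℤ) ∣ n := (ZMod.intCast_zmod_eq_zero_iff_dvd n s).1 h2
    exact Int.eq_zero_of_dvd_of_nonneg_of_lt hn hns h3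
  · rintro rfl
    simp

/-- the subset sums -/
theorem full_of {s : ℕ} (hs : 3 ≤ s) (c : ι → ZMod s) (g d : ZMod s) (hd : IsUnit d) (w : ι → ℤ)
    (L : Finset ι) (hc : ∀ i ∈ L, c i = g + d * (w i : ZMod s))
    (h : ∀ X : ℤ, 0 ≤ X → X < s → ∃ T, T ⊆ L ∧ ((∑ i ∈ T, w i : ℤ) : ZMod s) = (X : ZMod s)) :
    Full c g (L.filter (fun i => c i ≠ g)) := by
  intro y
  obtain ⟨X, hX1, hX2, hX3⟩ := lift_exists s (by omega) 0 d y hd 0
  obtain ⟨T, hT, hTs⟩ := h X (by omega) (by omega)
  refine ⟨T.filter (fun i => c i ≠ g), Finset.filter_subset_filter _ hT, ?_⟩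
  rw [Finset.sum_filter_of_ne (fun i _ hi => sub_ne_zero.1 hi),
    Finset.sum_congr rfl fun i hi => show c i - g = d * (w i : ZMod s) by
      rw [hc i (hT hi)]; ring, ← Finset.mul_sum, hX3, zero_add, ← hTs]
  push_cast
  rfl

theorem typeR_good (hI : S_Interval) {s : ℕ} (t : ℕ) (c : ι → ZMod s) (g d : ZMod s) (w : ι → ℤ)
    (L : Finset ι) (hs : 3 ≤ s) (hst : s + 1 = 2 * t) (hd : IsUnit d) (hcard : L.card + 1 = s + t)
    (hc : ∀ i ∈ L, c i = g + d * (w i : ZMod s)) (ha : aa w L + 1 = s) (hb : bb w L + 1 = s)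
    (hnn : ∀ i ∈ L, 0 ≤ w i) : TypeR c L := by
  have hcz : (L.card : ℤ) + 1 = s + t := by exact_mod_cast hcard
  have hstz : (s : ℤ) + 1 = 2 * t := by exact_mod_cast hst
  have hsz : (3 : ℤ) ≤ s := by exact_mod_cast hs
  have hQ0 := card_pos_le w L
  have hP0 := card_nonpos_le w L
  have hlt : ∀ i ∈ L, w i < s := by
    intro i hi
    have h1 := Finset.single_le_sum (f := fun i => max (w i) 0) (s := L)
      (fun i _ => le_max_right _ _) hi
    have h2 : max (w i) 0 ≤ bb w L := h1
    omega
  have hiff : ∀ i ∈ L, (c i = g ↔ w i = 0) := by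
    intro i hi
    rw [hc i hi]
    exact eq_iff g d hd (w i) (hnn i hi) (hlt i hi)
  refine ⟨g, ?_, ?_⟩
  · have h1 : L.filter (fun i => c i = g) = L.filter (fun i => w i = 0) :=
      Finset.filter_congr fun i hi => hiff i hi
    have h2 : aa w L = ((L.filter (fun i => w i = 0)).card : ℤ) := by
      rw [Finset.card_filter, aa]
      push_cast
      refine Finset.sum_congr rfl fun i hi => ?_
      have := hnn i hi
      split_ifs <;> omega
    rw [h1]
    omega
  · refine full_of hs c g d hd w L hc ?_
    intro X hX1 hX2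
    obtain ⟨T, hT, -, hTs⟩ := interval hI w L (s - 1) (by omega) (by omega) (by omega)
      (by omega)
      (fun p hp h => by
        have h3 := vv_ge w _ p hp
        have h4 := uu_ge w _ p hp
        rw [if_neg (by omega)] at h3 h4
        omega)
      (fun p hp h => absurd (hnn p hp) (by omega))
      X (by omega) (by omega)
    exact ⟨T, hT, by rw [hTs]⟩

theorem typeR_good' (hI : S_Interval) {s : ℕ} (t : ℕ) (c : ι → ZMod s) (g d : ZMod s) (w : ι → ℤ)
    (L : Finset ι) (hs : 3 ≤ s) (hst : s + 1 = 2 * t) (hd : IsUnit d) (hcard : L.card + 1 = s + t)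
    (hc : ∀ i ∈ L, c i = g + d * (w i : ZMod s)) (ha : aa w L + 1 = s) (hb : bb w L + 1 = s)
    (hnn : ∀ i ∈ L, w i ≤ 1) : TypeR c L := by
  have e1 : aa (fun k => 1 - w k) L = bb w L :=
    Finset.sum_congr rfl fun k _ => by simp
  have e2 : bb (fun k => 1 - w k) L = aa w L :=
    Finset.sum_congr rfl fun k _ => by simp
  refine typeR_good hI t c (g + d) (-d) (fun k => 1 - w k) L hs hst hd.neg hcard ?_
    (by rw [e1]; exact hb) (by rw [e2]; exact ha) (fun i hi => by
      have := hnn i hi
      show 0 ≤ 1 - w i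
      omega)
  intro i hi
  rw [hc i hi]
  push_cast
  ring

theorem typeR_special {s : ℕ} (t : ℕ) (c : ι → ZMod s) (g d : ZMod s) (w : ι → ℤ)
    (L0 : Finset ι) (j j' : ι) (hs : 3 ≤ s) (hst : s + 1 = 2 * t) (hd : IsUnit d) (hj : j ∉ L0)
    (hj' : j' ∉ L0) (hjj : j ≠ j') (hcard : L0.card + 3 = s + t)
    (hc : ∀ i ∈ insert j (insert j' L0), c i = g + d * (w i : ZMod s))
    (h01 : ∀ i ∈ L0, w i = 0 ∨ w i = 1) (hz : ((L0.filter (fun i => w i ≤ 0)).card : ℤ) + 1 = s)
    (hwj : w j = t) (hwj' : w j' = t) : TypeR c (insert j (insert j' L0)) := by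
  have hcz : (L0.card : ℤ) + 3 = s + t := by exact_mod_cast hcard
  have hstz : (s : ℤ) + 1 = 2 * t := by exact_mod_cast hst
  have hsz : (3 : ℤ) ≤ s := by exact_mod_cast hs
  have hjL : j ∉ insert j' L0 := by simp [hj, hjj]
  have hiff : ∀ i ∈ insert j (insert j' L0), (c i = g ↔ w i = 0) := by
    intro i hi
    rw [hc i hi]
    have hw : 0 ≤ w i ∧ w i < s := by
      rcases Finset.mem_insert.1 hi with rfl | hi
      · omega
      rcases Finset.mem_insert.1 hi with rfl | hi
      · omega
      · rcases h01 i hi with h | h <;> omega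
    exact eq_iff g d hd (w i) hw.1 hw.2
  have hfil : ((L0.filter (fun i => w i ≤ 0)).card : ℤ) + (L0.filter (fun i => w i = 1)).card =
      L0.card := by
    have h1 := Finset.card_filter_add_card_filter_not (s := L0) (fun i => w i ≤ 0)
    have h2 : L0.filter (fun i => ¬ w i ≤ 0) = L0.filter (fun i => w i = 1) := by
      refine Finset.filter_congr fun i hi => ?_
      rcases h01 i hi with h | h <;> omega
    rw [h2] at h1
    exact_mod_cast h1
  have hone : ∀ T, T ⊆ L0.filter (fun i => w i = 1) → ∑ i ∈ T, w i = (T.card : ℤ) := by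
    intro T hT
    rw [Finset.sum_congr rfl fun i hi => (Finset.mem_filter.1 (hT hi)).2]
    simp
  have hsub0 : L0.filter (fun i => w i = 1) ⊆ L0 := Finset.filter_subset _ _
  refine ⟨g, ?_, ?_⟩
  · have h1 : (insert j (insert j' L0)).filter (fun i => c i = g) =
        L0.filter (fun i => w i ≤ 0) := by
      rw [Finset.filter_congr hiff, Finset.filter_insert, if_neg (by omega), Finset.filter_insert,
        if_neg (by omega)]
      refine Finset.filter_congr fun i hi => ?_
      rcases h01 i hi with h | h <;> omega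
    rw [h1]
    omega
  · refine full_of hs c g d hd w _ hc ?_
    intro X hX1 hX2
    rcases lt_trichotomy X ((t : ℤ) - 1) with h | h | h
    · obtain ⟨T, hT, hTc⟩ := Finset.exists_subset_card_eq
        (s := L0.filter (fun i => w i = 1)) (n := X.toNat) (by omega)
      refine ⟨T, ?_, ?_⟩
      · intro a ha'
        simp [hsub0 (hT ha')]
      · rw [hone T hT, hTc, Int.toNat_of_nonneg hX1]
    · refine ⟨insert j (insert j' (L0.filter (fun i => w i = 1))),
        Finset.insert_subset_insert _ (Finset.insert_subset_insert _ hsub0), ?_⟩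
      have h1 : j' ∉ L0.filter (fun i => w i = 1) := fun h' => hj' (hsub0 h')
      have h2 : j ∉ insert j' (L0.filter (fun i => w i = 1)) := by
        simp only [Finset.mem_insert, not_or]
        exact ⟨hjj, fun h' => hj (hsub0 h')⟩
      rw [Finset.sum_insert h2, Finset.sum_insert h1, hone _ (Finset.Subset.refl _), hwj, hwj']
      have h3 : (t : ℤ) + (t + ((L0.filter (fun i => w i = 1)).card : ℤ)) = X + s := by omega
      rw [h3]
      push_cast
      rw [CharP.cast_eq_zero, add_zero]
    · obtain ⟨T, hT, hTc⟩ := Finset.exists_subset_card_eq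
        (s := L0.filter (fun i => w i = 1)) (n := (X - t).toNat) (by omega)
      have h1 : j ∉ T := fun h' => hj (hsub0 (hT h'))
      refine ⟨insert j T, ?_, ?_⟩
      · refine Finset.insert_subset_insert _ ?_
        intro a ha'
        simp [hsub0 (hT ha')]
      · rw [Finset.sum_insert h1, hone T hT, hTc, hwj, Int.toNat_of_nonneg (by omega)]
        congr 1
        ring

end Rigid

theorem swap2b (hI : S_Interval) : S_Swap2b := by
  intro ι _ s t c g d w L0 i i' j j' hs hst hd hi hi' hii hj hj' hjj hcard hG hZF hR hR'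
  obtain ⟨hGc, hGa, hGb⟩ := hG
  have hiL : i ∉ insert i' L0 := by simp [hi, hii]
  have hcz : (L0.card : ℤ) + 3 = s + t := by exact_mod_cast hcard
  have hstz : (s : ℤ) + 1 = 2 * t := by exact_mod_cast hst
  have hsz : (3 : ℤ) ≤ s := by exact_mod_cast hs
  have hcardL : (insert i (insert i' L0)).card + 1 = s + t := by
    rw [Finset.card_insert_of_notMem hiL, Finset.card_insert_of_notMem hi']
    omega
  have hSp : Sq w L0 := by
    refine sq_of_good w L0 i i' s t hiL hi' hcz hstz hGa hGb ?_ ?_
    · intro h1 h2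
      by_contra hcon
      push Not at hcon
      exact hR (typeR_good hI t c g d w _ hs hst hd hcardL hGc h1 h2 (fun a ha => by
        have := hcon a ha
        omega))
    · intro h1 h2
      by_contra hcon
      push Not at hcon
      exact hR (typeR_good' hI t c g d w _ hs hst hd hcardL hGc h1 h2 (fun a ha => by
        have := hcon a ha
        omega))
  have hGa' := hGa
  have hGb' := hGb
  rw [aa_insert w hiL, aa_insert w hi'] at hGa'
  rw [bb_insert w hiL, bb_insert w hi'] at hGb'
  have hQ0 := card_pos_le w L0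
  have hP0 := card_nonpos_le w L0
  have hc0 := card_le w L0
  have ha : aa w L0 + 1 ≤ s := by omega
  have hb : bb w L0 + 1 ≤ s := by omega
  have hab : aa w L0 + bb w L0 + 4 ≤ 2 * s := by omega
  -- the new lifts
  have hlift : ∀ y : ι, y ∉ L0 → y ∈ insert j (insert j' L0) → ∃ X : ℤ,
      aa w L0 + 2 - s ≤ X ∧ X + bb w L0 + 1 ≤ s ∧ c y = g + d * (X : ZMod s) := by
    intro y hy hyL
    obtain ⟨X, h1, h2, h3⟩ := lift_exists s (by omega) g d (c y) hd (bb w L0)
    refine ⟨X, ?_, h2, h3⟩
    by_contra hcon
    obtain ⟨T, hT, hTc, hTs⟩ := interval hI w L0 (s - 1) (by omega) (by omega) (by omega)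
      (by omega)
      (fun p hp h => ⟨(hSp.1 p hp h).1, by have := (hSp.1 p hp h).2; omega⟩)
      (fun p hp h => ⟨by have := (hSp.2 p hp h).2; omega, (hSp.2 p hp h).1⟩)
      (-X) (by omega) (by omega)
    have hyT : y ∉ T := fun h => hy (hT h)
    have hsub : insert y T ⊆ insert j (insert j' L0) := by
      intro a ha'
      rcases Finset.mem_insert.1 ha' with rfl | h
      · exact hyL
      · simp [hT h]
    refine hZF (insert y T) hsub (by rw [Finset.card_insert_of_notMem hyT]; omega) ?_
    rw [Finset.sum_insert hyT, h3, Finset.sum_congr rfl fun a ha' => hGc a (by simp [hT ha']),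
      Finset.sum_add_distrib, Finset.sum_const, hTc, ← Finset.mul_sum]
    have h5 : ∑ a ∈ T, (w a : ZMod s) = -(X : ZMod s) := by
      have h6 := congrArg (fun n : ℤ => (n : ZMod s)) hTs
      push_cast at h6
      exact h6
    rw [h5]
    have h7 : ((s - 1 : ℕ) : ZMod s) + 1 = 0 := by
      rw [Nat.cast_sub (show 1 ≤ s by omega), CharP.cast_eq_zero (ZMod s) s, Nat.cast_one]
      ring
    rw [nsmul_eq_mul]
    linear_combination g * h7
  obtain ⟨X, hX1, hX2, hX3⟩ := hlift j hj (by simp)
  obtain ⟨X', hX1', hX2', hX3'⟩ := hlift j' hj' (by simp)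
  set w' : ι → ℤ := fun k => if k = j then X else if k = j' then X' else w k with hw'
  have hw'j : w' j = X := by simp [hw']
  have hw'j' : w' j' = X' := by simp [hw', Ne.symm hjj]
  have hw'0 : ∀ k ∈ L0, w' k = w k := by
    intro k hk
    have h1 : k ≠ j := fun h => hj (h ▸ hk)
    have h2 : k ≠ j' := fun h => hj' (h ▸ hk)
    simp [hw', h1, h2]
  have hjL : j ∉ insert j' L0 := by simp [hj, hjj]
  have hcw : ∀ k ∈ insert j (insert j' L0), c k = g + d * (w' k : ZMod s) := by
    intro k hk
    rcases Finset.mem_insert.1 hk with rfl | hk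
    · rw [hw'j, hX3]
    rcases Finset.mem_insert.1 hk with rfl | hk
    · rw [hw'j', hX3']
    · rw [hw'0 k hk]
      exact hGc k (by simp [hk])
  have haa0 : aa w' L0 = aa w L0 := Finset.sum_congr rfl fun k hk => by rw [hw'0 k hk]
  have hbb0 : bb w' L0 = bb w L0 := Finset.sum_congr rfl fun k hk => by rw [hw'0 k hk]
  have hno : ∀ T, T ⊆ L0 → T.card + 2 = s → ∀ m : ℤ, ∑ a ∈ T, w a ≠ s * m - (X + X') := by
    intro T hT hTc m hTs
    have hj'T : j' ∉ T := fun h => hj' (hT h)
    have hjT : j ∉ insert j' T := by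
      simp only [Finset.mem_insert, not_or]
      exact ⟨hjj, fun h => hj (hT h)⟩
    refine zf_sum c _ hZF g d w' hcw (insert j (insert j' T))
      (Finset.insert_subset_insert _ (Finset.insert_subset_insert _ hT))
      (by rw [Finset.card_insert_of_notMem hjT, Finset.card_insert_of_notMem hj'T]; omega) ?_
    rw [Finset.sum_insert hjT, Finset.sum_insert hj'T, hw'j, hw'j',
      Finset.sum_congr rfl fun a ha' => hw'0 a (hT ha'), hTs]
    have h9 : X + (X' + ((s : ℤ) * m - (X + X'))) = s * m := by ring
    rw [h9]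
    push_cast
    rw [CharP.cast_eq_zero, zero_mul]
  refine ⟨w', ⟨hcw, ?_, ?_⟩, hw'0⟩
  · rw [aa_insert w' hjL, aa_insert w' hj', hw'j, hw'j', haa0]
    rcases le_or_gt X 0 with h1 | h1
    · rcases le_or_gt X' 0 with h2 | h2
      · -- mirror
        have hmir := case2b hI (fun k => 1 - w k) L0 s t (1 - X) (1 - X') hs hcard hst
        have e1 : aa (fun k => 1 - w k) L0 = bb w L0 :=
          Finset.sum_congr rfl fun k _ => by simp
        have e2 : bb (fun k => 1 - w k) L0 = aa w L0 :=
          Finset.sum_congr rfl fun k _ => by simp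
        have e3 : uu (fun k => 1 - w k) L0 = vv w L0 := by
          rw [uu_eq, vv_eq]
          refine Finset.sum_congr rfl fun k _ => ?_
          by_cases h : w k = 1
          · rw [if_pos h, if_pos (by omega)]
          · rw [if_neg h, if_neg (by omega)]
        have e4 : vv (fun k => 1 - w k) L0 = uu w L0 := by
          rw [uu_eq, vv_eq]
          refine Finset.sum_congr rfl fun k _ => ?_
          by_cases h : w k = 0
          · rw [if_pos h, if_pos (by omega)]
          · rw [if_neg h, if_neg (by omega)]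
        rw [e1, e2] at hmir
        have hSp' : Sq (fun k => 1 - w k) L0 := by
          constructor
          · intro p hp h
            have h' : 2 ≤ 1 - w p := h
            rw [e3, e4]
            show 1 - w p ≤ uu w L0 + 1 ∧ 2 * (1 - w p) ≤ vv w L0 + 2
            have := hSp.2 p hp (by omega)
            omega
          · intro p hp h
            have h' : 1 - w p ≤ -1 := h
            rw [e3, e4]
            show -(1 - w p) ≤ vv w L0 ∧ -(2 * (1 - w p)) ≤ uu w L0
            have := hSp.1 p hp (by omega)
            omega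
        have := hmir hb (by omega) hSp' (by omega) (by omega) (by omega) (by omega) (by
          intro T hT hTc hTs
          refine hno T hT hTc 0 ?_
          rw [Finset.sum_sub_distrib] at hTs
          simp only [Finset.sum_const, nsmul_eq_mul, mul_one] at hTs
          have : (T.card : ℤ) + 2 = s := by exact_mod_cast hTc
          omega) (by
          intro g1 g2 g3 g4
          refine hR' (typeR_special t c (g + d) (-d) (fun k => 1 - w' k) L0 j j' hs hst hd.neg
            hj hj' hjj hcard ?_ ?_ ?_ ?_ ?_)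
          · intro a ha'
            rw [hcw a ha']
            push_cast
            ring
          · intro a ha'
            have h5 := g3 a ha'
            show 1 - w' a = 0 ∨ 1 - w' a = 1
            rw [hw'0 a ha']
            exact h5
          · rw [Finset.filter_congr fun a ha' => by
              show 1 - w' a ≤ 0 ↔ 1 - w a ≤ 0
              rw [hw'0 a ha']]
            exact g4
          · show 1 - w' j = t
            rw [hw'j]
            exact g1
          · show 1 - w' j' = t
            rw [hw'j']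
            exact g2)
        omega
      · omega
    · omega
  · rw [bb_insert w' hjL, bb_insert w' hj', hw'j, hw'j', hbb0]
    rcases le_or_gt X 0 with h1 | h1
    · omega
    · rcases le_or_gt X' 0 with h2 | h2
      · omega
      · have := case2b hI w L0 s t X X' hs hcard hst ha hab hSp (by omega) (by omega) hX2 hX2'
          (by
            intro T hT hTc hTs
            exact hno T hT hTc 1 (by rw [mul_one]; exact hTs))
          (by
            intro g1 g2 g3 g4
            refine hR' (typeR_special t c g d w' L0 j j' hs hst hd hj hj' hjj hcard hcw ?_ ?_ ?_ ?_)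
            · intro a ha'
              rw [hw'0 a ha']
              exact g3 a ha'
            · rw [Finset.filter_congr fun a ha' => by
                show w' a ≤ 0 ↔ w a ≤ 0
                rw [hw'0 a ha']]
              exact g4
            · rw [hw'j]
              exact g1
            · rw [hw'j']
              exact g2)
        omega

end Pool.Agent.H621.ZM.Swap2b
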