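import Pool.Agent.H621.ZM.Spec2

/-!
TWO: a near-perfect matching with two forced classes forces `2 s - 1` non-edges.
-/

set_option autoImplicit false

namespace Pool.Agent.H621.ZM.TwoG

open Finset

variable {V : Type} [Fintype V] [DecidableEq V]

/-- the basic count of non-edges -/
theorem cnt (G : SimpleGraph V) (v : V) (A B W : Finset V) (hAB : Disjoint A B) (hvA : v ∉ A)
    (hvB : v ∉ B) (hvW : v ∉ W) (h1 : ∀ a ∈ A, ∀ b ∈ B, ¬ G.Adj a b)
    (h2 : ∀ w ∈ W, ¬ G.Adj v w) : A.card * B.card + W.card ≤ miss G := by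
  classical
  have hinj1 : ((A ×ˢ B).image (fun p => s(p.1, p.2))).card = A.card * B.card := by
    rw [Finset.card_image_of_injOn, Finset.card_product]
    rintro ⟨a, b⟩ hab ⟨a', b'⟩ hab' h
    simp only [Finset.coe_product, Set.mem_prod, Finset.mem_coe] at hab hab'
    simp only [Sym2.eq_iff] at h
    rcases h with ⟨h, h'⟩ | ⟨h, h'⟩
    · simp [h, h']
    · exfalso
      exact Finset.disjoint_left.1 hAB hab.1 (h ▸ hab'.2)
  have hinj2 : (W.image (fun w => s(v, w))).card = W.card := by
    apply Finset.card_image_of_injective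
    intro w w' h
    exact Sym2.congr_right.1 h
  have hdis : Disjoint ((A ×ˢ B).image (fun p => s(p.1, p.2)))
      (W.image (fun w => s(v, w))) := by
    rw [Finset.disjoint_left]
    intro e he he'
    rw [Finset.mem_image] at he he'
    obtain ⟨⟨a, b⟩, hab, rfl⟩ := he
    obtain ⟨w, hw, h⟩ := he'
    simp only [Finset.mem_product] at hab
    have hm : v ∈ s(a, b) := by
      have : v ∈ s(v, w) := Sym2.mem_mk_left v w
      rwa [h] at this
    rw [Sym2.mem_iff] at hm
    rcases hm with rfl | rfl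
    · exact hvA hab.1
    · exact hvB hab.2
  rw [← hinj1, ← hinj2, ← Finset.card_union_of_disjoint hdis, ← Set.ncard_coe_finset]
  apply Set.ncard_le_ncard _ (Set.toFinite _)
  intro e he
  rw [Finset.mem_coe, Finset.mem_union, Finset.mem_image, Finset.mem_image] at he
  rcases he with ⟨⟨a, b⟩, hab, rfl⟩ | ⟨w, hw, rfl⟩
  · rw [Finset.mem_product] at hab
    rw [SimpleGraph.mem_edgeSet, SimpleGraph.compl_adj]
    refine ⟨?_, h1 a hab.1 b hab.2⟩
    rintro h
    exact Finset.disjoint_left.1 hAB hab.1 (h ▸ hab.2)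
  · rw [SimpleGraph.mem_edgeSet, SimpleGraph.compl_adj]
    refine ⟨?_, h2 w hw⟩
    rintro rfl
    exact hvW hw

/-- the vertices covered by the edges with property `p` -/
noncomputable def cov (M : Finset (Sym2 V)) (p : Sym2 V → Prop) : Finset V := by
  classical
  exact univ.filter (fun w => ∃ e ∈ M, w ∈ e ∧ p e)

theorem mem_cov {M : Finset (Sym2 V)} {p : Sym2 V → Prop} {w : V} :
    w ∈ cov M p ↔ ∃ e ∈ M, w ∈ e ∧ p e := by
  classical
  simp [cov]

theorem card_cov {G : SimpleGraph V} {M : Finset (Sym2 V)} (hM : IsM G M) (p : Sym2 V → Prop)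
    [DecidablePred p] : (cov M p).card = 2 * (M.filter p).card := by
  classical
  have h : cov M p = (M.filter p).biUnion (fun e => e.toFinset) := by
    ext w
    rw [mem_cov, Finset.mem_biUnion]
    constructor
    · rintro ⟨e, he, hw, hp⟩
      exact ⟨e, Finset.mem_filter.2 ⟨he, hp⟩, Sym2.mem_toFinset.2 hw⟩
    · rintro ⟨e, he, hw⟩
      rw [Finset.mem_filter] at he
      exact ⟨e, he.1, Sym2.mem_toFinset.1 hw, he.2⟩
  rw [h, Finset.card_biUnion]
  · rw [Finset.sum_const_nat (m := 2)]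
    · ring
    · intro e he
      rw [Finset.mem_filter] at he
      exact Sym2.card_toFinset_of_not_isDiag e (G.not_isDiag_of_mem_edgeSet (hM.1 e he.1))
  · intro e he f hf hef
    rw [Finset.mem_coe, Finset.mem_filter] at he hf
    change Disjoint e.toFinset f.toFinset
    rw [Finset.disjoint_left]
    intro w hw hw'
    exact hM.2 e he.1 f hf.1 hef w (Sym2.mem_toFinset.1 hw) (Sym2.mem_toFinset.1 hw')

/-- lifting of submultisets of a `map` -/
theorem lift_le {α β : Type} (c : α → β) (N : Multiset α) (T : Multiset β) (h : T ≤ N.map c) :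
    ∃ u, u ≤ N ∧ u.map c = T := by
  induction N using Quotient.inductionOn with
  | _ L =>
  induction T using Quotient.inductionOn with
  | _ K =>
  have h' : K.Subperm (L.map c) := h
  obtain ⟨K', hK, hs⟩ := h'
  rw [List.sublist_map_iff] at hs
  obtain ⟨L', hL', rfl⟩ := hs
  refine ⟨(L' : Multiset α), ?_, ?_⟩
  · exact Multiset.coe_le.2 hL'.subperm
  · exact Quotient.sound hK

/-- the states of the exchange process -/
structure PP {s : ℕ} (G : SimpleGraph V) (c : Sym2 V → ZMod s) (m : Multiset (ZMod s)) (v : V)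
    (M : Finset (Sym2 V)) : Prop where
  isM : IsM G M
  col : M.val.map c = m
  unc : ∀ e ∈ M, v ∉ e

omit [Fintype V] in
theorem ex {s : ℕ} {G : SimpleGraph V} {c : Sym2 V → ZMod s} {m : Multiset (ZMod s)} {v : V}
    {M : Finset (Sym2 V)} (hz : ∀ F, IsM G F → F.card = s → ∑ e ∈ F, c e ≠ 0)
    (h : PP G c m v M) {a b : V} (hab : s(a, b) ∈ M) (hva : G.Adj v a)
    (hf : FrcM m (c s(a, b))) :
    c s(v, a) = c s(a, b) ∧ PP G c m b (insert s(v, a) (M.erase s(a, b))) := by
  classical
  have hadj : G.Adj a b := by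
    have := h.isM.1 _ hab
    rwa [SimpleGraph.mem_edgeSet] at this
  have hvb : b ≠ v := by
    rintro rfl
    exact h.unc _ hab (Sym2.mem_mk_right a b)
  have hIs : IsM G (insert s(v, a) (M.erase s(a, b))) := by
    constructor
    · intro e he
      rw [Finset.mem_insert] at he
      rcases he with rfl | he
      · rwa [SimpleGraph.mem_edgeSet]
      · exact h.isM.1 e (Finset.mem_of_mem_erase he)
    · have key : ∀ f ∈ M.erase s(a, b), ∀ w ∈ s(v, a), w ∉ f := by
        intro f hf w hw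
        rw [Sym2.mem_iff] at hw
        rcases hw with rfl | rfl
        · exact h.unc f (Finset.mem_of_mem_erase hf)
        · exact h.isM.2 _ hab f (Finset.mem_of_mem_erase hf) (Finset.ne_of_mem_erase hf).symm w
            (Sym2.mem_mk_left w b)
      intro e he f hf hef w hw hw'
      rw [Finset.mem_insert] at he hf
      rcases he with rfl | he
      · rcases hf with rfl | hf
        · exact hef rfl
        · exact key f hf w hw hw'
      · rcases hf with rfl | hf
        · exact key e he w hw' hw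
        · exact h.isM.2 e (Finset.mem_of_mem_erase he) f (Finset.mem_of_mem_erase hf) hef w hw hw'
  have hnot : s(v, a) ∉ M.erase s(a, b) := by
    intro hh
    exact h.unc _ (Finset.mem_of_mem_erase hh) (Sym2.mem_mk_left v a)
  have hmm : (M.erase s(a, b)).val.map c = m.erase (c s(a, b)) := by
    rw [Finset.erase_val, Multiset.map_erase_of_mem c _ hab, h.col]
  have hc : c s(v, a) = c s(a, b) := by
    apply hf
    intro T hT hcard hsum
    rw [← hmm] at hT
    obtain ⟨u, hu, rfl⟩ := lift_le c _ _ hT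
    have hnd : u.Nodup := Multiset.nodup_of_le hu (M.erase s(a, b)).nodup
    set F0 : Finset (Sym2 V) := ⟨u, hnd⟩ with hF0
    have hsub : F0 ⊆ M.erase s(a, b) := by
      rw [← Finset.val_le_iff]
      exact hu
    have hnot' : s(v, a) ∉ F0 := fun hh => hnot (hsub hh)
    refine hz (insert s(v, a) F0) ?_ ?_ ?_
    · have hsub' : insert s(v, a) F0 ⊆ insert s(v, a) (M.erase s(a, b)) :=
        Finset.insert_subset_insert _ hsub
      exact ⟨fun e he => hIs.1 e (hsub' he), fun e he f hf => hIs.2 e (hsub' he) f (hsub' hf)⟩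
    · rw [Finset.card_insert_of_notMem hnot']
      rw [Multiset.card_map] at hcard
      exact hcard
    · rw [Finset.sum_insert hnot', add_comm]
      exact hsum
  refine ⟨hc, hIs, ?_, ?_⟩
  · rw [Finset.insert_val_of_notMem hnot, Multiset.map_cons, hmm, hc]
    apply Multiset.cons_erase
    rw [← h.col]
    exact Multiset.mem_map_of_mem c hab
  · intro e he
    rw [Finset.mem_insert] at he
    rcases he with rfl | he
    · rw [Sym2.mem_iff]
      rintro (hh | hh)
      · exact hvb hh
      · exact hadj.ne hh.symm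
    · exact h.isM.2 _ hab e (Finset.mem_of_mem_erase he) (Finset.ne_of_mem_erase he).symm b
        (Sym2.mem_mk_right a b)

open Classical in
/-- the partner of a vertex -/
noncomputable def st {V : Type} (M : Finset (Sym2 V)) (w : V) : V :=
  if h : ∃ u, s(w, u) ∈ M then Classical.choose h else w

omit [Fintype V] [DecidableEq V] in
theorem st_eq {G : SimpleGraph V} {M : Finset (Sym2 V)} (hM : IsM G M) {w u : V}
    (h : s(w, u) ∈ M) : st M w = u := by
  classical
  have hex : ∃ u, s(w, u) ∈ M := ⟨u, h⟩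
  have h1 : s(w, st M w) ∈ M := by
    unfold st
    rw [dif_pos hex]
    exact Classical.choose_spec hex
  by_contra hne
  have hne' : s(w, st M w) ≠ s(w, u) := fun hh => hne (Sym2.congr_right.1 hh)
  exact hM.2 _ h1 _ h hne' w (Sym2.mem_mk_left _ _) (Sym2.mem_mk_left _ _)

omit [Fintype V] [DecidableEq V] in
theorem st_st {G : SimpleGraph V} {M : Finset (Sym2 V)} (hM : IsM G M) (w : V) :
    st M (st M w) = w := by
  by_cases hex : ∃ u, s(w, u) ∈ M
  · obtain ⟨u, hu⟩ := hex
    rw [st_eq hM hu]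
    apply st_eq hM
    rw [Sym2.eq_swap]
    exact hu
  · have h : st M w = w := by
      unfold st
      rw [dif_neg hex]
    rw [h, h]

theorem cov_st {G : SimpleGraph V} {M : Finset (Sym2 V)} (hM : IsM G M) {p : Sym2 V → Prop}
    {w : V} (h : w ∈ cov M p) : s(w, st M w) ∈ M ∧ p s(w, st M w) ∧ st M w ∈ cov M p := by
  rw [mem_cov] at h
  obtain ⟨e, he, hw, hp⟩ := h
  obtain ⟨u, rfl⟩ := hw
  rw [st_eq hM he]
  exact ⟨he, hp, mem_cov.2 ⟨_, he, Sym2.mem_mk_right _ _, hp⟩⟩

theorem cov_disj {G : SimpleGraph V} {M : Finset (Sym2 V)} (hM : IsM G M) {p q : Sym2 V → Prop}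
    (hpq : ∀ e, p e → ¬ q e) : Disjoint (cov M p) (cov M q) := by
  rw [Finset.disjoint_left]
  intro w h1 h2
  exact hpq _ (cov_st hM h1).2.1 (cov_st hM h2).2.1

theorem card_V {s : ℕ} {G : SimpleGraph V} {c : Sym2 V → ZMod s} {m : Multiset (ZMod s)} {v : V}
    {M : Finset (Sym2 V)} (h : PP G c m v M) (X : Finset (ZMod s)) :
    (cov M (fun e => c e ∈ X)).card = 2 * Multiset.countP (· ∈ X) m := by
  classical
  rw [card_cov h.isM, ← h.col, Multiset.countP_map]
  rfl

theorem unc_cov {s : ℕ} {G : SimpleGraph V} {c : Sym2 V → ZMod s} {m : Multiset (ZMod s)} {v : V}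
    {M : Finset (Sym2 V)} (h : PP G c m v M) (p : Sym2 V → Prop) : v ∉ cov M p := by
  rw [mem_cov]
  rintro ⟨e, he, hv, -⟩
  exact h.unc e he hv

omit [Fintype V] in
theorem noA {s : ℕ} {G : SimpleGraph V} {c : Sym2 V → ZMod s} {m : Multiset (ZMod s)} {v : V}
    {M : Finset (Sym2 V)} {X Y : Finset (ZMod s)}
    (hz : ∀ F, IsM G F → F.card = s → ∑ e ∈ F, c e ≠ 0) (hXY : Disjoint X Y)
    (hfX : ∀ x ∈ X, FrcM m x) (hfY : ∀ x ∈ Y, FrcM m x) (h : PP G c m v M)
    {a a' p p' : V} (ha : s(a, a') ∈ M) (hcX : c s(a, a') ∈ X) (hp : s(p, p') ∈ M)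
    (hcY : c s(p, p') ∈ Y) (hva : G.Adj v a) (hvp : G.Adj v p) : ¬ G.Adj a' p' := by
  intro hadj
  have hcX' : c s(a', a) ∈ X := by rwa [Sym2.eq_swap]
  have hcY' : c s(p', p) ∈ Y := by rwa [Sym2.eq_swap]
  have ha' : s(a', a) ∈ M := by rwa [Sym2.eq_swap]
  have hp' : s(p', p) ∈ M := by rwa [Sym2.eq_swap]
  obtain ⟨-, h1⟩ := ex hz h ha hva (hfX _ hcX)
  have hp1 : s(p', p) ∈ insert s(v, a) (M.erase s(a, a')) := by
    refine Finset.mem_insert_of_mem (Finset.mem_erase.2 ⟨?_, hp'⟩)
    intro hh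
    rw [hh] at hcY'
    exact Finset.disjoint_left.1 hXY hcX hcY'
  obtain ⟨h2, -⟩ := ex hz h1 hp1 hadj (hfY _ hcY')
  obtain ⟨-, h3⟩ := ex hz h hp hvp (hfY _ hcY)
  have ha3 : s(a', a) ∈ insert s(v, p) (M.erase s(p, p')) := by
    refine Finset.mem_insert_of_mem (Finset.mem_erase.2 ⟨?_, ha'⟩)
    intro hh
    rw [hh] at hcX'
    exact Finset.disjoint_left.1 hXY hcX' hcY
  obtain ⟨h4, -⟩ := ex hz h3 ha3 hadj.symm (hfX _ hcX')
  have h5 : c s(a', p') = c s(p', a') := by rw [Sym2.eq_swap]
  rw [h5, h4] at h2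
  rw [h2] at hcX'
  exact Finset.disjoint_left.1 hXY hcX' hcY'

/-- the free vertex has neighbours in both classes -/
theorem caseB {s : ℕ} {G : SimpleGraph V} {c : Sym2 V → ZMod s} {m : Multiset (ZMod s)}
    {X Y : Finset (ZMod s)}
    (hz : ∀ F, IsM G F → F.card = s → ∑ e ∈ F, c e ≠ 0) (hXY : Disjoint X Y)
    (hfX : ∀ x ∈ X, FrcM m x) (hfY : ∀ x ∈ Y, FrcM m x)
    (hs : s ≤ Multiset.countP (· ∈ X) m + Multiset.countP (· ∈ Y) m)
    {v : V} {M : Finset (Sym2 V)} (h : PP G c m v M)
    (h1 : ∃ a ∈ cov M (fun e => c e ∈ X), G.Adj v a)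
    (h2 : ∃ a ∈ cov M (fun e => c e ∈ Y), G.Adj v a) : 2 * s ≤ miss G + 1 := by
  classical
  have hcX := card_V h X
  have hcY := card_V h Y
  have hdis : Disjoint (cov M (fun e => c e ∈ X)) (cov M (fun e => c e ∈ Y)) :=
    cov_disj h.isM (fun e hx hy => Finset.disjoint_left.1 hXY hx hy)
  have hvX := unc_cov h (fun e => c e ∈ X)
  have hvY := unc_cov h (fun e => c e ∈ Y)
  have hstX : ∀ w ∈ cov M (fun e => c e ∈ X), _ := fun w hw => cov_st h.isM hw
  have hstY : ∀ w ∈ cov M (fun e => c e ∈ Y), _ := fun w hw => cov_st h.isM hw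
  generalize hVX : cov M (fun e => c e ∈ X) = VX at *
  generalize hVY : cov M (fun e => c e ∈ Y) = VY at *
  have hinj : Function.Injective (st M) :=
    (show Function.Involutive (st M) from st_st h.isM).injective
  have hNX : (VX.filter (G.Adj v)).card + (VX \ VX.filter (G.Adj v)).card = VX.card := by
    rw [add_comm]
    exact Finset.card_sdiff_add_card_eq_card (Finset.filter_subset _ _)
  have hNY : (VY.filter (G.Adj v)).card + (VY \ VY.filter (G.Adj v)).card = VY.card := by
    rw [add_comm]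
    exact Finset.card_sdiff_add_card_eq_card (Finset.filter_subset _ _)
  have hsubX : (VX.filter (G.Adj v)).image (st M) ⊆ VX := by
    intro w hw
    rw [Finset.mem_image] at hw
    obtain ⟨a, ha, rfl⟩ := hw
    exact (hstX a (Finset.mem_filter.1 ha).1).2.2
  have hsubY : (VY.filter (G.Adj v)).image (st M) ⊆ VY := by
    intro w hw
    rw [Finset.mem_image] at hw
    obtain ⟨a, ha, rfl⟩ := hw
    exact (hstY a (Finset.mem_filter.1 ha).1).2.2
  have key := cnt G v ((VX.filter (G.Adj v)).image (st M)) ((VY.filter (G.Adj v)).image (st M))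
    ((VX \ VX.filter (G.Adj v)) ∪ (VY \ VY.filter (G.Adj v)))
    (Finset.disjoint_of_subset_left hsubX (Finset.disjoint_of_subset_right hsubY hdis))
    (fun hh => hvX (hsubX hh)) (fun hh => hvY (hsubY hh))
    (by
      rw [Finset.mem_union, Finset.mem_sdiff, Finset.mem_sdiff]
      rintro (hh | hh)
      · exact hvX hh.1
      · exact hvY hh.1)
    (by
      intro a' ha' p' hp'
      rw [Finset.mem_image] at ha' hp'
      obtain ⟨a, ha, rfl⟩ := ha'
      obtain ⟨p, hp, rfl⟩ := hp'
      rw [Finset.mem_filter] at ha hp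
      obtain ⟨ha1, ha2, -⟩ := hstX a ha.1
      obtain ⟨hp1, hp2, -⟩ := hstY p hp.1
      exact noA hz hXY hfX hfY h ha1 ha2 hp1 hp2 ha.2 hp.2)
    (by
      intro w hw
      rw [Finset.mem_union, Finset.mem_sdiff, Finset.mem_sdiff, Finset.mem_filter,
        Finset.mem_filter] at hw
      intro hadj
      rcases hw with hw | hw
      · exact hw.2 ⟨hw.1, hadj⟩
      · exact hw.2 ⟨hw.1, hadj⟩)
  rw [Finset.card_image_of_injective _ hinj, Finset.card_image_of_injective _ hinj,
    Finset.card_union_of_disjoint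
      (Finset.disjoint_of_subset_left Finset.sdiff_subset
        (Finset.disjoint_of_subset_right Finset.sdiff_subset hdis))] at key
  have hpX : 1 ≤ (VX.filter (G.Adj v)).card := by
    obtain ⟨a, ha, ha'⟩ := h1
    exact Finset.card_pos.2 ⟨a, Finset.mem_filter.2 ⟨ha, ha'⟩⟩
  have hpY : 1 ≤ (VY.filter (G.Adj v)).card := by
    obtain ⟨a, ha, ha'⟩ := h2
    exact Finset.card_pos.2 ⟨a, Finset.mem_filter.2 ⟨ha, ha'⟩⟩
  generalize (VX.filter (G.Adj v)).card = al at *
  generalize (VY.filter (G.Adj v)).card = be at *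
  obtain ⟨al', rfl⟩ := Nat.exists_eq_add_of_le hpX
  obtain ⟨be', rfl⟩ := Nat.exists_eq_add_of_le hpY
  have hmul : (1 + al') * (1 + be') = 1 + al' + be' + al' * be' := by ring
  rw [hmul] at key
  have := Nat.zero_le (al' * be')
  omega

/-- the free vertex has no neighbours in the two classes -/
theorem caseC {s : ℕ} {G : SimpleGraph V} {c : Sym2 V → ZMod s} {m : Multiset (ZMod s)}
    {X Y : Finset (ZMod s)} (hXY : Disjoint X Y)
    (hs : s ≤ Multiset.countP (· ∈ X) m + Multiset.countP (· ∈ Y) m)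
    {v : V} {M : Finset (Sym2 V)} (h : PP G c m v M)
    (h1 : ∀ a ∈ cov M (fun e => c e ∈ X), ¬ G.Adj v a)
    (h2 : ∀ a ∈ cov M (fun e => c e ∈ Y), ¬ G.Adj v a) : 2 * s ≤ miss G + 1 := by
  classical
  have hcX := card_V h X
  have hcY := card_V h Y
  have hdis : Disjoint (cov M (fun e => c e ∈ X)) (cov M (fun e => c e ∈ Y)) :=
    cov_disj h.isM (fun e hx hy => Finset.disjoint_left.1 hXY hx hy)
  have hvX := unc_cov h (fun e => c e ∈ X)
  have hvY := unc_cov h (fun e => c e ∈ Y)
  have key := cnt G v ∅ ∅ (cov M (fun e => c e ∈ X) ∪ cov M (fun e => c e ∈ Y))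
    (Finset.disjoint_empty_left _) (Finset.notMem_empty _) (Finset.notMem_empty _)
    (by
      rw [Finset.mem_union]
      rintro (hh | hh)
      · exact hvX hh
      · exact hvY hh)
    (by
      intro a ha
      exact absurd ha (Finset.notMem_empty _))
    (by
      intro w hw
      rw [Finset.mem_union] at hw
      rcases hw with hw | hw
      · exact h1 w hw
      · exact h2 w hw)
  rw [Finset.card_union_of_disjoint hdis] at key
  simp only [Finset.card_empty] at key
  omega

/-- the free vertex has neighbours in the first class only -/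
theorem caseD {s : ℕ} {G : SimpleGraph V} {c : Sym2 V → ZMod s} {m : Multiset (ZMod s)}
    {X Y : Finset (ZMod s)}
    (hz : ∀ F, IsM G F → F.card = s → ∑ e ∈ F, c e ≠ 0) (hXY : Disjoint X Y)
    (hfX : ∀ x ∈ X, FrcM m x) (hfY : ∀ x ∈ Y, FrcM m x)
    (hs : s ≤ Multiset.countP (· ∈ X) m + Multiset.countP (· ∈ Y) m)
    (hY1 : 1 ≤ Multiset.countP (· ∈ Y) m)
    {v : V} {M : Finset (Sym2 V)} (h : PP G c m v M)
    (_h1 : ∃ a ∈ cov M (fun e => c e ∈ X), G.Adj v a)
    (h2 : ∀ a ∈ cov M (fun e => c e ∈ Y), ¬ G.Adj v a) : 2 * s ≤ miss G + 1 := by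
  classical
  have hcX := card_V h X
  have hcY := card_V h Y
  have hdis : Disjoint (cov M (fun e => c e ∈ X)) (cov M (fun e => c e ∈ Y)) :=
    cov_disj h.isM (fun e hx hy => Finset.disjoint_left.1 hXY hx hy)
  have hvX := unc_cov h (fun e => c e ∈ X)
  have hvY := unc_cov h (fun e => c e ∈ Y)
  have hstX : ∀ w ∈ cov M (fun e => c e ∈ X), _ := fun w hw => cov_st h.isM hw
  -- the exchanged states
  have hex : ∀ a ∈ cov M (fun e => c e ∈ X), G.Adj v a →
      ∃ M', PP G c m (st M a) M' ∧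
        cov M (fun e => c e ∈ Y) ⊆ cov M' (fun e => c e ∈ Y) := by
    intro a ha hva
    obtain ⟨ha1, ha2, -⟩ := hstX a ha
    obtain ⟨-, h3⟩ := ex hz h ha1 hva (hfX _ ha2)
    refine ⟨_, h3, ?_⟩
    intro w hw
    rw [mem_cov] at hw ⊢
    obtain ⟨e, he, hwe, hc⟩ := hw
    refine ⟨e, Finset.mem_insert_of_mem (Finset.mem_erase.2 ⟨?_, he⟩), hwe, hc⟩
    rintro rfl
    exact Finset.disjoint_left.1 hXY ha2 hc
  by_cases hc1 : ∃ b M', PP G c m b M' ∧ (∃ a ∈ cov M' (fun e => c e ∈ X), G.Adj b a) ∧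
      ∃ a ∈ cov M' (fun e => c e ∈ Y), G.Adj b a
  · obtain ⟨b, M', hP, hb1, hb2⟩ := hc1
    exact caseB hz hXY hfX hfY hs hP hb1 hb2
  by_cases hc2 : ∃ a ∈ cov M (fun e => c e ∈ X), G.Adj v a ∧ ∃ M', PP G c m (st M a) M' ∧
      ∀ w ∈ cov M' (fun e => c e ∈ X), ¬ G.Adj (st M a) w
  · obtain ⟨a, ha, hva, M', hP, hb⟩ := hc2
    obtain ⟨-, -, hb1⟩ := hstX a ha
    have hcX' := card_V hP X
    have key := cnt G (st M a) {v} (cov M (fun e => c e ∈ Y)) (cov M' (fun e => c e ∈ X))
      (Finset.disjoint_singleton_left.2 hvY)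
      (by
        rw [Finset.mem_singleton]
        intro hh
        exact hvX (hh ▸ hb1))
      (Finset.disjoint_left.1 hdis hb1) (unc_cov hP _)
      (by
        intro x hx y hy
        rw [Finset.mem_singleton] at hx
        rw [hx]
        exact h2 y hy)
      hb
    rw [Finset.card_singleton] at key
    omega
  push Not at hc1 hc2
  have hinj : Function.Injective (st M) :=
    (show Function.Involutive (st M) from st_st h.isM).injective
  have hno : ∀ a ∈ cov M (fun e => c e ∈ X), G.Adj v a → ∀ w ∈ cov M (fun e => c e ∈ Y),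
      ¬ G.Adj (st M a) w := by
    intro a ha hva w hw
    obtain ⟨M', hP, hsub⟩ := hex a ha hva
    obtain ⟨u, hu, hu'⟩ := hc2 a ha hva M' hP
    exact hc1 _ M' hP ⟨u, hu, hu'⟩ w (hsub hw)
  generalize hVX : cov M (fun e => c e ∈ X) = VX at *
  generalize hVY : cov M (fun e => c e ∈ Y) = VY at *
  have hNX : (VX.filter (G.Adj v)).card + (VX \ VX.filter (G.Adj v)).card = VX.card := by
    rw [add_comm]
    exact Finset.card_sdiff_add_card_eq_card (Finset.filter_subset _ _)
  have hsubX : (VX.filter (G.Adj v)).image (st M) ⊆ VX := by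
    intro w hw
    rw [Finset.mem_image] at hw
    obtain ⟨a, ha, rfl⟩ := hw
    exact (hstX a (Finset.mem_filter.1 ha).1).2.2
  have key := cnt G v ((VX.filter (G.Adj v)).image (st M)) VY
    ((VX \ VX.filter (G.Adj v)) ∪ VY)
    (Finset.disjoint_of_subset_left hsubX hdis)
    (fun hh => hvX (hsubX hh)) hvY
    (by
      rw [Finset.mem_union, Finset.mem_sdiff]
      rintro (hh | hh)
      · exact hvX hh.1
      · exact hvY hh)
    (by
      intro a' ha' p' hp'
      rw [Finset.mem_image] at ha'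
      obtain ⟨a, ha, rfl⟩ := ha'
      rw [Finset.mem_filter] at ha
      exact hno a ha.1 ha.2 p' hp')
    (by
      intro w hw
      rw [Finset.mem_union, Finset.mem_sdiff, Finset.mem_filter] at hw
      intro hadj
      rcases hw with hw | hw
      · exact hw.2 ⟨hw.1, hadj⟩
      · exact h2 w hw hadj)
  rw [Finset.card_image_of_injective _ hinj,
    Finset.card_union_of_disjoint (Finset.disjoint_of_subset_left Finset.sdiff_subset hdis)] at key
  have hmul : (VX.filter (G.Adj v)).card ≤ (VX.filter (G.Adj v)).card * VY.card := by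
    apply Nat.le_mul_of_pos_right
    omega
  omega

theorem twoG : S_TwoG := by
  intro V _ _ G s l c M hs hV hz hM hMl hT
  classical
  obtain ⟨X, Y, hXY, hf, hX1, hY1, hXY1⟩ := hT
  -- the uncovered vertex
  have hv : ∃ v, ∀ e ∈ M, v ∉ e := by
    by_contra hcon
    push Not at hcon
    have h1 := card_cov hM (fun _ => True)
    have h2 : cov M (fun _ => True) = univ := by
      ext w
      rw [mem_cov]
      obtain ⟨e, he, hw⟩ := hcon w
      simp only [Finset.mem_univ, iff_true]
      exact ⟨e, he, hw, trivial⟩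
    rw [h2, Finset.filter_true_of_mem (fun _ _ => trivial), Finset.card_univ, hV, hMl] at h1
    omega
  obtain ⟨v, hv⟩ := hv
  have hP : PP G c (M.val.map c) v M := ⟨hM, rfl, hv⟩
  have hX : Multiset.countP (· ∈ X) (M.val.map c) = (M.filter (fun e => c e ∈ X)).card := by
    rw [Multiset.countP_map]
    rfl
  have hY : Multiset.countP (· ∈ Y) (M.val.map c) = (M.filter (fun e => c e ∈ Y)).card := by
    rw [Multiset.countP_map]
    rfl
  rw [← Finset.card_pos, ← hX] at hX1
  rw [← Finset.card_pos, ← hY] at hY1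
  rw [← hX, ← hY] at hXY1
  have hfX : ∀ x ∈ X, FrcM (M.val.map c) x := fun x hx => hf x (Or.inl hx)
  have hfY : ∀ x ∈ Y, FrcM (M.val.map c) x := fun x hx => hf x (Or.inr hx)
  by_cases h1 : ∃ a ∈ cov M (fun e => c e ∈ X), G.Adj v a
  · by_cases h2 : ∃ a ∈ cov M (fun e => c e ∈ Y), G.Adj v a
    · exact caseB hz hXY hfX hfY hXY1 hP h1 h2
    · push Not at h2
      exact caseD hz hXY hfX hfY hXY1 hY1 hP h1 h2
  · push Not at h1
    by_cases h2 : ∃ a ∈ cov M (fun e => c e ∈ Y), G.Adj v a
    · exact caseD hz hXY.symm hfY hfX (by rw [add_comm]; exact hXY1) hX1 hP h2 h1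
    · push Not at h2
      exact caseC hXY hXY1 hP h1 h2

end Pool.Agent.H621.ZM.TwoG
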