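import Pool.Agent.H621.ZM.Main
import Pool.Agent.H621.ZM.R1
import Pool.Agent.H621.ZM.Pop2
import Pool.Agent.H621.ZM.Struct2
import Pool.Agent.H621.ZM.CaseX
import Pool.Agent.H621.ZM.RigidGood
import Pool.Agent.H621.ZM.Swap2b
import Pool.Agent.H621.ZM.CoreOdd
import Pool.Agent.H621.ZM.CoreEven
import Pool.Agent.H621.ZM.TwoG
import Pool.Agent.H621.ZM.QZero
import Pool.Agent.H621.ZM.QZero4
import Pool.Agent.H621.ZM.NearU
import Pool.Agent.H621.ZM.Finish2
import Pool.Agent.H621.ZM.Finish5
import Pool.Agent.H621.ZM.FinishFour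
import Pool.Agent.H621.ZM.REven
import Pool.Agent.H621.ZM.REven4
import Pool.Agent.H621.ZM.ROdd
import Pool.Agent.H621.ZM.Small3

/-! # The full solution -/

set_option autoImplicit false

namespace Pool.Agent.H621.ZM.FullSol

open Finset Pool.Agent.H621.ZM.Final Pool.Agent.H621.ZM.Values

theorem finish2 : S_Finish2 := Finish2.finish2 NearU.nearU
theorem finish5 : S_Finish5 := Finish5.finish5 finish2 NearU.nearU
theorem finishFour : S_FinishFour := FinishFour.finishFour finish2 NearU.nearU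

theorem coreOdd : S_CoreOdd :=
  CoreOdd.coreOdd (Swap1.swap1 Interval.interval) (Swap2b.swap2b Interval.interval)
    (Struct.struct ZeroFree.zeroFree) (Pop.pop Sums.sums) Jump.jump

theorem coreEven : S_CoreEven :=
  CoreEven.coreEven (Swap1.swap1 Interval.interval) (Struct2.struct2 ZeroFree.zeroFree) Pop2.pop2
    CaseX.caseX (RigidGood.rigidGood Interval.interval) Jump.jump

theorem base {V : Type} [Fintype V] [DecidableEq V] (G : SimpleGraph V) (s : ℕ)
    (c : Sym2 V → ZMod s) (hs : 1 ≤ s) (hV : Fintype.card V + 2 = 3 * s + 1) (hc : ZSFree G s c) :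
    2 * s - 1 ≤ miss G :=
  R1.base TwoCol.twoCol (ExtNear.ext1 Barrier.barrier) ConnNear.connNear ConnPerf.connPerf coreOdd
    coreEven TwoG.twoG (REven.rEven QZero.qZero finish5 finish2 TwoG.twoG)
    (REven4.rEven4 QZero4.qZero4 finishFour FinishFour.finish4 finish2)
    (ROdd.rOdd ZeroFree.zeroFree QZero.qZero finish5) (Small3.small3 NearU.nearU TwoCol.twoCol)
    G s c hs hV hc

theorem T2_eq_TZ (n s : ℕ) (hs : 1 ≤ s) : T2 n s = TZ n s := by
  apply le_antisymm (T2_le_TZ n s hs)
  rcases Nat.lt_or_ge n (3 * s - 1) with hn | hn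
  · exact (small n s hs (by omega)).ge
  · obtain ⟨r, hr, hr1⟩ : ∃ r, n + 2 = 3 * s + r ∧ 1 ≤ r := ⟨n + 2 - 3 * s, by omega, by omega⟩
    have h1 := T2_eq TwoCol.twoCol Constr.constr n s r hs hr
    have h7 := TZ_le n s hs (mm s r) 0 (by
      intro G c hc
      exact all Main.parts s 0 hs (fun V _ _ G c hV hc => base G s c hs hV hc) 0 1 le_rfl (Or.inr rfl)
        (fun r _ _ => Nat.add_le_add_right (min_le_left _ _) _) (fun _ => le_rfl) r hr1 (Fin n) G c
        (by rw [Fintype.card_fin]; exact hr) hc)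
    omega

end Pool.Agent.H621.ZM.FullSol
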