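import Pool.Agent.H621.ZM.Spec

/-! # INTERVAL (helper370): sums of `k` terms of an integer sequence with many zeros and ones -/

set_option autoImplicit false
set_option linter.unusedSectionVars false

namespace Pool.Agent.H621.ZM.Interval

open Finset

variable {ι : Type} [DecidableEq ι]

/-- specials, some ones and some zeros -/
theorem direct (L : Finset ι) (w : ι → ℤ) (k : ℕ) (M R : Finset ι)
    (hM : M ⊆ L.filter (fun i => w i ≤ -1)) (hR : R ⊆ L.filter (fun i => 2 ≤ w i)) (x : ℤ)
    (h1 : ∑ i ∈ M, w i + ∑ i ∈ R, w i ≤ x)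
    (h2 : ∑ i ∈ M, w i + ∑ i ∈ R, w i + k - (M.card + R.card) -
      (L.filter (fun i => w i = 0)).card ≤ x)
    (h3 : x ≤ ∑ i ∈ M, w i + ∑ i ∈ R, w i + (L.filter (fun i => w i = 1)).card)
    (h4 : x ≤ ∑ i ∈ M, w i + ∑ i ∈ R, w i + k - (M.card + R.card)) :
    ∃ T, T ⊆ L ∧ T.card = k ∧ ∑ i ∈ T, w i = x := by
  obtain ⟨a, ha⟩ : ∃ a : ℕ, (a : ℤ) = x - (∑ i ∈ M, w i + ∑ i ∈ R, w i) :=
    ⟨(x - (∑ i ∈ M, w i + ∑ i ∈ R, w i)).toNat, Int.toNat_of_nonneg (by linarith)⟩
  obtain ⟨b, hb⟩ : ∃ b : ℕ, (b : ℤ) = k - (M.card + R.card) - a :=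
    ⟨((k : ℤ) - (M.card + R.card) - a).toNat, Int.toNat_of_nonneg (by linarith)⟩
  obtain ⟨A, hA, hAc⟩ := Finset.exists_subset_card_eq
    (show a ≤ (L.filter (fun i => w i = 1)).card by zify; linarith)
  obtain ⟨B, hB, hBc⟩ := Finset.exists_subset_card_eq
    (show b ≤ (L.filter (fun i => w i = 0)).card by zify; linarith)
  have mM : ∀ i ∈ M, i ∈ L ∧ w i ≤ -1 := fun i hi => Finset.mem_filter.1 (hM hi)
  have mR : ∀ i ∈ R, i ∈ L ∧ 2 ≤ w i := fun i hi => Finset.mem_filter.1 (hR hi)
  have mA : ∀ i ∈ A, i ∈ L ∧ w i = 1 := fun i hi => Finset.mem_filter.1 (hA hi)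
  have mB : ∀ i ∈ B, i ∈ L ∧ w i = 0 := fun i hi => Finset.mem_filter.1 (hB hi)
  have d1 : Disjoint M R := by
    rw [Finset.disjoint_left]
    intro i hi hi'
    have := (mM i hi).2
    have := (mR i hi').2
    omega
  have d2 : Disjoint (M ∪ R) A := by
    rw [Finset.disjoint_left]
    intro i hi hi'
    have := (mA i hi').2
    rcases Finset.mem_union.1 hi with h | h
    · have := (mM i h).2
      omega
    · have := (mR i h).2
      omega
  have d3 : Disjoint (M ∪ R ∪ A) B := by
    rw [Finset.disjoint_left]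
    intro i hi hi'
    have := (mB i hi').2
    rcases Finset.mem_union.1 hi with h | h
    · rcases Finset.mem_union.1 h with h | h
      · have := (mM i h).2
        omega
      · have := (mR i h).2
        omega
    · have := (mA i h).2
      omega
  refine ⟨M ∪ R ∪ A ∪ B, ?_, ?_, ?_⟩
  · intro i hi
    rcases Finset.mem_union.1 hi with h | h
    · rcases Finset.mem_union.1 h with h | h
      · rcases Finset.mem_union.1 h with h | h
        · exact (mM i h).1
        · exact (mR i h).1
      · exact (mA i h).1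
    · exact (mB i h).1
  · rw [Finset.card_union_of_disjoint d3, Finset.card_union_of_disjoint d2,
      Finset.card_union_of_disjoint d1, hAc, hBc]
    zify
    linarith
  · rw [Finset.sum_union d3, Finset.sum_union d2, Finset.sum_union d1]
    have e1 : ∑ i ∈ A, w i = a := by
      rw [Finset.sum_congr rfl fun i hi => (mA i hi).2]
      simp [hAc]
    have e2 : ∑ i ∈ B, w i = 0 := Finset.sum_eq_zero fun i hi => (mB i hi).2
    rw [e1, e2]
    linarith

theorem card_L (L : Finset ι) (w : ι → ℤ) : (L.card : ℤ) =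
    (L.filter (fun i => w i = 0)).card + (L.filter (fun i => w i = 1)).card +
      (L.filter (fun i => w i ≤ -1)).card + (L.filter (fun i => 2 ≤ w i)).card := by
  rw [Finset.card_eq_sum_ones, Finset.card_filter, Finset.card_filter, Finset.card_filter,
    Finset.card_filter]
  push_cast
  rw [← Finset.sum_add_distrib, ← Finset.sum_add_distrib, ← Finset.sum_add_distrib]
  refine Finset.sum_congr rfl fun i _ => ?_
  split_ifs <;> omega

theorem card_le (L : Finset ι) (w : ι → ℤ) : ((L.filter (fun i => w i ≤ 0)).card : ℤ) =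
    (L.filter (fun i => w i = 0)).card + (L.filter (fun i => w i ≤ -1)).card := by
  rw [Finset.card_filter, Finset.card_filter, Finset.card_filter]
  push_cast
  rw [← Finset.sum_add_distrib]
  refine Finset.sum_congr rfl fun i _ => ?_
  split_ifs <;> omega

theorem card_ge (L : Finset ι) (w : ι → ℤ) : ((L.filter (fun i => 1 ≤ w i)).card : ℤ) =
    (L.filter (fun i => w i = 1)).card + (L.filter (fun i => 2 ≤ w i)).card := by
  rw [Finset.card_filter, Finset.card_filter, Finset.card_filter]
  push_cast
  rw [← Finset.sum_add_distrib]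
  refine Finset.sum_congr rfl fun i _ => ?_
  split_ifs <;> omega

theorem aa_eq (L : Finset ι) (w : ι → ℤ) : aa w L =
    (L.filter (fun i => w i = 0)).card + (L.filter (fun i => w i ≤ -1)).card -
      ∑ i ∈ L.filter (fun i => w i ≤ -1), w i := by
  unfold aa
  rw [Finset.card_filter, Finset.card_filter, Finset.sum_filter]
  push_cast
  rw [← Finset.sum_add_distrib, ← Finset.sum_sub_distrib]
  refine Finset.sum_congr rfl fun i _ => ?_
  split_ifs <;> omega

theorem bb_eq (L : Finset ι) (w : ι → ℤ) : bb w L =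
    (L.filter (fun i => w i = 1)).card + ∑ i ∈ L.filter (fun i => 2 ≤ w i), w i := by
  unfold bb
  rw [Finset.card_filter, Finset.sum_filter]
  push_cast
  rw [← Finset.sum_add_distrib]
  refine Finset.sum_congr rfl fun i _ => ?_
  split_ifs <;> omega

theorem neg_bound (L : Finset ι) (w : ι → ℤ) :
    ∑ i ∈ L.filter (fun i => w i ≤ -1), w i ≤ -((L.filter (fun i => w i ≤ -1)).card : ℤ) := by
  have h := Finset.sum_le_card_nsmul (L.filter (fun i => w i ≤ -1)) w (-1)
    (fun i hi => (Finset.mem_filter.1 hi).2)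
  simpa using h

theorem pos_bound (L : Finset ι) (w : ι → ℤ) :
    2 * ((L.filter (fun i => 2 ≤ w i)).card : ℤ) ≤ ∑ i ∈ L.filter (fun i => 2 ≤ w i), w i := by
  have h := Finset.card_nsmul_le_sum (L.filter (fun i => 2 ≤ w i)) w 2
    (fun i hi => (Finset.mem_filter.1 hi).2)
  rw [nsmul_eq_mul] at h
  linarith

theorem neg_bound' (L : Finset ι) (w : ι → ℤ) (m : ι) (hm : m ∈ L.filter (fun i => w i ≤ -1)) :
    ∑ i ∈ L.filter (fun i => w i ≤ -1), w i ≤
      w m + 1 - ((L.filter (fun i => w i ≤ -1)).card : ℤ) := by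
  rw [← Finset.add_sum_erase _ w hm]
  have h := Finset.sum_le_card_nsmul ((L.filter (fun i => w i ≤ -1)).erase m) w (-1)
    (fun i hi => (Finset.mem_filter.1 (Finset.mem_of_mem_erase hi)).2)
  rw [nsmul_eq_mul, Finset.card_erase_of_mem hm] at h
  have h1 : 1 ≤ (L.filter (fun i => w i ≤ -1)).card := Finset.card_pos.2 ⟨m, hm⟩
  push_cast [Nat.cast_sub h1] at h
  linarith

theorem pos_bound' (L : Finset ι) (w : ι → ℤ) (p : ι) (hp : p ∈ L.filter (fun i => 2 ≤ w i)) :
    w p + 2 * ((L.filter (fun i => 2 ≤ w i)).card : ℤ) - 2 ≤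
      ∑ i ∈ L.filter (fun i => 2 ≤ w i), w i := by
  rw [← Finset.add_sum_erase _ w hp]
  have h := Finset.card_nsmul_le_sum ((L.filter (fun i => 2 ≤ w i)).erase p) w 2
    (fun i hi => (Finset.mem_filter.1 (Finset.mem_of_mem_erase hi)).2)
  rw [nsmul_eq_mul, Finset.card_erase_of_mem hp] at h
  have h1 : 1 ≤ (L.filter (fun i => 2 ≤ w i)).card := Finset.card_pos.2 ⟨p, hp⟩
  push_cast [Nat.cast_sub h1] at h
  linarith

theorem interval : S_Interval := by
  intro ι _ L w k h0 h1 h2 h3 h4 h5 x hx1 hx2
  have cL := card_L L w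
  have cle := card_le L w
  have cge := card_ge L w
  have ea := aa_eq L w
  have eb := bb_eq L w
  have nb := neg_bound L w
  have pb := pos_bound L w
  have nb' := neg_bound' L w
  have pb' := pos_bound' L w
  rw [ea, eb] at h2 h3
  rw [ea] at hx1
  rw [eb] at hx2
  zify at h0 h1
  rw [cle] at h0
  rw [cge] at h1
  rw [cL] at h2 h3
  -- phase two: remove the negative terms
  have ph2 : ∀ M : Finset ι, M ⊆ L.filter (fun i => w i ≤ -1) →
      ∑ i ∈ M, w i + ∑ i ∈ L.filter (fun i => 2 ≤ w i), w i ≤ x →
      ∑ i ∈ M, w i + ∑ i ∈ L.filter (fun i => 2 ≤ w i), w i + k -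
        (M.card + (L.filter (fun i => 2 ≤ w i)).card) - (L.filter (fun i => w i = 0)).card ≤ x →
      ∃ T, T ⊆ L ∧ T.card = k ∧ ∑ i ∈ T, w i = x := by
    intro M
    induction M using Finset.induction_on with
    | empty =>
      intro _ g1 g2
      refine direct L w k ∅ _ (Finset.empty_subset _) (Finset.Subset.refl _) x g1 g2 ?_ ?_
      · rw [Finset.sum_empty]; linarith
      · rw [Finset.sum_empty, Finset.card_empty]; push_cast; linarith
    | insert m M' hm ih =>
      intro hM g1 g2
      have hmN : m ∈ L.filter (fun i => w i ≤ -1) := hM (Finset.mem_insert_self _ _)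
      have hM' : M' ⊆ L.filter (fun i => w i ≤ -1) :=
        (Finset.subset_insert _ _).trans hM
      have hcard : (insert m M').card ≤ (L.filter (fun i => w i ≤ -1)).card :=
        Finset.card_le_card hM
      by_cases hd : x ≤ ∑ i ∈ insert m M', w i + ∑ i ∈ L.filter (fun i => 2 ≤ w i), w i +
          (L.filter (fun i => w i = 1)).card ∧
          x ≤ ∑ i ∈ insert m M', w i + ∑ i ∈ L.filter (fun i => 2 ≤ w i), w i + k -
            ((insert m M').card + (L.filter (fun i => 2 ≤ w i)).card)
      · exact direct L w k _ _ hM (Finset.Subset.refl _) x g1 g2 hd.1 hd.2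
      · rw [Finset.card_insert_of_notMem hm] at hcard
        rw [Finset.sum_insert hm, Finset.card_insert_of_notMem hm] at hd
        zify at hcard
        push_cast at hd
        have h6 := h5 m (Finset.mem_filter.1 hmN).1 (Finset.mem_filter.1 hmN).2
        have h7 := nb' m hmN
        have h8 : (0 : ℤ) ≤ M'.card := Int.natCast_nonneg _
        apply ih hM'
        · by_contra hcon
          apply hd
          constructor <;> linarith [h6.1, h6.2]
        · by_contra hcon
          apply hd
          constructor <;> linarith [h6.1, h6.2]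
  -- phase one: add the positive terms
  have ph1 : ∀ (n : ℕ) (R : Finset ι), R ⊆ L.filter (fun i => 2 ≤ w i) →
      (L.filter (fun i => 2 ≤ w i)).card = R.card + n →
      ∑ i ∈ L.filter (fun i => w i ≤ -1), w i + ∑ i ∈ R, w i ≤ x →
      ∑ i ∈ L.filter (fun i => w i ≤ -1), w i + ∑ i ∈ R, w i + k -
        ((L.filter (fun i => w i ≤ -1)).card + R.card) - (L.filter (fun i => w i = 0)).card ≤ x →
      ∃ T, T ⊆ L ∧ T.card = k ∧ ∑ i ∈ T, w i = x := by
    intro n
    induction n with
    | zero =>
      intro R hR hc g1 g2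
      have hRe : R = L.filter (fun i => 2 ≤ w i) :=
        Finset.eq_of_subset_of_card_le hR (by omega)
      subst hRe
      exact ph2 _ (Finset.Subset.refl _) g1 g2
    | succ n ih =>
      intro R hR hc g1 g2
      obtain ⟨p, hp, hpR⟩ := Finset.exists_mem_notMem_of_card_lt_card
        (show R.card < (L.filter (fun i => 2 ≤ w i)).card by omega)
      by_cases hd : x ≤ ∑ i ∈ L.filter (fun i => w i ≤ -1), w i + ∑ i ∈ R, w i +
          (L.filter (fun i => w i = 1)).card ∧
          x ≤ ∑ i ∈ L.filter (fun i => w i ≤ -1), w i + ∑ i ∈ R, w i + k -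
            ((L.filter (fun i => w i ≤ -1)).card + R.card)
      · exact direct L w k _ _ (Finset.Subset.refl _) hR x g1 g2 hd.1 hd.2
      · have h6 := h4 p (Finset.mem_filter.1 hp).1 (Finset.mem_filter.1 hp).2
        have h7 := pb' p hp
        have h8 : (0 : ℤ) ≤ R.card := Int.natCast_nonneg _
        have h9 : (R.card : ℤ) + 1 ≤ (L.filter (fun i => 2 ≤ w i)).card := by
          have : R.card + 1 ≤ (L.filter (fun i => 2 ≤ w i)).card := by omega
          exact_mod_cast this
        apply ih (insert p R) (Finset.insert_subset hp hR)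
        · rw [Finset.card_insert_of_notMem hpR]; omega
        · rw [Finset.sum_insert hpR]
          by_contra hcon
          apply hd
          constructor <;> linarith [h6.1, h6.2]
        · rw [Finset.sum_insert hpR, Finset.card_insert_of_notMem hpR]
          push_cast
          by_contra hcon
          apply hd
          constructor <;> linarith [h6.1, h6.2]
  refine ph1 _ ∅ (Finset.empty_subset _) (by rw [Finset.card_empty, zero_add]) ?_ ?_
  · rw [Finset.sum_empty]; linarith
  · rw [Finset.sum_empty, Finset.card_empty]; push_cast; linarith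

end Pool.Agent.H621.ZM.Interval
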