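import Pool.Agent.H621.ZM.Spec

set_option autoImplicit false

/-!
Token jumping of matchings.
-/

namespace Pool.Agent.H621.ZM.Jump

open Finset

variable {V : Type} [DecidableEq V]

/-- two edges meet -/
def mt (f e : Sym2 V) : Prop := ∃ v, v ∈ e ∧ v ∈ f

lemma vert1 {G : SimpleGraph V} {P : Finset (Sym2 V)} (hP : IsM G P) (a : V) :
    ({f ∈ P | a ∈ f}).card ≤ 1 := by
  rw [card_le_one]
  intro f hf g hg
  rw [mem_filter] at hf hg
  by_contra h
  exact hP.2 f hf.1 g hg.1 h a hf.2 hg.2

open Classical in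
lemma deg2 {G : SimpleGraph V} {P : Finset (Sym2 V)} (hP : IsM G P) (e : Sym2 V) :
    ({f ∈ P | mt f e}).card ≤ 2 := by
  induction e using Sym2.ind with
  | _ a b =>
    have h1 : {f ∈ P | mt f s(a, b)} ⊆ {f ∈ P | a ∈ f} ∪ {f ∈ P | b ∈ f} := by
      intro f hf
      rw [mem_filter] at hf
      obtain ⟨hfP, v, hv, hvf⟩ := hf
      rw [Sym2.mem_iff] at hv
      rw [mem_union, mem_filter, mem_filter]
      rcases hv with rfl | rfl
      · exact Or.inl ⟨hfP, hvf⟩
      · exact Or.inr ⟨hfP, hvf⟩
    refine (card_le_card h1).trans ((card_union_le _ _).trans ?_)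
    have h2 := vert1 hP a
    have h3 := vert1 hP b
    omega

omit [DecidableEq V] in
lemma sub_isM {G : SimpleGraph V} {P Y : Finset (Sym2 V)} (hP : IsM G P) (h : Y ⊆ P) : IsM G Y :=
  ⟨fun e he => hP.1 e (h he), fun e he f hf => hP.2 e (h he) f (h hf)⟩

open Classical in
lemma exists_f {G : SimpleGraph V} {X P : Finset (Sym2 V)} (hP : IsM G P)
    (hc : P.card = X.card + 1) :
    ∃ f ∈ P \ X, ({e ∈ X \ P | mt f e}).card ≤ 1 := by
  by_contra hcon
  push Not at hcon
  have h1 : (P \ X).card * 2 ≤ (X \ P).card * 2 := by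
    refine card_mul_le_card_mul (fun f e => mt f e) ?_ ?_
    · intro f hf
      exact Nat.succ_le_of_lt (hcon f hf)
    · intro e _
      refine le_trans (card_le_card ?_) (deg2 hP e)
      intro f hf
      unfold bipartiteBelow at hf
      rw [mem_filter, mem_sdiff] at hf
      rw [mem_filter]
      exact ⟨hf.1.1, hf.2⟩
  have h2 := card_sdiff_add_card_inter P X
  have h3 := card_sdiff_add_card_inter X P
  rw [inter_comm X P] at h3
  omega

open Classical in
lemma main {G : SimpleGraph V} {P Y U : Finset (Sym2 V)} (hP : IsM G P) (hY : Y ⊆ P) (hPU : P ⊆ U) :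
    ∀ (n : ℕ) (X : Finset (Sym2 V)), (X \ P).card = n → IsM G X → P.card = X.card + 1 →
      Y.card = X.card → X ⊆ U →
      Relation.ReflTransGen (fun A B => Step1 G A B ∧ B ⊆ U) X Y := by
  intro n
  induction n with
  | zero =>
    intro X hn hX hc hYc hXU
    have hXP : X ⊆ P := by
      rwa [card_eq_zero, sdiff_eq_empty_iff_subset] at hn
    by_cases hXY : X = Y
    · rw [hXY]
    · obtain ⟨f, hfX, hfY⟩ : ∃ f ∈ X, f ∉ Y := by
        by_contra hcon
        push Not at hcon
        exact hXY (eq_of_subset_of_card_le hcon hYc.le)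
      obtain ⟨e, heY, heX⟩ : ∃ e ∈ Y, e ∉ X := by
        by_contra hcon
        push Not at hcon
        exact hXY (eq_of_subset_of_card_le hcon hYc.ge).symm
      have h1 : X = P.erase e := by
        refine eq_of_subset_of_card_le (fun g hg => ?_) ?_
        · rw [mem_erase]
          exact ⟨fun h => heX (h ▸ hg), hXP hg⟩
        · rw [card_erase_of_mem (hY heY)]
          omega
      have h2 : Y = P.erase f := by
        refine eq_of_subset_of_card_le (fun g hg => ?_) ?_
        · rw [mem_erase]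
          exact ⟨fun h => hfY (h ▸ hg), hY hg⟩
        · rw [card_erase_of_mem (hXP hfX)]
          omega
      have hef : e ≠ f := fun h => heX (h ▸ hfX)
      refine Relation.ReflTransGen.single ⟨⟨sub_isM hP hY, f, e, hfX, heX, ?_⟩, hY.trans hPU⟩
      rw [h2, h1]
      ext g
      simp only [mem_erase, mem_insert]
      constructor
      · rintro ⟨h3, h4⟩
        by_cases h5 : g = e
        · exact Or.inl h5
        · exact Or.inr ⟨h3, h5, h4⟩
      · rintro (h3 | ⟨h3, h4, h5⟩)
        · rw [h3]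
          exact ⟨hef, hY heY⟩
        · exact ⟨h3, h5⟩
  | succ n ih =>
    intro X hn hX hc hYc hXU
    obtain ⟨f, hf, hf1⟩ := exists_f (X := X) hP hc
    rw [mem_sdiff] at hf
    have hne : (X \ P).Nonempty := by
      rw [← card_pos]
      omega
    obtain ⟨e, he, hemt⟩ : ∃ e ∈ X \ P, ∀ e' ∈ X \ P, e' ≠ e → ¬ mt f e' := by
      by_cases h0 : ({e ∈ X \ P | mt f e}).Nonempty
      · obtain ⟨e, he⟩ := h0
        refine ⟨e, (mem_filter.1 he).1, fun e' he' hne' hmt => hne' ?_⟩
        rw [card_le_one] at hf1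
        exact hf1 e' (mem_filter.2 ⟨he', hmt⟩) e he
      · obtain ⟨e, he⟩ := hne
        refine ⟨e, he, fun e' he' _ hmt => h0 ⟨e', mem_filter.2 ⟨he', hmt⟩⟩⟩
    rw [mem_sdiff] at he
    have hfe : f ≠ e := fun h => hf.2 (h ▸ he.1)
    have hnm : ∀ e' ∈ X, e' ≠ e → ¬ mt f e' := by
      intro e' he' hne'
      by_cases h1 : e' ∈ P
      · rintro ⟨v, hv, hvf⟩
        exact hP.2 e' h1 f hf.1 (fun h => hf.2 (h ▸ he')) v hv hvf
      · exact hemt e' (mem_sdiff.2 ⟨he', h1⟩) hne'
    set X1 := insert f (X.erase e) with hX1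
    have hfX1 : f ∉ X.erase e := fun h => hf.2 (mem_of_mem_erase h)
    have hX1c : X1.card = X.card := by
      rw [hX1, card_insert_of_notMem hfX1, card_erase_of_mem he.1]
      have := card_pos.2 ⟨e, he.1⟩
      omega
    have hX1M : IsM G X1 := by
      refine ⟨fun g hg => ?_, fun g hg h hh hgh v hvg hvh => ?_⟩
      · rw [hX1, mem_insert] at hg
        rcases hg with rfl | hg
        · exact hP.1 _ hf.1
        · exact hX.1 g (mem_of_mem_erase hg)
      · rw [hX1, mem_insert] at hg hh
        rcases hg with hg | hg <;> rcases hh with hh | hh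
        · exact hgh (hg.trans hh.symm)
        · rw [mem_erase] at hh
          rw [hg] at hvg
          exact hnm h hh.2 hh.1 ⟨v, hvh, hvg⟩
        · rw [mem_erase] at hg
          rw [hh] at hvh
          exact hnm g hg.2 hg.1 ⟨v, hvg, hvh⟩
        · exact hX.2 g (mem_of_mem_erase hg) h (mem_of_mem_erase hh) hgh v hvg hvh
    have hX1U : X1 ⊆ U := by
      intro g hg
      rw [hX1, mem_insert] at hg
      rcases hg with rfl | hg
      · exact hPU hf.1
      · exact hXU (mem_of_mem_erase hg)
    have hX1n : (X1 \ P).card = n := by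
      have h1 : X1 \ P = (X \ P).erase e := by
        ext g
        rw [hX1, mem_sdiff, mem_insert, mem_erase, mem_erase, mem_sdiff]
        constructor
        · rintro ⟨h1 | h1, h2⟩
          · rw [h1] at h2
            exact absurd hf.1 h2
          · exact ⟨h1.1, h1.2, h2⟩
        · rintro ⟨h1, h2, h3⟩
          exact ⟨Or.inr ⟨h1, h2⟩, h3⟩
      rw [h1, card_erase_of_mem (mem_sdiff.2 he)]
      omega
    have h3 := ih X1 hX1n hX1M (by omega) (by omega) hX1U
    exact Relation.ReflTransGen.head ⟨⟨hX1M, e, f, he.1, hf.2, hX1⟩, hX1U⟩ h3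

theorem jump : S_Jump := by
  intro V _ G X P Y hX hP hc hY hYc
  exact main (U := X ∪ P) hP hY subset_union_right _ X rfl hX hc hYc subset_union_left

end Pool.Agent.H621.ZM.Jump
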