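import Pool.Agent.H621.ZM.Spec

/-! `S_ZeroFree → S_Struct` (project ZM of helper621), by helper196. -/

set_option autoImplicit false

namespace Pool.Agent.H621.ZM.Struct

open Finset

/-- integers with many ones have all subset sums -/
lemma sums_aux {ι : Type} [DecidableEq ι] (x : ι → ℕ) (T1 : Finset ι) (h1 : ∀ i ∈ T1, x i = 1)
    (T2 : Finset ι) (h2 : ∀ i ∈ T2, x i ≤ T1.card + 1) (hd : Disjoint T1 T2) :
    ∀ j : ℕ, j ≤ T1.card + ∑ i ∈ T2, x i → ∃ U, U ⊆ T1 ∪ T2 ∧ ∑ i ∈ U, x i = j := by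
  induction T2 using Finset.induction_on with
  | empty =>
    intro j hj
    rw [Finset.sum_empty, add_zero] at hj
    obtain ⟨U, hU, hc⟩ := Finset.exists_subset_card_eq hj
    refine ⟨U, hU.trans Finset.subset_union_left, ?_⟩
    rw [Finset.sum_congr rfl (fun i hi => h1 i (hU hi))]
    simp [hc]
  | insert a T2 ha ih =>
    intro j hj
    rw [Finset.sum_insert ha] at hj
    have hd' : Disjoint T1 T2 := Disjoint.mono_right (Finset.subset_insert _ _) hd
    have ha1 : a ∉ T1 := fun h => (Finset.disjoint_left.1 hd) h (Finset.mem_insert_self _ _)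
    have ih' := ih (fun i hi => h2 i (Finset.mem_insert_of_mem hi)) hd'
    have hxa := h2 a (Finset.mem_insert_self _ _)
    by_cases hj' : j ≤ T1.card + ∑ i ∈ T2, x i
    · obtain ⟨U, hU, hs⟩ := ih' j hj'
      refine ⟨U, hU.trans ?_, hs⟩
      exact Finset.union_subset_union_right (Finset.subset_insert _ _)
    · obtain ⟨U, hU, hs⟩ := ih' (j - x a) (by omega)
      have haU : a ∉ U := by
        intro h
        rcases Finset.mem_union.1 (hU h) with h | h
        · exact ha1 h
        · exact ha h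
      refine ⟨insert a U, ?_, ?_⟩
      · apply Finset.insert_subset
        · exact Finset.mem_union_right _ (Finset.mem_insert_self _ _)
        · exact hU.trans (Finset.union_subset_union_right (Finset.subset_insert _ _))
      · rw [Finset.sum_insert haU, hs]
        have : T1.card ≤ T1.card + ∑ i ∈ T2, x i := by omega
        omega

lemma sums {ι : Type} [DecidableEq ι] (x : ι → ℕ) (T : Finset ι)
    (h : ∀ i ∈ T, x i ≤ (T.filter (fun i => x i = 1)).card + 1) (j : ℕ)
    (hj : j ≤ ∑ i ∈ T, x i) : ∃ U, U ⊆ T ∧ ∑ i ∈ U, x i = j := by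
  have hu : T.filter (fun i => x i = 1) ∪ T.filter (fun i => ¬ x i = 1) = T :=
    Finset.filter_union_filter_not_eq _ T
  have hd : Disjoint (T.filter (fun i => x i = 1)) (T.filter (fun i => ¬ x i = 1)) :=
    Finset.disjoint_filter_filter_not _ _ _
  have hsum : ∑ i ∈ T, x i = (T.filter (fun i => x i = 1)).card +
      ∑ i ∈ T.filter (fun i => ¬ x i = 1), x i := by
    rw [← Finset.sum_filter_add_sum_filter_not T (fun i => x i = 1)]
    congr 1
    rw [Finset.sum_congr rfl (fun i hi => (Finset.mem_filter.1 hi).2)]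
    simp
  obtain ⟨U, hU, hs⟩ := sums_aux x (T.filter (fun i => x i = 1))
    (fun i hi => (Finset.mem_filter.1 hi).2) (T.filter (fun i => ¬ x i = 1))
    (fun i hi => h i (Finset.mem_filter.1 hi).1) hd j (by rw [← hsum]; exact hj)
  exact ⟨U, by rw [hu] at hU; exact hU, hs⟩

/-- a multiple which is zero -/
lemma isUnit_of {s : ℕ} [NeZero s] (g : ZMod s) (B : ℕ) (hB : s + 1 ≤ 2 * B)
    (h : ∀ j : ℕ, 1 ≤ j → j ≤ B → j • g ≠ 0) : IsUnit g := by
  have hs : 0 < s := Nat.pos_of_ne_zero (NeZero.ne s)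
  set k := Nat.gcd g.val s with hk
  have hkpos : 0 < k := Nat.gcd_pos_of_pos_right _ hs
  have hks : k ∣ s := Nat.gcd_dvd_right _ _
  have hkg : k ∣ g.val := Nat.gcd_dvd_left _ _
  by_cases hk1 : k = 1
  · have h1 : IsUnit ((g.val : ℕ) : ZMod s) := (ZMod.isUnit_iff_coprime _ _).2 hk1
    rwa [ZMod.natCast_zmod_val] at h1
  · exfalso
    obtain ⟨q, hq⟩ := hks
    obtain ⟨p, hp⟩ := hkg
    have hqpos : 1 ≤ q := by
      rcases Nat.eq_zero_or_pos q with h0 | h0
      · rw [h0] at hq; omega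
      · exact h0
    have hk2 : 2 ≤ k := by omega
    have hqB : q ≤ B := by
      have : 2 * q ≤ s := by rw [hq]; exact Nat.mul_le_mul_right q hk2
      omega
    apply h q hqpos hqB
    have h2 : q • g = ((q * g.val : ℕ) : ZMod s) := by
      rw [nsmul_eq_mul, Nat.cast_mul, ZMod.natCast_zmod_val]
    rw [h2, hp]
    have h3 : q * (k * p) = s * p := by rw [hq]; ring
    rw [h3, Nat.cast_mul, ZMod.natCast_self, zero_mul]

theorem struct : S_ZeroFree → S_Struct := by
  classical
  intro hZero ι _ s t c L hs hst hL hZF ⟨x0, hx0⟩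
  have : NeZero s := ⟨by omega⟩
  set c' : ι → ZMod s := fun i => c i - x0 with hc'
  set Z := L.filter (fun i => c i = x0) with hZ
  set N := L.filter (fun i => ¬ c i = x0) with hN
  have hcard : Z.card + N.card = L.card := Finset.card_filter_add_card_filter_not _
  have hZL : Z ⊆ L := Finset.filter_subset _ _
  have hNL : N ⊆ L := Finset.filter_subset _ _
  have hZN : Disjoint N Z := (Finset.disjoint_filter_filter_not _ _ _).symm
  have hZF' : ∀ T, T ⊆ L → T.card = s → ∑ i ∈ T, c' i ≠ 0 := by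
    intro T hT hTc h
    apply hZF T hT hTc
    have e : ∑ i ∈ T, c' i = ∑ i ∈ T, c i := by
      rw [hc', Finset.sum_sub_distrib, Finset.sum_const, hTc, nsmul_eq_mul, ZMod.natCast_self,
        zero_mul, sub_zero]
    rw [← e]; exact h
  have hZ0 : ∀ i ∈ Z, c' i = 0 := fun i hi => sub_eq_zero.2 (Finset.mem_filter.1 hi).2
  have hN0 : ∀ i ∈ N, c' i ≠ 0 := fun i hi h => (Finset.mem_filter.1 hi).2 (sub_eq_zero.1 h)
  have hu : Z.card + 1 ≤ s := by
    by_contra hcon
    obtain ⟨T, hT, hTc⟩ := Finset.exists_subset_card_eq (show s ≤ Z.card by omega)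
    exact hZF' T (hT.trans hZL) hTc (Finset.sum_eq_zero fun i hi => hZ0 i (hT hi))
  -- (a)
  have ha : ∀ T, T ⊆ N → ∑ i ∈ T, c' i = 0 → T.card + Z.card + 1 ≤ s := by
    intro T hT h0
    by_contra hcon
    have hTN := Finset.card_le_card hT
    obtain ⟨U, hU, hUc⟩ := Finset.exists_subset_card_eq (show s - T.card ≤ Z.card by omega)
    have hd : Disjoint T U := Disjoint.mono hT hU hZN
    apply hZF' (T ∪ U) (Finset.union_subset (hT.trans hNL) (hU.trans hZL))
    · rw [Finset.card_union_of_disjoint hd]; omega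
    · rw [Finset.sum_union hd, h0, Finset.sum_eq_zero fun i hi => hZ0 i (hU hi), add_zero]
  -- (b)
  obtain ⟨W, hWmem, hWmax⟩ := Finset.exists_max_image
    (N.powerset.filter (fun T => ∑ i ∈ T, c' i = 0)) Finset.card ⟨∅, by simp⟩
  rw [Finset.mem_filter, Finset.mem_powerset] at hWmem
  obtain ⟨hWN, hW0⟩ := hWmem
  set Gm := N \ W with hGm
  have hGN : Gm ⊆ N := Finset.sdiff_subset
  have hE : ∀ J, J ⊆ W → ∀ G', G' ⊆ Gm → ∑ i ∈ J, c' i = ∑ i ∈ G', c' i → G'.card ≤ J.card := by
    intro J hJ G' hG' h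
    have hd : Disjoint (W \ J) G' := by
      rw [Finset.disjoint_left]
      intro i hi hi'
      exact (Finset.mem_sdiff.1 (hG' hi')).2 (Finset.mem_sdiff.1 hi).1
    have hmem : (W \ J) ∪ G' ∈ N.powerset.filter (fun T => ∑ i ∈ T, c' i = 0) := by
      rw [Finset.mem_filter, Finset.mem_powerset]
      refine ⟨Finset.union_subset (Finset.sdiff_subset.trans hWN) (hG'.trans hGN), ?_⟩
      rw [Finset.sum_union hd, ← h, Finset.sum_sdiff hJ]
      exact hW0
    have h1 := hWmax _ hmem
    rw [Finset.card_union_of_disjoint hd, Finset.card_sdiff_of_subset hJ] at h1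
    have h2 := Finset.card_le_card hJ
    omega
  have hWc := ha W hWN hW0
  have hGc : Gm.card + W.card = N.card := Finset.card_sdiff_add_card_eq_card hWN
  have hGt : t ≤ Gm.card := by omega
  have hzf : ∀ T, T ⊆ Gm → T.Nonempty → ∑ i ∈ T, c' i ≠ 0 := by
    intro T hT hTn h0
    have h1 := hE ∅ (Finset.empty_subset _) T hT (by rw [Finset.sum_empty, h0])
    rw [Finset.card_empty] at h1
    have := Finset.card_pos.2 hTn
    omega
  have hic : (Gm.powerset.image (fun T => ∑ i ∈ T, c' i)).card ≤ s := by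
    calc (Gm.powerset.image (fun T => ∑ i ∈ T, c' i)).card ≤ Fintype.card (ZMod s) :=
          Finset.card_le_univ _
      _ = s := ZMod.card s
  obtain ⟨d, x, hx, hxc, hxne⟩ := hZero (ZMod s) ι Gm c' hzf (by omega)
  set B := ∑ i ∈ Gm, x i with hB
  have hBs : B + 1 ≤ s := by omega
  have hBG : Gm.card ≤ B := by
    calc Gm.card = ∑ i ∈ Gm, 1 := by simp
      _ ≤ B := Finset.sum_le_sum fun i hi => (hx i hi).1
  have hunit : IsUnit d := isUnit_of d B (by omega) hxne
  obtain ⟨du, hdu⟩ := hunit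
  have hsumx : ∀ G', G' ⊆ Gm → ∑ i ∈ G', c' i = ((∑ i ∈ G', x i : ℕ) : ZMod s) * d := by
    intro G' hG'
    rw [Nat.cast_sum, Finset.sum_mul]
    apply Finset.sum_congr rfl
    intro i hi
    rw [(hx i (hG' hi)).2, nsmul_eq_mul]
  -- (c)
  set ν := (Gm.filter (fun i => x i = 1)).card with hν
  have hxν : ∀ i ∈ Gm, x i ≤ ν := by
    intro i0 hi0
    rcases Nat.lt_or_ge (x i0) 2 with h1 | h1
    · have h2 : x i0 = 1 := by have := (hx i0 hi0).1; omega
      rw [h2]
      exact Finset.card_pos.2 ⟨i0, Finset.mem_filter.2 ⟨hi0, h2⟩⟩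
    · have h2 : B + ν = ∑ i ∈ Gm, (x i + if x i = 1 then 1 else 0) := by
        rw [Finset.sum_add_distrib, hν, Finset.card_filter]
      have h3 : ∑ i ∈ Gm, (x i + if x i = 1 then 1 else 0) =
          (x i0 + if x i0 = 1 then 1 else 0) +
            ∑ i ∈ Gm.erase i0, (x i + if x i = 1 then 1 else 0) :=
        (Finset.add_sum_erase Gm _ hi0).symm
      have h4 : (Gm.erase i0).card * 2 ≤ ∑ i ∈ Gm.erase i0, (x i + if x i = 1 then 1 else 0) := by
        calc (Gm.erase i0).card * 2 = ∑ i ∈ Gm.erase i0, 2 := by simp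
          _ ≤ _ := by
            apply Finset.sum_le_sum
            intro i hi
            have h5 := (hx i (Finset.mem_of_mem_erase hi)).1
            split_ifs <;> omega
      rw [Finset.card_erase_of_mem hi0] at h4
      have h6 := Finset.card_pos.2 ⟨i0, hi0⟩
      omega
  have hGne : Gm.Nonempty := Finset.card_pos.1 (by omega)
  obtain ⟨e, he⟩ : (Gm.filter (fun i => x i = 1)).Nonempty := by
    obtain ⟨i, hi⟩ := hGne
    apply Finset.card_pos.1
    have h1 := (hx i hi).1
    have h2 := hxν i hi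
    omega
  obtain ⟨heG, he1⟩ := Finset.mem_filter.1 he
  have hsG : ∀ j : ℕ, j ≤ B → ∃ U, U ⊆ Gm ∧ ∑ i ∈ U, x i = j := fun j hj =>
    sums x Gm (fun i hi => by have := hxν i hi; omega) j hj
  have hsE : ∀ j : ℕ, j + 1 ≤ B → ∃ U, U ⊆ Gm.erase e ∧ ∑ i ∈ U, x i = j := by
    intro j hj
    have hfe : ((Gm.erase e).filter (fun i => x i = 1)).card + 1 = ν := by
      have h1 : Gm.filter (fun i => x i = 1) =
          insert e ((Gm.erase e).filter (fun i => x i = 1)) := by
        ext i
        simp only [Finset.mem_filter, Finset.mem_insert, Finset.mem_erase]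
        constructor
        · rintro ⟨h2, h3⟩
          by_cases h4 : i = e
          · exact Or.inl h4
          · exact Or.inr ⟨⟨h4, h2⟩, h3⟩
        · rintro (h2 | ⟨⟨_, h2⟩, h3⟩)
          · rw [h2]; exact ⟨heG, he1⟩
          · exact ⟨h2, h3⟩
      rw [hν, h1, Finset.card_insert_of_notMem (by simp)]
    apply sums x (Gm.erase e)
    · intro i hi
      have := hxν i (Finset.mem_of_mem_erase hi)
      omega
    · have h2 : B = x e + ∑ i ∈ Gm.erase e, x i := (Finset.add_sum_erase Gm _ heG).symm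
      omega
  -- (d)
  set r : ι → ℕ := fun y => ((↑du⁻¹ : ZMod s) * c' y).val with hr
  have hrc : ∀ y, c' y = ((r y : ℕ) : ZMod s) * d := by
    intro y
    rw [hr]
    simp only
    rw [ZMod.natCast_zmod_val, ← hdu, mul_comm, ← mul_assoc, Units.mul_inv, one_mul]
  have hrlt : ∀ y, r y < s := fun y => ZMod.val_lt _
  have hr0 : ∀ y ∈ N, 1 ≤ r y := by
    intro y hy
    rcases Nat.eq_zero_or_pos (r y) with h0 | h0
    · exfalso
      apply hN0 y hy
      rw [hrc y, h0, Nat.cast_zero, zero_mul]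
    · exact h0
  have hrW : ∀ y ∈ W, r y = 1 ∨ B + 1 ≤ r y := by
    intro y hy
    by_contra hcon
    rw [not_or] at hcon
    have h1 := hr0 y (hWN hy)
    obtain ⟨U, hU, hUs⟩ := hsE (r y - 1) (by omega)
    have heU : e ∉ U := fun h => by
      have := hU h
      simp at this
    have hUne : U.Nonempty := by
      rw [Finset.nonempty_iff_ne_empty]
      intro h
      rw [h, Finset.sum_empty] at hUs
      omega
    have h2 := hE {y} (Finset.singleton_subset_iff.2 hy) (insert e U)
      (Finset.insert_subset heG (hU.trans (Finset.erase_subset _ _))) (by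
        rw [Finset.sum_singleton, hsumx _ (Finset.insert_subset heG
          (hU.trans (Finset.erase_subset _ _))), Finset.sum_insert heU, hUs, he1, hrc y]
        congr 2
        omega)
    rw [Finset.card_insert_of_notMem heU, Finset.card_singleton] at h2
    have h3 := Finset.card_pos.2 hUne
    omega
  set Pos := W.filter (fun y => r y = 1) with hPos
  set Neg := W.filter (fun y => ¬ r y = 1) with hNeg
  have hPN : Pos.card + Neg.card = W.card := Finset.card_filter_add_card_filter_not _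
  set z : ι → ℕ := fun y => s - r y with hz
  have hzN : ∀ y ∈ Neg, 1 ≤ z y ∧ z y + B + 1 ≤ s ∧ z y + r y = s := by
    intro y hy
    obtain ⟨h1, h2⟩ := Finset.mem_filter.1 hy
    have h3 := hrlt y
    have h4 := hrW y h1
    rw [hz]
    simp only
    omega
  have hzc : ∀ J, J ⊆ Neg → ∑ i ∈ J, c' i = -(((∑ i ∈ J, z i : ℕ) : ZMod s) * d) := by
    intro J hJ
    rw [Nat.cast_sum, Finset.sum_mul, ← Finset.sum_neg_distrib]
    apply Finset.sum_congr rfl
    intro i hi
    have h1 := (hzN i (hJ hi)).2.2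
    have h2 : ((z i : ℕ) : ZMod s) + ((r i : ℕ) : ZMod s) = 0 := by
      rw [← Nat.cast_add, h1, ZMod.natCast_self]
    rw [hrc i, eq_neg_of_add_eq_zero_right h2]
    ring
  set μ := Pos.card with hμ
  set Zs := ∑ i ∈ Neg, z i with hZs
  have hcong : ((μ : ℕ) : ZMod s) = ((Zs : ℕ) : ZMod s) := by
    have h1 : ∑ i ∈ W, c' i = ∑ i ∈ Pos, c' i + ∑ i ∈ Neg, c' i :=
      (Finset.sum_filter_add_sum_filter_not W _ _).symm
    have h2 : ∑ i ∈ Pos, c' i = ((μ : ℕ) : ZMod s) * d := by
      rw [Finset.sum_congr rfl (fun i hi => by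
        rw [hrc i, (Finset.mem_filter.1 hi).2, Nat.cast_one, one_mul] :
        ∀ i ∈ Pos, c' i = d), Finset.sum_const, nsmul_eq_mul]
    rw [hW0, h2, hzc Neg (Finset.Subset.refl _)] at h1
    have h3 : ((μ : ℕ) : ZMod s) * d = ((Zs : ℕ) : ZMod s) * d := by
      have := h1.symm
      linear_combination this
    rw [← hdu] at h3
    exact (Units.mul_left_inj du).1 h3
  -- (e)
  have hZsB : Zs + B + 1 ≤ s := by
    by_contra hcon
    have hNne : Neg.Nonempty := by
      rw [Finset.nonempty_iff_ne_empty]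
      intro h
      rw [hZs, h, Finset.sum_empty] at hcon
      omega
    obtain ⟨ym, hym, hmax⟩ := Finset.exists_max_image Neg z hNne
    obtain ⟨J, hJm, hJmin⟩ := Finset.exists_min_image
      (Neg.powerset.filter (fun J => ym ∈ J ∧ s ≤ ∑ i ∈ J, z i + B)) Finset.card
      ⟨Neg, by
        rw [Finset.mem_filter, Finset.mem_powerset]
        exact ⟨Finset.Subset.refl _, hym, by omega⟩⟩
    rw [Finset.mem_filter, Finset.mem_powerset] at hJm
    obtain ⟨hJN, hymJ, hJs⟩ := hJm
    have hzm := hzN ym hym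
    have hsplit : ∑ i ∈ J, z i = z ym + ∑ i ∈ J.erase ym, z i :=
      (Finset.add_sum_erase J _ hymJ).symm
    have hne : (J.erase ym).Nonempty := by
      rw [Finset.nonempty_iff_ne_empty]
      intro h
      rw [h, Finset.sum_empty] at hsplit
      omega
    obtain ⟨y', hy'⟩ := hne
    obtain ⟨hy'ne, hy'J⟩ := Finset.mem_erase.1 hy'
    have hJ'c : (J.erase y').card + 1 = J.card := Finset.card_erase_add_one hy'J
    have hsplit' : ∑ i ∈ J, z i = z y' + ∑ i ∈ J.erase y', z i :=
      (Finset.add_sum_erase J _ hy'J).symm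
    have hymJ' : ym ∈ J.erase y' := Finset.mem_erase.2 ⟨fun h => hy'ne h.symm, hymJ⟩
    have hJ'lt : ∑ i ∈ J.erase y', z i + B + 1 ≤ s := by
      by_contra hcon'
      have h1 := hJmin (J.erase y') (by
        rw [Finset.mem_filter, Finset.mem_powerset]
        exact ⟨(Finset.erase_subset _ _).trans hJN, hymJ', by omega⟩)
      omega
    have hzy' : z y' ≤ z ym := hmax y' (hJN hy'J)
    have hsplit2 : ∑ i ∈ J.erase y', z i = z ym + ∑ i ∈ (J.erase y').erase ym, z i :=
      (Finset.add_sum_erase (J.erase y') _ hymJ').symm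
    have hc2 : ((J.erase y').erase ym).card + 1 = (J.erase y').card :=
      Finset.card_erase_add_one hymJ'
    have hlow : ((J.erase y').erase ym).card ≤ ∑ i ∈ (J.erase y').erase ym, z i := by
      calc ((J.erase y').erase ym).card = ∑ i ∈ (J.erase y').erase ym, 1 := by simp
        _ ≤ _ := by
          apply Finset.sum_le_sum
          intro i hi
          exact (hzN i (hJN (Finset.mem_of_mem_erase (Finset.mem_of_mem_erase hi)))).1
    set zJ := ∑ i ∈ J, z i with hzJ
    obtain ⟨R, hR, hRs⟩ := hsG (zJ + B - s) (by omega)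
    have hRc : R.card ≤ ∑ i ∈ R, x i := by
      calc R.card = ∑ i ∈ R, 1 := by simp
        _ ≤ _ := Finset.sum_le_sum fun i hi => (hx i (hR hi)).1
    have hGRs : ∑ i ∈ Gm \ R, x i + ∑ i ∈ R, x i = B := Finset.sum_sdiff hR
    have hGRc : (Gm \ R).card + R.card = Gm.card := Finset.card_sdiff_add_card_eq_card hR
    have hval : ∑ i ∈ Gm \ R, x i + zJ = s := by omega
    have h1 := hE J (hJN.trans (Finset.filter_subset _ _)) (Gm \ R) Finset.sdiff_subset (by
      rw [hsumx _ Finset.sdiff_subset, hzc J hJN]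
      have h2 : ((∑ i ∈ Gm \ R, x i : ℕ) : ZMod s) + ((zJ : ℕ) : ZMod s) = 0 := by
        rw [← Nat.cast_add, hval, ZMod.natCast_self]
      rw [eq_neg_of_add_eq_zero_left h2]
      ring)
    omega
  have hμZ : μ = Zs := by
    have h1 : μ < s := by omega
    have h2 : Zs < s := by omega
    have h3 := (ZMod.natCast_eq_natCast_iff' μ Zs s).1 hcong
    rwa [Nat.mod_eq_of_lt h1, Nat.mod_eq_of_lt h2] at h3
  -- the lift
  set w : ι → ℤ := fun i => if c i = x0 then 0 else if i ∈ W then
    (if r i = 1 then 1 else -(z i : ℤ)) else (x i : ℤ) with hw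
  have wZ : ∀ i ∈ Z, w i = 0 := by
    intro i hi
    rw [hw]
    simp only
    rw [if_pos (Finset.mem_filter.1 hi).2]
  have wP : ∀ i ∈ Pos, w i = 1 := by
    intro i hi
    obtain ⟨h1, h2⟩ := Finset.mem_filter.1 hi
    rw [hw]
    simp only
    rw [if_neg (Finset.mem_filter.1 (hWN h1)).2, if_pos h1, if_pos h2]
  have wN : ∀ i ∈ Neg, w i = -(z i : ℤ) := by
    intro i hi
    obtain ⟨h1, h2⟩ := Finset.mem_filter.1 hi
    rw [hw]
    simp only
    rw [if_neg (Finset.mem_filter.1 (hWN h1)).2, if_pos h1, if_neg h2]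
  have wG : ∀ i ∈ Gm, w i = (x i : ℤ) := by
    intro i hi
    obtain ⟨h1, h2⟩ := Finset.mem_sdiff.1 hi
    rw [hw]
    simp only
    rw [if_neg (Finset.mem_filter.1 h1).2, if_neg h2]
  have hsplitL : ∀ f : ι → ℤ, ∑ i ∈ L, f i =
      ∑ i ∈ Z, f i + (∑ i ∈ Gm, f i + (∑ i ∈ Pos, f i + ∑ i ∈ Neg, f i)) := by
    intro f
    have h1 : ∑ i ∈ L, f i = ∑ i ∈ Z, f i + ∑ i ∈ N, f i :=
      (Finset.sum_filter_add_sum_filter_not L _ _).symm
    have h2 : ∑ i ∈ N, f i = ∑ i ∈ Gm, f i + ∑ i ∈ W, f i := (Finset.sum_sdiff hWN).symm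
    have h3 : ∑ i ∈ W, f i = ∑ i ∈ Pos, f i + ∑ i ∈ Neg, f i :=
      (Finset.sum_filter_add_sum_filter_not W _ _).symm
    rw [h1, h2, h3]
  refine ⟨x0, d, w, ⟨du, hdu⟩, ?_, ?_, ?_⟩
  · intro i hi
    have hci : c i = x0 + c' i := by rw [hc']; ring
    by_cases h1 : c i = x0
    · rw [wZ i (Finset.mem_filter.2 ⟨hi, h1⟩), Int.cast_zero, mul_zero, add_zero]
      exact h1
    · have hiN : i ∈ N := Finset.mem_filter.2 ⟨hi, h1⟩
      rw [hci]
      congr 1
      by_cases h2 : i ∈ W
      · by_cases h3 : r i = 1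
        · rw [wP i (Finset.mem_filter.2 ⟨h2, h3⟩), hrc i, h3]
          push_cast
          ring
        · have h4 : i ∈ Neg := Finset.mem_filter.2 ⟨h2, h3⟩
          rw [wN i h4, hrc i]
          have h5 : ((z i : ℕ) : ZMod s) + ((r i : ℕ) : ZMod s) = 0 := by
            rw [← Nat.cast_add, (hzN i h4).2.2, ZMod.natCast_self]
          rw [eq_neg_of_add_eq_zero_right h5]
          push_cast
          ring
      · have h4 : i ∈ Gm := Finset.mem_sdiff.2 ⟨hiN, h2⟩
        rw [wG i h4, (hx i h4).2, nsmul_eq_mul]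
        push_cast
        ring
  · unfold aa
    rw [hsplitL]
    have s1 : ∑ i ∈ Z, max (1 - w i) 0 = (Z.card : ℤ) := by
      rw [Finset.sum_congr rfl (fun i hi => by rw [wZ i hi]; norm_num :
        ∀ i ∈ Z, max (1 - w i) 0 = 1)]
      simp
    have s2 : ∑ i ∈ Gm, max (1 - w i) 0 = 0 := by
      apply Finset.sum_eq_zero
      intro i hi
      rw [wG i hi]
      have := (hx i hi).1
      apply max_eq_right
      omega
    have s3 : ∑ i ∈ Pos, max (1 - w i) 0 = 0 := by
      apply Finset.sum_eq_zero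
      intro i hi
      rw [wP i hi]
      norm_num
    have s4 : ∑ i ∈ Neg, max (1 - w i) 0 = (Neg.card : ℤ) + (Zs : ℤ) := by
      rw [Finset.sum_congr rfl (fun i hi => by
        rw [wN i hi]
        rw [max_eq_left (by omega)]
        ring : ∀ i ∈ Neg, max (1 - w i) 0 = 1 + (z i : ℤ)), Finset.sum_add_distrib, hZs]
      push_cast
      simp
    rw [s1, s2, s3, s4]
    omega
  · unfold bb
    rw [hsplitL]
    have s1 : ∑ i ∈ Z, max (w i) 0 = 0 := by
      apply Finset.sum_eq_zero
      intro i hi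
      rw [wZ i hi]
      norm_num
    have s2 : ∑ i ∈ Gm, max (w i) 0 = (B : ℤ) := by
      rw [Finset.sum_congr rfl (fun i hi => by
        rw [wG i hi]
        exact max_eq_left (by omega) : ∀ i ∈ Gm, max (w i) 0 = (x i : ℤ)), hB]
      push_cast
      rfl
    have s3 : ∑ i ∈ Pos, max (w i) 0 = (μ : ℤ) := by
      rw [Finset.sum_congr rfl (fun i hi => by rw [wP i hi]; norm_num :
        ∀ i ∈ Pos, max (w i) 0 = 1)]
      simp [hμ]
    have s4 : ∑ i ∈ Neg, max (w i) 0 = 0 := by
      apply Finset.sum_eq_zero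
      intro i hi
      rw [wN i hi]
      apply max_eq_right
      omega
    rw [s1, s2, s3, s4]
    omega

end Pool.Agent.H621.ZM.Struct
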