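import Pool.Agent.H621.ZM.Spec

/-!
# ZM SWAP1: exchange of one term (helper157)
-/

set_option autoImplicit false

namespace Pool.Agent.H621.ZM.Swap1

open Finset Pool.Agent.H621.ZM

variable {ι : Type} [DecidableEq ι]

omit [DecidableEq ι] in
/-- lower bound for the number of ones -/
theorem ones_ge (w : ι → ℤ) (L : Finset ι) (q : ι) (hq : q ∈ L) :
    2 * (L.card : ℤ) - 2 * aa w L - bb w L + (max (w q - 2) 0 + 2 * max (-w q) 0) ≤
      ((L.filter (fun i => w i = 1)).card : ℤ) := by
  have h0 : ∀ i ∈ L, (0 : ℤ) ≤ (if w i = 1 then 1 else 0) -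
      (2 - 2 * max (1 - w i) 0 - max (w i) 0) := by
    intro i _
    split_ifs with h
    · rw [h]; norm_num
    · rcases lt_or_ge (w i) 1 with h1 | h1
      · rw [max_eq_left (by omega : (0 : ℤ) ≤ 1 - w i), max_eq_right (by omega : w i ≤ 0)]
        omega
      · rw [max_eq_right (by omega : 1 - w i ≤ 0), max_eq_left (by omega : (0 : ℤ) ≤ w i)]
        omega
  have h1 := Finset.single_le_sum h0 hq
  have h2 : ∑ i ∈ L, ((if w i = 1 then (1 : ℤ) else 0) -
      (2 - 2 * max (1 - w i) 0 - max (w i) 0)) =
      ((L.filter (fun i => w i = 1)).card : ℤ) - (2 * (L.card : ℤ) - 2 * aa w L - bb w L) := by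
    rw [Finset.sum_sub_distrib, Finset.sum_sub_distrib, Finset.sum_sub_distrib,
      ← Finset.mul_sum, Finset.sum_const, nsmul_eq_mul, Finset.card_filter]
    unfold aa bb
    push_cast
    ring
  rw [h2] at h1
  have h3 : max (w q - 2) 0 + 2 * max (-w q) 0 ≤ (if w q = 1 then (1 : ℤ) else 0) -
      (2 - 2 * max (1 - w q) 0 - max (w q) 0) := by
    split_ifs with h
    · rw [h]; norm_num
    · rcases lt_or_ge (w q) 1 with h1 | h1
      · rw [max_eq_left (by omega : (0 : ℤ) ≤ 1 - w q), max_eq_right (by omega : w q ≤ 0),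
          max_eq_right (by omega : w q - 2 ≤ 0), max_eq_left (by omega : 0 ≤ -w q)]
        omega
      · rw [max_eq_right (by omega : 1 - w q ≤ 0), max_eq_left (by omega : (0 : ℤ) ≤ w q),
          max_eq_left (by omega : 0 ≤ w q - 2), max_eq_right (by omega : -w q ≤ 0)]
        omega
  linarith

omit [DecidableEq ι] in
/-- lower bound for the number of zeros -/
theorem zeros_ge (w : ι → ℤ) (L : Finset ι) (q : ι) (hq : q ∈ L) :
    2 * (L.card : ℤ) - 2 * bb w L - aa w L + (max (-1 - w q) 0 + 2 * max (w q - 1) 0) ≤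
      ((L.filter (fun i => w i = 0)).card : ℤ) := by
  have h0 : ∀ i ∈ L, (0 : ℤ) ≤ (if w i = 0 then 1 else 0) -
      (2 - 2 * max (w i) 0 - max (1 - w i) 0) := by
    intro i _
    split_ifs with h
    · rw [h]; norm_num
    · rcases lt_or_ge (w i) 1 with h1 | h1
      · rw [max_eq_left (by omega : (0 : ℤ) ≤ 1 - w i), max_eq_right (by omega : w i ≤ 0)]
        omega
      · rw [max_eq_right (by omega : 1 - w i ≤ 0), max_eq_left (by omega : (0 : ℤ) ≤ w i)]
        omega
  have h1 := Finset.single_le_sum h0 hq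
  have h2 : ∑ i ∈ L, ((if w i = 0 then (1 : ℤ) else 0) -
      (2 - 2 * max (w i) 0 - max (1 - w i) 0)) =
      ((L.filter (fun i => w i = 0)).card : ℤ) - (2 * (L.card : ℤ) - 2 * bb w L - aa w L) := by
    rw [Finset.sum_sub_distrib, Finset.sum_sub_distrib, Finset.sum_sub_distrib,
      ← Finset.mul_sum, Finset.sum_const, nsmul_eq_mul, Finset.card_filter]
    unfold aa bb
    push_cast
    ring
  rw [h2] at h1
  have h3 : max (-1 - w q) 0 + 2 * max (w q - 1) 0 ≤ (if w q = 0 then (1 : ℤ) else 0) -
      (2 - 2 * max (w q) 0 - max (1 - w q) 0) := by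
    split_ifs with h
    · rw [h]; norm_num
    · rcases lt_or_ge (w q) 1 with h1 | h1
      · rw [max_eq_left (by omega : (0 : ℤ) ≤ 1 - w q), max_eq_right (by omega : w q ≤ 0),
          max_eq_left (by omega : 0 ≤ -1 - w q), max_eq_right (by omega : w q - 1 ≤ 0)]
        omega
      · rw [max_eq_right (by omega : 1 - w q ≤ 0), max_eq_left (by omega : (0 : ℤ) ≤ w q),
          max_eq_right (by omega : -1 - w q ≤ 0), max_eq_left (by omega : 0 ≤ w q - 1)]
        omega
  linarith

theorem filter_insert_le (L0 : Finset ι) (i : ι) (p : ι → Prop) [DecidablePred p] :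
    (((insert i L0).filter p).card : ℤ) ≤ ((L0.filter p).card : ℤ) + 1 := by
  rw [Finset.filter_insert]
  split_ifs
  · exact_mod_cast Finset.card_insert_le _ _
  · linarith

omit [DecidableEq ι] in
theorem neg_le_aa (w : ι → ℤ) (L : Finset ι) :
    ((L.filter (fun i => w i ≤ 0)).card : ℤ) ≤ aa w L := by
  rw [Finset.card_filter]
  unfold aa
  push_cast
  refine Finset.sum_le_sum fun i _ => ?_
  split_ifs with h
  · exact le_max_of_le_left (by omega)
  · exact le_max_right _ _

omit [DecidableEq ι] in
theorem pos_le_bb (w : ι → ℤ) (L : Finset ι) :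
    ((L.filter (fun i => 1 ≤ w i)).card : ℤ) ≤ bb w L := by
  rw [Finset.card_filter]
  unfold bb
  push_cast
  refine Finset.sum_le_sum fun i _ => ?_
  split_ifs with h
  · exact le_max_of_le_left (by omega)
  · exact le_max_right _ _

theorem aa_insert (w : ι → ℤ) {L : Finset ι} {i : ι} (h : i ∉ L) :
    aa w (insert i L) = max (1 - w i) 0 + aa w L := by
  unfold aa
  rw [Finset.sum_insert h]

theorem bb_insert (w : ι → ℤ) {L : Finset ι} {i : ι} (h : i ∉ L) :
    bb w (insert i L) = max (w i) 0 + bb w L := by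
  unfold bb
  rw [Finset.sum_insert h]

theorem swap1 : S_Interval → S_Swap1 := by
  intro hI ι _ s t c g d w L0 i j hs hd hi hj hcard hgood hH hZF
  obtain ⟨hlift, haa, hbb⟩ := hgood
  have hs0 : NeZero s := ⟨by omega⟩
  have hcL : ((insert i L0).card : ℤ) = (s : ℤ) + t - 1 := by
    rw [Finset.card_insert_of_notMem hi]
    push_cast
    have : (L0.card : ℤ) + 2 = s + t := by exact_mod_cast hcard
    linarith
  have hcL0 : (L0.card : ℤ) + 2 = s + t := by exact_mod_cast hcard
  have ha0 : aa w L0 ≤ aa w (insert i L0) := by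
    rw [aa_insert w hi]
    have := le_max_right (1 - w i) 0
    linarith
  have hb0 : bb w L0 ≤ bb w (insert i L0) := by
    rw [bb_insert w hi]
    have := le_max_right (w i) 0
    linarith
  have hmem : ∀ p ∈ L0, p ∈ insert i L0 := fun p hp => Finset.mem_insert_of_mem hp
  have hint := hI ι L0 w (s - 1) (by
      have := neg_le_aa w L0
      have h2 : ((L0.filter (fun i => w i ≤ 0)).card : ℤ) ≤ (s : ℤ) - 1 := by linarith
      omega) (by
      have := pos_le_bb w L0
      have h2 : ((L0.filter (fun i => 1 ≤ w i)).card : ℤ) ≤ (s : ℤ) - 1 := by linarith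
      omega) (by
      have h1 : ((s - 1 : ℕ) : ℤ) = (s : ℤ) - 1 := by omega
      rw [h1]
      have h2 : (0 : ℤ) ≤ t := by positivity
      have h3 : ((insert i L0).card : ℤ) ≤ aa w (insert i L0) + bb w (insert i L0) := by
        unfold aa bb
        rw [← Finset.sum_add_distrib, Finset.card_eq_sum_ones]
        push_cast
        refine Finset.sum_le_sum fun q _ => ?_
        rcases lt_or_ge (w q) 1 with h1 | h1
        · have := le_max_left (1 - w q) 0
          have := le_max_right (w q) 0
          omega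
        · have := le_max_right (1 - w q) 0
          have := le_max_left (w q) 0
          omega
      linarith) (by
      have h1 : ((s - 1 : ℕ) : ℤ) = (s : ℤ) - 1 := by omega
      rw [h1]
      linarith) (by
      intro p hp hwp
      have h1 := ones_ge w (insert i L0) p (hmem p hp)
      have h2 := zeros_ge w (insert i L0) p (hmem p hp)
      have h3 := filter_insert_le L0 i (fun q => w q = 1)
      have h4 := filter_insert_le L0 i (fun q => w q = 0)
      have h5 := le_max_left (w p - 2) 0
      have h6 := le_max_right (-w p) 0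
      have h7 := le_max_left (w p - 1) 0
      have h8 := le_max_right (-1 - w p) 0
      constructor <;> linarith) (by
      intro p hp hwp
      have h1 := ones_ge w (insert i L0) p (hmem p hp)
      have h2 := zeros_ge w (insert i L0) p (hmem p hp)
      have h3 := filter_insert_le L0 i (fun q => w q = 1)
      have h4 := filter_insert_le L0 i (fun q => w q = 0)
      have h5 := le_max_right (w p - 2) 0
      have h6 := le_max_left (-w p) 0
      have h7 := le_max_right (w p - 1) 0
      have h8 := le_max_left (-1 - w p) 0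
      constructor <;> linarith)
  -- the lift of the new term
  obtain ⟨e, he⟩ := hd
  obtain ⟨y, hy⟩ : ∃ y : ZMod s, c j = g + d * y := by
    refine ⟨((e⁻¹ : (ZMod s)ˣ) : ZMod s) * (c j - g), ?_⟩
    rw [← he, ← mul_assoc, Units.mul_inv, one_mul]
    ring
  obtain ⟨X, hXy, hX1, hX2⟩ : ∃ X : ℤ, (X : ZMod s) = y ∧ -bb w L0 ≤ X ∧
      X ≤ -bb w L0 + s - 1 := by
    have hsp : (0 : ℤ) < s := by omega
    refine ⟨((y.val : ℤ) + bb w L0) % s - bb w L0, ?_, ?_, ?_⟩
    · push_cast
      rw [ZMod.natCast_zmod_val]
      ring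
    · have := Int.emod_nonneg ((y.val : ℤ) + bb w L0) hsp.ne'
      linarith
    · have := Int.emod_lt_of_pos ((y.val : ℤ) + bb w L0) hsp
      linarith
  have hXa : aa w L0 + 2 - s ≤ X := by
    by_contra hcon
    have h1 : ((s - 1 : ℕ) : ℤ) = (s : ℤ) - 1 := by omega
    obtain ⟨T, hT, hTc, hTs⟩ := hint (-X) (by rw [h1]; linarith) (by linarith)
    have hjT : j ∉ T := fun h => hj (hT h)
    refine hZF (insert j T) (Finset.insert_subset_insert j hT) ?_ ?_
    · rw [Finset.card_insert_of_notMem hjT, hTc]
      omega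
    · rw [Finset.sum_insert hjT]
      have h2 : ∑ q ∈ T, c q = ∑ q ∈ T, (g + d * (w q : ZMod s)) :=
        Finset.sum_congr rfl fun q hq => hlift q (hmem q (hT hq))
      rw [h2, Finset.sum_add_distrib, ← Finset.mul_sum, Finset.sum_const, hTc, nsmul_eq_mul]
      have h3 : ∑ q ∈ T, (w q : ZMod s) = -(y : ZMod s) := by
        rw [← hXy]
        have : ((∑ q ∈ T, w q : ℤ) : ZMod s) = ((-X : ℤ) : ZMod s) := by rw [hTs]
        push_cast at this
        exact this
      have h4 : ((s - 1 : ℕ) : ZMod s) = -1 := by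
        rw [Nat.cast_sub (by omega), ZMod.natCast_self]
        simp
      rw [h3, h4, hy]
      ring
  refine ⟨Function.update w j X, ⟨?_, ?_, ?_⟩, ?_⟩
  · intro q hq
    rcases Finset.mem_insert.1 hq with rfl | hq
    · rw [Function.update_self, hXy]
      exact hy
    · have hqj : q ≠ j := fun h => hj (h ▸ hq)
      rw [Function.update_of_ne hqj]
      exact hlift q (hmem q hq)
  · rw [aa_insert _ hj, Function.update_self]
    have h1 : aa (Function.update w j X) L0 = aa w L0 := by
      unfold aa
      refine Finset.sum_congr rfl fun q hq => ?_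
      have hqj : q ≠ j := fun h => hj (h ▸ hq)
      rw [Function.update_of_ne hqj]
    rw [h1]
    rcases le_total (1 - X) 0 with h2 | h2
    · rw [max_eq_right h2]; linarith
    · rw [max_eq_left h2]; linarith
  · rw [bb_insert _ hj, Function.update_self]
    have h1 : bb (Function.update w j X) L0 = bb w L0 := by
      unfold bb
      refine Finset.sum_congr rfl fun q hq => ?_
      have hqj : q ≠ j := fun h => hj (h ▸ hq)
      rw [Function.update_of_ne hqj]
    rw [h1]
    rcases le_total X 0 with h2 | h2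
    · rw [max_eq_right h2]; linarith
    · rw [max_eq_left h2]; linarith
  · intro q hq
    have hqj : q ≠ j := fun h => hj (h ▸ hq)
    rw [Function.update_of_ne hqj]

end Pool.Agent.H621.ZM.Swap1
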