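import Pool.Agent.H621.ZM.Spec
import Pool.Graph.R_pool_sql_team_39128cda.Lib.helper26_.Berge

/-!
# TWOCOL (subtask 10730, owner helper621)
-/

set_option autoImplicit false

namespace Pool.Agent.H621.ZM.TwoCol

open Finset Pool.Agent.H621.ZM

theorem matching_of_inv {V : Type} [Fintype V] [DecidableEq V] (G : SimpleGraph V) (f : V → V)
    (h1 : ∀ v, f (f v) = v) (h2 : ∀ v, f v ≠ v → G.Adj v (f v)) (d : ℕ)
    (h3 : #{v | f v = v} ≤ d) : ∃ F, IsM G F ∧ Fintype.card V ≤ 2 * F.card + d := by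
  classical
  obtain ⟨A, hA⟩ : ∃ A : Finset V, A = univ.filter fun v => f v ≠ v := ⟨_, rfl⟩
  refine ⟨A.image fun v => s(v, f v), ⟨?_, ?_⟩, ?_⟩
  · intro e he
    obtain ⟨v, hv, rfl⟩ := mem_image.1 he
    rw [hA, mem_filter] at hv
    exact h2 v hv.2
  · have key : ∀ a v, v ∈ s(a, f a) → s(a, f a) = s(v, f v) := by
      intro a v hv
      rcases Sym2.mem_iff.1 hv with h | h
      · rw [h]
      · rw [h, h1, Sym2.eq_swap]
    intro e he g hg hne v hve hvg
    obtain ⟨a, -, rfl⟩ := mem_image.1 he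
    obtain ⟨b, -, rfl⟩ := mem_image.1 hg
    exact hne ((key a v hve).trans (key b v hvg).symm)
  · have hc : A.card ≤ 2 * (A.image fun v => s(v, f v)).card := by
      refine card_le_mul_card_image A 2 ?_
      intro e he
      obtain ⟨v, -, rfl⟩ := mem_image.1 he
      refine le_trans (card_le_card (t := {v, f v}) ?_) card_le_two
      intro w hw
      rw [mem_filter] at hw
      have h5 : w ∈ s(v, f v) := by
        rw [← hw.2]; exact Sym2.mem_mk_left _ _
      rw [mem_insert, mem_singleton]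
      exact Sym2.mem_iff.1 h5
    have hs : #{v | f v = v} + A.card = Fintype.card V := by
      rw [hA, ← card_univ]
      exact card_filter_add_card_filter_not _
    omega

theorem classes {V : Type} [DecidableEq V] (G : SimpleGraph V) (S : Finset V)
    (K : Finset (Finset V))
    (hK : ∀ C ∈ K, Odd #C ∧ Disjoint C S ∧ ∀ v ∈ C, ∀ w, G.Adj v w → w ∈ C ∨ w ∈ S)
    (hd : (K : Set (Finset V)).PairwiseDisjoint id) :
    ∃ κ : V → Finset V, (∀ v, v ∉ S → ∀ w, w ∉ S → G.Adj v w → κ v = κ w) ∧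
      ∀ C ∈ K, ∀ v ∈ C, κ v = C := by
  classical
  by_cases hne : K.Nonempty
  swap
  · refine ⟨fun _ => ∅, fun _ _ _ _ _ => rfl, ?_⟩
    intro C hC
    exact (hne ⟨C, hC⟩).elim
  obtain ⟨C0, hC0⟩ := hne
  have huniq : ∀ C ∈ K, ∀ D ∈ K, ∀ v, v ∈ C → v ∈ D → C = D := by
    intro C hC D hD v hvC hvD
    by_contra hne
    exact (Finset.disjoint_left.1 (hd hC hD hne) hvC hvD).elim
  obtain ⟨κ, hκ⟩ : ∃ κ : V → Finset V, κ = fun v => if h : ∃ C ∈ K, v ∈ C then h.choose else C0 :=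
    ⟨_, rfl⟩
  have hin : ∀ C ∈ K, ∀ v ∈ C, κ v = C := by
    intro C hC v hv
    have h : ∃ C ∈ K, v ∈ C := ⟨C, hC, hv⟩
    rw [hκ]
    simp only [dif_pos h]
    exact huniq _ h.choose_spec.1 _ hC v h.choose_spec.2 hv
  have hout : ∀ v, (¬ ∃ C ∈ K, v ∈ C) → κ v = C0 := by
    intro v h
    rw [hκ]
    simp only [dif_neg h]
  refine ⟨κ, ?_, hin⟩
  intro v hv w hw hadj
  by_cases h : ∃ C ∈ K, v ∈ C
  · obtain ⟨C, hC, hvC⟩ := h
    rcases (hK C hC).2.2 v hvC w hadj with h' | h'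
    · rw [hin C hC v hvC, hin C hC w h']
    · exact (hw h').elim
  · by_cases h' : ∃ C ∈ K, w ∈ C
    · obtain ⟨C, hC, hwC⟩ := h'
      rcases (hK C hC).2.2 w hwC v hadj.symm with h'' | h''
      · exact (h ⟨C, hC, h''⟩).elim
      · exact (hv h'').elim
    · rw [hout v h, hout w h']

theorem count_classes {V : Type} [Fintype V] [DecidableEq V] (S T : Finset V)
    (K : Finset (Finset V)) (hK : ∀ C ∈ K, Odd #C ∧ Disjoint C S)
    (hd : (K : Set (Finset V)).PairwiseDisjoint id) (κ : V → Finset V)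
    (hκ : ∀ C ∈ K, ∀ v ∈ C, κ v = C) :
    #K ≤ #((univ \ (S ∪ T)).image κ) + #(T \ S) := by
  classical
  obtain ⟨V', hV'⟩ : ∃ V' : Finset V, V' = univ \ (S ∪ T) := ⟨_, rfl⟩
  rw [← hV']
  have h0 : #(K.filter fun C => (C ∩ V').Nonempty) + #(K.filter fun C => ¬ (C ∩ V').Nonempty) = #K :=
    card_filter_add_card_filter_not _
  have h1 : #(K.filter fun C => (C ∩ V').Nonempty) ≤ #(V'.image κ) := by
    refine card_le_card ?_
    intro C hC
    rw [mem_filter] at hC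
    obtain ⟨v, hv⟩ := hC.2
    rw [mem_inter] at hv
    rw [mem_image]
    exact ⟨v, hv.2, hκ C hC.1 v hv.1⟩
  have h2 : #(K.filter fun C => ¬ (C ∩ V').Nonempty) ≤ #(T \ S) := by
    obtain ⟨K', hK'⟩ : ∃ K', K' = K.filter fun C => ¬ (C ∩ V').Nonempty := ⟨_, rfl⟩
    rw [← hK']
    have hsub : K' ⊆ K := by rw [hK']; exact filter_subset _ _
    have h3 : #(K'.biUnion id) = ∑ C ∈ K', #C := by
      refine card_biUnion ?_
      intro C hC D hD hne
      exact hd (hsub hC) (hsub hD) hne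
    have h4 : #K' ≤ ∑ C ∈ K', #C := by
      rw [card_eq_sum_ones]
      refine sum_le_sum fun C hC => ?_
      exact (hK C (hsub hC)).1.pos
    have h5 : K'.biUnion id ⊆ T \ S := by
      intro v hv
      rw [mem_biUnion] at hv
      obtain ⟨C, hC, hvC⟩ := hv
      have hvC' : v ∈ C := hvC
      have hvS : v ∉ S := Finset.disjoint_left.1 (hK C (hsub hC)).2 hvC'
      rw [mem_sdiff]
      refine ⟨?_, hvS⟩
      by_contra hvT
      rw [hK', mem_filter] at hC
      apply hC.2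
      refine ⟨v, mem_inter.2 ⟨hvC', ?_⟩⟩
      rw [hV', mem_sdiff, mem_union]
      exact ⟨mem_univ _, fun h => h.elim hvS hvT⟩
    calc #K' ≤ ∑ C ∈ K', #C := h4
      _ = #(K'.biUnion id) := h3.symm
      _ ≤ #(T \ S) := card_le_card h5
  omega

theorem same_pairs {α β : Type} [DecidableEq α] [DecidableEq β] (A : Finset α) (f : α → β) :
    (#(A.offDiag.filter fun x => f x.1 = f x.2) : ℤ) ≤
      ((#A : ℤ) - #(A.image f) + 1) * ((#A : ℤ) - #(A.image f)) := by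
  classical
  obtain ⟨m, hm⟩ : ∃ m : β → ℤ, m = fun c => (#(A.filter fun a => f a = c) : ℤ) - 1 := ⟨_, rfl⟩
  have hsum : ∑ c ∈ A.image f, (#(A.filter fun a => f a = c) : ℤ) = #A := by
    have h := card_eq_sum_card_image f A
    rw [h]
    push_cast
    rfl
  have hM : ∑ c ∈ A.image f, m c = (#A : ℤ) - #(A.image f) := by
    rw [hm]
    rw [sum_sub_distrib, hsum]
    simp
  have hm0 : ∀ c ∈ A.image f, 0 ≤ m c := by
    intro c hc
    obtain ⟨a, ha, rfl⟩ := mem_image.1 hc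
    rw [hm]
    have : 0 < #(A.filter fun a' => f a' = f a) := card_pos.2 ⟨a, mem_filter.2 ⟨ha, rfl⟩⟩
    simp only
    omega
  have hcount : (#(A.offDiag.filter fun x => f x.1 = f x.2) : ℤ) =
      ∑ c ∈ A.image f, (m c + 1) * m c := by
    have h1 : A.offDiag.filter (fun x => f x.1 = f x.2) =
        (A.image f).biUnion fun c => (A.filter fun a => f a = c).offDiag := by
      ext ⟨a, b⟩
      simp only [mem_filter, mem_offDiag, mem_biUnion, mem_image]
      constructor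
      · rintro ⟨⟨ha, hb, hab⟩, hf⟩
        exact ⟨f a, ⟨a, ha, rfl⟩, ⟨ha, rfl⟩, ⟨hb, hf.symm⟩, hab⟩
      · rintro ⟨c, -, ⟨ha, hfa⟩, ⟨hb, hfb⟩, hab⟩
        exact ⟨⟨ha, hb, hab⟩, hfa.trans hfb.symm⟩
    rw [h1, card_biUnion]
    · push_cast
      refine sum_congr rfl fun c hc => ?_
      rw [offDiag_card, hm]
      have : #(A.filter fun a => f a = c) ≤ #(A.filter fun a => f a = c) *
          #(A.filter fun a => f a = c) := Nat.le_mul_self _
      rw [Nat.cast_sub this]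
      push_cast
      ring
    · intro c _ d _ hcd
      rw [Function.onFun, Finset.disjoint_left]
      rintro ⟨a, b⟩ h h'
      rw [mem_offDiag, mem_filter, mem_filter] at h h'
      exact hcd (h.1.2.symm.trans h'.1.2)
  rw [hcount, ← hM]
  have h2 : ∀ c ∈ A.image f, m c ≤ ∑ c ∈ A.image f, m c := fun c hc =>
    single_le_sum hm0 hc
  calc ∑ c ∈ A.image f, (m c + 1) * m c ≤ ∑ c ∈ A.image f, ((∑ c ∈ A.image f, m c) + 1) * m c := by
        refine sum_le_sum fun c hc => mul_le_mul_of_nonneg_right ?_ (hm0 c hc)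
        linarith [h2 c hc]
    _ = _ := by rw [← mul_sum]

theorem pairs_miss {V : Type} [Fintype V] [DecidableEq V] (G : SimpleGraph V)
    (P : Finset (V × V)) (hP : ∀ x ∈ P, x.1 ≠ x.2 ∧ ¬ G.Adj x.1 x.2) : #P ≤ 2 * miss G := by
  classical
  have h1 : #P ≤ 2 * #(P.image fun x => s(x.1, x.2)) := by
    refine card_le_mul_card_image P 2 ?_
    intro e he
    obtain ⟨⟨a, b⟩, -, rfl⟩ := mem_image.1 he
    refine le_trans (card_le_card (t := {(a, b), (b, a)}) ?_) card_le_two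
    rintro ⟨c, d⟩ hw
    rw [mem_filter] at hw
    have h5 := hw.2
    simp only [Sym2.eq_iff] at h5
    rw [mem_insert, mem_singleton, Prod.mk.injEq, Prod.mk.injEq]
    exact h5
  have h2 : #(P.image fun x => s(x.1, x.2)) ≤ miss G := by
    unfold miss
    rw [← Set.ncard_coe_finset]
    refine Set.ncard_le_ncard ?_ (Set.toFinite _)
    intro e he
    rw [mem_coe, mem_image] at he
    obtain ⟨⟨a, b⟩, hab, rfl⟩ := he
    rw [SimpleGraph.mem_edgeSet, SimpleGraph.compl_adj]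
    exact hP _ hab
  omega

theorem arith (s r p q N : ℤ) (hs : 1 ≤ s) (hr : 0 ≤ r) (hp : 0 ≤ p) (hq : 0 ≤ q) (hp1 : p ≤ s - 1)
    (hq1 : q ≤ s - 1) (hN : s + r + p + q ≤ N) :
    (s + r) * (s + r - 1) ≤ N * (N - 1) - (2 * p + 1) * (2 * p) - (2 * q + 1) * (2 * q) ∨
    2 * (r * (2 * s - 1)) + r * (r - 1) ≤
      N * (N - 1) - (2 * p + 1) * (2 * p) - (2 * q + 1) * (2 * q) := by
  wlog hqp : q ≤ p generalizing p q
  · rcases this q p hq hp hq1 hp1 (by linarith) (by linarith) with h | h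
    · left; linarith
    · right; linarith
  have hN2 : (s + r + p + q) * (s + r + p + q - 1) ≤ N * (N - 1) := by
    nlinarith
  have hq2 : 0 ≤ q * (2 * s + 2 * r - 3 + 2 * p - 3 * q) := by
    rcases hq.eq_or_lt with h | h
    · rw [← h]; simp
    · apply mul_nonneg hq
      linarith
  have hp2 : p * (2 * r - s) ≤ p * (2 * s + 2 * r - 3 - 3 * p) := by
    apply mul_le_mul_of_nonneg_left _ hp
    linarith
  rcases le_total s (2 * r) with h | h
  · left
    have : 0 ≤ p * (2 * r - s) := mul_nonneg hp (by linarith)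
    nlinarith
  · right
    have : (s - 1) * (2 * r - s) ≤ p * (2 * r - s) := by
      nlinarith [mul_nonneg (by linarith : 0 ≤ s - 1 - p) (by linarith : 0 ≤ s - 2 * r)]
    nlinarith

theorem barrier {V : Type} [Fintype V] [DecidableEq V] (G : SimpleGraph V) (s d : ℕ)
    (hn : Fintype.card V = 2 * s + d) (hG : ∀ F, IsM G F → F.card < s) :
    ∃ (S : Finset V) (K : Finset (Finset V)), #S + d + 2 ≤ #K ∧
      (∀ C ∈ K, Odd #C ∧ Disjoint C S ∧ ∀ v ∈ C, ∀ w, G.Adj v w → w ∈ C ∨ w ∈ S) ∧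
      (K : Set (Finset V)).PairwiseDisjoint id := by
  rcases Pool.Agent.Lib.helper26.Berge.tb G d (by rw [hn]; exact ⟨s + d, by ring⟩) with h | h
  · obtain ⟨f, h1, h2, h3⟩ := h
    obtain ⟨F, hF, hF'⟩ := matching_of_inv G f h1 h2 d h3
    have := hG F hF
    omega
  · exact h

theorem twoCol : S_TwoCol := by
  classical
  intro V _ _ G G₁ G₂ s r hs hn hG hG1 hG2
  by_cases hsr : Fintype.card V < 2 * s
  · have h1 : s = 1 := by omega
    have h2 : r = 0 := by omega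
    subst h1 h2
    unfold mm m1
    simp
  obtain ⟨d, hd⟩ : ∃ d, Fintype.card V = 2 * s + d := ⟨Fintype.card V - 2 * s, by omega⟩
  obtain ⟨S₁, K₁, hc1, hK1, hd1⟩ := barrier G₁ s d hd hG1
  obtain ⟨S₂, K₂, hc2, hK2, hd2⟩ := barrier G₂ s d hd hG2
  obtain ⟨κ₁, ha1, hb1⟩ := classes G₁ S₁ K₁ hK1 hd1
  obtain ⟨κ₂, ha2, hb2⟩ := classes G₂ S₂ K₂ hK2 hd2
  have hp1 := count_classes S₁ S₂ K₁ (fun C hC => ⟨(hK1 C hC).1, (hK1 C hC).2.1⟩) hd1 κ₁ hb1
  have hp2 := count_classes S₂ S₁ K₂ (fun C hC => ⟨(hK2 C hC).1, (hK2 C hC).2.1⟩) hd2 κ₂ hb2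
  rw [union_comm S₂ S₁] at hp2
  obtain ⟨A, hA⟩ : ∃ A : Finset V, A = univ \ (S₁ ∪ S₂) := ⟨_, rfl⟩
  rw [← hA] at hp1 hp2
  have hAc : #A + #(S₁ ∪ S₂) = Fintype.card V := by
    rw [hA, ← card_univ]
    exact card_sdiff_add_card_eq_card (subset_univ _)
  have hu1 : #(S₁ ∪ S₂) = #S₁ + #(S₂ \ S₁) := by
    rw [← union_sdiff_self_eq_union, card_union_of_disjoint disjoint_sdiff]
  have hu2 : #(S₁ ∪ S₂) = #S₂ + #(S₁ \ S₂) := by
    rw [union_comm, ← union_sdiff_self_eq_union, card_union_of_disjoint disjoint_sdiff]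
  have hu3 : #(S₁ ∪ S₂) ≤ #S₁ + #S₂ := card_union_le _ _
  have hi1 : #(A.image κ₁) ≤ #A := card_image_le
  have hi2 : #(A.image κ₂) ≤ #A := card_image_le
  have hs1 := same_pairs A κ₁
  have hs2 := same_pairs A κ₂
  -- the good pairs
  obtain ⟨P, hP⟩ : ∃ P : Finset (V × V), P = A.offDiag.filter fun x =>
    ¬ (κ₁ x.1 = κ₁ x.2 ∨ κ₂ x.1 = κ₂ x.2) := ⟨_, rfl⟩
  have hPm : #P ≤ 2 * miss G := by
    refine pairs_miss G P ?_
    intro x hx
    rw [hP, mem_filter, mem_offDiag] at hx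
    obtain ⟨⟨h1, h2, h3⟩, h4⟩ := hx
    refine ⟨h3, fun hadj => h4 ?_⟩
    rw [hA, mem_sdiff, mem_union] at h1 h2
    rcases hG hadj with h | h
    · exact Or.inl (ha1 _ (fun h' => h1.2 (Or.inl h')) _ (fun h' => h2.2 (Or.inl h')) h)
    · exact Or.inr (ha2 _ (fun h' => h1.2 (Or.inr h')) _ (fun h' => h2.2 (Or.inr h')) h)
  have hPc : #(A.offDiag) ≤ #P + (#(A.offDiag.filter fun x => κ₁ x.1 = κ₁ x.2) +
      #(A.offDiag.filter fun x => κ₂ x.1 = κ₂ x.2)) := by
    have h1 : #(A.offDiag.filter fun x => κ₁ x.1 = κ₁ x.2 ∨ κ₂ x.1 = κ₂ x.2) + #P = #(A.offDiag) := by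
      rw [hP]
      exact card_filter_add_card_filter_not _
    have h2 : #(A.offDiag.filter fun x => κ₁ x.1 = κ₁ x.2 ∨ κ₂ x.1 = κ₂ x.2) ≤
        #(A.offDiag.filter fun x => κ₁ x.1 = κ₁ x.2) +
        #(A.offDiag.filter fun x => κ₂ x.1 = κ₂ x.2) := by
      rw [filter_or]
      exact card_union_le _ _
    omega
  have hoff : (#(A.offDiag) : ℤ) = (#A : ℤ) * ((#A : ℤ) - 1) := by
    rw [offDiag_card, Nat.cast_sub (Nat.le_mul_self _)]
    push_cast
    ring
  obtain ⟨N, hN⟩ : ∃ N : ℤ, N = #A := ⟨_, rfl⟩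
  obtain ⟨p, hp⟩ : ∃ p : ℤ, p = (s : ℤ) - 1 - #S₁ := ⟨_, rfl⟩
  obtain ⟨q, hq⟩ : ∃ q : ℤ, q = (s : ℤ) - 1 - #S₂ := ⟨_, rfl⟩
  have e1 : 0 ≤ (#A : ℤ) - #(A.image κ₁) ∧ (#A : ℤ) - #(A.image κ₁) ≤ 2 * p := by omega
  have e2 : 0 ≤ (#A : ℤ) - #(A.image κ₂) ∧ (#A : ℤ) - #(A.image κ₂) ≤ 2 * q := by omega
  have f1 : ((#A : ℤ) - #(A.image κ₁) + 1) * ((#A : ℤ) - #(A.image κ₁)) ≤ (2 * p + 1) * (2 * p) :=
    mul_le_mul (by linarith) e1.2 e1.1 (by linarith)
  have f2 : ((#A : ℤ) - #(A.image κ₂) + 1) * ((#A : ℤ) - #(A.image κ₂)) ≤ (2 * q + 1) * (2 * q) :=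
    mul_le_mul (by linarith) e2.2 e2.1 (by linarith)
  have hbound : N * (N - 1) - (2 * p + 1) * (2 * p) - (2 * q + 1) * (2 * q) ≤ 2 * (miss G : ℤ) := by
    have g1 : (#P : ℤ) ≤ 2 * (miss G : ℤ) := by exact_mod_cast hPm
    have g2 : (#(A.offDiag) : ℤ) ≤ #P + (#(A.offDiag.filter fun x => κ₁ x.1 = κ₁ x.2) +
      #(A.offDiag.filter fun x => κ₂ x.1 = κ₂ x.2)) := by exact_mod_cast hPc
    rw [hoff, ← hN] at g2
    linarith
  have hfin := arith s r p q N (by exact_mod_cast hs) (by positivity) (by omega) (by omega)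
    (by omega) (by omega) (by omega)
  have hch : ∀ n : ℕ, 2 * ((n.choose 2 : ℕ) : ℤ) = (n : ℤ) * ((n : ℤ) - 1) := by
    intro n
    have h := Nat.triangle_succ (n - 1)
    rcases n with _ | n
    · simp
    · have h3 : (n + 1) * n = 2 * (n + 1).choose 2 := by
        have h4 : 2 ∣ (n + 1) * n := by
          have := Nat.even_mul_succ_self n
          rw [mul_comm] at this
          exact this.two_dvd
        rw [Nat.choose_two_right, Nat.add_sub_cancel, Nat.mul_div_cancel' h4]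
      have h5 : (((n + 1) * n : ℕ) : ℤ) = ((2 * (n + 1).choose 2 : ℕ) : ℤ) := by rw [h3]
      push_cast at h5 ⊢
      linarith
  unfold mm
  rcases hfin with h | h
  · refine le_trans (min_le_right _ _) ?_
    unfold m2
    have := hch (s + r)
    push_cast at this
    have h3 : 2 * (((s + r).choose 2 : ℕ) : ℤ) ≤ 2 * (miss G : ℤ) := by linarith
    have h4 : (((s + r).choose 2 : ℕ) : ℤ) ≤ (miss G : ℤ) := by linarith
    exact_mod_cast h4
  · refine le_trans (min_le_left _ _) ?_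
    unfold m1
    have := hch r
    have h3 : 2 * ((r * (2 * s - 1) + r.choose 2 : ℕ) : ℤ) ≤ 2 * (miss G : ℤ) := by
      have h5 : ((2 * s - 1 : ℕ) : ℤ) = 2 * (s : ℤ) - 1 := by omega
      rw [Nat.cast_add, Nat.cast_mul, h5]
      linarith
    have h4 : ((r * (2 * s - 1) + r.choose 2 : ℕ) : ℤ) ≤ (miss G : ℤ) := by linarith
    exact_mod_cast h4

end Pool.Agent.H621.ZM.TwoCol
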