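import Pool.Agent.H621.ZM.Spec

set_option autoImplicit false
set_option linter.unusedSectionVars false

namespace Pool.Agent.H621.ZM.ZeroFree

open Finset

section
variable {G : Type} [AddCommGroup G] [DecidableEq G] {ι : Type} [DecidableEq ι]

/-- the set of all subset sums -/
def XX (c : ι → G) (L : Finset ι) : Finset G := L.powerset.image (fun T => ∑ i ∈ T, c i)

theorem mem_XX (c : ι → G) (L : Finset ι) (y : G) :
    y ∈ XX c L ↔ ∃ T, T ⊆ L ∧ ∑ i ∈ T, c i = y := by
  unfold XX
  rw [mem_image]
  constructor
  · rintro ⟨T, hT, h⟩
    exact ⟨T, mem_powerset.1 hT, h⟩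
  · rintro ⟨T, hT, h⟩
    exact ⟨T, mem_powerset.2 hT, h⟩

theorem zero_mem (c : ι → G) (L : Finset ι) : (0 : G) ∈ XX c L := by
  rw [mem_XX]
  exact ⟨∅, empty_subset _, sum_empty⟩

/-- subset sums after the choice of one element -/
theorem XX_split (c : ι → G) (L : Finset ι) (i : ι) (hi : i ∈ L) :
    XX c L = XX c (L.erase i) ∪ (XX c (L.erase i)).image (fun y => y + c i) := by
  ext y
  rw [mem_union, mem_image, mem_XX, mem_XX]
  constructor
  · rintro ⟨T, hT, h⟩
    by_cases hiT : i ∈ T
    · right
      refine ⟨∑ j ∈ T.erase i, c j, (mem_XX _ _ _).2 ⟨T.erase i, erase_subset_erase i hT, rfl⟩, ?_⟩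
      rw [sum_erase_add _ _ hiT, h]
    · left
      exact ⟨T, subset_erase.2 ⟨hT, hiT⟩, h⟩
  · rintro (⟨T, hT, h⟩ | ⟨z, hz, h⟩)
    · exact ⟨T, hT.trans (erase_subset _ _), h⟩
    · obtain ⟨T, hT, hz'⟩ := (mem_XX _ _ _).1 hz
      have hiT : i ∉ T := fun h => absurd (hT h) (notMem_erase i L)
      refine ⟨insert i T, insert_subset hi (hT.trans (erase_subset _ _)), ?_⟩
      rw [sum_insert hiT, hz', add_comm]
      exact h

theorem card_shift (Z : Finset G) (a : G) : (Z.image (fun y => y + a)).card = Z.card :=
  card_image_of_injective _ (add_left_injective a)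

/-- `-c i` is not a subset sum of the others -/
theorem neg_not_mem (c : ι → G) (L : Finset ι) (h0 : ∀ T, T ⊆ L → T.Nonempty → ∑ i ∈ T, c i ≠ 0)
    (i : ι) (hi : i ∈ L) : -c i ∉ XX c (L.erase i) := by
  intro h
  obtain ⟨T, hT, h1⟩ := (mem_XX _ _ _).1 h
  have hiT : i ∉ T := fun h => absurd (hT h) (notMem_erase i L)
  apply h0 (insert i T) (insert_subset hi (hT.trans (erase_subset _ _))) (insert_nonempty _ _)
  rw [sum_insert hiT, h1, add_neg_cancel]

/-- the subset sums of multiples of one element -/
theorem XX_eq (c : ι → G) (L : Finset ι) (g : G) (x : ι → ℕ) (hx : ∀ i ∈ L, c i = x i • g)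
    (hc : (XX c L).card = (∑ i ∈ L, x i) + 1) :
    XX c L = (range ((∑ i ∈ L, x i) + 1)).image (fun m => m • g) := by
  apply eq_of_subset_of_card_le
  · intro y hy
    obtain ⟨T, hT, h⟩ := (mem_XX _ _ _).1 hy
    rw [mem_image]
    refine ⟨∑ i ∈ T, x i, ?_, ?_⟩
    · rw [mem_range]
      have := sum_le_sum_of_subset (f := x) hT
      omega
    · rw [← h, sum_smul]
      exact sum_congr rfl fun i hi => (hx i (hT hi)).symm
  · rw [hc]
    refine card_image_le.trans ?_
    rw [card_range]

/-- distinct multiples -/
theorem card_mult (g : G) (N : ℕ) (hg : ∀ j : ℕ, 1 ≤ j → j ≤ N → j • g ≠ 0) :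
    ((range (N + 1)).image (fun m => m • g)).card = N + 1 := by
  rw [card_image_of_injOn, card_range]
  intro a ha b hb hab
  have ha' := mem_range.1 (mem_coe.1 ha)
  have hb' := mem_range.1 (mem_coe.1 hb)
  replace hab : a • g = b • g := hab
  by_contra hne
  rcases lt_or_gt_of_ne hne with h | h
  · apply hg (b - a) (by omega) (by omega)
    have : b • g = a • g + (b - a) • g := by rw [← add_smul]; congr 1; omega
    rw [← hab] at this
    exact (left_eq_add.1 this)
  · apply hg (a - b) (by omega) (by omega)
    have : a • g = b • g + (a - b) • g := by rw [← add_smul]; congr 1; omega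
    rw [hab] at this
    exact (left_eq_add.1 this)

theorem main (c : ι → G) : ∀ (n : ℕ) (L : Finset ι), L.card = n →
    (∀ T, T ⊆ L → T.Nonempty → ∑ i ∈ T, c i ≠ 0) → (XX c L).card + 1 ≤ 2 * L.card →
    ∃ (g : G) (x : ι → ℕ), (∀ i ∈ L, 1 ≤ x i ∧ c i = x i • g) ∧
      (XX c L).card = (∑ i ∈ L, x i) + 1 ∧ ∀ j : ℕ, 1 ≤ j → j ≤ ∑ i ∈ L, x i → j • g ≠ 0 := by
  intro n
  induction n with
  | zero =>
    intro L hL _ h
    omega
  | succ n ih =>
    intro L hL h0 hcard
    have hne : L.Nonempty := by
      rw [← card_pos]; omega
    by_cases hA : ∃ i ∈ L, (XX c (L.erase i)).card + 2 ≤ (XX c L).card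
    · -- case A
      obtain ⟨i, hi, hA⟩ := hA
      have hle : (L.erase i).card = n := by rw [card_erase_of_mem hi]; omega
      obtain ⟨g, x, hx, hY, hg⟩ := ih (L.erase i) hle
        (fun T hT hT' => h0 T (hT.trans (erase_subset _ _)) hT') (by omega)
      set M := ∑ j ∈ L.erase i, x j with hM
      have hYeq := XX_eq c (L.erase i) g x (fun j hj => (hx j hj).2) hY
      rw [← hM] at hYeq
      have hMn : n ≤ M := by
        rw [hM, ← hle, card_eq_sum_ones]
        exact sum_le_sum fun j hj => (hx j hj).1
      have hneg := neg_not_mem c L h0 i hi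
      have hsplit := XX_split c L i hi
      have hnd : ¬ Disjoint (XX c (L.erase i)) ((XX c (L.erase i)).image (fun y => y + c i)) := by
        intro hd
        have h1 := congrArg card hsplit
        rw [card_union_of_disjoint hd, card_shift, hY] at h1
        omega
      rw [not_disjoint_iff] at hnd
      obtain ⟨z, hz1, hz2⟩ := hnd
      rw [mem_image] at hz2
      obtain ⟨z', hz', hz2⟩ := hz2
      rw [hYeq, mem_image] at hz1 hz'
      obtain ⟨u, hu, hu'⟩ := hz1
      obtain ⟨v, hv, hv'⟩ := hz'
      rw [mem_range] at hu hv
      have huv : u • g = v • g + c i := by rw [hu', hv', hz2]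
      have hlt : v < u := by
        by_contra hle
        apply hneg
        rw [hYeq, mem_image]
        refine ⟨v - u, mem_range.2 (by omega), ?_⟩
        have h1 : v • g = u • g + (v - u) • g := by rw [← add_smul]; congr 1; omega
        rw [h1, add_assoc] at huv
        have h2 := left_eq_add.1 huv
        exact eq_neg_of_add_eq_zero_left h2
      obtain ⟨y, rfl⟩ : ∃ y, u = v + y := ⟨u - v, by omega⟩
      have hci : c i = y • g := by
        rw [add_smul] at huv
        exact (add_left_cancel huv).symm
      have hy1 : 1 ≤ y := by omega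
      have hyM : y ≤ M := by omega
      refine ⟨g, Function.update x i y, ?_, ?_, ?_⟩
      · intro j hj
        by_cases hji : j = i
        · subst hji
          rw [Function.update_self]
          exact ⟨hy1, hci⟩
        · rw [Function.update_of_ne hji]
          exact hx j (mem_erase.2 ⟨hji, hj⟩)
      all_goals
        have hsum : ∑ j ∈ L, Function.update x i y j = M + y := by
          rw [← sum_erase_add _ _ hi, Function.update_self, hM]
          congr 1
          apply sum_congr rfl
          intro j hj
          rw [Function.update_of_ne (ne_of_mem_erase hj)]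
        have hnz : ∀ j : ℕ, 1 ≤ j → j ≤ M + y → j • g ≠ 0 := by
          intro j hj1 hj2
          by_cases hjM : j ≤ M
          · exact hg j hj1 hjM
          · intro hj0
            apply hneg
            rw [hYeq, mem_image]
            refine ⟨j - y, mem_range.2 (by omega), ?_⟩
            have h1 : j • g = (j - y) • g + y • g := by rw [← add_smul]; congr 1; omega
            rw [hj0, ← hci] at h1
            exact eq_neg_of_add_eq_zero_left h1.symm
      · rw [hsum, hsplit, hYeq]
        have h1 : (range (M + 1)).image (fun m => m • g) ∪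
            ((range (M + 1)).image (fun m => m • g)).image (fun y => y + c i) =
            (range (M + y + 1)).image (fun m => m • g) := by
          ext w
          rw [mem_union, mem_image, mem_image, mem_image]
          constructor
          · rintro (⟨m, hm, h⟩ | ⟨w', hw', h⟩)
            · exact ⟨m, mem_range.2 (by have := mem_range.1 hm; omega), h⟩
            · rw [mem_image] at hw'
              obtain ⟨m, hm, hm'⟩ := hw'
              refine ⟨m + y, mem_range.2 (by have := mem_range.1 hm; omega), ?_⟩
              rw [add_smul, hm', ← hci, h]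
          · rintro ⟨m, hm, h⟩
            have hm' := mem_range.1 hm
            by_cases hmM : m ≤ M
            · exact Or.inl ⟨m, mem_range.2 (by omega), h⟩
            · right
              refine ⟨(m - y) • g, mem_image.2 ⟨m - y, mem_range.2 (by omega), rfl⟩, ?_⟩
              rw [hci, ← add_smul, ← h]
              congr 1
              omega
        rw [h1, card_mult g (M + y) hnz]
      · rw [hsum]
        exact hnz
    · -- case B
      push Not at hA
      have hne0 : ∀ i ∈ L, (XX c (L.erase i)).card + 1 ≤ (XX c L).card := by
        intro i hi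
        have hsub : XX c (L.erase i) ⊆ XX c L := by
          rw [XX_split c L i hi]; exact subset_union_left
        by_contra hlt
        have h1 : XX c (L.erase i) = XX c L := eq_of_subset_of_card_le hsub (by omega)
        have h2 : (XX c (L.erase i)).image (fun y => y + c i) = XX c (L.erase i) := by
          apply eq_of_subset_of_card_le
          · rw [h1, ]
            rw [h1.symm, ]
            intro w hw
            rw [h1, XX_split c L i hi]
            exact mem_union_right _ hw
          · rw [card_shift]
        have h3 := zero_mem c (L.erase i)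
        rw [← h2, mem_image] at h3
        obtain ⟨w, hw, hw'⟩ := h3
        apply neg_not_mem c L h0 i hi
        have : w = -c i := eq_neg_of_add_eq_zero_left hw'
        rwa [← this]
      set S := ∑ i ∈ L, c i with hS
      have hSX : S ∈ XX c L := (mem_XX _ _ _).2 ⟨L, Subset.refl _, rfl⟩
      have hYe : ∀ i ∈ L, XX c (L.erase i) = (XX c L).erase S := by
        intro i hi
        apply eq_of_subset_of_card_le
        · apply subset_erase.2
          refine ⟨by rw [XX_split c L i hi]; exact subset_union_left, ?_⟩
          intro hSY
          obtain ⟨T, hT, h1⟩ := (mem_XX _ _ _).1 hSY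
          apply h0 (L \ T) sdiff_subset ⟨i, mem_sdiff.2 ⟨hi, fun h => absurd (hT h) (notMem_erase i L)⟩⟩
          have h2 := sum_sdiff (f := c) (hT.trans (erase_subset _ _))
          rw [h1, ← hS] at h2
          exact left_eq_add.1 (by rw [add_comm]; exact h2.symm)
        · rw [card_erase_of_mem hSX]
          have := hA i hi
          omega
      have hZe : ∀ i ∈ L, ((XX c L).erase S).image (fun y => y + c i) = (XX c L).erase 0 := by
        intro i hi
        rw [← hYe i hi]
        apply eq_of_subset_of_card_le
        · apply subset_erase.2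
          refine ⟨by rw [XX_split c L i hi]; exact subset_union_right, ?_⟩
          intro h1
          rw [mem_image] at h1
          obtain ⟨w, hw, hw'⟩ := h1
          apply neg_not_mem c L h0 i hi
          have : w = -c i := eq_neg_of_add_eq_zero_left hw'
          rwa [← this]
        · rw [card_erase_of_mem (zero_mem c L), card_shift]
          have := hA i hi
          omega
      have hS0 : S ≠ 0 := h0 L (Subset.refl _) hne
      have hall : ∀ i ∈ L, ∀ j ∈ L, c i = c j := by
        intro i hi j hj
        by_contra hij
        have h0Z : (0 : G) ∈ (XX c L).erase S := mem_erase.2 ⟨hS0.symm, zero_mem c L⟩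
        -- invariance under `c i - c j`
        have hinv : ∀ z, z ∈ (XX c L).erase S → z + (c i - c j) ∈ (XX c L).erase S := by
          intro z hz
          have h1 : z + c i ∈ (XX c L).erase 0 := by
            rw [← hZe i hi]; exact mem_image_of_mem _ hz
          rw [← hZe j hj, mem_image] at h1
          obtain ⟨w, hw, hw'⟩ := h1
          have : z + (c i - c j) = w := by
            rw [← add_sub_assoc, ← hw', add_sub_cancel_right]
          rw [this]
          exact hw
        have hinv' : ∀ z, z ∈ (XX c L).erase S → z - (c i - c j) ∈ (XX c L).erase S := by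
          intro z hz
          have h1 : z + c j ∈ (XX c L).erase 0 := by
            rw [← hZe j hj]; exact mem_image_of_mem _ hz
          rw [← hZe i hi, mem_image] at h1
          obtain ⟨w, hw, hw'⟩ := h1
          have : z - (c i - c j) = w := by
            have h2 : w = z + c j - c i := by rw [← hw', add_sub_cancel_right]
            rw [h2]; abel
          rw [this]
          exact hw
        have he := hinv 0 h0Z
        rw [zero_add] at he
        have he2 : c i - c j ∈ (XX c L).erase 0 :=
          mem_erase.2 ⟨sub_ne_zero.2 hij, (mem_erase.1 he).2⟩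
        rw [← hZe i hi, mem_image] at he2
        obtain ⟨w, hw, hw'⟩ := he2
        have h3 := hinv' w hw
        have h4 : (w - (c i - c j)) + c i ∈ (XX c L).erase 0 := by
          rw [← hZe i hi]; exact mem_image_of_mem _ h3
        apply (mem_erase.1 h4).1
        have : w = c i - c j - c i := by rw [← hw', add_sub_cancel_right]
        rw [this]
        abel
      obtain ⟨i0, hi0⟩ := hne
      have hsum1 : ∑ i ∈ L, (fun _ : ι => 1) i = n + 1 := by
        rw [← hL, card_eq_sum_ones]
      have hg : ∀ j : ℕ, 1 ≤ j → j ≤ n + 1 → j • c i0 ≠ 0 := by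
        intro j hj1 hj2
        obtain ⟨T, hT, hTc⟩ := exists_subset_card_eq (s := L) (n := j) (by omega)
        have h1 := h0 T hT (by rw [← card_pos]; omega)
        rw [sum_congr rfl (fun i hi => hall i (hT hi) i0 hi0), sum_const, hTc] at h1
        exact h1
      have hXe : XX c L = (range (n + 1 + 1)).image (fun m => m • c i0) := by
        ext y
        rw [mem_XX, mem_image]
        constructor
        · rintro ⟨T, hT, h⟩
          refine ⟨T.card, mem_range.2 (by have := card_le_card hT; omega), ?_⟩
          rw [← h, sum_congr rfl (fun i hi => hall i (hT hi) i0 hi0), sum_const]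
        · rintro ⟨m, hm, h⟩
          have hm' := mem_range.1 hm
          obtain ⟨T, hT, hTc⟩ := exists_subset_card_eq (s := L) (n := m) (by omega)
          refine ⟨T, hT, ?_⟩
          rw [sum_congr rfl (fun i hi => hall i (hT hi) i0 hi0), sum_const, hTc]
          exact h
      refine ⟨c i0, fun _ => 1, ?_, ?_, ?_⟩
      · intro i hi
        exact ⟨le_refl _, by rw [one_smul]; exact hall i hi i0 hi0⟩
      · rw [hsum1, hXe, card_mult _ _ hg]
      · rw [hsum1]
        exact hg

end

theorem zeroFree : S_ZeroFree := by
  intro G _ _ ι _ L c h0 hcard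
  exact main c L.card L rfl h0 hcard

end Pool.Agent.H621.ZM.ZeroFree
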