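import Pool.Agent.H621.ZM.Values
import Pool.Agent.H621.ZM.Interval
import Pool.Agent.H621.ZM.Swap1
import Pool.Agent.H621.ZM.Swap2
import Pool.Agent.H621.ZM.ZeroFree
import Pool.Agent.H621.ZM.Struct
import Pool.Agent.H621.ZM.Sums
import Pool.Agent.H621.ZM.Pop
import Pool.Agent.H621.ZM.Jump
import Pool.Agent.H621.ZM.Barrier
import Pool.Agent.H621.ZM.ExtNear
import Pool.Agent.H621.ZM.TwoCol
import Pool.Agent.H621.ZM.Big
import Pool.Agent.H621.ZM.Core
import Pool.Agent.H621.ZM.ConnNear
import Pool.Agent.H621.ZM.ConnPerf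

/-! # All parts together -/

set_option autoImplicit false

namespace Pool.Agent.H621.ZM.Main

open Finset Pool.Agent.H621.ZM.Final

theorem conn : S_Conn :=
  Conn.conn Jump.jump (ExtNear.near Barrier.barrier) ConnNear.connNear ConnPerf.connPerf

theorem parts : Parts where
  dir := by
    intro V _ _ G s r c hs hr hrs hn hd hc
    exact direct (Swap1.swap1 Interval.interval) (Swap2.swap2 Interval.interval)
      (Struct.struct ZeroFree.zeroFree) (Pop.pop Sums.sums) Jump.jump Core.core
      (ExtNear.ext1 Barrier.barrier) TwoCol.twoCol conn G s r c hs hr hrs hn hd hc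
  big := by
    intro V _ _ G s r c hs hsr hn hd hc
    exact bigdeg Big.big G s r c hs hsr hn hd hc

end Pool.Agent.H621.ZM.Main
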