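import Pool.Agent.H621.ZM.Final
import Pool.Agent.H621.ZM.Constr

/-! # From non-edges to the two numbers -/

set_option autoImplicit false

namespace Pool.Agent.H621.ZM.Values

open Finset Pool.Agent.H621.ZM.Final
open Pool.Agent.Results.MP_22c8d1_co.OutsideMiddleRange (small_good ncard_le ncard_top two_to_zero)

/-- the edge numbers of the graphs on `n` vertices with a two-colouring without monochromatic `s K_2` -/
def set2 (n s : ℕ) : Set ℕ :=
  {k : ℕ | ∃ G : SimpleGraph (Fin n), G.edgeSet.ncard = k ∧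
      ∃ c : Sym2 (Fin n) → Bool, ∀ F : Finset (Sym2 (Fin n)),
        (↑F : Set (Sym2 (Fin n))) ⊆ G.edgeSet → F.card = s →
        (∀ e ∈ F, ∀ f ∈ F, e ≠ f → ∀ v ∈ e, v ∉ f) →
        ¬ ∃ b : Bool, ∀ e ∈ F, c e = b}

/-- the edge numbers of the graphs on `n` vertices with a `ZMod s`-colouring without zero-sum `s K_2` -/
def setZ (n s : ℕ) : Set ℕ :=
  {k : ℕ | ∃ G : SimpleGraph (Fin n), G.edgeSet.ncard = k ∧
      ∃ c : Sym2 (Fin n) → ZMod s, ∀ F : Finset (Sym2 (Fin n)),
        (↑F : Set (Sym2 (Fin n))) ⊆ G.edgeSet → F.card = s →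
        (∀ e ∈ F, ∀ f ∈ F, e ≠ f → ∀ v ∈ e, v ∉ f) →
        ∑ e ∈ F, c e ≠ 0}

/-- `T(n, s K_2, 2)` -/
noncomputable def T2 (n s : ℕ) : ℕ := sSup (set2 n s)

/-- `T(n, s K_2, ZMod s)` -/
noncomputable def TZ (n s : ℕ) : ℕ := sSup (setZ n s)

theorem bdd2 (n s : ℕ) : BddAbove (set2 n s) := by
  refine ⟨n.choose 2, ?_⟩
  rintro k ⟨G, rfl, -⟩
  exact ncard_le G

theorem bddZ (n s : ℕ) : BddAbove (setZ n s) := by
  refine ⟨n.choose 2, ?_⟩
  rintro k ⟨G, rfl, -⟩
  exact ncard_le G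

theorem sub2Z (n s : ℕ) (hs : 1 ≤ s) : set2 n s ⊆ setZ n s := by
  rintro k ⟨G, rfl, c, hc⟩
  exact ⟨G, rfl, two_to_zero hs G c hc⟩

theorem ne2 (n s : ℕ) (hs : 1 ≤ s) : (set2 n s).Nonempty := by
  refine ⟨_, ⊥, rfl, fun _ => true, ?_⟩
  intro F hF hFc _
  exfalso
  have : F = ∅ := by
    apply Finset.eq_empty_of_forall_notMem
    intro e he
    have := hF he
    simp at this
  rw [this] at hFc
  simp at hFc
  omega

theorem T2_le_TZ (n s : ℕ) (hs : 1 ≤ s) : T2 n s ≤ TZ n s :=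
  csSup_le_csSup (bddZ n s) (ne2 n s hs) (sub2Z n s hs)

theorem edges_miss {n : ℕ} (G : SimpleGraph (Fin n)) : G.edgeSet.ncard + miss G = n.choose 2 := by
  have h1 : G.edgeSet ∪ Gᶜ.edgeSet = (⊤ : SimpleGraph (Fin n)).edgeSet := by
    rw [← SimpleGraph.edgeSet_sup, sup_compl_eq_top]
  have h2 : Disjoint G.edgeSet Gᶜ.edgeSet := by
    rw [SimpleGraph.disjoint_edgeSet]
    exact disjoint_compl_right
  rw [← ncard_top n, ← h1, Set.ncard_union_eq h2 (Set.toFinite _) (Set.toFinite _)]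
  rfl

/-- transport to another vertex set -/
theorem transport {V W : Type} (e : W ≃ V) (G : SimpleGraph V) (s : ℕ)
    (c : Sym2 V → ZMod s) (hc : ZSFree G s c) :
    ZSFree (G.comap e) s (fun x => c (x.map e)) ∧ miss (G.comap e) = miss G := by
  classical
  constructor
  · intro F hF hcard hsum
    refine hc (F.map (e.toEmbedding.sym2Map)) ?_ (by rw [card_map]; exact hcard)
      (by rw [sum_map]; exact hsum)
    constructor
    · intro x hx
      rw [mem_map] at hx
      obtain ⟨e', he', rfl⟩ := hx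
      have := hF.1 e' he'
      induction e' using Sym2.ind with
      | _ x y => exact this
    · intro x hx g hg heg u hu hu2
      rw [mem_map] at hx hg
      obtain ⟨e', he', rfl⟩ := hx
      obtain ⟨g', hg', rfl⟩ := hg
      have hne : e' ≠ g' := fun h => heg (by rw [h])
      have hu' : u ∈ Sym2.map e e' := hu
      have hu2' : u ∈ Sym2.map e g' := hu2
      rw [Sym2.mem_map] at hu' hu2'
      obtain ⟨a, ha, rfl⟩ := hu'
      obtain ⟨b, hb, hab⟩ := hu2'
      have : b = a := e.injective hab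
      exact hF.2 e' he' g' hg' hne a ha (this ▸ hb)
  · unfold miss
    rw [← Set.ncard_image_of_injective _ (Sym2.map.injective e.injective)]
    congr 1
    ext x
    constructor
    · rintro ⟨y, hy, rfl⟩
      induction y using Sym2.ind with
      | _ a b =>
        rw [SimpleGraph.mem_edgeSet, SimpleGraph.compl_adj] at hy
        rw [Sym2.map_mk, SimpleGraph.mem_edgeSet, SimpleGraph.compl_adj]
        exact ⟨fun h => hy.1 (e.injective h), hy.2⟩
    · intro hx
      induction x using Sym2.ind with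
      | _ a b =>
        rw [SimpleGraph.mem_edgeSet, SimpleGraph.compl_adj] at hx
        refine ⟨s(e.symm a, e.symm b), ?_, ?_⟩
        · rw [SimpleGraph.mem_edgeSet, SimpleGraph.compl_adj, SimpleGraph.comap_adj]
          simp only [Equiv.apply_symm_apply]
          exact ⟨fun h => hx.1 (e.symm.injective h), hx.2⟩
        · rw [Sym2.map_mk]
          simp

theorem zs_iff {n s : ℕ} (G : SimpleGraph (Fin n)) (c : Sym2 (Fin n) → ZMod s) :
    ZSFree G s c ↔ ∀ F : Finset (Sym2 (Fin n)),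
        (↑F : Set (Sym2 (Fin n))) ⊆ G.edgeSet → F.card = s →
        (∀ e ∈ F, ∀ f ∈ F, e ≠ f → ∀ v ∈ e, v ∉ f) → ∑ e ∈ F, c e ≠ 0 := by
  constructor
  · intro h F h1 h2 h3
    exact h F ⟨fun e he => h1 he, h3⟩ h2
  · intro h F h1 h2
    exact h F (fun e he => h1.1 e he) h2 h1.2

/-- the value of `T(n, s K_2, 2)` -/
theorem T2_eq (hTwo : S_TwoCol) (hCo : S_Constr) (n s r : ℕ) (hs : 1 ≤ s) (hn : n + 2 = 3 * s + r) :
    T2 n s + mm s r = n.choose 2 := by
  obtain ⟨G, hG, c, hc⟩ := hCo n s r hs hn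
  have h1 : G.edgeSet.ncard ≤ T2 n s := le_csSup (bdd2 n s) ⟨G, rfl, c, hc⟩
  have h2 : T2 n s + mm s r ≤ n.choose 2 := by
    obtain ⟨G', hG', c', hc'⟩ := Nat.sSup_mem (ne2 n s hs) (bdd2 n s)
    have h3 : G'.edgeSet.ncard = T2 n s := hG'
    rw [← h3, ← edges_miss G']
    refine Nat.add_le_add_left ?_ _
    let H : Bool → SimpleGraph (Fin n) := fun b =>
      { Adj := fun x y => G'.Adj x y ∧ c' s(x, y) = b
        symm := ⟨fun x y h => ⟨h.1.symm, by rw [Sym2.eq_swap]; exact h.2⟩⟩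
        loopless := ⟨fun x h => G'.loopless.irrefl x h.1⟩ }
    have hH : ∀ b, ∀ F, IsM (H b) F → F.card < s := by
      intro b F hF
      by_contra hcon
      rw [not_lt] at hcon
      obtain ⟨T, hT, hTc⟩ := exists_subset_card_eq hcon
      refine hc' T ?_ hTc (fun e he f hf => hF.2 e (hT he) f (hT hf)) ⟨b, ?_⟩
      · intro e he
        have := hF.1 e (hT he)
        induction e using Sym2.ind with
        | _ x y => exact this.1
      · intro e he
        have := hF.1 e (hT he)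
        induction e using Sym2.ind with
        | _ x y => exact this.2
    refine hTwo (Fin n) G' (H true) (H false) s r hs (by rw [Fintype.card_fin]; exact hn) ?_
      (hH true) (hH false)
    intro x y hxy
    show (H true).Adj x y ∨ (H false).Adj x y
    cases hb : c' s(x, y) with
    | true => exact Or.inl ⟨hxy, hb⟩
    | false => exact Or.inr ⟨hxy, hb⟩
  omega

/-- from non-edges to `T(n, s K_2, ZMod s)` -/
theorem TZ_le (n s : ℕ) (hs : 1 ≤ s) (m E : ℕ)
    (h : ∀ (G : SimpleGraph (Fin n)) (c : Sym2 (Fin n) → ZMod s), ZSFree G s c → m ≤ miss G + E) :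
    TZ n s + m ≤ n.choose 2 + E := by
  have hne : (setZ n s).Nonempty := (ne2 n s hs).mono (sub2Z n s hs)
  obtain ⟨G, hG, c, hc⟩ := Nat.sSup_mem hne (bddZ n s)
  have h3 : G.edgeSet.ncard = TZ n s := hG
  have h4 := h G c ((zs_iff G c).2 hc)
  have h5 := edges_miss G
  omega

theorem small (n s : ℕ) (hs : 1 ≤ s) (hn : n + 2 ≤ 3 * s) : T2 n s = TZ n s := by
  apply le_antisymm (T2_le_TZ n s hs)
  obtain ⟨c, hc⟩ := small_good n s hs hn
  have h1 : n.choose 2 ≤ T2 n s := le_csSup (bdd2 n s) ⟨⊤, ncard_top n, c, hc⟩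
  have hne : (setZ n s).Nonempty := (ne2 n s hs).mono (sub2Z n s hs)
  have h2 : TZ n s ≤ n.choose 2 := by
    apply csSup_le hne
    rintro k ⟨G, rfl, -⟩
    exact ncard_le G
  omega

theorem mm_one (s : ℕ) (hs : 1 ≤ s) : mm s 1 = 2 * s - 1 := by
  unfold mm
  have h1 : m1 s 1 = 2 * s - 1 := by simp [m1]
  rw [h1]
  apply min_eq_left
  have h2 := m1_m2 s 1 hs
  rw [h1] at h2
  have h3 : (s - 1 : ℤ) * (2 * (1 : ℕ) - s) ≤ 0 := by
    rcases Nat.lt_or_ge s 2 with h | h
    · have : s = 1 := by omega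
      subst this
      simp
    · apply mul_nonpos_of_nonneg_of_nonpos
      · omega
      · push_cast; omega
  omega

/-- the gap at `n` is at most the gap at `3 s - 1` -/
theorem gap (hP : Parts) (hTwo : S_TwoCol) (hCo : S_Constr) (n s : ℕ) (hs : 1 ≤ s) :
    TZ n s + T2 (3 * s - 1) s ≤ T2 n s + TZ (3 * s - 1) s := by
  have hle := T2_le_TZ (3 * s - 1) s hs
  rcases Nat.lt_or_ge n (3 * s - 1) with hn | hn
  · rw [small n s hs (by omega)]
    omega
  · obtain ⟨r, hr, hr1⟩ : ∃ r, n + 2 = 3 * s + r ∧ 1 ≤ r := ⟨n + 2 - 3 * s, by omega, by omega⟩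
    have h1 := T2_eq hTwo hCo n s r hs hr
    have h2 := T2_eq hTwo hCo (3 * s - 1) s 1 hs (by omega)
    rw [mm_one s hs] at h2
    have hbase : ∀ (V : Type) [Fintype V] [DecidableEq V] (G : SimpleGraph V)
        (c : Sym2 V → ZMod s), Fintype.card V + 2 = 3 * s + 1 → ZSFree G s c →
        2 * s - 1 ≤ miss G + (TZ (3 * s - 1) s - T2 (3 * s - 1) s) := by
      intro V _ _ G c hV hc
      have e : Fin (3 * s - 1) ≃ V := (Fintype.equivFinOfCardEq (by omega)).symm
      obtain ⟨h3, h4⟩ := transport e G s c hc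
      have h5 : (G.comap e).edgeSet.ncard ≤ TZ (3 * s - 1) s :=
        le_csSup (bddZ _ s) ⟨_, rfl, _, (zs_iff _ _).1 h3⟩
      have h6 := edges_miss (G.comap e)
      omega
    have h7 := TZ_le n s hs (mm s r) (TZ (3 * s - 1) s - T2 (3 * s - 1) s) (by
      intro G c hc
      exact all hP s _ hs hbase _ 1 le_rfl (Or.inr rfl)
        (fun r _ _ => Nat.add_le_add_right (min_le_left _ _) _) (fun _ => le_rfl) r hr1 (Fin n) G c
        (by rw [Fintype.card_fin]; exact hr) hc)
    omega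

/-- the gap at `3 s - 1` -/
theorem gap_le (hTwo : S_TwoCol) (hCo : S_Constr) (s : ℕ) (hs : 1 ≤ s) :
    TZ (3 * s - 1) s ≤ T2 (3 * s - 1) s + (2 * s - 1) := by
  have h2 := T2_eq hTwo hCo (3 * s - 1) s 1 hs (by omega)
  rw [mm_one s hs] at h2
  have h3 := TZ_le (3 * s - 1) s hs 0 0 (fun _ _ _ => by omega)
  omega

/-- equality for `n ≥ (7 s + 1) / 2`, `s ≥ 7` -/
theorem large (hP : Parts) (hTwo : S_TwoCol) (hCo : S_Constr) (n s : ℕ) (hs : 7 ≤ s)
    (hn : 7 * s + 1 ≤ 2 * n) : T2 n s = TZ n s := by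
  apply le_antisymm (T2_le_TZ n s (by omega))
  obtain ⟨r, hr, hr1⟩ : ∃ r, n + 2 = 3 * s + r ∧ s + 5 ≤ 2 * r := ⟨n + 2 - 3 * s, by omega, by omega⟩
  have h1 := T2_eq hTwo hCo n s r (by omega) hr
  have h7 := TZ_le n s (by omega) (mm s r) 0 (by
    intro G c hc
    refine all hP s (2 * s - 1) (by omega) (fun _ _ _ _ _ _ _ => by omega) 0 ((s + 6) / 2)
      (by omega) (Or.inl (by omega)) ?_ (by omega) r (by omega) (Fin n) G c
      (by rw [Fintype.card_fin]; exact hr) hc
    intro r' hr' hr's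
    rw [mm_eq s r' (by omega) (by omega)]
    have h2 := m1_m2 s r' (by omega)
    have h3 : (s - 1 : ℤ) * 5 ≤ (s - 1) * (2 * r' - s) := by
      apply mul_le_mul_of_nonneg_left
      · omega
      · omega
    omega)
  omega

end Pool.Agent.H621.ZM.Values
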